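import Pool.Agent.GP2.Defs

/-!
# BLK: blow-ups of hypergraphs by words
-/

namespace Pool.Agent.GP2

open Finset

noncomputable section

/-- Fibred sums: the norm of a set of pairs is bounded by the norm of the base if all fibres have
norm at most one. -/
theorem Blk_fibre {p C : ℝ} (hp : 0 < p) {k : ℕ} {X Y : Type} [Fintype X] [Fintype Y]
    (F : Finset (Fin k → X)) (W : (Fin k → X) → Finset (Fin k → Y))
    (hF : NormLE p F C) (hW : ∀ c ∈ F, NormLE p (W c) 1)
    (x : Fin k → X × Y → ℝ) (hx : ∀ j y, 0 ≤ x j y) :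
    ∑ c ∈ F, ∑ w ∈ W c, ∏ j, x j (c j, w j) ≤ C * ∏ j, (∑ y, x j y ^ p) ^ (1 / p) := by
  have hs : ∀ j a, 0 ≤ ∑ b, x j (a, b) ^ p := fun j a =>
    Finset.sum_nonneg fun b _ => Real.rpow_nonneg (hx _ _) _
  have h1 : ∀ c ∈ F, ∑ w ∈ W c, ∏ j, x j (c j, w j) ≤
      ∏ j, (fun (j : Fin k) (a : X) => (∑ b, x j (a, b) ^ p) ^ (1 / p)) j (c j) := by
    intro c hc
    have := hW c hc (fun j b => x j (c j, b)) (fun j b => hx _ _)
    simpa using this
  have h2 : ∀ j a, ((∑ b, x j (a, b) ^ p) ^ (1 / p)) ^ p = ∑ b, x j (a, b) ^ p := by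
    intro j a
    rw [← Real.rpow_mul (hs j a), one_div_mul_cancel hp.ne', Real.rpow_one]
  refine (Finset.sum_le_sum h1).trans ((hF _ fun j a => Real.rpow_nonneg (hs j a) _).trans ?_)
  refine le_of_eq ?_
  congr 1
  refine Finset.prod_congr rfl fun j _ => ?_
  simp only [h2]
  rw [Fintype.sum_prod_type]

/-- Products of sets of words: if `O` has norm at most `1` then so has the set of all words of
length `N` of elements of `O`.

PROOF. Induction on `N` with `Fin.cons`: for `N = 0` there is one word and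
`∏ x_j(*) = ∏ ‖x_j‖_p`. Step:
`∑_{o ∈ O} ∑_{w'} ∏ x_j(cons (o j) (w' j)) ≤ ∑_{o ∈ O} ∏_j ‖x_j(cons (o j) ·)‖_p
≤ ∏_j (∑_l ‖x_j(cons l ·)‖_p^p)^{1/p} = ∏_j ‖x_j‖_p`. -/
theorem normLE_words {p : ℝ} (hp : 0 < p) {k : ℕ} {L : Type} [Fintype L] [DecidableEq L]
    (O : Finset (Fin k → L)) (hO : NormLE p O 1) (N : ℕ) :
    NormLE p (univ.filter fun w : Fin k → Fin N → L => ∀ n, (fun j => w j n) ∈ O) 1 := by
  induction N with
  | zero =>
    intro x hx
    have h1 : (univ.filter fun w : Fin k → Fin 0 → L => ∀ n, (fun j => w j n) ∈ O) =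
        {fun _ => Fin.elim0} := by
      ext w
      simp only [mem_filter, mem_univ, true_and, mem_singleton]
      constructor
      · intro _
        funext j n
        exact n.elim0
      · intro _ n
        exact n.elim0
    rw [h1, Finset.sum_singleton, one_mul]
    refine le_of_eq (Finset.prod_congr rfl fun j _ => ?_)
    rw [Fintype.sum_unique, ← Real.rpow_mul (hx _ _), mul_one_div_cancel hp.ne', Real.rpow_one]
    congr 1
  | succ N ih =>
    intro x hx
    have h := Blk_fibre hp O
      (fun _ => univ.filter fun w : Fin k → Fin N → L => ∀ n, (fun j => w j n) ∈ O)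
      hO (fun _ _ => ih) (fun j y => x j (Fin.cons y.1 y.2 : Fin (N + 1) → L))
      (fun j y => hx _ _)
    have hr : ∀ j, ∑ y : L × (Fin N → L), x j (Fin.cons y.1 y.2 : Fin (N + 1) → L) ^ p =
        ∑ y : Fin (N + 1) → L, x j y ^ p := by
      intro j
      exact Fintype.sum_equiv (Fin.consEquiv fun _ => L) _ _ fun y => rfl
    simp only [hr] at h
    refine le_of_eq_of_le ?_ h
    rw [← Finset.sum_product']
    refine Finset.sum_bij' (fun w _ => (fun j => w j 0, fun j => Fin.tail (w j)))
      (fun v _ j => (Fin.cons (v.1 j) (v.2 j) : Fin (N + 1) → L)) ?_ ?_ ?_ ?_ ?_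
    · intro w hw
      simp only [mem_filter, mem_univ, true_and] at hw
      simp only [mem_product, mem_filter, mem_univ, true_and]
      exact ⟨hw 0, fun n => hw n.succ⟩
    · intro v hv
      simp only [mem_product, mem_filter, mem_univ, true_and] at hv
      simp only [mem_filter, mem_univ, true_and]
      intro n
      refine Fin.cases ?_ (fun n => ?_) n
      · simpa using hv.1
      · simpa using hv.2 n
    · intro w _
      funext j
      exact Fin.cons_self_tail (w j)
    · intro v _
      rfl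
    · intro w _
      refine Finset.prod_congr rfl fun j _ => ?_
      simp only [Fin.cons_self_tail]

/-- The blow-up of `F`. -/
def HB {k : ℕ} {X L S : Type} [Fintype X] [DecidableEq X] [Fintype L] [DecidableEq L]
    (F : Finset (Fin k → X)) (ep : S → Fin k × X → L) (N : ℕ) :
    Finset (Fin k → X × (Fin N → L)) :=
  open Classical in
  univ.filter fun d => (fun j => (d j).1) ∈ F ∧
    ∀ n, ∃ s, ∀ j, (d j).2 n = ep s (j, (d j).1)

/-- The blow-up has the norm of `F`.

PROOF. For fixed `c ∈ F` the words over `c` are the words of length `N` of elements of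
`O_c = image of s ↦ (ep s (j, c j))_j`, so by `normLE_words`
`∑_{d over c} ∏ x_j(c j, w_j) ≤ ∏_j (∑_w x_j(c j, w)^p)^{1/p}`; then use `NormLE p F C` for
`y_j(x) = (∑_w x_j(x, w)^p)^{1/p}`. -/
theorem normLE_HB {p C : ℝ} (hp : 0 < p) {k : ℕ} {X L S : Type} [Fintype X] [DecidableEq X]
    [Fintype L] [DecidableEq L] [Fintype S] (F : Finset (Fin k → X)) (ep : S → Fin k × X → L)
    (hF : NormLE p F C) (hE : ∀ c ∈ F, NormLE p (univ.image fun (s : S) (j : Fin k) => ep s (j, c j)) 1)
    (N : ℕ) : NormLE p (HB F ep N) C := by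
  intro x hx
  have h := Blk_fibre hp F
    (fun c => univ.filter fun w : Fin k → Fin N → L => ∀ n, (fun j => w j n) ∈
      univ.image fun (s : S) (j : Fin k) => ep s (j, c j))
    hF (fun c hc => normLE_words hp _ (hE c hc) N) x hx
  refine le_of_eq_of_le ?_ h
  rw [Finset.sum_sigma']
  refine Finset.sum_bij' (fun d _ => ⟨fun j => (d j).1, fun j => (d j).2⟩)
    (fun v _ j => (v.1 j, v.2 j)) ?_ ?_ ?_ ?_ ?_
  · intro d hd
    simp only [HB, mem_filter, mem_univ, true_and] at hd
    simp only [mem_sigma, mem_filter, mem_univ, true_and, mem_image]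
    refine ⟨hd.1, fun n => ?_⟩
    obtain ⟨s, hs⟩ := hd.2 n
    exact ⟨s, funext fun j => (hs j).symm⟩
  · intro v hv
    simp only [mem_sigma, mem_filter, mem_univ, true_and, mem_image] at hv
    simp only [HB, mem_filter, mem_univ, true_and]
    refine ⟨hv.1, fun n => ?_⟩
    obtain ⟨s, hs⟩ := hv.2 n
    exact ⟨s, fun j => (congrFun hs j).symm⟩
  · intro d _
    rfl
  · intro v _
    rfl
  · intro d _
    rfl

/-- Reading a blow-up along a word of states gives back `F`.

PROOF. If `c ∈ F` then the words `(ep (s n) (j, c j))_n` satisfy the condition with the state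
`s n`. Conversely the first components are in `F` by definition. -/
theorem mem_HB_iff {k : ℕ} {X L S : Type} [Fintype X] [DecidableEq X] [Fintype L] [DecidableEq L]
    (F : Finset (Fin k → X)) (ep : S → Fin k × X → L) (N : ℕ) (s : Fin N → S) (c : Fin k → X) :
    (fun j => (c j, fun n => ep (s n) (j, c j))) ∈ HB F ep N ↔ c ∈ F := by
  simp only [HB, mem_filter, mem_univ, true_and]
  constructor
  · intro h
    exact h.1
  · intro h
    exact ⟨h, fun n => ⟨s n, fun _ => rfl⟩⟩

end

end Pool.Agent.GP2
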