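import Pool.Agent.GP2.Cnt1C

/-!
# CNT 1: first moments of generated structures
-/

namespace Pool.Agent.GP2

open Finset

noncomputable section

variable (P : Par)

/-- The pairs of tuples with overlapping good structures. -/
def setO {X : Type} [Fintype X] [DecidableEq X] (m m' : ℕ) (ω : Finset (Fin P.k → X)) :
    Finset ((Fin m → Fin P.k × X) × (Fin m' → Fin P.k × X)) :=
  open Classical in
  univ.filter fun s => ∃ (t : ℕ) (e : Fin t → Fin P.k → X) (t' : ℕ) (e' : Fin t' → Fin P.k → X),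
    (∀ i, e i ∈ ω) ∧ (∀ i, e' i ∈ ω) ∧ Good P.q P.n s.1 e ∧ Good P.q P.n s.2 e' ∧
    (VS s.1 e ∩ VS s.2 e').Nonempty

/-- The image of an appended tuple. -/
lemma cnt1_image_append {α : Type*} [DecidableEq α] {a b : ℕ} (f : Fin a → α) (g : Fin b → α) :
    univ.image (Fin.append f g) = univ.image f ∪ univ.image g := by
  ext x
  simp only [mem_image, mem_univ, true_and, mem_union]
  constructor
  · rintro ⟨i, hi⟩
    revert hi
    refine Fin.addCases (fun i hi => ?_) (fun i hi => ?_) i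
    · rw [Fin.append_left] at hi
      exact Or.inl ⟨i, hi⟩
    · rw [Fin.append_right] at hi
      exact Or.inr ⟨i, hi⟩
  · rintro (⟨i, hi⟩ | ⟨i, hi⟩)
    · exact ⟨Fin.castAdd b i, by rw [Fin.append_left]; exact hi⟩
    · exact ⟨Fin.natAdd a i, by rw [Fin.append_right]; exact hi⟩

/-- The vertices of the edges of an appended tuple. -/
lemma cnt1_biUnion_append {k : ℕ} {X : Type*} [DecidableEq X] {a b : ℕ} (f : Fin a → Fin k → X)
    (g : Fin b → Fin k → X) :
    (univ.biUnion fun i => Vx (Fin.append f g i)) =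
      (univ.biUnion fun i => Vx (f i)) ∪ univ.biUnion fun i => Vx (g i) := by
  ext x
  simp only [mem_biUnion, mem_univ, true_and, mem_union]
  constructor
  · rintro ⟨i, hi⟩
    revert hi
    refine Fin.addCases (fun i hi => ?_) (fun i hi => ?_) i
    · rw [Fin.append_left] at hi
      exact Or.inl ⟨i, hi⟩
    · rw [Fin.append_right] at hi
      exact Or.inr ⟨i, hi⟩
  · rintro (⟨i, hi⟩ | ⟨i, hi⟩)
    · exact ⟨Fin.castAdd b i, by rw [Fin.append_left]; exact hi⟩
    · exact ⟨Fin.natAdd a i, by rw [Fin.append_right]; exact hi⟩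

/-- The vertices of appended tuples. -/
lemma cnt1_VS_append {k : ℕ} {X : Type*} [DecidableEq X] {m m' t t' : ℕ}
    (lam : Fin m → Fin k × X) (lam' : Fin m' → Fin k × X) (e : Fin t → Fin k → X)
    (e' : Fin t' → Fin k → X) :
    VS (Fin.append lam lam') (Fin.append e e') = VS lam e ∪ VS lam' e' := by
  unfold VS
  rw [cnt1_image_append, cnt1_biUnion_append]
  ext x
  simp only [mem_union]
  tauto

/-- The trivial bound for the number of vertices. -/
lemma cnt1_card_VS {k : ℕ} {X : Type*} [DecidableEq X] {m t : ℕ}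
    (lam : Fin m → Fin k × X) (e : Fin t → Fin k → X) : (VS lam e).card ≤ m + t * k := by
  unfold VS
  refine (card_union_le _ _).trans (Nat.add_le_add ?_ ?_)
  · exact (card_image_le).trans (by simp)
  · refine (card_biUnion_le).trans ?_
    calc ∑ i : Fin t, (Vx (e i)).card ≤ ∑ _i : Fin t, k :=
          sum_le_sum fun i _ => (card_image_le).trans (by simp)
      _ = t * k := by simp

/-- The structures with given numbers of vertices and edges. -/
def cnt1S {k : ℕ} {X : Type} [Fintype X] [DecidableEq X] (M T v u : ℕ)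
    (ω : Finset (Fin k → X)) : Finset ((Fin M → Fin k × X) × (Fin T → Fin k → X)) :=
  open Classical in
  univ.filter fun s => (∀ i, s.2 i ∈ ω) ∧ (VS s.1 s.2).card = v ∧ (univ.image s.2).card = u

/-- The index set. -/
def cnt1I (M : ℕ) : Finset (ℕ × ℕ × ℕ) :=
  open Classical in
  ((range (M + 1)) ×ˢ (range (M + M * P.k + 1)) ×ˢ (range (M + 1))).filter
    fun i => (i.2.1 : ℝ) - P.k / P.q * i.2.2 < (M : ℝ) / P.p

/-- The union bound. -/
lemma cnt1_card_setO {X : Type} [Fintype X] [DecidableEq X] (m m' : ℕ)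
    (ω : Finset (Fin P.k → X)) :
    ((setO P m m' ω).card : ℝ) ≤
      ∑ i ∈ cnt1I P (m + m'), ((cnt1S (m + m') i.1 i.2.1 i.2.2 ω).card : ℝ) := by
  classical
  have h1 : ((setO P m m' ω).image fun s => Fin.append s.1 s.2) ⊆
      (cnt1I P (m + m')).biUnion fun i =>
        (cnt1S (m + m') i.1 i.2.1 i.2.2 ω).image Prod.fst := by
    intro x hx
    rw [mem_image] at hx
    obtain ⟨s, hs, rfl⟩ := hx
    rw [setO, mem_filter] at hs
    obtain ⟨-, t, e, t', e', he, he', hg, hg', hne⟩ := hs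
    rw [mem_biUnion]
    have ht : t ≤ m := good_length P hg
    have ht' : t' ≤ m' := good_length P hg'
    have hT : t + t' ≤ m + m' := by omega
    refine ⟨(t + t', (VS (Fin.append s.1 s.2) (Fin.append e e')).card,
      (univ.image (Fin.append e e')).card), ?_, ?_⟩
    · rw [cnt1I, mem_filter]
      refine ⟨?_, ?_⟩
      · simp only [mem_product, mem_range]
        refine ⟨by omega, ?_, ?_⟩
        · have h := cnt1_card_VS (Fin.append s.1 s.2) (Fin.append e e')
          have h2 : (t + t') * P.k ≤ (m + m') * P.k := Nat.mul_le_mul_right _ hT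
          omega
        · have h : (univ.image (Fin.append e e')).card ≤ t + t' :=
            (card_image_le).trans (by simp)
          omega
      · have h := ovl P hg hg' hne
        simp only
        rw [cnt1_VS_append, cnt1_image_append]
        push_cast
        exact h
    · rw [mem_image]
      refine ⟨(Fin.append s.1 s.2, Fin.append e e'), ?_, rfl⟩
      rw [cnt1S, mem_filter]
      refine ⟨mem_univ _, ?_, rfl, rfl⟩
      intro i
      refine Fin.addCases (fun i => ?_) (fun i => ?_) i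
      · simp only [Fin.append_left]
        exact he i
      · simp only [Fin.append_right]
        exact he' i
  have h2 : (setO P m m' ω).card = ((setO P m m' ω).image fun s => Fin.append s.1 s.2).card := by
    rw [card_image_of_injective]
    exact (Fin.appendEquiv m m').injective
  have h3 : (setO P m m' ω).card ≤
      ∑ i ∈ cnt1I P (m + m'), (cnt1S (m + m') i.1 i.2.1 i.2.2 ω).card := by
    rw [h2]
    refine (card_le_card h1).trans ((card_biUnion_le).trans ?_)
    exact sum_le_sum fun i _ => card_image_le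
  exact_mod_cast h3

/-- One term is small for large `N`. -/
lemma cnt1_term (M0 : ℝ) (M T v u : ℕ) (h : (v : ℝ) - P.k / P.q * u < (M : ℝ) / P.p)
    {eps : ℝ} (heps : 0 < eps) :
    ∀ᶠ N : ℕ in Filter.atTop, ((P.k : ℝ) * N) ^ v * (v : ℝ) ^ (M + P.k * T) *
      (M0 * (N : ℝ) ^ (-(P.k / P.q : ℝ))) ^ u ≤ eps * (N : ℝ) ^ ((M : ℝ) / P.p) := by
  set C : ℝ := (P.k : ℝ) ^ v * (v : ℝ) ^ (M + P.k * T) * M0 ^ u with hC
  set d : ℝ := (M : ℝ) / P.p - ((v : ℝ) - P.k / P.q * u) with hd
  have hdpos : 0 < d := by rw [hd]; linarith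
  have h1 : Filter.Tendsto (fun N : ℕ => C * (N : ℝ) ^ (-d)) Filter.atTop (nhds (C * 0)) :=
    ((tendsto_rpow_neg_atTop hdpos).comp tendsto_natCast_atTop_atTop).const_mul C
  rw [mul_zero] at h1
  have h2 : ∀ᶠ N : ℕ in Filter.atTop, C * (N : ℝ) ^ (-d) < eps := h1.eventually_lt_const heps
  filter_upwards [h2, Filter.eventually_gt_atTop 0] with N hN hN0
  have hNpos : (0 : ℝ) < N := by exact_mod_cast hN0
  have h3 : ((P.k : ℝ) * N) ^ v * (v : ℝ) ^ (M + P.k * T) *
      (M0 * (N : ℝ) ^ (-(P.k / P.q : ℝ))) ^ u = (C * (N : ℝ) ^ (-d)) * (N : ℝ) ^ ((M : ℝ) / P.p) := by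
    have h4 : (N : ℝ) ^ (-d) * (N : ℝ) ^ ((M : ℝ) / P.p) =
        (N : ℝ) ^ v * ((N : ℝ) ^ (-(P.k / P.q : ℝ))) ^ u := by
      rw [← Real.rpow_add hNpos, ← Real.rpow_natCast (N : ℝ) v,
        ← Real.rpow_natCast ((N : ℝ) ^ (-(P.k / P.q : ℝ))) u, ← Real.rpow_mul hNpos.le,
        ← Real.rpow_add hNpos]
      congr 1
      rw [hd]
      ring
    rw [mul_pow, mul_pow, mul_assoc C, h4, hC]
    ring
  rw [h3]
  exact mul_le_mul_of_nonneg_right hN.le (Real.rpow_nonneg hNpos.le _)

/-- PROOF. As `cnt4`: the pair `(lam, lam')` is the tuple `Fin.append lam lam'` of length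
`m + m'`, the pair `(e, e')` is `Fin.append e e'` of length `t + t' ≤ m + m'` (`good_length`), the
vertex set is the union and the image of `Fin.append e e'` is the union of the images. Use
`cnt_vertices` for all `v ≤ m + m' + k (m + m')` and `u ≤ t + t'` with `v - (k/q) u < (m+m')/p`
(`ovl`). -/
theorem cntO (m0 : ℕ) {eps : ℝ} (heps : 0 < eps) (M0 : ℝ) (hM0 : 0 ≤ M0) :
    ∃ N1 : ℕ, ∀ (X : Type) [Fintype X] [DecidableEq X], N1 ≤ Fintype.card X →
      ∀ (w : (Fin P.k → X) → ℝ), IsPr w →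
      (∀ c, w c ≤ M0 * (Fintype.card X : ℝ) ^ (-(P.k / P.q : ℝ))) → ∀ m ≤ m0, ∀ m' ≤ m0,
      Ex w (fun ω => ((setO P m m' ω).card : ℝ)) ≤
        eps * (Fintype.card X : ℝ) ^ (((m : ℝ) + m') / P.p) := by
  have hev : ∀ᶠ N : ℕ in Filter.atTop, ∀ M ∈ range (2 * m0 + 1), ∀ i ∈ cnt1I P M,
      ((P.k : ℝ) * N) ^ i.2.1 * (i.2.1 : ℝ) ^ (M + P.k * i.1) *
      (M0 * (N : ℝ) ^ (-(P.k / P.q : ℝ))) ^ i.2.2 ≤
        (eps / ((cnt1I P M).card + 1)) * (N : ℝ) ^ ((M : ℝ) / P.p) := by
    rw [Filter.eventually_all_finset]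
    intro M _
    rw [Filter.eventually_all_finset]
    intro i hi
    rw [cnt1I, mem_filter] at hi
    exact cnt1_term P M0 M i.1 i.2.1 i.2.2 hi.2 (by positivity)
  obtain ⟨N1, hN1⟩ := Filter.eventually_atTop.1 hev
  refine ⟨N1, ?_⟩
  intro X _ _ hX w hw hwB m hm m' hm'
  have hM : m + m' ∈ range (2 * m0 + 1) := by rw [mem_range]; omega
  have hNn : 0 ≤ (Fintype.card X : ℝ) ^ (((m + m' : ℕ) : ℝ) / P.p) :=
    Real.rpow_nonneg (Nat.cast_nonneg _) _
  calc Ex w (fun ω => ((setO P m m' ω).card : ℝ))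
      ≤ Ex w (fun ω => ∑ i ∈ cnt1I P (m + m'),
          ((cnt1S (m + m') i.1 i.2.1 i.2.2 ω).card : ℝ)) :=
        Ex_mono hw fun ω => cnt1_card_setO P m m' ω
    _ = ∑ i ∈ cnt1I P (m + m'), Ex w (fun ω => ((cnt1S (m + m') i.1 i.2.1 i.2.2 ω).card : ℝ)) :=
        Ex_sum w _ _
    _ ≤ ∑ i ∈ cnt1I P (m + m'), ((P.k : ℝ) * Fintype.card X) ^ i.2.1 *
          (i.2.1 : ℝ) ^ (m + m' + P.k * i.1) *
          (M0 * (Fintype.card X : ℝ) ^ (-(P.k / P.q : ℝ))) ^ i.2.2 :=
        sum_le_sum fun i _ => cnt_vertices (m + m') i.1 i.2.1 i.2.2 hw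
          (mul_nonneg hM0 (Real.rpow_nonneg (Nat.cast_nonneg _) _)) hwB
    _ ≤ ∑ _i ∈ cnt1I P (m + m'), (eps / ((cnt1I P (m + m')).card + 1)) *
          (Fintype.card X : ℝ) ^ (((m + m' : ℕ) : ℝ) / P.p) :=
        sum_le_sum fun i hi => hN1 (Fintype.card X) hX (m + m') hM i hi
    _ = ((cnt1I P (m + m')).card / ((cnt1I P (m + m')).card + 1)) * (eps *
          (Fintype.card X : ℝ) ^ (((m + m' : ℕ) : ℝ) / P.p)) := by
        rw [sum_const, nsmul_eq_mul]
        ring
    _ ≤ 1 * (eps * (Fintype.card X : ℝ) ^ (((m + m' : ℕ) : ℝ) / P.p)) := by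
        refine mul_le_mul_of_nonneg_right ?_ (mul_nonneg heps.le hNn)
        rw [div_le_one (by positivity)]
        linarith
    _ = eps * (Fintype.card X : ℝ) ^ (((m : ℝ) + m') / P.p) := by
        rw [one_mul]
        push_cast
        rfl

end

end Pool.Agent.GP2
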