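import Pool.Agent.GP2.DetC

/-!
# DET: classification of the tuples
-/

namespace Pool.Agent.GP2

open Finset Module

noncomputable section

variable (P : Par)

variable {X : Type} [Fintype X] [DecidableEq X] (E : Finset (Fin P.k → X)) {m : ℕ}
  (lam : Fin m → Fin P.k × X)

/-- The classification.

PROOF. Suppose the second alternative fails. Take `e` of `exists_closed` and let
`h = |V| - (k/q) t ≥ m/p`.
CASE A: `h > m/p`. `gadget_of_closed` with `l = 2`, `Z = ∅`, `dl = 0`.
CASE B: `h = m/p`. By `sum_kp`, `sum_dg`: `∑_{v ∈ V} (1 - κ(v)/p - deg(v)/q) = |V| - m/p - k t/q = 0`.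
If some `w ∈ V` has `1 < κ(w)/p + deg(w)/q`: `gadget_of_closed` with `l = 2`, `Z = {w}`, `dl = 0`
(`#{i : lam i ≠ w} = m - κ(w)`). Otherwise all `κ(v)/p + deg(v)/q = 1`. As `κ ≤ p < 2`, `κ(v)` is
`0` or `1`; if it is `1` then `deg(v) = q (1 - 1/p) = 1`; if it is `0` then `deg(v) = q`. So
`Crit`. If `Indep P.n e`, this is the third alternative. Otherwise there are a prime `l ∣ n` and
`c ≠ 0`: `gadget_of_closed` with this `l`, `Z = ∅`, `dl = 1`. -/
theorem classify :
    Nonempty (Gadget P.p E lam) ∨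
    (∃ (t : ℕ) (e : Fin t → Fin P.k → X), (∀ i, e i ∈ E) ∧ IsGen lam e ∧
      ((VS lam e).card : ℝ) - P.k / P.q * t < m / P.p) ∨
    (∃ (t : ℕ) (e : Fin t → Fin P.k → X), (∀ i, e i ∈ E) ∧ Good P.q P.n lam e) := by
  classical
  have hp := P.p_pos
  have hq := P.q_pos
  by_cases hB : ∃ (t : ℕ) (e : Fin t → Fin P.k → X), (∀ i, e i ∈ E) ∧ IsGen lam e ∧
      ((VS lam e).card : ℝ) - P.k / P.q * t < m / P.p
  · exact Or.inr (Or.inl hB)
  have h : ∀ (t : ℕ) (e : Fin t → Fin P.k → X), (∀ i, e i ∈ E) → IsGen lam e →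
      (m : ℝ) / P.p ≤ ((VS lam e).card : ℝ) - P.k / P.q * t := by
    intro t e he hg
    by_contra hc
    exact hB ⟨t, e, he, hg, not_le.1 hc⟩
  obtain ⟨t, e, he, hg, hcl⟩ := exists_closed P E lam h
  have h0 := h t e he hg
  have hfilt : ((univ.filter fun i => lam i ∉ (∅ : Finset (Fin P.k × X))).card : ℝ) = m := by
    simp
  rcases h0.lt_or_eq with h1 | h1
  · left
    have : Fact (Nat.Prime 2) := ⟨Nat.prime_two⟩
    refine gadget_of_closed P E lam he hg hcl 2 ∅ (Or.inl rfl) 0 (Or.inl rfl) ?_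
    rw [hfilt, card_empty, sum_empty, Nat.cast_zero, zero_div]
    linarith
  have hsum : ∑ v ∈ VS lam e, ((kp lam v : ℝ) / P.p + (dg e v : ℝ) / P.q - 1) = 0 := by
    rw [sum_sub_distrib, sum_add_distrib, ← sum_div, ← sum_div]
    have e1 : ∑ v ∈ VS lam e, (kp lam v : ℝ) = m := by exact_mod_cast sum_kp lam e
    have e2 : ∑ v ∈ VS lam e, (dg e v : ℝ) = P.k * t := by exact_mod_cast sum_dg lam e
    rw [e1, e2, sum_const, nsmul_eq_mul, mul_one, h1]
    ring
  by_cases hw : ∃ w ∈ VS lam e, 1 < (kp lam w : ℝ) / P.p + (dg e w : ℝ) / P.q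
  · obtain ⟨w, hw, hw1⟩ := hw
    left
    have : Fact (Nat.Prime 2) := ⟨Nat.prime_two⟩
    refine gadget_of_closed P E lam he hg hcl 2 {w} (Or.inr ⟨w, hw, rfl⟩) 0 (Or.inl rfl) ?_
    have hc : ((univ.filter fun i => lam i ∉ ({w} : Finset (Fin P.k × X))).card : ℝ) =
        m - kp lam w := by
      have h2 := card_filter_add_card_filter_not (s := (univ : Finset (Fin m)))
        (fun i => lam i = w)
      rw [card_univ, Fintype.card_fin] at h2
      have h3 : (univ.filter fun i => lam i ∉ ({w} : Finset (Fin P.k × X))) =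
          univ.filter fun i => ¬ lam i = w := by
        ext i
        simp
      rw [h3, eq_sub_iff_add_eq]
      have h4 : (kp lam w : ℝ) = ((univ.filter fun i => lam i = w).card : ℝ) := rfl
      rw [h4, add_comm]
      exact_mod_cast h2
    rw [hc, card_singleton, sum_singleton, sub_div, h1]
    push_cast
    linarith
  have hle : ∀ v ∈ VS lam e, (kp lam v : ℝ) / P.p + (dg e v : ℝ) / P.q - 1 ≤ 0 := by
    intro v hv
    by_contra hc
    exact hw ⟨v, hv, by linarith [not_le.1 hc]⟩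
  have heq := (sum_eq_zero_iff_of_nonpos hle).1 hsum
  have hcrit : Crit P.q lam e := by
    intro v hv
    have h2 := heq v hv
    have hd : (0 : ℝ) ≤ (dg e v : ℝ) / P.q := by positivity
    have hkp : (kp lam v : ℝ) / P.p ≤ 1 := by linarith
    rw [div_le_one hp] at hkp
    have hlt : (kp lam v : ℝ) < 2 := by linarith [P.lt_two]
    have hlt' : kp lam v < 2 := by exact_mod_cast hlt
    have hadd := P.add_eq
    rcases Nat.lt_or_ge (kp lam v) 1 with h3 | h3
    · right
      have h4 : kp lam v = 0 := by omega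
      refine ⟨h4, ?_⟩
      rw [h4, Nat.cast_zero, zero_div, zero_add, sub_eq_zero, div_eq_one_iff_eq hq.ne'] at h2
      exact h2
    · left
      have h4 : kp lam v = 1 := by omega
      refine ⟨h4, ?_⟩
      rw [h4, Nat.cast_one] at h2
      have h5 : (dg e v : ℝ) / P.q = 1 / P.q := by linarith
      have h6 : (dg e v : ℝ) = 1 := by
        field_simp at h5
        exact h5
      exact_mod_cast h6
  by_cases hI : Indep P.n e
  · exact Or.inr (Or.inr ⟨t, e, he, hg, hcrit, hI⟩)
  left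
  unfold Indep at hI
  push Not at hI
  obtain ⟨l, hl, -, c, hc, hc0⟩ := hI
  have : Fact l.Prime := ⟨hl⟩
  refine gadget_of_closed P E lam he hg hcl l ∅ (Or.inl rfl) 1 (Or.inr ⟨rfl, c, hc0, hc⟩) ?_
  rw [hfilt, card_empty, sum_empty, Nat.cast_zero, zero_div, Nat.cast_one]
  linarith

/-- Tuples of length one always have a gadget.

PROOF. `J = B = ZMod 2`, `pr v = id` for every vertex `v`. For every edge the set of words is
`{(0,...,0), (1,...,1)}`, and `∏ x_j(0) + ∏ x_j(1) ≤ ∏_j (x_j(0)^p + x_j(1)^p)^{1/p}` because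
`k ≥ 2 ≥ p` (`normLE_two`). The gain: `2^{1/p} < 2`. -/
theorem gadget_one (lam1 : Fin 1 → Fin P.k × X) : Nonempty (Gadget P.p E lam1) := by
  classical
  have hp := P.p_pos
  have hk := P.k_gt
  have : Fact (Nat.Prime 2) := ⟨Nat.prime_two⟩
  refine ⟨{ J := ZMod 2, B := ZMod 2, pr := fun _ => AddMonoidHom.id _, norm_le := ?_,
            gain := ?_ }⟩
  · intro c _
    exact normLE_two P.one_lt.le P.lt_two.le (fun (y : ZMod 2) (_ : Fin P.k) => y)
      (j1 := ⟨0, by omega⟩) (j2 := ⟨1, by omega⟩) (by simp [Fin.ext_iff])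
      (fun _ _ hab => hab) (fun _ _ hab => hab)
  · have h1 : Nat.card (AddMonoidHom.id (ZMod 2)).range = 2 := by
      have hr : (AddMonoidHom.id (ZMod 2)).range = ⊤ :=
        AddMonoidHom.range_eq_top.2 Function.surjective_id
      rw [hr, AddSubgroup.card_top, Nat.card_zmod]
    have h2 : Nat.card (Set.range fun (y : ZMod 2) (l : Fin 1) =>
        (AddMonoidHom.id (ZMod 2)) y) = 2 := by
      rw [Nat.card_range_of_injective, Nat.card_zmod]
      intro a b hab
      exact congrFun hab 0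
    rw [h2, Fin.prod_univ_one, h1]
    have h3 : (1 : ℝ) / P.p < 1 := by
      rw [div_lt_one hp]
      exact P.one_lt
    have h4 := Real.rpow_lt_rpow_of_exponent_lt (x := 2) one_lt_two h3
    rw [Real.rpow_one] at h4
    exact_mod_cast h4

end

end Pool.Agent.GP2
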