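import Pool.Agent.GP2.Rnd0
import Pool.Agent.GP2.Det

/-!
# CNT 1: first moments of generated structures
-/

namespace Pool.Agent.GP2

open Finset

noncomputable section

variable {k : ℕ} {X : Type} [Fintype X] [DecidableEq X]

lemma cnt1A_fiber (U : Finset (Fin k × X)) (j : Fin k) :
    (univ.filter fun x : X => (j, x) ∈ U).card ≤ U.card := by
  classical
  refine Finset.card_le_card_of_injOn (fun x => (j, x)) ?_ ?_
  · intro x hx
    simpa using hx
  · intro x _ y _ h
    simpa using h

/-- The structures with all vertices in a given set. -/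
lemma cnt1A_box (m t : ℕ) (U : Finset (Fin k × X)) :
    ((Fintype.piFinset fun _ : Fin m => U) ×ˢ
      (Fintype.piFinset fun _ : Fin t => Fintype.piFinset fun j : Fin k =>
        univ.filter fun x : X => (j, x) ∈ U)).card ≤ U.card ^ (m + k * t) := by
  classical
  rw [Finset.card_product, Fintype.card_piFinset, Fintype.card_piFinset]
  simp only [Finset.prod_const, Finset.card_univ, Fintype.card_fin, Fintype.card_piFinset]
  have h : (∏ j : Fin k, (univ.filter fun x : X => (j, x) ∈ U).card) ≤ U.card ^ k := by
    calc (∏ j : Fin k, (univ.filter fun x : X => (j, x) ∈ U).card)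
        ≤ ∏ _j : Fin k, U.card := Finset.prod_le_prod' fun j _ => cnt1A_fiber U j
      _ = U.card ^ k := by simp
  calc U.card ^ m * (∏ j : Fin k, (univ.filter fun x : X => (j, x) ∈ U).card) ^ t
      ≤ U.card ^ m * (U.card ^ k) ^ t := Nat.mul_le_mul_left _ (Nat.pow_le_pow_left h t)
    _ = U.card ^ (m + k * t) := by rw [← pow_mul, ← pow_add]

/-- The number of structures with `v` vertices. -/
lemma cnt1A_card (m t v : ℕ) (A : Finset ((Fin m → Fin k × X) × (Fin t → Fin k → X)))
    (hA : ∀ s ∈ A, (VS s.1 s.2).card = v) :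
    A.card ≤ (k * Fintype.card X) ^ v * v ^ (m + k * t) := by
  classical
  have hsub : A ⊆ (Finset.powersetCard v (univ : Finset (Fin k × X))).biUnion fun U =>
      (Fintype.piFinset fun _ : Fin m => U) ×ˢ
      (Fintype.piFinset fun _ : Fin t => Fintype.piFinset fun j : Fin k =>
        univ.filter fun x : X => (j, x) ∈ U) := by
    intro s hs
    rw [Finset.mem_biUnion]
    refine ⟨VS s.1 s.2, ?_, ?_⟩
    · rw [Finset.mem_powersetCard]
      exact ⟨Finset.subset_univ _, hA s hs⟩
    · rw [Finset.mem_product]
      constructor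
      · rw [Fintype.mem_piFinset]
        intro i
        exact Finset.mem_union_left _ (Finset.mem_image_of_mem _ (Finset.mem_univ i))
      · rw [Fintype.mem_piFinset]
        intro i
        rw [Fintype.mem_piFinset]
        intro j
        rw [Finset.mem_filter]
        refine ⟨Finset.mem_univ _, Finset.mem_union_right _ ?_⟩
        rw [Finset.mem_biUnion]
        exact ⟨i, Finset.mem_univ i, Finset.mem_image_of_mem _ (Finset.mem_univ j)⟩
  calc A.card ≤ _ := Finset.card_le_card hsub
    _ ≤ ∑ U ∈ Finset.powersetCard v (univ : Finset (Fin k × X)),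
        ((Fintype.piFinset fun _ : Fin m => U) ×ˢ
          (Fintype.piFinset fun _ : Fin t => Fintype.piFinset fun j : Fin k =>
            univ.filter fun x : X => (j, x) ∈ U)).card := Finset.card_biUnion_le
    _ ≤ ∑ _U ∈ Finset.powersetCard v (univ : Finset (Fin k × X)), v ^ (m + k * t) := by
        refine Finset.sum_le_sum fun U hU => ?_
        have h := cnt1A_box m t U
        rw [(Finset.mem_powersetCard.mp hU).2] at h
        exact h
    _ = (k * Fintype.card X).choose v * v ^ (m + k * t) := by
        rw [Finset.sum_const, Finset.card_powersetCard, Finset.card_univ, Fintype.card_prod,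
          Fintype.card_fin, smul_eq_mul]
    _ ≤ (k * Fintype.card X) ^ v * v ^ (m + k * t) :=
        Nat.mul_le_mul_right _ (Nat.choose_le_pow _ _)

/-- The expected number of structures with `v` vertices and `u` edges.

PROOF. `Ex` of the number is the sum over all `(lam, e)` with `|VS lam e| = v`,
`|image e| = u` of `∏_{c ∈ image e} w c ≤ B^u` (`Ex_subset`). Every such `(lam, e)` is determined by
the set `U = VS lam e` (at most `(k N)^v` possibilities, `N = |X|`), the `m` values of `lam` in `U` and
the `k t` vertices `(j, e i j) ∈ U`: at most `(k N)^v v^{m + k t}` possibilities. -/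
theorem cnt_vertices (m t v u : ℕ) {w : (Fin k → X) → ℝ} (hw : IsPr w) {B : ℝ} (hB0 : 0 ≤ B)
    (hB : ∀ c, w c ≤ B) :
    (open Classical in Ex w (fun ω => ((univ.filter fun s : (Fin m → Fin k × X) ×
      (Fin t → Fin k → X) => (∀ i, s.2 i ∈ ω) ∧ (VS s.1 s.2).card = v ∧
        (univ.image s.2).card = u).card : ℝ))) ≤
      ((k : ℝ) * Fintype.card X) ^ v * (v : ℝ) ^ (m + k * t) * B ^ u := by
  classical
  set A : Finset ((Fin m → Fin k × X) × (Fin t → Fin k → X)) :=
    univ.filter fun s => (VS s.1 s.2).card = v ∧ (univ.image s.2).card = u with hAdef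
  have hfun : (fun ω : Finset (Fin k → X) => ((univ.filter fun s : (Fin m → Fin k × X) ×
      (Fin t → Fin k → X) => (∀ i, s.2 i ∈ ω) ∧ (VS s.1 s.2).card = v ∧
        (univ.image s.2).card = u).card : ℝ)) =
      fun ω => ∑ s ∈ A, if univ.image s.2 ⊆ ω then (1 : ℝ) else 0 := by
    funext ω
    rw [Finset.sum_ite, Finset.sum_const_zero, add_zero, Finset.sum_const, nsmul_eq_mul, mul_one]
    congr 2
    ext s
    simp only [hAdef, Finset.mem_filter, Finset.mem_univ, true_and, Finset.image_subset_iff,
      forall_const]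
    tauto
  have hEx : Ex w (fun ω => ((univ.filter fun s : (Fin m → Fin k × X) ×
      (Fin t → Fin k → X) => (∀ i, s.2 i ∈ ω) ∧ (VS s.1 s.2).card = v ∧
        (univ.image s.2).card = u).card : ℝ)) = ∑ s ∈ A, ∏ c ∈ univ.image s.2, w c := by
    rw [hfun, Ex_sum]
    exact Finset.sum_congr rfl fun s _ => Ex_subset w _
  have hcard : (A.card : ℝ) ≤ ((k : ℝ) * Fintype.card X) ^ v * (v : ℝ) ^ (m + k * t) := by
    have h := cnt1A_card m t v A (fun s hs => by
      rw [hAdef, Finset.mem_filter] at hs
      exact hs.2.1)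
    exact_mod_cast h
  have hmain : ∑ s ∈ A, ∏ c ∈ univ.image s.2, w c ≤
      ((k : ℝ) * Fintype.card X) ^ v * (v : ℝ) ^ (m + k * t) * B ^ u := by
    calc ∑ s ∈ A, ∏ c ∈ univ.image s.2, w c ≤ ∑ _s ∈ A, B ^ u := by
          refine Finset.sum_le_sum fun s hs => ?_
          rw [hAdef, Finset.mem_filter] at hs
          calc ∏ c ∈ univ.image s.2, w c ≤ ∏ _c ∈ univ.image s.2, B :=
                Finset.prod_le_prod (fun c _ => (hw c).1) (fun c _ => hB c)
            _ = B ^ u := by rw [Finset.prod_const, hs.2.2]
      _ = A.card * B ^ u := by rw [Finset.sum_const, nsmul_eq_mul]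
      _ ≤ _ := mul_le_mul_of_nonneg_right hcard (pow_nonneg hB0 _)
  rw [← hEx] at hmain
  convert hmain using 2

variable (P : Par)

end

end Pool.Agent.GP2
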