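import Pool.Agent.GP2.Cnt1A

/-!
# CNT 1: first moments of generated structures
-/

namespace Pool.Agent.GP2

open Finset

noncomputable section

variable (P : Par)

/-- The tuples with a generated sequence in `ω` with too few vertices. -/
def set4 {X : Type} [Fintype X] [DecidableEq X] (m : ℕ) (ω : Finset (Fin P.k → X)) :
    Finset (Fin m → Fin P.k × X) :=
  open Classical in
  univ.filter fun lam => ∃ (t : ℕ) (e : Fin t → Fin P.k → X), (∀ i, e i ∈ ω) ∧ IsGen lam e ∧
    ((VS lam e).card : ℝ) - P.k / P.q * t < m / P.p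

theorem Cnt1B_kq_gt : (2 : ℝ) < P.k / P.q := by
  rw [lt_div_iff₀ P.q_pos]
  linarith [P.hk]

theorem Cnt1B_card_Vx {k : ℕ} {X : Type} [DecidableEq X] (c : Fin k → X) :
    (Vx c).card = k := by
  unfold Vx
  rw [Finset.card_image_of_injective]
  · simp
  · intro a b h
    exact (Prod.mk.inj h).1

theorem Cnt1B_castLE {k : ℕ} {X : Type} [DecidableEq X] {m t s : ℕ} (hst : s ≤ t)
    {lam : Fin m → Fin k × X} {e : Fin t → Fin k → X} (hg : IsGen lam e) :
    IsGen lam (fun i : Fin s => e (Fin.castLE hst i)) := by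
  refine ⟨fun a b hab => ?_, fun i => ?_⟩
  · have h1 : Fin.castLE hst a = Fin.castLE hst b := hg.1 hab
    exact Fin.castLE_injective _ h1
  · refine le_trans (card_le_card ?_) (hg.2 (Fin.castLE hst i))
    apply sdiff_subset_sdiff le_rfl
    intro x hx
    unfold VSlt at hx ⊢
    rw [mem_union] at hx ⊢
    rcases hx with hx | hx
    · exact Or.inl hx
    · right
      rw [mem_biUnion] at hx ⊢
      obtain ⟨i', hi', hx'⟩ := hx
      rw [mem_filter] at hi'
      have hlt0 : (i' : ℕ) < (i : ℕ) := by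
        have := Fin.lt_def.1 hi'.2
        simpa using this
      have hlt : (i' : ℕ) < s := lt_trans hlt0 i.2
      refine ⟨⟨i', hlt⟩, ?_, ?_⟩
      · rw [mem_filter]
        exact ⟨mem_univ _, Fin.lt_def.2 hlt0⟩
      · exact hx'

theorem Cnt1B_ev (eps' K α β : ℝ) (heps : 0 < eps') (hab : α < β) :
    ∀ᶠ N : ℕ in Filter.atTop, K * (N : ℝ) ^ α ≤ eps' * (N : ℝ) ^ β := by
  have h1 : Filter.Tendsto (fun N : ℕ => (N : ℝ) ^ (β - α)) Filter.atTop Filter.atTop :=
    (tendsto_rpow_atTop (sub_pos.2 hab)).comp tendsto_natCast_atTop_atTop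
  filter_upwards [h1.eventually_ge_atTop (K / eps'), Filter.eventually_ge_atTop 1] with N hN hN1
  have hpos : (0 : ℝ) < N := by exact_mod_cast hN1
  have h2 : K ≤ eps' * (N : ℝ) ^ (β - α) := by
    rw [div_le_iff₀ heps] at hN
    linarith
  calc K * (N : ℝ) ^ α ≤ (eps' * (N : ℝ) ^ (β - α)) * (N : ℝ) ^ α :=
        mul_le_mul_of_nonneg_right h2 (Real.rpow_nonneg hpos.le _)
    _ = eps' * (N : ℝ) ^ β := by
        rw [mul_assoc, ← Real.rpow_add hpos]
        congr 2
        ring

theorem Cnt1B_term {N M0 kk r : ℝ} (hN : 0 < N) (v t : ℕ) (c : ℝ) :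
    (kk * N) ^ v * c * (M0 * N ^ (-r)) ^ t = kk ^ v * c * M0 ^ t * N ^ ((v : ℝ) - r * t) := by
  have h1 : (N ^ (-r)) ^ t = N ^ (-r * t) := by
    rw [← Real.rpow_natCast, ← Real.rpow_mul hN.le]
  have h2 : N ^ v = N ^ (v : ℝ) := (Real.rpow_natCast N v).symm
  rw [mul_pow, mul_pow, h1, h2, sub_eq_add_neg, Real.rpow_add hN]
  have h3 : -r * (t : ℝ) = -(r * t) := by ring
  rw [h3]
  ring

/-- The structures counted for `cnt4`. -/
def Cnt1B_st {X : Type} [Fintype X] [DecidableEq X] (m t v : ℕ) (ω : Finset (Fin P.k → X)) :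
    Finset ((Fin m → Fin P.k × X) × (Fin t → Fin P.k → X)) :=
  open Classical in
  univ.filter fun s : (Fin m → Fin P.k × X) × (Fin t → Fin P.k → X) =>
    (∀ i, s.2 i ∈ ω) ∧ (VS s.1 s.2).card = v ∧ (univ.image s.2).card = t

/-- A generated sequence with too few vertices has a short initial segment.

PROOF. If `t ≤ m` nothing to do. If `t > m` take the first `m` edges `e'`: an initial segment of a
generated sequence is generated and `|VS lam e'| ≤ m + m` (`card_VS_le`), and
`2 m - (k/q) m < m/p` when `m ≥ 1`, as `k/q > 2`. For `m = 0` there is no generated sequence of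
length `t ≥ 1` (the first edge would have `k ≥ 2` new vertices) and for `t = 0` the inequality
`0 < 0` fails. -/
theorem short_gen {X : Type} [Fintype X] [DecidableEq X] {m : ℕ} {lam : Fin m → Fin P.k × X}
    {t : ℕ} {e : Fin t → Fin P.k → X} (hg : IsGen lam e)
    (h : ((VS lam e).card : ℝ) - P.k / P.q * t < m / P.p) :
    ∃ (t' : ℕ) (e' : Fin t' → Fin P.k → X), t' ≤ m ∧ (∀ i, ∃ i', e' i = e i') ∧ IsGen lam e' ∧
      ((VS lam e').card : ℝ) - P.k / P.q * t' < m / P.p := by
  by_cases htm : t ≤ m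
  · exact ⟨t, e, htm, fun i => ⟨i, rfl⟩, hg, h⟩
  · push Not at htm
    rcases Nat.eq_zero_or_pos m with hm | hm
    · subst hm
      exfalso
      have h0 := hg.2 ⟨0, htm⟩
      have hV : VSlt lam e ⟨0, htm⟩ = ∅ := by
        unfold VSlt
        rw [union_eq_empty]
        constructor
        · rw [image_eq_empty, univ_eq_empty]
        · refine eq_empty_of_forall_notMem fun x hx => ?_
          rw [mem_biUnion] at hx
          obtain ⟨i', hi', _⟩ := hx
          rw [mem_filter, Fin.lt_def] at hi'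
          exact absurd hi'.2 (Nat.not_lt_zero _)
      rw [hV, sdiff_empty, Cnt1B_card_Vx] at h0
      have h6 := P.k_gt
      omega
    · have hgen := Cnt1B_castLE htm.le hg
      refine ⟨m, fun i => e (Fin.castLE htm.le i), le_rfl, fun i => ⟨_, rfl⟩, hgen, ?_⟩
      have h1 := card_VS_le hgen
      have h1' : ((VS lam fun i => e (Fin.castLE htm.le i)).card : ℝ) ≤ m + m := by
        exact_mod_cast h1
      have h2 := Cnt1B_kq_gt P
      have h3 : (0 : ℝ) < m := by exact_mod_cast hm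
      have h4 : (2 : ℝ) * m < P.k / P.q * m := mul_lt_mul_of_pos_right h2 h3
      have h5 : (0 : ℝ) < m / P.p := div_pos h3 P.p_pos
      linarith

/-- The expected number of tuples in `set4` is small.

PROOF. By `short_gen` `|set4 m ω|` is at most the sum over `t ≤ m` and `v ≤ 2 m` with
`v - (k/q) t < m/p` of the number of `(lam, e)` with `e` in `ω`, `|VS| = v`, `|image e| = t` (`e` is
injective). By `cnt_vertices` with `B = M0 N^{-k/q}` the expectation of every one of these numbers is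
at most `k^v v^{m + k t} M0^t N^{v - (k/q) t}`. The exponents `v - (k/q) t` which occur are finitely
many numbers smaller than `m/p`, so for `N` large the sum is at most `eps N^{m/p}`, for all
`m ≤ m0`. -/
theorem cnt4 (m0 : ℕ) {eps : ℝ} (heps : 0 < eps) (M0 : ℝ) (hM0 : 0 ≤ M0) :
    ∃ N1 : ℕ, ∀ (X : Type) [Fintype X] [DecidableEq X], N1 ≤ Fintype.card X →
      ∀ (w : (Fin P.k → X) → ℝ), IsPr w →
      (∀ c, w c ≤ M0 * (Fintype.card X : ℝ) ^ (-(P.k / P.q : ℝ))) → ∀ m ≤ m0,
      Ex w (fun ω => ((set4 P m ω).card : ℝ)) ≤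
        eps * (Fintype.card X : ℝ) ^ ((m : ℝ) / P.p) := by
  classical
  set eps' : ℝ := eps / (((m0 : ℝ) + 1) * (2 * m0 + 1)) with heps'
  have hden : (0 : ℝ) < ((m0 : ℝ) + 1) * (2 * m0 + 1) := by positivity
  have heps'0 : 0 < eps' := div_pos heps hden
  have hev : ∀ᶠ N : ℕ in Filter.atTop, ∀ m ∈ range (m0 + 1), ∀ t ∈ range (m0 + 1),
      ∀ v ∈ range (2 * m0 + 1), (v : ℝ) - P.k / P.q * t < m / P.p →
      (P.k : ℝ) ^ v * (v : ℝ) ^ (m + P.k * t) * M0 ^ t *
        (N : ℝ) ^ ((v : ℝ) - P.k / P.q * t) ≤ eps' * (N : ℝ) ^ ((m : ℝ) / P.p) := by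
    rw [Filter.eventually_all_finset]
    intro m _
    rw [Filter.eventually_all_finset]
    intro t _
    rw [Filter.eventually_all_finset]
    intro v _
    by_cases hc : (v : ℝ) - P.k / P.q * t < m / P.p
    · filter_upwards [Cnt1B_ev eps' ((P.k : ℝ) ^ v * (v : ℝ) ^ (m + P.k * t) * M0 ^ t) _ _
        heps'0 hc] with N hN _
      exact hN
    · exact Filter.Eventually.of_forall fun N h => absurd h hc
  obtain ⟨N1, hN1⟩ := Filter.eventually_atTop.1 (hev.and (Filter.eventually_ge_atTop 1))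
  refine ⟨N1, ?_⟩
  intro X _ _ hX w hw hwB m hm
  obtain ⟨hb, hN⟩ := hN1 (Fintype.card X) hX
  have hNpos : (0 : ℝ) < Fintype.card X := by exact_mod_cast hN
  -- index set
  set I : Finset (ℕ × ℕ) := (range (m0 + 1) ×ˢ range (2 * m0 + 1)).filter
    fun a => (a.2 : ℝ) - P.k / P.q * a.1 < m / P.p with hI
  have hcard : ∀ ω : Finset (Fin P.k → X), ((set4 P m ω).card : ℝ) ≤
      ∑ a ∈ I, ((Cnt1B_st P m a.1 a.2 ω).card : ℝ) := by
    intro ω
    have hsub : set4 P m ω ⊆ I.biUnion fun a => (Cnt1B_st P m a.1 a.2 ω).image Prod.fst := by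
      intro lam hlam
      unfold set4 at hlam
      rw [mem_filter] at hlam
      obtain ⟨_, t, e, he, hg, hlt⟩ := hlam
      obtain ⟨t', e', ht', he', hg', hlt'⟩ := short_gen P hg hlt
      have hv : (VS lam e').card ≤ m + t' := card_VS_le hg'
      rw [mem_biUnion]
      refine ⟨(t', (VS lam e').card), ?_, ?_⟩
      · rw [hI, mem_filter, mem_product, mem_range, mem_range]
        refine ⟨⟨?_, ?_⟩, hlt'⟩
        · show t' < m0 + 1
          omega
        · show (VS lam e').card < 2 * m0 + 1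
          omega
      · rw [mem_image]
        refine ⟨(lam, e'), ?_, rfl⟩
        unfold Cnt1B_st
        rw [mem_filter]
        refine ⟨mem_univ _, fun i => ?_, rfl, ?_⟩
        · obtain ⟨i', hi'⟩ := he' i
          show e' i ∈ ω
          rw [hi']
          exact he i'
        · rw [card_image_of_injective _ hg'.1]
          simp
    have h1 : (set4 P m ω).card ≤ ∑ a ∈ I, (Cnt1B_st P m a.1 a.2 ω).card :=
      (card_le_card hsub).trans (card_biUnion_le.trans (sum_le_sum fun a _ => card_image_le))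
    exact_mod_cast h1
  have hB : ∀ c, w c ≤ M0 * (Fintype.card X : ℝ) ^ (-(P.k / P.q : ℝ)) := hwB
  calc Ex w (fun ω => ((set4 P m ω).card : ℝ))
      ≤ Ex w (fun ω => ∑ a ∈ I, ((Cnt1B_st P m a.1 a.2 ω).card : ℝ)) := Ex_mono hw hcard
    _ = ∑ a ∈ I, Ex w (fun ω => ((Cnt1B_st P m a.1 a.2 ω).card : ℝ)) :=
        Ex_sum w I fun a ω => ((Cnt1B_st P m a.1 a.2 ω).card : ℝ)
    _ ≤ ∑ _a ∈ I, eps' * (Fintype.card X : ℝ) ^ ((m : ℝ) / P.p) := by
        refine sum_le_sum fun a ha => ?_
        rw [hI, mem_filter, mem_product] at ha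
        have hB0 : 0 ≤ M0 * (Fintype.card X : ℝ) ^ (-(P.k / P.q : ℝ)) :=
          mul_nonneg hM0 (Real.rpow_nonneg (Nat.cast_nonneg _) _)
        have h1 := cnt_vertices m a.1 a.2 a.1 hw hB0 hB
        have h2 := hb m (mem_range.2 (by omega)) a.1 ha.1.1 a.2 ha.1.2 ha.2
        refine le_trans ?_ h2
        rw [← Cnt1B_term hNpos a.2 a.1]
        exact h1
    _ = I.card * (eps' * (Fintype.card X : ℝ) ^ ((m : ℝ) / P.p)) := by
        rw [sum_const, nsmul_eq_mul]
    _ ≤ (((m0 : ℝ) + 1) * (2 * m0 + 1)) * (eps' * (Fintype.card X : ℝ) ^ ((m : ℝ) / P.p)) := by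
        have h3 : I.card ≤ (m0 + 1) * (2 * m0 + 1) := by
          refine (card_filter_le _ _).trans ?_
          rw [card_product, card_range, card_range]
        have h4 : (I.card : ℝ) ≤ ((m0 : ℝ) + 1) * (2 * m0 + 1) := by exact_mod_cast h3
        exact mul_le_mul_of_nonneg_right h4
          (mul_nonneg heps'0.le (Real.rpow_nonneg hNpos.le _))
    _ = eps * (Fintype.card X : ℝ) ^ ((m : ℝ) / P.p) := by
        rw [← mul_assoc, heps', mul_div_cancel₀ _ hden.ne']

/-- In a good structure `t ≤ m`.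

PROOF. `m/p = |V| - (k/q) t ≤ m + t - (k/q) t` (`good_card`, `card_VS_le`), so
`t (k/q - 1) ≤ m/q ≤ m` and `k/q - 1 > 1`. -/
theorem good_length {X : Type} [Fintype X] [DecidableEq X] {m t : ℕ}
    {lam : Fin m → Fin P.k × X} {e : Fin t → Fin P.k → X} (h : Good P.q P.n lam e) : t ≤ m := by
  have hc := good_card P lam h.2.1
  have h1 : ((VS lam e).card : ℝ) ≤ m + t := by
    exact_mod_cast card_VS_le h.1
  have h2 := Cnt1B_kq_gt P
  have h3 : (m : ℝ) / P.p + m / P.q = m := by
    have h := P.add_eq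
    calc (m : ℝ) / P.p + m / P.q = m * (1 / P.p + 1 / P.q) := by ring
      _ = m := by rw [h, mul_one]
  have h4 : (m : ℝ) / P.q ≤ m := by
    have h5 : (0 : ℝ) ≤ (m : ℝ) / P.p := div_nonneg (Nat.cast_nonneg _) P.p_pos.le
    linarith
  have h6 : (0 : ℝ) ≤ (P.k / P.q - 2) * t :=
    mul_nonneg (by linarith) (Nat.cast_nonneg _)
  have h7 : (t : ℝ) ≤ m := by nlinarith
  exact_mod_cast h7

end

end Pool.Agent.GP2
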