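import Pool.Agent.GP2.Cnt1B

/-!
# CNT 1: first moments of generated structures
-/

namespace Pool.Agent.GP2

open Finset

noncomputable section

variable (P : Par)

theorem Cnt1C_mem_Vx {k : ℕ} {X : Type} [DecidableEq X] {c : Fin k → X} {v : Fin k × X} :
    v ∈ Vx c ↔ c v.1 = v.2 := by
  unfold Vx
  rw [mem_image]
  constructor
  · rintro ⟨j, -, rfl⟩
    rfl
  · intro h
    exact ⟨v.1, mem_univ _, by rw [h]⟩

/-- The number of edges of a set of edges through a vertex. -/
def Cnt1C_dO {k : ℕ} {X : Type} [DecidableEq X] (O : Finset (Fin k → X)) (v : Fin k × X) : ℕ :=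
  (O.filter fun c => c v.1 = v.2).card

theorem Cnt1C_sum {k : ℕ} {X : Type} [DecidableEq X] (O : Finset (Fin k → X))
    (Z : Finset (Fin k × X)) (hZ : ∀ c ∈ O, Vx c ⊆ Z) :
    ∑ v ∈ Z, Cnt1C_dO O v = k * O.card := by
  unfold Cnt1C_dO
  simp_rw [card_filter]
  rw [sum_comm]
  calc ∑ c ∈ O, ∑ v ∈ Z, (if c v.1 = v.2 then 1 else 0) = ∑ c ∈ O, k := by
        refine sum_congr rfl fun c hc => ?_
        rw [← card_filter]
        refine Eq.trans ?_ (Cnt1B_card_Vx c)
        congr 1
        ext v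
        rw [mem_filter, Cnt1C_mem_Vx]
        exact ⟨fun h => h.2, fun h => ⟨hZ c hc (Cnt1C_mem_Vx.2 h), h⟩⟩
    _ = k * O.card := by rw [sum_const, smul_eq_mul, mul_comm]

theorem Cnt1C_dO_le {k t : ℕ} {X : Type} [DecidableEq X] {e : Fin t → Fin k → X}
    {O : Finset (Fin k → X)} (hO : O ⊆ univ.image e) (v : Fin k × X) :
    Cnt1C_dO O v ≤ dg e v := by
  unfold Cnt1C_dO dg
  refine (card_le_card (t := (univ.filter fun i => e i v.1 = v.2).image e) ?_).trans
    card_image_le
  intro c hc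
  rw [mem_filter] at hc
  obtain ⟨i, -, rfl⟩ := mem_image.1 (hO hc.1)
  exact mem_image.2 ⟨i, mem_filter.2 ⟨mem_univ _, hc.2⟩, rfl⟩

theorem Cnt1C_dO_lt {k t : ℕ} {X : Type} [DecidableEq X] {e : Fin t → Fin k → X}
    {O : Finset (Fin k → X)} (hO : O ⊆ univ.image e) (v : Fin k × X) {i' : Fin t}
    (hi' : e i' v.1 = v.2) (hn : e i' ∉ O) : Cnt1C_dO O v < dg e v := by
  unfold Cnt1C_dO dg
  refine lt_of_le_of_lt ((card_le_card
    (t := ((univ.filter fun i => e i v.1 = v.2).erase i').image e) ?_).trans card_image_le) ?_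
  · intro c hc
    rw [mem_filter] at hc
    obtain ⟨i, -, rfl⟩ := mem_image.1 (hO hc.1)
    refine mem_image.2 ⟨i, mem_erase.2 ⟨?_, mem_filter.2 ⟨mem_univ _, hc.2⟩⟩, rfl⟩
    rintro rfl
    exact hn hc.1
  · exact card_erase_lt_of_mem (mem_filter.2 ⟨mem_univ _, hi'⟩)

/-- The double counting: `k |O| < q |Z|`. -/
theorem Cnt1C_key {X : Type} [Fintype X] [DecidableEq X] {m t : ℕ}
    {lam : Fin m → Fin P.k × X} {e : Fin t → Fin P.k → X} (h : Good P.q P.n lam e)
    {O : Finset (Fin P.k → X)} (hO : O ⊆ univ.image e) {Z : Finset (Fin P.k × X)}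
    (hZV : Z ⊆ VS lam e) (hZ : ∀ c ∈ O, Vx c ⊆ Z) (hne : Z.Nonempty) :
    (P.k : ℝ) * O.card < P.q * Z.card := by
  have hq2 := P.two_lt_q
  have hdg : ∀ v ∈ Z, (dg e v : ℝ) ≤ P.q := by
    intro v hv
    rcases h.2.1 v (hZV hv) with ⟨-, hb⟩ | ⟨-, hb⟩
    · rw [hb, Nat.cast_one]
      linarith
    · exact hb.le
  have hle : ∀ v ∈ Z, (Cnt1C_dO O v : ℝ) ≤ P.q := fun v hv =>
    le_trans (by exact_mod_cast Cnt1C_dO_le hO v) (hdg v hv)
  have hlt : ∃ v ∈ Z, (Cnt1C_dO O v : ℝ) < P.q := by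
    rcases O.eq_empty_or_nonempty with rfl | ⟨c, hc⟩
    · obtain ⟨v, hv⟩ := hne
      refine ⟨v, hv, ?_⟩
      simp only [Cnt1C_dO, filter_empty, card_empty, Nat.cast_zero]
      linarith
    · have hI : (univ.filter fun i : Fin t => e i ∈ O).Nonempty := by
        obtain ⟨i, -, rfl⟩ := mem_image.1 (hO hc)
        exact ⟨i, mem_filter.2 ⟨mem_univ _, hc⟩⟩
      obtain ⟨i, hi, hmin⟩ := exists_min_image _ (fun i : Fin t => i) hI
      rw [mem_filter] at hi
      have hk := P.k_gt
      have h1 : (Vx (e i) ∩ VSlt lam e i).Nonempty := by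
        rw [← card_pos]
        have h2 := card_sdiff_add_card_inter (Vx (e i)) (VSlt lam e i)
        have h3 := h.1.2 i
        rw [Cnt1B_card_Vx] at h2
        omega
      obtain ⟨v, hv⟩ := h1
      rw [mem_inter] at hv
      have hvZ : v ∈ Z := hZ _ hi.2 hv.1
      refine ⟨v, hvZ, ?_⟩
      have hv2 := hv.2
      unfold VSlt at hv2
      rw [mem_union] at hv2
      rcases hv2 with hv2 | hv2
      · have hkp : kp lam v ≠ 0 := by
          obtain ⟨l, -, hl⟩ := mem_image.1 hv2
          have : 0 < kp lam v := by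
            unfold kp
            exact card_pos.2 ⟨l, mem_filter.2 ⟨mem_univ _, hl⟩⟩
          omega
        rcases h.2.1 v (hZV hvZ) with ⟨-, hb⟩ | ⟨ha, -⟩
        · have h4 := Cnt1C_dO_le hO v
          rw [hb] at h4
          have h5 : (Cnt1C_dO O v : ℝ) ≤ 1 := by exact_mod_cast h4
          linarith
        · exact absurd ha hkp
      · obtain ⟨i', hi', hv'⟩ := mem_biUnion.1 hv2
        rw [mem_filter] at hi'
        have hn : e i' ∉ O := fun hcon =>
          absurd (hmin i' (mem_filter.2 ⟨mem_univ _, hcon⟩)) (not_le.2 hi'.2)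
        have h4 := Cnt1C_dO_lt hO v (Cnt1C_mem_Vx.1 hv') hn
        have h5 : (Cnt1C_dO O v : ℝ) < dg e v := by exact_mod_cast h4
        exact lt_of_lt_of_le h5 (hdg v hvZ)
  have hs : ∑ v ∈ Z, (Cnt1C_dO O v : ℝ) < ∑ _v ∈ Z, P.q := sum_lt_sum hle hlt
  have h6 : ∑ v ∈ Z, (Cnt1C_dO O v : ℝ) = P.k * O.card := by
    exact_mod_cast Cnt1C_sum O Z hZ
  rw [h6, sum_const, nsmul_eq_mul, mul_comm _ P.q] at hs
  exact hs

/-- Overlapping good structures have too few vertices.

PROOF. Let `V, V'` be the vertex sets, `Z = V ∩ V' ≠ ∅`, `O = image e ∩ image e'`; all vertices of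
the edges of `O` are in `Z`. By `good_card`
`|V ∪ V'| - (k/q) |image e ∪ image e'| = (m + m')/p - (|Z| - (k/q) |O|)` (`e`, `e'` injective). For
`v ∈ Z` the number `deg_O(v)` of edges of `O` through `v` is at most `dg e v ≤ q` (by `Crit`:
`dg e v = 1 < q` or `dg e v = q`), so `k |O| = ∑_{v ∈ Z} deg_O(v) ≤ q |Z|`, that is
`|Z| - (k/q) |O| ≥ 0`. Suppose equality. Then `deg_O(v) = dg e v = q` for all `v ∈ Z`, so
`kp lam v = 0` for all `v ∈ Z`, and `O ≠ ∅` as `Z ≠ ∅`. Let `e i` be the edge in `O` with `i` minimal.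
By `IsGen` it has at most one vertex outside `lam` and the earlier edges; as `k ≥ 2` it has a
vertex `v` (in `Z`) which is in the image of `lam` or in an edge `e i'`, `i' < i`. The first is
impossible as `kp lam v = 0`. In the second case `e i' ∉ O`, so `dg e v ≥ deg_O(v) + 1`, a
contradiction. -/
theorem ovl {X : Type} [Fintype X] [DecidableEq X] {m m' t t' : ℕ}
    {lam : Fin m → Fin P.k × X} {e : Fin t → Fin P.k → X} (h : Good P.q P.n lam e)
    {lam' : Fin m' → Fin P.k × X} {e' : Fin t' → Fin P.k → X} (h' : Good P.q P.n lam' e')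
    (hne : (VS lam e ∩ VS lam' e').Nonempty) :
    ((VS lam e ∪ VS lam' e').card : ℝ) -
      P.k / P.q * ((univ.image e ∪ univ.image e').card : ℝ) < ((m : ℝ) + m') / P.p := by
  have hq := P.q_pos
  have hp := P.p_pos
  have hsub : ∀ {a b : ℕ} (l : Fin a → Fin P.k × X) (f : Fin b → Fin P.k → X),
      ∀ c ∈ univ.image f, Vx c ⊆ VS l f := by
    intro a b l f c hc
    obtain ⟨i, -, rfl⟩ := mem_image.1 hc
    intro x hx
    rw [VS, mem_union]
    exact Or.inr (mem_biUnion.2 ⟨i, mem_univ _, hx⟩)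
  have key := Cnt1C_key P h (O := univ.image e ∩ univ.image e') inter_subset_left
    (Z := VS lam e ∩ VS lam' e') inter_subset_left (by
      intro c hc
      rw [mem_inter] at hc
      exact subset_inter (hsub lam e c hc.1) (hsub lam' e' c hc.2)) hne
  have c1 := good_card P lam h.2.1
  have c2 := good_card P lam' h'.2.1
  have u1 := card_union_add_card_inter (VS lam e) (VS lam' e')
  have u2 := card_union_add_card_inter (univ.image e) (univ.image e')
  rw [card_image_of_injective _ h.1.1, card_image_of_injective _ h'.1.1, card_univ, card_univ,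
    Fintype.card_fin, Fintype.card_fin] at u2
  have u1' : ((VS lam e ∪ VS lam' e').card : ℝ) = (VS lam e).card + (VS lam' e').card -
      (VS lam e ∩ VS lam' e').card := by
    have : ((VS lam e ∪ VS lam' e').card : ℝ) + (VS lam e ∩ VS lam' e').card =
      (VS lam e).card + (VS lam' e').card := by exact_mod_cast u1
    linarith
  have u2' : ((univ.image e ∪ univ.image e').card : ℝ) = t + t' -
      (univ.image e ∩ univ.image e').card := by
    have : ((univ.image e ∪ univ.image e').card : ℝ) + (univ.image e ∩ univ.image e').card =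
      t + t' := by exact_mod_cast u2
    linarith
  have key2 : (P.k : ℝ) / P.q * (univ.image e ∩ univ.image e').card <
      (VS lam e ∩ VS lam' e').card := by
    rw [div_mul_eq_mul_div, div_lt_iff₀ hq]
    linarith
  rw [u1', u2', add_div, ← c1, ← c2]
  have : (P.k : ℝ) / P.q * (t + t' - (univ.image e ∩ univ.image e').card) =
      P.k / P.q * t + P.k / P.q * t' - P.k / P.q * (univ.image e ∩ univ.image e').card := by ring
  rw [this]
  linarith

end

end Pool.Agent.GP2
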