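import Pool.Agent.GP2.Cnt2B

/-!
# CNT 2: first moments of structures with two edges of the same label
-/

namespace Pool.Agent.GP2

open Finset

noncomputable section

variable (P : Par)

/-- The tuples with a good structure with two edges with the same unit label. -/
def set5 (m : ℕ) (T N0 : ℕ) (ω : Finset (Fin P.k → XX P.n T N0)) :
    Finset (Fin m → Fin P.k × XX P.n T N0) :=
  open Classical in
  univ.filter fun lam => ∃ (t : ℕ) (e : Fin t → Fin P.k → XX P.n T N0), (∀ i, e i ∈ ω) ∧
    Good P.q P.n lam e ∧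
    ∃ i i' τ, i ≠ i' ∧ Lsum (e i) = unitL P.n T τ ∧ Lsum (e i') = unitL P.n T τ

/-- The pairs of tuples with good structures which have edges with the same unit label. -/
def set6 (m m' : ℕ) (T N0 : ℕ) (ω : Finset (Fin P.k → XX P.n T N0)) :
    Finset ((Fin m → Fin P.k × XX P.n T N0) × (Fin m' → Fin P.k × XX P.n T N0)) :=
  open Classical in
  univ.filter fun s => ∃ (t : ℕ) (e : Fin t → Fin P.k → XX P.n T N0) (t' : ℕ)
    (e' : Fin t' → Fin P.k → XX P.n T N0), (∀ i, e i ∈ ω) ∧ (∀ i, e' i ∈ ω) ∧
    Good P.q P.n s.1 e ∧ Good P.q P.n s.2 e' ∧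
    ∃ i i' τ, Lsum (e i) = unitL P.n T τ ∧ Lsum (e' i') = unitL P.n T τ

/-- The sum of the expectations over the lengths. -/
theorem cnt2_sum (M a : ℕ) : ∃ C : ℝ, 0 ≤ C ∧ ∀ T N0 : ℕ, 1 ≤ T → 1 ≤ N0 →
    IsPr (fun c => wF P T N0 c + wP P T N0 c) →
    Ex (fun c => wF P T N0 c + wP P T N0 c)
      (fun ω => ∑ t ∈ range a, ((setL P M t T N0 ω).card : ℝ)) ≤
      C / T * NN P T N0 ^ ((M : ℝ) / P.p) := by
  choose C h0 hC using fun t : ℕ => cntL P M t
  refine ⟨∑ t ∈ range a, C t, sum_nonneg fun t _ => h0 t, fun T N0 hT hN hw => ?_⟩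
  rw [Ex_sum, sum_div, sum_mul]
  exact sum_le_sum fun t _ => hC t T N0 hT hN hw

/-- Tuples of `set5` are tuples of `setL`. -/
theorem cnt2_mem_setL {m T N0 : ℕ} {ω : Finset (Fin P.k → XX P.n T N0)}
    {lam : Fin m → Fin P.k × XX P.n T N0} (h : lam ∈ set5 P m T N0 ω) :
    lam ∈ (range (m + 1)).biUnion fun t => setL P m t T N0 ω := by
  classical
  simp only [set5, mem_filter, mem_univ, true_and] at h
  obtain ⟨t, e, he, hg, i, i', τ, hne, h1, h2⟩ := h
  refine mem_biUnion.2 ⟨t, mem_range.2 (Nat.lt_succ_of_le (good_length P hg)), ?_⟩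
  simp only [setL, mem_filter, mem_univ, true_and]
  exact ⟨e, he, hg.1.1, hg.2.2, good_card P lam hg.2.1, i, i', τ, hne, h1, h2⟩

section append

variable {k : ℕ} {X : Type*} [DecidableEq X] {m m' t t' : ℕ}

/-- The vertices of an edge of the sequence are vertices of the structure. -/
theorem cnt2_mem_VS {lam : Fin m → Fin k × X} {e : Fin t → Fin k → X} (i : Fin t)
    {v : Fin k × X} (hv : e i v.1 = v.2) : v ∈ VS lam e := by
  refine mem_union_right _ (mem_biUnion.2 ⟨i, mem_univ _, ?_⟩)
  refine mem_image.2 ⟨v.1, mem_univ _, ?_⟩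
  rw [hv]

theorem cnt2_VS_append (lam : Fin m → Fin k × X) (lam' : Fin m' → Fin k × X)
    (e : Fin t → Fin k → X) (e' : Fin t' → Fin k → X) :
    VS (Fin.append lam lam') (Fin.append e e') = VS lam e ∪ VS lam' e' := by
  ext v
  simp only [VS, mem_union, mem_image, mem_biUnion, mem_univ, true_and]
  constructor
  · rintro (⟨i, hi⟩ | ⟨i, hi⟩)
    · induction i using Fin.addCases with
      | left i => left; left; exact ⟨i, by rwa [Fin.append_left] at hi⟩
      | right i => right; left; exact ⟨i, by rwa [Fin.append_right] at hi⟩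
    · induction i using Fin.addCases with
      | left i => left; right; exact ⟨i, by rwa [Fin.append_left] at hi⟩
      | right i => right; right; exact ⟨i, by rwa [Fin.append_right] at hi⟩
  · rintro ((⟨i, hi⟩ | ⟨i, hi⟩) | (⟨i, hi⟩ | ⟨i, hi⟩))
    · left; exact ⟨Fin.castAdd m' i, by rwa [Fin.append_left]⟩
    · right; exact ⟨Fin.castAdd t' i, by rwa [Fin.append_left]⟩
    · left; exact ⟨Fin.natAdd m i, by rwa [Fin.append_right]⟩
    · right; exact ⟨Fin.natAdd t i, by rwa [Fin.append_right]⟩

theorem cnt2_injective (hk : 0 < k) {lam : Fin m → Fin k × X} {lam' : Fin m' → Fin k × X}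
    {e : Fin t → Fin k → X} {e' : Fin t' → Fin k → X} (he : Function.Injective e)
    (he' : Function.Injective e') (hd : Disjoint (VS lam e) (VS lam' e')) :
    Function.Injective (Fin.append e e') := by
  have key : ∀ i i', e i ≠ e' i' := fun i i' h => by
    have h1 : ((⟨0, hk⟩ : Fin k), e i ⟨0, hk⟩) ∈ VS lam e := cnt2_mem_VS i rfl
    have h2 : ((⟨0, hk⟩ : Fin k), e i ⟨0, hk⟩) ∈ VS lam' e' := cnt2_mem_VS i' (by rw [h])
    exact Finset.disjoint_left.1 hd h1 h2
  intro a b hab
  induction a using Fin.addCases with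
  | left i =>
    induction b using Fin.addCases with
    | left j =>
      rw [Fin.append_left, Fin.append_left] at hab
      rw [he hab]
    | right j =>
      rw [Fin.append_left, Fin.append_right] at hab
      exact absurd hab (key i j)
  | right i =>
    induction b using Fin.addCases with
    | left j =>
      rw [Fin.append_left, Fin.append_right] at hab
      exact absurd hab.symm (key j i)
    | right j =>
      rw [Fin.append_right, Fin.append_right] at hab
      rw [he' hab]

theorem cnt2_indep {n : ℕ} {lam : Fin m → Fin k × X} {lam' : Fin m' → Fin k × X}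
    {e : Fin t → Fin k → X} {e' : Fin t' → Fin k → X} (he : Indep n e) (he' : Indep n e')
    (hd : Disjoint (VS lam e) (VS lam' e')) : Indep n (Fin.append e e') := by
  intro l hl hln c hc
  have hc1 : ∀ v : Fin k × X, (∑ i : Fin t, if e i v.1 = v.2 then c (Fin.castAdd t' i) else 0) +
      (∑ i : Fin t', if e' i v.1 = v.2 then c (Fin.natAdd t i) else 0) = 0 := by
    intro v
    have h := hc v
    rw [Fin.sum_univ_add] at h
    simpa only [Fin.append_left, Fin.append_right] using h
  have h1 : (fun i : Fin t => c (Fin.castAdd t' i)) = 0 := by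
    refine he l hl hln _ fun v => ?_
    by_cases hv : v ∈ VS lam e
    · have h2 : (∑ i : Fin t', if e' i v.1 = v.2 then c (Fin.natAdd t i) else 0) = 0 := by
        refine sum_eq_zero fun i _ => if_neg fun h => ?_
        exact Finset.disjoint_left.1 hd hv (cnt2_mem_VS i h)
      have h3 := hc1 v
      rwa [h2, add_zero] at h3
    · exact sum_eq_zero fun i _ => if_neg fun h => hv (cnt2_mem_VS i h)
  have h2 : (fun i : Fin t' => c (Fin.natAdd t i)) = 0 := by
    refine he' l hl hln _ fun v => ?_
    by_cases hv : v ∈ VS lam' e'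
    · have h2 : (∑ i : Fin t, if e i v.1 = v.2 then c (Fin.castAdd t' i) else 0) = 0 := by
        refine sum_eq_zero fun i _ => if_neg fun h => ?_
        exact Finset.disjoint_left.1 hd (cnt2_mem_VS i h) hv
      have h3 := hc1 v
      rwa [h2, zero_add] at h3
    · exact sum_eq_zero fun i _ => if_neg fun h => hv (cnt2_mem_VS i h)
  funext i
  induction i using Fin.addCases with
  | left i => exact congrFun h1 i
  | right i => exact congrFun h2 i

end append

/-- A pair of `set6` which is not in `setO` gives a tuple in `setL`. -/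
theorem cnt2_append_mem {m m' T N0 : ℕ} {ω : Finset (Fin P.k → XX P.n T N0)}
    {s : (Fin m → Fin P.k × XX P.n T N0) × (Fin m' → Fin P.k × XX P.n T N0)}
    (h : s ∈ set6 P m m' T N0 ω) (hO : s ∉ setO P m m' ω) :
    Fin.append s.1 s.2 ∈ (range (m + m' + 1)).biUnion fun t => setL P (m + m') t T N0 ω := by
  classical
  simp only [set6, mem_filter, mem_univ, true_and] at h
  obtain ⟨t, e, t', e', he, he', hg, hg', i, i', τ, h1, h2⟩ := h
  have hd : Disjoint (VS s.1 e) (VS s.2 e') := by
    rw [Finset.disjoint_iff_inter_eq_empty]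
    by_contra hne
    refine hO ?_
    simp only [setO, mem_filter, mem_univ, true_and]
    exact ⟨t, e, t', e', he, he', hg, hg', Finset.nonempty_iff_ne_empty.2 hne⟩
  refine mem_biUnion.2 ⟨t + t', mem_range.2 ?_, ?_⟩
  · have h3 := good_length P hg
    have h4 := good_length P hg'
    omega
  simp only [setL, mem_filter, mem_univ, true_and]
  refine ⟨Fin.append e e', ?_, ?_, cnt2_indep hg.2.2 hg'.2.2 hd, ?_, Fin.castAdd t' i,
    Fin.natAdd t i', τ, ?_, ?_, ?_⟩
  · intro j
    induction j using Fin.addCases with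
    | left j => rw [Fin.append_left]; exact he j
    | right j => rw [Fin.append_right]; exact he' j
  · exact cnt2_injective (by have := P.k_gt; omega) hg.1.1 hg'.1.1 hd
  · rw [cnt2_VS_append, card_union_of_disjoint hd]
    have h3 := good_card P s.1 hg.2.1
    have h4 := good_card P s.2 hg'.2.1
    push_cast
    rw [add_div, ← h3, ← h4]
    ring
  · intro h
    have h5 := congrArg Fin.val h
    simp only [Fin.val_castAdd, Fin.val_natAdd] at h5
    have := i.2
    omega
  · rw [Fin.append_left]; exact h1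
  · rw [Fin.append_right]; exact h2

theorem cnt2_append_injective {α : Type*} {m m' : ℕ} :
    Function.Injective fun s : (Fin m → α) × (Fin m' → α) => Fin.append s.1 s.2 := by
  intro a b h
  refine Prod.ext ?_ ?_
  · funext i
    have h1 := congrFun h (Fin.castAdd m' i)
    simpa only [Fin.append_left] using h1
  · funext i
    have h1 := congrFun h (Fin.natAdd m i)
    simpa only [Fin.append_right] using h1

/-- PROOF. `set5 ⊆ ⋃_{t ≤ m} setL m t` by `good_length` and `good_card`. -/
theorem cnt5 (m : ℕ) : ∃ C : ℝ, 0 ≤ C ∧ ∀ T N0 : ℕ, 1 ≤ T → 1 ≤ N0 →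
    IsPr (fun c => wF P T N0 c + wP P T N0 c) →
    Ex (fun c => wF P T N0 c + wP P T N0 c) (fun ω => ((set5 P m T N0 ω).card : ℝ)) ≤
      C / T * NN P T N0 ^ ((m : ℝ) / P.p) := by
  classical
  obtain ⟨C, h0, hC⟩ := cnt2_sum P m (m + 1)
  refine ⟨C, h0, fun T N0 hT hN hw => le_trans (Ex_mono hw fun ω => ?_) (hC T N0 hT hN hw)⟩
  have h1 : (set5 P m T N0 ω).card ≤ ∑ t ∈ range (m + 1), (setL P m t T N0 ω).card :=
    le_trans (card_le_card fun lam h => cnt2_mem_setL P h) card_biUnion_le
  exact_mod_cast h1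

/-- PROOF. Let `(lam, lam') ∈ set6` with `e, e'`. If the vertex sets meet then the pair is in
`setO P m m' ω`. Otherwise `Fin.append lam lam'` with `Fin.append e e'` is in
`setL (m + m') (t + t')`: `Fin.append e e'` is injective (an edge has `k ≥ 1` vertices), `Indep`
because a dependency restricts to a dependency of `e` (at the vertices of `VS lam e`) and of `e'`,
the numbers of vertices, of edges and the values `m/p` add up (`good_card`). And
`(lam, lam') ↦ Fin.append lam lam'` is injective. Sum `cntL` over `t + t' ≤ m + m'`. -/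
theorem cnt6 (m m' : ℕ) : ∃ C : ℝ, 0 ≤ C ∧ ∀ T N0 : ℕ, 1 ≤ T → 1 ≤ N0 →
    IsPr (fun c => wF P T N0 c + wP P T N0 c) →
    Ex (fun c => wF P T N0 c + wP P T N0 c) (fun ω => ((set6 P m m' T N0 ω).card : ℝ)) ≤
      C / T * NN P T N0 ^ (((m : ℝ) + m') / P.p) +
      Ex (fun c => wF P T N0 c + wP P T N0 c) (fun ω => ((setO P m m' ω).card : ℝ)) := by
  classical
  obtain ⟨C, h0, hC⟩ := cnt2_sum P (m + m') (m + m' + 1)
  refine ⟨C, h0, fun T N0 hT hN hw => ?_⟩
  have h2 := hC T N0 hT hN hw
  rw [Nat.cast_add] at h2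
  refine le_trans (le_trans (Ex_mono hw fun ω => ?_) (le_of_eq (Ex_add _ _ _)))
    (add_le_add h2 le_rfl)
  have h1 : (set6 P m m' T N0 ω).card ≤
      ∑ t ∈ range (m + m' + 1), (setL P (m + m') t T N0 ω).card + (setO P m m' ω).card := by
    have h3 : (set6 P m m' T N0 ω \ setO P m m' ω).card ≤
        ((range (m + m' + 1)).biUnion fun t => setL P (m + m') t T N0 ω).card := by
      refine card_le_card_of_injOn (fun s => Fin.append s.1 s.2) (fun s hs => ?_)
        cnt2_append_injective.injOn
      have hs' := mem_sdiff.1 hs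
      exact cnt2_append_mem P hs'.1 hs'.2
    have h4 : (set6 P m m' T N0 ω).card ≤
        (set6 P m m' T N0 ω \ setO P m m' ω).card + (setO P m m' ω).card :=
      card_le_card_sdiff_add_card
    exact le_trans h4 (Nat.add_le_add_right (le_trans h3 card_biUnion_le) _)
  exact_mod_cast h1

end

end Pool.Agent.GP2
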