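import Pool.Agent.GP2.YngA

/-!
# YNG: the flat bounds
-/

namespace Pool.Agent.GP2

open Finset

noncomputable section

variable (P : Par) (T N0 : ℕ)

/-- The number of letters, as a real number. -/
def NN : ℝ := (N0 : ℝ) * (P.n : ℝ) ^ T

/-- Weights of the edges with label sum zero. -/
def wF (c : Fin P.k → XX P.n T N0) : ℝ :=
  if Lsum c = 0 then (P.n : ℝ) ^ T * NN P T N0 ^ (-(P.k / P.q : ℝ)) else 0

/-- Weights of the edges whose label sum is a unit vector. -/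
def wP (c : Fin P.k → XX P.n T N0) : ℝ :=
  if ∃ τ, Lsum c = unitL P.n T τ then (P.n : ℝ) ^ T / T * NN P T N0 ^ (-(P.k / P.q : ℝ)) else 0

theorem card_XX : (Fintype.card (XX P.n T N0) : ℝ) = NN P T N0 := by
  have h : Fintype.card (XX P.n T N0) = N0 * P.n ^ T := by
    rw [Fintype.card_prod, Fintype.card_fin, Fintype.card_fun, ZMod.card, Fintype.card_fin]
  rw [h, NN]
  push_cast
  ring

theorem yng_card_Lab : (Fintype.card (Lab P.n T) : ℝ) = (P.n : ℝ) ^ T := by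
  have h : Fintype.card (Lab P.n T) = P.n ^ T := by
    rw [Fintype.card_fun, ZMod.card, Fintype.card_fin]
  rw [h]
  push_cast
  ring

theorem yng_npow_pos : 0 < (P.n : ℝ) ^ T := by
  have h : 0 < P.n := by have := P.hn; omega
  have h' : (0 : ℝ) < P.n := by exact_mod_cast h
  positivity

theorem yng_k2 : 2 ≤ P.k := by have := P.k_gt; omega

theorem yng_kp : (P.k : ℝ) / (P.k - 1) ≤ P.p := by
  have h1 := P.pq_lt
  have h2 := P.two_lt_q
  have h3 := P.one_lt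
  have h4 : (1 : ℝ) < P.p * P.q := by nlinarith
  have h5 : (0 : ℝ) < (P.k : ℝ) - 1 := by linarith
  rw [div_le_iff₀ h5]
  have h6 : (P.p - 1) * (P.p * P.q) ≤ (P.p - 1) * ((P.k : ℝ) - 1) :=
    mul_le_mul_of_nonneg_left h1.le (by linarith)
  have h7 : (P.p - 1) * P.q = P.p := by
    have := P.mul_eq
    linarith
  have h8 : (P.p - 1) * (P.p * P.q) = P.p * P.p := by
    calc (P.p - 1) * (P.p * P.q) = P.p * ((P.p - 1) * P.q) := by ring
      _ = P.p * P.p := by rw [h7]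
  nlinarith

theorem yng_kq : (P.k : ℝ) - P.k / P.p = P.k / P.q := by
  have := P.k_split
  linarith

theorem yng_const (hN : 1 ≤ N0) :
    (P.n : ℝ) ^ T * NN P T N0 ^ (-(P.k / P.q : ℝ)) *
      ((N0 : ℝ) ^ ((P.k : ℝ) - P.k / P.p) *
        (Fintype.card (Lab P.n T) : ℝ) ^ ((P.k : ℝ) - 1 - P.k / P.p)) = 1 := by
  have ha : (0 : ℝ) < N0 := by exact_mod_cast hN
  have hb := yng_npow_pos P T
  rw [yng_card_Lab, NN]
  generalize (P.n : ℝ) ^ T = b at *
  generalize (N0 : ℝ) = a at *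
  have h1 := yng_kq P
  rw [h1]
  have h2 : (P.k : ℝ) - 1 - P.k / P.p = P.k / P.q - 1 := by linarith
  rw [h2]
  generalize (P.k / P.q : ℝ) = κ
  rw [Real.mul_rpow ha.le hb.le, Real.rpow_sub hb, Real.rpow_one, Real.rpow_neg ha.le,
    Real.rpow_neg hb.le]
  have h3 : a ^ κ ≠ 0 := (Real.rpow_pos_of_pos ha κ).ne'
  have h4 : b ^ κ ≠ 0 := (Real.rpow_pos_of_pos hb κ).ne'
  field_simp

theorem yng_base (hN : 1 ≤ N0) (r : Lab P.n T) (x : Fin P.k → XX P.n T N0 → ℝ)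
    (hx : ∀ j y, 0 ≤ x j y) :
    (P.n : ℝ) ^ T * NN P T N0 ^ (-(P.k / P.q : ℝ)) *
      ∑ c : Fin P.k → XX P.n T N0 with Lsum c = r, ∏ j, x j (c j) ≤
        ∏ j, (∑ y, x j y ^ P.p) ^ (1 / P.p) := by
  have h := flat_sum (yng_k2 P) P.one_lt (yng_kp P) N0 r x hx
  have hc := yng_const P T N0 hN
  have hC : 0 ≤ (P.n : ℝ) ^ T * NN P T N0 ^ (-(P.k / P.q : ℝ)) := by
    have := yng_npow_pos P T
    have h2 : 0 ≤ NN P T N0 := by unfold NN; positivity
    positivity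
  calc (P.n : ℝ) ^ T * NN P T N0 ^ (-(P.k / P.q : ℝ)) *
      ∑ c : Fin P.k → XX P.n T N0 with Lsum c = r, ∏ j, x j (c j)
      ≤ (P.n : ℝ) ^ T * NN P T N0 ^ (-(P.k / P.q : ℝ)) *
        ((N0 : ℝ) ^ ((P.k : ℝ) - P.k / P.p) *
        (Fintype.card (Lab P.n T) : ℝ) ^ ((P.k : ℝ) - 1 - P.k / P.p) *
        ∏ j, (∑ g, x j g ^ P.p) ^ (1 / P.p)) := mul_le_mul_of_nonneg_left h hC
    _ = ((P.n : ℝ) ^ T * NN P T N0 ^ (-(P.k / P.q : ℝ)) *
      ((N0 : ℝ) ^ ((P.k : ℝ) - P.k / P.p) *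
        (Fintype.card (Lab P.n T) : ℝ) ^ ((P.k : ℝ) - 1 - P.k / P.p))) *
        ∏ j, (∑ g, x j g ^ P.p) ^ (1 / P.p) := by ring
    _ = _ := by rw [hc, one_mul]

/-- PROOF. `flat_sum` with `G = Lab`, `|G| = n^T`; the constant is
`n^T NN^{-k/q} N0^{k/q} n^{T (k/q - 1)} = 1`, as `k - k/p = k/q`. -/
theorem flat_F (hT : 1 ≤ T) (hN : 1 ≤ N0) (x : Fin P.k → XX P.n T N0 → ℝ)
    (hx : ∀ j y, 0 ≤ x j y) :
    ∑ c, wF P T N0 c * ∏ j, x j (c j) ≤ ∏ j, (∑ y, x j y ^ P.p) ^ (1 / P.p) := by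
  refine le_trans (le_of_eq ?_) (yng_base P T N0 hN 0 x hx)
  rw [Finset.mul_sum, Finset.sum_filter]
  refine Finset.sum_congr rfl fun c _ => ?_
  unfold wF
  split_ifs <;> simp

/-- PROOF. As `flat_F`, sum over the `T` unit labels (which are different, as `n ≥ 3`). -/
theorem flat_P (hT : 1 ≤ T) (hN : 1 ≤ N0) (x : Fin P.k → XX P.n T N0 → ℝ)
    (hx : ∀ j y, 0 ≤ x j y) :
    ∑ c, wP P T N0 c * ∏ j, x j (c j) ≤ ∏ j, (∑ y, x j y ^ P.p) ^ (1 / P.p) := by
  have hT' : (0 : ℝ) < T := by exact_mod_cast hT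
  set D : ℝ := (P.n : ℝ) ^ T * NN P T N0 ^ (-(P.k / P.q : ℝ)) with hD
  have hD0 : 0 ≤ D := by
    have := yng_npow_pos P T
    have h2 : 0 ≤ NN P T N0 := by unfold NN; positivity
    positivity
  have key : ∀ c : Fin P.k → XX P.n T N0, wP P T N0 c * ∏ j, x j (c j) ≤
      ∑ τ : Fin T, (T : ℝ)⁻¹ * (D * if Lsum c = unitL P.n T τ then ∏ j, x j (c j) else 0) := by
    intro c
    have hp : 0 ≤ ∏ j, x j (c j) := Finset.prod_nonneg fun j _ => hx j _
    have hnn : ∀ τ ∈ (univ : Finset (Fin T)), 0 ≤ (T : ℝ)⁻¹ *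
        (D * if Lsum c = unitL P.n T τ then ∏ j, x j (c j) else 0) := by
      intro τ _
      split_ifs <;> positivity
    unfold wP
    split_ifs with h
    · obtain ⟨τ, hτ⟩ := h
      refine le_trans (le_of_eq ?_) (Finset.single_le_sum hnn (Finset.mem_univ τ))
      rw [if_pos hτ, hD]
      ring
    · rw [zero_mul]
      exact Finset.sum_nonneg hnn
  refine (Finset.sum_le_sum fun c _ => key c).trans ?_
  rw [Finset.sum_comm]
  have h2 : ∀ τ ∈ (univ : Finset (Fin T)), ∑ c : Fin P.k → XX P.n T N0, (T : ℝ)⁻¹ *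
      (D * if Lsum c = unitL P.n T τ then ∏ j, x j (c j) else 0) ≤
      (T : ℝ)⁻¹ * ∏ j, (∑ y, x j y ^ P.p) ^ (1 / P.p) := by
    intro τ _
    rw [← Finset.mul_sum, ← Finset.mul_sum, ← Finset.sum_filter]
    exact mul_le_mul_of_nonneg_left (yng_base P T N0 hN _ x hx) (by positivity)
  refine (Finset.sum_le_sum h2).trans (le_of_eq ?_)
  rw [Finset.sum_const, Finset.card_univ, Fintype.card_fin, nsmul_eq_mul]
  field_simp

theorem yng_pow (hN : 1 ≤ N0) :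
    ((N0 : ℝ) ^ P.k * ((P.n : ℝ) ^ T) ^ (P.k - 1)) *
      ((P.n : ℝ) ^ T * NN P T N0 ^ (-(P.k / P.q : ℝ))) = NN P T N0 ^ (P.k / P.p : ℝ) := by
  have ha : (0 : ℝ) < N0 := by exact_mod_cast hN
  have hb := yng_npow_pos P T
  have hk := yng_k2 P
  have hNN : 0 < NN P T N0 := by unfold NN; positivity
  have h1 : ((N0 : ℝ) ^ P.k * ((P.n : ℝ) ^ T) ^ (P.k - 1)) * (P.n : ℝ) ^ T =
      NN P T N0 ^ P.k := by
    rw [NN, mul_pow, mul_assoc, ← pow_succ, Nat.sub_add_cancel (by omega)]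
  rw [← mul_assoc, h1, ← Real.rpow_natCast, ← Real.rpow_add hNN]
  congr 1
  have := P.k_split
  linarith

theorem yng_count (r : Lab P.n T) :
    ((univ.filter fun c : Fin P.k → XX P.n T N0 => Lsum c = r).card : ℝ) =
      (N0 : ℝ) ^ P.k * ((P.n : ℝ) ^ T) ^ (P.k - 1) := by
  have hk := yng_k2 P
  have h := card_label_sum (k := P.k) (by omega) N0 r
  have h2 : (univ.filter fun c : Fin P.k → XX P.n T N0 => Lsum c = r).card =
      N0 ^ P.k * (Fintype.card (Lab P.n T)) ^ (P.k - 1) := h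
  rw [h2]
  push_cast
  rw [yng_card_Lab]

/-- The total weights are `NN^{k/p}`.

PROOF. `card_label_sum`: `N0^k n^{T(k-1)} n^T NN^{-k/q} = NN^{k - k/q} = NN^{k/p}`. -/
theorem sum_wF (hT : 1 ≤ T) (hN : 1 ≤ N0) :
    ∑ c, wF P T N0 c = NN P T N0 ^ (P.k / P.p : ℝ) := by
  unfold wF
  rw [← Finset.sum_filter, Finset.sum_const, nsmul_eq_mul, yng_count, yng_pow P T N0 hN]

theorem yng_unit_inj : Function.Injective (unitL P.n T) := by
  intro a b hab
  by_contra hne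
  have h := congrFun hab a
  unfold unitL at h
  rw [Pi.single_eq_same, Pi.single_eq_of_ne hne] at h
  have : Fact (1 < P.n) := ⟨by have := P.hn; omega⟩
  exact one_ne_zero h

theorem sum_wP (hT : 1 ≤ T) (hN : 1 ≤ N0) :
    ∑ c, wP P T N0 c = NN P T N0 ^ (P.k / P.p : ℝ) := by
  have hT' : (0 : ℝ) < T := by exact_mod_cast hT
  have key : ∀ c : Fin P.k → XX P.n T N0, wP P T N0 c =
      ∑ τ : Fin T, if Lsum c = unitL P.n T τ then
        (P.n : ℝ) ^ T / T * NN P T N0 ^ (-(P.k / P.q : ℝ)) else 0 := by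
    intro c
    unfold wP
    split_ifs with h
    · obtain ⟨τ, hτ⟩ := h
      rw [Finset.sum_eq_single τ]
      · rw [if_pos hτ]
      · intro τ' _ hne
        rw [if_neg]
        intro h2
        exact hne (yng_unit_inj P T (h2.symm.trans hτ))
      · intro h3
        exact absurd (Finset.mem_univ τ) h3
    · symm
      refine Finset.sum_eq_zero fun τ _ => ?_
      rw [if_neg]
      intro h2
      exact h ⟨τ, h2⟩
  rw [Finset.sum_congr rfl fun c _ => key c, Finset.sum_comm]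
  have h2 : ∀ τ ∈ (univ : Finset (Fin T)), (∑ c : Fin P.k → XX P.n T N0,
      if Lsum c = unitL P.n T τ then
        (P.n : ℝ) ^ T / T * NN P T N0 ^ (-(P.k / P.q : ℝ)) else 0) =
      (T : ℝ)⁻¹ * NN P T N0 ^ (P.k / P.p : ℝ) := by
    intro τ _
    rw [← Finset.sum_filter, Finset.sum_const, nsmul_eq_mul, yng_count, ← yng_pow P T N0 hN]
    ring
  rw [Finset.sum_congr rfl h2, Finset.sum_const, Finset.card_univ, Fintype.card_fin, nsmul_eq_mul]
  field_simp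

end

end Pool.Agent.GP2
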