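import Pool.Agent.GP2.Cnt1
import Pool.Agent.GP2.Yng

/-!
# CNT 2: first moments of structures with two edges of the same label
-/

namespace Pool.Agent.GP2

open Finset

noncomputable section

/-- An element of `ZMod n` vanishing in `ZMod l`, `l ∣ n`, is divisible by `l`. -/
lemma cnt2A_dvd {n l : ℕ} [NeZero n] (hl : l ∣ n) (x : ZMod n)
    (hx : ZMod.castHom hl (ZMod l) x = 0) : ∃ y : ZMod n, x = (l : ZMod n) * y := by
  have h1 : ((x.val : ℕ) : ZMod n) = x := ZMod.natCast_zmod_val x
  have h2 : ((x.val : ℕ) : ZMod l) = 0 := by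
    rw [← h1, map_natCast] at hx
    exact hx
  rw [ZMod.natCast_eq_zero_iff] at h2
  obtain ⟨m, hm⟩ := h2
  refine ⟨(m : ZMod n), ?_⟩
  rw [← h1, hm]
  push_cast
  rfl

/-- Surjectivity modulo a prime. -/
lemma cnt2A_prime {l : ℕ} [Fact l.Prime] {t v : ℕ} (M : Fin t → Fin v → ℤ)
    (h : ∀ c : Fin t → ZMod l, (∀ u, ∑ i, c i * (M i u : ZMod l) = 0) → c = 0)
    (z : Fin t → ZMod l) : ∃ a : Fin v → ZMod l, ∀ i, ∑ u, (M i u : ZMod l) * a u = z i := by
  classical
  let f : (Fin v → ZMod l) →ₗ[ZMod l] (Fin t → ZMod l) :=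
    Matrix.mulVecLin (Matrix.of fun i u => (M i u : ZMod l))
  have hf : ∀ a i, f a i = ∑ u, (M i u : ZMod l) * a u := by
    intro a i
    simp [f, Matrix.mulVec, dotProduct]
  have htop : LinearMap.range f = ⊤ := by
    by_contra hne
    obtain ⟨g, hg0, hg⟩ := Submodule.exists_le_ker_of_lt_top (LinearMap.range f)
      (lt_top_iff_ne_top.2 hne)
    apply hg0
    have hc : (fun i => g (Pi.single i 1)) = (0 : Fin t → ZMod l) := by
      apply h
      intro u
      have h1 : g (f (Pi.single u 1)) = 0 := by
        have : f (Pi.single u 1) ∈ LinearMap.ker g := hg ⟨_, rfl⟩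
        simpa using this
      have h2 : f (Pi.single u 1) = ∑ i, (M i u : ZMod l) • (Pi.single i 1 : Fin t → ZMod l) := by
        funext j
        rw [hf, Finset.sum_apply]
        simp [Pi.single_apply]
      rw [h2, map_sum] at h1
      simp only [map_smul, smul_eq_mul] at h1
      rw [← h1]
      exact Finset.sum_congr rfl fun i _ => mul_comm _ _
    apply LinearMap.pi_ext'
    intro i
    ext
    have := congrFun hc i
    simpa using this
  have hz : z ∈ LinearMap.range f := by rw [htop]; trivial
  obtain ⟨a, ha⟩ := hz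
  exact ⟨a, fun i => by rw [← hf, ha]⟩

/-- SUR. An integer matrix whose transpose is injective modulo all primes `l ∣ n` is surjective
modulo `n`.

PROOF. Let `I` be the range of `a ↦ M a` in `(ZMod n)^t`. For every prime `l ∣ n` the matrix modulo
`l` has injective transpose, so it is surjective over the field `ZMod l`; hence every
`z ∈ (ZMod n)^t` is of the form `M a + l z'`. So in the quotient `R = (ZMod n)^t / I` we have
`l R = R` for all primes `l ∣ n`, and so `n R = R` (induction over the factorisation of `n`). But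
`n R = 0`. So `R = 0`. -/
theorem surjective_of_primes {n : ℕ} [NeZero n] {t v : ℕ} (M : Fin t → Fin v → ℤ)
    (h : ∀ l : ℕ, l.Prime → l ∣ n → ∀ c : Fin t → ZMod l,
      (∀ u, ∑ i, c i * (M i u : ZMod l) = 0) → c = 0)
    (z : Fin t → ZMod n) : ∃ a : Fin v → ZMod n, ∀ i, ∑ u, (M i u : ZMod n) * a u = z i := by
  classical
  -- one prime
  have hprime : ∀ l : ℕ, l.Prime → l ∣ n → ∀ z : Fin t → ZMod n, ∃ (a : Fin v → ZMod n)
      (z' : Fin t → ZMod n), ∀ i, z i = ∑ u, (M i u : ZMod n) * a u + (l : ZMod n) * z' i := by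
    intro l hl hln z
    have : Fact l.Prime := ⟨hl⟩
    obtain ⟨b, hb⟩ := cnt2A_prime M (h l hl hln) (fun i => ZMod.castHom hln (ZMod l) (z i))
    have hlift : ∀ u, ZMod.castHom hln (ZMod l) (((b u).val : ℕ) : ZMod n) = b u := by
      intro u
      rw [map_natCast]
      exact ZMod.natCast_zmod_val (b u)
    have hd : ∀ i, ∃ y : ZMod n, z i - ∑ u, (M i u : ZMod n) * (((b u).val : ℕ) : ZMod n) =
        (l : ZMod n) * y := by
      intro i
      apply cnt2A_dvd hln
      rw [map_sub, map_sum, ← hb i, sub_eq_zero]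
      refine Finset.sum_congr rfl fun u _ => ?_
      rw [map_mul, hlift, map_intCast]
    choose y hy using hd
    exact ⟨fun u => (((b u).val : ℕ) : ZMod n), y, fun i => by rw [← hy i]; ring⟩
  -- all divisors
  have hall : ∀ d : ℕ, d ≠ 0 → d ∣ n → ∀ z : Fin t → ZMod n, ∃ (a : Fin v → ZMod n)
      (z' : Fin t → ZMod n), ∀ i, z i = ∑ u, (M i u : ZMod n) * a u + (d : ZMod n) * z' i := by
    intro d
    induction d using induction_on_primes with
    | zero => intro h0; exact absurd rfl h0
    | one =>
      intro _ _ z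
      exact ⟨0, z, fun i => by simp⟩
    | prime_mul l d hl ih =>
      intro hd0 hdn z
      have hd0' : d ≠ 0 := right_ne_zero_of_mul hd0
      obtain ⟨a, z', hz⟩ := ih hd0' (dvd_of_mul_left_dvd hdn) z
      obtain ⟨a', z'', hz'⟩ := hprime l hl (dvd_of_mul_right_dvd hdn) z'
      refine ⟨fun u => a u + (d : ZMod n) * a' u, z'', fun i => ?_⟩
      rw [hz i, hz' i]
      have h3 : ∑ u, (M i u : ZMod n) * (a u + (d : ZMod n) * a' u) =
          ∑ u, (M i u : ZMod n) * a u + (d : ZMod n) * ∑ u, (M i u : ZMod n) * a' u := by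
        rw [Finset.mul_sum, ← Finset.sum_add_distrib]
        exact Finset.sum_congr rfl fun u _ => by ring
      rw [h3]
      push_cast
      ring
  obtain ⟨a, z', hz⟩ := hall n (NeZero.ne n) dvd_rfl z
  refine ⟨a, fun i => ?_⟩
  rw [hz i, ZMod.natCast_self, zero_mul, add_zero]

/-- The number of labellings with given sums.

PROOF. By `surjective_of_primes` (in every one of the `T` coordinates, with the matrix
`M i u = #{j : e i j = u}`) the homomorphism `a ↦ (∑_j a (e i j))_i` from `(Fin v → Lab)` to
`(Fin t → Lab)` is surjective, so all its fibres have `n^{T v} / n^{T t}` elements. -/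
theorem card_labellings {k n T t v : ℕ} [NeZero n] (e : Fin t → Fin k → Fin v)
    (h : ∀ l : ℕ, l.Prime → l ∣ n → ∀ c : Fin t → ZMod l,
      (∀ u : Fin v, (∑ i, c i * ((univ.filter fun j => e i j = u).card : ZMod l)) = 0) → c = 0)
    (r : Fin t → Lab n T) :
    (univ.filter fun a : Fin v → Lab n T => ∀ i, ∑ j, a (e i j) = r i).card * (n ^ T) ^ t =
      (n ^ T) ^ v := by
  classical
  set M : Fin t → Fin v → ℤ := fun i u => ((univ.filter fun j => e i j = u).card : ℤ) with hM
  let φ : (Fin v → Lab n T) →+ (Fin t → Lab n T) :=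
    { toFun := fun a i => ∑ j, a (e i j)
      map_zero' := by funext i; simp
      map_add' := by
        intro a b
        funext i
        simp only [Pi.add_apply]
        exact Finset.sum_add_distrib }
  have hφ : ∀ a i, φ a i = ∑ j, a (e i j) := fun a i => rfl
  have hsurj : Function.Surjective φ := by
    intro r
    have hc : ∀ τ : Fin T, ∃ a : Fin v → ZMod n, ∀ i,
        ∑ u, (M i u : ZMod n) * a u = r i τ := by
      intro τ
      apply surjective_of_primes M
      intro l hl hln c hc
      apply h l hl hln c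
      intro u
      rw [← hc u]
      refine Finset.sum_congr rfl fun i _ => ?_
      simp [hM]
    choose a ha using hc
    refine ⟨fun u τ => a τ u, ?_⟩
    funext i τ
    rw [hφ, Finset.sum_apply, ← ha τ i]
    have h4 : ∀ u, (M i u : ZMod n) * a τ u = ∑ j ∈ univ.filter (fun j => e i j = u), a τ u := by
      intro u
      rw [Finset.sum_const, nsmul_eq_mul]
      simp [hM]
    rw [Finset.sum_congr rfl fun u _ => h4 u]
    rw [← Finset.sum_fiberwise univ (fun j => e i j) (fun j => a τ (e i j))]
    refine Finset.sum_congr rfl fun u _ => ?_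
    refine Finset.sum_congr rfl fun j hj => ?_
    rw [(Finset.mem_filter.1 hj).2]
  have hfib : ∀ r' : Fin t → Lab n T,
      (univ.filter fun a : Fin v → Lab n T => φ a = r').card =
      (univ.filter fun a : Fin v → Lab n T => φ a = r).card := by
    intro r'
    exact AddMonoidHom.card_fiber_eq_of_mem_range φ (hsurj r') (hsurj r)
  have hset : (univ.filter fun a : Fin v → Lab n T => ∀ i, ∑ j, a (e i j) = r i) =
      univ.filter fun a : Fin v → Lab n T => φ a = r := by
    ext a
    simp only [mem_filter, mem_univ, true_and]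
    rw [funext_iff]
    exact Iff.rfl
  rw [hset]
  have htot : (univ : Finset (Fin v → Lab n T)).card =
      ∑ r' : Fin t → Lab n T, (univ.filter fun a : Fin v → Lab n T => φ a = r').card :=
    Finset.card_eq_sum_card_fiberwise fun a _ => mem_univ _
  rw [Finset.sum_congr rfl fun r' _ => hfib r', Finset.sum_const, smul_eq_mul] at htot
  have hLab : Fintype.card (Lab n T) = n ^ T := by
    simp [Lab, ZMod.card]
  have hA : (univ : Finset (Fin v → Lab n T)).card = (n ^ T) ^ v := by
    rw [Finset.card_univ, Fintype.card_fun, hLab, Fintype.card_fin]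
  have hB : (univ : Finset (Fin t → Lab n T)).card = (n ^ T) ^ t := by
    rw [Finset.card_univ, Fintype.card_fun, hLab, Fintype.card_fin]
  rw [hA, hB] at htot
  rw [htot, mul_comm]

variable (P : Par)

end

end Pool.Agent.GP2
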