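import Pool.Agent.GP2.Cnt2A

/-!
# CNT 2: first moments of structures with two edges of the same label
-/

namespace Pool.Agent.GP2

open Finset

noncomputable section

variable (P : Par)

/-- The tuples with a critical independent structure with two edges with the same unit label. -/
def setL (m t : ℕ) (T N0 : ℕ) (ω : Finset (Fin P.k → XX P.n T N0)) :
    Finset (Fin m → Fin P.k × XX P.n T N0) :=
  open Classical in
  univ.filter fun lam => ∃ (e : Fin t → Fin P.k → XX P.n T N0), (∀ i, e i ∈ ω) ∧
    Function.Injective e ∧ Indep P.n e ∧ ((VS lam e).card : ℝ) - P.k / P.q * t = m / P.p ∧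
    ∃ i i' τ, i ≠ i' ∧ Lsum (e i) = unitL P.n T τ ∧ Lsum (e i') = unitL P.n T τ

/-- The profile of the weights. -/
def cnt2B_rho (n T : ℕ) (r : Lab n T) : ℝ :=
  (if r = 0 then (1 : ℝ) else 0) + (if ∃ τ, r = unitL n T τ then (1 : ℝ) / T else 0)

lemma cnt2B_rho_nonneg (n T : ℕ) (r : Lab n T) : 0 ≤ cnt2B_rho n T r := by
  unfold cnt2B_rho
  have h : (0 : ℝ) ≤ 1 / T := by positivity
  refine add_nonneg ?_ ?_
  · split_ifs <;> norm_num
  · split_ifs
    · exact h
    · exact le_rfl

lemma cnt2B_w (T N0 : ℕ) (c : Fin P.k → XX P.n T N0) :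
    wF P T N0 c + wP P T N0 c =
      ((P.n : ℝ) ^ T * NN P T N0 ^ (-(P.k / P.q : ℝ))) * cnt2B_rho P.n T (Lsum c) := by
  unfold wF wP cnt2B_rho
  split_ifs <;> ring

lemma cnt2B_rho_unit {n T : ℕ} (hn : 2 ≤ n) (τ : Fin T) :
    cnt2B_rho n T (unitL n T τ) = 1 / T := by
  have h0 : unitL n T τ ≠ 0 := by
    intro h
    have : Fact (1 < n) := ⟨by omega⟩
    have h1 := congrFun h τ
    simp [unitL] at h1
  unfold cnt2B_rho
  rw [if_neg h0, if_pos ⟨τ, rfl⟩, zero_add]

lemma cnt2B_rho_sum {n T : ℕ} [NeZero n] (hT : 1 ≤ T) :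
    ∑ r : Lab n T, cnt2B_rho n T r ≤ 2 := by
  have hT0 : (0 : ℝ) < T := by exact_mod_cast hT
  unfold cnt2B_rho
  rw [Finset.sum_add_distrib]
  have h1 : ∑ r : Lab n T, (if r = 0 then (1 : ℝ) else 0) = 1 := by
    rw [Finset.sum_ite_eq' univ (0 : Lab n T) (fun _ => (1 : ℝ))]
    simp
  have h2 : ∑ r : Lab n T, (if ∃ τ, r = unitL n T τ then (1 : ℝ) / T else 0) ≤ 1 := by
    calc ∑ r : Lab n T, (if ∃ τ, r = unitL n T τ then (1 : ℝ) / T else 0)
        ≤ ∑ r : Lab n T, ∑ τ, (if r = unitL n T τ then (1 : ℝ) / T else 0) := by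
          refine Finset.sum_le_sum fun r _ => ?_
          have hnn : ∀ τ : Fin T, 0 ≤ (if r = unitL n T τ then (1 : ℝ) / T else 0) := by
            intro τ
            split_ifs
            · positivity
            · exact le_rfl
          split_ifs with h
          · obtain ⟨τ, hτ⟩ := h
            have h3 := Finset.single_le_sum (fun τ _ => hnn τ) (Finset.mem_univ τ)
            rw [if_pos hτ] at h3
            exact h3
          · exact Finset.sum_nonneg fun τ _ => hnn τ
      _ = ∑ τ : Fin T, ∑ r : Lab n T, (if r = unitL n T τ then (1 : ℝ) / T else 0) :=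
          Finset.sum_comm
      _ = ∑ _τ : Fin T, (1 : ℝ) / T := by
          refine Finset.sum_congr rfl fun τ _ => ?_
          rw [Finset.sum_ite_eq' univ (unitL n T τ) (fun _ => (1 : ℝ) / T)]
          simp
      _ = 1 := by
          rw [Finset.sum_const, Finset.card_univ, Fintype.card_fin, nsmul_eq_mul]
          field_simp
  rw [h1]
  linarith

lemma cnt2B_prod {n T t : ℕ} [NeZero n] (hn : 2 ≤ n) (hT : 1 ≤ T) {i i' : Fin t} (hii : i ≠ i')
    (τ : Fin T) :
    ∑ r : Fin t → Lab n T, (if r i = unitL n T τ ∧ r i' = unitL n T τ then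
      ∏ u, cnt2B_rho n T (r u) else 0) ≤ 2 ^ t * (1 / T) * (1 / T) := by
  have hT0 : (0 : ℝ) < T := by exact_mod_cast hT
  set A : Fin t → Lab n T → ℝ := fun u x => if u = i then (if x = unitL n T τ then 1 else 0) else 1
    with hA
  set B : Fin t → Lab n T → ℝ := fun u x => if u = i' then (if x = unitL n T τ then 1 else 0) else 1
    with hB
  have hA0 : ∀ u x, 0 ≤ A u x := by
    intro u x
    simp only [hA]
    split_ifs <;> norm_num
  have hB0 : ∀ u x, 0 ≤ B u x := by
    intro u x
    simp only [hB]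
    split_ifs <;> norm_num
  calc ∑ r : Fin t → Lab n T, (if r i = unitL n T τ ∧ r i' = unitL n T τ then
      ∏ u, cnt2B_rho n T (r u) else 0)
      ≤ ∑ r : Fin t → Lab n T, ∏ u, (cnt2B_rho n T (r u) * A u (r u) * B u (r u)) := by
        refine Finset.sum_le_sum fun r _ => ?_
        split_ifs with h
        · refine le_of_eq (Finset.prod_congr rfl fun u _ => ?_)
          have h1 : A u (r u) = 1 := by
            simp only [hA]
            by_cases hu : u = i
            · rw [if_pos hu, hu, if_pos h.1]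
            · rw [if_neg hu]
          have h2 : B u (r u) = 1 := by
            simp only [hB]
            by_cases hu : u = i'
            · rw [if_pos hu, hu, if_pos h.2]
            · rw [if_neg hu]
          rw [h1, h2, mul_one, mul_one]
        · exact Finset.prod_nonneg fun u _ => mul_nonneg (mul_nonneg (cnt2B_rho_nonneg n T _)
            (hA0 _ _)) (hB0 _ _)
    _ = ∏ u, ∑ x : Lab n T, cnt2B_rho n T x * A u x * B u x := by
        rw [Finset.prod_univ_sum, Fintype.piFinset_univ]
    _ ≤ ∏ u : Fin t, (2 * (if u = i then (1 : ℝ) / T else 1) * (if u = i' then (1 : ℝ) / T else 1)) := by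
        refine Finset.prod_le_prod (fun u _ => Finset.sum_nonneg fun x _ =>
          mul_nonneg (mul_nonneg (cnt2B_rho_nonneg n T _) (hA0 _ _)) (hB0 _ _)) fun u _ => ?_
        have hs : ∑ x : Lab n T, cnt2B_rho n T x * (if x = unitL n T τ then (1 : ℝ) else 0) =
            1 / T := by
          rw [← cnt2B_rho_unit hn τ]
          have : ∀ x : Lab n T, cnt2B_rho n T x * (if x = unitL n T τ then (1 : ℝ) else 0) =
              if x = unitL n T τ then cnt2B_rho n T x else 0 := by
            intro x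
            split_ifs <;> ring
          rw [Finset.sum_congr rfl fun x _ => this x,
            Finset.sum_ite_eq' univ (unitL n T τ) (fun x => cnt2B_rho n T x)]
          simp
        have hpos : (0 : ℝ) < 1 / T := by positivity
        by_cases hu : u = i
        · have hu' : u ≠ i' := by rw [hu]; exact hii
          simp only [hA, hB, if_pos hu, if_neg hu', mul_one]
          rw [hs]
          linarith
        · by_cases hu' : u = i'
          · simp only [hA, hB, if_neg hu, if_pos hu', mul_one]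
            rw [hs]
            linarith
          · simp only [hA, hB, if_neg hu, if_neg hu', mul_one]
            exact cnt2B_rho_sum hT
    _ = 2 ^ t * (1 / T) * (1 / T) := by
        rw [Finset.prod_mul_distrib, Finset.prod_mul_distrib, Finset.prod_const, Finset.card_univ,
          Fintype.card_fin, Finset.prod_ite_eq' univ i (fun _ => (1 : ℝ) / T),
          Finset.prod_ite_eq' univ i' (fun _ => (1 : ℝ) / T)]
        simp

lemma cnt2B_sum_r {n T t : ℕ} [NeZero n] (hn : 2 ≤ n) (hT : 1 ≤ T) :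
    (open Classical in ∑ r : Fin t → Lab n T,
      (if ∃ i i' τ, i ≠ i' ∧ r i = unitL n T τ ∧ r i' = unitL n T τ then
        ∏ u, cnt2B_rho n T (r u) else 0)) ≤ (t : ℝ) ^ 2 * 2 ^ t / T := by
  classical
  have hT0 : (0 : ℝ) < T := by exact_mod_cast hT
  have hX : ∀ r : Fin t → Lab n T, 0 ≤ ∏ u, cnt2B_rho n T (r u) := fun r =>
    Finset.prod_nonneg fun u _ => cnt2B_rho_nonneg n T _
  set G : Fin t × Fin t × Fin T → (Fin t → Lab n T) → ℝ := fun s r =>
    if s.1 ≠ s.2.1 ∧ r s.1 = unitL n T s.2.2 ∧ r s.2.1 = unitL n T s.2.2 then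
      ∏ u, cnt2B_rho n T (r u) else 0 with hG
  have hG0 : ∀ s r, 0 ≤ G s r := by
    intro s r
    simp only [hG]
    split_ifs
    · exact hX r
    · exact le_rfl
  have h1 : ∑ r : Fin t → Lab n T,
      (if ∃ i i' τ, i ≠ i' ∧ r i = unitL n T τ ∧ r i' = unitL n T τ then
        ∏ u, cnt2B_rho n T (r u) else 0) ≤ ∑ r : Fin t → Lab n T, ∑ s, G s r := by
    refine Finset.sum_le_sum fun r _ => ?_
    split_ifs with h
    · obtain ⟨i, i', τ, h1, h2, h3⟩ := h
      have h4 := Finset.single_le_sum (fun s _ => hG0 s r) (Finset.mem_univ (i, i', τ))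
      have h5 : G (i, i', τ) r = ∏ u, cnt2B_rho n T (r u) := by
        simp only [hG]
        rw [if_pos ⟨h1, h2, h3⟩]
      rw [h5] at h4
      exact h4
    · exact Finset.sum_nonneg fun s _ => hG0 s r
  refine h1.trans ?_
  rw [Finset.sum_comm]
  have h2 : ∀ s : Fin t × Fin t × Fin T, ∑ r, G s r ≤ 2 ^ t * (1 / T) * (1 / T) := by
    intro s
    by_cases hs : s.1 = s.2.1
    · have : ∀ r, G s r = 0 := by
        intro r
        simp only [hG]
        rw [if_neg fun h => h.1 hs]
      rw [Finset.sum_congr rfl fun r _ => this r, Finset.sum_const_zero]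
      positivity
    · refine le_trans (le_of_eq ?_) (cnt2B_prod hn hT hs s.2.2)
      refine Finset.sum_congr rfl fun r _ => ?_
      simp only [hG]
      by_cases h : r s.1 = unitL n T s.2.2 ∧ r s.2.1 = unitL n T s.2.2
      · rw [if_pos h, if_pos ⟨hs, h⟩]
      · rw [if_neg h, if_neg fun h' => h h'.2]
  refine (Finset.sum_le_sum fun s _ => h2 s).trans (le_of_eq ?_)
  rw [Finset.sum_const, Finset.card_univ, Fintype.card_prod, Fintype.card_prod, Fintype.card_fin,
    Fintype.card_fin, nsmul_eq_mul]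
  push_cast
  field_simp

/-- Hypothesis on the patterns. -/
def cnt2B_H (k n t v : ℕ) (e : Fin t → Fin k → Fin v) : Prop :=
  ∀ l : ℕ, l.Prime → l ∣ n → ∀ c : Fin t → ZMod l,
      (∀ u : Fin v, (∑ i, c i * ((univ.filter fun j => e i j = u).card : ZMod l)) = 0) → c = 0

lemma cnt2B_pattern {k n T t v : ℕ} [NeZero n] (hn : 2 ≤ n) (hT : 1 ≤ T)
    (e : Fin t → Fin k → Fin v) (h : cnt2B_H k n t v e) :
    (open Classical in ∑ a : Fin v → Lab n T,
      (if ∃ i i' τ, i ≠ i' ∧ (∑ j, a (e i j)) = unitL n T τ ∧ (∑ j, a (e i' j)) = unitL n T τ then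
        ∏ u, cnt2B_rho n T (∑ j, a (e u j)) else 0)) * ((n : ℝ) ^ T) ^ t ≤
        (t : ℝ) ^ 2 * 2 ^ t / T * ((n : ℝ) ^ T) ^ v := by
  classical
  set R : (Fin v → Lab n T) → (Fin t → Lab n T) := fun a i => ∑ j, a (e i j) with hR
  set g : (Fin t → Lab n T) → ℝ := fun r =>
    if ∃ i i' τ, i ≠ i' ∧ r i = unitL n T τ ∧ r i' = unitL n T τ then
        ∏ u, cnt2B_rho n T (r u) else 0 with hg
  have h1 : ∑ a : Fin v → Lab n T,
      (if ∃ i i' τ, i ≠ i' ∧ (∑ j, a (e i j)) = unitL n T τ ∧ (∑ j, a (e i' j)) = unitL n T τ then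
        ∏ u, cnt2B_rho n T (∑ j, a (e u j)) else 0) = ∑ a, g (R a) := rfl
  have h2 : ∑ a, g (R a) = ∑ r, g r * ((univ.filter fun a => R a = r).card : ℝ) := by
    rw [← Finset.sum_fiberwise univ R (fun a => g (R a))]
    refine Finset.sum_congr rfl fun r _ => ?_
    rw [Finset.sum_congr rfl (g := fun _ => g r), Finset.sum_const, nsmul_eq_mul, mul_comm]
    intro a ha
    rw [(Finset.mem_filter.mp ha).2]
  have h3 : ∀ r, ((univ.filter fun a => R a = r).card : ℝ) * ((n : ℝ) ^ T) ^ t =
      ((n : ℝ) ^ T) ^ v := by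
    intro r
    have h4 := card_labellings (T := T) e h r
    have h5 : (univ.filter fun a : Fin v → Lab n T => R a = r) =
        (univ.filter fun a : Fin v → Lab n T => ∀ i, ∑ j, a (e i j) = r i) := by
      ext a
      simp only [Finset.mem_filter, Finset.mem_univ, true_and, hR, funext_iff]
    rw [h5]
    exact_mod_cast h4
  have h6 : (∑ r, g r * ((univ.filter fun a => R a = r).card : ℝ)) * ((n : ℝ) ^ T) ^ t =
      (∑ r, g r) * ((n : ℝ) ^ T) ^ v := by
    rw [Finset.sum_mul, Finset.sum_mul]
    refine Finset.sum_congr rfl fun r _ => ?_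
    rw [mul_assoc, h3]
  have h7 := cnt2B_sum_r (n := n) (T := T) (t := t) hn hT
  have h8 : ∑ r, g r ≤ (t : ℝ) ^ 2 * 2 ^ t / T := by
    convert h7 using 2
  rw [h1, h2, h6]
  exact mul_le_mul_of_nonneg_right h8 (by positivity)

/-- The structure with a given pattern and given letters. -/
def cnt2B_phi {k n T N0 m t v : ℕ}
    (d : ((Fin v → Fin k) × (Fin m → Fin v) × (Fin t → Fin k → Fin v)) ×
      (Fin v → Fin N0) × (Fin v → Lab n T)) :
    (Fin m → Fin k × XX n T N0) × (Fin t → Fin k → XX n T N0) :=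
  (fun l => (d.1.1 (d.1.2.1 l), (d.2.1 (d.1.2.1 l), d.2.2 (d.1.2.1 l))),
    fun i j => (d.2.1 (d.1.2.2 i j), d.2.2 (d.1.2.2 i j)))

lemma cnt2B_lift {k n T N0 m t v : ℕ} (lam : Fin m → Fin k × XX n T N0)
    (e : Fin t → Fin k → XX n T N0) (hI : Indep n e) (hv : (VS lam e).card = v) :
    ∃ d : ((Fin v → Fin k) × (Fin m → Fin v) × (Fin t → Fin k → Fin v)) ×
      (Fin v → Fin N0) × (Fin v → Lab n T), cnt2B_phi d = (lam, e) ∧
      cnt2B_H k n t v d.1.2.2 := by
  classical
  set g : (VS lam e) ≃ Fin v := (VS lam e).equivFinOfCardEq hv with hg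
  have hlam : ∀ l, lam l ∈ VS lam e := fun l =>
    Finset.mem_union_left _ (Finset.mem_image_of_mem _ (Finset.mem_univ l))
  have he : ∀ i j, (j, e i j) ∈ VS lam e := fun i j =>
    Finset.mem_union_right _ (Finset.mem_biUnion.mpr ⟨i, Finset.mem_univ i,
      Finset.mem_image_of_mem (fun j => (j, e i j)) (Finset.mem_univ j)⟩)
  refine ⟨((fun u => (g.symm u).1.1, fun l => g ⟨lam l, hlam l⟩,
    fun i j => g ⟨(j, e i j), he i j⟩), (fun u => (g.symm u).1.2.1, fun u => (g.symm u).1.2.2)),
    ?_, ?_⟩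
  · unfold cnt2B_phi
    simp
  · intro l hl hln c hc
    refine hI l hl hln c fun x => ?_
    by_cases hx : x ∈ VS lam e
    · have h1 := hc (g ⟨x, hx⟩)
      refine Eq.trans (Finset.sum_congr rfl fun i _ => ?_) h1
      have h2 : (univ.filter fun j => g ⟨(j, e i j), he i j⟩ = g ⟨x, hx⟩) =
          if e i x.1 = x.2 then {x.1} else ∅ := by
        ext j
        rw [Finset.mem_filter]
        simp only [Finset.mem_univ, true_and, EmbeddingLike.apply_eq_iff_eq, Subtype.mk.injEq]
        split_ifs with h3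
        · rw [Finset.mem_singleton]
          constructor
          · intro h4
            exact congrArg Prod.fst h4
          · intro h4
            rw [h4, h3]
        · simp only [Finset.notMem_empty, iff_false]
          intro h4
          apply h3
          have h5 := congrArg Prod.fst h4
          have h6 := congrArg Prod.snd h4
          simp only at h5 h6
          rw [← h5, h6]
      simp only
      rw [h2]
      split_ifs <;> simp
    · refine Finset.sum_eq_zero fun i _ => ?_
      rw [if_neg]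
      intro h1
      apply hx
      have h2 := he i x.1
      rw [h1] at h2
      exact h2

/-- The expected number of these tuples is `O(1/T)` times the main order.

PROOF. Put `w = wF + wP`, `N = NN P T N0`, `L = n^T`. The expectation is at most the sum over all
`(lam, e)` with `e` injective, `Indep`, `|VS lam e| = v` (where `v - (k/q) t = m/p`; if this is not
a natural number `v` the set is empty), and `i ≠ i'`, `τ` with
`Lsum (e i) = Lsum (e i') = unitL τ`, of `∏_i w (e i)` (`Ex_subset`, `e` injective).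
PATTERNS: choose a bijection `g : Fin v ≃ VS lam e` and write `g u = (slot u, (b u, a u))`,
`b : Fin v → Fin N0`, `a : Fin v → Lab`. Then `lam = g ∘ lam'` and `(j, e i j) = g (e' i j)` with
`lam' : Fin m → Fin v`, `e' : Fin t → Fin k → Fin v`, `slot (e' i j) = j`. So `(lam, e)` is
determined by the pattern `(slot, lam', e')` (at most `k^v v^m v^{k t}` patterns) and by `b, a`. As
`g` is a bijection, `Indep` says that the pattern satisfies the hypothesis of `card_labellings`
(the number of `j` with `e' i j = u` is `1` if `e i (slot u) = (g u).2`, and `0` otherwise). For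
such a pattern and given `r : Fin t → Lab` there are `N0^v L^{v - t}` choices of `(b, a)` with
`Lsum (e i) = r i`. The weight `w (e i)` depends on `r i` only: it is `L N^{-k/q} ρ(r i)` with
`ρ(0) = 1`, `ρ(unit) = 1/T`, `ρ = 0` otherwise, `∑_r ρ(r) = 2`. The sum over all `r` with
`r i = r i' = unitL τ` for some `i ≠ i'`, `τ` of `∏ ρ(r_i)` is at most
`t^2 T (1/T)^2 2^{t-2} ≤ t^2 2^t / T`. Total: at most
`k^v v^{m + k t} t^2 2^t / T * N0^v L^{v-t} L^t N^{-(k/q) t} = (C/T) N^{v - (k/q) t}`. -/
theorem cntL (m t : ℕ) : ∃ C : ℝ, 0 ≤ C ∧ ∀ T N0 : ℕ, 1 ≤ T → 1 ≤ N0 →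
    IsPr (fun c => wF P T N0 c + wP P T N0 c) →
    Ex (fun c => wF P T N0 c + wP P T N0 c) (fun ω => ((setL P m t T N0 ω).card : ℝ)) ≤
      C / T * NN P T N0 ^ ((m : ℝ) / P.p) := by
  classical
  by_cases hv : ∃ v : ℕ, (v : ℝ) - P.k / P.q * t = m / P.p
  · obtain ⟨v, hv⟩ := hv
    set K : ℝ := (Fintype.card ((Fin v → Fin P.k) × (Fin m → Fin v) ×
      (Fin t → Fin P.k → Fin v)) : ℝ) with hK
    refine ⟨K * ((t : ℝ) ^ 2 * 2 ^ t), by positivity, ?_⟩
    intro T N0 hT hN0 hw
    have hT0 : (0 : ℝ) < T := by exact_mod_cast hT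
    have hn : 2 ≤ P.n := by have := P.hn; omega
    have hn0 : (0 : ℝ) < P.n := by
      have : 0 < P.n := by omega
      exact_mod_cast this
    have hN00 : (0 : ℝ) < N0 := by exact_mod_cast hN0
    have hNN : 0 < NN P T N0 := by
      unfold NN
      positivity
    set w : (Fin P.k → XX P.n T N0) → ℝ := fun c => wF P T N0 c + wP P T N0 c with hwdef
    set κ : ℝ := (P.n : ℝ) ^ T * NN P T N0 ^ (-(P.k / P.q : ℝ)) with hκ
    have hκ0 : 0 ≤ κ := by positivity
    set Q : (Fin t → Fin P.k → XX P.n T N0) → Prop := fun e =>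
      ∃ i i' τ, i ≠ i' ∧ Lsum (e i) = unitL P.n T τ ∧ Lsum (e i') = unitL P.n T τ with hQ
    set S : Finset ((Fin m → Fin P.k × XX P.n T N0) × (Fin t → Fin P.k → XX P.n T N0)) :=
      univ.filter fun s => Function.Injective s.2 ∧ Indep P.n s.2 ∧ (VS s.1 s.2).card = v ∧ Q s.2
      with hS
    -- the expectation
    have hE : Ex w (fun ω => ((setL P m t T N0 ω).card : ℝ)) ≤ ∑ s ∈ S, ∏ i, w (s.2 i) := by
      have h1 : ∀ ω : Finset (Fin P.k → XX P.n T N0), ((setL P m t T N0 ω).card : ℝ) ≤
          ∑ s ∈ S, if univ.image s.2 ⊆ ω then (1 : ℝ) else 0 := by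
        intro ω
        rw [Finset.sum_ite, Finset.sum_const_zero, add_zero, Finset.sum_const, nsmul_eq_mul,
          mul_one]
        have h2 : setL P m t T N0 ω ⊆
            (S.filter fun s => univ.image s.2 ⊆ ω).image Prod.fst := by
          intro lam hlam
          unfold setL at hlam
          rw [Finset.mem_filter] at hlam
          obtain ⟨-, e, h3, h4, h5, h6, h7⟩ := hlam
          rw [Finset.mem_image]
          refine ⟨(lam, e), ?_, rfl⟩
          rw [Finset.mem_filter]
          refine ⟨?_, ?_⟩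
          · rw [hS, Finset.mem_filter]
            refine ⟨Finset.mem_univ _, h4, h5, ?_, h7⟩
            have h8 : ((VS lam e).card : ℝ) = v := by linarith
            exact_mod_cast h8
          · intro c hc
            rw [Finset.mem_image] at hc
            obtain ⟨i, -, rfl⟩ := hc
            exact h3 i
        exact_mod_cast (Finset.card_le_card h2).trans Finset.card_image_le
      refine (Ex_mono hw h1).trans (le_of_eq ?_)
      rw [Ex_sum]
      refine Finset.sum_congr rfl fun s hs => ?_
      rw [Ex_subset, Finset.prod_image]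
      intro i _ i' _ h
      rw [hS, Finset.mem_filter] at hs
      exact hs.2.1 h
    -- lifting to the patterns
    set g : (Fin m → Fin P.k × XX P.n T N0) × (Fin t → Fin P.k → XX P.n T N0) → ℝ :=
      fun s => if Q s.2 then ∏ i, w (s.2 i) else 0 with hg
    have hg0 : ∀ s, 0 ≤ g s := by
      intro s
      simp only [hg]
      split_ifs
      · exact Finset.prod_nonneg fun i _ => (hw (s.2 i)).1
      · exact le_rfl
    set D : Finset (((Fin v → Fin P.k) × (Fin m → Fin v) × (Fin t → Fin P.k → Fin v)) ×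
      (Fin v → Fin N0) × (Fin v → Lab P.n T)) :=
      univ.filter fun d => cnt2B_H P.k P.n t v d.1.2.2 with hD
    have hL : ∑ s ∈ S, ∏ i, w (s.2 i) ≤ ∑ d ∈ D, g (cnt2B_phi d) := by
      have h1 : ∀ s ∈ S, ∃ d, cnt2B_phi d = s ∧ d ∈ D := by
        intro s hs
        rw [hS, Finset.mem_filter] at hs
        obtain ⟨d, h2, h3⟩ := cnt2B_lift s.1 s.2 hs.2.2.1 hs.2.2.2.1
        refine ⟨d, h2, ?_⟩
        rw [hD, Finset.mem_filter]
        exact ⟨Finset.mem_univ _, h3⟩
      rcases S.eq_empty_or_nonempty with hSe | ⟨s0, hs0⟩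
      · rw [hSe, Finset.sum_empty]
        exact Finset.sum_nonneg fun d _ => hg0 _
      have hne : Nonempty (((Fin v → Fin P.k) × (Fin m → Fin v) × (Fin t → Fin P.k → Fin v)) ×
        (Fin v → Fin N0) × (Fin v → Lab P.n T)) := ⟨(h1 s0 hs0).choose⟩
      choose! dd hd1 hd2 using h1
      calc ∑ s ∈ S, ∏ i, w (s.2 i) = ∑ s ∈ S, g (cnt2B_phi (dd s)) := by
            refine Finset.sum_congr rfl fun s hs => ?_
            rw [hd1 s hs]
            rw [hS, Finset.mem_filter] at hs
            simp only [hg]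
            rw [if_pos hs.2.2.2.2]
        _ = ∑ d ∈ S.image dd, g (cnt2B_phi d) := by
            rw [Finset.sum_image]
            intro s hs s' hs' h
            rw [← hd1 s hs, ← hd1 s' hs', h]
        _ ≤ ∑ d ∈ D, g (cnt2B_phi d) := by
            refine Finset.sum_le_sum_of_subset_of_nonneg ?_ fun d _ _ => hg0 _
            intro d hd
            rw [Finset.mem_image] at hd
            obtain ⟨s, hs, rfl⟩ := hd
            exact hd2 s hs
    -- the sum over the letters
    have hM : ∑ d ∈ D, g (cnt2B_phi d) ≤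
        ∑ _pt : (Fin v → Fin P.k) × (Fin m → Fin v) × (Fin t → Fin P.k → Fin v),
          ∑ _b : Fin v → Fin N0,
            κ ^ t * ((t : ℝ) ^ 2 * 2 ^ t / T * ((P.n : ℝ) ^ T) ^ v / ((P.n : ℝ) ^ T) ^ t) := by
      rw [hD, Finset.sum_filter, Fintype.sum_prod_type]
      refine Finset.sum_le_sum fun pt _ => ?_
      rw [Fintype.sum_prod_type]
      refine Finset.sum_le_sum fun b _ => ?_
      by_cases hH : cnt2B_H P.k P.n t v pt.2.2
      · have h1 : ∀ a : Fin v → Lab P.n T,
            (if cnt2B_H P.k P.n t v pt.2.2 then g (cnt2B_phi (pt, (b, a))) else 0) =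
            κ ^ t * (if ∃ i i' τ, i ≠ i' ∧ (∑ j, a (pt.2.2 i j)) = unitL P.n T τ ∧
              (∑ j, a (pt.2.2 i' j)) = unitL P.n T τ then
              ∏ u, cnt2B_rho P.n T (∑ j, a (pt.2.2 u j)) else 0) := by
          intro a
          rw [if_pos hH]
          simp only [hg, hQ, hwdef, cnt2B_phi, cnt2B_w, Lsum, ← hκ]
          split_ifs
          · rw [Finset.prod_mul_distrib, Finset.prod_const, Finset.card_univ, Fintype.card_fin]
          · rw [mul_zero]
        have h2 := cnt2B_pattern (T := T) hn hT pt.2.2 hH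
        rw [Finset.sum_congr rfl fun a _ => h1 a, ← Finset.mul_sum]
        refine mul_le_mul_of_nonneg_left ?_ (pow_nonneg hκ0 t)
        rw [le_div_iff₀ (by positivity)]
        convert h2 using 2
      · simp only [if_neg hH, Finset.sum_const_zero]
        positivity
    refine hE.trans (hL.trans (hM.trans (le_of_eq ?_)))
    rw [Finset.sum_const, Finset.sum_const, Finset.card_univ, Finset.card_univ, nsmul_eq_mul,
      nsmul_eq_mul, ← hK]
    have h1 : (Fintype.card (Fin v → Fin N0) : ℝ) = (N0 : ℝ) ^ v := by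
      rw [Fintype.card_fun, Fintype.card_fin, Fintype.card_fin]
      push_cast
      rfl
    rw [h1, ← hv]
    have h2 : NN P T N0 ^ ((v : ℝ) - P.k / P.q * t) =
        (N0 : ℝ) ^ v * ((P.n : ℝ) ^ T) ^ v * (NN P T N0 ^ (-(P.k / P.q : ℝ))) ^ t := by
      rw [Real.rpow_sub hNN, Real.rpow_natCast]
      have h3 : NN P T N0 ^ ((P.k : ℝ) / P.q * t) = (NN P T N0 ^ ((P.k : ℝ) / P.q)) ^ t := by
        rw [Real.rpow_mul hNN.le, Real.rpow_natCast]
      rw [h3, Real.rpow_neg hNN.le, inv_pow, div_eq_mul_inv]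
      congr 1
      unfold NN
      rw [mul_pow]
    rw [h2, hκ, mul_pow]
    have h4 : ((P.n : ℝ) ^ T) ^ t ≠ 0 := by positivity
    field_simp
  · refine ⟨0, le_rfl, ?_⟩
    intro T N0 hT hN0 hw
    have h1 : ∀ ω : Finset (Fin P.k → XX P.n T N0), ((setL P m t T N0 ω).card : ℝ) ≤ 0 := by
      intro ω
      have h2 : setL P m t T N0 ω = ∅ := by
        rw [Finset.eq_empty_iff_forall_notMem]
        intro lam hlam
        unfold setL at hlam
        rw [Finset.mem_filter] at hlam
        obtain ⟨-, e, -, -, -, h6, -⟩ := hlam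
        exact hv ⟨_, h6⟩
      rw [h2]
      simp
    have h2 := Ex_mono hw h1
    have h3 : Ex (fun c => wF P T N0 c + wP P T N0 c) (fun _ => (0 : ℝ)) = 0 := by
      unfold Ex
      simp
    rw [h3] at h2
    simpa using h2

end

end Pool.Agent.GP2
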