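import Pool.Agent.GP2.CodA

/-!
# COD: existence of linear codes of norm one and almost maximal rate
-/

namespace Pool.Agent.GP2

open Finset Module

noncomputable section

section CodAux

variable {F : Type*} [Field F] {V : Type*} [AddCommGroup V] [Module F V]

/-- The projection of a subspace. -/
def CodP {k : ℕ} (W : Submodule F (Fin k → V)) (j : Fin k) : Submodule F V :=
  W.map (LinearMap.proj j : (Fin k → V) →ₗ[F] V)

/-- A subspace on which the sum of the components vanishes. -/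
lemma Cod_dim [FiniteDimensional F V] {k : ℕ} (W : Submodule F (Fin k → V))
    (hW : ∀ y ∈ W, ∑ j, y j = 0) :
    finrank F W + finrank F (⨆ j, CodP W j : Submodule F V) ≤ ∑ j, finrank F (CodP W j) := by
  classical
  set T : (∀ j, CodP W j) →ₗ[F] V :=
    ∑ j, (CodP W j).subtype ∘ₗ LinearMap.proj j with hT
  have hTapp : ∀ z, T z = ∑ j, ((z j : CodP W j) : V) := by
    intro z
    simp [hT, LinearMap.sum_apply]
  have hrange : (⨆ j, CodP W j : Submodule F V) ≤ LinearMap.range T := by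
    refine iSup_le fun j v hv => ?_
    refine ⟨Pi.single j ⟨v, hv⟩, ?_⟩
    rw [hTapp, Finset.sum_eq_single j]
    · simp
    · intro i _ hi
      rw [Pi.single_eq_of_ne hi]
      rfl
    · intro h
      exact absurd (Finset.mem_univ j) h
  set i : W →ₗ[F] (LinearMap.ker T) :=
    { toFun := fun y => ⟨fun j => ⟨(y : Fin k → V) j, Submodule.mem_map_of_mem y.2⟩, by
        rw [LinearMap.mem_ker, hTapp]
        exact hW _ y.2⟩
      map_add' := fun _ _ => rfl
      map_smul' := fun _ _ => rfl } with hi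
  have hinj : Function.Injective i := by
    intro y z hyz
    apply Subtype.ext
    funext j
    have h1 := congrArg (fun w : LinearMap.ker T => (((w : ∀ j, CodP W j) j : CodP W j) : V)) hyz
    exact h1
  have h1 := LinearMap.finrank_le_finrank_of_injective hinj
  have h2 := LinearMap.finrank_range_add_finrank_ker T
  have h3 := Submodule.finrank_mono hrange
  rw [Module.finrank_pi_fintype] at h2
  omega

/-- A subspace of given dimension. -/
lemma Cod_sub [FiniteDimensional F V] {b : ℕ} (D : Submodule F V) (hb : b ≤ finrank F D) :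
    ∃ D' ≤ D, finrank F D' = b := by
  classical
  set B := Module.finBasis F D
  have hlin : LinearIndependent F fun i : Fin b => ((B (Fin.castLE hb i) : D) : V) := by
    have h1 : LinearIndependent F fun i => ((B i : D) : V) :=
      B.linearIndependent.map' D.subtype (Submodule.ker_subtype _)
    exact h1.comp _ (Fin.castLE_injective hb)
  refine ⟨Submodule.span F (Set.range fun i : Fin b => ((B (Fin.castLE hb i) : D) : V)), ?_, ?_⟩
  · rw [Submodule.span_le]
    rintro _ ⟨i, rfl⟩
    exact (B _).2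
  · rw [finrank_span_eq_card hlin, Fintype.card_fin]

/-- The geometric series. -/
lemma Cod_geom (b : ℕ) : ∑ w ∈ Finset.Icc 1 b, ((1 : ℝ) / 4) ^ w < 1 := by
  have h : ∑ w ∈ Finset.Icc 1 b, ((1 : ℝ) / 4) ^ w = (1 - (1 / 4) ^ b) / 3 := by
    induction b with
    | zero => simp
    | succ n ih =>
      rw [Finset.sum_Icc_succ_top (by omega), ih]
      ring
  rw [h]
  have : (0 : ℝ) < (1 / 4) ^ b := by positivity
  linarith

end CodAux

section CodCount

variable {F : Type*} [Field F] [Fintype F] {V : Type*} [AddCommGroup V] [Module F V] [Fintype V]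

/-- The number of bad subspaces with given parameters. -/
lemma Cod_fiber {p eta : ℝ} (hp : 1 < p) (hp2 : p < 2) (heta : 0 < eta) {k : ℕ}
    (hk : p ^ 2 / (p - 1) < k) {b r : ℕ}
    (hA : ((k : ℝ) + 7) ≤ (k - p) * (p * eta / k) * finrank F V)
    (hb : 1 ≤ b → (b : ℝ) ≤ (k / p - eta) * finrank F V)
    (hr : (r : ℝ) + b = (k - 1) * finrank F V)
    (w : ℕ) (hw1 : 1 ≤ w) (hwb : w ≤ b) (wj : Fin k → ℕ) (u : ℕ)
    (hs : ((∑ j, wj j : ℕ) : ℝ) < p * w) :
    (Nat.card {W : Submodule F (Fin k → V) // (∀ y ∈ W, ∑ j, y j = 0) ∧ finrank F W = w ∧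
      (∀ j, finrank F (W.map (LinearMap.proj j : (Fin k → V) →ₗ[F] V)) = wj j) ∧
      finrank F (⨆ j, W.map (LinearMap.proj j : (Fin k → V) →ₗ[F] V) : Submodule F V) = u} : ℝ) *
      ((Fintype.card F : ℝ) ^ (r * w))⁻¹ ≤ (((2 : ℝ) ^ (k + 3))⁻¹) ^ w := by
  classical
  rcases isEmpty_or_nonempty {W : Submodule F (Fin k → V) // (∀ y ∈ W, ∑ j, y j = 0) ∧
      finrank F W = w ∧
      (∀ j, finrank F (W.map (LinearMap.proj j : (Fin k → V) →ₗ[F] V)) = wj j) ∧
      finrank F (⨆ j, W.map (LinearMap.proj j : (Fin k → V) →ₗ[F] V) : Submodule F V) = u}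
    with hE | ⟨⟨W, hW0, hWw, hWj, hWu⟩⟩
  · rw [Nat.card_of_isEmpty]
    simp only [Nat.cast_zero, zero_mul]
    positivity
  have hcount := card_family_le (F := F) (V := V) (k := k) w wj u
  set N := Nat.card {W : Submodule F (Fin k → V) // (∀ y ∈ W, ∑ j, y j = 0) ∧ finrank F W = w ∧
      (∀ j, finrank F (W.map (LinearMap.proj j : (Fin k → V) →ₗ[F] V)) = wj j) ∧
      finrank F (⨆ j, W.map (LinearMap.proj j : (Fin k → V) →ₗ[F] V) : Submodule F V) = u}
    with hN
  set A := finrank F V with hAdef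
  have hu : u ≤ A := by rw [← hWu]; exact Submodule.finrank_le _
  have hwj : ∀ j, wj j ≤ u := by
    intro j
    rw [← hWu, ← hWj j]
    exact Submodule.finrank_mono (le_iSup (fun j => W.map (LinearMap.proj j :
      (Fin k → V) →ₗ[F] V)) j)
  have hwu : w + u ≤ ∑ j, wj j := by
    have h1 := Cod_dim W hW0
    unfold CodP at h1
    rw [hWw, hWu, Finset.sum_congr rfl fun j _ => hWj j] at h1
    exact h1
  have hexp := exponent_le hp hp2 heta hk wj hs hu hwj hwu hwb (hb (hw1.trans hwb)) hr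
  have hw0 : (0 : ℝ) ≤ w := Nat.cast_nonneg w
  have hsw : (∑ j, wj j) ≤ 2 * w := by
    have h1 : ((∑ j, wj j : ℕ) : ℝ) ≤ ((2 * w : ℕ) : ℝ) := by
      push_cast
      push_cast at hs
      nlinarith
    exact_mod_cast h1
  -- the exponents
  have hnat : (u * A + (∑ j, wj j) * u + w * ∑ j, wj j) + (k + 7) * w ≤
      (u * u + (∑ j, wj j * wj j) + w * w + w * u) + r * w := by
    have h2 : ((k : ℝ) + 7) * w ≤ (k - p) * (p * eta / k) * A * w :=
      mul_le_mul_of_nonneg_right hA hw0
    have h3 : (∑ j, (wj j : ℝ) * (u - wj j)) = (∑ j, (wj j : ℝ)) * u -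
        ∑ j, (wj j : ℝ) * (wj j : ℝ) := by
      rw [Finset.sum_mul, ← Finset.sum_sub_distrib]
      refine Finset.sum_congr rfl fun j _ => ?_
      ring
    rw [h3] at hexp
    have h4 : (((u * A + (∑ j, wj j) * u + w * ∑ j, wj j) + (k + 7) * w : ℕ) : ℝ) ≤
        (((u * u + (∑ j, wj j * wj j) + w * w + w * u) + r * w : ℕ) : ℝ) := by
      push_cast
      nlinarith
    exact_mod_cast h4
  have hQ : (2 : ℝ) ≤ Fintype.card F := by
    exact_mod_cast Fintype.one_lt_card
  have hQ0 : (0 : ℝ) < Fintype.card F := by linarith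
  set Q : ℝ := (Fintype.card F : ℝ) with hQdef
  set a1 := u * u + (∑ j, wj j * wj j) + w * w + w * u with ha1
  set a2 := u * A + (∑ j, wj j) * u + w * ∑ j, wj j with ha2
  set s := u + (∑ j, wj j) + w with hsdef
  have hs4 : s ≤ 4 * w := by omega
  have h5 : (N : ℝ) * Q ^ a1 * Q ^ ((k + 7) * w) ≤ 2 ^ (4 * w) * Q ^ (a1 + r * w) := by
    calc (N : ℝ) * Q ^ a1 * Q ^ ((k + 7) * w) ≤ 2 ^ s * Q ^ a2 * Q ^ ((k + 7) * w) :=
          mul_le_mul_of_nonneg_right hcount (by positivity)
      _ = 2 ^ s * Q ^ (a2 + (k + 7) * w) := by rw [pow_add Q a2, mul_assoc]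
      _ ≤ 2 ^ (4 * w) * Q ^ (a1 + r * w) := by
          refine mul_le_mul ?_ ?_ (by positivity) (by positivity)
          · exact pow_le_pow_right₀ (by norm_num) hs4
          · exact pow_le_pow_right₀ (by linarith) hnat
  have h6 : (N : ℝ) * Q ^ ((k + 7) * w) ≤ 2 ^ (4 * w) * Q ^ (r * w) := by
    have h7 : (0 : ℝ) < Q ^ a1 := by positivity
    have h8 : (N : ℝ) * Q ^ ((k + 7) * w) * Q ^ a1 ≤ 2 ^ (4 * w) * Q ^ (r * w) * Q ^ a1 := by
      rw [pow_add Q a1] at h5
      calc _ = (N : ℝ) * Q ^ a1 * Q ^ ((k + 7) * w) := by ring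
        _ ≤ _ := h5
        _ = _ := by ring
    exact le_of_mul_le_mul_right h8 h7
  have h9 : (N : ℝ) * 2 ^ ((k + 7) * w) ≤ 2 ^ (4 * w) * Q ^ (r * w) :=
    (mul_le_mul_of_nonneg_left (pow_le_pow_left₀ (by norm_num) hQ _) (Nat.cast_nonneg N)).trans h6
  have h10 : (2 : ℝ) ^ ((k + 7) * w) = 2 ^ (4 * w) * (2 ^ (k + 3)) ^ w := by
    rw [← pow_mul, ← pow_add]
    congr 1
    ring
  rw [h10] at h9
  rw [inv_pow, ← div_eq_mul_inv, div_le_iff₀ (by positivity), inv_mul_eq_div,
    le_div_iff₀ (by positivity)]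
  have h11 : (0 : ℝ) < 2 ^ (4 * w) := by positivity
  refine le_of_mul_le_mul_left ?_ h11
  linarith

/-- The space of all words with zero sum. -/
def CodH (F : Type*) [Field F] (V : Type*) [AddCommGroup V] [Module F V] (k : ℕ) :
    Submodule F (Fin k → V) :=
  LinearMap.ker (∑ j, (LinearMap.proj j : (Fin k → V) →ₗ[F] V))

lemma Cod_memH {F : Type*} [Field F] {V : Type*} [AddCommGroup V] [Module F V] {k : ℕ}
    (y : Fin k → V) : y ∈ CodH F V k ↔ ∑ j, y j = 0 := by
  unfold CodH
  rw [LinearMap.mem_ker, LinearMap.sum_apply]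
  rfl

/-- The bad subspaces. -/
def CodB (p : ℝ) (b : ℕ) {F : Type*} [Field F] {V : Type*} [AddCommGroup V] [Module F V] {k : ℕ}
    (W : Submodule F (CodH F V k)) : Prop :=
  1 ≤ finrank F W ∧ finrank F W ≤ b ∧
    ((∑ j, finrank F (CodP (W.map (CodH F V k).subtype) j) : ℕ) : ℝ) < p * finrank F W

/-- The dimension of the image in the ambient space. -/
lemma Cod_finrank_map {F : Type*} [Field F] {V : Type*} [AddCommGroup V] [Module F V] {k : ℕ}
    (W : Submodule F (CodH F V k)) : finrank F (W.map (CodH F V k).subtype) = finrank F W :=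
  (LinearEquiv.finrank_eq (Submodule.equivMapOfInjective _
    (Submodule.injective_subtype _) W)).symm

open Classical in
/-- The union bound. -/
lemma Cod_union {p eta : ℝ} (hp : 1 < p) (hp2 : p < 2) (heta : 0 < eta) {k : ℕ}
    (hk : p ^ 2 / (p - 1) < k) {b r : ℕ}
    (hA : ((k : ℝ) + 7) ≤ (k - p) * (p * eta / k) * finrank F V)
    (hb : 1 ≤ b → (b : ℝ) ≤ (k / p - eta) * finrank F V)
    (hr : (r : ℝ) + b = (k - 1) * finrank F V) (B : Finset (Submodule F (CodH F V k)))
    (hB : ∀ W ∈ B, CodB p b W) :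
    ∑ W ∈ B, ((Fintype.card F : ℝ) ^ (r * finrank F W))⁻¹ < 1 := by
  have hQ : (2 : ℝ) ≤ Fintype.card F := by
    exact_mod_cast Fintype.one_lt_card
  have hQ0 : (0 : ℝ) < Fintype.card F := by linarith
  set h : Submodule F (CodH F V k) → (Fin k → ℕ) × ℕ := fun W =>
    (fun j => finrank F (CodP (W.map (CodH F V k).subtype) j),
      finrank F (⨆ j, CodP (W.map (CodH F V k).subtype) j : Submodule F V)) with hh
  have hW0 : ∀ W : Submodule F (CodH F V k), ∀ y ∈ W.map (CodH F V k).subtype,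
      ∑ j, y j = 0 := by
    rintro W _ ⟨y, _, rfl⟩
    exact (Cod_memH _).1 y.2
  -- the parameters are small
  have hsmall : ∀ W ∈ B, (h W).2 ≤ finrank F W ∧ ∀ j, (h W).1 j ≤ finrank F W := by
    intro W hW
    have h1 := Cod_dim _ (hW0 W)
    rw [Cod_finrank_map] at h1
    have h2 := (hB W hW).2.2
    have h3 : (0 : ℝ) ≤ finrank F W := Nat.cast_nonneg _
    have h4 : (∑ j, finrank F (CodP (W.map (CodH F V k).subtype) j)) ≤ 2 * finrank F W := by
      have h5 : ((∑ j, finrank F (CodP (W.map (CodH F V k).subtype) j) : ℕ) : ℝ) ≤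
          ((2 * finrank F W : ℕ) : ℝ) := by
        push_cast
        push_cast at h2
        nlinarith
      exact_mod_cast h5
    have h6 : (h W).2 ≤ finrank F W := by
      simp only [hh]
      omega
    refine ⟨h6, fun j => le_trans ?_ h6⟩
    exact Submodule.finrank_mono (le_iSup (fun j => CodP (W.map (CodH F V k).subtype) j) j)
  have hmaps : ∀ W ∈ B, finrank F W ∈ Finset.Icc 1 b := fun W hW =>
    Finset.mem_Icc.2 ⟨(hB W hW).1, (hB W hW).2.1⟩
  rw [← Finset.sum_fiberwise_of_maps_to hmaps]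
  refine lt_of_le_of_lt (Finset.sum_le_sum fun w hw => ?_) (Cod_geom b)
  obtain ⟨hw1, hwb⟩ := Finset.mem_Icc.1 hw
  set J : Finset ((Fin k → ℕ) × ℕ) :=
    (Fintype.piFinset fun _ => Finset.range (w + 1)) ×ˢ Finset.range (w + 1) with hJ
  have hmaps2 : ∀ W ∈ B.filter (fun W : Submodule F (CodH F V k) => finrank F W = w), h W ∈ J := by
    intro W hW
    obtain ⟨hWB, hWw⟩ := Finset.mem_filter.1 hW
    obtain ⟨h1, h2⟩ := hsmall W hWB
    rw [hJ, Finset.mem_product, Fintype.mem_piFinset, Finset.mem_range]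
    refine ⟨fun j => Finset.mem_range.2 ?_, ?_⟩
    · have := h2 j
      omega
    · omega
  rw [← Finset.sum_fiberwise_of_maps_to hmaps2]
  have hinner : ∀ x ∈ J, ∑ W ∈ (B.filter (fun W : Submodule F (CodH F V k) => finrank F W = w)).filter
      (fun W => h W = x),
      ((Fintype.card F : ℝ) ^ (r * finrank F W))⁻¹ ≤ (((2 : ℝ) ^ (k + 3))⁻¹) ^ w := by
    rintro ⟨wj, u⟩ _
    set C := (B.filter (fun W : Submodule F (CodH F V k) => finrank F W = w)).filter (fun W => h W = (wj, u)) with hC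
    rcases C.eq_empty_or_nonempty with hCe | ⟨W0, hW0C⟩
    · rw [hCe, Finset.sum_empty]
      positivity
    have hCmem : ∀ W ∈ C, W ∈ B ∧ finrank F W = w ∧
        (∀ j, finrank F (CodP (W.map (CodH F V k).subtype) j) = wj j) ∧
        finrank F (⨆ j, CodP (W.map (CodH F V k).subtype) j : Submodule F V) = u := by
      intro W hW
      rw [hC, Finset.mem_filter, Finset.mem_filter] at hW
      obtain ⟨⟨h1, h2⟩, h3⟩ := hW
      refine ⟨h1, h2, fun j => ?_, ?_⟩
      · exact congrFun (congrArg Prod.fst h3) j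
      · exact congrArg Prod.snd h3
    have hs : ((∑ j, wj j : ℕ) : ℝ) < p * w := by
      obtain ⟨h1, h2, h3, h4⟩ := hCmem W0 hW0C
      have h5 := (hB W0 h1).2.2
      rw [Finset.sum_congr rfl fun j _ => h3 j, h2] at h5
      exact h5
    have hf := Cod_fiber (V := V) hp hp2 heta hk hA hb hr w hw1 hwb wj u hs
    have hcard : (C.card : ℝ) ≤ (Nat.card {W : Submodule F (Fin k → V) //
        (∀ y ∈ W, ∑ j, y j = 0) ∧ finrank F W = w ∧
        (∀ j, finrank F (W.map (LinearMap.proj j : (Fin k → V) →ₗ[F] V)) = wj j) ∧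
        finrank F (⨆ j, W.map (LinearMap.proj j : (Fin k → V) →ₗ[F] V) : Submodule F V) = u} :
          ℝ) := by
      rw [← Fintype.card_coe, ← Nat.card_eq_fintype_card]
      have hfin : Finite {W : Submodule F (Fin k → V) //
        (∀ y ∈ W, ∑ j, y j = 0) ∧ finrank F W = w ∧
        (∀ j, finrank F (W.map (LinearMap.proj j : (Fin k → V) →ₗ[F] V)) = wj j) ∧
        finrank F (⨆ j, W.map (LinearMap.proj j : (Fin k → V) →ₗ[F] V) : Submodule F V) = u} :=
        inferInstance
      have := Nat.card_le_card_of_injective (α := C) (β := {W : Submodule F (Fin k → V) //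
        (∀ y ∈ W, ∑ j, y j = 0) ∧ finrank F W = w ∧
        (∀ j, finrank F (W.map (LinearMap.proj j : (Fin k → V) →ₗ[F] V)) = wj j) ∧
        finrank F (⨆ j, W.map (LinearMap.proj j : (Fin k → V) →ₗ[F] V) : Submodule F V) = u})
        (fun W => ⟨(W : Submodule F (CodH F V k)).map (CodH F V k).subtype, hW0 _, by
          rw [Cod_finrank_map]
          exact (hCmem W W.2).2.1, (hCmem W W.2).2.2.1, (hCmem W W.2).2.2.2⟩) (by
            intro W W' hWW
            have h1 := congrArg Subtype.val hWW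
            exact Subtype.ext (Submodule.map_injective_of_injective
              (Submodule.injective_subtype _) h1))
      exact_mod_cast this
    calc ∑ W ∈ C, ((Fintype.card F : ℝ) ^ (r * finrank F W))⁻¹
        = ∑ W ∈ C, ((Fintype.card F : ℝ) ^ (r * w))⁻¹ := by
          refine Finset.sum_congr rfl fun W hW => ?_
          rw [(hCmem W hW).2.1]
      _ = (C.card : ℝ) * ((Fintype.card F : ℝ) ^ (r * w))⁻¹ := by
          rw [Finset.sum_const, nsmul_eq_mul]
      _ ≤ _ := mul_le_mul_of_nonneg_right hcard (by positivity)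
      _ ≤ _ := hf
  refine (Finset.sum_le_sum hinner).trans ?_
  rw [Finset.sum_const, nsmul_eq_mul, hJ, Finset.card_product, Fintype.card_piFinset]
  simp only [Finset.card_range, Finset.prod_const, Finset.card_univ, Fintype.card_fin]
  have h2w : ((w + 1 : ℕ) : ℝ) ≤ 2 ^ w := by
    exact_mod_cast (Nat.lt_two_pow_self (n := w))
  have h7 : (((w + 1) ^ k * (w + 1) : ℕ) : ℝ) ≤ (2 ^ w) ^ (k + 1) := by
    rw [← pow_succ, Nat.cast_pow]
    exact pow_le_pow_left₀ (Nat.cast_nonneg _) h2w _
  refine (mul_le_mul_of_nonneg_right h7 (by positivity)).trans (le_of_eq ?_)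
  rw [← pow_mul, mul_comm w (k + 1), pow_mul, ← mul_pow]
  congr 1
  have h8 : (2 : ℝ) ^ (k + 3) = 2 ^ (k + 1) * 4 := by
    rw [show k + 3 = (k + 1) + 2 by ring, pow_add]
    norm_num
  rw [h8, mul_inv, ← mul_assoc, mul_inv_cancel₀ (by positivity)]
  norm_num

end CodCount

/-- Existence of good codes.

PROOF. Put `F = ZMod l`, `Q = l ≥ 2`. If `k/p - η ≤ 0` take `D = ⊥`. Otherwise let
`b = ⌈(k/p - η) A⌉`, so that `b ≤ (k/p - η/2) A` for `A ≥ 2/η`, and `b ≤ (k-1) A`
(`k/p ≤ k - 1` because `k ≥ q = p/(p-1)`), `r = (k-1) A - b`. Let `V = Fin A → ZMod l` and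
`H = {y ∈ V^k : ∑_j y_j = 0}`, `dim H = (k-1) A`. Let `𝓑` be the set of all subspaces `W` of `H`
with `1 ≤ dim W ≤ b` and `∑_j dim π_j W < p dim W`. By `card_family_le` and `exponent_le` (with
`η/2`) the sum `∑_{W ∈ 𝓑} Q^{- r dim W}` is at most the sum over all `w ≥ 1`, `(w_j)`, `u` (with
`w_j < p w ≤ 2 w`, `u ≤ w`) of `2^{u + σ + w} Q^{- c A w} ≤ (2w+1)^{k+1} 16^w 2^{- c A w}`,
`c = (k-p) p η / (2k) > 0`; since `2 w + 1 ≤ e^{2w}` this is at most
`∑_{w ≥ 1} (e^{2(k+1)} 16 2^{- c A})^w < 1` for large `A`. By `exists_avoiding` there is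
`D₀ ≤ H`, `dim D₀ ≥ b`, containing no `W ∈ 𝓑`. Let `D ≤ D₀` have dimension exactly `b`. Every
subspace `W ≤ D` satisfies `p dim W ≤ ∑_j dim π_j W` (it is `⊥` or has `1 ≤ dim W ≤ b` and is not in
`𝓑`), i.e. `|W|^p ≤ ∏ |π_j W|`; subgroups of `D` are subspaces because `F = ZMod l`
(`AddSubgroup.toZModSubmodule`). Now `bl_group` (with `pr j` = the `j`-th coordinate on `D`) gives
`NormLE p D 1`. -/
theorem exists_code (l : ℕ) [Fact l.Prime] {p : ℝ} (hp : 1 < p) (hp2 : p < 2) {k : ℕ}
    (hk : p ^ 2 / (p - 1) < k) {eta : ℝ} (heta : 0 < eta) :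
    ∃ A0 : ℕ, ∀ A ≥ A0, ∃ D : Submodule (ZMod l) (Fin k → Fin A → ZMod l),
      (∀ y ∈ D, ∑ j, y j = 0) ∧ (k / p - eta) * A ≤ (finrank (ZMod l) D : ℝ) ∧
      (open Classical in NormLE p (Finset.univ.filter fun y => y ∈ D) 1) := by
  classical
  have hp0 : (0 : ℝ) < p := by linarith
  have hp1 : (0 : ℝ) < p - 1 := by linarith
  have hk1 : p ^ 2 < k * (p - 1) := (div_lt_iff₀ hp1).1 hk
  have hk2 : 2 * p < k := by
    have h1 : 2 * p ≤ p ^ 2 / (p - 1) := by
      rw [le_div_iff₀ hp1]; nlinarith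
    linarith
  have hk0 : (0 : ℝ) < k := by linarith
  have hkp : (0 : ℝ) < k - p := by linarith
  have hk1' : 1 ≤ k := by
    have : 0 < k := by exact_mod_cast hk0
    omega
  set c : ℝ := (k - p) * (p * (eta / 2) / k) with hc
  have hc0 : 0 < c := by positivity
  refine ⟨⌈(k + 7) / c⌉₊ + ⌈2 / eta⌉₊ + 1, fun A hA => ?_⟩
  have hA1 : ((k : ℝ) + 7) ≤ c * A := by
    have h1 : (k + 7) / c ≤ A := by
      refine (Nat.le_ceil _).trans ?_
      exact_mod_cast (by omega : ⌈((k : ℝ) + 7) / c⌉₊ ≤ A)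
    rw [div_le_iff₀ hc0] at h1
    linarith
  have hA2 : 2 / eta ≤ A := by
    refine (Nat.le_ceil _).trans ?_
    exact_mod_cast (by omega : ⌈(2 : ℝ) / eta⌉₊ ≤ A)
  have hA2' : 1 ≤ eta / 2 * A := by
    rw [div_le_iff₀ heta] at hA2
    linarith
  set V := Fin A → ZMod l
  have hVrank : finrank (ZMod l) V = A := by
    simp [V]
  set b : ℕ := ⌈(k / p - eta) * A⌉₊ with hbdef
  have hA0 : (0 : ℝ) ≤ A := Nat.cast_nonneg A
  have hbk : b ≤ (k - 1) * A := by
    rw [hbdef, Nat.ceil_le]
    push_cast [Nat.cast_sub hk1']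
    refine mul_le_mul_of_nonneg_right ?_ hA0
    have h1 : (k : ℝ) / p ≤ k - 1 := by
      rw [div_le_iff₀ hp0]
      nlinarith
    linarith
  set r : ℕ := (k - 1) * A - b with hrdef
  have hr : (r : ℝ) + b = (k - 1) * finrank (ZMod l) V := by
    rw [hVrank]
    have h1 : r + b = (k - 1) * A := by omega
    have h2 : ((r + b : ℕ) : ℝ) = (((k - 1) * A : ℕ) : ℝ) := by rw [h1]
    push_cast [Nat.cast_sub hk1'] at h2
    exact h2
  have hb : 1 ≤ b → (b : ℝ) ≤ (k / p - eta / 2) * finrank (ZMod l) V := by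
    intro hb1
    rw [hVrank]
    have h1 : 0 < (k / p - eta) * A := by
      by_contra hcon
      push Not at hcon
      have : b = 0 := by rw [hbdef, Nat.ceil_eq_zero]; exact hcon
      omega
    have h2 : (b : ℝ) < (k / p - eta) * A + 1 := Nat.ceil_lt_add_one h1.le
    nlinarith
  have hA3 : ((k : ℝ) + 7) ≤ (k - p) * (p * (eta / 2) / k) * finrank (ZMod l) V := by
    rw [hVrank]
    exact hA1
  -- the bad subspaces
  have : Fintype (Submodule (ZMod l) (CodH (ZMod l) V k)) := Fintype.ofFinite _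
  have : Fintype (CodH (ZMod l) V k) := Fintype.ofFinite _
  obtain ⟨D0, hD0, hD0B⟩ := exists_avoiding (F := ZMod l) (H := CodH (ZMod l) V k) r
    (Finset.univ.filter fun W => CodB p b W)
    (Cod_union hp hp2 (half_pos heta) hk hA3 hb hr _ fun W hW => (Finset.mem_filter.1 hW).2)
  have hHrank : (k - 1) * A ≤ finrank (ZMod l) (CodH (ZMod l) V k) := by
    have h1 := LinearMap.finrank_range_add_finrank_ker
      (∑ j, (LinearMap.proj j : (Fin k → V) →ₗ[ZMod l] V))
    have h2 : finrank (ZMod l) (LinearMap.range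
        (∑ j, (LinearMap.proj j : (Fin k → V) →ₗ[ZMod l] V))) ≤ A :=
      (Submodule.finrank_le _).trans hVrank.le
    have h3 : finrank (ZMod l) (Fin k → V) = k * A := by
      rw [Module.finrank_pi_fintype, Finset.sum_const, hVrank, Finset.card_univ,
        Fintype.card_fin, smul_eq_mul]
    have h4 : (k - 1) * A + A = k * A := by
      rw [← Nat.succ_mul, Nat.succ_eq_add_one, Nat.sub_add_cancel hk1']
    unfold CodH
    omega
  obtain ⟨D1, hD1, hD1b⟩ := Cod_sub D0 (b := b) (by omega)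
  refine ⟨D1.map (CodH (ZMod l) V k).subtype, ?_, ?_, ?_⟩
  · rintro _ ⟨y, _, rfl⟩
    exact (Cod_memH _).1 y.2
  · rw [Cod_finrank_map, hD1b]
    exact Nat.le_ceil _
  · set D : Submodule (ZMod l) (Fin k → V) := D1.map (CodH (ZMod l) V k).subtype with hD
    set pr : Fin k → D →+ V := fun j =>
      ((LinearMap.proj j : (Fin k → V) →ₗ[ZMod l] V).comp D.subtype).toAddMonoidHom with hpr
    have hDfin : Fintype D := Fintype.ofFinite _
    have hl1 : (1 : ℝ) ≤ l := by
      exact_mod_cast (Fact.out : l.Prime).one_lt.le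
    have hl0 : (0 : ℝ) ≤ l := by linarith
    have hcardsub : ∀ (M : Type) [AddCommGroup M] [Module (ZMod l) M] [Finite M],
        Nat.card M = l ^ finrank (ZMod l) M := by
      intro M _ _ _
      rw [Module.natCard_eq_pow_finrank (K := ZMod l), Nat.card_zmod]
    have hbl : ∀ W : AddSubgroup D, (Nat.card W : ℝ) ^ p ≤
        ∏ j, (Nat.card (W.map (pr j)) : ℝ) := by
      intro W
      set W' : Submodule (ZMod l) D := AddSubgroup.toZModSubmodule l W with hW'
      set W2 : Submodule (ZMod l) (Fin k → V) := W'.map D.subtype with hW2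
      have hW2D : W2 ≤ D := by
        rintro _ ⟨y, _, rfl⟩
        exact y.2
      have hDH : D ≤ CodH (ZMod l) V k := by
        rintro _ ⟨y, _, rfl⟩
        exact y.2
      set W3 : Submodule (ZMod l) (CodH (ZMod l) V k) :=
        W2.comap (CodH (ZMod l) V k).subtype with hW3
      have hW3map : W3.map (CodH (ZMod l) V k).subtype = W2 := by
        rw [hW3, Submodule.map_comap_subtype]
        exact inf_eq_right.2 (hW2D.trans hDH)
      have hW3D : W3 ≤ D1 := by
        intro y hy
        obtain ⟨z, hz, hzy⟩ := hW2D hy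
        have : z = y := Subtype.ext hzy
        rw [← this]
        exact hz
      have hrank2 : finrank (ZMod l) W2 = finrank (ZMod l) W' :=
        (LinearEquiv.finrank_eq (Submodule.equivMapOfInjective _
          (Submodule.injective_subtype _) W')).symm
      have hrank3 : finrank (ZMod l) W3 = finrank (ZMod l) W2 := by
        rw [← hW3map, Cod_finrank_map]
      have hnot : ¬ CodB p b W3 := fun hcon =>
        hD0B W3 (Finset.mem_filter.2 ⟨Finset.mem_univ _, hcon⟩) (hW3D.trans hD1)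
      have hle : p * finrank (ZMod l) W2 ≤ ((∑ j, finrank (ZMod l) (CodP W2 j) : ℕ) : ℝ) := by
        by_contra hcon
        push Not at hcon
        refine hnot ⟨?_, ?_, ?_⟩
        · rw [hrank3]
          by_contra h0
          have h1 : finrank (ZMod l) W2 = 0 := by omega
          rw [h1] at hcon
          have h2 : (0 : ℝ) ≤ ((∑ j, finrank (ZMod l) (CodP W2 j) : ℕ) : ℝ) := Nat.cast_nonneg _
          simp only [Nat.cast_zero, mul_zero] at hcon
          linarith
        · rw [← hD1b]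
          exact Submodule.finrank_mono hW3D
        · rw [hW3map, hrank3]
          exact hcon
      have hcW : Nat.card W = l ^ finrank (ZMod l) W2 := by
        rw [hrank2, ← hcardsub W']
        rfl
      have hcP : ∀ j, Nat.card (W.map (pr j)) = l ^ finrank (ZMod l) (CodP W2 j) := by
        intro j
        rw [← hcardsub (CodP W2 j)]
        refine Nat.card_congr (Equiv.subtypeEquivRight fun v => ?_)
        constructor
        · rintro ⟨w, hw, rfl⟩
          exact ⟨(w : Fin k → V), ⟨w, hw, rfl⟩, rfl⟩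
        · rintro ⟨_, ⟨w, hw, rfl⟩, rfl⟩
          exact ⟨w, hw, rfl⟩
      have hprod : ∏ j, (Nat.card (W.map (pr j)) : ℝ) =
          (l : ℝ) ^ ((∑ j, finrank (ZMod l) (CodP W2 j) : ℕ) : ℝ) := by
        rw [Real.rpow_natCast, ← Finset.prod_pow_eq_pow_sum]
        refine Finset.prod_congr rfl fun j _ => ?_
        rw [hcP j]
        push_cast
        rfl
      rw [hprod, hcW]
      push_cast
      rw [← Real.rpow_natCast, ← Real.rpow_mul hl0, mul_comm]
      refine Real.rpow_le_rpow_of_exponent_le hl1 ?_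
      have := hle
      push_cast at this
      exact this
    intro x hx
    have hmain := bl_group hp0 pr hbl x hx
    rw [one_mul]
    refine le_trans (le_of_eq ?_) hmain
    exact Finset.sum_subtype (F := hDfin) (p := fun y => y ∈ D)
      (Finset.univ.filter fun y => y ∈ D) (by simp) fun c => ∏ j, x j (c j)

end

end Pool.Agent.GP2
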