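import Pool.Agent.GP2.Cod1A

/-!
# COD 1: the Brascamp-Lieb inequality for finite abelian groups
-/

namespace Pool.Agent.GP2

open Finset

noncomputable section

set_option linter.unusedSectionVars false

section Cod1aux

variable {k : ℕ} {D : Type*} [AddCommGroup D] [Fintype D] {G : Type*} [AddCommGroup G]
    [Fintype G] [DecidableEq G]

/-- The functional of the Brascamp-Lieb inequality. -/
def Cod1R (p : ℝ) (pr : Fin k → D →+ G) (u : Fin k → G → ℝ) : ℝ :=
  ∑ c : D, ∏ j, (u j (pr j c)) ^ (1 / p)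

lemma Cod1R_continuous {p : ℝ} (hp : 0 < p) (pr : Fin k → D →+ G) :
    Continuous (Cod1R p pr) := by
  unfold Cod1R
  refine continuous_finsetSum _ fun c _ => continuous_finsetProd _ fun j _ => ?_
  have h1 : Continuous fun u : Fin k → G → ℝ => u j (pr j c) :=
    (continuous_apply (pr j c)).comp (continuous_apply j)
  have hp' : 0 ≤ 1 / p := by positivity
  exact h1.rpow_const fun u => Or.inr hp'

/-- The compact set of tuples of densities. -/
def Cod1S (k : ℕ) (G : Type*) [Fintype G] : Set (Fin k → G → ℝ) :=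
  Set.pi Set.univ fun _ => stdSimplex ℝ G

lemma Cod1S_compact : IsCompact (Cod1S k G) :=
  isCompact_univ_pi fun _ => isCompact_stdSimplex ℝ G

lemma Cod1_mem_S {u : Fin k → G → ℝ} : u ∈ Cod1S k G ↔ ∀ j, u j ∈ stdSimplex ℝ G := by
  unfold Cod1S
  simp [Set.mem_pi]

/-- The homogeneous form of the bound. -/
lemma Cod1_hom {p : ℝ} (hp : 0 < p) (pr : Fin k → D →+ G) {N : ℝ}
    (hN : ∀ u ∈ Cod1S k G, Cod1R p pr u ≤ N) (z : Fin k → G → ℝ) (hz : ∀ j g, 0 ≤ z j g) :
    ∑ c : D, ∏ j, (z j (pr j c)) ^ (1 / p) ≤ N * ∏ j, (∑ g, z j g) ^ (1 / p) := by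
  have hp' : 0 < 1 / p := by positivity
  have hS0 : ∀ j, 0 ≤ ∑ g, z j g := fun j => Finset.sum_nonneg fun g _ => hz j g
  by_cases hpos : ∀ j, 0 < ∑ g, z j g
  · set u : Fin k → G → ℝ := fun j g => z j g / ∑ g, z j g with hu
    have hmem : u ∈ Cod1S k G := by
      rw [Cod1_mem_S]
      intro j
      refine ⟨fun g => div_nonneg (hz j g) (hS0 j), ?_⟩
      simp only [hu]
      rw [← Finset.sum_div]
      exact div_self (hpos j).ne'
    have h1 := hN u hmem
    have h2 : ∑ c : D, ∏ j, (z j (pr j c)) ^ (1 / p)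
        = Cod1R p pr u * ∏ j, (∑ g, z j g) ^ (1 / p) := by
      unfold Cod1R
      rw [Finset.sum_mul]
      refine Finset.sum_congr rfl fun c _ => ?_
      rw [← Finset.prod_mul_distrib]
      refine Finset.prod_congr rfl fun j _ => ?_
      rw [← Real.mul_rpow (div_nonneg (hz j _) (hS0 j)) (hS0 j)]
      rw [show u j (pr j c) * ∑ g, z j g = z j (pr j c) from div_mul_cancel₀ _ (hpos j).ne']
    rw [h2]
    refine mul_le_mul_of_nonneg_right h1 ?_
    exact Finset.prod_nonneg fun j _ => Real.rpow_nonneg (hS0 j) _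
  · push Not at hpos
    obtain ⟨j0, hj0⟩ := hpos
    have hj1 : ∑ g, z j0 g = 0 := le_antisymm hj0 (hS0 j0)
    have hz0 : ∀ g, z j0 g = 0 := by
      intro g
      have := (Finset.sum_eq_zero_iff_of_nonneg (fun g _ => hz j0 g)).1 hj1 g (Finset.mem_univ g)
      exact this
    have hL : ∑ c : D, ∏ j, (z j (pr j c)) ^ (1 / p) = 0 := by
      refine Finset.sum_eq_zero fun c _ => ?_
      refine Finset.prod_eq_zero (Finset.mem_univ j0) ?_
      rw [hz0, Real.zero_rpow hp'.ne']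
    have hRR : ∏ j, (∑ g, z j g) ^ (1 / p) = 0 := by
      refine Finset.prod_eq_zero (Finset.mem_univ j0) ?_
      rw [hj1, Real.zero_rpow hp'.ne']
    rw [hL, hRR, mul_zero]

/-- The convolution step. -/
lemma Cod1_conv {p : ℝ} (hp : 0 < p) (pr : Fin k → D →+ G) {N : ℝ}
    (hN : ∀ u ∈ Cod1S k G, Cod1R p pr u ≤ N) (u : Fin k → G → ℝ) (hu : u ∈ Cod1S k G) :
    Cod1R p pr u ^ 2 ≤ N * Cod1R p pr fun j => cvs (u j) := by
  rw [Cod1_mem_S] at hu
  have hu0 : ∀ j g, 0 ≤ u j g := fun j g => (hu j).1 g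
  have h1 : Cod1R p pr u ^ 2
      = ∑ s : D, ∑ c : D, ∏ j, (u j (pr j c) * u j (pr j s - pr j c)) ^ (1 / p) := by
    unfold Cod1R
    rw [sq, Finset.sum_mul_sum, Finset.sum_comm' (s := univ) (t := fun _ => univ)
      (t' := univ) (s' := fun _ => univ) (by simp)]
    rw [Finset.sum_comm]
    have h2 : ∀ c : D, ∑ c' : D, (∏ j, (u j (pr j c)) ^ (1 / p)) * ∏ j, (u j (pr j c')) ^ (1 / p)
        = ∑ s : D, ∏ j, (u j (pr j c) * u j (pr j s - pr j c)) ^ (1 / p) := by
      intro c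
      refine (Fintype.sum_equiv (Equiv.subRight c) _ _ fun s => ?_).symm
      rw [← Finset.prod_mul_distrib]
      refine Finset.prod_congr rfl fun j _ => ?_
      rw [Real.mul_rpow (hu0 j _) (hu0 j _)]
      simp [Equiv.subRight_apply, map_sub]
    rw [Finset.sum_congr rfl fun c _ => h2 c]
    rw [Finset.sum_comm]
  rw [h1]
  unfold Cod1R
  rw [Finset.mul_sum]
  refine Finset.sum_le_sum fun s _ => ?_
  exact Cod1_hom hp pr hN (fun j g => u j g * u j (pr j s - g))
    (fun j g => mul_nonneg (hu0 j _) (hu0 j _))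

end Cod1aux

/-- The Brascamp-Lieb inequality: if `|W|^p ≤ ∏_j |π_j W|` for every subgroup `W` of `D`, then
`∑_{c ∈ D} ∏_j x_j(π_j c) ≤ ∏_j ‖x_j‖_p`.

PROOF. For a tuple `u = (u_j)` of probability densities on `G` let
`R(u) = ∑_{c ∈ D} ∏_j u_j(π_j c)^{1/p}`, a continuous function on the compact set
`S = ∏_j stdSimplex`, and let `N` be its maximum. By homogeneity
(*) `∑_{c} ∏_j z_j(π_j c)^{1/p} ≤ N ∏_j (∑_g z_j(g))^{1/p}` for all `z_j ≥ 0` (if `∑ z_j = 0` for
some `j` then `z_j = 0` and the left side is zero, for `k ≥ 1`; for `k = 0` the hypothesis for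
`W = D` gives `|D| ≤ 1` and the claim is trivial). The claim is `N ≤ 1` (take
`z_j = x_j^p`).
CONVOLUTION: `R(u)^2 ≤ N R(u * u)`, where `u * u = (cvs u_j)_j`: indeed
`R(u)^2 = ∑_{c, c'} ∏_j (u_j(π_j c) u_j(π_j c'))^{1/p}`; put `s = c + c'`; for fixed `s ∈ D`
apply (*) to `z_j(g) = u_j(g) u_j(π_j s - g)`, with `∑_g z_j(g) = cvs u_j (π_j s)`; the inner sum
is at most `N ∏_j cvs u_j(π_j s)^{1/p}`; sum over `s`.
So the set `M` of maximisers is closed under `u ↦ u * u` (`N > 0`: e.g. `R(uniform) > 0`). `M` is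
compact and nonempty; choose `u ∈ M` minimising `Q(u) = ∑_j ∑_g u_j(g)^2`. As `u * u ∈ M` we get
`Q(u) ≤ Q(u*u)`, and with `cvs_sq_le` for every `j`: `∑ u_j^2 ≤ ∑ (cvs u_j)^2` for every `j`. By
`uniform_of_cvs` `u_j` is the uniform density of a coset `a_j + K_j`. Then
`N = R(u) = |{c : π_j c - a_j ∈ K_j ∀ j}| ∏_j |K_j|^{-1/p}`. The set is nonempty (`N > 0`), and so
it is a coset of `W = {c : π_j c ∈ K_j ∀ j}` and has `|W|` elements. Since `π_j W ≤ K_j`:
`N = |W| ∏ |K_j|^{-1/p} ≤ |W| ∏ |π_j W|^{-1/p} ≤ 1`. -/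
theorem bl_group {k : ℕ} {D : Type*} [AddCommGroup D] [Fintype D] {G : Type*} [AddCommGroup G]
    [Fintype G] [DecidableEq G] {p : ℝ} (hp : 0 < p) (pr : Fin k → D →+ G)
    (h : ∀ W : AddSubgroup D, (Nat.card W : ℝ) ^ p ≤ ∏ j, (Nat.card (W.map (pr j)) : ℝ))
    (x : Fin k → G → ℝ) (hx : ∀ j g, 0 ≤ x j g) :
    ∑ c : D, ∏ j, x j (pr j c) ≤ ∏ j, (∑ g, x j g ^ p) ^ (1 / p) := by
  classical
  have hp' : 0 < 1 / p := by positivity
  have hRc := Cod1R_continuous hp pr
  -- the uniform density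
  set un : Fin k → G → ℝ := fun _ _ => 1 / (Fintype.card G : ℝ) with hun
  have hG : 0 < (Fintype.card G : ℝ) := by exact_mod_cast Fintype.card_pos
  have hunS : un ∈ Cod1S k G := by
    rw [Cod1_mem_S]
    intro j
    refine ⟨fun g => by simp only [hun]; positivity, ?_⟩
    simp only [hun, Finset.sum_const, Finset.card_univ, nsmul_eq_mul]
    field_simp
  have hunR : 0 < Cod1R p pr un := by
    unfold Cod1R
    refine Finset.sum_pos (fun c _ => Finset.prod_pos fun j _ => ?_) ⟨0, Finset.mem_univ _⟩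
    exact Real.rpow_pos_of_pos (by simp only [hun]; positivity) _
  obtain ⟨u0, hu0S, hu0⟩ := Cod1S_compact.exists_isMaxOn ⟨un, hunS⟩ hRc.continuousOn
  set N := Cod1R p pr u0 with hNdef
  have hN : ∀ u ∈ Cod1S k G, Cod1R p pr u ≤ N := fun u hu => hu0 hu
  have hNpos : 0 < N := hunR.trans_le (hN un hunS)
  -- the set of maximisers
  have hMc : IsCompact (Cod1S k G ∩ (Cod1R p pr) ⁻¹' {N}) :=
    Cod1S_compact.inter_right (isClosed_singleton.preimage hRc)
  have hQc : Continuous fun u : Fin k → G → ℝ => ∑ j, ∑ g, u j g ^ 2 := by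
    refine continuous_finsetSum _ fun j _ => continuous_finsetSum _ fun g _ => ?_
    exact ((continuous_apply g).comp (continuous_apply j)).pow 2
  obtain ⟨u, ⟨huS, huN⟩, huQ⟩ := hMc.exists_isMinOn ⟨u0, hu0S, rfl⟩ hQc.continuousOn
  have huN : Cod1R p pr u = N := huN
  have huS' := Cod1_mem_S.1 huS
  have hcS : (fun j => cvs (u j)) ∈ Cod1S k G := by
    rw [Cod1_mem_S]
    exact fun j => cvs_mem (huS' j)
  have hcN : Cod1R p pr (fun j => cvs (u j)) = N := by
    refine le_antisymm (hN _ hcS) ?_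
    have h1 := Cod1_conv hp pr hN u huS
    rw [huN, sq] at h1
    exact le_of_mul_le_mul_left h1 hNpos
  have hQ : ∑ j, ∑ g, u j g ^ 2 ≤ ∑ j, ∑ g, cvs (u j) g ^ 2 := by
    have := huQ (show (fun j => cvs (u j)) ∈ Cod1S k G ∩ (Cod1R p pr) ⁻¹' {N} from ⟨hcS, hcN⟩)
    exact this
  have hQj : ∀ j, ∑ g, u j g ^ 2 ≤ ∑ g, cvs (u j) g ^ 2 := by
    intro j
    by_contra hlt
    push Not at hlt
    have : ∑ j, ∑ g, cvs (u j) g ^ 2 < ∑ j, ∑ g, u j g ^ 2 :=
      Finset.sum_lt_sum (fun i _ => cvs_sq_le (huS' i)) ⟨j, Finset.mem_univ j, hlt⟩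
    exact absurd hQ (not_le.2 this)
  choose K a hK using fun j => uniform_of_cvs (huS' j) (hQj j)
  -- the value of the maximum
  set C : Finset D := univ.filter fun c => ∀ j, pr j c - a j ∈ K j with hC
  have hval : N = C.card * ∏ j, (1 / (Nat.card (K j) : ℝ)) ^ (1 / p) := by
    rw [← huN]
    unfold Cod1R
    have h1 : ∀ c : D, ∏ j, (u j (pr j c)) ^ (1 / p)
        = if c ∈ C then ∏ j, (1 / (Nat.card (K j) : ℝ)) ^ (1 / p) else 0 := by
      intro c
      by_cases hc : c ∈ C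
      · rw [if_pos hc]
        refine Finset.prod_congr rfl fun j _ => ?_
        rw [(hK j (pr j c)).1 ((Finset.mem_filter.1 hc).2 j)]
      · rw [if_neg hc]
        have : ∃ j, pr j c - a j ∉ K j := by
          by_contra hcon
          push Not at hcon
          exact hc (Finset.mem_filter.2 ⟨Finset.mem_univ _, hcon⟩)
        obtain ⟨j, hj⟩ := this
        refine Finset.prod_eq_zero (Finset.mem_univ j) ?_
        rw [(hK j (pr j c)).2 hj, Real.zero_rpow hp'.ne']
    rw [Finset.sum_congr rfl fun c _ => h1 c, ← Finset.sum_filter]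
    simp [nsmul_eq_mul]
  have hCne : C.Nonempty := by
    rw [Finset.nonempty_iff_ne_empty]
    intro hCe
    rw [hCe] at hval
    simp at hval
    exact absurd hval hNpos.ne'
  obtain ⟨c0, hc0⟩ := hCne
  have hc0' := (Finset.mem_filter.1 hc0).2
  set W : AddSubgroup D := ⨅ j, (K j).comap (pr j) with hW
  have hWmem : ∀ c, c ∈ W ↔ ∀ j, pr j c ∈ K j := by
    intro c
    simp [hW, AddSubgroup.mem_iInf]
  have hCW : C.card = Nat.card W := by
    rw [Nat.card_eq_fintype_card, ← Finset.card_univ]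
    refine (Finset.card_bij (fun (w : W) _ => (w : D) + c0) ?_ ?_ ?_).symm
    · intro w _
      refine Finset.mem_filter.2 ⟨Finset.mem_univ _, fun j => ?_⟩
      rw [map_add, add_sub_assoc]
      exact (K j).add_mem ((hWmem _).1 w.2 j) (hc0' j)
    · intro w _ w' _ hww
      exact Subtype.ext (add_right_cancel hww)
    · intro c hc
      have hc' := (Finset.mem_filter.1 hc).2
      refine ⟨⟨c - c0, (hWmem _).2 fun j => ?_⟩, Finset.mem_univ _, by simp⟩
      have : pr j (c - c0) = (pr j c - a j) - (pr j c0 - a j) := by rw [map_sub]; abel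
      rw [this]
      exact (K j).sub_mem (hc' j) (hc0' j)
  have hKpos : ∀ j, 0 < (Nat.card (K j) : ℝ) := by
    intro j
    exact_mod_cast Nat.card_pos
  have hWle : (Nat.card W : ℝ) ≤ ∏ j, (Nat.card (K j) : ℝ) ^ (1 / p) := by
    have h1 : (Nat.card W : ℝ) ^ p ≤ ∏ j, (Nat.card (K j) : ℝ) := by
      refine (h W).trans ?_
      refine Finset.prod_le_prod (fun j _ => by positivity) fun j _ => ?_
      have hsub : W.map (pr j) ≤ K j := by
        rintro _ ⟨w, hw, rfl⟩
        exact (hWmem w).1 hw j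
      exact_mod_cast Nat.card_mono (Set.toFinite _) hsub
    have h2 := Real.rpow_le_rpow (by positivity) h1 hp'.le
    rw [← Real.rpow_mul (by positivity), mul_one_div_cancel hp.ne', Real.rpow_one] at h2
    refine h2.trans (le_of_eq ?_)
    rw [Real.finsetProd_rpow _ _ fun j _ => (hKpos j).le]
  have hN1 : N ≤ 1 := by
    rw [hval, hCW]
    have h3 : ∏ j, (1 / (Nat.card (K j) : ℝ)) ^ (1 / p)
        = (∏ j, (Nat.card (K j) : ℝ) ^ (1 / p))⁻¹ := by
      rw [← Finset.prod_inv_distrib]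
      refine Finset.prod_congr rfl fun j _ => ?_
      rw [one_div, Real.inv_rpow (hKpos j).le]
    rw [h3, ← div_eq_mul_inv]
    refine div_le_one_of_le₀ hWle ?_
    exact Finset.prod_nonneg fun j _ => Real.rpow_nonneg (hKpos j).le _
  -- conclusion
  have h5 := Cod1_hom hp pr hN (fun j g => x j g ^ p) fun j g => Real.rpow_nonneg (hx j g) _
  have h6 : ∑ c : D, ∏ j, ((x j (pr j c)) ^ p) ^ (1 / p) = ∑ c : D, ∏ j, x j (pr j c) := by
    refine Finset.sum_congr rfl fun c _ => Finset.prod_congr rfl fun j _ => ?_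
    rw [← Real.rpow_mul (hx j _), mul_one_div_cancel hp.ne', Real.rpow_one]
  rw [h6] at h5
  refine h5.trans ?_
  have h7 : 0 ≤ ∏ j, (∑ g, x j g ^ p) ^ (1 / p) :=
    Finset.prod_nonneg fun j _ => Real.rpow_nonneg
      (Finset.sum_nonneg fun g _ => Real.rpow_nonneg (hx j g) _) _
  calc N * ∏ j, (∑ g, x j g ^ p) ^ (1 / p) ≤ 1 * ∏ j, (∑ g, x j g ^ p) ^ (1 / p) :=
        mul_le_mul_of_nonneg_right hN1 h7
    _ = _ := one_mul _

end

end Pool.Agent.GP2
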