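import Pool.Agent.GP2.Defs

/-!
# COD 1: the Brascamp-Lieb inequality for finite abelian groups
-/

namespace Pool.Agent.GP2

open Finset

noncomputable section

section stdS

variable {G : Type*} [AddCommGroup G] [Fintype G] [DecidableEq G]

/-- Convolution square. -/
def cvs (u : G → ℝ) (s : G) : ℝ := ∑ g, u g * u (s - g)

/-- The convolution square of a probability density is a probability density. -/
theorem cvs_mem {u : G → ℝ} (hu : u ∈ stdSimplex ℝ G) : cvs u ∈ stdSimplex ℝ G := by
  obtain ⟨h0, h1⟩ := hu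
  refine ⟨fun s => Finset.sum_nonneg fun g _ => mul_nonneg (h0 g) (h0 (s - g)), ?_⟩
  have e1 : ∀ g : G, ∑ s, u (s - g) = 1 := by
    intro g
    rw [← h1]
    exact Equiv.sum_comp (Equiv.subRight g) u
  calc ∑ s, cvs u s = ∑ s, ∑ g, u g * u (s - g) := rfl
    _ = ∑ g, ∑ s, u g * u (s - g) := Finset.sum_comm
    _ = ∑ g, u g * ∑ s, u (s - g) := by simp only [Finset.mul_sum]
    _ = 1 := by simp only [e1, mul_one, h1]

/-- The variance identity. -/
theorem cvs_var {u : G → ℝ} (hu : u ∈ stdSimplex ℝ G) :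
    ∑ s, ∑ h, u h * (u (s - h) - cvs u s) ^ 2 = ∑ g, u g ^ 2 - ∑ s, cvs u s ^ 2 := by
  obtain ⟨h0, h1⟩ := hu
  have e0 : ∀ s : G, ∑ h, u h * (u (s - h) - cvs u s) ^ 2
      = ∑ h, u h * u (s - h) ^ 2 - cvs u s ^ 2 := by
    intro s
    have : ∀ h : G, u h * (u (s - h) - cvs u s) ^ 2
        = u h * u (s - h) ^ 2 - 2 * cvs u s * (u h * u (s - h)) + cvs u s ^ 2 * u h := by
      intro h
      ring
    simp only [this]
    rw [Finset.sum_add_distrib, Finset.sum_sub_distrib, ← Finset.mul_sum, ← Finset.mul_sum, h1]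
    have e : ∑ i, u i * u (s - i) = cvs u s := rfl
    rw [e]
    ring
  have e1 : ∀ h : G, ∑ s, u (s - h) ^ 2 = ∑ g, u g ^ 2 := by
    intro h
    exact Equiv.sum_comp (Equiv.subRight h) fun g => u g ^ 2
  simp only [e0]
  rw [Finset.sum_sub_distrib, Finset.sum_comm]
  congr 1
  calc ∑ h, ∑ s, u h * u (s - h) ^ 2 = ∑ h, u h * ∑ s, u (s - h) ^ 2 := by
        simp only [Finset.mul_sum]
    _ = ∑ g, u g ^ 2 := by
        simp only [e1]
        rw [← Finset.sum_mul, h1, one_mul]

/-- `‖u * u‖_2 ≤ ‖u‖_2`.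

PROOF. `∑_s (u*u)(s)^2 = ∑_{h, h'} u(h) u(h') ∑_g u(g - h) u(g - h')` and
`∑_g u(g-h) u(g-h') = ∑ u^2 - (1/2) ∑_g (u(g-h) - u(g-h'))^2 ≤ ∑ u^2`. -/
theorem cvs_sq_le {u : G → ℝ} (hu : u ∈ stdSimplex ℝ G) : ∑ s, cvs u s ^ 2 ≤ ∑ g, u g ^ 2 := by
  have h := cvs_var hu
  have h2 : 0 ≤ ∑ s, ∑ h, u h * (u (s - h) - cvs u s) ^ 2 :=
    Finset.sum_nonneg fun s _ => Finset.sum_nonneg fun h _ => mul_nonneg (hu.1 h) (sq_nonneg _)
  linarith

/-- If `‖u * u‖_2 ≥ ‖u‖_2` then `u` is the uniform density on a coset.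

PROOF. By the computation in `cvs_sq_le`, for all `h, h'` with `u h, u h' > 0` the translates
`g ↦ u (g - h)` and `g ↦ u (g - h')` are equal. Let `K` be the subgroup of all `t` with
`u (g + t) = u g` for all `g`. Pick `a` with `u a > 0`. If `u b > 0` then `b - a ∈ K`; if
`t ∈ K` then `u (a + t) = u a`. So `u` is constant on `a + K` and zero outside; the constant is
`1 / |K|`. -/
theorem uniform_of_cvs {u : G → ℝ} (hu : u ∈ stdSimplex ℝ G)
    (h : ∑ g, u g ^ 2 ≤ ∑ s, cvs u s ^ 2) :
    ∃ (K : AddSubgroup G) (a : G), ∀ g, (g - a ∈ K → u g = 1 / (Nat.card K : ℝ)) ∧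
      (g - a ∉ K → u g = 0) := by
  classical
  have h2 : ∑ s, ∑ h, u h * (u (s - h) - cvs u s) ^ 2 = 0 := by
    refine le_antisymm ?_ (Finset.sum_nonneg fun s _ => Finset.sum_nonneg fun h _ =>
      mul_nonneg (hu.1 h) (sq_nonneg _))
    rw [cvs_var hu]
    linarith
  have h3 : ∀ s b : G, u b ≠ 0 → u (s - b) = cvs u s := by
    intro s b hb
    have h4 := (Finset.sum_eq_zero_iff_of_nonneg (fun s _ => Finset.sum_nonneg fun h _ =>
      mul_nonneg (hu.1 h) (sq_nonneg _))).1 h2 s (Finset.mem_univ s)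
    have h5 := (Finset.sum_eq_zero_iff_of_nonneg (fun h _ =>
      mul_nonneg (hu.1 h) (sq_nonneg _))).1 h4 b (Finset.mem_univ b)
    rcases mul_eq_zero.1 h5 with h6 | h6
    · exact absurd h6 hb
    · have := pow_eq_zero_iff (two_ne_zero) |>.1 h6
      linarith
  let K : AddSubgroup G :=
    { carrier := {t | ∀ g, u (g + t) = u g}
      zero_mem' := by
        intro g
        rw [add_zero]
      add_mem' := by
        intro s t hs ht g
        rw [← add_assoc, ht, hs]
      neg_mem' := by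
        intro t ht g
        have := ht (g + -t)
        rw [neg_add_cancel_right] at this
        exact this.symm }
  have hKmem : ∀ t, t ∈ K ↔ ∀ g, u (g + t) = u g := fun t => Iff.rfl
  have hex : ∃ a, u a ≠ 0 := by
    by_contra hcon
    push Not at hcon
    have := hu.2
    simp [hcon] at this
  obtain ⟨a, ha⟩ := hex
  have hout : ∀ g, g - a ∉ K → u g = 0 := by
    intro b hb
    by_contra hne
    apply hb
    rw [hKmem]
    intro g
    have e1 := h3 (g + b) b hne
    have e2 := h3 (g + b) a ha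
    rw [add_sub_cancel_right] at e1
    rw [add_sub_assoc] at e2
    rw [e1, e2]
  have hin : ∀ g, g - a ∈ K → u g = u a := by
    intro g hg
    have := (hKmem _).1 hg a
    rw [add_sub_cancel] at this
    exact this
  have hcard : ((Finset.univ.filter fun g => g - a ∈ K).card : ℝ) = (Nat.card K : ℝ) := by
    norm_cast
    have e : K ≃ {g : G // g - a ∈ K} :=
      { toFun := fun t => ⟨t.1 + a, by rw [add_sub_cancel_right]; exact t.2⟩
        invFun := fun g => ⟨g.1 - a, g.2⟩
        left_inv := fun t => by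
          apply Subtype.ext
          simp
        right_inv := fun g => by
          apply Subtype.ext
          simp }
    rw [Nat.card_congr e, Nat.card_eq_fintype_card, Fintype.card_subtype]
  have hsum : (Nat.card K : ℝ) * u a = 1 := by
    have := hu.2
    rw [← Finset.sum_filter_add_sum_filter_not Finset.univ (fun g => g - a ∈ K)] at this
    rw [Finset.sum_congr rfl (fun g hg => hin g (Finset.mem_filter.1 hg).2)] at this
    rw [Finset.sum_congr (s₁ := Finset.univ.filter fun g => ¬ (g - a ∈ K)) rfl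
      (fun g hg => hout g (Finset.mem_filter.1 hg).2)] at this
    rw [Finset.sum_const, Finset.sum_const_zero, add_zero, nsmul_eq_mul, hcard] at this
    exact this
  refine ⟨K, a, fun g => ⟨fun hg => ?_, hout g⟩⟩
  rw [hin g hg, eq_div_iff (left_ne_zero_of_mul_eq_one hsum), mul_comm]
  exact hsum

end stdS

end

end Pool.Agent.GP2
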