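import Pool.Agent.GP2.Cod2B

/-!
# COD 2: counting subspaces
-/

namespace Pool.Agent.GP2

open Finset Module

noncomputable section

variable {F : Type*} [Field F] [Fintype F]

/-- A random linear map with `r` components kills a given subspace `W` with probability
`Q^{- r dim W}`: counting form, and the resulting existence statement. If `𝓑` is a finite set of
subspaces of `H` with `∑_{W ∈ 𝓑} Q^{- r dim W} < 1` then there is a subspace `D` of `H` with
`dim D ≥ dim H - r` which contains no `W ∈ 𝓑`.

PROOF. Let `Φ` range over all tuples `(Fin r → Dual H)`. The number of `Φ` vanishing on `W` is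
`Q^{r (dim H - dim W)}` (the annihilator of `W` has dimension `dim H - dim W`). So the number of
`Φ` which vanish on some `W ∈ 𝓑` is less than `Q^{r dim H}`, the number of all `Φ`; choose another
`Φ` and let `D` be its kernel (the intersection of the `r` kernels), `dim D ≥ dim H - r` by
rank-nullity for `H → F^r`. -/
theorem exists_avoiding {H : Type*} [AddCommGroup H] [Module F H] [Fintype H] (r : ℕ)
    (B : Finset (Submodule F H))
    (hB : ∑ W ∈ B, ((Fintype.card F : ℝ) ^ (r * finrank F W))⁻¹ < 1) :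
    ∃ D : Submodule F H, finrank F H ≤ finrank F D + r ∧ ∀ W ∈ B, ¬ W ≤ D := by
  classical
  haveI : Module.Finite F H := Module.Finite.of_finite
  haveI : Finite (H →ₗ[F] (Fin r → F)) := Module.finite_of_finite F
  haveI hfin : ∀ W : Submodule F H, Finite ((H ⧸ W) →ₗ[F] (Fin r → F)) := fun W =>
    Module.finite_of_finite F
  letI : Fintype (H →ₗ[F] (Fin r → F)) := Fintype.ofFinite _
  letI : ∀ W : Submodule F H, Fintype ((H ⧸ W) →ₗ[F] (Fin r → F)) := fun W => Fintype.ofFinite _
  set Q : ℕ := Fintype.card F with hQ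
  have hQ0 : (0 : ℝ) < Q := by
    have : 0 < Fintype.card F := Fintype.card_pos
    exact_mod_cast this
  have hcardH : Fintype.card (H →ₗ[F] (Fin r → F)) = Q ^ (finrank F H * r) := by
    rw [Module.card_eq_pow_finrank (K := F), Module.finrank_linearMap, Module.finrank_fin_fun]
  have hcardW : ∀ W : Submodule F H, Fintype.card ((H ⧸ W) →ₗ[F] (Fin r → F)) =
      Q ^ (finrank F (H ⧸ W) * r) := by
    intro W
    rw [Module.card_eq_pow_finrank (K := F), Module.finrank_linearMap, Module.finrank_fin_fun]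
  -- the bad maps
  set bad : Finset (H →ₗ[F] (Fin r → F)) := B.biUnion fun W =>
    (Finset.univ : Finset ((H ⧸ W) →ₗ[F] (Fin r → F))).image fun Ψ => Ψ.comp W.mkQ with hbad
  have hcard : (bad.card : ℝ) < Fintype.card (H →ₗ[F] (Fin r → F)) := by
    have h1 : bad.card ≤ ∑ W ∈ B, Q ^ (finrank F (H ⧸ W) * r) := by
      refine Finset.card_biUnion_le.trans (Finset.sum_le_sum fun W _ => ?_)
      refine Finset.card_image_le.trans ?_
      rw [Finset.card_univ, hcardW]
    have h2 : ((∑ W ∈ B, Q ^ (finrank F (H ⧸ W) * r) : ℕ) : ℝ) =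
        (Q : ℝ) ^ (finrank F H * r) * ∑ W ∈ B, ((Q : ℝ) ^ (r * finrank F W))⁻¹ := by
      push_cast
      rw [Finset.mul_sum]
      refine Finset.sum_congr rfl fun W _ => ?_
      have h3 : finrank F (H ⧸ W) + finrank F W = finrank F H :=
        Submodule.finrank_quotient_add_finrank W
      rw [← h3, add_mul, pow_add, mul_comm r, mul_assoc, mul_inv_cancel₀ (by positivity), mul_one]
    have h4 : (bad.card : ℝ) ≤ (Q : ℝ) ^ (finrank F H * r) *
        ∑ W ∈ B, ((Q : ℝ) ^ (r * finrank F W))⁻¹ := by
      rw [← h2]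
      exact_mod_cast h1
    have h5 : (Q : ℝ) ^ (finrank F H * r) * ∑ W ∈ B, ((Q : ℝ) ^ (r * finrank F W))⁻¹ <
        (Q : ℝ) ^ (finrank F H * r) * 1 :=
      mul_lt_mul_of_pos_left hB (by positivity)
    rw [hcardH]
    push_cast
    linarith
  have hex : ∃ Φ : H →ₗ[F] (Fin r → F), Φ ∉ bad := by
    by_contra hcon
    push Not at hcon
    have h6 : bad = Finset.univ := Finset.eq_univ_iff_forall.2 hcon
    rw [h6, Finset.card_univ] at hcard
    exact lt_irrefl _ hcard
  obtain ⟨Φ, hΦ⟩ := hex
  refine ⟨LinearMap.ker Φ, ?_, ?_⟩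
  · have h7 := LinearMap.finrank_range_add_finrank_ker Φ
    have h8 : finrank F (LinearMap.range Φ) ≤ r := by
      have := Submodule.finrank_le (LinearMap.range Φ)
      rwa [Module.finrank_fin_fun] at this
    omega
  · intro W hW hle
    apply hΦ
    rw [hbad, Finset.mem_biUnion]
    exact ⟨W, hW, Finset.mem_image.2 ⟨W.liftQ Φ hle, Finset.mem_univ _, W.liftQ_mkQ Φ hle⟩⟩

end

end Pool.Agent.GP2
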