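import Pool.Agent.GP2.Defs

/-!
# COD 2: counting subspaces
-/

namespace Pool.Agent.GP2

open Finset Module

noncomputable section

variable {F : Type*} [Field F] [Fintype F]

/-- The number of subspaces of dimension `d` of an `n`-dimensional space over the field with `Q`
elements is at most `2^d Q^{d (n - d)}`.

PROOF. The number of linearly independent `d`-tuples in a space of dimension `n` is
`∏_{i < d} (Q^n - Q^i)` (Mathlib `card_linearIndependent`), at most `Q^{n d}`; every
`d`-dimensional subspace is spanned by exactly `∏_{i<d} (Q^d - Q^i)` of them, and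
`Q^d - Q^i ≥ Q^d / 2`. -/
theorem card_subspaces_le {V : Type*} [AddCommGroup V] [Module F V] [Fintype V] (d : ℕ) :
    (Nat.card {W : Submodule F V // finrank F W = d} : ℝ) * (Fintype.card F : ℝ) ^ (d * d) ≤
      2 ^ d * (Fintype.card F : ℝ) ^ (d * finrank F V) := by
  classical
  set Q : ℕ := Fintype.card F with hQ
  have hQ2 : 2 ≤ Q := Fintype.one_lt_card
  -- the sigma type of subspaces with a frame
  let S := Σ W : {W : Submodule F V // finrank F W = d}, {s : Fin d → W.1 // LinearIndependent F s}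
  let Ttup := {s : Fin d → V // LinearIndependent F s}
  let f : S → Ttup := fun x => ⟨fun i => ((x.2.1 i : x.1.1) : V), by
    have := x.2.2.map' (x.1.1.subtype) (Submodule.ker_subtype _)
    exact this⟩
  have hspan : ∀ x : S, Submodule.span F (Set.range (f x).1) = x.1.1 := by
    intro x
    apply Submodule.eq_of_le_of_finrank_eq
    · rw [Submodule.span_le]
      rintro _ ⟨i, rfl⟩
      exact (x.2.1 i).2
    · rw [finrank_span_eq_card (f x).2, Fintype.card_fin, x.1.2]
  have hinj : Function.Injective f := by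
    intro x y hxy
    have h1 : x.1.1 = y.1.1 := by rw [← hspan x, ← hspan y, hxy]
    obtain ⟨⟨W, hW⟩, s⟩ := x
    obtain ⟨⟨W', hW'⟩, s'⟩ := y
    simp only at h1
    subst h1
    congr 1
    apply Subtype.ext
    funext i
    apply Subtype.ext
    exact congrFun (congrArg Subtype.val hxy) i
  have hcard : Nat.card S ≤ Nat.card Ttup := Nat.card_le_card_of_injective f hinj
  have hTt : (Nat.card Ttup : ℝ) ≤ (Q : ℝ) ^ (d * finrank F V) := by
    have h1 : Nat.card Ttup ≤ Nat.card (Fin d → V) := Nat.card_le_card_of_injective _ Subtype.val_injective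
    have h2 : Nat.card (Fin d → V) = Q ^ (d * finrank F V) := by
      rw [Nat.card_eq_fintype_card, Fintype.card_fun, Fintype.card_fin,
        Module.card_eq_pow_finrank (K := F) (V := V), ← hQ, ← pow_mul, mul_comm]
    rw [h2] at h1
    exact_mod_cast h1
  have hfib : ∀ W : {W : Submodule F V // finrank F W = d},
      (Q : ℝ) ^ (d * d) ≤ 2 ^ d * (Nat.card {s : Fin d → W.1 // LinearIndependent F s} : ℝ) := by
    intro W
    have h1 := card_linearIndependent (K := F) (V := W.1) (k := d) (by rw [W.2])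
    rw [h1, W.2, ← hQ]
    push_cast
    have h2 : ∀ i : Fin d, (Q : ℝ) ^ d / 2 ≤ ((Q ^ d - Q ^ (i : ℕ) : ℕ) : ℝ) := by
      intro i
      have h3 : Q ^ (i : ℕ) * 2 ≤ Q ^ d := by
        calc Q ^ (i : ℕ) * 2 ≤ Q ^ (i : ℕ) * Q := Nat.mul_le_mul_left _ hQ2
          _ = Q ^ ((i : ℕ) + 1) := (pow_succ _ _).symm
          _ ≤ Q ^ d := Nat.pow_le_pow_right (by omega) i.2
      have h4 : Q ^ (i : ℕ) ≤ Q ^ d := by omega
      rw [Nat.cast_sub h4]
      have h5 : ((Q ^ (i : ℕ) * 2 : ℕ) : ℝ) ≤ ((Q ^ d : ℕ) : ℝ) := by exact_mod_cast h3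
      push_cast at h5 ⊢
      linarith
    have h6 : ∏ _i : Fin d, ((Q : ℝ) ^ d / 2) ≤ ∏ i : Fin d, ((Q ^ d - Q ^ (i : ℕ) : ℕ) : ℝ) :=
      Finset.prod_le_prod (fun _ _ => by positivity) fun i _ => h2 i
    rw [Finset.prod_const, Finset.card_univ, Fintype.card_fin, div_pow, ← pow_mul] at h6
    rw [div_le_iff₀ (by positivity)] at h6
    linarith
  have hSc : (Nat.card S : ℝ) =
      ∑ W : {W : Submodule F V // finrank F W = d},
        (Nat.card {s : Fin d → W.1 // LinearIndependent F s} : ℝ) := by
    have : Nat.card S = ∑ W : {W : Submodule F V // finrank F W = d},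
        Nat.card {s : Fin d → W.1 // LinearIndependent F s} := Nat.card_sigma
    rw [this]; push_cast; rfl
  calc (Nat.card {W : Submodule F V // finrank F W = d} : ℝ) * (Q : ℝ) ^ (d * d)
      = ∑ _W : {W : Submodule F V // finrank F W = d}, (Q : ℝ) ^ (d * d) := by
        rw [Finset.sum_const, Finset.card_univ, nsmul_eq_mul, Nat.card_eq_fintype_card]
    _ ≤ ∑ W : {W : Submodule F V // finrank F W = d},
        2 ^ d * (Nat.card {s : Fin d → W.1 // LinearIndependent F s} : ℝ) :=
        Finset.sum_le_sum fun W _ => hfib W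
    _ = 2 ^ d * (Nat.card S : ℝ) := by rw [← Finset.mul_sum, hSc]
    _ ≤ 2 ^ d * (Q : ℝ) ^ (d * finrank F V) := by
        have : (Nat.card S : ℝ) ≤ (Nat.card Ttup : ℝ) := by exact_mod_cast hcard
        gcongr
        exact this.trans hTt

end

end Pool.Agent.GP2
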