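import Pool.Agent.GP2.Cod2A

/-!
# COD 2: counting subspaces
-/

namespace Pool.Agent.GP2

open Finset Module

noncomputable section

variable {F : Type*} [Field F] [Fintype F]

/-- subspaces of a given subspace -/
theorem Cod2B_le {V : Type*} [AddCommGroup V] [Module F V] [Fintype V] (B : Submodule F V)
    (d : ℕ) :
    (Nat.card {W : Submodule F V // W ≤ B ∧ finrank F W = d} : ℝ) *
      (Fintype.card F : ℝ) ^ (d * d) ≤
      2 ^ d * (Fintype.card F : ℝ) ^ (d * finrank F B) := by
  classical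
  haveI : Fintype B := Fintype.ofFinite B
  have h1 := card_subspaces_le (F := F) (V := B) d
  refine le_trans ?_ h1
  refine mul_le_mul_of_nonneg_right ?_ (by positivity)
  have h2 : Nat.card {W : Submodule F V // W ≤ B ∧ finrank F W = d} ≤
      Nat.card {W : Submodule F B // finrank F W = d} := by
    refine Nat.card_le_card_of_injective
      (fun W => (⟨W.1.comap B.subtype, ?_⟩ : {W : Submodule F B // finrank F W = d})) ?_
    · exact (Submodule.comapSubtypeEquivOfLe W.2.1).finrank_eq.trans W.2.2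
    · intro W W' h
      have h3 : W.1.comap B.subtype = W'.1.comap B.subtype := congrArg Subtype.val h
      have h4 := congrArg (Submodule.map B.subtype) h3
      rw [Submodule.map_comap_subtype, Submodule.map_comap_subtype, inf_eq_right.2 W.2.1,
        inf_eq_right.2 W'.2.1] at h4
      exact Subtype.ext h4
  exact_mod_cast h2

/-- the relations in a product of subspaces -/
def Cod2B_Z {V : Type*} [AddCommGroup V] [Module F V] {k : ℕ} (Wj : Fin k → Submodule F V) :
    Submodule F (Fin k → V) :=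
  Submodule.pi Set.univ Wj ⊓ LinearMap.ker (∑ j, (LinearMap.proj j : (Fin k → V) →ₗ[F] V))

theorem Cod2B_finrank {V : Type*} [AddCommGroup V] [Module F V] [Fintype V] {k : ℕ}
    (Wj : Fin k → Submodule F V) :
    finrank F (Cod2B_Z Wj) + finrank F (⨆ j, Wj j : Submodule F V) = ∑ j, finrank F (Wj j) := by
  classical
  -- the sum map on the product of the `W_j`
  let f : (∀ j, Wj j) →ₗ[F] V := ∑ j, (Wj j).subtype ∘ₗ LinearMap.proj j
  have hf : ∀ y : (∀ j, Wj j), f y = ∑ j, (y j : V) := by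
    intro y
    simp [f, LinearMap.sum_apply]
  have h1 := LinearMap.finrank_range_add_finrank_ker f
  have h2 : LinearMap.range f = ⨆ j, Wj j := by
    apply le_antisymm
    · rintro _ ⟨y, rfl⟩
      rw [hf]
      exact Submodule.sum_mem _ fun j _ => Submodule.mem_iSup_of_mem j (y j).2
    · refine iSup_le fun j v hv => ⟨Pi.single j ⟨v, hv⟩, ?_⟩
      rw [hf, Finset.sum_eq_single j]
      · rw [Pi.single_eq_same]
      · intro i _ hi
        rw [Pi.single_eq_of_ne hi]
        rfl
      · intro h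
        exact absurd (Finset.mem_univ j) h
  have h3 : finrank F (∀ j, Wj j) = ∑ j, finrank F (Wj j) := finrank_pi_fintype F
  have h4 : finrank F (LinearMap.ker f) = finrank F (Cod2B_Z Wj) := by
    let g : LinearMap.ker f →ₗ[F] (Fin k → V) :=
      (LinearMap.pi fun j => (Wj j).subtype ∘ₗ LinearMap.proj j) ∘ₗ (LinearMap.ker f).subtype
    have hg : ∀ y : LinearMap.ker f, ∀ j, g y j = ((y : ∀ j, Wj j) j : V) := fun y j => rfl
    have hinj : Function.Injective g := by
      intro y y' h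
      apply Subtype.ext
      funext j
      apply Subtype.ext
      rw [← hg, ← hg, h]
    have hrange : LinearMap.range g = Cod2B_Z Wj := by
      ext y
      constructor
      · rintro ⟨z, rfl⟩
        refine ⟨fun j _ => ?_, ?_⟩
        · rw [hg]
          exact (z.1 j).2
        · rw [SetLike.mem_coe, LinearMap.mem_ker]
          have h5 : f z.1 = 0 := z.2
          rw [hf] at h5
          rw [LinearMap.sum_apply]
          exact h5
      · rintro ⟨h5, h6⟩
        rw [SetLike.mem_coe, LinearMap.mem_ker, LinearMap.sum_apply] at h6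
        refine ⟨⟨fun j => ⟨y j, h5 j (Set.mem_univ j)⟩, ?_⟩, ?_⟩
        · rw [LinearMap.mem_ker, hf]
          exact h6
        · funext j
          rfl
    rw [← hrange]
    exact (LinearMap.finrank_range_of_inj hinj).symm
  rw [← h2, ← h3, ← h4, ← h1]
  ring

/-- The number of subspaces `W` of `V^k`, on which `∑_j y_j = 0`, with `dim W = w`,
`dim π_j W = w_j`, `dim ∑_j π_j W = u`, where `dim V = A`: it is at most
`2^{u + σ + w} Q^{u (A - u) + ∑ w_j (u - w_j) + w (σ - u - w)}`, `σ = ∑ w_j` (if there is such a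
subspace then `u ≤ A`, `w_j ≤ u`, `w ≤ σ - u`).

PROOF. The map `W ↦ (U, (W_j)_j, W)`, `W_j = π_j W`, `U = ∑ W_j`: choose `U` of dimension `u` in
`V`; then `W_j ≤ U` of dimension `w_j`; then `W` is a subspace of dimension `w` of
`Z = {y ∈ ∏ W_j : ∑ y_j = 0}`, the kernel of the surjective map `∏ W_j → U`, so
`dim Z = σ - u`. Use `card_subspaces_le` three times. -/
theorem card_family_le {V : Type*} [AddCommGroup V] [Module F V] [Fintype V] {k : ℕ}
    (w : ℕ) (wj : Fin k → ℕ) (u : ℕ) :
    (Nat.card {W : Submodule F (Fin k → V) // (∀ y ∈ W, ∑ j, y j = 0) ∧ finrank F W = w ∧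
      (∀ j, finrank F (W.map (LinearMap.proj j : (Fin k → V) →ₗ[F] V)) = wj j) ∧
      finrank F (⨆ j, W.map (LinearMap.proj j : (Fin k → V) →ₗ[F] V) : Submodule F V) = u} : ℝ) *
      (Fintype.card F : ℝ) ^ (u * u + (∑ j, wj j * wj j) + w * w + w * u) ≤
      2 ^ (u + (∑ j, wj j) + w) *
        (Fintype.card F : ℝ) ^ (u * finrank F V + (∑ j, wj j) * u + w * ∑ j, wj j) := by
  classical
  set Q : ℝ := (Fintype.card F : ℝ) with hQ
  have hQ0 : 0 ≤ Q := by positivity
  set σ := ∑ j, wj j with hσ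
  -- the three types
  let T1 := {U : Submodule F V // finrank F U = u}
  let T2 : T1 → Type _ := fun U => ∀ j, {S : Submodule F V // S ≤ U.1 ∧ finrank F S = wj j}
  let T2' : T1 → Type _ := fun U => {S : T2 U // (⨆ j, (S j).1 : Submodule F V) = U.1}
  let T3 : (U : T1) → T2' U → Type _ := fun U S =>
    {W : Submodule F (Fin k → V) // W ≤ Cod2B_Z (fun j => (S.1 j).1) ∧ finrank F W = w}
  haveI : Fintype T1 := Fintype.ofFinite _
  haveI : ∀ U, Fintype (T2' U) := fun U => Fintype.ofFinite _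
  haveI : ∀ U S, Finite (T3 U S) := fun U S => inferInstance
  have c3 : ∀ U S, (Nat.card (T3 U S) : ℝ) * Q ^ (w * w + w * u) ≤ 2 ^ w * Q ^ (w * σ) := by
    intro U S
    have h1 := Cod2B_le (F := F) (Cod2B_Z (fun j => (S.1 j).1)) w
    have h2 := Cod2B_finrank (F := F) (fun j => (S.1 j).1)
    have h3 : ∑ j, finrank F ((S.1 j).1) = σ := Finset.sum_congr rfl fun j _ => (S.1 j).2.2
    have h4 : finrank F (⨆ j, (S.1 j).1 : Submodule F V) = u := by
      rw [S.2]
      exact U.2
    rw [h3, h4] at h2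
    calc (Nat.card (T3 U S) : ℝ) * Q ^ (w * w + w * u)
        = ((Nat.card (T3 U S) : ℝ) * Q ^ (w * w)) * Q ^ (w * u) := by rw [pow_add]; ring
      _ ≤ (2 ^ w * Q ^ (w * finrank F (Cod2B_Z (fun j => (S.1 j).1)))) * Q ^ (w * u) :=
          mul_le_mul_of_nonneg_right h1 (by positivity)
      _ = 2 ^ w * Q ^ (w * σ) := by
          rw [mul_assoc, ← pow_add, ← mul_add, h2]
  have c2 : ∀ U, (Nat.card (T2' U) : ℝ) * Q ^ (∑ j, wj j * wj j) ≤ 2 ^ σ * Q ^ (σ * u) := by
    intro U
    have h1 : (Nat.card (T2' U) : ℝ) ≤ Nat.card (T2 U) := by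
      exact_mod_cast Nat.card_le_card_of_injective (fun S : T2' U => S.1) Subtype.val_injective
    have h2 : (Nat.card (T2 U) : ℝ) =
        ∏ j, (Nat.card {S : Submodule F V // S ≤ U.1 ∧ finrank F S = wj j} : ℝ) := by
      have : Nat.card (T2 U) = _ := Nat.card_pi
      rw [this]
      push_cast
      rfl
    calc (Nat.card (T2' U) : ℝ) * Q ^ (∑ j, wj j * wj j)
        ≤ Nat.card (T2 U) * Q ^ (∑ j, wj j * wj j) :=
          mul_le_mul_of_nonneg_right h1 (by positivity)
      _ = ∏ j, ((Nat.card {S : Submodule F V // S ≤ U.1 ∧ finrank F S = wj j} : ℝ) *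
            Q ^ (wj j * wj j)) := by
          rw [h2, Finset.prod_mul_distrib, Finset.prod_pow_eq_pow_sum]
      _ ≤ ∏ j, (2 ^ (wj j) * Q ^ (wj j * u)) := by
          refine Finset.prod_le_prod (fun j _ => by positivity) fun j _ => ?_
          have h3 := Cod2B_le (F := F) U.1 (wj j)
          rw [U.2] at h3
          exact h3
      _ = 2 ^ σ * Q ^ (σ * u) := by
          rw [Finset.prod_mul_distrib, Finset.prod_pow_eq_pow_sum, Finset.prod_pow_eq_pow_sum,
            ← Finset.sum_mul]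
  have c1 : (Nat.card T1 : ℝ) * Q ^ (u * u) ≤ 2 ^ u * Q ^ (u * finrank F V) :=
    card_subspaces_le (F := F) (V := V) u
  -- the injection
  have c0 : Nat.card {W : Submodule F (Fin k → V) // (∀ y ∈ W, ∑ j, y j = 0) ∧ finrank F W = w ∧
      (∀ j, finrank F (W.map (LinearMap.proj j : (Fin k → V) →ₗ[F] V)) = wj j) ∧
      finrank F (⨆ j, W.map (LinearMap.proj j : (Fin k → V) →ₗ[F] V) : Submodule F V) = u} ≤
      Nat.card (Σ U : T1, Σ S : T2' U, T3 U S) := by
    refine Nat.card_le_card_of_injective (fun W =>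
      (⟨⟨⨆ j, W.1.map (LinearMap.proj j : (Fin k → V) →ₗ[F] V), W.2.2.2.2⟩,
        ⟨⟨fun j => ⟨W.1.map (LinearMap.proj j : (Fin k → V) →ₗ[F] V),
          le_iSup (fun j => W.1.map (LinearMap.proj j : (Fin k → V) →ₗ[F] V)) j,
          W.2.2.2.1 j⟩, rfl⟩,
        ⟨W.1, ?_, W.2.2.1⟩⟩⟩ : Σ U : T1, Σ S : T2' U, T3 U S)) ?_
    · intro y hy
      refine ⟨fun j _ => Submodule.mem_map_of_mem hy, ?_⟩
      rw [SetLike.mem_coe, LinearMap.mem_ker, LinearMap.sum_apply]
      exact W.2.1 y hy
    · intro W W' h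
      have key : ∀ a b : (Σ U : T1, Σ S : T2' U, T3 U S), a = b → a.2.2.1 = b.2.2.1 := by
        rintro a _ rfl
        rfl
      exact Subtype.ext (key _ _ h)
  have c0' : (Nat.card (Σ U : T1, Σ S : T2' U, T3 U S) : ℝ) =
      ∑ U : T1, ∑ S : T2' U, (Nat.card (T3 U S) : ℝ) := by
    rw [Nat.card_sigma]
    push_cast
    refine Finset.sum_congr rfl fun U _ => ?_
    rw [Nat.card_sigma]
    push_cast
    rfl
  have h5 : ∑ U : T1, ∑ S : T2' U, (Nat.card (T3 U S) : ℝ) * Q ^ (w * w + w * u) *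
      Q ^ (∑ j, wj j * wj j) * Q ^ (u * u) ≤
      ∑ _U : T1, 2 ^ w * Q ^ (w * σ) * (2 ^ σ * Q ^ (σ * u)) * Q ^ (u * u) := by
    refine Finset.sum_le_sum fun U _ => ?_
    calc ∑ S : T2' U, (Nat.card (T3 U S) : ℝ) * Q ^ (w * w + w * u) *
          Q ^ (∑ j, wj j * wj j) * Q ^ (u * u)
        ≤ ∑ _S : T2' U, 2 ^ w * Q ^ (w * σ) * Q ^ (∑ j, wj j * wj j) * Q ^ (u * u) := by
          refine Finset.sum_le_sum fun S _ => ?_
          refine mul_le_mul_of_nonneg_right ?_ (by positivity)
          exact mul_le_mul_of_nonneg_right (c3 U S) (by positivity)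
      _ = 2 ^ w * Q ^ (w * σ) * ((Nat.card (T2' U) : ℝ) * Q ^ (∑ j, wj j * wj j)) *
          Q ^ (u * u) := by
          rw [Finset.sum_const, Finset.card_univ, nsmul_eq_mul, Nat.card_eq_fintype_card]
          ring
      _ ≤ _ := by
          refine mul_le_mul_of_nonneg_right ?_ (by positivity)
          exact mul_le_mul_of_nonneg_left (c2 U) (by positivity)
  calc (Nat.card {W : Submodule F (Fin k → V) // (∀ y ∈ W, ∑ j, y j = 0) ∧ finrank F W = w ∧
      (∀ j, finrank F (W.map (LinearMap.proj j : (Fin k → V) →ₗ[F] V)) = wj j) ∧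
      finrank F (⨆ j, W.map (LinearMap.proj j : (Fin k → V) →ₗ[F] V) : Submodule F V) = u} : ℝ) *
      Q ^ (u * u + (∑ j, wj j * wj j) + w * w + w * u)
      ≤ (Nat.card (Σ U : T1, Σ S : T2' U, T3 U S) : ℝ) *
      Q ^ (u * u + (∑ j, wj j * wj j) + w * w + w * u) :=
        mul_le_mul_of_nonneg_right (by exact_mod_cast c0) (by positivity)
    _ = ∑ U : T1, ∑ S : T2' U, (Nat.card (T3 U S) : ℝ) * Q ^ (w * w + w * u) *
      Q ^ (∑ j, wj j * wj j) * Q ^ (u * u) := by
        rw [c0', Finset.sum_mul]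
        refine Finset.sum_congr rfl fun U _ => ?_
        rw [Finset.sum_mul]
        refine Finset.sum_congr rfl fun S _ => ?_
        rw [pow_add, pow_add, pow_add, pow_add]
        ring
    _ ≤ _ := h5
    _ = 2 ^ w * Q ^ (w * σ) * (2 ^ σ * Q ^ (σ * u)) * ((Nat.card T1 : ℝ) * Q ^ (u * u)) := by
        rw [Finset.sum_const, Finset.card_univ, nsmul_eq_mul, Nat.card_eq_fintype_card]
        ring
    _ ≤ 2 ^ w * Q ^ (w * σ) * (2 ^ σ * Q ^ (σ * u)) * (2 ^ u * Q ^ (u * finrank F V)) :=
        mul_le_mul_of_nonneg_left c1 (by positivity)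
    _ = _ := by
        rw [pow_add 2, pow_add 2, pow_add Q, pow_add Q]
        ring

end

end Pool.Agent.GP2
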