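import Pool.Agent.GP2.Cod1
import Pool.Agent.GP2.Cod2

/-!
# COD: existence of linear codes of norm one and almost maximal rate
-/

namespace Pool.Agent.GP2

open Finset Module

noncomputable section

/-- The numerical heart of the union bound. Let `w, w_j, u` be natural numbers with
`σ = ∑_j w_j < p w`, `u ≤ A`, `w_j ≤ u`, `w + u ≤ σ`, `1 ≤ w ≤ b`, `b ≤ (k/p - η) A` (`η > 0`),
`r + b = (k-1) A`, `p²/(p-1) < k`. Then
`u (A - u) + ∑_j w_j (u - w_j) + w (σ - u - w) - r w ≤ - (k - p) (p η / k) A w`.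

PROOF. `∑ w_j (u - w_j) ≤ u σ - σ²/k` (Cauchy-Schwarz). Put `v = σ - w`, so `u ≤ v`. The left
side is at most `u A - u² + u σ - σ²/k + w (v - u) - r w = u A - u² + u v - σ²/k + w v - r w`.
From `(A - u)(v - u) ≥ 0`: `u A + u v - u² ≤ A v`. So it is at most
`f(σ) = A (σ - w) + w (σ - w) - σ²/k - r w`. `f` is increasing for `σ ≤ k (A + w)/2`, in
particular for `σ ≤ p w` (as `k ≥ 2 p`: note `k > p²/(p-1) ≥ 2p` for `p ≤ 2`), so
`f(σ) ≤ f(p w) = w [A (p-1) + (p-1) w - p² w / k - r]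
= w [ -(k-p) A + b + w (p - 1 - p²/k)] ≤ w [ -(k-p) A + b + b (p - 1 - p²/k)]
= - w (k-p) (A - p b / k)`, and `A - p b / k ≥ p η A / k`. -/
theorem exponent_le {p eta : ℝ} (hp : 1 < p) (hp2 : p < 2) (heta : 0 < eta) {k : ℕ}
    (hk : p ^ 2 / (p - 1) < k) {A b r w u : ℕ} (wj : Fin k → ℕ)
    (hs : ((∑ j, wj j : ℕ) : ℝ) < p * w) (hu : u ≤ A) (hwj : ∀ j, wj j ≤ u)
    (hwu : w + u ≤ ∑ j, wj j) (hwb : w ≤ b)
    (hb : (b : ℝ) ≤ (k / p - eta) * A) (hr : (r : ℝ) + b = (k - 1) * A) :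
    (u : ℝ) * (A - u) + (∑ j, (wj j : ℝ) * (u - wj j)) + w * ((∑ j, (wj j : ℝ)) - u - w) - r * w ≤
      - ((k - p) * (p * eta / k) * A * w) := by
  have hp0 : (0 : ℝ) < p := by linarith
  have hp1 : (0 : ℝ) < p - 1 := by linarith
  have hk1 : p ^ 2 < k * (p - 1) := (div_lt_iff₀ hp1).1 hk
  have hk2 : 2 * p < k := by
    have h1 : 2 * p ≤ p ^ 2 / (p - 1) := by
      rw [le_div_iff₀ hp1]; nlinarith
    linarith
  have hk0 : (0 : ℝ) < k := by linarith
  have hkp : (0 : ℝ) < k - p := by linarith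
  push_cast at hs
  set s : ℝ := ∑ j, (wj j : ℝ) with hsdef
  have huR : (u : ℝ) ≤ A := by exact_mod_cast hu
  have hwuR : (w : ℝ) + u ≤ s := by
    rw [hsdef]; exact_mod_cast hwu
  have hwbR : (w : ℝ) ≤ b := by exact_mod_cast hwb
  have hw0 : (0 : ℝ) ≤ w := Nat.cast_nonneg w
  have hu0 : (0 : ℝ) ≤ u := Nat.cast_nonneg u
  have hA0 : (0 : ℝ) ≤ A := Nat.cast_nonneg A
  have hs0 : 0 ≤ s := by linarith
  -- Cauchy-Schwarz
  have hcs : s ^ 2 ≤ k * ∑ j, (wj j : ℝ) ^ 2 := by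
    have := sq_sum_le_card_mul_sum_sq (s := (Finset.univ : Finset (Fin k)))
      (f := fun j => (wj j : ℝ))
    simpa using this
  have hcs' : s ^ 2 / k ≤ ∑ j, (wj j : ℝ) ^ 2 := by
    rw [div_le_iff₀ hk0]; linarith
  have hsum : (∑ j, (wj j : ℝ) * (u - wj j)) = u * s - ∑ j, (wj j : ℝ) ^ 2 := by
    rw [hsdef, Finset.mul_sum, ← Finset.sum_sub_distrib]
    refine Finset.sum_congr rfl fun j _ => ?_
    ring
  have h1 : (∑ j, (wj j : ℝ) * (u - wj j)) ≤ u * s - s ^ 2 / k := by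
    rw [hsum]; linarith
  -- step 2
  have h2 : (u : ℝ) * (A - u) + (∑ j, (wj j : ℝ) * (u - wj j)) + w * (s - u - w) - r * w ≤
      (A + w) * (s - w) - s ^ 2 / k - r * w := by
    have h3 : 0 ≤ ((A : ℝ) - u) * (s - w - u) :=
      mul_nonneg (by linarith) (by linarith)
    nlinarith
  -- step 3
  have h4 : ((A : ℝ) + w) * (s - w) - s ^ 2 / k ≤
      (A + w) * (p * w - w) - (p * w) ^ 2 / k := by
    have h5 : (p * w + s) / k ≤ w := by
      rw [div_le_iff₀ hk0]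
      nlinarith
    have h6 : 0 ≤ (p * w - s) * ((A + w) - (p * w + s) / k) :=
      mul_nonneg (by linarith) (by linarith)
    have h7 : (p * w - s) * ((A + w) - (p * w + s) / k) =
      ((A + w) * (p * w - w) - (p * w) ^ 2 / k) - ((A + w) * (s - w) - s ^ 2 / k) := by
      field_simp
      ring
    linarith
  -- step 4
  have hrv : (r : ℝ) = (k - 1) * A - b := by linarith
  have h8 : ((A : ℝ) + w) * (p * w - w) - (p * w) ^ 2 / k - r * w =
      w * (-(k - p) * A + b + w * (p - 1 - p ^ 2 / k)) := by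
    rw [hrv]
    field_simp
    ring
  have h9 : 0 ≤ p - 1 - p ^ 2 / k := by
    have : p ^ 2 / k ≤ p - 1 := by
      rw [div_le_iff₀ hk0]; linarith
    linarith
  have h10 : (w : ℝ) * (p - 1 - p ^ 2 / k) ≤ b * (p - 1 - p ^ 2 / k) :=
    mul_le_mul_of_nonneg_right hwbR h9
  have h11 : -(k - p) * (A : ℝ) + b + b * (p - 1 - p ^ 2 / k) ≤
      - ((k - p) * (p * eta / k) * A) := by
    have h12 : -(k - p) * (A : ℝ) + b + b * (p - 1 - p ^ 2 / k) =
        (k - p) * (p / k * b - A) := by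
      field_simp
      ring
    have h13 : p / k * b ≤ p / k * ((k / p - eta) * A) :=
      mul_le_mul_of_nonneg_left hb (by positivity)
    have h14 : p / k * (((k : ℝ) / p - eta) * A) = A - p * eta / k * A := by
      field_simp
    rw [h12]
    have h15 : p / k * b - A ≤ - (p * eta / k * A) := by linarith
    calc (k - p) * (p / k * b - A) ≤ (k - p) * (- (p * eta / k * A)) :=
          mul_le_mul_of_nonneg_left h15 hkp.le
      _ = _ := by ring
  calc _ ≤ ((A : ℝ) + w) * (s - w) - s ^ 2 / k - r * w := h2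
    _ ≤ (A + w) * (p * w - w) - (p * w) ^ 2 / k - r * w := by linarith
    _ = w * (-(k - p) * A + b + w * (p - 1 - p ^ 2 / k)) := h8
    _ ≤ w * (- ((k - p) * (p * eta / k) * A)) :=
        mul_le_mul_of_nonneg_left (by linarith) hw0
    _ = _ := by ring

end

end Pool.Agent.GP2
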