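import Mathlib

/-!
# Definitions for the construction of shared Gleason parts for `1 < p < 2`

Everything here is finite combinatorics. A hypergraph is a finite set of maps `c : Fin k → X`
(edges); its vertices are the pairs `(j, x)`, `j : Fin k`, `x : X`; the edge `c` contains the
vertices `(j, c j)`.
-/

set_option linter.unusedSectionVars false

namespace Pool.Agent.GP2

open Finset

noncomputable section

/-- The parameters. -/
structure Par where
  /-- the exponent -/
  p : ℝ
  /-- the conjugate exponent -/
  q : ℝ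
  /-- the uniformity of the hypergraphs -/
  k : ℕ
  /-- the order of the labels -/
  n : ℕ
  one_lt : 1 < p
  lt_two : p < 2
  hq : q = p / (p - 1)
  hk : 2 * q + 2 < k
  hn : 3 ≤ n
  hqn : ∀ m : ℕ, (m : ℝ) = q → n ∣ m

namespace Par

variable (P : Par)

lemma p_pos : 0 < P.p := by linarith [P.one_lt]

lemma pm_pos : 0 < P.p - 1 := by linarith [P.one_lt]

lemma two_lt_q : 2 < P.q := by
  rw [P.hq, lt_div_iff₀ P.pm_pos]
  linarith [P.lt_two]

lemma q_pos : 0 < P.q := by linarith [P.two_lt_q]

lemma add_eq : 1 / P.p + 1 / P.q = 1 := by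
  have h1 := P.p_pos
  have h2 := P.pm_pos
  rw [P.hq]
  field_simp
  ring

lemma mul_eq : P.p * P.q = P.p + P.q := by
  have h1 := P.p_pos
  have h2 := P.pm_pos
  rw [P.hq]
  field_simp
  ring

/-- `k / p + k / q = k` -/
lemma k_split : (P.k : ℝ) / P.p + P.k / P.q = P.k := by
  have h := P.add_eq
  calc (P.k : ℝ) / P.p + P.k / P.q = P.k * (1 / P.p + 1 / P.q) := by ring
    _ = P.k := by rw [h, mul_one]

lemma k_gt : 6 < P.k := by
  have h := P.two_lt_q
  have h2 := P.hk
  have : (6 : ℝ) < P.k := by linarith
  exact_mod_cast this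

instance neZero_n : NeZero P.n := ⟨by have := P.hn; omega⟩

/-- `p + q = p q < k - 1` -/
lemma pq_lt : P.p * P.q < (P.k : ℝ) - 1 := by
  have h := P.two_lt_q
  have h2 := P.hk
  have h3 := P.lt_two
  rw [P.mul_eq]
  linarith

end Par

/-- `NormLE p S C`: the `k`-linear form `x ↦ ∑_{c ∈ S} ∏_j x_j (c_j)` has norm at most `C` on
`ℓ_p(Y) × ... × ℓ_p(Y)`; since the form has nonnegative coefficients this is stated for
nonnegative functions only. -/
def NormLE {k : ℕ} {Y : Type*} [Fintype Y] (p : ℝ) (S : Finset (Fin k → Y)) (C : ℝ) : Prop :=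
  ∀ x : Fin k → Y → ℝ, (∀ j y, 0 ≤ x j y) →
    ∑ c ∈ S, ∏ j, x j (c j) ≤ C * ∏ j, (∑ y, x j y ^ p) ^ (1 / p)

section hyper

variable {k : ℕ} {X : Type*} [DecidableEq X]

/-- The vertices of an edge. -/
def Vx (c : Fin k → X) : Finset (Fin k × X) := univ.image fun j => (j, c j)

variable {m t : ℕ}

/-- The vertices of a tuple of vertices and a sequence of edges. -/
def VS (lam : Fin m → Fin k × X) (e : Fin t → Fin k → X) : Finset (Fin k × X) :=
  univ.image lam ∪ univ.biUnion fun i => Vx (e i)

/-- The vertices of a tuple of vertices and of the edges before the edge `i`. -/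
def VSlt (lam : Fin m → Fin k × X) (e : Fin t → Fin k → X) (i : Fin t) : Finset (Fin k × X) :=
  univ.image lam ∪ (univ.filter fun i' => i' < i).biUnion fun i' => Vx (e i')

/-- The sequence of edges `e` is generated by `lam`: the edges are different and every edge has
at most one vertex which is not in `lam` and not in an earlier edge. -/
def IsGen (lam : Fin m → Fin k × X) (e : Fin t → Fin k → X) : Prop :=
  Function.Injective e ∧ ∀ i, (Vx (e i) \ VSlt lam e i).card ≤ 1

/-- The number of edges of the sequence through a vertex. -/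
def dg (e : Fin t → Fin k → X) (v : Fin k × X) : ℕ := (univ.filter fun i => e i v.1 = v.2).card

/-- The multiplicity of a vertex in a tuple. -/
def kp (lam : Fin m → Fin k × X) (v : Fin k × X) : ℕ := (univ.filter fun l => lam l = v).card

/-- All vertices are critical: `κ / p + deg / q = 1`. -/
def Crit (q : ℝ) (lam : Fin m → Fin k × X) (e : Fin t → Fin k → X) : Prop :=
  ∀ v ∈ VS lam e, (kp lam v = 1 ∧ dg e v = 1) ∨ (kp lam v = 0 ∧ (dg e v : ℝ) = q)

/-- The edges are linearly independent modulo every prime factor of `n`. -/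
def Indep (n : ℕ) (e : Fin t → Fin k → X) : Prop :=
  ∀ l : ℕ, l.Prime → l ∣ n → ∀ c : Fin t → ZMod l,
    (∀ v : Fin k × X, (∑ i, if e i v.1 = v.2 then c i else 0) = 0) → c = 0

/-- Good structures. -/
def Good (q : ℝ) (n : ℕ) (lam : Fin m → Fin k × X) (e : Fin t → Fin k → X) : Prop :=
  IsGen lam e ∧ Crit q lam e ∧ Indep n e

end hyper

section labels

/-- Labels. -/
abbrev Lab (n T : ℕ) := Fin T → ZMod n

/-- The alphabet: `N0` copies of the set of labels. -/
abbrev XX (n T N0 : ℕ) := Fin N0 × Lab n T

variable {k n T N0 : ℕ}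

/-- The sum of the labels of the vertices of an edge. -/
def Lsum (c : Fin k → XX n T N0) : Lab n T := ∑ j, (c j).2

/-- The `τ`-th unit label. -/
def unitL (n T : ℕ) (τ : Fin T) : Lab n T := Pi.single τ 1

end labels

section rand

variable {ι : Type*} [Fintype ι] [DecidableEq ι]

/-- Expectation of a function of a random subset of `ι`; the element `c` is chosen with
probability `w c`, independently. -/
def Ex (w : ι → ℝ) (f : Finset ι → ℝ) : ℝ :=
  ∑ ω : Finset ι, (∏ c, if c ∈ ω then w c else 1 - w c) * f ω

end rand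

/-- A gadget for the tuple `lam` in the hypergraph `E`: a finite abelian group `J` with a
homomorphism `pr v` to a finite abelian group `B` for every vertex `v`, such that the set of
words seen along an edge of `E` has norm at most `1`, while the set of words seen along `lam` has
more than `∏ |range|^{1/p}` elements. -/
structure Gadget (p : ℝ) {k : ℕ} {X : Type} (E : Finset (Fin k → X)) {m : ℕ}
    (lam : Fin m → Fin k × X) where
  /-- the states -/
  J : Type
  /-- the letters -/
  B : Type
  [gJ : AddCommGroup J]
  [fJ : Fintype J]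
  [gB : AddCommGroup B]
  [fB : Fintype B]
  [dB : DecidableEq B]
  /-- the letter seen at a vertex -/
  pr : Fin k × X → J →+ B
  norm_le : ∀ c ∈ E, NormLE p (Finset.univ.image fun (y : J) (j : Fin k) => pr (j, c j) y) 1
  gain : ∏ l, (Nat.card (pr (lam l)).range : ℝ) ^ (1 / p) <
    Nat.card (Set.range fun (y : J) (l : Fin m) => pr (lam l) y)

end

end Pool.Agent.GP2
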