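import Pool.Agent.GP2.Gad2A

/-!
# GAD 2: linear algebra of the spaces of states
-/

namespace Pool.Agent.GP2

open Finset Module

noncomputable section

variable {k : ℕ} {X : Type*} [Fintype X] [DecidableEq X] {t : ℕ}

/-- A function with sum zero along all edges of a generated sequence is determined by its values
on `lam`.

PROOF. By induction on `i` the function vanishes on `VSlt lam e i`: if it vanishes on
`VSlt lam e i` then at all vertices of the edge `e i` but at most one it vanishes, and the sum is
zero, so it vanishes on all vertices of `e i`. -/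
theorem gen_determines {m : ℕ} {lam : Fin m → Fin k × X} {e : Fin t → Fin k → X}
    (hg : IsGen lam e) {G : Type*} [AddCommGroup G] (y : Fin k × X → G)
    (h0 : ∀ v ∉ VS lam e, y v = 0) (hs : ∀ i, ∑ j, y (j, e i j) = 0)
    (hl : ∀ i, y (lam i) = 0) : y = 0 := by
  have key : ∀ (n : ℕ) (i : Fin t), (i : ℕ) = n → ∀ j, y (j, e i j) = 0 := by
    intro n
    induction n using Nat.strong_induction_on with
    | _ n ih =>
      intro i hi j0
      have hlt : ∀ v ∈ VSlt lam e i, y v = 0 := by
        intro v hv
        unfold VSlt at hv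
        rcases Finset.mem_union.1 hv with hv | hv
        · obtain ⟨l, -, rfl⟩ := Finset.mem_image.1 hv
          exact hl l
        · obtain ⟨i', hi', hv'⟩ := Finset.mem_biUnion.1 hv
          have hlt' : i' < i := (Finset.mem_filter.1 hi').2
          obtain ⟨j, -, rfl⟩ := Finset.mem_image.1 hv'
          exact ih (i' : ℕ) (by rw [← hi]; exact hlt') i' rfl j
      by_contra hne
      have hmem : (j0, e i j0) ∈ Vx (e i) \ VSlt lam e i :=
        Finset.mem_sdiff.2 ⟨Finset.mem_image.2 ⟨j0, Finset.mem_univ _, rfl⟩,
          fun h => hne (hlt _ h)⟩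
      have hz : ∀ j, j ≠ j0 → y (j, e i j) = 0 := by
        intro j hj
        by_contra hne2
        have hmem2 : (j, e i j) ∈ Vx (e i) \ VSlt lam e i :=
          Finset.mem_sdiff.2 ⟨Finset.mem_image.2 ⟨j, Finset.mem_univ _, rfl⟩,
            fun h => hne2 (hlt _ h)⟩
        have h1 := Finset.card_le_one.1 (hg.2 i) _ hmem2 _ hmem
        exact hj (congrArg Prod.fst h1)
      have hsum := hs i
      rw [Finset.sum_eq_single j0 (fun j _ hj => hz j hj)
        (fun h => absurd (Finset.mem_univ _) h)] at hsum
      exact hne hsum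
  funext v
  by_cases hv : v ∈ VS lam e
  · unfold VS at hv
    rcases Finset.mem_union.1 hv with hv | hv
    · obtain ⟨l, -, rfl⟩ := Finset.mem_image.1 hv
      exact hl l
    · obtain ⟨i, -, hv'⟩ := Finset.mem_biUnion.1 hv
      obtain ⟨j, -, rfl⟩ := Finset.mem_image.1 hv'
      exact key (i : ℕ) i rfl j
  · exact h0 v hv

end

end Pool.Agent.GP2
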