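import Pool.Agent.GP2.Gad1
import Pool.Agent.GP2.Gad2
import Pool.Agent.GP2.Cod

/-!
# DET: classification of the tuples
-/

namespace Pool.Agent.GP2

open Finset Module

noncomputable section

/-- the value at a point is at most the norm -/
private lemma DetA_le_norm {Y : Type*} [Fintype Y] {p : ℝ} (hp : 0 < p) (x : Y → ℝ)
    (hx : ∀ y, 0 ≤ x y) (y0 : Y) : x y0 ≤ (∑ y, x y ^ p) ^ (1 / p) := by
  have h1 : x y0 ^ p ≤ ∑ y, x y ^ p :=
    Finset.single_le_sum (f := fun y => x y ^ p) (fun y _ => Real.rpow_nonneg (hx y) p)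
      (Finset.mem_univ y0)
  have h2 : x y0 = (x y0 ^ p) ^ (1 / p) := by
    rw [one_div, Real.rpow_rpow_inv (hx y0) hp.ne']
  rw [h2]
  exact Real.rpow_le_rpow (Real.rpow_nonneg (hx y0) p) h1 (by positivity)

/-- insertion of a zero slot -/
private def DetA_ins (l : ℕ) (k A : ℕ) (j0 : Fin (k + 1)) :
    (Fin k → Fin A → ZMod l) →ₗ[ZMod l] (Fin (k + 1) → Fin A → ZMod l) where
  toFun y := Fin.insertNth (α := fun _ => Fin A → ZMod l) j0 0 y
  map_add' y z := by
    funext j
    refine Fin.succAboveCases j0 ?_ (fun i => ?_) j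
    · simp only [Fin.insertNth_apply_same, Pi.add_apply, add_zero]
    · simp only [Fin.insertNth_apply_succAbove, Pi.add_apply]
  map_smul' c y := by
    funext j
    refine Fin.succAboveCases j0 ?_ (fun i => ?_) j
    · simp only [Fin.insertNth_apply_same, Pi.smul_apply, smul_zero]
    · simp only [Fin.insertNth_apply_succAbove, Pi.smul_apply, RingHom.id_apply]

private lemma DetA_ins_same (l : ℕ) (k A : ℕ) (j0 : Fin (k + 1))
    (y : Fin k → Fin A → ZMod l) : DetA_ins l k A j0 y j0 = 0 := by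
  show Fin.insertNth (α := fun _ => Fin A → ZMod l) j0 0 y j0 = 0
  rw [Fin.insertNth_apply_same]

private lemma DetA_ins_succ (l : ℕ) (k A : ℕ) (j0 : Fin (k + 1))
    (y : Fin k → Fin A → ZMod l) (i : Fin k) :
    DetA_ins l k A j0 y (j0.succAbove i) = y i := by
  show Fin.insertNth (α := fun _ => Fin A → ZMod l) j0 0 y (j0.succAbove i) = y i
  rw [Fin.insertNth_apply_succAbove]

private lemma DetA_ins_inj (l : ℕ) (k A : ℕ) (j0 : Fin (k + 1)) :
    Function.Injective (DetA_ins l k A j0) := by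
  intro y z h
  funext i
  rw [← DetA_ins_succ l k A j0 y i, ← DetA_ins_succ l k A j0 z i, h]

private lemma DetA_ext (l : ℕ) [Fact l.Prime] {p : ℝ} (hp : 1 < p) (hp2 : p < 2) {k : ℕ}
    (hk : p ^ 2 / (p - 1) < (k : ℝ) - 1) {eta : ℝ} (heta : 0 < eta) :
    ∃ A0 : ℕ, ∀ A ≥ A0, ∀ j0 : Fin k, ∃ D : Submodule (ZMod l) (Fin k → Fin A → ZMod l),
      (∀ y ∈ D, ∑ j, y j = 0) ∧ (∀ y ∈ D, y j0 = 0) ∧
      (((k : ℝ) - 1) / p - eta) * A ≤ (finrank (ZMod l) D : ℝ) ∧
      (open Classical in NormLE p (Finset.univ.filter fun y => y ∈ D) 1) := by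
  classical
  have hk0 : 0 < k := by
    rcases Nat.eq_zero_or_pos k with h | h
    · exfalso
      rw [h] at hk
      have h1 : 0 ≤ p ^ 2 / (p - 1) := div_nonneg (sq_nonneg p) (by linarith)
      norm_num at hk
      linarith
    · exact h
  obtain ⟨k', rfl⟩ : ∃ k', k = k' + 1 := ⟨k - 1, by omega⟩
  have hk' : p ^ 2 / (p - 1) < (k' : ℝ) := by
    push_cast at hk
    linarith
  obtain ⟨A0, hA0⟩ := exists_code l hp hp2 hk' heta
  refine ⟨A0, fun A hA j0 => ?_⟩
  obtain ⟨D', h1, h2, h3⟩ := hA0 A hA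
  have hmem : ∀ y, y ∈ D'.map (DetA_ins l k' A j0) ↔ ∃ z ∈ D', DetA_ins l k' A j0 z = y :=
    fun y => Submodule.mem_map
  refine ⟨D'.map (DetA_ins l k' A j0), ?_, ?_, ?_, ?_⟩
  · intro y hy
    obtain ⟨z, hz, rfl⟩ := (hmem y).1 hy
    rw [Fin.sum_univ_succAbove _ j0, DetA_ins_same, zero_add]
    simp only [DetA_ins_succ]
    exact h1 z hz
  · intro y hy
    obtain ⟨z, hz, rfl⟩ := (hmem y).1 hy
    exact DetA_ins_same l k' A j0 z
  · have e : finrank (ZMod l) (D'.map (DetA_ins l k' A j0)) = finrank (ZMod l) D' :=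
      (LinearEquiv.finrank_eq
        (Submodule.equivMapOfInjective (DetA_ins l k' A j0) (DetA_ins_inj l k' A j0) D')).symm
    rw [e]
    push_cast
    rw [add_sub_cancel_right]
    exact h2
  · intro x hx
    have himg : (Finset.univ.filter fun y => y ∈ D'.map (DetA_ins l k' A j0)) =
        (Finset.univ.filter fun y => y ∈ D').image (DetA_ins l k' A j0) := by
      ext y
      rw [Finset.mem_filter, Finset.mem_image, hmem]
      constructor
      · rintro ⟨-, z, hz, rfl⟩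
        exact ⟨z, Finset.mem_filter.2 ⟨Finset.mem_univ _, hz⟩, rfl⟩
      · rintro ⟨z, hz, rfl⟩
        exact ⟨Finset.mem_univ _, z, (Finset.mem_filter.1 hz).2, rfl⟩
    rw [himg, Finset.sum_image fun a _ b _ h => DetA_ins_inj l k' A j0 h]
    have h4 := h3 (fun i => x (j0.succAbove i)) (fun i y => hx _ y)
    rw [one_mul] at h4
    rw [one_mul, Fin.prod_univ_succAbove _ j0]
    calc ∑ c ∈ Finset.univ.filter (fun y => y ∈ D'), ∏ j, x j (DetA_ins l k' A j0 c j)
        = x j0 0 * ∑ c ∈ Finset.univ.filter (fun y => y ∈ D'),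
            ∏ i, x (j0.succAbove i) (c i) := by
          rw [Finset.mul_sum]
          refine Finset.sum_congr rfl fun c _ => ?_
          rw [Fin.prod_univ_succAbove _ j0, DetA_ins_same]
          simp only [DetA_ins_succ]
      _ ≤ (∑ y, x j0 y ^ p) ^ (1 / p) *
            ∏ i, (∑ y, x (j0.succAbove i) y ^ p) ^ (1 / p) := by
          refine mul_le_mul (DetA_le_norm (by linarith) (x j0) (hx j0) 0) h4 ?_ ?_
          · exact Finset.sum_nonneg fun c _ => Finset.prod_nonneg fun i _ => hx _ _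
          · exact Real.rpow_nonneg (Finset.sum_nonneg fun y _ => Real.rpow_nonneg (hx _ _) _) _

variable (P : Par)

/-- Codes for an edge with at most one zero slot.

PROOF. `zc = 0`: `exists_code` for `k`. `zc = 1`: `exists_code` for `k - 1` slots (note
`p²/(p-1) = p q < k - 1`), extended by the letter `0` in the slot `j₀` (`Fin.succAbove`,
`Fin.insertNth`); the sum over the words is `x_{j₀}(0) ∑_c ∏_{j ≠ j₀} x_j(c_j)` and
`x_{j₀}(0) ≤ ‖x_{j₀}‖_p`. Take the maximum of the two `A0`. -/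
theorem exists_codes (l : ℕ) [Fact l.Prime] {eta : ℝ} (heta : 0 < eta) :
    ∃ A0 : ℕ, ∀ A ≥ A0,
      (∃ D : Submodule (ZMod l) (Fin P.k → Fin A → ZMod l), (∀ y ∈ D, ∑ j, y j = 0) ∧
        (P.k / P.p - eta) * A ≤ (finrank (ZMod l) D : ℝ) ∧
        (open Classical in NormLE P.p (Finset.univ.filter fun y => y ∈ D) 1)) ∧
      ∀ j0 : Fin P.k, ∃ D : Submodule (ZMod l) (Fin P.k → Fin A → ZMod l),
        (∀ y ∈ D, ∑ j, y j = 0) ∧ (∀ y ∈ D, y j0 = 0) ∧
        (((P.k : ℝ) - 1) / P.p - eta) * A ≤ (finrank (ZMod l) D : ℝ) ∧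
        (open Classical in NormLE P.p (Finset.univ.filter fun y => y ∈ D) 1) := by
  have hpq : P.p ^ 2 / (P.p - 1) < (P.k : ℝ) - 1 := by
    have h := P.pq_lt
    have e : P.p * P.q = P.p ^ 2 / (P.p - 1) := by
      rw [P.hq]
      ring
    rw [← e]
    exact h
  obtain ⟨A1, hA1⟩ := exists_code l P.one_lt P.lt_two (k := P.k) (by linarith) heta
  obtain ⟨A2, hA2⟩ := DetA_ext l P.one_lt P.lt_two hpq heta
  refine ⟨max A1 A2, fun A hA => ⟨hA1 A ((le_max_left _ _).trans hA), ?_⟩⟩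
  exact hA2 A ((le_max_right _ _).trans hA)

variable {X : Type} [Fintype X] [DecidableEq X] (E : Finset (Fin P.k → X)) {m : ℕ}
  (lam : Fin m → Fin P.k × X)

end

end Pool.Agent.GP2
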