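import Pool.Agent.GP2.DetA

/-!
# DET: classification of the tuples
-/

namespace Pool.Agent.GP2

open Finset Module

noncomputable section

variable (P : Par)

variable {X : Type} [Fintype X] [DecidableEq X] (E : Finset (Fin P.k → X)) {m : ℕ}
  (lam : Fin m → Fin P.k × X)

/-- A generated sequence of length `t` has at most `m + t` vertices. -/
theorem card_VS_le {k t : ℕ} {lam : Fin m → Fin k × X} {e : Fin t → Fin k → X}
    (hg : IsGen lam e) : (VS lam e).card ≤ m + t := by
  classical
  have hsub : VS lam e ⊆ univ.image lam ∪ univ.biUnion fun i => Vx (e i) \ VSlt lam e i := by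
    intro v hv
    rw [VS, mem_union] at hv
    rw [mem_union]
    by_cases h1 : v ∈ univ.image lam
    · exact Or.inl h1
    right
    rcases hv with hv | hv
    · exact absurd hv h1
    rw [mem_biUnion] at hv
    obtain ⟨i0, -, hi0⟩ := hv
    have hne : (univ.filter fun i => v ∈ Vx (e i)).Nonempty := ⟨i0, by simp [hi0]⟩
    obtain ⟨i, hi, hmin⟩ := (univ.filter fun i => v ∈ Vx (e i)).exists_minimal hne
    rw [mem_filter] at hi
    rw [mem_biUnion]
    refine ⟨i, mem_univ _, ?_⟩
    rw [mem_sdiff]
    refine ⟨hi.2, fun hc => ?_⟩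
    rw [VSlt, mem_union] at hc
    rcases hc with hc | hc
    · exact h1 hc
    rw [mem_biUnion] at hc
    obtain ⟨i', hi', hv'⟩ := hc
    rw [mem_filter] at hi'
    have := hmin (y := i') (by simp [hv']) hi'.2.le
    exact absurd hi'.2 (not_lt.2 this)
  calc (VS lam e).card
      ≤ (univ.image lam ∪ univ.biUnion fun i => Vx (e i) \ VSlt lam e i).card :=
        card_le_card hsub
    _ ≤ (univ.image lam).card + (univ.biUnion fun i => Vx (e i) \ VSlt lam e i).card :=
        card_union_le _ _
    _ ≤ m + t := by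
        refine add_le_add ?_ ?_
        · calc (univ.image lam).card ≤ (univ : Finset (Fin m)).card := card_image_le
            _ = m := by simp
        · calc (univ.biUnion fun i => Vx (e i) \ VSlt lam e i).card
              ≤ ∑ i, (Vx (e i) \ VSlt lam e i).card := card_biUnion_le
            _ ≤ ∑ _i : Fin t, 1 := sum_le_sum fun i _ => hg.2 i
            _ = t := by simp

theorem DetB_mem_Vx {k : ℕ} {c : Fin k → X} {v : Fin k × X} : v ∈ Vx c ↔ c v.1 = v.2 := by
  unfold Vx
  rw [mem_image]
  constructor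
  · rintro ⟨j, -, rfl⟩
    rfl
  · intro h
    exact ⟨v.1, mem_univ _, by rw [h]⟩

theorem DetB_card_Vx {k : ℕ} (c : Fin k → X) : (Vx c).card = k := by
  unfold Vx
  rw [card_image_of_injective]
  · simp
  · intro a b h
    exact (Prod.ext_iff.1 h).1

/-- Double counting. -/
theorem sum_kp {k t : ℕ} (lam : Fin m → Fin k × X) (e : Fin t → Fin k → X) :
    ∑ v ∈ VS lam e, kp lam v = m := by
  have h := card_eq_sum_card_fiberwise (s := (univ : Finset (Fin m))) (t := VS lam e) (f := lam)
    (fun l _ => by
      rw [mem_coe, VS, mem_union]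
      exact Or.inl (mem_image_of_mem _ (mem_univ _)))
  rw [card_univ, Fintype.card_fin] at h
  exact h.symm

theorem sum_dg {k t : ℕ} (lam : Fin m → Fin k × X) (e : Fin t → Fin k → X) :
    ∑ v ∈ VS lam e, dg e v = k * t := by
  have h1 : ∀ v : Fin k × X, dg e v = ∑ i, if e i v.1 = v.2 then 1 else 0 := by
    intro v
    rw [dg, card_filter]
  have h2 : ∀ i, (VS lam e).filter (fun v => e i v.1 = v.2) = Vx (e i) := by
    intro i
    ext v
    rw [mem_filter, DetB_mem_Vx]
    constructor
    · exact fun h => h.2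
    · intro h
      refine ⟨?_, h⟩
      rw [VS, mem_union]
      exact Or.inr (mem_biUnion.2 ⟨i, mem_univ _, DetB_mem_Vx.2 h⟩)
  calc ∑ v ∈ VS lam e, dg e v = ∑ v ∈ VS lam e, ∑ i, (if e i v.1 = v.2 then 1 else 0) :=
        sum_congr rfl fun v _ => h1 v
    _ = ∑ i, ∑ v ∈ VS lam e, (if e i v.1 = v.2 then 1 else 0) := sum_comm
    _ = ∑ _i : Fin t, k := by
        refine sum_congr rfl fun i _ => ?_
        rw [← card_filter, h2, DetB_card_Vx]
    _ = k * t := by simp [mul_comm]

/-- In a good structure `|V| - (k/q) t = m/p`.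

PROOF. `|V| = ∑_{v} (κ/p + deg/q) = m/p + k t/q`, as every term is `1`
(`1/p + 1/q = 1`, or `q/q`). -/
theorem good_card {t : ℕ} {e : Fin t → Fin P.k → X} (h : Crit P.q lam e) :
    ((VS lam e).card : ℝ) - P.k / P.q * t = m / P.p := by
  have hp := P.p_pos
  have hq := P.q_pos
  have h1 : ∀ v ∈ VS lam e, (1 : ℝ) = (kp lam v : ℝ) / P.p + (dg e v : ℝ) / P.q := by
    intro v hv
    rcases h v hv with ⟨ha, hb⟩ | ⟨ha, hb⟩
    · rw [ha, hb, Nat.cast_one, P.add_eq]
    · rw [ha, hb, Nat.cast_zero, zero_div, zero_add, div_self hq.ne']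
  have h2 : ((VS lam e).card : ℝ) = ∑ v ∈ VS lam e, (1 : ℝ) := by simp
  have h3 : ∑ v ∈ VS lam e, (1 : ℝ) =
      (∑ v ∈ VS lam e, (kp lam v : ℝ)) / P.p + (∑ v ∈ VS lam e, (dg e v : ℝ)) / P.q := by
    rw [sum_congr rfl h1, sum_add_distrib, sum_div, sum_div]
  have h4 : (∑ v ∈ VS lam e, (kp lam v : ℝ)) = m := by
    exact_mod_cast sum_kp lam e
  have h5 : (∑ v ∈ VS lam e, (dg e v : ℝ)) = P.k * t := by
    exact_mod_cast sum_dg lam e
  rw [h2, h3, h4, h5]
  ring

/-- A maximal generated sequence is closed: all other edges have two vertices outside.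

PROOF. Suppose that no generated sequence in `E` satisfies `|V| - (k/q) t < m/p`. By
`card_VS_le`, `m/p ≤ m + t - (k/q) t`, so `t (k/q - 1) ≤ m`, and the length of the generated
sequences in `E` is bounded (`k/q > 2`). There is a generated sequence (`t = 0`). Let `e` be one of
maximal length. If `c ∈ E` is not in the range of `e` and has at most one vertex outside
`VS lam e` then `Fin.snoc e c` is generated, a contradiction. -/
theorem exists_closed
    (h : ∀ (t : ℕ) (e : Fin t → Fin P.k → X), (∀ i, e i ∈ E) → IsGen lam e →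
      (m : ℝ) / P.p ≤ ((VS lam e).card : ℝ) - P.k / P.q * t) :
    ∃ (t : ℕ) (e : Fin t → Fin P.k → X), (∀ i, e i ∈ E) ∧ IsGen lam e ∧
      ∀ c ∈ E, (∃ i, c = e i) ∨ 2 ≤ (Vx c \ VS lam e).card := by
  classical
  have hp := P.p_pos
  have hq := P.q_pos
  have hk : (2 : ℝ) < P.k / P.q := by
    rw [lt_div_iff₀ hq]
    have := P.hk
    linarith
  have hbd : ∀ (t : ℕ) (e : Fin t → Fin P.k → X), (∀ i, e i ∈ E) → IsGen lam e → t ≤ m := by
    intro t e he hg
    have h1 := h t e he hg
    have h2 : ((VS lam e).card : ℝ) ≤ m + t := by exact_mod_cast card_VS_le hg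
    have h3 : 0 ≤ (m : ℝ) / P.p := by positivity
    have h4 : (t : ℝ) * 2 ≤ P.k / P.q * t := by
      rw [mul_comm]
      exact mul_le_mul_of_nonneg_right hk.le (Nat.cast_nonneg t)
    have h5 : (t : ℝ) ≤ m := by linarith
    exact_mod_cast h5
  let Q : ℕ → Prop := fun t => ∃ e : Fin t → Fin P.k → X, (∀ i, e i ∈ E) ∧ IsGen lam e
  have hQ0 : Q 0 := ⟨Fin.elim0, fun i => i.elim0, fun i => i.elim0, fun i => i.elim0⟩
  have hQm : Q (Nat.findGreatest Q m) := Nat.findGreatest_spec (Nat.zero_le m) hQ0
  obtain ⟨e, he, hg⟩ := hQm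
  refine ⟨Nat.findGreatest Q m, e, he, hg, fun c hc => ?_⟩
  by_contra hcon
  rw [not_or] at hcon
  obtain ⟨hc1, hc2⟩ := hcon
  have hc2' : (Vx c \ VS lam e).card ≤ 1 := by omega
  have hQs : Q (Nat.findGreatest Q m + 1) := by
    refine ⟨Fin.snoc e c, ?_, ?_, ?_⟩
    · intro i
      refine Fin.lastCases ?_ (fun i => ?_) i
      · rw [Fin.snoc_last]
        exact hc
      · rw [Fin.snoc_castSucc]
        exact he i
    · rw [Fin.snoc_injective_iff]
      refine ⟨hg.1, ?_⟩
      rintro ⟨i, hi⟩
      exact hc1 ⟨i, hi.symm⟩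
    · intro i
      refine Fin.lastCases ?_ (fun i => ?_) i
      · rw [Fin.snoc_last]
        have : VS lam e ⊆ VSlt lam (Fin.snoc e c : Fin (Nat.findGreatest Q m + 1) → Fin P.k → X)
            (Fin.last _) := by
          intro v hv
          rw [VS, mem_union] at hv
          rw [VSlt, mem_union]
          rcases hv with hv | hv
          · exact Or.inl hv
          · right
            rw [mem_biUnion] at hv ⊢
            obtain ⟨i, -, hi⟩ := hv
            refine ⟨Fin.castSucc i, ?_, ?_⟩
            · rw [mem_filter]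
              exact ⟨mem_univ _, Fin.castSucc_lt_last i⟩
            · rw [Fin.snoc_castSucc]
              exact hi
        exact (card_le_card (sdiff_subset_sdiff (Subset.refl _) this)).trans hc2'
      · rw [Fin.snoc_castSucc]
        have : VSlt lam e i ⊆ VSlt lam
            (Fin.snoc e c : Fin (Nat.findGreatest Q m + 1) → Fin P.k → X) (Fin.castSucc i) := by
          intro v hv
          rw [VSlt, mem_union] at hv ⊢
          rcases hv with hv | hv
          · exact Or.inl hv
          · right
            rw [mem_biUnion] at hv ⊢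
            obtain ⟨i', hi', hi''⟩ := hv
            rw [mem_filter] at hi'
            refine ⟨Fin.castSucc i', ?_, ?_⟩
            · rw [mem_filter]
              exact ⟨mem_univ _, Fin.castSucc_lt_castSucc_iff.2 hi'.2⟩
            · rw [Fin.snoc_castSucc]
              exact hi''
        exact (card_le_card (sdiff_subset_sdiff (Subset.refl _) this)).trans (hg.2 i)
  have hle : Nat.findGreatest Q m + 1 ≤ m := by
    obtain ⟨e', he', hg'⟩ := hQs
    exact hbd _ e' he' hg'
  have := Nat.le_findGreatest hle hQs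
  omega

end

end Pool.Agent.GP2
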