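import Pool.Agent.GP2.DetB

/-!
# DET: classification of the tuples
-/

namespace Pool.Agent.GP2

open Finset Module

noncomputable section

variable (P : Par)

variable {X : Type} [Fintype X] [DecidableEq X] (E : Finset (Fin P.k → X)) {m : ℕ}
  (lam : Fin m → Fin P.k × X)

/-- number of slots of an edge in a set of vertices -/
private lemma DetC_zc {k t : ℕ} {X : Type} [DecidableEq X] (e : Fin t → Fin k → X)
    (Z : Finset (Fin k × X)) (i : Fin t) :
    (univ.filter fun j => (j, e i j) ∈ Z).card = (Z.filter fun v => e i v.1 = v.2).card := by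
  refine Finset.card_bij (fun j _ => (j, e i j)) ?_ ?_ ?_
  · intro j hj
    exact mem_filter.2 ⟨(mem_filter.1 hj).2, rfl⟩
  · intro a _ b _ h
    exact (Prod.mk.inj h).1
  · intro v hv
    obtain ⟨h1, h2⟩ := mem_filter.1 hv
    have h3 : (v.1, e i v.1) = v := by
      rw [h2]
    exact ⟨v.1, mem_filter.2 ⟨mem_univ _, by rw [h3]; exact h1⟩, h3⟩

private lemma DetC_sum {k t : ℕ} {X : Type} [DecidableEq X] (e : Fin t → Fin k → X)
    (Z : Finset (Fin k × X)) :
    ∑ i, (univ.filter fun j => (j, e i j) ∈ Z).card = ∑ v ∈ Z, dg e v := by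
  rw [Finset.sum_congr rfl fun i _ => DetC_zc e Z i]
  simp only [card_filter, dg]
  rw [Finset.sum_comm]

/-- the code of an edge -/
private lemma DetC_code (l : ℕ) [Fact l.Prime] {X : Type} [DecidableEq X] {t : ℕ}
    (e : Fin t → Fin P.k → X) (Z : Finset (Fin P.k × X)) (hZ : Z.card ≤ 1) {eta : ℝ} {A : ℕ}
    (hA : (∃ D : Submodule (ZMod l) (Fin P.k → Fin A → ZMod l), (∀ y ∈ D, ∑ j, y j = 0) ∧
        (P.k / P.p - eta) * A ≤ (finrank (ZMod l) D : ℝ) ∧
        (open Classical in NormLE P.p (Finset.univ.filter fun y => y ∈ D) 1)) ∧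
      ∀ j0 : Fin P.k, ∃ D : Submodule (ZMod l) (Fin P.k → Fin A → ZMod l),
        (∀ y ∈ D, ∑ j, y j = 0) ∧ (∀ y ∈ D, y j0 = 0) ∧
        (((P.k : ℝ) - 1) / P.p - eta) * A ≤ (finrank (ZMod l) D : ℝ) ∧
        (open Classical in NormLE P.p (Finset.univ.filter fun y => y ∈ D) 1)) (i : Fin t) :
    ∃ D : Submodule (ZMod l) (Fin P.k → Fin A → ZMod l), (∀ y ∈ D, ∑ j, y j = 0) ∧
      (∀ y ∈ D, ∀ j, (j, e i j) ∈ Z → y j = 0) ∧
      (((P.k : ℝ) - (univ.filter fun j => (j, e i j) ∈ Z).card) / P.p - eta) * A ≤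
        (finrank (ZMod l) D : ℝ) ∧
      (open Classical in NormLE P.p (Finset.univ.filter fun y => y ∈ D) 1) := by
  have hle : (univ.filter fun j => (j, e i j) ∈ Z).card ≤ 1 := by
    rw [DetC_zc]
    exact (card_filter_le _ _).trans hZ
  rcases Nat.eq_zero_or_pos (univ.filter fun j => (j, e i j) ∈ Z).card with h0 | h0
  · obtain ⟨D, h1, h2, h3⟩ := hA.1
    refine ⟨D, h1, fun y _ j hj => ?_, ?_, h3⟩
    · rw [Finset.card_eq_zero, filter_eq_empty_iff] at h0
      exact absurd hj (h0 (mem_univ j))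
    · rw [h0]
      simpa using h2
  · obtain ⟨j0, hj0⟩ := Finset.card_pos.1 h0
    obtain ⟨D, h1, h2, h3, h4⟩ := hA.2 j0
    refine ⟨D, h1, fun y hy j hj => ?_, ?_, h4⟩
    · have : j = j0 := Finset.card_le_one.1 hle j (mem_filter.2 ⟨mem_univ _, hj⟩) j0 hj0
      rw [this]
      exact h2 y hy
    · have h5 : (univ.filter fun j => (j, e i j) ∈ Z).card = 1 := le_antisymm hle h0
      rw [h5]
      simpa using h3

/-- The gadgets of a closed generated sequence: a gadget exists as soon as, for some prime `l`,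
some `Z` (empty or one vertex of `V`) and `dl ∈ {0, 1}` (where `dl = 1` is allowed if the edges
are dependent modulo `l`)
`#{i : lam i ∉ Z} / p < |V| - |Z| + dl - (k/q) t + deg(Z)/q`.

PROOF. Choose `η > 0` with `η t` smaller than the difference of the two sides, `A ≥ A0`, `A ≥ 1`
in `exists_codes`, and `D i` the code of `exists_codes` with `k` slots if the edge `e i` does not
meet `Z`, with `j0` the slot of the vertex in `Z` otherwise. Use `gadget_of_subspace` with
`Q = VS lam e` and `J0 l A Q Z e D`: `hinj` is `gen_determines` (the words of the `D i` have sum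
zero), `hE`: for the edges `e i` the words lie in `D i` (`normLE_mono`), the other edges have two
vertices outside `Q`. `hgain`: `finrank_J0` gives
`dim J0 ≥ A (|V| - |Z| - t + dl) - ∑_i (A (k - 1 - zc i) - ((k - zc i)/p - η) A)
= A (|V| - |Z| + dl - (k/q) t + deg(Z)/q - η t)` because
`k - 1 - zc - (k - zc)/p = (k - zc)/q - 1` and `∑ zc i = deg(Z)`. -/
theorem gadget_of_closed {t : ℕ} {e : Fin t → Fin P.k → X} (he : ∀ i, e i ∈ E)
    (hg : IsGen lam e) (hcl : ∀ c ∈ E, (∃ i, c = e i) ∨ 2 ≤ (Vx c \ VS lam e).card)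
    (l : ℕ) [Fact l.Prime] (Z : Finset (Fin P.k × X)) (hZ : Z = ∅ ∨ ∃ w ∈ VS lam e, Z = {w})
    (dl : ℕ) (hdl : dl = 0 ∨ (dl = 1 ∧ ∃ c : Fin t → ZMod l, c ≠ 0 ∧
      ∀ v : Fin P.k × X, (∑ i, if e i v.1 = v.2 then c i else 0) = 0))
    (hgain : ((univ.filter fun i => lam i ∉ Z).card : ℝ) / P.p <
      (VS lam e).card - Z.card + dl - P.k / P.q * t + (∑ v ∈ Z, (dg e v : ℝ)) / P.q) :
    Nonempty (Gadget P.p E lam) := by
  classical
  have hp := P.p_pos
  have hZ1 : Z.card ≤ 1 := by
    rcases hZ with h | ⟨w, -, h⟩ <;> simp [h]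
  have hZQ : Z ⊆ VS lam e := by
    rcases hZ with h | ⟨w, hw, h⟩
    · simp [h]
    · rw [h]
      simpa using hw
  set Rr : ℝ := (VS lam e).card - Z.card + dl - P.k / P.q * t + (∑ v ∈ Z, (dg e v : ℝ)) / P.q
    with hRr
  set L : ℝ := ((univ.filter fun i => lam i ∉ Z).card : ℝ) / P.p with hL
  obtain ⟨eta, heta, heta1⟩ : ∃ eta : ℝ, 0 < eta ∧ eta * t < Rr - L := by
    have ht : (0 : ℝ) < t + 1 := by positivity
    refine ⟨(Rr - L) / (t + 1), div_pos (by linarith) ht, ?_⟩
    rw [div_mul_eq_mul_div, div_lt_iff₀ ht]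
    nlinarith
  obtain ⟨A0, hA0⟩ := exists_codes P l heta
  set A := max A0 1 with hA
  have hA1 : 0 < A := lt_of_lt_of_le one_pos (le_max_right _ _)
  choose D hD1 hD2 hD3 hD4 using DetC_code P l e Z hZ1 (hA0 A (le_max_left _ _))
  have hVx : ∀ i, Vx (e i) ⊆ VS lam e := fun i v hv =>
    mem_union_right _ (mem_biUnion.2 ⟨i, mem_univ _, hv⟩)
  have hk3 : 3 ≤ P.k := by
    have := P.k_gt
    omega
  have hfin := finrank_J0 hk3 l A (VS lam e) Z hZQ e hVx D
    (fun i => (univ.filter fun j => (j, e i j) ∈ Z).card) (fun _ => rfl) (fun i => by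
      show (univ.filter fun j => (j, e i j) ∈ Z).card ≤ 1
      rw [DetC_zc]
      exact (card_filter_le _ _).trans hZ1) hD1 hD2 dl hdl
  refine gadget_of_subspace P.one_lt.le P.lt_two.le E lam l A (VS lam e) Z
    (J0 l A (VS lam e) Z e D) (fun y hy v hv => hy.2.1 v hv)
    (fun i => mem_union_left _ (mem_image_of_mem _ (mem_univ i)))
    (fun y hy hl => gen_determines hg y hy.1 (fun i => hD1 i _ (hy.2.2 i)) hl) ?_ ?_
  · intro c hc
    rcases hcl c hc with ⟨i, rfl⟩ | h
    · refine Or.inl ⟨hVx i, normLE_mono ?_ (hD4 i)⟩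
      intro z hz
      obtain ⟨y, hy, rfl⟩ := (mem_filter.1 hz).2
      exact mem_filter.2 ⟨mem_univ _, hy.2.2 i⟩
    · exact Or.inr h
  · have h1 : ((A : ℝ) * (VS lam e).card - A * Z.card - A * t + dl * A -
        ∑ i, ((A : ℝ) * ((P.k : ℝ) - 1 - (univ.filter fun j => (j, e i j) ∈ Z).card) -
          finrank (ZMod l) (D i))) ≤ finrank (ZMod l) (J0 l A (VS lam e) Z e D) := by
      have := (Int.cast_le (R := ℝ)).2 hfin
      push_cast at this
      exact this
    have h2 : ∑ i, ((A : ℝ) * ((P.k : ℝ) - 1 - (univ.filter fun j => (j, e i j) ∈ Z).card) -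
          finrank (ZMod l) (D i)) ≤
        ∑ i : Fin t, (A : ℝ) * ((P.k - (univ.filter fun j => (j, e i j) ∈ Z).card) / P.q - 1 +
          eta) := by
      refine Finset.sum_le_sum fun i _ => ?_
      have h3 := hD3 i
      have h4 : ((P.k : ℝ) - (univ.filter fun j => (j, e i j) ∈ Z).card) / P.p +
          ((P.k : ℝ) - (univ.filter fun j => (j, e i j) ∈ Z).card) / P.q =
          (P.k : ℝ) - (univ.filter fun j => (j, e i j) ∈ Z).card := by
        have h := P.add_eq
        calc ((P.k : ℝ) - (univ.filter fun j => (j, e i j) ∈ Z).card) / P.p +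
            ((P.k : ℝ) - (univ.filter fun j => (j, e i j) ∈ Z).card) / P.q =
            ((P.k : ℝ) - (univ.filter fun j => (j, e i j) ∈ Z).card) * (1 / P.p + 1 / P.q) := by
              ring
          _ = _ := by rw [h, mul_one]
      have h5 : ((P.k : ℝ) - (univ.filter fun j => (j, e i j) ∈ Z).card) / P.q =
          (P.k : ℝ) - (univ.filter fun j => (j, e i j) ∈ Z).card -
          ((P.k : ℝ) - (univ.filter fun j => (j, e i j) ∈ Z).card) / P.p := by linarith
      rw [h5]
      nlinarith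
    have h3 : ∑ i : Fin t, (A : ℝ) * ((P.k - (univ.filter fun j => (j, e i j) ∈ Z).card) / P.q -
        1 + eta) = A * (P.k / P.q * t - (∑ v ∈ Z, (dg e v : ℝ)) / P.q - t + eta * t) := by
      have h4 : (∑ v ∈ Z, (dg e v : ℝ)) =
          ∑ i : Fin t, ((univ.filter fun j => (j, e i j) ∈ Z).card : ℝ) := by
        have := DetC_sum e Z
        exact_mod_cast this.symm
      rw [← Finset.mul_sum, h4]
      congr 1
      rw [Finset.sum_add_distrib, Finset.sum_sub_distrib]
      simp only [sub_div, Finset.sum_sub_distrib, Finset.sum_const, Finset.card_univ,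
        Fintype.card_fin, nsmul_eq_mul, mul_one, Finset.sum_div]
      ring
    have h4 : (0 : ℝ) < A := by exact_mod_cast hA1
    have h5 : (A : ℝ) / P.p * (univ.filter fun i => lam i ∉ Z).card = A * L := by
      rw [hL]
      ring
    rw [h5]
    refine lt_of_lt_of_le ?_ h1
    have h6 : A * L < A * (Rr - eta * t) := mul_lt_mul_of_pos_left (by linarith) h4
    refine lt_of_lt_of_le h6 ?_
    rw [hRr]
    nlinarith

end

end Pool.Agent.GP2
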