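import Pool.Agent.GP2.Mfp

/-!
# FINAL: shared parts for `1 < p < 2`
-/

namespace Pool.Agent.GP2

open Finset Metric
open Pool.Agent.helper68.Gl
open scoped ENNReal

noncomputable section

/-- Parameters for every `1 < p < 2`. -/
theorem exists_par {r : ℝ} (h1 : 1 < r) (h2 : r < 2) : ∃ P : Par, P.p = r := by
  classical
  have hm : 0 < r - 1 := by linarith
  set q : ℝ := r / (r - 1) with hq
  have hq2 : 2 < q := by
    rw [hq, lt_div_iff₀ hm]
    linarith
  set k : ℕ := ⌊2 * q + 2⌋₊ + 1 with hk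
  have hk' : 2 * q + 2 < k := by
    rw [hk]
    push_cast
    exact Nat.lt_floor_add_one _
  by_cases h : ∃ m : ℕ, (m : ℝ) = q
  · obtain ⟨m, hm'⟩ := h
    have h3 : 3 ≤ m := by
      have : (2 : ℝ) < m := by rw [hm']; exact hq2
      have : 2 < m := by exact_mod_cast this
      omega
    refine ⟨⟨r, q, k, m, h1, h2, hq, hk', h3, fun m' hm'' => ?_⟩, rfl⟩
    have : (m' : ℝ) = m := by rw [hm'', hm']
    have : m' = m := by exact_mod_cast this
    rw [this]
  · refine ⟨⟨r, q, k, 3, h1, h2, hq, hk', le_rfl, fun m' hm'' => ?_⟩, rfl⟩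
    exact absurd ⟨m', hm''⟩ h

/-- For `1 < p < 2` there is a Gleason part of the spectrum of `A_u(B_{ℓ_p})`, not the part of the
evaluation at the centre, with two points of the fibre over `0`. -/
theorem shared_lp {p : ℝ≥0∞} [Fact (1 ≤ p)] (h1 : 1 < p) (h2 : p < 2) : Shared (LP p) := by
  have hp1 : 1 < p.toReal := by
    have := (ENNReal.toReal_lt_toReal (by norm_num) (ne_top_of_lt h2)).2 h1
    simpa using this
  have hp2 : p.toReal < 2 := by
    have := (ENNReal.toReal_lt_toReal (ne_top_of_lt h2) (by norm_num)).2 h2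
    simpa using this
  obtain ⟨P, hP⟩ := exists_par hp1 hp2
  exact shared_of_finApprox (finApprox_lp P hP)

end

end Pool.Agent.GP2
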