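import Pool.Agent.GP2.Kil
import Pool.Agent.helper68.Gl.Stmt
import Pool.Agent.helper68.Gl.Poly

/-!
# FRM: functions on the ball of `ℓ_p` built from countably many blocks
-/

namespace Pool.Agent.GP2

open Finset Metric
open Pool.Agent.helper68.Gl
open scoped ENNReal

noncomputable section

variable {p : ℝ≥0∞} [Fact (1 ≤ p)]

/-- Unit vectors of `ℓ_p` with different indices satisfy `PBound`.

PROOF. `norm_comb`. -/
theorem pBound_single (hp : 0 < p.toReal) {β : Type*} [Fintype β] (c : β → ℕ)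
    (hc : Function.Injective c) :
    PBound p.toReal (fun b => (lp.single p (c b) (1 : ℂ) : LP p)) := by
  intro z
  have h1 : ∑ b, z b • (lp.single p (c b) (1 : ℂ) : LP p) = ∑ b, lp.single p (c b) (z b) := by
    refine sum_congr rfl fun b _ => ?_
    have h2 := lp.single_smul (E := fun _ : ℕ => ℂ) p (c b) (z b) (1 : ℂ)
    rw [smul_eq_mul, mul_one] at h2
    exact h2.symm
  rw [h1]
  have h3 := norm_comb (p := p) hp univ c (hc.injOn) z
  rw [← h3, ← Real.rpow_mul (norm_nonneg _), mul_one_div_cancel hp.ne', Real.rpow_one]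

/-- The `k`-linear map of a block: `∑_{d ∈ H} ∏_i x_i(cd (i, d i))`. -/
def blockM {k : ℕ} {Y : Type} [Fintype Y] (p : ℝ≥0∞) [Fact (1 ≤ p)] (H : Finset (Fin k → Y))
    (cd : Fin k × Y → ℕ) : ContinuousMultilinearMap ℂ (fun _ : Fin k => LP p) ℂ :=
  ∑ d ∈ H, (ContinuousMultilinearMap.mkPiAlgebra ℂ (Fin k) ℂ).compContinuousLinearMap
    (fun i => crd (cd (i, d i)))

section frm

variable {k : ℕ}

lemma Frm_blockM_apply {Y : Type} [Fintype Y] (H : Finset (Fin k → Y)) (cd : Fin k × Y → ℕ)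
    (v : Fin k → LP p) : blockM p H cd v = ∑ d ∈ H, ∏ i, v i (cd (i, d i)) := by
  simp only [blockM, _root_.sum_apply, ContinuousMultilinearMap.compContinuousLinearMap_apply,
    ContinuousMultilinearMap.mkPiAlgebra_apply, crd_apply]

/-- Mass in a family of coordinates. -/
def Frm_mass {V : Type*} [Fintype V] (cd : V → ℕ) (x : LP p) : ℝ := ∑ v, ‖x (cd v)‖ ^ p.toReal

lemma Frm_mass_nonneg {V : Type*} [Fintype V] (cd : V → ℕ) (x : LP p) :
    0 ≤ Frm_mass cd x := sum_nonneg fun _ _ => by positivity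

lemma Frm_block_bound (hp : 0 < p.toReal) {Y : Type} [Fintype Y] (H : Finset (Fin k → Y)) {C : ℝ}
    (hN : NormLE p.toReal H C) (cd : Fin k × Y → ℕ) (v : Fin k → LP p) :
    ‖blockM p H cd v‖ ≤ C * ∏ i, (∑ y, ‖v i (cd (i, y))‖ ^ p.toReal) ^ (1 / p.toReal) := by
  rw [Frm_blockM_apply]
  refine (norm_sum_le _ _).trans ?_
  have h := hN (fun i y => ‖v i (cd (i, y))‖) (fun i y => norm_nonneg _)
  refine le_trans (le_of_eq ?_) h
  exact sum_congr rfl fun d _ => norm_prod _ _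

lemma Frm_row_le {Y : Type} [Fintype Y] (cd : Fin k × Y → ℕ) (x : LP p) (i : Fin k) :
    ∑ y, ‖x (cd (i, y))‖ ^ p.toReal ≤ Frm_mass cd x := by
  unfold Frm_mass
  rw [Fintype.sum_prod_type]
  exact single_le_sum (f := fun i => ∑ y, ‖x (cd (i, y))‖ ^ p.toReal)
    (fun _ _ => sum_nonneg fun _ _ => by positivity) (mem_univ i)

variable (Y : ℕ → Type) [∀ b, Fintype (Y b)] (cd : ∀ b, Fin k × Y b → ℕ)

lemma Frm_sum_mass_le (hp : 0 < p.toReal)
    (hcd : ∀ b v b' v', cd b v = cd b' v' → b = b' ∧ HEq v v') (S : Finset ℕ) (x : LP p) :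
    ∑ b ∈ S, Frm_mass (cd b) x ≤ ‖x‖ ^ p.toReal := by
  have h := sum_rpow_le hp (S.sigma fun b => (univ : Finset (Fin k × Y b)))
    (fun s => cd s.1 s.2) (by
      rintro ⟨b, v⟩ _ ⟨b', v'⟩ _ h
      obtain ⟨h1, h2⟩ := hcd b v b' v' h
      exact Sigma.ext h1 h2) x
  refine le_trans (le_of_eq ?_) h
  rw [sum_sigma]
  rfl

lemma Frm_summable_mass (hp : 0 < p.toReal)
    (hcd : ∀ b v b' v', cd b v = cd b' v' → b = b' ∧ HEq v v') (x : LP p) :
    Summable fun b => Frm_mass (cd b) x :=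
  summable_of_sum_le (fun b => Frm_mass_nonneg (cd b) x)
    (fun S => Frm_sum_mass_le Y cd hp hcd S x)

lemma Frm_tsum_mass_le (hp : 0 < p.toReal)
    (hcd : ∀ b v b' v', cd b v = cd b' v' → b = b' ∧ HEq v v') (x : LP p) :
    ∑' b, Frm_mass (cd b) x ≤ ‖x‖ ^ p.toReal :=
  Summable.tsum_le_of_sum_le (Frm_summable_mass Y cd hp hcd x)
    (fun S => Frm_sum_mass_le Y cd hp hcd S x)

lemma Frm_mass_le (hp : 0 < p.toReal)
    (hcd : ∀ b v b' v', cd b v = cd b' v' → b = b' ∧ HEq v v') (b : ℕ) (x : LP p) :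
    Frm_mass (cd b) x ≤ ‖x‖ ^ p.toReal := by
  have := Frm_sum_mass_le Y cd hp hcd {b} x
  rwa [sum_singleton] at this

/-- A countable family of multilinear maps with a uniform bound on unit vectors. -/
lemma Frm_scale (T : ℕ → MultilinearMap ℂ (fun _ : Fin k => LP p) ℂ) {B : ℝ}
    (hB : ∀ v : Fin k → LP p, (∀ i, ‖v i‖ ≤ 1) →
      Summable (fun b => ‖T b v‖) ∧ ∑' b, ‖T b v‖ ≤ B) (v : Fin k → LP p) :
    Summable (fun b => ‖T b v‖) ∧ ∑' b, ‖T b v‖ ≤ B * ∏ i, ‖v i‖ := by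
  set u : Fin k → LP p := fun i => ((‖v i‖⁻¹ : ℝ) : ℂ) • v i with hu
  have hun : ∀ i, ‖u i‖ ≤ 1 := by
    intro i
    simp only [hu]
    rw [norm_smul, Complex.norm_real, Real.norm_of_nonneg (by positivity)]
    by_cases h : ‖v i‖ = 0
    · rw [h]; simp
    · rw [inv_mul_cancel₀ h]
  have hvu : v = fun i => (‖v i‖ : ℂ) • u i := by
    funext i
    simp only [hu]
    by_cases h : ‖v i‖ = 0
    · rw [norm_eq_zero.1 h]; simp
    · rw [smul_smul, ← Complex.ofReal_mul, mul_inv_cancel₀ h]; simp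
  have hscale : ∀ b, ‖T b v‖ = (∏ i, ‖v i‖) * ‖T b u‖ := by
    intro b
    conv_lhs => rw [hvu]
    rw [MultilinearMap.map_smul_univ, norm_smul, norm_prod]
    simp
  obtain ⟨h1, h2⟩ := hB u hun
  constructor
  · simp only [hscale]
    exact h1.mul_left _
  · simp only [hscale]
    rw [tsum_mul_left, mul_comm]
    have : 0 ≤ ∏ i, ‖v i‖ := prod_nonneg fun _ _ => norm_nonneg _
    exact mul_le_mul_of_nonneg_right h2 this

/-- The sum of a countable family of multilinear maps. -/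
def Frm_SM (T : ℕ → MultilinearMap ℂ (fun _ : Fin k => LP p) ℂ) (B : ℝ)
    (hB : ∀ v : Fin k → LP p, (∀ i, ‖v i‖ ≤ 1) →
      Summable (fun b => ‖T b v‖) ∧ ∑' b, ‖T b v‖ ≤ B) :
    ContinuousMultilinearMap ℂ (fun _ : Fin k => LP p) ℂ :=
  MultilinearMap.mkContinuous
    { toFun := fun v => ∑' b, T b v
      map_update_add' := by
        intro dec v i x y
        simp only [MultilinearMap.map_update_add]
        exact Summable.tsum_add (Frm_scale T hB _).1.of_norm (Frm_scale T hB _).1.of_norm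
      map_update_smul' := by
        intro dec v i a x
        simp only [MultilinearMap.map_update_smul, smul_eq_mul]
        exact tsum_mul_left }
    B
    (fun v => by
      refine (norm_tsum_le_tsum_norm (Frm_scale T hB v).1).trans ?_
      exact (Frm_scale T hB v).2)

lemma Frm_SM_apply (T : ℕ → MultilinearMap ℂ (fun _ : Fin k => LP p) ℂ) (B : ℝ)
    (hB : ∀ v : Fin k → LP p, (∀ i, ‖v i‖ ≤ 1) →
      Summable (fun b => ‖T b v‖) ∧ ∑' b, ‖T b v‖ ≤ B) (v : Fin k → LP p) :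
    Frm_SM T B hB v = ∑' b, T b v := rfl

/-- The diagonal of a continuous multilinear map. -/
lemma Frm_mem_diag (T : ContinuousMultilinearMap ℂ (fun _ : Fin k => LP p) ℂ) :
    Mem (fun x : LP p => T (fun _ => x)) := by
  constructor
  · intro x _
    have h1 : AnalyticAt ℂ (fun x : LP p => fun _ : Fin k => x) x :=
      (ContinuousLinearMap.pi fun _ : Fin k => ContinuousLinearMap.id ℂ (LP p)).analyticAt x
    exact AnalyticAt.comp (g := T) (f := fun x : LP p => fun _ : Fin k => x)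
      (T.analyticAt) h1
  · rw [Metric.uniformContinuousOn_iff]
    intro ε hε
    set D : ℝ := ‖T‖ * Fintype.card (Fin k) with hD
    have hD0 : 0 ≤ D := by positivity
    refine ⟨ε / (D + 1), by positivity, fun x hx y hy hxy => ?_⟩
    rw [Metric.mem_ball, dist_zero_right] at hx hy
    rw [dist_eq_norm] at hxy ⊢
    have h := T.norm_image_sub_le (fun _ => x) (fun _ => y)
    have n1 : ∀ z : LP p, ‖(fun _ : Fin k => z)‖ ≤ ‖z‖ := fun z =>
      pi_norm_le_iff_of_nonneg (norm_nonneg _) |>.2 fun _ => le_rfl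
    have n2 : ‖(fun _ : Fin k => x) - (fun _ : Fin k => y)‖ ≤ ‖x - y‖ :=
      n1 (x - y)
    have n3 : max ‖(fun _ : Fin k => x)‖ ‖(fun _ : Fin k => y)‖ ≤ 1 :=
      max_le ((n1 x).trans hx.le) ((n1 y).trans hy.le)
    calc ‖T (fun _ => x) - T (fun _ => y)‖ ≤ D * 1 * ‖x - y‖ := by
          refine h.trans ?_
          gcongr
          exact pow_le_one₀ (le_max_of_le_left (norm_nonneg _)) n3
      _ ≤ (D + 1) * ‖x - y‖ := by
          gcongr
          linarith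
      _ < (D + 1) * (ε / (D + 1)) := by gcongr
      _ = ε := by field_simp

/-- The bound on unit vectors. -/
lemma Frm_unit_bound (hp : 1 ≤ p.toReal) (hk : 1 ≤ k) (hkp : p.toReal ≤ k)
    (H : ∀ b, Finset (Fin k → Y b)) (C cf : ℕ → ℝ)
    (hC : ∀ b, 0 ≤ C b) (hcf : ∀ b, 0 ≤ cf b) (hcc : ∀ b, cf b * C b ≤ 1)
    (hN : ∀ b, NormLE p.toReal (H b) (C b))
    (hcd : ∀ b v b' v', cd b v = cd b' v' → b = b' ∧ HEq v v') (b : ℕ) (v : Fin k → LP p)
    (hv : ∀ i, ‖v i‖ ≤ 1) :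
    cf b * ‖blockM p (H b) (cd b) v‖ ≤
      (k : ℝ) ^ ((k : ℝ) / p.toReal - 1) * ∑ i, Frm_mass (cd b) (v i) := by
  have hp0 : 0 < p.toReal := by linarith
  have hθ : 1 ≤ (k : ℝ) / p.toReal := by rwa [le_div_iff₀ hp0, one_mul]
  set S : ℝ := ∑ i, Frm_mass (cd b) (v i) with hS
  have hS0 : 0 ≤ S := sum_nonneg fun _ _ => Frm_mass_nonneg _ _
  have hS1 : S ≤ k := by
    have : ∀ i ∈ (univ : Finset (Fin k)), Frm_mass (cd b) (v i) ≤ 1 := by
      intro i _
      refine (Frm_mass_le Y cd hp0 hcd b _).trans ?_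
      exact Real.rpow_le_one (norm_nonneg _) (hv i) hp0.le
    refine (sum_le_sum this).trans (le_of_eq ?_)
    simp
  have h1 : ∏ i, (∑ y, ‖v i (cd b (i, y))‖ ^ p.toReal) ^ (1 / p.toReal) ≤
      S ^ ((k : ℝ) / p.toReal) := by
    have h2 : ∀ i ∈ (univ : Finset (Fin k)),
        (∑ y, ‖v i (cd b (i, y))‖ ^ p.toReal) ^ (1 / p.toReal) ≤ S ^ (1 / p.toReal) := by
      intro i _
      refine Real.rpow_le_rpow (sum_nonneg fun _ _ => by positivity) ?_ (by positivity)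
      refine (Frm_row_le (cd b) (v i) i).trans ?_
      exact single_le_sum (f := fun i => Frm_mass (cd b) (v i))
        (fun _ _ => Frm_mass_nonneg _ _) (mem_univ i)
    refine (prod_le_prod (fun i _ => by positivity) h2).trans (le_of_eq ?_)
    rw [prod_const, card_univ, Fintype.card_fin, ← Real.rpow_natCast, ← Real.rpow_mul hS0]
    congr 1
    ring
  have e : S ^ ((k : ℝ) / p.toReal) = S ^ ((k : ℝ) / p.toReal - 1) * S := by
    have := Real.rpow_add_one' hS0 (y := (k : ℝ) / p.toReal - 1) (by linarith)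
    rw [← this]
    congr 1
    ring
  have h3 : S ^ ((k : ℝ) / p.toReal - 1) ≤ (k : ℝ) ^ ((k : ℝ) / p.toReal - 1) :=
    Real.rpow_le_rpow hS0 hS1 (by linarith)
  have h4 := Frm_block_bound hp0 (H b) (hN b) (cd b) v
  have h5 : 0 ≤ ∏ i, (∑ y, ‖v i (cd b (i, y))‖ ^ p.toReal) ^ (1 / p.toReal) :=
    prod_nonneg fun i _ => by positivity
  calc cf b * ‖blockM p (H b) (cd b) v‖
      ≤ cf b * (C b * ∏ i, (∑ y, ‖v i (cd b (i, y))‖ ^ p.toReal) ^ (1 / p.toReal)) :=
        mul_le_mul_of_nonneg_left h4 (hcf b)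
    _ = (cf b * C b) * ∏ i, (∑ y, ‖v i (cd b (i, y))‖ ^ p.toReal) ^ (1 / p.toReal) := by ring
    _ ≤ 1 * ∏ i, (∑ y, ‖v i (cd b (i, y))‖ ^ p.toReal) ^ (1 / p.toReal) :=
        mul_le_mul_of_nonneg_right (hcc b) h5
    _ ≤ S ^ ((k : ℝ) / p.toReal - 1) * S := by rw [one_mul, ← e]; exact h1
    _ ≤ (k : ℝ) ^ ((k : ℝ) / p.toReal - 1) * S := mul_le_mul_of_nonneg_right h3 hS0

/-- The bound on the diagonal. -/
lemma Frm_diag_bound (hp : 1 ≤ p.toReal) (hk : 1 ≤ k) (hkp : p.toReal ≤ k)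
    (H : ∀ b, Finset (Fin k → Y b)) (C cf : ℕ → ℝ)
    (hC : ∀ b, 0 ≤ C b) (hcf : ∀ b, 0 ≤ cf b) (hcc : ∀ b, cf b * C b ≤ 1)
    (hN : ∀ b, NormLE p.toReal (H b) (C b))
    (hcd : ∀ b v b' v', cd b v = cd b' v' → b = b' ∧ HEq v v') (b : ℕ) (x : LP p)
    (hx : ‖x‖ ≤ 1) :
    (k : ℝ) ^ ((k : ℝ) / p.toReal) * (cf b * ‖blockM p (H b) (cd b) (fun _ => x)‖) ≤
      Frm_mass (cd b) x := by
  have hp0 : 0 < p.toReal := by linarith
  have hk0 : (0 : ℝ) < k := by exact_mod_cast hk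
  have hθ : 1 ≤ (k : ℝ) / p.toReal := by rwa [le_div_iff₀ hp0, one_mul]
  set S : ℝ := Frm_mass (cd b) x with hS
  have hS0 : 0 ≤ S := Frm_mass_nonneg _ _
  have hS1 : S ≤ 1 := (Frm_mass_le Y cd hp0 hcd b _).trans
    (Real.rpow_le_one (norm_nonneg _) hx hp0.le)
  set mm : Fin k → ℝ := fun i => ∑ y, ‖x (cd b (i, y))‖ ^ p.toReal with hmm
  have hmm0 : ∀ i, 0 ≤ mm i := fun i => sum_nonneg fun _ _ => by positivity
  have hsum : ∑ i, mm i = S := by
    rw [hS, Frm_mass, Fintype.sum_prod_type]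
  have hprod : ∏ i, mm i ≤ (S / k) ^ k := by
    have h := Real.geom_mean_le_arith_mean (univ : Finset (Fin k)) (fun _ => (1 : ℝ)) mm
      (fun _ _ => zero_le_one) (by simpa using hk0) (fun i _ => hmm0 i)
    simp only [Real.rpow_one, sum_const, card_univ, Fintype.card_fin, nsmul_eq_mul, mul_one,
      one_mul] at h
    rw [hsum] at h
    have h0 : 0 ≤ ∏ i, mm i := prod_nonneg fun i _ => hmm0 i
    have h2 := pow_le_pow_left₀ (Real.rpow_nonneg h0 _) h k
    rw [← Real.rpow_natCast, ← Real.rpow_mul h0, inv_mul_cancel₀ hk0.ne', Real.rpow_one] at h2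
    exact h2
  have h1 : ∏ i, (mm i) ^ (1 / p.toReal) ≤ (S / k) ^ ((k : ℝ) / p.toReal) := by
    rw [Real.finsetProd_rpow _ _ (fun i _ => hmm0 i)]
    have h2 := Real.rpow_le_rpow (prod_nonneg fun i _ => hmm0 i) hprod
      (z := 1 / p.toReal) (by positivity)
    refine h2.trans (le_of_eq ?_)
    rw [← Real.rpow_natCast, ← Real.rpow_mul (by positivity)]
    congr 1
    ring
  have h4 := Frm_block_bound hp0 (H b) (hN b) (cd b) (fun _ => x)
  have h5 : 0 ≤ ∏ i, (mm i) ^ (1 / p.toReal) :=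
    prod_nonneg fun i _ => Real.rpow_nonneg (hmm0 i) _
  have hkk : 0 ≤ (k : ℝ) ^ ((k : ℝ) / p.toReal) := Real.rpow_nonneg hk0.le _
  have h6 : cf b * ‖blockM p (H b) (cd b) (fun _ => x)‖ ≤ (S / k) ^ ((k : ℝ) / p.toReal) := by
    calc cf b * ‖blockM p (H b) (cd b) (fun _ => x)‖
        ≤ cf b * (C b * ∏ i, (mm i) ^ (1 / p.toReal)) :=
          mul_le_mul_of_nonneg_left h4 (hcf b)
      _ = (cf b * C b) * ∏ i, (mm i) ^ (1 / p.toReal) := by ring
      _ ≤ 1 * ∏ i, (mm i) ^ (1 / p.toReal) :=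
          mul_le_mul_of_nonneg_right (hcc b) h5
      _ ≤ _ := by rw [one_mul]; exact h1
  calc (k : ℝ) ^ ((k : ℝ) / p.toReal) * (cf b * ‖blockM p (H b) (cd b) (fun _ => x)‖)
      ≤ (k : ℝ) ^ ((k : ℝ) / p.toReal) * (S / k) ^ ((k : ℝ) / p.toReal) :=
        mul_le_mul_of_nonneg_left h6 hkk
    _ = S ^ ((k : ℝ) / p.toReal) := by
        rw [← Real.mul_rpow hk0.le (by positivity), mul_div_cancel₀ _ hk0.ne']
    _ ≤ S ^ (1 : ℝ) := Real.rpow_le_rpow_of_exponent_ge' hS0 hS1 zero_le_one hθ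
    _ = S := Real.rpow_one _

lemma Frm_coord {V : Type*} [Fintype V] (cd' : V → ℕ) (z : V → ℂ) {x : LP p}
    (hx : x = ∑ v, z v • (lp.single p (cd' v) (1 : ℂ) : LP p)) (m : ℕ) :
    x m = ∑ v, if cd' v = m then z v else 0 := by
  have h1 : ∑ v, z v • (lp.single p (cd' v) (1 : ℂ) : LP p) = ∑ v, lp.single p (cd' v) (z v) := by
    refine sum_congr rfl fun b _ => ?_
    have h2 := lp.single_smul (E := fun _ : ℕ => ℂ) p (cd' b) (z b) (1 : ℂ)
    rw [smul_eq_mul, mul_one] at h2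
    exact h2.symm
  rw [hx, h1]
  exact apply_comb univ cd' z m

end frm

/-- Functions from countably many blocks with disjoint sets of coordinates.

PROOF. For `x_1, ..., x_k ∈ ℓ_p` of norm at most `1` let `mass_b(x) = ∑_v |x(cd b v)|^p`, the sum over
`v ∈ Fin k × Y b`; since all the coordinates `cd b v` are different, `∑_b mass_b(x) ≤ ‖x‖^p`. By
`NormLE` (for `|x_i|`) `|blockM_b(x_1, ..., x_k)| ≤ C_b ∏_i (∑_y |x_i(cd b (i, y))|^p)^{1/p}`, at most
`C_b (∑_i mass_b(x_i))^{k/p} ≤ C_b k^{k/p - 1} ∑_i mass_b(x_i)`, which is summable after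
multiplication with `cf b` (`cf b * C b ≤ 1`, `k/p ≥ 1`). So
`S(x_1, ..., x_k) = k^{k/p} ∑_b cf b blockM_b(x_1, ..., x_k)` is a bounded `k`-linear map (exactly as
`TM_summable`, `SM` in `Poly.lean` of helper68), and `f(x) = S(x, ..., x)` is in `Mem`
(as `mem_pol`) and vanishes at `0` (`k ≥ 1`). On the diagonal: with
`m_i = ∑_y |x(cd b (i, y))|^p`, `|blockM_b(x, ..., x)| ≤ C_b (∏_i m_i)^{1/p}
≤ C_b (mass_b(x)/k)^{k/p}` (arithmetic-geometric mean), so
`|f(x)| ≤ ∑_b mass_b(x)^{k/p} ≤ (∑_b mass_b(x)) ≤ 1` for `‖x‖ ≤ 1`. If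
`x = ∑_v z v e_{cd b v}` then only the block `b` contributes. -/
theorem exists_form (hp : 1 ≤ p.toReal) {k : ℕ} (hk : 1 ≤ k) (hkp : p.toReal ≤ k)
    (Y : ℕ → Type) [∀ b, Fintype (Y b)] (H : ∀ b, Finset (Fin k → Y b)) (C cf : ℕ → ℝ)
    (hC : ∀ b, 0 ≤ C b) (hcf : ∀ b, 0 ≤ cf b) (hcc : ∀ b, cf b * C b ≤ 1)
    (hN : ∀ b, NormLE p.toReal (H b) (C b))
    (cd : ∀ b, Fin k × Y b → ℕ)
    (hcd : ∀ b v b' v', cd b v = cd b' v' → b = b' ∧ HEq v v') :
    ∃ f : AuBall (LP p), (∀ x, ‖f.1 x‖ ≤ 1) ∧ f.1 ⟨0, mem_ball_self one_pos⟩ = 0 ∧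
      ∀ (b : ℕ) (z : Fin k × Y b → ℂ) (x : ball (0 : LP p) 1),
        (x : LP p) = ∑ v, z v • (lp.single p (cd b v) (1 : ℂ) : LP p) →
        f.1 x = cf b * ((k : ℝ) ^ ((k : ℝ) / p.toReal) : ℝ) *
          ∑ d ∈ H b, ∏ i, z (i, d i) := by
  have hp0 : 0 < p.toReal := by linarith
  have hk0 : (0 : ℝ) < k := by exact_mod_cast hk
  set A : ℝ := (k : ℝ) ^ ((k : ℝ) / p.toReal) with hA
  have hA0 : 0 ≤ A := Real.rpow_nonneg hk0.le _
  let T : ℕ → MultilinearMap ℂ (fun _ : Fin k => LP p) ℂ := fun b =>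
    ((cf b : ℂ) * (A : ℂ)) • (blockM p (H b) (cd b)).toMultilinearMap
  have hT : ∀ b v, T b v = ((cf b : ℂ) * (A : ℂ)) * blockM p (H b) (cd b) v := fun b v => rfl
  have hTn : ∀ b v, ‖T b v‖ = A * (cf b * ‖blockM p (H b) (cd b) v‖) := by
    intro b v
    rw [hT, norm_mul, norm_mul, Complex.norm_real, Complex.norm_real,
      Real.norm_of_nonneg (hcf b), Real.norm_of_nonneg hA0]
    ring
  set B : ℝ := A * ((k : ℝ) ^ ((k : ℝ) / p.toReal - 1) * k) with hB
  have hB1 : ∀ v : Fin k → LP p, (∀ i, ‖v i‖ ≤ 1) →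
      Summable (fun b => ‖T b v‖) ∧ ∑' b, ‖T b v‖ ≤ B := by
    intro v hv
    have hb : ∀ b, ‖T b v‖ ≤ A * ((k : ℝ) ^ ((k : ℝ) / p.toReal - 1) *
        ∑ i, Frm_mass (cd b) (v i)) := by
      intro b
      rw [hTn]
      exact mul_le_mul_of_nonneg_left
        (Frm_unit_bound Y cd hp hk hkp H C cf hC hcf hcc hN hcd b v hv) hA0
    have hsm : Summable fun b => A * ((k : ℝ) ^ ((k : ℝ) / p.toReal - 1) *
        ∑ i, Frm_mass (cd b) (v i)) :=
      ((summable_sum fun i _ => Frm_summable_mass Y cd hp0 hcd (v i)).mul_left _).mul_left _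
    have hsu : Summable fun b => ‖T b v‖ :=
      Summable.of_nonneg_of_le (fun _ => norm_nonneg _) hb hsm
    refine ⟨hsu, (Summable.tsum_le_tsum hb hsu hsm).trans ?_⟩
    rw [tsum_mul_left, tsum_mul_left,
      Summable.tsum_finsetSum fun i _ => Frm_summable_mass Y cd hp0 hcd (v i), hB]
    have h1 : ∀ i ∈ (univ : Finset (Fin k)), ∑' b, Frm_mass (cd b) (v i) ≤ 1 := by
      intro i _
      refine (Frm_tsum_mass_le Y cd hp0 hcd _).trans ?_
      exact Real.rpow_le_one (norm_nonneg _) (hv i) hp0.le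
    have h2 : ∑ i, ∑' b, Frm_mass (cd b) (v i) ≤ k := by
      refine (sum_le_sum h1).trans (le_of_eq ?_)
      simp
    have h3 : 0 ≤ (k : ℝ) ^ ((k : ℝ) / p.toReal - 1) := Real.rpow_nonneg hk0.le _
    exact mul_le_mul_of_nonneg_left (mul_le_mul_of_nonneg_left h2 h3) hA0
  let g : LP p → ℂ := fun x => Frm_SM T B hB1 (fun _ => x)
  have hg : ∀ x, g x = ∑' b, T b (fun _ => x) := fun x => rfl
  have hgm : Mem g := Frm_mem_diag (Frm_SM T B hB1)
  refine ⟨⟨fun x : ball (0 : LP p) 1 => g x, holOnBall_iff.2 hgm.1,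
    uniformContinuousOn_iff_restrict.1 hgm.2⟩, ?_, ?_, ?_⟩
  · intro x
    have hx : ‖(x : LP p)‖ ≤ 1 := (mem_ball_zero_iff.1 x.2).le
    change ‖g x‖ ≤ 1
    rw [hg]
    have hb : ∀ b, ‖T b (fun _ => (x : LP p))‖ ≤ Frm_mass (cd b) (x : LP p) := by
      intro b
      rw [hTn]
      exact Frm_diag_bound Y cd hp hk hkp H C cf hC hcf hcc hN hcd b x hx
    have hs : Summable fun b => ‖T b (fun _ => (x : LP p))‖ :=
      Summable.of_nonneg_of_le (fun _ => norm_nonneg _) hb (Frm_summable_mass Y cd hp0 hcd _)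
    refine (norm_tsum_le_tsum_norm hs).trans ?_
    refine (Summable.tsum_le_tsum hb hs (Frm_summable_mass Y cd hp0 hcd _)).trans ?_
    exact (Frm_tsum_mass_le Y cd hp0 hcd _).trans
      (Real.rpow_le_one (norm_nonneg _) hx hp0.le)
  · change g 0 = 0
    rw [hg]
    have hz : ∀ b, T b (fun _ => (0 : LP p)) = 0 := by
      intro b
      exact MultilinearMap.map_coord_zero _ (⟨0, by omega⟩ : Fin k) rfl
    simp only [hz, tsum_zero]
  · intro b z x hx
    change g x = _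
    rw [hg]
    have hco : ∀ b' (v' : Fin k × Y b'), (x : LP p) (cd b' v') =
        ∑ v, if cd b v = cd b' v' then z v else 0 := fun b' v' =>
      Frm_coord (cd b) z hx (cd b' v')
    have hne : ∀ b', b' ≠ b → T b' (fun _ => (x : LP p)) = 0 := by
      intro b' hb'
      rw [hT, Frm_blockM_apply]
      have : ∑ d ∈ H b', ∏ i, (x : LP p) (cd b' (i, d i)) = 0 := by
        refine sum_eq_zero fun d _ => ?_
        refine prod_eq_zero (mem_univ (⟨0, by omega⟩ : Fin k)) ?_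
        rw [hco]
        refine sum_eq_zero fun v _ => ?_
        rw [if_neg]
        intro h
        exact hb' (hcd _ _ _ _ h).1.symm
      rw [this, mul_zero]
    rw [tsum_eq_single b hne, hT, Frm_blockM_apply]
    congr 1
    refine sum_congr rfl fun d _ => prod_congr rfl fun i _ => ?_
    rw [hco, sum_eq_single (i, d i)]
    · rw [if_pos rfl]
    · intro v _ hv
      rw [if_neg]
      intro h
      exact hv (eq_of_heq (hcd _ _ _ _ h).2)
    · intro h
      exact absurd (mem_univ _) h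

end

end Pool.Agent.GP2
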