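import Pool.Agent.GP2.Gad1A

/-!
# GAD 1: gadgets from linear spaces of states
-/

namespace Pool.Agent.GP2

open Finset Module

noncomputable section

/-- The letter seen at a vertex. -/
def gad1_pr {k : ℕ} {X : Type} [DecidableEq X] {l A : ℕ} (Q : Finset (Fin k × X))
    (J0 : Submodule (ZMod l) (Fin k × X → Fin A → ZMod l)) (v : Fin k × X) :
    J0 →+ (Fin A → ZMod l) × J0 where
  toFun y := if v ∈ Q then ((y : Fin k × X → Fin A → ZMod l) v, 0) else (0, y)
  map_zero' := by
    by_cases h : v ∈ Q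
    · simp [h]
    · simp [h]
  map_add' a b := by
    by_cases h : v ∈ Q
    · simp [h]
    · simp [h]

lemma gad1_pr_mem {k : ℕ} {X : Type} [DecidableEq X] {l A : ℕ} {Q : Finset (Fin k × X)}
    (J0 : Submodule (ZMod l) (Fin k × X → Fin A → ZMod l)) {v : Fin k × X} (h : v ∈ Q) (y : J0) :
    gad1_pr Q J0 v y = ((y : Fin k × X → Fin A → ZMod l) v, 0) := by
  simp [gad1_pr, h]

lemma gad1_pr_not {k : ℕ} {X : Type} [DecidableEq X] {l A : ℕ} {Q : Finset (Fin k × X)}
    (J0 : Submodule (ZMod l) (Fin k × X → Fin A → ZMod l)) {v : Fin k × X} (h : v ∉ Q) (y : J0) :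
    gad1_pr Q J0 v y = (0, y) := by
  simp [gad1_pr, h]

/-- A gadget from a linear space `J0` of functions on the vertices with values in `F^A`,
`F = ZMod l`, vanishing outside `Q` and on `Z`.

PROOF. `J = J0`, `B = F^A × J0`, `pr v y = (y v, 0)` for `v ∈ Q`, `pr v y = (0, y)` for `v ∉ Q`
(the vertices outside `Q` see the whole state). Edges `c ∈ E` with two vertices outside `Q`:
`normLE_two`. Edges with all vertices in `Q`: hypothesis `hE` and `normLE_map` with
`z ↦ (z, 0)`. Gain: `|range (pr (lam i))|` is at most `l^A`, and it is `1` if `lam i ∈ Z`; the map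
`y ↦ (pr (lam i) y)_i` is injective on `J0` by `hinj` (additivity), so its range has
`l^{dim J0}` elements. So the gain inequality is
`(l^{A/p})^{#{i : lam i ∉ Z}} < l^{dim J0}`. -/
theorem gadget_of_subspace {p : ℝ} (hp1 : 1 ≤ p) (hp2 : p ≤ 2) {k : ℕ} {X : Type} [Fintype X]
    [DecidableEq X] (E : Finset (Fin k → X)) {m : ℕ} (lam : Fin m → Fin k × X) (l : ℕ)
    [Fact l.Prime] (A : ℕ) (Q Z : Finset (Fin k × X))
    (J0 : Submodule (ZMod l) (Fin k × X → Fin A → ZMod l))
    (hZ : ∀ y ∈ J0, ∀ v ∈ Z, y v = 0)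
    (hlam : ∀ i, lam i ∈ Q)
    (hinj : ∀ y ∈ J0, (∀ i, y (lam i) = 0) → y = 0)
    (hE : ∀ c ∈ E, (Vx c ⊆ Q ∧ (open Classical in
      NormLE p (univ.filter fun z : Fin k → Fin A → ZMod l =>
        ∃ y ∈ J0, z = fun j => y (j, c j)) 1)) ∨ 2 ≤ (Vx c \ Q).card)
    (hgain : (A : ℝ) / p * (univ.filter fun i => lam i ∉ Z).card < (finrank (ZMod l) J0 : ℝ)) :
    Nonempty (Gadget p E lam) := by
  classical
  have hp : 0 < p := by linarith
  haveI : Finite J0 := inferInstance
  letI : Fintype J0 := Fintype.ofFinite _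
  have hl1 : 1 < l := (Fact.out : l.Prime).one_lt
  refine ⟨{ J := J0, B := (Fin A → ZMod l) × J0, pr := gad1_pr Q J0, norm_le := ?_, gain := ?_ }⟩
  · intro c hc
    rcases hE c hc with ⟨hQ, hN⟩ | h2
    · refine normLE_mono ?_ (normLE_map hp _ hN zero_le_one (fun _ z => (z, (0 : J0)))
        (fun _ a b hab => (Prod.mk.inj hab).1))
      intro w hw
      obtain ⟨y, -, hy⟩ := Finset.mem_image.1 hw
      refine Finset.mem_image.2 ⟨fun j => (y : Fin k × X → Fin A → ZMod l) (j, c j), ?_, ?_⟩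
      · refine Finset.mem_filter.2 ⟨Finset.mem_univ _, ⟨y, y.2, rfl⟩⟩
      · rw [← hy]
        funext j
        have hj : (j, c j) ∈ Q := hQ (Finset.mem_image.2 ⟨j, Finset.mem_univ _, rfl⟩)
        simp only [gad1_pr_mem J0 hj y]
    · obtain ⟨v1, hv1, v2, hv2, hne⟩ := Finset.one_lt_card.1 (lt_of_lt_of_le one_lt_two h2)
      obtain ⟨hv1a, hv1b⟩ := Finset.mem_sdiff.1 hv1
      obtain ⟨hv2a, hv2b⟩ := Finset.mem_sdiff.1 hv2
      obtain ⟨j1, -, rfl⟩ := Finset.mem_image.1 hv1a
      obtain ⟨j2, -, rfl⟩ := Finset.mem_image.1 hv2a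
      have hj : j1 ≠ j2 := by
        intro h
        exact hne (by rw [h])
      refine normLE_two hp1 hp2 (fun (y : J0) (j : Fin k) => gad1_pr Q J0 (j, c j) y) hj ?_ ?_
      · intro a b hab
        have hab' : gad1_pr Q J0 (j1, c j1) a = gad1_pr Q J0 (j1, c j1) b := hab
        rw [gad1_pr_not J0 hv1b, gad1_pr_not J0 hv1b] at hab'
        exact (Prod.mk.inj hab').2
      · intro a b hab
        have hab' : gad1_pr Q J0 (j2, c j2) a = gad1_pr Q J0 (j2, c j2) b := hab
        rw [gad1_pr_not J0 hv2b, gad1_pr_not J0 hv2b] at hab'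
        exact (Prod.mk.inj hab').2
  · -- the ranges
    have hr : ∀ i, (Nat.card (gad1_pr Q J0 (lam i)).range : ℝ) ^ (1 / p) ≤
        if lam i ∉ Z then (l : ℝ) ^ ((A : ℝ) / p) else 1 := by
      intro i
      by_cases hz : lam i ∈ Z
      · have h1 : Nat.card (gad1_pr Q J0 (lam i)).range = 1 := by
          rw [Nat.card_eq_one_iff_unique]
          constructor
          · constructor
            rintro ⟨a, ⟨y, rfl⟩⟩ ⟨b, ⟨y', rfl⟩⟩
            apply Subtype.ext
            show gad1_pr Q J0 (lam i) y = gad1_pr Q J0 (lam i) y'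
            rw [gad1_pr_mem J0 (hlam i), gad1_pr_mem J0 (hlam i), hZ y y.2 _ hz, hZ y' y'.2 _ hz]
          · exact ⟨⟨_, ⟨0, rfl⟩⟩⟩
        rw [h1]
        simp [hz]
      · have h1 : Nat.card (gad1_pr Q J0 (lam i)).range ≤ l ^ A := by
          have h2 : Nat.card (Fin A → ZMod l) = l ^ A := by
            rw [Nat.card_eq_fintype_card, Fintype.card_fun, ZMod.card, Fintype.card_fin]
          rw [← h2]
          refine Nat.card_le_card_of_injective
            (fun a : (gad1_pr Q J0 (lam i)).range => (a : (Fin A → ZMod l) × J0).1) ?_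
          rintro ⟨a, ⟨y, rfl⟩⟩ ⟨b, ⟨y', rfl⟩⟩ hab
          apply Subtype.ext
          have hab' : (gad1_pr Q J0 (lam i) y).1 = (gad1_pr Q J0 (lam i) y').1 := hab
          show gad1_pr Q J0 (lam i) y = gad1_pr Q J0 (lam i) y'
          rw [gad1_pr_mem J0 (hlam i), gad1_pr_mem J0 (hlam i)] at hab' ⊢
          exact Prod.ext hab' rfl
        have h3 : (Nat.card (gad1_pr Q J0 (lam i)).range : ℝ) ≤ (l : ℝ) ^ (A : ℝ) := by
          rw [Real.rpow_natCast]
          exact_mod_cast h1
        have h4 := Real.rpow_le_rpow (Nat.cast_nonneg _) h3 (by positivity : 0 ≤ 1 / p)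
        rw [← Real.rpow_mul (Nat.cast_nonneg _), mul_one_div] at h4
        rw [if_pos hz]
        exact h4
    have hinj' : Function.Injective fun (y : J0) (i : Fin m) => gad1_pr Q J0 (lam i) y := by
      intro a b hab
      have h0 : a - b = 0 := by
        apply Subtype.ext
        refine hinj _ (a - b).2 fun i => ?_
        have h1 : gad1_pr Q J0 (lam i) a = gad1_pr Q J0 (lam i) b := congrFun hab i
        rw [gad1_pr_mem J0 (hlam i), gad1_pr_mem J0 (hlam i)] at h1
        have h2 := (Prod.mk.inj h1).1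
        rw [Submodule.coe_sub, Pi.sub_apply, h2, sub_self]
      exact sub_eq_zero.1 h0
    have hcard : (Nat.card (Set.range fun (y : J0) (i : Fin m) => gad1_pr Q J0 (lam i) y) : ℝ) =
        (l : ℝ) ^ (finrank (ZMod l) J0 : ℝ) := by
      rw [Nat.card_range_of_injective hinj', Real.rpow_natCast,
        Module.natCard_eq_pow_finrank (K := ZMod l) (V := J0), Nat.card_zmod]
      push_cast
      rfl
    rw [hcard]
    calc ∏ i, (Nat.card (gad1_pr Q J0 (lam i)).range : ℝ) ^ (1 / p)
        ≤ ∏ i, (if lam i ∉ Z then (l : ℝ) ^ ((A : ℝ) / p) else 1) :=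
          Finset.prod_le_prod (fun i _ => Real.rpow_nonneg (Nat.cast_nonneg _) _) fun i _ => hr i
      _ = ((l : ℝ) ^ ((A : ℝ) / p)) ^ (univ.filter fun i => lam i ∉ Z).card := by
          rw [Finset.prod_ite, Finset.prod_const, Finset.prod_const_one, mul_one]
      _ = (l : ℝ) ^ ((A : ℝ) / p * ((univ.filter fun i => lam i ∉ Z).card : ℝ)) := by
          rw [Real.rpow_mul (Nat.cast_nonneg _), Real.rpow_natCast]
      _ < (l : ℝ) ^ (finrank (ZMod l) J0 : ℝ) :=
          Real.rpow_lt_rpow_of_exponent_lt (by exact_mod_cast hl1) hgain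

end

end Pool.Agent.GP2
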