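import Pool.Agent.GP2.Defs

/-!
# GAD 1: gadgets from linear spaces of states
-/

namespace Pool.Agent.GP2

open Finset Module

noncomputable section

/-- One coordinate is at most the norm. -/
lemma gad1A_le_norm {p : ℝ} (hp : 0 < p) {B : Type*} [Fintype B] (x : B → ℝ)
    (hx : ∀ y, 0 ≤ x y) (y : B) : x y ≤ (∑ z, x z ^ p) ^ (1 / p) := by
  have h1 : x y ^ p ≤ ∑ z, x z ^ p :=
    Finset.single_le_sum (f := fun z => x z ^ p) (fun z _ => Real.rpow_nonneg (hx z) p)
      (Finset.mem_univ y)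
  have h2 : (x y ^ p) ^ (1 / p) ≤ (∑ z, x z ^ p) ^ (1 / p) :=
    Real.rpow_le_rpow (Real.rpow_nonneg (hx y) p) h1 (by positivity)
  have h3 : (x y ^ p) ^ (1 / p) = x y := by
    rw [← Real.rpow_mul (hx y), mul_one_div_cancel hp.ne', Real.rpow_one]
  rw [h3] at h2
  exact h2

/-- The `2`-norm is at most the `p`-norm, `p ≤ 2`. -/
lemma gad1A_two_le {p : ℝ} (hp1 : 1 ≤ p) (hp2 : p ≤ 2) {B : Type*} [Fintype B] (x : B → ℝ)
    (hx : ∀ y, 0 ≤ x y) : ∑ z, x z ^ 2 ≤ ((∑ z, x z ^ p) ^ (1 / p)) ^ 2 := by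
  have hp : 0 < p := by linarith
  set N : ℝ := (∑ z, x z ^ p) ^ (1 / p) with hN
  have hs0 : 0 ≤ ∑ z, x z ^ p := Finset.sum_nonneg fun z _ => Real.rpow_nonneg (hx z) p
  have hN0 : 0 ≤ N := Real.rpow_nonneg hs0 _
  have hNp : N ^ p = ∑ z, x z ^ p := by
    rw [hN, ← Real.rpow_mul hs0, one_div_mul_cancel hp.ne', Real.rpow_one]
  have key : ∀ z, x z ^ 2 ≤ x z ^ p * N ^ (2 - p) := by
    intro z
    have h1 := gad1A_le_norm hp x hx z
    have h2 : x z ^ (2 - p) ≤ N ^ (2 - p) := Real.rpow_le_rpow (hx z) h1 (by linarith)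
    have h3 : x z ^ 2 = x z ^ p * x z ^ (2 - p) := by
      rw [← Real.rpow_add' (hx z) (by norm_num)]
      have : p + (2 - p) = ((2 : ℕ) : ℝ) := by norm_num
      rw [this, Real.rpow_natCast]
    rw [h3]
    exact mul_le_mul_of_nonneg_left h2 (Real.rpow_nonneg (hx z) p)
  calc ∑ z, x z ^ 2 ≤ ∑ z, x z ^ p * N ^ (2 - p) := Finset.sum_le_sum fun z _ => key z
    _ = N ^ p * N ^ (2 - p) := by rw [← Finset.sum_mul, hNp]
    _ = N ^ 2 := by
      rw [← Real.rpow_add' hN0 (by norm_num)]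
      have : p + (2 - p) = ((2 : ℕ) : ℝ) := by norm_num
      rw [this, Real.rpow_natCast]

/-- The sum over an image is at most the sum over the domain. -/
lemma gad1A_sum_image_le {α β : Type*} [DecidableEq β] (s : Finset α) (g : α → β) (F : β → ℝ)
    (hF : ∀ b, 0 ≤ F b) : ∑ b ∈ s.image g, F b ≤ ∑ a ∈ s, F (g a) := by
  have h1 : ∑ a ∈ s, F (g a) = ∑ b ∈ s.image g, ∑ a ∈ s.filter (fun a => g a = b), F (g a) :=
    (Finset.sum_fiberwise_of_maps_to (fun a ha => Finset.mem_image_of_mem g ha) _).symm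
  rw [h1]
  refine Finset.sum_le_sum fun b hb => ?_
  obtain ⟨a, ha, hab⟩ := Finset.mem_image.1 hb
  calc F b = F (g a) := by rw [hab]
    _ ≤ ∑ a' ∈ s.filter (fun a => g a = b), F (g a') :=
      Finset.single_le_sum (f := fun a' => F (g a')) (fun a' _ => hF _)
        (Finset.mem_filter.2 ⟨ha, hab⟩)

/-- The set of words of a family of group elements all of which see the whole state in two
different slots has norm at most `1` (`p ≤ 2`).

PROOF. The sum over the image is at most `∑_{y ∈ J} ∏_j x_j(f y j)` (nonnegative terms, every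
element of the image is hit). Let `j₁ ≠ j₂` be slots where `y ↦ f y j` is injective. For the other
slots `x_j(z) ≤ ‖x_j‖_p`. And `∑_y x_{j₁}(f y j₁) x_{j₂}(f y j₂) ≤ ‖·‖_2 ‖·‖_2 ≤ ‖x_{j₁}‖_p
‖x_{j₂}‖_p` (Cauchy-Schwarz, `ℓ_p` norms decrease in `p`, and injectivity). -/
theorem normLE_two {p : ℝ} (hp1 : 1 ≤ p) (hp2 : p ≤ 2) {k : ℕ} {J B : Type*} [Fintype J]
    [Fintype B] [DecidableEq B] (f : J → Fin k → B) {j1 j2 : Fin k} (hj : j1 ≠ j2)
    (h1 : Function.Injective fun y => f y j1) (h2 : Function.Injective fun y => f y j2) :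
    NormLE p (univ.image f) 1 := by
  intro x hx
  have hp : 0 < p := by linarith
  set N : Fin k → ℝ := fun j => (∑ y, x j y ^ p) ^ (1 / p) with hN
  have hN0 : ∀ j, 0 ≤ N j := fun j =>
    Real.rpow_nonneg (Finset.sum_nonneg fun z _ => Real.rpow_nonneg (hx j z) p) _
  rw [one_mul]
  have hprod0 : ∀ c : Fin k → B, 0 ≤ ∏ j, x j (c j) := fun c =>
    Finset.prod_nonneg fun j _ => hx j _
  refine (gad1A_sum_image_le univ f (fun c => ∏ j, x j (c j)) hprod0).trans ?_
  have hj2 : j2 ∈ (univ : Finset (Fin k)).erase j1 := Finset.mem_erase.2 ⟨hj.symm, mem_univ _⟩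
  have hsplit : ∀ g : Fin k → ℝ, ∏ j, g j = g j1 * (g j2 * ∏ j ∈ (univ.erase j1).erase j2, g j) := by
    intro g
    rw [← Finset.mul_prod_erase univ g (mem_univ j1), ← Finset.mul_prod_erase _ g hj2]
  have hrest : ∀ y, ∏ j ∈ (univ.erase j1).erase j2, x j (f y j)
      ≤ ∏ j ∈ (univ.erase j1).erase j2, N j := fun y =>
    Finset.prod_le_prod (fun j _ => hx j _) fun j _ => gad1A_le_norm hp (x j) (hx j) _
  have hR0 : 0 ≤ ∏ j ∈ (univ.erase j1).erase j2, N j := Finset.prod_nonneg fun j _ => hN0 j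
  have hCS : ∑ y, x j1 (f y j1) * x j2 (f y j2) ≤ N j1 * N j2 := by
    have hsq : (∑ y, x j1 (f y j1) * x j2 (f y j2)) ^ 2 ≤ (N j1 * N j2) ^ 2 := by
      refine (Finset.sum_mul_sq_le_sq_mul_sq univ _ _).trans ?_
      have hb : ∀ i : Fin k, Function.Injective (fun y => f y i) →
          ∑ y, x i (f y i) ^ 2 ≤ N i ^ 2 := by
        intro i hi
        have e1 : ∑ y, x i (f y i) ^ 2 = ∑ b ∈ univ.image (fun y => f y i), x i b ^ 2 := by
          rw [Finset.sum_image fun a _ b _ hab => hi hab]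
        rw [e1]
        refine le_trans ?_ (gad1A_two_le hp1 hp2 (x i) (hx i))
        exact Finset.sum_le_sum_of_subset_of_nonneg (Finset.subset_univ _)
          fun b _ _ => by positivity
      rw [mul_pow]
      exact mul_le_mul (hb j1 h1) (hb j2 h2) (Finset.sum_nonneg fun y _ => by positivity)
        (by positivity)
    exact le_of_sq_le_sq hsq (mul_nonneg (hN0 _) (hN0 _))
  calc ∑ y, ∏ j, x j (f y j)
      = ∑ y, x j1 (f y j1) * (x j2 (f y j2) * ∏ j ∈ (univ.erase j1).erase j2, x j (f y j)) :=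
        Finset.sum_congr rfl fun y _ => hsplit _
    _ ≤ ∑ y, x j1 (f y j1) * x j2 (f y j2) * ∏ j ∈ (univ.erase j1).erase j2, N j := by
        refine Finset.sum_le_sum fun y _ => ?_
        rw [← mul_assoc]
        exact mul_le_mul_of_nonneg_left (hrest y) (mul_nonneg (hx _ _) (hx _ _))
    _ = (∑ y, x j1 (f y j1) * x j2 (f y j2)) * ∏ j ∈ (univ.erase j1).erase j2, N j := by
        rw [Finset.sum_mul]
    _ ≤ (N j1 * N j2) * ∏ j ∈ (univ.erase j1).erase j2, N j :=
        mul_le_mul_of_nonneg_right hCS hR0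
    _ = ∏ j, N j := by rw [hsplit N, mul_assoc]

/-- `NormLE` is preserved by an injective change of letters (`p > 0`). -/
theorem normLE_map {p C : ℝ} (hp : 0 < p) {k : ℕ} {Y Y' : Type*} [Fintype Y] [Fintype Y']
    [DecidableEq Y] [DecidableEq Y'] (S : Finset (Fin k → Y)) (h : NormLE p S C) (hC : 0 ≤ C)
    (g : Fin k → Y → Y') (hg : ∀ j, Function.Injective (g j)) :
    NormLE p (S.image fun c j => g j (c j)) C := by
  intro x hx
  have hinj : Function.Injective fun (c : Fin k → Y) (j : Fin k) => g j (c j) := by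
    intro a b hab
    funext j
    exact hg j (congrFun hab j)
  rw [Finset.sum_image fun a _ b _ hab => hinj hab]
  refine (h (fun j y => x j (g j y)) fun j y => hx j _).trans ?_
  refine mul_le_mul_of_nonneg_left ?_ hC
  refine Finset.prod_le_prod (fun j _ => Real.rpow_nonneg
    (Finset.sum_nonneg fun z _ => Real.rpow_nonneg (hx j _) p) _) fun j _ => ?_
  refine Real.rpow_le_rpow (Finset.sum_nonneg fun z _ => Real.rpow_nonneg (hx j _) p) ?_
    (by positivity)
  have e1 : ∑ y, x j (g j y) ^ p = ∑ b ∈ univ.image (g j), x j b ^ p := by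
    rw [Finset.sum_image fun a _ b _ hab => hg j hab]
  rw [e1]
  exact Finset.sum_le_sum_of_subset_of_nonneg (Finset.subset_univ _)
    fun b _ _ => Real.rpow_nonneg (hx j b) p

/-- `NormLE` is monotone. -/
theorem normLE_mono {p C : ℝ} {k : ℕ} {Y : Type*} [Fintype Y] {S S' : Finset (Fin k → Y)}
    (hS : S ⊆ S') (h : NormLE p S' C) : NormLE p S C := by
  intro x hx
  refine le_trans ?_ (h x hx)
  exact Finset.sum_le_sum_of_subset_of_nonneg hS fun c _ _ =>
    Finset.prod_nonneg fun j _ => hx j _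

end

end Pool.Agent.GP2
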