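import Pool.Agent.GP2.Defs

/-!
# GAD 2: linear algebra of the spaces of states
-/

namespace Pool.Agent.GP2

open Finset Module

noncomputable section

/-- The kernel and the range of the map into the product of the quotients. -/
private theorem gad2A_aux {F : Type*} [Field F] {ι : Type*} [Fintype ι] {M : Type*}
    [AddCommGroup M] [Module F M] [FiniteDimensional F M] {N : ι → Type*}
    [∀ i, AddCommGroup (N i)] [∀ i, Module F (N i)] [∀ i, FiniteDimensional F (N i)]
    (f : ∀ i, M →ₗ[F] N i) (D : ∀ i, Submodule F (N i))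
    (K : Submodule F (∀ i, N i ⧸ D i))
    (hK : ∀ x : M, (fun i => (D i).mkQ (f i x)) ∈ K) :
    finrank F M ≤ finrank F (⨅ i, (D i).comap (f i) : Submodule F M) + finrank F K := by
  have h1 := LinearMap.finrank_range_add_finrank_ker
    (LinearMap.pi fun i => (D i).mkQ.comp (f i))
  have h2 : LinearMap.ker (LinearMap.pi fun i => (D i).mkQ.comp (f i)) =
      (⨅ i, (D i).comap (f i) : Submodule F M) := by
    rw [LinearMap.ker_pi]
    refine iInf_congr fun i => ?_
    rw [LinearMap.ker_comp, Submodule.ker_mkQ]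
  have h3 : LinearMap.range (LinearMap.pi fun i => (D i).mkQ.comp (f i)) ≤ K := by
    rintro _ ⟨x, rfl⟩
    exact hK x
  have h4 := Submodule.finrank_mono h3
  rw [h2] at h1
  omega

/-- The version with a dependency. -/
private theorem gad2A_aux2 {F : Type*} [Field F] {ι : Type*} [Fintype ι] {M : Type*}
    [AddCommGroup M] [Module F M] [FiniteDimensional F M] {N : ι → Type*}
    [∀ i, AddCommGroup (N i)] [∀ i, Module F (N i)] [∀ i, FiniteDimensional F (N i)]
    {B : Type*} [AddCommGroup B] [Module F B]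
    (f : ∀ i, M →ₗ[F] N i) (D : ∀ i, Submodule F (N i))
    (sg : ∀ i, N i →ₗ[F] B) (hsg : ∀ i, D i ≤ LinearMap.ker (sg i)) (c : ι → F)
    (hsurj : ∀ w : B, ∃ z : ∀ i, N i, ∑ i, c i • sg i (z i) = w)
    (hrel : ∀ x : M, ∑ i, c i • sg i (f i x) = 0) :
    finrank F M + finrank F B ≤ finrank F (⨅ i, (D i).comap (f i) : Submodule F M) +
      ∑ i, (finrank F (N i) - finrank F (D i)) := by
  let kp : (∀ i, N i ⧸ D i) →ₗ[F] B :=
    ∑ i, c i • ((D i).liftQ (sg i) (hsg i)).comp (LinearMap.proj i)
  have hkp : ∀ z : (∀ i, N i), kp (fun i => (D i).mkQ (z i)) = ∑ i, c i • sg i (z i) := by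
    intro z
    simp only [kp, LinearMap.sum_apply, LinearMap.smul_apply, LinearMap.comp_apply,
      LinearMap.proj_apply, Submodule.mkQ_apply, Submodule.liftQ_apply]
  have hs : Function.Surjective kp := by
    intro w
    obtain ⟨z, hz⟩ := hsurj w
    exact ⟨fun i => (D i).mkQ (z i), by rw [hkp, hz]⟩
  have h1 := gad2A_aux f D (LinearMap.ker kp) (fun x => by
    rw [LinearMap.mem_ker, hkp fun i => f i x, hrel])
  have h3 := LinearMap.finrank_range_add_finrank_ker kp
  rw [LinearMap.range_eq_top.2 hs, finrank_top, Module.finrank_pi_fintype] at h3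
  have h4 : ∑ i, finrank F (N i ⧸ D i) = ∑ i, (finrank F (N i) - finrank F (D i)) :=
    Finset.sum_congr rfl fun i _ => Submodule.finrank_quotient _
  omega

/-- Functions vanishing outside a finite set. -/
private def gad2AW (F : Type*) [Field F] (A : ℕ) {α : Type*} (S : Finset α) :
    Submodule F (α → Fin A → F) where
  carrier := {y | ∀ v ∉ S, y v = 0}
  add_mem' := by
    intro a b ha hb v hv
    rw [Pi.add_apply, ha v hv, hb v hv, add_zero]
  zero_mem' := fun _ _ => rfl
  smul_mem' := by
    intro c a ha v hv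
    rw [Pi.smul_apply, ha v hv, smul_zero]

private theorem gad2A_finrankW (F : Type*) [Field F] (A : ℕ) {α : Type*} [DecidableEq α]
    (S : Finset α) : finrank F (gad2AW F A S) = S.card * A := by
  let E : gad2AW F A S ≃ₗ[F] ({v // v ∈ S} → Fin A → F) :=
    { toFun := fun y v => y.1 v.1
      invFun := fun g => ⟨fun v => if h : v ∈ S then g ⟨v, h⟩ else 0, fun v hv => dif_neg hv⟩
      map_add' := fun _ _ => rfl
      map_smul' := fun _ _ => rfl
      left_inv := by
        intro y
        ext1
        funext v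
        by_cases h : v ∈ S
        · simp [h]
        · simp only [h, dite_false]
          exact (y.2 v h).symm
      right_inv := by
        intro g
        funext v
        simp }
  rw [E.finrank_eq, Module.finrank_pi_fintype]
  simp

/-- Codimensions add up. -/
theorem finrank_iInf_comap {F : Type*} [Field F] {ι : Type*} [Fintype ι] {M : Type*}
    [AddCommGroup M] [Module F M] [FiniteDimensional F M] {N : ι → Type*}
    [∀ i, AddCommGroup (N i)] [∀ i, Module F (N i)] [∀ i, FiniteDimensional F (N i)]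
    (f : ∀ i, M →ₗ[F] N i) (D : ∀ i, Submodule F (N i)) :
    finrank F M ≤ finrank F (⨅ i, (D i).comap (f i) : Submodule F M) +
      ∑ i, (finrank F (N i) - finrank F (D i)) := by
  have h := gad2A_aux f D ⊤ (fun x => Submodule.mem_top)
  refine h.trans (Nat.add_le_add_left ?_ _)
  rw [finrank_top, Module.finrank_pi_fintype]
  refine Finset.sum_le_sum fun i _ => ?_
  rw [Submodule.finrank_quotient]

variable {k : ℕ} {X : Type*} [Fintype X] [DecidableEq X] {t : ℕ}

/-- The space of states. -/
def J0 (l A : ℕ) (Q Z : Finset (Fin k × X)) (e : Fin t → Fin k → X)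
    (D : Fin t → Submodule (ZMod l) (Fin k → Fin A → ZMod l)) :
    Submodule (ZMod l) (Fin k × X → Fin A → ZMod l) where
  carrier := {y | (∀ v ∉ Q, y v = 0) ∧ (∀ v ∈ Z, y v = 0) ∧ ∀ i, (fun j => y (j, e i j)) ∈ D i}
  add_mem' := by
    rintro a b ⟨h1, h2, h3⟩ ⟨g1, g2, g3⟩
    refine ⟨fun v hv => ?_, fun v hv => ?_, fun i => ?_⟩
    · rw [Pi.add_apply, h1 v hv, g1 v hv, add_zero]
    · rw [Pi.add_apply, h2 v hv, g2 v hv, add_zero]
    · exact (D i).add_mem (h3 i) (g3 i)
  zero_mem' := ⟨fun _ _ => rfl, fun _ _ => rfl, fun i => (D i).zero_mem⟩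
  smul_mem' := by
    rintro c a ⟨h1, h2, h3⟩
    refine ⟨fun v hv => ?_, fun v hv => ?_, fun i => ?_⟩
    · rw [Pi.smul_apply, h1 v hv, smul_zero]
    · rw [Pi.smul_apply, h2 v hv, smul_zero]
    · exact (D i).smul_mem c (h3 i)

/-- The general form of `finrank_J0`. -/
private theorem gad2A_gen {F : Type} [Field F] (hk : 3 ≤ k) (A : ℕ) (Q Z : Finset (Fin k × X))
    (hZQ : Z ⊆ Q) (e : Fin t → Fin k → X)
    (D : Fin t → Submodule F (Fin k → Fin A → F)) (zc : Fin t → ℕ)
    (J : Submodule F (Fin k × X → Fin A → F))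
    (hJ : ∀ y : Fin k × X → Fin A → F, (∀ v ∉ Q, y v = 0) → (∀ v ∈ Z, y v = 0) →
      (∀ i, (fun j => y (j, e i j)) ∈ D i) → y ∈ J)
    (hzc : ∀ i, (univ.filter fun j => (j, e i j) ∈ Z).card = zc i) (hzc1 : ∀ i, zc i ≤ 1)
    (hD0 : ∀ i, ∀ y ∈ D i, ∑ j, y j = 0)
    (hDZ : ∀ i, ∀ y ∈ D i, ∀ j, (j, e i j) ∈ Z → y j = 0)
    (dl : ℕ) (hdl : dl = 0 ∨ (dl = 1 ∧ ∃ c : Fin t → F, c ≠ 0 ∧
      ∀ v : Fin k × X, (∑ i, if e i v.1 = v.2 then c i else 0) = 0)) :
    A * (Q.card : ℤ) - A * Z.card - A * t + dl * A -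
        ∑ i, ((A : ℤ) * ((k : ℤ) - 1 - zc i) - finrank F (D i)) ≤
      finrank F J := by
  classical
  -- the subspaces
  set S : Fin t → Finset (Fin k) := fun i => univ.filter fun j => (j, e i j) ∉ Z with hS
  have hScard : ∀ i, (S i).card + zc i = k := by
    intro i
    have h1 := Finset.card_filter_add_card_filter_not (s := (univ : Finset (Fin k)))
      (fun j => (j, e i j) ∈ Z)
    rw [hzc i, Finset.card_univ, Fintype.card_fin] at h1
    have h2 : (S i).card = (univ.filter fun j => ¬ (j, e i j) ∈ Z).card := rfl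
    omega
  have hDS : ∀ i, D i ≤ gad2AW F A (S i) := by
    intro i y hy v hv
    apply hDZ i y hy v
    by_contra hc
    exact hv (by simp only [hS, mem_filter, mem_univ, true_and]; exact hc)
  let V0 : Submodule F (Fin k × X → Fin A → F) := gad2AW F A (Q \ Z)
  have hV0 : finrank F V0 = (Q \ Z).card * A := gad2A_finrankW F A (Q \ Z)
  have hQZ : (Q \ Z).card + Z.card = Q.card := Finset.card_sdiff_add_card_eq_card hZQ
  -- the evaluation maps
  let f : ∀ i, V0 →ₗ[F] gad2AW F A (S i) := fun i =>
    { toFun := fun y => ⟨fun j => y.1 (j, e i j), by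
        intro j hj
        have hj' : (j, e i j) ∈ Z := by
          by_contra hc
          exact hj (by simp only [hS, mem_filter, mem_univ, true_and]; exact hc)
        exact y.2 (j, e i j) (by simp [hj'])⟩
      map_add' := fun _ _ => rfl
      map_smul' := fun _ _ => rfl }
  let D' : ∀ i, Submodule F (gad2AW F A (S i)) := fun i => (D i).comap (gad2AW F A (S i)).subtype
  have hD' : ∀ i, finrank F (D' i) = finrank F (D i) := by
    intro i
    exact (Submodule.comapSubtypeEquivOfLe (hDS i)).finrank_eq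
  have hker : finrank F (⨅ i, (D' i).comap (f i) : Submodule F V0) ≤
      finrank F J := by
    rw [← Submodule.finrank_map_subtype_eq V0]
    refine Submodule.finrank_mono ?_
    rintro _ ⟨y, hy, rfl⟩
    have hy' : ∀ i, y ∈ (D' i).comap (f i) := (Submodule.mem_iInf _).1 hy
    exact hJ _ (fun v hv => y.2 v (by simp [hv])) (fun v hv => y.2 v (by simp [hv]))
      (fun i => hy' i)
  have hDle : ∀ i, finrank F (D i) ≤ (S i).card * A := by
    intro i
    rw [← gad2A_finrankW F A (S i)]
    exact Submodule.finrank_mono (hDS i)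
  have hmain2 : (Q \ Z).card * A + dl * A ≤ finrank F J +
      ∑ i, ((S i).card * A - finrank F (D i)) := by
    have hNr : ∑ i, (finrank F (gad2AW F A (S i)) - finrank F (D' i)) =
        ∑ i, ((S i).card * A - finrank F (D i)) := by
      refine Finset.sum_congr rfl fun i _ => ?_
      rw [gad2A_finrankW, hD']
    rcases hdl with h0 | ⟨h1, c, hc0, hc⟩
    · have h2 := finrank_iInf_comap f D'
      rw [hNr, hV0] at h2
      rw [h0]
      omega
    · -- the sum of the slots
      let sg : ∀ i, gad2AW F A (S i) →ₗ[F] (Fin A → F) := fun i =>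
        { toFun := fun z => ∑ j, z.1 j
          map_add' := fun a b => by
            simp [Finset.sum_add_distrib]
          map_smul' := fun a b => by
            simp [Finset.smul_sum] }
      have hsg : ∀ i, D' i ≤ LinearMap.ker (sg i) := by
        intro i z hz
        exact hD0 i z.1 hz
      have hrel : ∀ x : V0, ∑ i, c i • sg i (f i x) = 0 := by
        intro x
        have h2 : ∀ i, c i • sg i (f i x) =
            ∑ v : Fin k × X, (if e i v.1 = v.2 then c i else 0) • x.1 v := by
          intro i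
          have h20 : sg i (f i x) = ∑ j, x.1 (j, e i j) := rfl
          rw [h20, Fintype.sum_prod_type, Finset.smul_sum]
          refine Finset.sum_congr rfl fun j _ => ?_
          rw [Finset.sum_eq_single (e i j)]
          · rw [if_pos rfl]
          · intro b _ hb
            rw [if_neg (fun h => hb h.symm), zero_smul]
          · intro h
            exact absurd (Finset.mem_univ _) h
        rw [Finset.sum_congr rfl fun i _ => h2 i, Finset.sum_comm]
        refine Finset.sum_eq_zero fun v _ => ?_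
        rw [← Finset.sum_smul, hc v, zero_smul]
      obtain ⟨i0, hi0⟩ : ∃ i, c i ≠ 0 := by
        by_contra hcon
        push Not at hcon
        exact hc0 (funext hcon)
      obtain ⟨j0, hj0⟩ : (S i0).Nonempty := by
        rw [← Finset.card_pos]
        have := hScard i0
        have := hzc1 i0
        omega
      have hsurj : ∀ w : Fin A → F, ∃ z : ∀ i, gad2AW F A (S i),
          ∑ i, c i • sg i (z i) = w := by
        intro w
        let w0 : gad2AW F A (S i0) := ⟨fun j => if j = j0 then (c i0)⁻¹ • w else 0, by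
          intro v hv
          have : v ≠ j0 := fun h => hv (h ▸ hj0)
          simp [this]⟩
        have hw0 : sg i0 w0 = (c i0)⁻¹ • w := by
          change ∑ j, (if j = j0 then (c i0)⁻¹ • w else 0) = _
          simp
        refine ⟨Pi.single i0 w0, ?_⟩
        rw [Finset.sum_eq_single i0]
        · rw [Pi.single_eq_same, hw0, smul_smul, mul_inv_cancel₀ hi0, one_smul]
        · intro i _ hi
          rw [Pi.single_eq_of_ne hi, map_zero, smul_zero]
        · intro h
          exact absurd (Finset.mem_univ _) h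
      have h2 := gad2A_aux2 f D' sg hsg c hsurj hrel
      have h4 : finrank F (Fin A → F) = A := by simp
      rw [hNr, hV0, h4] at h2
      rw [h1]
      omega
  have hcast : ((∑ i, ((S i).card * A - finrank F (D i)) : ℕ) : ℤ) =
      ∑ i, ((A : ℤ) * ((k : ℤ) - 1 - zc i) - finrank F (D i)) + A * t := by
    rw [Nat.cast_sum]
    have h5 : ∀ i, (((S i).card * A - finrank F (D i) : ℕ) : ℤ) =
        ((A : ℤ) * ((k : ℤ) - 1 - zc i) - finrank F (D i)) + A := by
      intro i
      rw [Nat.cast_sub (hDle i), Nat.cast_mul]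
      have h6 : ((S i).card : ℤ) = k - zc i := by
        have := hScard i
        omega
      rw [h6]
      ring
    rw [Finset.sum_congr rfl fun i _ => h5 i, Finset.sum_add_distrib]
    simp [mul_comm]
  have hmain3 : ((Q \ Z).card : ℤ) * A + dl * A ≤ finrank F J +
      (∑ i, ((A : ℤ) * ((k : ℤ) - 1 - zc i) - finrank F (D i)) + A * t) := by
    rw [← hcast]
    exact_mod_cast hmain2
  have hq : ((Q \ Z).card : ℤ) = Q.card - Z.card := by omega
  rw [hq] at hmain3
  linarith

/-- Lower bound for the dimension of the space of states. Here `zc i` is the number of vertices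
of the edge `e i` in `Z`, supposed to be at most `1`, all words of `D i` have sum zero and vanish
in the slots whose vertex lies in `Z`.

PROOF. Let `F = ZMod l` and `V0` be the space of the functions vanishing outside `Q \ Z`, of
dimension `A |Q \ Z|`. Let `Y0` be the kernel of `Φ : V0 → (F^A)^t`,
`Φ(y)_i = ∑_j y(j, e i j)`; so `dim Y0 ≥ A |Q \ Z| - rank Φ`, and `rank Φ ≤ A t`. If `dep` holds
(there is `c ≠ 0` with `∑_i c_i [e i v.1 = v.2] = 0` for all `v`) then the range of `Φ` is
contained in the kernel of the surjective map `(F^A)^t → F^A`, `z ↦ ∑ c_i z_i`, since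
`∑_i c_i ∑_j y(j, e i j) = ∑_v y(v) ∑_i c_i [e i v.1 = v.2] = 0`; so `rank Φ ≤ A (t - 1)`.
For `y ∈ Y0` the word `(y(j, e i j))_j` lies in `S_i = {z : ∑ z = 0, z_j = 0 if (j, e i j) ∈ Z}`,
which has dimension `A (k - 1 - zc i)` (`k ≥ 3`) and contains `D i`. Apply `finrank_iInf_comap` to
`M = Y0`, `N i = S_i` and the subspace `D i` of `S_i` (`Submodule.comap S_i.subtype`): the
dimension of `J0` is at least `dim Y0 - ∑_i (dim S_i - dim D_i)`. -/
theorem finrank_J0 (hk : 3 ≤ k) (l A : ℕ) [Fact l.Prime] (Q Z : Finset (Fin k × X)) (hZQ : Z ⊆ Q)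
    (e : Fin t → Fin k → X) (hQ : ∀ i, Vx (e i) ⊆ Q)
    (D : Fin t → Submodule (ZMod l) (Fin k → Fin A → ZMod l)) (zc : Fin t → ℕ)
    (hzc : ∀ i, (univ.filter fun j => (j, e i j) ∈ Z).card = zc i) (hzc1 : ∀ i, zc i ≤ 1)
    (hD0 : ∀ i, ∀ y ∈ D i, ∑ j, y j = 0)
    (hDZ : ∀ i, ∀ y ∈ D i, ∀ j, (j, e i j) ∈ Z → y j = 0)
    (dl : ℕ) (hdl : dl = 0 ∨ (dl = 1 ∧ ∃ c : Fin t → ZMod l, c ≠ 0 ∧
      ∀ v : Fin k × X, (∑ i, if e i v.1 = v.2 then c i else 0) = 0)) :
    A * (Q.card : ℤ) - A * Z.card - A * t + dl * A -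
        ∑ i, ((A : ℤ) * ((k : ℤ) - 1 - zc i) - finrank (ZMod l) (D i)) ≤
      finrank (ZMod l) (J0 l A Q Z e D) := by
  refine gad2A_gen hk A Q Z hZQ e D zc (J0 l A Q Z e D) (fun y h1 h2 h3 => ⟨h1, h2, h3⟩)
    hzc hzc1 hD0 hDZ dl hdl

end

end Pool.Agent.GP2
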