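import Pool.Agent.GP2.HidA

/-!
# HID: killing all tuples with a gadget at the same time
-/

namespace Pool.Agent.GP2

open Finset

noncomputable section

/-- A subfamily of a family with `PBound` has `PBound`. -/
lemma Hid_pbound_comp {p : ℝ} (hp : 0 < p) {V : Type*} [NormedAddCommGroup V] [NormedSpace ℂ V]
    {β γ : Type*} [Fintype β] [Fintype γ] {a : γ → V} (ha : PBound p a) (f : β → γ)
    (hf : Function.Injective f) : PBound p fun b => a (f b) := by
  classical
  intro z
  have h := ha (Function.extend f z 0)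
  have h1 : ∑ c, Function.extend f z 0 c • a c = ∑ b, z b • a (f b) := by
    symm
    refine Fintype.sum_of_injective f hf _ _ ?_ ?_
    · intro c hc
      rw [Function.extend_apply' _ _ _ (by simpa [Set.mem_range] using hc)]
      simp
    · intro b
      rw [hf.extend_apply]
  have h2 : ∑ c, ‖Function.extend f z 0 c‖ ^ p = ∑ b, ‖z b‖ ^ p := by
    symm
    refine Fintype.sum_of_injective f hf _ _ ?_ ?_
    · intro c hc
      rw [Function.extend_apply' _ _ _ (by simpa [Set.mem_range] using hc)]
      simp [Real.zero_rpow hp.ne']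
    · intro b
      rw [hf.extend_apply]
  rw [h1, h2] at h
  exact h

/-- The members of a family with `PBound` have norm at most `1`. -/
lemma Hid_norm_le {p : ℝ} (hp : 0 < p) {V : Type*} [NormedAddCommGroup V] [NormedSpace ℂ V]
    {γ : Type*} [Fintype γ] {a : γ → V} (ha : PBound p a) (c : γ) : ‖a c‖ ≤ 1 := by
  have h := Hid_pbound_comp hp ha (fun _ : Unit => c) (Function.injective_of_subsingleton _)
  have h1 := h fun _ => 1
  simpa using h1

/-- A finite colouring of the bounded functions such that functions of the same colour are close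
to each other. -/
lemma Hid_colour {ι : Type} [Fintype ι] (C : ℝ) {eta : ℝ} (he : 0 < eta) :
    ∃ (κ : Type) (_ : Finite κ) (col : (ι → ℂ) → κ), ∀ x y : ι → ℂ, (∀ i, ‖x i‖ ≤ C) →
      (∀ i, ‖y i‖ ≤ C) → col x = col y → ∀ i, ‖x i - y i‖ ≤ eta := by
  classical
  by_cases hC : 0 ≤ C
  · have hb := (isCompact_closedBall (0 : ι → ℂ) C).totallyBounded
    obtain ⟨t, htf, ht⟩ := Metric.totallyBounded_iff.1 hb (eta / 2) (by positivity)
    have hfin : Finite t := htf.to_subtype
    refine ⟨Option t, inferInstance, fun x =>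
      if h : ∃ y : t, dist x y.1 < eta / 2 then some h.choose else none, ?_⟩
    intro x y hx hy hxy i
    have key : ∀ z : ι → ℂ, (∀ i, ‖z i‖ ≤ C) → ∃ y : t, dist z y.1 < eta / 2 := by
      intro z hz
      have : z ∈ Metric.closedBall (0 : ι → ℂ) C := by
        rw [mem_closedBall_zero_iff, pi_norm_le_iff_of_nonneg hC]
        exact hz
      have h2 := ht this
      simp only [Set.mem_iUnion, Metric.mem_ball] at h2
      obtain ⟨y, hy, hd⟩ := h2
      exact ⟨⟨y, hy⟩, hd⟩
    have h1 := key x hx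
    have h2 := key y hy
    simp only [dif_pos h1, dif_pos h2, Option.some.injEq] at hxy
    have h3 := h1.choose_spec
    have h4 := h2.choose_spec
    rw [← hxy] at h4
    have h5 : dist x y < eta := by
      calc dist x y ≤ dist x (h1.choose : ι → ℂ) + dist y (h1.choose : ι → ℂ) :=
            dist_triangle_right _ _ _
        _ < eta / 2 + eta / 2 := add_lt_add h3 h4
        _ = eta := by ring
    calc ‖x i - y i‖ = dist (x i) (y i) := (dist_eq_norm _ _).symm
      _ ≤ dist x y := dist_le_pi_dist x y i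
      _ ≤ eta := h5.le
  · refine ⟨Unit, inferInstance, fun _ => (), ?_⟩
    intro x y hx _ _ i
    exact absurd ((norm_nonneg _).trans (hx i)) hC

/-- The word of letters belonging to a word of letters along a combinatorial subspace. -/
def Hid_word {α L B : Type} {M N : ℕ} (l : Combinatorics.Subspace (Fin M) α (Fin N)) (ev : α → L)
    (inc : B → L) (b : Fin M → B) : Fin N → L := fun n => (l.idxFun n).elim ev fun e => inc (b e)

lemma Hid_word_inj {α L B : Type} {M N : ℕ} (l : Combinatorics.Subspace (Fin M) α (Fin N))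
    (ev : α → L) (inc : B → L) (hinc : Function.Injective inc) :
    Function.Injective (Hid_word l ev inc) := by
  intro b b' h
  funext e
  obtain ⟨n, hn⟩ := l.proper e
  have h1 := congrFun h n
  simp only [Hid_word, hn, Sum.elim_inr] at h1
  exact hinc h1

lemma Hid_word_eq {α L B J : Type} {M N : ℕ} (l : Combinatorics.Subspace (Fin M) α (Fin N))
    (ev : α → L) (inc : B → L) (st : J → α) (pr : J → B) (h : ∀ y, ev (st y) = inc (pr y))
    (y : Fin M → J) :
    (fun n => ev (l (fun e => st (y e)) n)) = Hid_word l ev inc fun e => pr (y e) := by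
  funext n
  unfold Hid_word
  cases hn : l.idxFun n with
  | inl a => rw [Combinatorics.Subspace.apply_inl hn]; rfl
  | inr e => rw [Combinatorics.Subspace.apply_inr hn]; exact h _

attribute [local instance] Gadget.gJ Gadget.fJ Gadget.gB Gadget.fB Gadget.dB

/-- The ratio of a gadget. -/
def Hid_ratio {p : ℝ} {k : ℕ} {X : Type} {E : Finset (Fin k → X)} {m : ℕ}
    {lam : Fin m → Fin k × X} (G : Gadget p E lam) : ℝ :=
  (∏ l, (Nat.card (G.pr (lam l)).range : ℝ) ^ (1 / p)) /
    Nat.card (Set.range fun (y : G.J) (l : Fin m) => G.pr (lam l) y)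

lemma Hid_ratio_nonneg {p : ℝ} {k : ℕ} {X : Type} {E : Finset (Fin k → X)} {m : ℕ}
    {lam : Fin m → Fin k × X} (G : Gadget p E lam) : 0 ≤ Hid_ratio G := by
  unfold Hid_ratio
  positivity

lemma Hid_ratio_lt {p : ℝ} {k : ℕ} {X : Type} {E : Finset (Fin k → X)} {m : ℕ}
    {lam : Fin m → Fin k × X} (G : Gadget p E lam) : Hid_ratio G < 1 := by
  unfold Hid_ratio
  have h := G.gain
  have h0 : 0 ≤ ∏ l, (Nat.card (G.pr (lam l)).range : ℝ) ^ (1 / p) := by positivity
  rw [div_lt_one (lt_of_le_of_lt h0 h)]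
  exact h

/-- Existence of the killing system.

PROOF. Let `g_t` be the gadget of `t ∈ K` (choice). Let `S = Σ t : K, J_t`, `L = Σ t : K, B_t`,
`ep ⟨t, y⟩ v = ⟨t, pr_t v y⟩`. `norm_le` is `normLE_sigma`. `S` is nonempty since `K` is. Kill: given
`C, eta, r`; for `t ∈ K` let `ρ_t < 1` be the ratio
`∏ |range|^{1/p} / |range of the tuple|` (gain). Choose `M` with `C ρ_t^M ≤ eta / 2` for all
`t ∈ K`. The set of all functions `K × Fin r → ℂ` of norm at most `C` is compact; cover it by
finitely many balls of radius `eta/4`. By the multidimensional Hales-Jewett theorem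
(`Combinatorics.Subspace.exists_mono_in_high_dimension_fin`) there is `N` such that every
colouring of the words `Fin N → S` by these balls has a monochromatic `M`-dimensional combinatorial
subspace `l`. Given `a, T` colour `s` by a ball containing the vector
`val(s) = (T i (a (t l) (ep (s n) (t l))_n))_{t, i}`; all coordinates have norm at most `C` since
`‖a v w‖ ≤ 1` by `PBound`. Let `l` be monochromatic, so that `|val(l y) - val(l y')| ≤ eta/2` for
all `y, y' : Fin M → S`. Fix any `y0 : Fin M → S` and let `s = l y0`. For `t ∈ K` and `i`: for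
`y : Fin M → J_t` we have `|val(s)_{t,i}| ≤ |val(l (⟨t, y⟩))_{t,i}| + eta/2` in the sense that
`|val(s) - average over y| ≤ eta/2`, and the average of `val(l ⟨t, y⟩)_{t,i}` over
`y ∈ J_t^M` is at most `C ρ_t^M ≤ eta/2` by `norm_avg_pow_le`, applied to
`a'_l(b) = a (t l) (w_b)`, where for `b : Fin M → B_t` the word `w_b n` is `ep s_n (t l)` if the
subspace has the constant letter `s_n` at `n`, and `⟨t, b_i⟩` if it has the `i`-th variable at `n`;
`b ↦ w_b` is injective because every variable occurs, so `PBound` for `a` gives `PBound` for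
`a'_l` (extend `z` by zero). -/
theorem exists_KSys {p : ℝ} (hp : 0 < p) {k : ℕ} (hpk : p ≤ k) {X : Type} [Fintype X]
    [DecidableEq X] (E : Finset (Fin k → X)) (K : Finset (Σ m : ℕ, Fin m → Fin k × X))
    (hKne : K.Nonempty) (hK : ∀ t ∈ K, Nonempty (Gadget p E t.2)) : Nonempty (KSys p E K) := by
  classical
  let G : ∀ t : K, Gadget p E t.1.2 := fun t => Classical.choice (hK t.1 t.2)
  obtain ⟨t0, ht0⟩ := hKne
  let ep : (Σ t : K, (G t).J) → Fin k × X → (Σ t : K, (G t).B) :=
    fun s v => ⟨s.1, (G s.1).pr v s.2⟩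
  refine ⟨{ S := Σ t : K, (G t).J, L := Σ t : K, (G t).B, nS := ⟨⟨⟨t0, ht0⟩, 0⟩⟩, ep := ep,
            norm_le := ?_, kill := ?_ }⟩
  · intro c hc
    have h := normLE_sigma hp hpk
      (fun t : K => univ.image fun (y : (G t).J) (j : Fin k) => (G t).pr (j, c j) y)
      (fun t => (G t).norm_le c hc)
    convert h using 1
    ext w
    simp only [mem_image, mem_univ, true_and, mem_biUnion, Sigma.exists, exists_exists_eq_and, ep]
  · intro C eta hC he r
    -- the dimension of the subspace
    have hM : ∀ᶠ M : ℕ in Filter.atTop, ∀ t : K, C * Hid_ratio (G t) ^ M ≤ eta / 2 := by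
      rw [Filter.eventually_all]
      intro t
      have h1 := tendsto_pow_atTop_nhds_zero_of_lt_one (Hid_ratio_nonneg (G t)) (Hid_ratio_lt (G t))
      have h2 := h1.const_mul C
      rw [mul_zero] at h2
      exact h2.eventually_le_const (by positivity)
    obtain ⟨M, hM⟩ := hM.exists
    obtain ⟨κ, hκ, col, hcol⟩ := Hid_colour (ι := K × Fin r) C (eta := eta / 2) (by positivity)
    obtain ⟨N, hN⟩ := Combinatorics.Subspace.exists_mono_in_high_dimension_fin
      (Σ t : K, (G t).J) κ (Fin M)
    refine ⟨N, ?_⟩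
    intro V _ _ a ha T hT
    let val : (Fin N → Σ t : K, (G t).J) → K × Fin r → ℂ := fun s ti =>
      T ti.2 ti.1.1.1 fun l => a (ti.1.1.2 l) fun n => ep (s n) (ti.1.1.2 l)
    have hval : ∀ s ti, ‖val s ti‖ ≤ C := by
      intro s ti
      have h1 := (T ti.2 ti.1.1.1).le_opNorm
        fun l => a (ti.1.1.2 l) fun n => ep (s n) (ti.1.1.2 l)
      have h2 : ∏ l, ‖a (ti.1.1.2 l) fun n => ep (s n) (ti.1.1.2 l)‖ ≤ 1 :=
        Finset.prod_le_one (fun _ _ => norm_nonneg _) fun l _ =>
          Hid_norm_le hp ha (ti.1.1.2 l, fun n => ep (s n) (ti.1.1.2 l))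
      calc ‖val s ti‖ ≤ _ := h1
        _ ≤ ‖T ti.2 ti.1.1.1‖ * 1 := mul_le_mul_of_nonneg_left h2 (norm_nonneg _)
        _ = ‖T ti.2 ti.1.1.1‖ := mul_one _
        _ ≤ C := hT _ _ ti.1.2
    obtain ⟨l, c0, hl⟩ := hN fun s => col (val s)
    have hclose : ∀ y y' ti, ‖val (l y) ti - val (l y') ti‖ ≤ eta / 2 := by
      intro y y' ti
      exact hcol _ _ (hval _) (hval _) ((hl y).trans (hl y').symm) ti
    let y0 : Fin M → Σ t : K, (G t).J := fun _ => ⟨⟨t0, ht0⟩, 0⟩
    refine ⟨l y0, ?_⟩
    intro i t ht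
    let g := G ⟨t, ht⟩
    let st : g.J → Σ t : K, (G t).J := fun y => ⟨⟨t, ht⟩, y⟩
    let inc : g.B → Σ t : K, (G t).B := fun b => ⟨⟨t, ht⟩, b⟩
    have hinc : Function.Injective inc := by
      intro b b' h
      simpa [inc] using h
    let a' : Fin t.1 → (Fin M → g.B) → V := fun q b =>
      a (t.2 q) (Hid_word l (fun s => ep s (t.2 q)) inc b)
    have ha' : ∀ q, PBound p (a' q) := by
      intro q
      exact Hid_pbound_comp hp ha
        (fun b => ((t.2 q, Hid_word l (fun s => ep s (t.2 q)) inc b) : (Fin k × X) × (Fin N → _)))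
        (fun b b' h => Hid_word_inj l _ inc hinc (Prod.ext_iff.1 h).2)
    have havg := norm_avg_pow_le hp (T i t.1) (fun q => g.pr (t.2 q)) M a' ha'
    have hsum : ∀ y : Fin M → g.J, T i t.1 (fun q => a' q fun e => g.pr (t.2 q) (y e)) =
        val (l fun e => st (y e)) (⟨t, ht⟩, i) := by
      intro y
      simp only [val]
      congr 1
      funext q
      simp only [a']
      congr 1
      exact (Hid_word_eq l (fun s => ep s (t.2 q)) inc st (fun y => g.pr (t.2 q) y)
        (fun y => rfl) y).symm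
    simp only [hsum] at havg
    have hcard : (Fintype.card g.J : ℂ) ^ M = (Fintype.card (Fin M → g.J) : ℂ) := by
      rw [Fintype.card_fun, Fintype.card_fin]
      push_cast
      rfl
    have hne : (Fintype.card (Fin M → g.J) : ℂ) ≠ 0 := by
      have : Nonempty (Fin M → g.J) := ⟨0⟩
      exact_mod_cast Fintype.card_ne_zero
    have hpos : (0 : ℝ) < Fintype.card (Fin M → g.J) := by
      have : Nonempty (Fin M → g.J) := ⟨0⟩
      exact_mod_cast Fintype.card_pos
    rw [hcard] at havg
    set A : ℂ := (∑ y : Fin M → g.J, val (l fun e => st (y e)) (⟨t, ht⟩, i)) /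
      (Fintype.card (Fin M → g.J) : ℂ) with hA
    have h1 : ‖A‖ ≤ eta / 2 := by
      calc ‖A‖ ≤ ‖T i t.1‖ * Hid_ratio g ^ M := havg
        _ ≤ C * Hid_ratio g ^ M :=
          mul_le_mul_of_nonneg_right (hT i t ht) (pow_nonneg (Hid_ratio_nonneg g) _)
        _ ≤ eta / 2 := hM ⟨t, ht⟩
    have h2 : ‖val (l y0) (⟨t, ht⟩, i) - A‖ ≤ eta / 2 := by
      have h3 : val (l y0) (⟨t, ht⟩, i) - A =
          (∑ y : Fin M → g.J, (val (l y0) (⟨t, ht⟩, i) -
            val (l fun e => st (y e)) (⟨t, ht⟩, i))) / (Fintype.card (Fin M → g.J) : ℂ) := by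
        rw [Finset.sum_sub_distrib, sub_div, ← hA, Finset.sum_const, Finset.card_univ,
          nsmul_eq_mul, mul_div_cancel_left₀ _ hne]
      rw [h3, norm_div, Complex.norm_natCast, div_le_iff₀ hpos]
      calc ‖∑ y : Fin M → g.J, (val (l y0) (⟨t, ht⟩, i) -
            val (l fun e => st (y e)) (⟨t, ht⟩, i))‖
          ≤ ∑ _y : Fin M → g.J, eta / 2 := norm_sum_le_of_le _ fun y _ => hclose _ _ _
        _ = eta / 2 * Fintype.card (Fin M → g.J) := by
          rw [Finset.sum_const, Finset.card_univ, nsmul_eq_mul, mul_comm]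
    calc ‖T i t.1 (fun q => a (t.2 q) (fun n => ep ((l y0) n) (t.2 q)))‖
        = ‖val (l y0) (⟨t, ht⟩, i)‖ := rfl
      _ = ‖(val (l y0) (⟨t, ht⟩, i) - A) + A‖ := by rw [sub_add_cancel]
      _ ≤ ‖val (l y0) (⟨t, ht⟩, i) - A‖ + ‖A‖ := norm_add_le _ _
      _ ≤ eta / 2 + eta / 2 := add_le_add h2 h1
      _ = eta := by ring

end

end Pool.Agent.GP2
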