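import Pool.Agent.GP2.Kil

/-!
# HID: killing all tuples with a gadget at the same time
-/

namespace Pool.Agent.GP2

open Finset

noncomputable section

/-- A system which kills the tuples of `K`: finite sets `S` (states) and `L` (letters), a letter
`ep s v` for every state and every vertex; along every edge the set of words has norm at most `1`;
and for every family of `r` forms in every degree with norms at most `C` and every `eta > 0` there is
`N` such that for every family of vectors `a v w` (`v` a vertex, `w` a word of length `N` over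
`L`) with `PBound` there is a word `s` of states such that all the coefficients of the forms at the
tuples of `K`, read along `s`, are at most `eta`. -/
structure KSys (p : ℝ) {k : ℕ} {X : Type} [Fintype X] (E : Finset (Fin k → X))
    (K : Finset (Σ m : ℕ, Fin m → Fin k × X)) where
  /-- states -/
  S : Type
  /-- letters -/
  L : Type
  [fS : Fintype S]
  [nS : Nonempty S]
  [fL : Fintype L]
  [dL : DecidableEq L]
  /-- the letter at a vertex -/
  ep : S → Fin k × X → L
  norm_le : ∀ c ∈ E, NormLE p (univ.image fun (s : S) (j : Fin k) => ep s (j, c j)) 1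
  kill : ∀ (C eta : ℝ), 0 ≤ C → 0 < eta → ∀ r : ℕ, ∃ N : ℕ,
    ∀ (V : Type) [NormedAddCommGroup V] [NormedSpace ℂ V] (a : Fin k × X → (Fin N → L) → V),
      (PBound p fun b : (Fin k × X) × (Fin N → L) => a b.1 b.2) →
      ∀ T : Fin r → (m : ℕ) → ContinuousMultilinearMap ℂ (fun _ : Fin m => V) ℂ,
      (∀ i, ∀ t ∈ K, ‖T i t.1‖ ≤ C) →
      ∃ s : Fin N → S, ∀ i, ∀ t ∈ K,
        ‖T i t.1 (fun l => a (t.2 l) (fun n => ep (s n) (t.2 l)))‖ ≤ eta

theorem HidA_sum_biUnion_le {α β : Type*} [DecidableEq α] [DecidableEq β] (s : Finset α)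
    (t : α → Finset β) (f : β → ℝ) (hf : ∀ b, 0 ≤ f b) :
    ∑ b ∈ s.biUnion t, f b ≤ ∑ a ∈ s, ∑ b ∈ t a, f b := by
  induction s using Finset.induction_on with
  | empty => simp
  | insert a s ha ih =>
    rw [Finset.biUnion_insert, Finset.sum_insert ha]
    have h := Finset.sum_union_inter (s₁ := t a) (s₂ := s.biUnion t) (f := f)
    have h2 : 0 ≤ ∑ b ∈ t a ∩ s.biUnion t, f b := Finset.sum_nonneg fun b _ => hf b
    linarith

theorem HidA_sum_image_le {α β : Type*} [DecidableEq α] [DecidableEq β] (s : Finset α)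
    (g : α → β) (f : β → ℝ) (hf : ∀ b, 0 ≤ f b) :
    ∑ b ∈ s.image g, f b ≤ ∑ a ∈ s, f (g a) := by
  induction s using Finset.induction_on with
  | empty => simp
  | insert a s ha ih =>
    rw [Finset.image_insert, Finset.sum_insert ha]
    by_cases h : g a ∈ s.image g
    · rw [Finset.insert_eq_of_mem h]
      have := hf (g a)
      linarith
    · rw [Finset.sum_insert h]
      linarith

/-- Hoelder's inequality with `k ≥ p` factors. -/
theorem HidA_holder {p : ℝ} (hp : 0 < p) {k : ℕ} (hpk : p ≤ k) {κ : Type} [Fintype κ]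
    (A : Fin k → κ → ℝ) (hA : ∀ j i, 0 ≤ A j i) :
    ∑ i, ∏ j, A j i ^ (1 / p) ≤ ∏ j, (∑ i, A j i) ^ (1 / p) := by
  classical
  have hk : (0 : ℝ) < k := hp.trans_le hpk
  have hk0 : k ≠ 0 := by
    rintro rfl
    simp at hk
  by_cases hz : ∃ j, ∑ i, A j i = 0
  · obtain ⟨j, hj⟩ := hz
    have h0 : ∀ i, A j i = 0 := by
      intro i
      exact (Finset.sum_eq_zero_iff_of_nonneg fun i _ => hA j i).1 hj i (Finset.mem_univ _)
    have h1 : ∑ i, ∏ j, A j i ^ (1 / p) = 0 := by
      refine Finset.sum_eq_zero fun i _ => Finset.prod_eq_zero (Finset.mem_univ j) ?_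
      rw [h0 i, Real.zero_rpow (by positivity)]
    rw [h1]
    exact Finset.prod_nonneg fun j _ => Real.rpow_nonneg (Finset.sum_nonneg fun i _ => hA j i) _
  · have hs : ∀ j, 0 < ∑ i, A j i := by
      intro j
      refine lt_of_le_of_ne (Finset.sum_nonneg fun i _ => hA j i) fun h => hz ⟨j, h.symm⟩
    set s : Fin k → ℝ := fun j => ∑ i, A j i with hsdef
    have hu : ∀ j i, 0 ≤ A j i / s j := fun j i => div_nonneg (hA j i) (hs j).le
    have hu1 : ∀ j i, A j i / s j ≤ 1 := by
      intro j i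
      rw [div_le_one (hs j)]
      exact Finset.single_le_sum (f := fun i => A j i) (fun i _ => hA j i) (Finset.mem_univ i)
    have key : ∑ i, ∏ j, (A j i / s j) ^ (1 / p) ≤ 1 := by
      have h1 : ∀ i ∈ (Finset.univ : Finset κ), ∏ j, (A j i / s j) ^ (1 / p) ≤
          ∑ j : Fin k, (1 / k : ℝ) * (A j i / s j) := by
        intro i _
        have h2 : ∏ j, (A j i / s j) ^ (1 / p) ≤ ∏ j : Fin k, (A j i / s j) ^ (1 / k : ℝ) := by
          refine Finset.prod_le_prod (fun j _ => Real.rpow_nonneg (hu j i) _) fun j _ => ?_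
          rcases eq_or_lt_of_le (hu j i) with h | h
          · rw [← h, Real.zero_rpow (by positivity), Real.zero_rpow (by positivity)]
          · exact Real.rpow_le_rpow_of_exponent_ge h (hu1 j i)
              (one_div_le_one_div_of_le hp hpk)
        refine h2.trans ?_
        refine Real.geom_mean_le_arith_mean_weighted _ _ _ (fun j _ => by positivity) ?_
          (fun j _ => hu j i)
        rw [Finset.sum_const, Finset.card_univ, Fintype.card_fin, nsmul_eq_mul]
        field_simp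
      refine (Finset.sum_le_sum h1).trans ?_
      rw [Finset.sum_comm]
      have h3 : ∀ j ∈ (Finset.univ : Finset (Fin k)), ∑ i, (1 / k : ℝ) * (A j i / s j) = 1 / k := by
        intro j _
        rw [← Finset.mul_sum, ← Finset.sum_div]
        change (1 / k : ℝ) * (s j / s j) = 1 / k
        rw [div_self (hs j).ne', mul_one]
      rw [Finset.sum_congr rfl h3, Finset.sum_const, Finset.card_univ, Fintype.card_fin,
        nsmul_eq_mul]
      have : (k : ℝ) ≠ 0 := hk.ne'
      field_simp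
      exact le_refl _
    have e : ∀ i, ∏ j, A j i ^ (1 / p) = (∏ j, s j ^ (1 / p)) * ∏ j, (A j i / s j) ^ (1 / p) := by
      intro i
      rw [← Finset.prod_mul_distrib]
      refine Finset.prod_congr rfl fun j _ => ?_
      rw [← Real.mul_rpow (hs j).le (hu j i), mul_div_cancel₀ _ (hs j).ne']
    rw [Finset.sum_congr rfl fun i _ => e i, ← Finset.mul_sum]
    have h4 : 0 ≤ ∏ j, s j ^ (1 / p) :=
      Finset.prod_nonneg fun j _ => Real.rpow_nonneg (hs j).le _
    calc (∏ j, s j ^ (1 / p)) * ∑ i, ∏ j, (A j i / s j) ^ (1 / p)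
        ≤ (∏ j, s j ^ (1 / p)) * 1 := mul_le_mul_of_nonneg_left key h4
      _ = ∏ j, (∑ i, A j i) ^ (1 / p) := by rw [mul_one]

/-- Block diagonal sets of words: if all `S_i` have norm at most `1` then so has their disjoint
union (with tagged letters).

PROOF. `∑_i ∑_{c ∈ S_i} ∏_j x_j(i, c_j) ≤ ∑_i ∏_j ‖x_j(i, ·)‖_p ≤ ∏_j (∑_i ‖x_j(i,·)‖_p^p)^{1/p}`; the
last step: with `a_{j,i} = ‖x_j(i,·)‖_p`, normalised so that `∑_i a_{j,i}^p = 1`,
`∑_i ∏_j a_{j,i} ≤ ∑_i ∏_j (a_{j,i}^p)^{1/k} ≤ ∑_i (1/k) ∑_j a_{j,i}^p = 1` as `k ≥ p`. -/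
theorem normLE_sigma {p : ℝ} (hp : 0 < p) {k : ℕ} (hpk : p ≤ k) {κ : Type} [Fintype κ]
    [DecidableEq κ] {B : κ → Type} [∀ i, Fintype (B i)] [∀ i, DecidableEq (B i)]
    (S : ∀ i, Finset (Fin k → B i)) (hS : ∀ i, NormLE p (S i) 1) :
    NormLE p (univ.biUnion fun i => (S i).image fun c j => (⟨i, c j⟩ : Σ i, B i)) 1 := by
  classical
  intro x hx
  have hle : ∑ c ∈ (univ.biUnion fun i => (S i).image fun (c : Fin k → B i) (j : Fin k) =>
      (⟨i, c j⟩ : Σ i, B i)), ∏ j, x j (c j) ≤ ∑ i, ∑ c ∈ S i, ∏ j, x j ⟨i, c j⟩ := by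
    have hnn : ∀ c : Fin k → Σ i, B i, 0 ≤ ∏ j, x j (c j) := fun c =>
      Finset.prod_nonneg fun j _ => hx j _
    refine (HidA_sum_biUnion_le _ _ _ hnn).trans ?_
    refine Finset.sum_le_sum fun i _ => ?_
    exact HidA_sum_image_le _ _ _ hnn
  refine hle.trans ?_
  have h1 : ∀ i ∈ (Finset.univ : Finset κ), ∑ c ∈ S i, ∏ j, x j ⟨i, c j⟩ ≤
      ∏ j, (∑ y : B i, x j ⟨i, y⟩ ^ p) ^ (1 / p) := by
    intro i _
    have h := hS i (fun j y => x j ⟨i, y⟩) (fun j y => hx j _)
    rwa [one_mul] at h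
  refine (Finset.sum_le_sum h1).trans ?_
  refine (HidA_holder hp hpk (fun j i => ∑ y : B i, x j ⟨i, y⟩ ^ p)
    (fun j i => Finset.sum_nonneg fun y _ => Real.rpow_nonneg (hx j _) _)).trans ?_
  rw [one_mul]
  refine le_of_eq (Finset.prod_congr rfl fun j _ => ?_)
  rw [Fintype.sum_sigma]

end

end Pool.Agent.GP2
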