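import Pool.Agent.helper68.Gl.Main

/-!
# HOM: from finite approximations to characters
-/

namespace Pool.Agent.GP2

open Finset Metric
open Pool.Agent.helper68.Gl

noncomputable section

section homnet

variable {X : Type} [NormedAddCommGroup X] [NormedSpace ℂ X] {ι : Type} {U : Ultrafilter ι}

lemma hom_lim {u : ι → ℂ} {C : ℝ} (h : ∀ i, ‖u i‖ ≤ C) :
    ∃ l, Filter.Tendsto u (U : Filter ι) (nhds l) := by
  have hc : IsCompact (closedBall (0 : ℂ) C) := isCompact_closedBall _ _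
  obtain ⟨x, -, hx⟩ := hc.ultrafilter_le_nhds (U.map u) (by
    rw [Filter.le_principal_iff]
    exact Filter.mem_map.2 (Filter.univ_mem' fun N => by
      rw [Set.mem_preimage, mem_closedBall_zero_iff]; exact h N))
  exact ⟨x, hx⟩

/-- The mean of a function of the algebra along a net of finite laws. -/
def homE {Z : ι → Type} [∀ i, Fintype (Z i)] (x : ∀ i, Z i → ball (0 : X) 1)
    (w : ∀ i, Z i → ℝ) (f : AuBall X) (i : ι) : ℂ := EC (w i) (fun z => f.1 (x i z))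

variable {Z : ι → Type} [∀ i, Fintype (Z i)] {x : ∀ i, Z i → ball (0 : X) 1}
  {w : ∀ i, Z i → ℝ}

lemma hom_bound (hw : ∀ i z, 0 ≤ w i z) (hw1 : ∀ i, ∑ z, w i z = 1) (f : AuBall X) :
    ∃ C : ℝ, ∀ i, ‖homE x w f i‖ ≤ C := by
  obtain ⟨C, hC⟩ := bounded_of_uc f.2.2
  exact ⟨C, fun i => norm_EC_le_of_le (hw i) (hw1 i) fun z => hC _⟩

lemma hom_mul (hw : ∀ i z, 0 ≤ w i z) (hw1 : ∀ i, ∑ z, w i z = 1) (f g h : AuBall X)
    (hh : ∀ y, h.1 y = f.1 y * g.1 y)
    (hvar : ∀ η : ℝ, 0 < η → ∀ᶠ i in (U : Filter ι),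
      ER (w i) (fun z => ‖f.1 (x i z) - EC (w i) (fun z => f.1 (x i z))‖ ^ 2) ≤ η) :
    Filter.Tendsto (fun i => homE x w h i - homE x w f i * homE x w g i) (U : Filter ι)
      (nhds 0) := by
  obtain ⟨M, hM⟩ := bounded_of_uc g.2.2
  have hM0 : 0 ≤ M := (norm_nonneg _).trans (hM ⟨0, by simp⟩)
  rw [Metric.tendsto_nhds]
  intro e he
  set η : ℝ := e / (4 * (M + 1)) with hη
  have hη0 : 0 < η := by positivity
  filter_upwards [hvar (η ^ 2) (by positivity)] with i hi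
  have hc := cov_le (hw i) (hw1 i) (fun z => f.1 (x i z)) (fun z => g.1 (x i z))
    (fun z => hM _) hi hη0
  rw [dist_zero_right]
  have e1 : homE x w h i = EC (w i) (fun z => f.1 (x i z) * g.1 (x i z)) := by
    unfold homE
    congr 1
    funext z
    rw [hh]
  rw [e1]
  refine lt_of_le_of_lt hc ?_
  have e2 : η + η ^ 2 / η = 2 * η := by field_simp; ring
  rw [e2]
  calc M * (2 * η) ≤ (M + 1) * (2 * η) := by gcongr; linarith
    _ = e / 2 := by rw [hη]; field_simp; ring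
    _ < e := by linarith

/-- The character attached to a net of finite laws with small variances. -/
lemma hom_chr (hw : ∀ i z, 0 ≤ w i z) (hw1 : ∀ i, ∑ z, w i z = 1)
    (hvar : ∀ f : AuBall X, ∀ η : ℝ, 0 < η → ∀ᶠ i in (U : Filter ι),
      ER (w i) (fun z => ‖f.1 (x i z) - EC (w i) (fun z => f.1 (x i z))‖ ^ 2) ≤ η) :
    ∃ φ : SpecAu X, ∀ f, Filter.Tendsto (homE x w f) (U : Filter ι) (nhds (φ.val f)) := by
  have hlim : ∀ f : AuBall X, ∃ l, Filter.Tendsto (homE x w f) (U : Filter ι) (nhds l) := by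
    intro f
    obtain ⟨C, hC⟩ := hom_bound (x := x) hw hw1 f
    exact hom_lim hC
  choose v hv using hlim
  refine ⟨⟨v, ?_, ?_, ?_, ?_⟩, hv⟩
  · intro f g h hh
    refine tendsto_nhds_unique (hv h) (((hv f).add (hv g)).congr fun i => ?_)
    unfold homE
    rw [← EC_add]
    congr 1
    funext z
    rw [hh]
  · intro c f h hh
    refine tendsto_nhds_unique (hv h) (((hv f).const_mul c).congr fun i => ?_)
    unfold homE
    rw [← EC_mul_left]
    congr 1
    funext z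
    rw [hh]
  · intro f g h hh
    have h1 := (hom_mul hw hw1 f g h hh (hvar f)).add ((hv f).mul (hv g))
    rw [zero_add] at h1
    refine tendsto_nhds_unique (hv h) (h1.congr fun i => ?_)
    ring
  · refine ⟨oneAu X, ?_⟩
    have h1 : Filter.Tendsto (homE x w (oneAu X)) (U : Filter ι) (nhds 1) := by
      refine tendsto_const_nhds.congr fun i => ?_
      unfold homE
      rw [← EC_const (hw1 i) 1]
      rfl
    rw [tendsto_nhds_unique (hv (oneAu X)) h1]
    exact one_ne_zero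

end homnet

/-- The finite approximation property. -/
def FinApprox (X : Type) [NormedAddCommGroup X] [NormedSpace ℂ X] : Prop :=
  ∃ Fh Ph : AuBall X, (∀ x, ‖Fh.1 x‖ ≤ 1) ∧ Fh.1 ⟨0, mem_ball_self one_pos⟩ = 0 ∧
    ∀ (eps : ℝ), 0 < eps → ∀ (FF : Finset (AuBall X)) (LL : Finset (X →L[ℂ] ℂ)),
    ∃ (Z : Type) (_ : Fintype Z) (x : Z → ball (0 : X) 1) (w0 w1 : Z → ℝ),
      (∀ z, 0 ≤ w0 z) ∧ (∀ z, 0 ≤ w1 z) ∧ ∑ z, w0 z = 1 ∧ ∑ z, w1 z = 1 ∧
      (∀ f ∈ FF, ER w0 (fun z => ‖f.1 (x z) - EC w0 (fun z => f.1 (x z))‖ ^ 2) ≤ eps ∧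
        ER w1 (fun z => ‖f.1 (x z) - EC w1 (fun z => f.1 (x z))‖ ^ 2) ≤ eps) ∧
      (∀ f ∈ FF, (∀ y, ‖f.1 y‖ ≤ 1) →
        ‖EC w1 (fun z => f.1 (x z)) - EC w0 (fun z => f.1 (x z))‖ ≤ 1 + eps) ∧
      (∀ l ∈ LL, ‖EC w0 (fun z => l (x z))‖ ≤ eps ∧ ‖EC w1 (fun z => l (x z))‖ ≤ eps) ∧
      ‖EC w0 (fun z => Fh.1 (x z)) - 1‖ ≤ eps ∧ ‖EC w1 (fun z => Fh.1 (x z)) - 1‖ ≤ eps ∧
      ‖EC w0 (fun z => Ph.1 (x z))‖ ≤ eps ∧ ‖EC w1 (fun z => Ph.1 (x z)) - 1 / 4‖ ≤ eps

/-- The conclusion.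

PROOF. Index set `I = Finset (AuBall X) × Finset (X →L[ℂ] ℂ) × ℕ`, directed by inclusion and `≤`;
let `U` be an ultrafilter on `I` finer than `atTop` (`Ultrafilter.of`). For `i = (FF, LL, N)` choose
`Z_i, x_i, w0_i, w1_i` with `eps = 1/(N+1)`. For `f : AuBall X` put
`psi(f) = lim_U EC w0_i (f ∘ x_i)` and `phi(f) = lim_U EC w1_i (f ∘ x_i)` (bounded families have
limits along ultrafilters, as `ulim` in helper68's `Char.lean`). Additivity and homogeneity are
clear (no condition on `i`). Multiplicativity: for `i` with `f ∈ FF` the variance of `f ∘ x_i` is at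
most `1/(N+1)`, so with `cov_le` (`η = (N+1)^{-1/2}`) `EC (f g) - EC f EC g → 0` along `atTop`. The
function `1` goes to `1`. Fibre: if `f = l` on the ball then `EC (f ∘ x_i) = EC (l ∘ x_i) → 0`.
`SameGleason phi psi` with `c = 1`: `‖phi f - psi f‖ ≤ lim (1 + 1/(N+1)) = 1`. `phi Ph = 1/4`,
`psi Ph = 0`, so `phi ≠ psi`. `phi Fh = 1`, `Fh 0 = 0`, so `phi` is not in the part of `evalZero`:
as at the end of `shared_of_data` in helper68's `Main.lean` (`samePart_rho`, `samePart_transfer`). -/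
theorem shared_of_finApprox {X : Type} [NormedAddCommGroup X] [NormedSpace ℂ X]
    (h : FinApprox X) : Shared X := by
  classical
  obtain ⟨Fh, Ph, hF1, hF0, hd⟩ := h
  have hpos : ∀ n : ℕ, (0 : ℝ) < 1 / ((n : ℝ) + 1) := fun n => by positivity
  choose Z hZ x w0 w1 hw0 hw1 hs0 hs1 hvar hclose hfib hf0 hf1 hp0 hp1 using
    fun i : Finset (AuBall X) × Finset (X →L[ℂ] ℂ) × ℕ =>
      hd (1 / ((i.2.2 : ℝ) + 1)) (hpos i.2.2) i.1 i.2.1
  set U : Ultrafilter (Finset (AuBall X) × Finset (X →L[ℂ] ℂ) × ℕ) :=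
    Ultrafilter.of Filter.atTop with hU
  have hUle : (U : Filter (Finset (AuBall X) × Finset (X →L[ℂ] ℂ) × ℕ)) ≤ Filter.atTop :=
    Ultrafilter.of_le _
  -- small errors
  have hsm : ∀ η : ℝ, 0 < η → ∀ᶠ i : Finset (AuBall X) × Finset (X →L[ℂ] ℂ) × ℕ in
      (U : Filter _), 1 / ((i.2.2 : ℝ) + 1) ≤ η := by
    intro η hη
    obtain ⟨n, hn⟩ := exists_nat_one_div_lt hη
    refine hUle ?_
    filter_upwards [Filter.eventually_ge_atTop
      ((∅, ∅, n) : Finset (AuBall X) × Finset (X →L[ℂ] ℂ) × ℕ)] with i hi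
    have h1 : n ≤ i.2.2 := hi.2.2
    have h2 : (n : ℝ) ≤ (i.2.2 : ℝ) := by exact_mod_cast h1
    refine le_trans ?_ hn.le
    exact one_div_le_one_div_of_le (by positivity) (by linarith)
  have hmemF : ∀ f : AuBall X, ∀ᶠ i : Finset (AuBall X) × Finset (X →L[ℂ] ℂ) × ℕ in
      (U : Filter _), f ∈ i.1 := by
    intro f
    refine hUle ?_
    filter_upwards [Filter.eventually_ge_atTop
      (({f}, ∅, 0) : Finset (AuBall X) × Finset (X →L[ℂ] ℂ) × ℕ)] with i hi
    exact hi.1 (Finset.mem_singleton_self f)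
  have hmemL : ∀ l : X →L[ℂ] ℂ, ∀ᶠ i : Finset (AuBall X) × Finset (X →L[ℂ] ℂ) × ℕ in
      (U : Filter _), l ∈ i.2.1 := by
    intro l
    refine hUle ?_
    filter_upwards [Filter.eventually_ge_atTop
      ((∅, {l}, 0) : Finset (AuBall X) × Finset (X →L[ℂ] ℂ) × ℕ)] with i hi
    exact hi.2.1 (Finset.mem_singleton_self l)
  have htend : ∀ (u : Finset (AuBall X) × Finset (X →L[ℂ] ℂ) × ℕ → ℂ) (a : ℂ),
      (∀ᶠ i in (U : Filter _), ‖u i - a‖ ≤ 1 / ((i.2.2 : ℝ) + 1)) →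
      Filter.Tendsto u (U : Filter _) (nhds a) := by
    intro u a hu
    rw [Metric.tendsto_nhds]
    intro e he
    filter_upwards [hu, hsm (e / 2) (by positivity)] with i h1 h2
    rw [dist_eq_norm]
    linarith
  obtain ⟨ψ, hψ⟩ := hom_chr (U := U) (x := x) (w := w0) hw0 hs0 (by
    intro f η hη
    filter_upwards [hmemF f, hsm η hη] with i h1 h2
    exact (hvar i f h1).1.trans h2)
  obtain ⟨φ, hφ⟩ := hom_chr (U := U) (x := x) (w := w1) hw1 hs1 (by
    intro f η hη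
    filter_upwards [hmemF f, hsm η hη] with i h1 h2
    exact (hvar i f h1).2.trans h2)
  have vF : φ.val Fh = 1 := tendsto_nhds_unique (hφ Fh)
    (htend _ _ (Filter.Eventually.of_forall fun i => hf1 i))
  have vP1 : φ.val Ph = 1 / 4 := tendsto_nhds_unique (hφ Ph)
    (htend _ _ (Filter.Eventually.of_forall fun i => hp1 i))
  have vP0 : ψ.val Ph = 0 := tendsto_nhds_unique (hψ Ph)
    (htend _ _ (Filter.Eventually.of_forall fun i => by
      rw [sub_zero]
      exact hp0 i))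
  refine ⟨φ, ψ, ?_, ?_, ?_, ?_, ?_⟩
  · intro heq
    rw [heq, vP0] at vP1
    norm_num at vP1
  · intro l f hf
    refine tendsto_nhds_unique (hφ f) (htend _ _ ?_)
    filter_upwards [hmemL l] with i hi
    rw [sub_zero]
    have h1 := (hfib i l hi).2
    unfold homE
    simp only [hf]
    exact h1
  · intro l f hf
    refine tendsto_nhds_unique (hψ f) (htend _ _ ?_)
    filter_upwards [hmemL l] with i hi
    rw [sub_zero]
    have h1 := (hfib i l hi).1
    unfold homE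
    simp only [hf]
    exact h1
  · refine ⟨1, by norm_num, fun f hf => ?_⟩
    refine le_of_forall_pos_le_add fun e he => ?_
    refine le_of_tendsto ((hφ f).sub (hψ f)).norm ?_
    filter_upwards [hmemF f, hsm e he] with i h1 h2
    exact (hclose i f h1 hf).trans (by linarith)
  · intro hs
    rw [sameGleason_iff, evalZero_toAlg] at hs
    obtain ⟨ρ, hρ0, hρ1, hρ⟩ := samePart_rho hs
    have ht := samePart_transfer hρ0 hρ1 hρ (⟨Fh.1, Fh.2⟩ : Au X) hF1
    have v1 : φ.toAlg (⟨Fh.1, Fh.2⟩ : Au X) = 1 := vF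
    have v2 : delta0 X (⟨Fh.1, Fh.2⟩ : Au X) = 0 := hF0
    rw [v1, v2, sub_self, norm_zero, mul_zero, sub_zero, norm_one] at ht
    linarith

end

end Pool.Agent.GP2
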