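import Pool.Agent.GP2.KilA

/-!
# KIL: averages of multilinear forms over groups of states
-/

namespace Pool.Agent.GP2

open Finset

noncomputable section

/-- The average over the states.

PROOF. The average over `y ∈ J` is the average over the range of `y ↦ (pr l y)_l` (all fibres have
the same size), so this follows from `norm_sum_range_le`. -/
theorem norm_avg_le {p : ℝ} (hp : 0 < p) {V : Type*} [NormedAddCommGroup V]
    [NormedSpace ℂ V] {m : ℕ} (T : ContinuousMultilinearMap ℂ (fun _ : Fin m => V) ℂ)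
    {J B : Type} [AddCommGroup J] [Fintype J] [AddCommGroup B] [Fintype B] [DecidableEq B]
    (pr : Fin m → J →+ B) (a : Fin m → B → V) (ha : ∀ l, PBound p (a l)) :
    ‖(∑ y : J, T (fun l => a l (pr l y))) / (Fintype.card J : ℂ)‖ ≤
      ‖T‖ * ((∏ l, (Nat.card (pr l).range : ℝ) ^ (1 / p)) /
        Nat.card (Set.range fun (y : J) (l : Fin m) => pr l y)) := by
  classical
  obtain ⟨φ, hφ⟩ : ∃ φ : J →+ (Fin m → B), φ = AddMonoidHom.pi pr := ⟨_, rfl⟩
  have hφ' : (fun (y : J) (l : Fin m) => pr l y) = φ := by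
    rw [hφ]; rfl
  have h := norm_sum_range_le hp T pr a ha
  obtain ⟨g, hg⟩ : ∃ g : (Fin m → B) → ℂ, g = fun r => T (fun l => a l (r l)) := ⟨_, rfl⟩
  have hgy : ∀ y : J, T (fun l => a l (pr l y)) = g (φ y) := by
    intro y
    rw [hg, ← hφ']
  have hgr : ∀ r : Fin m → B, T (fun l => a l (r l)) = g r := fun r => by rw [hg]
  simp only [hgr] at h
  rw [hφ'] at h ⊢
  rw [Finset.sum_congr rfl fun y _ => hgy y]
  obtain ⟨K, hK⟩ : ∃ K : ℕ, K = (univ.filter fun y : J => φ y = 0).card := ⟨_, rfl⟩
  have hK0 : 0 < K := by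
    rw [hK]
    exact Finset.card_pos.2 ⟨0, by simp⟩
  have hfib : ∀ r ∈ univ.image φ, (univ.filter fun y : J => φ y = r).card = K := by
    intro r hr
    rw [hK]
    obtain ⟨y, _, hy⟩ := Finset.mem_image.1 hr
    exact AddMonoidHom.card_fiber_eq_of_mem_range φ ⟨y, hy⟩ ⟨0, map_zero φ⟩
  have hsum : ∑ y : J, g (φ y) = (K : ℂ) * ∑ r ∈ univ.image φ, g r := by
    rw [← Finset.sum_fiberwise_of_maps_to (s := univ) (t := univ.image φ) (g := φ)
      (fun y _ => Finset.mem_image_of_mem _ (Finset.mem_univ y)), Finset.mul_sum]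
    refine Finset.sum_congr rfl fun r hr => ?_
    rw [Finset.sum_congr rfl (fun y hy => by rw [(Finset.mem_filter.1 hy).2] : ∀ y ∈
      univ.filter (fun y : J => φ y = r), g (φ y) = g r), Finset.sum_const, hfib r hr, nsmul_eq_mul]
  have hcard : (Fintype.card J : ℂ) = K * (univ.image φ).card := by
    have h1 : Fintype.card J = K * (univ.image φ).card := by
      rw [← Finset.card_univ, Finset.card_eq_sum_card_image φ, Finset.sum_congr rfl hfib,
        Finset.sum_const, smul_eq_mul, mul_comm]
    rw [h1]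
    push_cast
    ring
  have hrange : Nat.card (Set.range φ) = (univ.image φ).card := by
    rw [Nat.card_coe_set_eq, ← Set.ncard_coe_finset, Finset.coe_image, Finset.coe_univ,
      Set.image_univ]
  have hpos : 0 < (univ.image φ).card := Finset.card_pos.2 ⟨φ 0, Finset.mem_image_of_mem _ (Finset.mem_univ 0)⟩
  have hKC : (K : ℂ) ≠ 0 := by exact_mod_cast hK0.ne'
  rw [hsum, hcard, mul_div_mul_left _ _ hKC, norm_div, hrange, ← mul_div_assoc]
  have h3 : ‖((univ.image φ).card : ℂ)‖ = ((univ.image φ).card : ℝ) := by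
    simp
  rw [h3]
  exact div_le_div_of_nonneg_right h (Nat.cast_nonneg _)

/-- The average over `M` independent states: the ratio is raised to the power `M`.

PROOF. `norm_avg_le` for the group `Fin M → J` and the homomorphisms `y ↦ (pr l (y i))_i`, whose
ranges are the `M`-th powers of the ranges. -/
theorem norm_avg_pow_le {p : ℝ} (hp : 0 < p) {V : Type*} [NormedAddCommGroup V]
    [NormedSpace ℂ V] {m : ℕ} (T : ContinuousMultilinearMap ℂ (fun _ : Fin m => V) ℂ)
    {J B : Type} [AddCommGroup J] [Fintype J] [AddCommGroup B] [Fintype B] [DecidableEq B]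
    (pr : Fin m → J →+ B) (M : ℕ) (a : Fin m → (Fin M → B) → V) (ha : ∀ l, PBound p (a l)) :
    ‖(∑ y : Fin M → J, T (fun l => a l (fun i => pr l (y i)))) / ((Fintype.card J : ℂ) ^ M)‖ ≤
      ‖T‖ * ((∏ l, (Nat.card (pr l).range : ℝ) ^ (1 / p)) /
        Nat.card (Set.range fun (y : J) (l : Fin m) => pr l y)) ^ M := by
  classical
  have h := norm_avg_le hp T (fun l => (pr l).compLeft (Fin M)) a ha
  have hc : (Fintype.card (Fin M → J) : ℂ) = (Fintype.card J : ℂ) ^ M := by
    rw [Fintype.card_fun, Fintype.card_fin]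
    push_cast
    rfl
  have hr : ∀ l, Nat.card ((pr l).compLeft (Fin M)).range = Nat.card (pr l).range ^ M := by
    intro l
    have e : ((pr l).compLeft (Fin M)).range ≃ (Fin M → (pr l).range) :=
      { toFun := fun x i => ⟨x.1 i, by
          obtain ⟨y, hy⟩ := x.2
          exact ⟨y i, by rw [← hy]; rfl⟩⟩
        invFun := fun x => ⟨fun i => (x i).1, by
          refine ⟨fun i => (x i).2.choose, ?_⟩
          funext i
          exact (x i).2.choose_spec⟩
        left_inv := fun x => rfl
        right_inv := fun x => rfl }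
    rw [Nat.card_congr e, Nat.card_pi, Finset.prod_const, Finset.card_univ, Fintype.card_fin]
  have hs : Nat.card (Set.range fun (y : Fin M → J) (l : Fin m) => (pr l).compLeft (Fin M) y) =
      Nat.card (Set.range fun (y : J) (l : Fin m) => pr l y) ^ M := by
    have e : (Set.range fun (y : Fin M → J) (l : Fin m) => (pr l).compLeft (Fin M) y) ≃
        (Fin M → Set.range fun (y : J) (l : Fin m) => pr l y) :=
      { toFun := fun x i => ⟨fun l => x.1 l i, by
          obtain ⟨y, hy⟩ := x.2
          exact ⟨y i, by rw [← hy]; rfl⟩⟩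
        invFun := fun x => ⟨fun l i => (x i).1 l, by
          refine ⟨fun i => (x i).2.choose, ?_⟩
          funext l i
          exact congrFun (x i).2.choose_spec l⟩
        left_inv := fun x => rfl
        right_inv := fun x => rfl }
    rw [Nat.card_congr e, Nat.card_pi, Finset.prod_const, Finset.card_univ, Fintype.card_fin]
  rw [hc, hs] at h
  refine le_trans (le_of_eq ?_) (h.trans (le_of_eq ?_))
  · rfl
  · congr 1
    rw [div_pow, ← Finset.prod_pow]
    congr 1
    · refine Finset.prod_congr rfl fun l _ => ?_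
      rw [hr l]
      push_cast
      rw [← Real.rpow_natCast, ← Real.rpow_natCast, ← Real.rpow_mul (Nat.cast_nonneg _),
        ← Real.rpow_mul (Nat.cast_nonneg _), mul_comm]
    · push_cast
      rfl

end

end Pool.Agent.GP2
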