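import Pool.Agent.GP2.Defs

/-!
# KIL: averages of multilinear forms over groups of states
-/

namespace Pool.Agent.GP2

open Finset

noncomputable section

/-- The unconditional bound for a finite family of vectors: `‖∑ z_b a_b‖ ≤ (∑ |z_b|^p)^{1/p}`. -/
def PBound (p : ℝ) {V : Type*} [NormedAddCommGroup V] [NormedSpace ℂ V] {β : Type*} [Fintype β]
    (a : β → V) : Prop :=
  ∀ z : β → ℂ, ‖∑ b, z b • a b‖ ≤ (∑ b, ‖z b‖ ^ p) ^ (1 / p)

/-- An additive character maps finite sums to products. -/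
lemma kilA_map_sum {A ι : Type*} [AddCommGroup A] (ψ : AddChar A ℂ) (s : Finset ι) (f : ι → A) :
    ψ (∑ i ∈ s, f i) = ∏ i ∈ s, ψ (f i) := by
  classical
  induction s using Finset.induction_on with
  | empty => simp
  | insert i s hi ih => rw [sum_insert hi, prod_insert hi, AddChar.map_add_eq_mul, ih]

/-- The sum of a function which vanishes outside a subgroup. -/
lemma kilA_sum_sub {M B : Type*} [AddCommMonoid M] [AddCommGroup B] [Fintype B]
    (H : AddSubgroup B) [Fintype H] (F : B → M) (hF : ∀ b, b ∉ H → F b = 0) :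
    ∑ b, F b = ∑ h : H, F (h : B) := by
  classical
  have h1 : ∑ b, F b = ∑ b ∈ univ.filter (fun b => b ∈ H), F b := by
    symm
    apply sum_subset (filter_subset _ _)
    intro b _ hb
    apply hF
    intro hb'
    exact hb (by simp [hb'])
  rw [h1]
  exact Finset.sum_subtype _ (fun b => by simp) F

/-- `PBound` for a family of unimodular coefficients on a subgroup. -/
lemma kilA_norm_le {p : ℝ} (hp : 0 < p) {V : Type*} [NormedAddCommGroup V]
    [NormedSpace ℂ V] {B : Type} [AddCommGroup B] [Fintype B]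
    (a : B → V) (ha : PBound p a) (H : AddSubgroup B) [Fintype H] (z : H → ℂ)
    (hz : ∀ h, ‖z h‖ = 1) :
    ‖∑ h : H, z h • a (h : B)‖ ≤ (Nat.card H : ℝ) ^ (1 / p) := by
  classical
  have h := ha (fun b => if hb : b ∈ H then z ⟨b, hb⟩ else 0)
  have e1 : ∑ b, (if hb : b ∈ H then z ⟨b, hb⟩ else 0) • a b = ∑ h : H, z h • a (h : B) := by
    rw [kilA_sum_sub H]
    · refine sum_congr rfl fun h _ => ?_
      rw [dif_pos h.2]
    · intro b hb
      rw [dif_neg hb, zero_smul]
  have e2 : ∑ b, ‖(if hb : b ∈ H then z ⟨b, hb⟩ else 0)‖ ^ p = (Nat.card H : ℝ) := by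
    rw [kilA_sum_sub H]
    · rw [Nat.card_eq_fintype_card, ← Finset.card_univ, Finset.card_eq_sum_ones]
      push_cast
      refine sum_congr rfl fun h _ => ?_
      rw [dif_pos h.2, hz, Real.one_rpow]
    · intro b hb
      rw [dif_neg hb, norm_zero, Real.zero_rpow hp.ne']
  rw [e1, e2] at h
  exact h

/-- The sum of a multilinear form over a subgroup.

PROOF. Let `G_l = range (pr l) ≤ B`, `G = ∏ G_l` and let `R ≤ G` be the range of
`y ↦ (pr l y)_l`. For `g ∈ G` the orthogonality relations for the finite abelian group `G ⧸ R`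
(Mathlib `AddChar.sum_apply_eq_ite`) give `∑_ψ ψ(g + R) = |G/R| 1[g ∈ R]`, the sum over all
characters `ψ` of `G ⧸ R`. Hence
`|G/R| ∑_{g ∈ R} T(a_l(g_l)) = ∑_ψ ∑_{g ∈ G} ψ(g) T(a_l(g_l)) = ∑_ψ T(∑_{h ∈ G_l} ψ_l(h) a_l(h))`
where `ψ_l(h) = ψ` of the element with `l`-th component `h` and other components `0`,
`ψ(g) = ∏ ψ_l(g_l)`, `|ψ_l(h)| = 1`. By `PBound` every term is at most `‖T‖ ∏ |G_l|^{1/p}`, and there
are `|G/R|` characters. -/
theorem norm_sum_range_le {p : ℝ} (hp : 0 < p) {V : Type*} [NormedAddCommGroup V]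
    [NormedSpace ℂ V] {m : ℕ} (T : ContinuousMultilinearMap ℂ (fun _ : Fin m => V) ℂ)
    {J B : Type} [AddCommGroup J] [Fintype J] [AddCommGroup B] [Fintype B] [DecidableEq B]
    (pr : Fin m → J →+ B) (a : Fin m → B → V) (ha : ∀ l, PBound p (a l)) :
    ‖∑ r ∈ univ.image (fun (y : J) (l : Fin m) => pr l y), T (fun l => a l (r l))‖ ≤
      ‖T‖ * ∏ l, (Nat.card (pr l).range : ℝ) ^ (1 / p) := by
  classical
  let φ : J →+ ((l : Fin m) → (pr l).range) := AddMonoidHom.pi fun l => (pr l).rangeRestrict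
  let R : AddSubgroup ((l : Fin m) → (pr l).range) := φ.range
  let Q := ((l : Fin m) → (pr l).range) ⧸ R
  let T' : ((l : Fin m) → (pr l).range) → ℂ := fun g => T fun l => a l (g l : B)
  have hφ : ∀ y l, ((φ y l : (pr l).range) : B) = pr l y := fun y l => rfl
  -- the sum over the image is the sum over `R`
  have s1 : ∑ r ∈ univ.image (fun (y : J) (l : Fin m) => pr l y), T (fun l => a l (r l)) =
      ∑ g ∈ univ.filter (fun g => g ∈ R), T' g := by
    symm
    refine sum_bij (fun g _ => fun l => (g l : B)) ?_ ?_ ?_ ?_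
    · intro g hg
      obtain ⟨y, hy⟩ := (mem_filter.1 hg).2
      refine mem_image.2 ⟨y, mem_univ _, ?_⟩
      funext l
      rw [← hφ, hy]
    · intro g _ g' _ h
      funext l
      exact Subtype.ext (congrFun h l)
    · intro r hr
      obtain ⟨y, _, hy⟩ := mem_image.1 hr
      refine ⟨φ y, mem_filter.2 ⟨mem_univ _, y, rfl⟩, ?_⟩
      rw [← hy]
      rfl
    · intro g _
      rfl
  have hQ : (0 : ℝ) < Fintype.card Q := by exact_mod_cast Fintype.card_pos
  -- orthogonality
  have s2 : (Fintype.card Q : ℂ) * ∑ g ∈ univ.filter (fun g => g ∈ R), T' g =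
      ∑ ψ : AddChar Q ℂ, ∑ g, ψ (QuotientAddGroup.mk g) * T' g := by
    rw [sum_comm, mul_sum, sum_filter]
    refine sum_congr rfl fun g _ => ?_
    rw [← sum_mul, AddChar.sum_apply_eq_ite]
    by_cases hg : g ∈ R
    · rw [if_pos hg, if_pos ((QuotientAddGroup.eq_zero_iff g).2 hg)]
    · rw [if_neg hg, if_neg (fun h => hg ((QuotientAddGroup.eq_zero_iff g).1 h)), zero_mul]
  -- every character
  have s3 : ∀ ψ : AddChar Q ℂ, ‖∑ g, ψ (QuotientAddGroup.mk g) * T' g‖ ≤
      ‖T‖ * ∏ l, (Nat.card (pr l).range : ℝ) ^ (1 / p) := by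
    intro ψ
    let z : (l : Fin m) → (pr l).range → ℂ := fun l h => ψ (QuotientAddGroup.mk (Pi.single l h))
    have hψ : ∀ g : (l : Fin m) → (pr l).range,
        ψ (QuotientAddGroup.mk g) = ∏ l, z l (g l) := by
      intro g
      have h1 : (QuotientAddGroup.mk g : Q) = ∑ l, (QuotientAddGroup.mk (Pi.single l (g l)) : Q) := by
        have h2 : g = ∑ l, Pi.single l (g l) := (Finset.univ_sum_single g).symm
        have h3 := congrArg (QuotientAddGroup.mk' R) h2
        rw [map_sum] at h3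
        exact h3
      rw [h1, kilA_map_sum]
    have e1 : ∑ g, ψ (QuotientAddGroup.mk g) * T' g =
        T fun l => ∑ h : (pr l).range, z l h • a l (h : B) := by
      have := T.map_sum (α := fun l => (pr l).range) (fun l h => z l h • a l (h : B))
      rw [this]
      refine sum_congr rfl fun g _ => ?_
      rw [hψ g, T.map_smul_univ, smul_eq_mul]
    rw [e1]
    refine (T.le_opNorm _).trans ?_
    refine mul_le_mul_of_nonneg_left ?_ (norm_nonneg _)
    refine prod_le_prod (fun l _ => norm_nonneg _) fun l _ => ?_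
    exact kilA_norm_le hp (a l) (ha l) _ _ fun h => ψ.norm_apply _
  have s4 : (Fintype.card Q : ℝ) * ‖∑ g ∈ univ.filter (fun g => g ∈ R), T' g‖ ≤
      (Fintype.card Q : ℝ) * (‖T‖ * ∏ l, (Nat.card (pr l).range : ℝ) ^ (1 / p)) := by
    calc (Fintype.card Q : ℝ) * ‖∑ g ∈ univ.filter (fun g => g ∈ R), T' g‖
        = ‖(Fintype.card Q : ℂ) * ∑ g ∈ univ.filter (fun g => g ∈ R), T' g‖ := by
          rw [norm_mul, Complex.norm_natCast]
      _ = ‖∑ ψ : AddChar Q ℂ, ∑ g, ψ (QuotientAddGroup.mk g) * T' g‖ := by rw [s2]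
      _ ≤ ∑ ψ : AddChar Q ℂ, ‖∑ g, ψ (QuotientAddGroup.mk g) * T' g‖ := norm_sum_le _ _
      _ ≤ ∑ _ψ : AddChar Q ℂ, ‖T‖ * ∏ l, (Nat.card (pr l).range : ℝ) ^ (1 / p) :=
          sum_le_sum fun ψ _ => s3 ψ
      _ = (Fintype.card Q : ℝ) * (‖T‖ * ∏ l, (Nat.card (pr l).range : ℝ) ^ (1 / p)) := by
          rw [sum_const, card_univ, AddChar.card_eq, nsmul_eq_mul]
  rw [s1]
  exact le_of_mul_le_mul_left s4 hQ

end

end Pool.Agent.GP2
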