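import Pool.Agent.GP2.Defs
import Pool.Agent.helper68.Gl.Prod

/-!
# LAW: the laws of the random characters
-/

namespace Pool.Agent.GP2

open Finset
open Pool.Agent.helper68.Gl
open scoped ComplexConjugate

noncomputable section

variable {n : ℕ} [NeZero n]

/-- The standard character `a ↦ exp (2 π i a / n)` of `ZMod n`. -/
def ch (a : ZMod n) : ℂ := ZMod.stdAddChar a

theorem norm_ch (a : ZMod n) : ‖ch a‖ = 1 := by
  unfold ch
  exact AddChar.norm_apply _ _

theorem ch_add (a b : ZMod n) : ch (a + b) = ch a * ch b := by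
  unfold ch
  exact AddChar.map_add_eq_mul _ _ _

theorem Law_ch_zero : ch (0 : ZMod n) = 1 := by
  unfold ch
  exact AddChar.map_zero_eq_one _

theorem Law_ch_mul_conj (a : ZMod n) : ch a * conj (ch a) = 1 := by
  rw [Complex.mul_conj, Complex.normSq_eq_norm_sq, norm_ch]
  simp

theorem Law_ch_ne_one {a : ZMod n} (ha : a ≠ 0) : ch a ≠ 1 := by
  intro h
  apply ha
  unfold ch at h
  apply ZMod.injective_stdAddChar
  rw [h]
  exact (AddChar.map_zero_eq_one _).symm

theorem Law_ch_sum {ι : Type*} (s : Finset ι) (f : ι → ZMod n) :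
    ch (∑ i ∈ s, f i) = ∏ i ∈ s, ch (f i) := by
  classical
  induction s using Finset.induction_on with
  | empty => simp [Law_ch_zero]
  | insert a s ha ih => rw [Finset.sum_insert ha, Finset.prod_insert ha, ch_add, ih]

theorem Law_sum_ch_mul {k : ZMod n} (hk : k ≠ 0) : ∑ a : ZMod n, ch (k * a) = 0 := by
  have h1 : ch k * ∑ a : ZMod n, ch (k * a) = ∑ a : ZMod n, ch (k * a) := by
    rw [Finset.mul_sum]
    calc ∑ a : ZMod n, ch k * ch (k * a) = ∑ a : ZMod n, ch (k * (a + 1)) := by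
          refine Finset.sum_congr rfl fun a _ => ?_
          rw [← ch_add]
          congr 1
          ring
      _ = ∑ a : ZMod n, ch (k * a) := by
          have := Equiv.sum_comp (Equiv.addRight (1 : ZMod n)) (fun b => ch (k * b))
          simpa only [Equiv.coe_addRight] using this
  have h2 : (ch k - 1) * ∑ a : ZMod n, ch (k * a) = 0 := by
    rw [sub_mul, one_mul, h1, sub_self]
  rcases mul_eq_zero.1 h2 with h | h
  · exact absurd (sub_eq_zero.1 h) (Law_ch_ne_one hk)
  · exact h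

/-- The law on `ZMod n` with `E ch = lam`: `w(a) = (1 + 2 Re(conj lam ch a)) / n`. -/
def w1 (n : ℕ) [NeZero n] (lam : ℂ) (a : ZMod n) : ℝ := (1 + 2 * (conj lam * ch a).re) / n

/-- The product law on `Fin T → ZMod n`. -/
def wT (n : ℕ) [NeZero n] (T : ℕ) (lam : ℂ) (a : Fin T → ZMod n) : ℝ := ∏ τ, w1 n lam (a τ)

theorem Law_w1_nonneg {lam : ℂ} (h : ‖lam‖ ≤ 1 / 2) (a : ZMod n) : 0 ≤ w1 n lam a := by
  unfold w1
  refine div_nonneg ?_ (Nat.cast_nonneg _)
  have h1 : |(conj lam * ch a).re| ≤ ‖conj lam * ch a‖ := Complex.abs_re_le_norm _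
  rw [norm_mul, norm_ch, mul_one, Complex.norm_conj] at h1
  have h2 := (abs_le.1 h1).1
  linarith

theorem wT_nonneg {lam : ℂ} (h : ‖lam‖ ≤ 1 / 2) (T : ℕ) (a : Fin T → ZMod n) :
    0 ≤ wT n T lam a :=
  Finset.prod_nonneg fun _ _ => Law_w1_nonneg h _

theorem Law_w1_coe (lam : ℂ) (a : ZMod n) :
    ((w1 n lam a : ℝ) : ℂ) = (1 + conj lam * ch a + lam * conj (ch a)) / n := by
  unfold w1
  have h : ((2 * (conj lam * ch a).re : ℝ) : ℂ) = conj lam * ch a + lam * conj (ch a) := by
    have h1 := Complex.add_conj (conj lam * ch a)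
    rw [map_mul, Complex.conj_conj] at h1
    rw [h1]
  push_cast at h ⊢
  rw [h]
  ring

omit [NeZero n] in
theorem Law_one_ne (hn : 3 ≤ n) : (1 : ZMod n) ≠ 0 := by
  have : Fact (1 < n) := ⟨by omega⟩
  exact one_ne_zero

omit [NeZero n] in
theorem Law_two_ne (hn : 3 ≤ n) : (2 : ZMod n) ≠ 0 := by
  intro h
  have h1 : ((2 : ℕ) : ZMod n) = 0 := by exact_mod_cast h
  rw [ZMod.natCast_eq_zero_iff] at h1
  have := Nat.le_of_dvd (by norm_num) h1
  omega

theorem Law_sum_ch (hn : 3 ≤ n) : ∑ a : ZMod n, ch a = 0 := by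
  have := Law_sum_ch_mul (Law_one_ne hn)
  simpa using this

theorem Law_sum_conj_ch (hn : 3 ≤ n) : ∑ a : ZMod n, conj (ch a) = 0 := by
  rw [← map_sum, Law_sum_ch hn, map_zero]

theorem Law_sum_ch_sq (hn : 3 ≤ n) : ∑ a : ZMod n, ch a * ch a = 0 := by
  have := Law_sum_ch_mul (Law_two_ne hn)
  rw [← this]
  refine Finset.sum_congr rfl fun a _ => ?_
  rw [← ch_add, two_mul]

theorem Law_n_ne : (n : ℂ) ≠ 0 := by
  exact_mod_cast NeZero.ne n

/-- total mass one -/
theorem Law_E_one (hn : 3 ≤ n) (lam : ℂ) : ∑ a : ZMod n, ((w1 n lam a : ℝ) : ℂ) = 1 := by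
  simp only [Law_w1_coe]
  rw [← Finset.sum_div, Finset.sum_add_distrib, Finset.sum_add_distrib, ← Finset.mul_sum,
    ← Finset.mul_sum, Law_sum_ch hn, Law_sum_conj_ch hn]
  simp only [mul_zero, add_zero, Finset.sum_const, Finset.card_univ, ZMod.card, nsmul_eq_mul,
    mul_one]
  exact div_self Law_n_ne

/-- mean of the character -/
theorem Law_E_ch (hn : 3 ≤ n) (lam : ℂ) : ∑ a : ZMod n, ((w1 n lam a : ℝ) : ℂ) * ch a = lam := by
  have h : ∀ a : ZMod n, ((w1 n lam a : ℝ) : ℂ) * ch a =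
      (ch a + conj lam * (ch a * ch a) + lam) / n := by
    intro a
    rw [Law_w1_coe]
    have h1 := Law_ch_mul_conj a
    have : (1 + conj lam * ch a + lam * conj (ch a)) / n * ch a =
        (ch a + conj lam * (ch a * ch a) + lam * (ch a * conj (ch a))) / n := by ring
    rw [this, h1, mul_one]
  simp only [h]
  rw [← Finset.sum_div, Finset.sum_add_distrib, Finset.sum_add_distrib, ← Finset.mul_sum,
    Law_sum_ch hn, Law_sum_ch_sq hn]
  simp only [mul_zero, zero_add, Finset.sum_const, Finset.card_univ, ZMod.card, nsmul_eq_mul]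
  rw [mul_comm, mul_div_assoc, div_self Law_n_ne, mul_one]

theorem Law_E_conj (hn : 3 ≤ n) (lam : ℂ) :
    ∑ a : ZMod n, ((w1 n lam a : ℝ) : ℂ) * conj (ch a) = conj lam := by
  have h := congrArg conj (Law_E_ch hn lam)
  rw [map_sum] at h
  rw [← h]
  refine Finset.sum_congr rfl fun a _ => ?_
  rw [map_mul, Complex.conj_ofReal]

/-- Product law. -/
theorem Law_prod (lam : ℂ) {T : ℕ} (f : Fin T → ZMod n → ℂ) :
    EC (wT n T lam) (fun a => ∏ τ, f τ (a τ)) =
      ∏ τ, ∑ b : ZMod n, ((w1 n lam b : ℝ) : ℂ) * f τ b := by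
  unfold EC wT
  rw [Finset.prod_univ_sum (fun _ : Fin T => (Finset.univ : Finset (ZMod n)))
    (fun τ b => ((w1 n lam b : ℝ) : ℂ) * f τ b), Fintype.piFinset_univ]
  refine Finset.sum_congr rfl fun a _ => ?_
  rw [Finset.prod_mul_distrib]
  push_cast
  rfl

theorem wT_sum (hn : 3 ≤ n) (lam : ℂ) (T : ℕ) : ∑ a, wT n T lam a = 1 := by
  have h := Law_prod (n := n) lam (T := T) (fun _ _ => 1)
  simp only [Finset.prod_const_one, mul_one, Law_E_one hn] at h
  unfold EC at h
  simp only [mul_one] at h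
  exact_mod_cast h

/-- The character of a set of coordinates. -/
def chA {T : ℕ} (A : Finset (Fin T)) (a : Fin T → ZMod n) : ℂ := ch (∑ τ ∈ A, a τ)

theorem Law_chA_eq {T : ℕ} (A : Finset (Fin T)) (a : Fin T → ZMod n) :
    chA A a = ∏ τ, if τ ∈ A then ch (a τ) else 1 := by
  unfold chA
  rw [Law_ch_sum, Finset.prod_ite_mem]
  simp

theorem Law_norm_chA {T : ℕ} (A : Finset (Fin T)) (a : Fin T → ZMod n) : ‖chA A a‖ = 1 :=
  norm_ch _

/-- `E chA = lam^{|A|}`.

PROOF. The product law factorises: `∏_{τ ∈ A} ∑_a w1(a) ch a` and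
`∑_a (1 + conj lam ch a + lam conj (ch a)) ch a / n = lam` since `∑ ch a = 0` and
`∑ ch (2 a) = 0` for `n ≥ 3`, `ch a conj (ch a) = 1`. -/
theorem EC_chA (hn : 3 ≤ n) (lam : ℂ) {T : ℕ} (A : Finset (Fin T)) :
    EC (wT n T lam) (chA A) = lam ^ A.card := by
  have h1 : (chA A : (Fin T → ZMod n) → ℂ) =
      fun a => ∏ τ, (fun (τ : Fin T) (b : ZMod n) => if τ ∈ A then ch b else 1) τ (a τ) := by
    funext a
    exact Law_chA_eq A a
  rw [h1]
  refine (Law_prod lam (fun (τ : Fin T) (b : ZMod n) => if τ ∈ A then ch b else 1)).trans ?_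
  have h2 : ∀ τ : Fin T, ∑ b : ZMod n, ((w1 n lam b : ℝ) : ℂ) * (if τ ∈ A then ch b else 1) =
      if τ ∈ A then lam else 1 := by
    intro τ
    split_ifs with h
    · exact Law_E_ch hn lam
    · simp only [mul_one]
      exact Law_E_one hn lam
  simp only [h2]
  rw [Finset.prod_ite_mem]
  simp

/-- Characters of disjoint sets are uncorrelated.

PROOF. Product law. -/
theorem EC_chA_conj (hn : 3 ≤ n) (lam : ℂ) {T : ℕ} (A A' : Finset (Fin T)) (h : Disjoint A A') :
    EC (wT n T lam) (fun a => chA A a * conj (chA A' a)) =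
      EC (wT n T lam) (chA A) * conj (EC (wT n T lam) (chA A')) := by
  have h1 : (fun a : Fin T → ZMod n => chA A a * conj (chA A' a)) =
      fun a => ∏ τ, (fun (τ : Fin T) (b : ZMod n) =>
        (if τ ∈ A then ch b else 1) * (if τ ∈ A' then conj (ch b) else 1)) τ (a τ) := by
    funext a
    rw [Law_chA_eq, Law_chA_eq, map_prod, ← Finset.prod_mul_distrib]
    refine Finset.prod_congr rfl fun τ _ => ?_
    simp only
    congr 1
    split_ifs
    · rfl
    · exact map_one _
  rw [h1, EC_chA hn, EC_chA hn, map_pow]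
  refine (Law_prod lam (fun (τ : Fin T) (b : ZMod n) =>
        (if τ ∈ A then ch b else 1) * (if τ ∈ A' then conj (ch b) else 1))).trans ?_
  have h2 : ∀ τ : Fin T, ∑ b : ZMod n, ((w1 n lam b : ℝ) : ℂ) *
      ((if τ ∈ A then ch b else 1) * (if τ ∈ A' then conj (ch b) else 1)) =
      (if τ ∈ A then lam else 1) * (if τ ∈ A' then conj lam else 1) := by
    intro τ
    by_cases hA : τ ∈ A
    · have hA' : τ ∉ A' := Finset.disjoint_left.1 h hA
      simp only [hA, hA', if_true, if_false, mul_one]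
      exact Law_E_ch hn lam
    · by_cases hA' : τ ∈ A'
      · simp only [hA, hA', if_true, if_false, one_mul]
        exact Law_E_conj hn lam
      · simp only [hA, hA', if_false, mul_one]
        exact Law_E_one hn lam
  simp only [h2]
  rw [Finset.prod_mul_distrib, Finset.prod_ite_mem, Finset.prod_ite_mem]
  simp

theorem Law_EC_sum {Ω : Type*} [Fintype Ω] (W : Ω → ℝ) {ι : Type*} (s : Finset ι)
    (F : ι → Ω → ℂ) : EC W (fun a => ∑ i ∈ s, F i a) = ∑ i ∈ s, EC W (F i) := by
  unfold EC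
  rw [Finset.sum_comm]
  refine Finset.sum_congr rfl fun a _ => ?_
  rw [Finset.mul_sum]

/-- Variance of a combination of characters.

PROOF. `Var = ∑_{i, i'} co_i conj(co_{i'}) (E chA_i conj chA_{i'} - E chA_i conj E chA_{i'})`; the
terms with disjoint `A_i, A_{i'}` vanish and the others are at most `2 |co_i| |co_{i'}|`. -/
theorem var_chA (hn : 3 ≤ n) {lam : ℂ} (hl : ‖lam‖ ≤ 1 / 2) {T : ℕ} {ι : Type*} (s : Finset ι)
    (co : ι → ℂ) (A : ι → Finset (Fin T)) :
    ER (wT n T lam) (fun a => ‖(∑ i ∈ s, co i * chA (A i) a) -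
        EC (wT n T lam) (fun a => ∑ i ∈ s, co i * chA (A i) a)‖ ^ 2) ≤
      2 * ∑ x ∈ (s ×ˢ s).filter (fun x => ¬ Disjoint (A x.1) (A x.2)), ‖co x.1‖ * ‖co x.2‖ := by
  have hW : ∀ a, 0 ≤ wT n T lam a := wT_nonneg hl T
  have hW1 : ∑ a, wT n T lam a = 1 := wT_sum hn lam T
  set W := wT n T lam with hWdef
  set F : (Fin T → ZMod n) → ℂ := fun a => ∑ i ∈ s, co i * chA (A i) a with hF
  set m : ℂ := EC W F with hm
  have hmsum : m = ∑ i ∈ s, co i * EC W (chA (A i)) := by
    rw [hm, hF, Law_EC_sum]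
    exact Finset.sum_congr rfl fun i _ => EC_mul_left _ _
  -- complex form of the variance
  have h1 : ((ER W (fun a => ‖F a - m‖ ^ 2) : ℝ) : ℂ) =
      EC W (fun a => F a * conj (F a)) - m * conj m := by
    have e1 : ((ER W (fun a => ‖F a - m‖ ^ 2) : ℝ) : ℂ) =
        EC W (fun a => (F a - m) * conj (F a - m)) := by
      unfold ER EC
      push_cast
      refine Finset.sum_congr rfl fun a _ => ?_
      rw [Complex.mul_conj, Complex.normSq_eq_norm_sq]
      push_cast
      rfl
    have e2 : (fun a => (F a - m) * conj (F a - m)) =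
        fun a => (F a * conj (F a) - conj m * F a) - (m * conj (F a) - m * conj m) := by
      funext a
      rw [map_sub]
      ring
    have e3 : EC W (fun a => conj (F a)) = conj m := by
      rw [hm]
      unfold EC
      rw [map_sum]
      refine Finset.sum_congr rfl fun a _ => ?_
      rw [map_mul, Complex.conj_ofReal]
    rw [e1, e2, EC_sub, EC_sub, EC_sub, EC_mul_left, EC_mul_left, EC_const hW1, e3, ← hm]
    ring
  have h2 : EC W (fun a => F a * conj (F a)) - m * conj m =
      ∑ x ∈ s ×ˢ s, co x.1 * conj (co x.2) *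
        (EC W (fun a => chA (A x.1) a * conj (chA (A x.2) a)) -
          EC W (chA (A x.1)) * conj (EC W (chA (A x.2)))) := by
    have e1 : (fun a => F a * conj (F a)) = fun a => ∑ x ∈ s ×ˢ s,
        (co x.1 * conj (co x.2)) * (chA (A x.1) a * conj (chA (A x.2) a)) := by
      funext a
      rw [hF]
      simp only [map_sum, map_mul]
      rw [Finset.sum_mul_sum, Finset.sum_product]
      refine Finset.sum_congr rfl fun i _ => Finset.sum_congr rfl fun j _ => ?_
      ring
    have e2 : m * conj m = ∑ x ∈ s ×ˢ s, (co x.1 * conj (co x.2)) *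
        (EC W (chA (A x.1)) * conj (EC W (chA (A x.2)))) := by
      rw [hmsum]
      simp only [map_sum, map_mul]
      rw [Finset.sum_mul_sum, Finset.sum_product]
      refine Finset.sum_congr rfl fun i _ => Finset.sum_congr rfl fun j _ => ?_
      ring
    rw [e1, e2, Law_EC_sum, ← Finset.sum_sub_distrib]
    refine Finset.sum_congr rfl fun x _ => ?_
    rw [EC_mul_left]
    ring
  have h3 : ER W (fun a => ‖F a - m‖ ^ 2) ≤
      ‖EC W (fun a => F a * conj (F a)) - m * conj m‖ := by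
    rw [← h1, Complex.norm_real]
    exact le_abs_self _
  refine h3.trans ?_
  rw [h2, Finset.mul_sum, Finset.sum_filter]
  refine (norm_sum_le _ _).trans (Finset.sum_le_sum fun x _ => ?_)
  by_cases hd : Disjoint (A x.1) (A x.2)
  · have e := EC_chA_conj hn lam _ _ hd
    rw [← hWdef] at e
    rw [e, sub_self, mul_zero, norm_zero]
    simp [hd]
  · rw [if_pos hd]
    have b1 : ‖EC W (fun a => chA (A x.1) a * conj (chA (A x.2) a))‖ ≤ 1 :=
      norm_EC_le_of_le hW hW1 fun a => by
        rw [norm_mul, Complex.norm_conj, Law_norm_chA, Law_norm_chA, one_mul]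
    have b2 : ∀ B : Finset (Fin T), ‖EC W (chA B)‖ ≤ 1 := fun B =>
      norm_EC_le_of_le hW hW1 fun a => (Law_norm_chA B a).le
    have b3 : ‖EC W (fun a => chA (A x.1) a * conj (chA (A x.2) a)) -
          EC W (chA (A x.1)) * conj (EC W (chA (A x.2)))‖ ≤ 2 := by
      refine (norm_sub_le _ _).trans ?_
      rw [norm_mul, Complex.norm_conj]
      have := mul_le_mul (b2 (A x.1)) (b2 (A x.2)) (norm_nonneg _) zero_le_one
      linarith
    rw [norm_mul, norm_mul, Complex.norm_conj]
    have := mul_le_mul_of_nonneg_left b3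
      (mul_nonneg (norm_nonneg (co x.1)) (norm_nonneg (co x.2)))
    linarith

/-- A polynomial bounded by `M` on the disc of radius `1/2` moves by at most `M` from `0` to `1/4`.

PROOF. `Complex.dist_le_div_mul_dist_of_mapsTo_ball` (Schwarz lemma): `g` maps the disc of
radius `1/2` into the disc of centre `g 0` and any radius `> 2 M`, so
`|g(1/4) - g(0)| ≤ (2 M + δ) (1/4) / (1/2)`. Or Cauchy's inequalities for the coefficients. -/
theorem schwarz_quarter {ι : Type*} (s : Finset ι) (co : ι → ℂ) (d : ι → ℕ) {M : ℝ}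
    (h : ∀ lam : ℂ, ‖lam‖ ≤ 1 / 2 → ‖∑ i ∈ s, co i * lam ^ d i‖ ≤ M) :
    ‖(∑ i ∈ s, co i * (1 / 4 : ℂ) ^ d i) - ∑ i ∈ s, co i * (0 : ℂ) ^ d i‖ ≤ M := by
  set g : ℂ → ℂ := fun lam => ∑ i ∈ s, co i * lam ^ d i with hg
  have hdiff : Differentiable ℂ g := by
    rw [hg]
    fun_prop
  refine le_of_forall_pos_le_add fun δ hδ => ?_
  have hmaps : Set.MapsTo g (Metric.ball (0 : ℂ) (1 / 2)) (Metric.ball (g 0) (2 * M + 2 * δ)) := by
    intro z hz
    rw [Metric.mem_ball, dist_zero_right] at hz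
    rw [Metric.mem_ball, dist_eq_norm]
    have h1 := h z hz.le
    have h2 := h 0 (by simp)
    have h3 := norm_sub_le (g z) (g 0)
    have h1' : ‖g z‖ ≤ M := h1
    have h2' : ‖g 0‖ ≤ M := h2
    linarith
  have hz : (1 / 4 : ℂ) ∈ Metric.ball (0 : ℂ) (1 / 2) := by
    rw [Metric.mem_ball, dist_zero_right]
    norm_num
  have := Complex.dist_le_div_mul_dist_of_mapsTo_ball (hdiff.differentiableOn)
    (hmaps.mono_right Metric.ball_subset_closedBall) hz
  rw [dist_eq_norm, dist_zero_right] at this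
  have e : (2 * M + 2 * δ) / (1 / 2) * ‖(1 / 4 : ℂ)‖ = M + δ := by
    norm_num
    ring
  rw [e] at this
  exact this

end

end Pool.Agent.GP2
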