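import Pool.Agent.GP2.LocA

/-!
# LOC: sparse hypergraphs have norm at most one
-/

namespace Pool.Agent.GP2

open Finset

noncomputable section

variable {k : ℕ} {X : Type*} [Fintype X] [DecidableEq X]

/-- Gibbs' inequality for one letter. -/
lemma Loc_gibbs {p P x : ℝ} (hP : 0 ≤ P) (hx : 0 ≤ x) (h0 : x = 0 → P = 0) :
    Real.negMulLog P ≤ -(p * (P * Real.log x)) + x ^ p - P := by
  rcases hP.eq_or_lt with h | h
  · rw [← h]
    simp [Real.rpow_nonneg hx]
  · have hx' : 0 < x := by
      rcases hx.eq_or_lt with hh | hh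
      · exact absurd (h0 hh.symm) h.ne'
      · exact hh
    have hxp : 0 < x ^ p := Real.rpow_pos_of_pos hx' p
    have h1 := Real.log_le_sub_one_of_pos (div_pos hxp h)
    rw [Real.log_div hxp.ne' h.ne', Real.log_rpow hx'] at h1
    have h2 := mul_le_mul_of_nonneg_left h1 h.le
    have h3 : P * (x ^ p / P - 1) = x ^ p - P := by
      field_simp
    rw [h3] at h2
    rw [Real.negMulLog]
    linarith

/-- The normalized case. -/
lemma Loc_unit {p : ℝ} (hp : 0 < p) (E : Finset (Fin k → X))
    (h : ∀ E' ⊆ E, E'.Nonempty → (k : ℝ) + p * ((E'.card : ℝ) - 1) ≤ (E'.biUnion Vx).card)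
    (x : Fin k → X → ℝ) (hx : ∀ j y, 0 ≤ x j y) (hN : ∀ j, ∑ y, x j y ^ p = 1) :
    ∑ c ∈ E, ∏ j, x j (c j) ≤ 1 := by
  by_contra hcon
  push Not at hcon
  set S : ℝ := ∑ c ∈ E, ∏ j, x j (c j) with hS
  have hS0 : 0 < S := by linarith
  set w : (Fin k → X) → ℝ := fun c => (∏ j, x j (c j)) / S with hw
  have hw0 : ∀ c, 0 ≤ w c := fun c =>
    div_nonneg (Finset.prod_nonneg fun j _ => hx j _) hS0.le
  have hw1 : ∑ c ∈ E, w c = 1 := by
    rw [hw, ← Finset.sum_div, ← hS, div_self hS0.ne']
  set P : Fin k → X → ℝ := fun j y => ∑ c ∈ E with c j = y, w c with hP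
  have hP0 : ∀ j y, 0 ≤ P j y := fun j y => Finset.sum_nonneg fun c _ => hw0 c
  have hPx : ∀ j y, x j y = 0 → P j y = 0 := by
    intro j y hxy
    refine Finset.sum_eq_zero fun c hc => ?_
    rw [Finset.mem_filter] at hc
    have : ∏ i, x i (c i) = 0 :=
      Finset.prod_eq_zero (Finset.mem_univ j) (by rw [hc.2]; exact hxy)
    simp only [hw, this, zero_div]
  have hP1 : ∀ j, ∑ y, P j y = 1 := by
    intro j
    rw [← hw1]
    exact Finset.sum_fiberwise E (fun c => c j) w
  have hPl : ∀ j, ∑ c ∈ E, w c * Real.log (x j (c j)) = ∑ y, P j y * Real.log (x j y) := by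
    intro j
    rw [← Finset.sum_fiberwise E (fun c => c j)]
    refine Finset.sum_congr rfl fun y _ => ?_
    rw [hP, Finset.sum_mul]
    refine Finset.sum_congr rfl fun c hc => ?_
    rw [(Finset.mem_filter.1 hc).2]
  have hent : ∑ c ∈ E, Real.negMulLog (w c) =
      Real.log S - ∑ j : Fin k, ∑ y : X, P j y * Real.log (x j y) := by
    have h1 : ∀ c ∈ E, Real.negMulLog (w c) =
        w c * Real.log S - ∑ j, w c * Real.log (x j (c j)) := by
      intro c _
      rcases (hw0 c).eq_or_lt with h0 | h0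
      · rw [← h0]
        simp
      · have hprod : 0 < ∏ j, x j (c j) := by
          have : w c * S = ∏ j, x j (c j) := by
            rw [hw]
            field_simp
          rw [← this]
          exact mul_pos h0 hS0
        have hne : ∀ j ∈ (univ : Finset (Fin k)), x j (c j) ≠ 0 := by
          intro j hj hz
          exact hprod.ne' (Finset.prod_eq_zero hj hz)
        have hlog : Real.log (w c) = ∑ j, Real.log (x j (c j)) - Real.log S := by
          rw [hw, Real.log_div hprod.ne' hS0.ne', Real.log_prod hne]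
        rw [Real.negMulLog, hlog, ← Finset.mul_sum]
        ring
    rw [Finset.sum_congr rfl h1, Finset.sum_sub_distrib, ← Finset.sum_mul, hw1, one_mul,
      Finset.sum_comm]
    congr 1
    exact Finset.sum_congr rfl fun j _ => hPl j
  have hgib : ∑ j : Fin k, ∑ y : X, Real.negMulLog (P j y) ≤
      -(p * ∑ j : Fin k, ∑ y : X, P j y * Real.log (x j y)) := by
    have h1 : ∀ j : Fin k, ∑ y : X, Real.negMulLog (P j y) ≤
        -(p * ∑ y : X, P j y * Real.log (x j y)) := by
      intro j
      calc ∑ y : X, Real.negMulLog (P j y)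
          ≤ ∑ y : X, (-(p * (P j y * Real.log (x j y))) + x j y ^ p - P j y) :=
            Finset.sum_le_sum fun y _ => Loc_gibbs (hP0 j y) (hx j y) (hPx j y)
        _ = -(p * ∑ y : X, P j y * Real.log (x j y)) := by
            rw [Finset.sum_sub_distrib, Finset.sum_add_distrib, hN j, hP1 j,
              Finset.sum_neg_distrib, ← Finset.mul_sum]
            ring
    calc ∑ j : Fin k, ∑ y : X, Real.negMulLog (P j y)
        ≤ ∑ j : Fin k, -(p * ∑ y : X, P j y * Real.log (x j y)) :=
          Finset.sum_le_sum fun j _ => h1 j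
      _ = -(p * ∑ j : Fin k, ∑ y : X, P j y * Real.log (x j y)) := by
          rw [Finset.sum_neg_distrib, ← Finset.mul_sum]
  have hmain := entropy_sparse E h w hw0 hw1
  rw [hent] at hmain
  have hlogS : 0 < Real.log S := Real.log_pos hcon
  have h5 : p * (Real.log S - ∑ j : Fin k, ∑ y : X, P j y * Real.log (x j y)) ≤
      -(p * ∑ j : Fin k, ∑ y : X, P j y * Real.log (x j y)) := le_trans hmain hgib
  have h6 : 0 < p * Real.log S := mul_pos hp hlogS
  linarith

/-- A hypergraph all of whose nonempty subsets `E'` have at least `k + p (|E'| - 1)` vertices has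
norm at most `1`.

PROOF. If `∑_y x_j(y)^p = 0` for some `j` then `x_j = 0` and both sides vanish (`k ≥ 1`, or
`E = ∅`; for `k = 0` the left side is `|E| ≤ 1`. In fact `0 < p ≤ k` gives `k ≥ 1`). So by
homogeneity suppose `∑_y x_j(y)^p = 1` for all `j`. Let `S = ∑_{c ∈ E} ∏ x_j(c_j)`; suppose
`S > 0` (otherwise nothing to prove). Put `w c = ∏ x_j(c_j) / S` for `c ∈ E` (zero outside), a
probability law. For `c` with `w c ≠ 0` we have
`- log (w c) = log S - ∑_j log x_j(c_j)`, hence
`∑_c negMulLog (w c) = log S - ∑_j ∑_y P_j(y) log x_j(y)` with `P_j(y) = ∑_{c j = y} w c`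
(`P_j(y) = 0` when `x_j(y) = 0`). Gibbs' inequality: `negMulLog (P_j(y)) ≤ - P_j(y) log(x_j(y)^p)
+ x_j(y)^p - P_j(y)` (from `log u ≤ u - 1` with `u = x_j(y)^p / P_j(y)`), and summing over `y`:
`∑_y negMulLog (P_j(y)) ≤ - p ∑_y P_j(y) log x_j(y)`. By `entropy_sparse`
`p (log S - ∑_j ∑_y P_j(y) log x_j(y)) ≤ - p ∑_j ∑_y P_j(y) log x_j(y)`, so `p log S ≤ 0` and
`S ≤ 1`. -/
theorem normLE_of_sparse {p : ℝ} (hp : 0 < p) (hpk : p ≤ k) (E : Finset (Fin k → X))
    (h : ∀ E' ⊆ E, E'.Nonempty → (k : ℝ) + p * ((E'.card : ℝ) - 1) ≤ (E'.biUnion Vx).card) :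
    NormLE p E 1 := by
  intro x hx
  rw [one_mul]
  by_cases hz : ∃ j, ∑ y, x j y ^ p = 0
  · obtain ⟨j, hj⟩ := hz
    have hxz : ∀ y, x j y = 0 := by
      intro y
      have := (Finset.sum_eq_zero_iff_of_nonneg
        (fun y _ => Real.rpow_nonneg (hx j y) p)).1 hj y (Finset.mem_univ y)
      exact (Real.rpow_eq_zero (hx j y) hp.ne').1 this
    have h0 : ∑ c ∈ E, ∏ j, x j (c j) = 0 :=
      Finset.sum_eq_zero fun c _ => Finset.prod_eq_zero (Finset.mem_univ j) (hxz _)
    rw [h0]
    exact Finset.prod_nonneg fun i _ =>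
      Real.rpow_nonneg (Finset.sum_nonneg fun y _ => Real.rpow_nonneg (hx i y) p) _
  · push Not at hz
    set N : Fin k → ℝ := fun j => ∑ y, x j y ^ p with hNdef
    have hNpos : ∀ j, 0 < N j := fun j =>
      lt_of_le_of_ne (Finset.sum_nonneg fun y _ => Real.rpow_nonneg (hx j y) p) (hz j).symm
    set a : Fin k → ℝ := fun j => N j ^ (1 / p) with ha
    have hapos : ∀ j, 0 < a j := fun j => Real.rpow_pos_of_pos (hNpos j) _
    have hap : ∀ j, a j ^ p = N j := by
      intro j
      rw [ha]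
      simp only
      rw [← Real.rpow_mul (hNpos j).le, one_div_mul_cancel hp.ne', Real.rpow_one]
    have hu := Loc_unit hp E h (fun j y => x j y / a j)
      (fun j y => div_nonneg (hx j y) (hapos j).le) (by
        intro j
        have : ∀ y, (x j y / a j) ^ p = x j y ^ p / N j := by
          intro y
          rw [Real.div_rpow (hx j y) (hapos j).le, hap j]
        simp only [this]
        rw [← Finset.sum_div]
        exact div_self (hNpos j).ne')
    have hsplit : ∑ c ∈ E, ∏ j, x j (c j) = (∑ c ∈ E, ∏ j, x j (c j) / a j) * ∏ j, a j := by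
      rw [Finset.sum_mul]
      refine Finset.sum_congr rfl fun c _ => ?_
      rw [← Finset.prod_mul_distrib]
      exact Finset.prod_congr rfl fun j _ => (div_mul_cancel₀ _ (hapos j).ne').symm
    rw [hsplit]
    have hA : 0 ≤ ∏ j, a j := Finset.prod_nonneg fun j _ => (hapos j).le
    calc (∑ c ∈ E, ∏ j, x j (c j) / a j) * ∏ j, a j ≤ 1 * ∏ j, a j :=
          mul_le_mul_of_nonneg_right hu hA
      _ = ∏ j, (∑ y, x j y ^ p) ^ (1 / p) := by rw [one_mul]

end

end Pool.Agent.GP2
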