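import Pool.Agent.GP2.Defs

/-!
# LOC: sparse hypergraphs have norm at most one
-/

namespace Pool.Agent.GP2

open Finset

noncomputable section

variable {k : ℕ} {X : Type*} [Fintype X] [DecidableEq X]

/-- `a_R(t) = 1 - (1 - t)^R`. -/
def aR (R : ℕ) (t : ℝ) : ℝ := 1 - (1 - t) ^ R

private theorem LocA_tele : HasSum (fun r : ℕ => 1 / (((r : ℝ) + 2) * ((r : ℝ) + 1))) 1 := by
  rw [hasSum_iff_tendsto_nat_of_nonneg (fun i => by positivity)]
  have h : ∀ n : ℕ, ∑ i ∈ Finset.range n, 1 / (((i : ℝ) + 2) * ((i : ℝ) + 1)) =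
      1 - 1 / ((n : ℝ) + 1) := by
    intro n
    induction n with
    | zero => simp
    | succ n ih =>
      rw [Finset.sum_range_succ, ih]
      push_cast
      field_simp
      ring
  have h2 : Filter.Tendsto (fun n : ℕ => 1 - 1 / ((n : ℝ) + 1)) Filter.atTop (nhds (1 - 0)) :=
    tendsto_const_nhds.sub tendsto_one_div_add_atTop_nhds_zero_nat
  rw [sub_zero] at h2
  exact h2.congr fun n => (h n).symm

/-- For `0 ≤ t ≤ 1`: `∑_{R ≥ 2} (a_R(t) - t) / (R (R - 1)) = - t log t` (with `0 log 0 = 0`).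
The index is shifted: `R = r + 2`. -/
theorem hasSum_aR {t : ℝ} (h0 : 0 ≤ t) (h1 : t ≤ 1) :
    HasSum (fun r : ℕ => (aR (r + 2) t - t) / ((r + 2) * (r + 1) : ℝ)) (Real.negMulLog t) := by
  rcases eq_or_lt_of_le h0 with ht | ht
  · subst ht
    simp only [aR, sub_zero, one_pow, sub_self, zero_div, Real.negMulLog_zero]
    exact hasSum_zero
  · obtain ⟨s, hs⟩ : ∃ s : ℝ, s = 1 - t := ⟨_, rfl⟩
    have hs0 : 0 ≤ s := by linarith
    have hs1 : s < 1 := by linarith
    have habs : |s| < 1 := by rw [abs_of_nonneg hs0]; exact hs1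
    have hts : 1 - s = t := by linarith
    have hL : HasSum (fun n : ℕ => s ^ (n + 1) / ((n : ℝ) + 1)) (-Real.log t) := by
      have := Real.hasSum_pow_div_log_of_abs_lt_one habs
      rwa [hts] at this
    have hA : HasSum (fun r : ℕ => s * (1 / (((r : ℝ) + 2) * ((r : ℝ) + 1)))) (s * 1) :=
      LocA_tele.mul_left s
    have hB : HasSum (fun n : ℕ => s * (s ^ (n + 1) / ((n : ℝ) + 1))) (s * (-Real.log t)) :=
      hL.mul_left s
    have hC : HasSum (fun n : ℕ => s ^ (n + 1 + 1) / (((n + 1 : ℕ) : ℝ) + 1))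
        (-Real.log t - s) := by
      have h2 := (hasSum_nat_add_iff' (f := fun n : ℕ => s ^ (n + 1) / ((n : ℝ) + 1)) 1).2 hL
      simpa using h2
    have hT := hA.sub (hB.sub hC)
    have hval : s * 1 - (s * (-Real.log t) - (-Real.log t - s)) = Real.negMulLog t := by
      rw [Real.negMulLog, ← hts]
      ring
    rw [hval] at hT
    refine hT.congr_fun ?_
    intro r
    have hr1 : ((r : ℝ) + 1) ≠ 0 := by positivity
    have hr2 : ((r : ℝ) + 2) ≠ 0 := by positivity
    have hr3 : ((r : ℝ) + 1 + 1) ≠ 0 := by positivity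
    rw [aR, ← hs]
    push_cast
    have e1 : (r : ℝ) + 1 + 1 = r + 2 := by ring
    rw [e1]
    have e2 : 1 - s ^ (r + 2) - t = s - s ^ (r + 2) := by rw [hs]; ring
    rw [e2]
    field_simp
    ring

section sampling

variable (E : Finset (Fin k → X)) (w : (Fin k → X) → ℝ) (R : ℕ)

private theorem LocA_sum (F : Finset (Fin k → X)) :
    ∑ s ∈ Fintype.piFinset (fun _ : Fin R => F), ∏ i, w (s i) = (∑ c ∈ F, w c) ^ R := by
  have := (Finset.prod_univ_sum (fun _ : Fin R => F) (fun _ c => w c)).symm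
  rw [this]
  simp

private theorem LocA_prob (hw1 : ∑ c ∈ E, w c = 1) (q : (Fin k → X) → Prop) [DecidablePred q] :
    ∑ s ∈ Fintype.piFinset (fun _ : Fin R => E), (∏ i, w (s i)) * (if ∃ i, q (s i) then 1 else 0) =
      aR R (∑ c ∈ E with q c, w c) := by
  have h1 : ∀ s : Fin R → Fin k → X, (∏ i, w (s i)) * (if ∃ i, q (s i) then (1 : ℝ) else 0) =
      (∏ i, w (s i)) - (if ∀ i, ¬ q (s i) then ∏ i, w (s i) else 0) := by
    intro s
    by_cases h : ∃ i, q (s i)
    · have h' : ¬ ∀ i, ¬ q (s i) := by push Not; exact h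
      rw [if_pos h, if_neg h']
      ring
    · have h' : ∀ i, ¬ q (s i) := by push Not at h; exact h
      rw [if_neg h, if_pos h']
      ring
  rw [Finset.sum_congr rfl fun s _ => h1 s, Finset.sum_sub_distrib, LocA_sum, hw1, one_pow,
    ← Finset.sum_filter]
  have h2 : (Fintype.piFinset (fun _ : Fin R => E)).filter (fun s => ∀ i, ¬ q (s i)) =
      Fintype.piFinset (fun _ : Fin R => E.filter fun c => ¬ q c) := by
    ext s
    simp only [Finset.mem_filter, Fintype.mem_piFinset]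
    constructor
    · rintro ⟨h3, h4⟩ i
      exact ⟨h3 i, h4 i⟩
    · intro h3
      exact ⟨fun i => (h3 i).1, fun i => (h3 i).2⟩
  rw [h2, LocA_sum, aR]
  have h3 : ∑ c ∈ E with ¬ q c, w c = 1 - ∑ c ∈ E with q c, w c := by
    rw [← hw1, ← Finset.sum_filter_add_sum_filter_not E q w]
    ring
  rw [h3]

private theorem LocA_mem_Vx (c : Fin k → X) (v : Fin k × X) : v ∈ Vx c ↔ c v.1 = v.2 := by
  unfold Vx
  simp only [Finset.mem_image, Finset.mem_univ, true_and]
  constructor
  · rintro ⟨j, rfl⟩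
    rfl
  · intro h
    exact ⟨v.1, by rw [h]⟩

private theorem LocA_step {p : ℝ} (hR : 0 < R)
    (h : ∀ E' ⊆ E, E'.Nonempty → (k : ℝ) + p * ((E'.card : ℝ) - 1) ≤ (E'.biUnion Vx).card)
    (hw0 : ∀ c, 0 ≤ w c) (hw1 : ∑ c ∈ E, w c = 1) :
    (k : ℝ) + p * ((∑ c ∈ E, aR R (w c)) - 1) ≤
      ∑ v : Fin k × X, aR R (∑ c ∈ E with c v.1 = v.2, w c) := by
  classical
  -- expected number of edges
  have hE : ∑ s ∈ Fintype.piFinset (fun _ : Fin R => E),
      (∏ i, w (s i)) * ((Finset.univ.image s).card : ℝ) = ∑ c ∈ E, aR R (w c) := by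
    have h1 : ∀ s ∈ Fintype.piFinset (fun _ : Fin R => E),
        (∏ i, w (s i)) * ((Finset.univ.image s).card : ℝ) =
        ∑ c ∈ E, (∏ i, w (s i)) * (if ∃ i, s i = c then 1 else 0) := by
      intro s hs
      rw [← Finset.mul_sum]
      congr 1
      rw [Finset.sum_boole]
      congr 1
      congr 1
      ext c
      simp only [Finset.mem_image, Finset.mem_univ, true_and, Finset.mem_filter]
      constructor
      · rintro ⟨i, rfl⟩
        exact ⟨Fintype.mem_piFinset.1 hs i, i, rfl⟩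
      · rintro ⟨_, i, hi⟩
        exact ⟨i, hi⟩
    rw [Finset.sum_congr rfl h1, Finset.sum_comm]
    refine Finset.sum_congr rfl fun c hc => ?_
    rw [LocA_prob E w R hw1 (fun c' => c' = c)]
    congr 1
    have : E.filter (fun c' => c' = c) = {c} := by
      ext c'
      simp only [Finset.mem_filter, Finset.mem_singleton]
      constructor
      · exact fun h2 => h2.2
      · rintro rfl
        exact ⟨hc, rfl⟩
    rw [this, Finset.sum_singleton]
  -- expected number of vertices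
  have hV : ∑ s ∈ Fintype.piFinset (fun _ : Fin R => E),
      (∏ i, w (s i)) * (((Finset.univ.image s).biUnion Vx).card : ℝ) =
      ∑ v : Fin k × X, aR R (∑ c ∈ E with c v.1 = v.2, w c) := by
    have h1 : ∀ s ∈ Fintype.piFinset (fun _ : Fin R => E),
        (∏ i, w (s i)) * (((Finset.univ.image s).biUnion Vx).card : ℝ) =
        ∑ v : Fin k × X, (∏ i, w (s i)) * (if ∃ i, (s i) v.1 = v.2 then 1 else 0) := by
      intro s hs
      rw [← Finset.mul_sum]
      congr 1
      rw [Finset.sum_boole]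
      congr 1
      congr 1
      ext v
      simp only [Finset.mem_biUnion, Finset.mem_image, Finset.mem_univ, true_and,
        Finset.mem_filter, LocA_mem_Vx]
      constructor
      · rintro ⟨c, ⟨i, rfl⟩, h2⟩
        exact ⟨i, h2⟩
      · rintro ⟨i, hi⟩
        exact ⟨s i, ⟨i, rfl⟩, hi⟩
    rw [Finset.sum_congr rfl h1, Finset.sum_comm]
    exact Finset.sum_congr rfl fun v _ => LocA_prob E w R hw1 (fun c => c v.1 = v.2)
  have hS : ∑ s ∈ Fintype.piFinset (fun _ : Fin R => E), ∏ i, w (s i) = 1 := by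
    rw [LocA_sum, hw1, one_pow]
  have hmain : ∑ s ∈ Fintype.piFinset (fun _ : Fin R => E),
      (∏ i, w (s i)) * ((k : ℝ) + p * (((Finset.univ.image s).card : ℝ) - 1)) ≤
      ∑ s ∈ Fintype.piFinset (fun _ : Fin R => E),
      (∏ i, w (s i)) * (((Finset.univ.image s).biUnion Vx).card : ℝ) := by
    refine Finset.sum_le_sum fun s hs => ?_
    refine mul_le_mul_of_nonneg_left ?_ (Finset.prod_nonneg fun i _ => hw0 _)
    have : Nonempty (Fin R) := ⟨⟨0, hR⟩⟩
    refine h _ ?_ (Finset.univ_nonempty.image s)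
    intro c hc
    obtain ⟨i, _, rfl⟩ := Finset.mem_image.1 hc
    exact Fintype.mem_piFinset.1 hs i
  rw [hV] at hmain
  refine le_trans (le_of_eq ?_) hmain
  have h3 : ∀ s ∈ Fintype.piFinset (fun _ : Fin R => E),
      (∏ i, w (s i)) * ((k : ℝ) + p * (((Finset.univ.image s).card : ℝ) - 1)) =
      ((k : ℝ) - p) * (∏ i, w (s i)) +
        p * ((∏ i, w (s i)) * ((Finset.univ.image s).card : ℝ)) := by
    intro s _
    ring
  rw [Finset.sum_congr rfl h3, Finset.sum_add_distrib, ← Finset.mul_sum, ← Finset.mul_sum, hS, hE]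
  ring

end sampling

/-- The entropy inequality for a sparse hypergraph: `∑_j H(E_j) ≥ p H(E)`. Here `w` is a
probability law on `E`, and `P j y = ∑_{c ∈ E, c j = y} w c` is the law of the `j`-th vertex. -/
theorem entropy_sparse {p : ℝ} (E : Finset (Fin k → X))
    (h : ∀ E' ⊆ E, E'.Nonempty → (k : ℝ) + p * ((E'.card : ℝ) - 1) ≤ (E'.biUnion Vx).card)
    (w : (Fin k → X) → ℝ) (hw0 : ∀ c, 0 ≤ w c) (hw1 : ∑ c ∈ E, w c = 1) :
    p * ∑ c ∈ E, Real.negMulLog (w c) ≤
      ∑ j : Fin k, ∑ y : X, Real.negMulLog (∑ c ∈ E with c j = y, w c) := by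
  have hP0 : ∀ v : Fin k × X, 0 ≤ ∑ c ∈ E with c v.1 = v.2, w c :=
    fun v => Finset.sum_nonneg fun c _ => hw0 c
  have hP1 : ∀ v : Fin k × X, ∑ c ∈ E with c v.1 = v.2, w c ≤ 1 := by
    intro v
    rw [← hw1]
    exact Finset.sum_le_sum_of_subset_of_nonneg (Finset.filter_subset _ _) fun c _ _ => hw0 c
  have hwle : ∀ c ∈ E, w c ≤ 1 := by
    intro c hc
    rw [← hw1]
    exact Finset.single_le_sum (fun c _ => hw0 c) hc
  have hsumP : ∑ v : Fin k × X, ∑ c ∈ E with c v.1 = v.2, w c = k := by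
    rw [Fintype.sum_prod_type]
    have : ∀ j : Fin k, ∑ y : X, ∑ c ∈ E with c j = y, w c = 1 := by
      intro j
      rw [← hw1]
      exact Finset.sum_fiberwise E (fun c => c j) w
    rw [Finset.sum_congr rfl fun j _ => this j]
    simp
  have h1 : HasSum (fun r : ℕ => ∑ v : Fin k × X,
      (aR (r + 2) (∑ c ∈ E with c v.1 = v.2, w c) - ∑ c ∈ E with c v.1 = v.2, w c) /
        ((r + 2) * (r + 1) : ℝ))
      (∑ v : Fin k × X, Real.negMulLog (∑ c ∈ E with c v.1 = v.2, w c)) :=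
    hasSum_sum fun v _ => hasSum_aR (hP0 v) (hP1 v)
  have h2 : HasSum (fun r : ℕ => p * ∑ c ∈ E,
      (aR (r + 2) (w c) - w c) / ((r + 2) * (r + 1) : ℝ))
      (p * ∑ c ∈ E, Real.negMulLog (w c)) :=
    (hasSum_sum fun c hc => hasSum_aR (hw0 c) (hwle c hc)).mul_left p
  have h3 := hasSum_le (fun r => ?_) h2 h1
  · rw [Fintype.sum_prod_type] at h3
    exact h3
  · have h4 := LocA_step E w (r + 2) (by omega) h hw0 hw1
    rw [← Finset.sum_div, ← Finset.sum_div, ← mul_div_assoc, Finset.sum_sub_distrib,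
      Finset.sum_sub_distrib, hsumP, hw1]
    refine div_le_div_of_nonneg_right ?_ (by positivity)
    linarith

end

end Pool.Agent.GP2
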