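import Pool.Agent.GP2.MfpB

/-!
# MFP: the finite approximation property of `ℓ_p`, `1 < p < 2`
-/

namespace Pool.Agent.GP2

open Finset Metric
open Pool.Agent.helper68.Gl
open scoped ENNReal

noncomputable section

section mfpgen

variable {Ω : Type*} [Fintype Ω] {W : Ω → ℝ}

lemma mfp_EC_close (hW : ∀ ω, 0 ≤ W ω) (hW1 : ∑ ω, W ω = 1) {F G : Ω → ℂ} {e : ℝ}
    (h : ∀ ω, ‖F ω - G ω‖ ≤ e) : ‖EC W F - EC W G‖ ≤ e := by
  rw [← EC_sub]
  exact norm_EC_le_of_le hW hW1 h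

lemma mfp_var_close (hW : ∀ ω, 0 ≤ W ω) (hW1 : ∑ ω, W ω = 1) {F G : Ω → ℂ} {e : ℝ}
    (h : ∀ ω, ‖F ω - G ω‖ ≤ e) :
    ER W (fun ω => ‖F ω - EC W F‖ ^ 2) ≤ 2 * ER W (fun ω => ‖G ω - EC W G‖ ^ 2) + 8 * e ^ 2 := by
  have h1 := mfp_EC_close hW hW1 h
  calc ER W (fun ω => ‖F ω - EC W F‖ ^ 2)
      ≤ ER W (fun ω => 2 * ‖G ω - EC W G‖ ^ 2 + 8 * e ^ 2) := by
        refine ER_mono hW fun ω => ?_
        have h2 : ‖F ω - EC W F‖ ≤ ‖G ω - EC W G‖ + 2 * e := by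
          calc ‖F ω - EC W F‖ = ‖(G ω - EC W G) + ((F ω - G ω) - (EC W F - EC W G))‖ := by
                congr 1; ring
            _ ≤ ‖G ω - EC W G‖ + (‖F ω - G ω‖ + ‖EC W F - EC W G‖) :=
                (norm_add_le _ _).trans (by gcongr; exact norm_sub_le _ _)
            _ ≤ _ := by linarith [h ω]
        have h3 := norm_nonneg (F ω - EC W F)
        have h4 := norm_nonneg (G ω - EC W G)
        have h5 : ‖F ω - EC W F‖ ^ 2 ≤ (‖G ω - EC W G‖ + 2 * e) ^ 2 :=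
          pow_le_pow_left₀ h3 h2 2
        nlinarith [sq_nonneg (‖G ω - EC W G‖ - 2 * e)]
    _ = _ := by rw [ER_add, ER_mul_left, ER_const hW1]

lemma mfp_EC_sum {ι : Type*} (s : Finset ι) (co : ι → ℂ) (g : ι → Ω → ℂ) :
    EC W (fun ω => ∑ i ∈ s, co i * g i ω) = ∑ i ∈ s, co i * EC W (g i) := by
  simp only [EC, Finset.mul_sum]
  rw [Finset.sum_comm]
  refine Finset.sum_congr rfl fun i _ => Finset.sum_congr rfl fun ω _ => by ring

end mfpgen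

section mfplin

variable {V : Type} [NormedAddCommGroup V] [NormedSpace ℂ V]

/-- A linear form as a family of multilinear forms, zero in the degrees `m ≠ 1`. -/
def mfpLin (l : V →L[ℂ] ℂ) : (m : ℕ) → ContinuousMultilinearMap ℂ (fun _ : Fin m => V) ℂ
  | 1 => (ContinuousMultilinearMap.mkPiAlgebra ℂ (Fin 1) ℂ).compContinuousLinearMap (fun _ => l)
  | _ => 0

lemma mfpLin_one (l : V →L[ℂ] ℂ) (v : Fin 1 → V) : mfpLin l 1 v = l (v 0) := by
  simp [mfpLin]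

lemma mfpLin_norm (l : V →L[ℂ] ℂ) (m : ℕ) : ‖mfpLin l m‖ ≤ ‖l‖ := by
  by_cases h : m = 1
  · subst h
    refine ContinuousMultilinearMap.opNorm_le_bound (norm_nonneg _) fun v => ?_
    rw [mfpLin_one, Finset.univ_unique, Finset.prod_singleton]
    exact l.le_opNorm _
  · have : mfpLin l m = 0 := by
      unfold mfpLin
      split
      · exact absurd rfl h
      · rfl
    rw [this, norm_zero]
    exact norm_nonneg _

end mfplin

variable (P : Par)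

lemma mfp_NN_pos {T N0 : ℕ} (h : 1 ≤ N0) : 1 ≤ NN P T N0 := by
  unfold NN
  have h1 : (1 : ℝ) ≤ N0 := by exact_mod_cast h
  have h2 : (1 : ℝ) ≤ (P.n : ℝ) ^ T := one_le_pow₀ (by have := P.hn; exact_mod_cast (by omega : 1 ≤ P.n))
  nlinarith

lemma mfp_ch_zero {n : ℕ} [NeZero n] : ch (0 : ZMod n) = 1 := by
  unfold ch
  exact AddChar.map_zero_eq_one _

lemma mfp_ch_sum {n : ℕ} [NeZero n] {ι : Type*} (s : Finset ι) (f : ι → ZMod n) :
    ch (∑ i ∈ s, f i) = ∏ i ∈ s, ch (f i) := by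
  classical
  induction s using Finset.induction_on with
  | empty => simp [mfp_ch_zero]
  | insert i s hi ih => rw [Finset.sum_insert hi, Finset.prod_insert hi, ch_add, ih]

lemma mfp_prod_ch {T N0 : ℕ} (r : ℂ) (a : Lab P.n T) (c : Fin P.k → XX P.n T N0) :
    ∏ i, (r * ch (pair a (c i).2)) = r ^ P.k * ch (pair a (Lsum c)) := by
  rw [Finset.prod_mul_distrib, Finset.prod_const, Finset.card_univ, Fintype.card_fin, Lsum,
    pair_sum, mfp_ch_sum]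

/-- The coefficient of the points. -/
def mfpc (T N0 : ℕ) : ℝ := ((P.k : ℝ) * NN P T N0) ^ (-(1 / P.p))

lemma mfp_kN_pos {T N0 : ℕ} (h : 1 ≤ N0) : 1 ≤ (P.k : ℝ) * NN P T N0 := by
  have h1 := mfp_NN_pos P (T := T) h
  have h2 : (1 : ℝ) ≤ P.k := by have := P.k_gt; exact_mod_cast (by omega : 1 ≤ P.k)
  nlinarith

lemma mfpc_pos {T N0 : ℕ} (h : 1 ≤ N0) : 0 < mfpc P T N0 :=
  Real.rpow_pos_of_pos (by linarith [mfp_kN_pos P (T := T) h]) _

lemma mfpc_le_one {T N0 : ℕ} (h : 1 ≤ N0) : mfpc P T N0 ≤ 1 := by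
  have hp := P.p_pos
  exact Real.rpow_le_one_of_one_le_of_nonpos (mfp_kN_pos P h) (by
    rw [neg_nonpos]; positivity)

lemma mfpc_pow_p {T N0 : ℕ} (h : 1 ≤ N0) : mfpc P T N0 ^ P.p = ((P.k : ℝ) * NN P T N0)⁻¹ := by
  have hp := P.p_pos
  have h1 : 0 < (P.k : ℝ) * NN P T N0 := by linarith [mfp_kN_pos P (T := T) h]
  unfold mfpc
  rw [← Real.rpow_mul h1.le, ← Real.rpow_neg_one]
  congr 1
  field_simp

lemma mfpc_pow_k {T N0 : ℕ} (h : 1 ≤ N0) :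
    (P.k : ℝ) ^ ((P.k : ℝ) / P.p) * mfpc P T N0 ^ P.k * NN P T N0 ^ ((P.k : ℝ) / P.p) = 1 := by
  have hp := P.p_pos
  have hk : (0 : ℝ) < P.k := by have := P.k_gt; exact_mod_cast (by omega : 0 < P.k)
  have hN : 0 < NN P T N0 := by linarith [mfp_NN_pos P (T := T) h]
  unfold mfpc
  rw [← Real.rpow_natCast, ← Real.rpow_mul (by positivity), Real.mul_rpow hk.le hN.le]
  have e : -(1 / P.p) * (P.k : ℝ) = -((P.k : ℝ) / P.p) := by ring
  rw [e, Real.rpow_neg hk.le, Real.rpow_neg hN.le]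
  have h1 : (0 : ℝ) < (P.k : ℝ) ^ ((P.k : ℝ) / P.p) := Real.rpow_pos_of_pos hk _
  have h2 : (0 : ℝ) < NN P T N0 ^ ((P.k : ℝ) / P.p) := Real.rpow_pos_of_pos hN _
  field_simp

lemma mfp_card_V {T N0 : ℕ} :
    (Fintype.card (Fin P.k × XX P.n T N0) : ℝ) = (P.k : ℝ) * NN P T N0 := by
  rw [Fintype.card_prod, Fintype.card_fin]
  push_cast
  rw [card_XX]

lemma mfp_xpt_eq {T N0 : ℕ} {V : Type} [NormedAddCommGroup V] [NormedSpace ℂ V]
    (u : Fin P.k × XX P.n T N0 → V) (a : Lab P.n T) (r : ℂ) :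
    r • xpt P u a = ∑ v, (r * (mfpc P T N0 : ℂ) * ch (pair a v.2.2)) • u v := by
  unfold xpt
  rw [Finset.smul_sum]
  refine Finset.sum_congr rfl fun v _ => ?_
  rw [smul_smul, smul_smul, mfpc, mul_assoc]

lemma mfp_xpt_norm {T N0 : ℕ} (h : 1 ≤ N0) {V : Type} [NormedAddCommGroup V] [NormedSpace ℂ V]
    (u : Fin P.k × XX P.n T N0 → V)
    (hu : ∀ z : Fin P.k × XX P.n T N0 → ℂ, ‖∑ v, z v • u v‖ ^ P.p ≤ ∑ v, ‖z v‖ ^ P.p)
    (a : Lab P.n T) : ‖xpt P u a‖ ≤ 1 := by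
  have hp := P.p_pos
  have h1 := hu (fun v => (1 : ℂ) * (mfpc P T N0 : ℂ) * ch (pair a v.2.2))
  rw [← mfp_xpt_eq, one_smul] at h1
  have h2 : ∀ v : Fin P.k × XX P.n T N0,
      ‖(1 : ℂ) * (mfpc P T N0 : ℂ) * ch (pair a v.2.2)‖ ^ P.p = ((P.k : ℝ) * NN P T N0)⁻¹ := by
    intro v
    rw [norm_mul, norm_mul, norm_ch, norm_one, one_mul, mul_one, Complex.norm_real,
      Real.norm_of_nonneg (mfpc_pos P h).le, mfpc_pow_p P h]
  rw [Finset.sum_congr rfl fun v _ => h2 v, Finset.sum_const, Finset.card_univ, nsmul_eq_mul,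
    mfp_card_V, mul_inv_cancel₀ (by linarith [mfp_kN_pos P (T := T) h] : (P.k : ℝ) * NN P T N0 ≠ 0)] at h1
  by_contra hc
  push Not at hc
  have := Real.one_lt_rpow hc hp
  linarith

/-- The value of a block form at the points. -/
lemma mfp_block {T N0 : ℕ} (r : ℝ) (a : Lab P.n T) (S : Finset (Fin P.k → XX P.n T N0)) :
    ∑ c ∈ S, ∏ i, ((r : ℂ) * (mfpc P T N0 : ℂ) * ch (pair a (c i).2)) =
      ((r ^ P.k * mfpc P T N0 ^ P.k : ℝ) : ℂ) * ∑ c ∈ S, ch (pair a (Lsum c)) := by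
  rw [Finset.mul_sum]
  refine Finset.sum_congr rfl fun c _ => ?_
  rw [mfp_prod_ch, mul_pow]
  push_cast
  ring

/-- The numerical factor of the block forms. -/
lemma mfp_factor {T N0 : ℕ} (h : 1 ≤ N0) {r e : ℝ} (he : 0 < e) (he1 : e ≤ 1)
    (hr : 0 < r) (hr1 : r ≤ 1) {eps : ℝ} (heps : 0 < eps) (hrk : 1 - eps / 8 ≤ r ^ P.k)
    (hee : e ≤ eps / 8) {S : ℝ} (hS0 : (1 - e) * NN P T N0 ^ ((P.k : ℝ) / P.p) ≤ S)
    (hS1 : S ≤ (1 + e) * NN P T N0 ^ ((P.k : ℝ) / P.p)) :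
    |((1 / (1 + e)) * (P.k : ℝ) ^ ((P.k : ℝ) / P.p)) * ((r ^ P.k * mfpc P T N0 ^ P.k) * S) - 1| ≤
      eps := by
  have hN : 0 < NN P T N0 := by linarith [mfp_NN_pos P (T := T) h]
  have hNp : 0 < NN P T N0 ^ ((P.k : ℝ) / P.p) := Real.rpow_pos_of_pos hN _
  have hk : (0 : ℝ) < P.k := by have := P.k_gt; exact_mod_cast (by omega : 0 < P.k)
  have hkp : 0 < (P.k : ℝ) ^ ((P.k : ℝ) / P.p) := Real.rpow_pos_of_pos hk _
  have hc := mfpc_pos P (T := T) h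
  have hid := mfpc_pow_k P (T := T) h
  obtain ⟨K, hK⟩ : ∃ K : ℝ, K = (P.k : ℝ) ^ ((P.k : ℝ) / P.p) * mfpc P T N0 ^ P.k := ⟨_, rfl⟩
  have hK0 : 0 < K := by rw [hK]; positivity
  have hKN : K * NN P T N0 ^ ((P.k : ℝ) / P.p) = 1 := by rw [hK]; exact hid
  obtain ⟨x, hx⟩ : ∃ x : ℝ, x = K * S := ⟨_, rfl⟩
  have hx0 : 1 - e ≤ x := by
    rw [hx]
    calc 1 - e = K * ((1 - e) * NN P T N0 ^ ((P.k : ℝ) / P.p)) := by
          rw [mul_left_comm, hKN, mul_one]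
      _ ≤ K * S := by gcongr
  have hx1 : x ≤ 1 + e := by
    rw [hx]
    calc K * S ≤ K * ((1 + e) * NN P T N0 ^ ((P.k : ℝ) / P.p)) := by gcongr
      _ = 1 + e := by rw [mul_left_comm, hKN, mul_one]
  have hrk1 : r ^ P.k ≤ 1 := pow_le_one₀ hr.le hr1
  have hrk0 : 0 < r ^ P.k := pow_pos hr _
  have e1 : ((1 / (1 + e)) * (P.k : ℝ) ^ ((P.k : ℝ) / P.p)) *
      ((r ^ P.k * mfpc P T N0 ^ P.k) * S) = r ^ P.k * (x / (1 + e)) := by
    rw [hx, hK]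
    field_simp
  rw [e1]
  have he2 : 0 < 1 + e := by linarith
  have h1 : x / (1 + e) ≤ 1 := by rw [div_le_one he2]; exact hx1
  have h2 : 1 - 2 * e ≤ x / (1 + e) := by
    rw [le_div_iff₀ he2]
    nlinarith
  have h0 : 0 ≤ x / (1 + e) := div_nonneg (by linarith) he2.le
  rw [abs_le]
  constructor
  · nlinarith
  · nlinarith

/-- The size of a hypergraph of norm at most `C`. -/
lemma mfp_card_le {T N0 : ℕ} (h : 1 ≤ N0) {S : Finset (Fin P.k → XX P.n T N0)} {C : ℝ}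
    (hS : NormLE P.p S C) : (S.card : ℝ) ≤ C * NN P T N0 ^ ((P.k : ℝ) / P.p) := by
  have hp := P.p_pos
  have hN : 0 < NN P T N0 := by linarith [mfp_NN_pos P (T := T) h]
  have h1 := hS (fun _ _ => 1) (fun _ _ => zero_le_one)
  simp only [Finset.prod_const_one, Finset.sum_const, nsmul_eq_mul, mul_one, Real.one_rpow,
    Finset.card_univ, card_XX, Finset.prod_const, Fintype.card_fin] at h1
  refine h1.trans (le_of_eq ?_)
  rw [← Real.rpow_natCast, ← Real.rpow_mul hN.le]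
  congr 2
  ring

/-- One function: variance and oscillation. -/
lemma mfp_fun {m0 : ℕ} {e0 : ℝ} (he0 : 0 ≤ e0) (R : RH P m0 e0) {V : Type}
    [NormedAddCommGroup V] [NormedSpace ℂ V] (u : Fin P.k × XX P.n R.T R.N0 → V)
    (hu : ∀ v, ‖u v‖ ≤ 1) (T : (m : ℕ) → ContinuousMultilinearMap ℂ (fun _ : Fin m => V) ℂ)
    {C eta : ℝ} (hC : ∀ m, ‖T m‖ ≤ C) (heta : 0 ≤ eta) {D : ℕ} (hD : D ≤ m0 + 1)
    (hkill : ∀ m < D, ∀ lam : Fin m → Fin P.k × XX P.n R.T R.N0,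
      Nonempty (Gadget P.p (R.F ∪ R.Q) lam) → ‖T m (fun l => u (lam l))‖ ≤ eta)
    {e1 : ℝ} (h1 : D * ((P.k : ℝ) * NN P R.T R.N0) ^ D * eta ≤ e1)
    (h2 : 2 * D * C * e0 ≤ e1) (h3 : (D : ℝ) ^ 2 * C ^ 2 * e0 ≤ e1)
    (F : Lab P.n R.T → ℂ)
    (hF : ∀ a, ‖F a - ∑ m ∈ range D, T m (fun _ => xpt P u a)‖ ≤ e1) :
    (∀ lam : ℂ, ‖lam‖ ≤ 1 / 2 →
      ER (wT P.n R.T lam) (fun a => ‖F a - EC (wT P.n R.T lam) F‖ ^ 2) ≤ 4 * e1 + 72 * e1 ^ 2) ∧
    ((∀ a, ‖F a‖ ≤ 1) →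
      ‖EC (wT P.n R.T (1 / 4)) F - EC (wT P.n R.T 0) F‖ ≤ 1 + 9 * e1) := by
  obtain ⟨ι, s, co, A, hG, hvar⟩ := expansion P he0 R u hu T hC heta hD hkill
  obtain ⟨G, hGdef⟩ : ∃ G : Lab P.n R.T → ℂ, G = fun a => ∑ i ∈ s, co i * chA (A i) a := ⟨_, rfl⟩
  have hFG : ∀ a, ‖F a - G a‖ ≤ 3 * e1 := by
    intro a
    have ha := hG a
    have hb := hF a
    have hc : F a - G a = (F a - ∑ m ∈ range D, T m (fun _ => xpt P u a)) +
        ((∑ m ∈ range D, T m (fun _ => xpt P u a)) - ∑ i ∈ s, co i * chA (A i) a) := by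
      rw [hGdef]; ring
    rw [hc]
    refine (norm_add_le _ _).trans ?_
    linarith
  have hl0 : ‖(0 : ℂ)‖ ≤ 1 / 2 := by simp
  have hl1 : ‖(1 / 4 : ℂ)‖ ≤ 1 / 2 := by norm_num
  constructor
  · intro lam hl
    have hv := var_chA P.hn hl s co A
    have hw := mfp_var_close (wT_nonneg hl _) (wT_sum P.hn lam _) hFG
    rw [hGdef] at hw
    nlinarith
  · intro hb
    have hEC : ∀ lam : ℂ, EC (wT P.n R.T lam) G = ∑ i ∈ s, co i * lam ^ (A i).card := by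
      intro lam
      rw [hGdef, mfp_EC_sum]
      refine Finset.sum_congr rfl fun i _ => ?_
      rw [EC_chA P.hn]
    have hcl : ∀ lam : ℂ, ‖lam‖ ≤ 1 / 2 →
        ‖EC (wT P.n R.T lam) F - EC (wT P.n R.T lam) G‖ ≤ 3 * e1 := fun lam hl =>
      mfp_EC_close (wT_nonneg hl _) (wT_sum P.hn lam _) hFG
    have hs := schwarz_quarter s co (fun i => (A i).card) (M := 1 + 3 * e1) (fun lam hl => by
      rw [← hEC lam]
      have k1 := norm_EC_le_of_le (wT_nonneg hl _) (wT_sum P.hn lam _) hb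
      have k2 := hcl lam hl
      have k3 : EC (wT P.n R.T lam) G = EC (wT P.n R.T lam) F -
          (EC (wT P.n R.T lam) F - EC (wT P.n R.T lam) G) := by ring
      rw [k3]
      refine (norm_sub_le _ _).trans ?_
      linarith)
    rw [← hEC, ← hEC] at hs
    have k0 := hcl 0 hl0
    have k1 := hcl (1 / 4) hl1
    have k3 : EC (wT P.n R.T (1 / 4)) F - EC (wT P.n R.T 0) F =
        (EC (wT P.n R.T (1 / 4)) G - EC (wT P.n R.T 0) G) +
        ((EC (wT P.n R.T (1 / 4)) F - EC (wT P.n R.T (1 / 4)) G) -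
          (EC (wT P.n R.T 0) F - EC (wT P.n R.T 0) G)) := by ring
    rw [k3]
    refine (norm_add_le _ _).trans ?_
    have k4 := norm_sub_le (EC (wT P.n R.T (1 / 4)) F - EC (wT P.n R.T (1 / 4)) G)
      (EC (wT P.n R.T 0) F - EC (wT P.n R.T 0) G)
    linarith

/-- Expectation of the character of a unit label. -/
lemma mfp_EC_unit {T : ℕ} (lam : ℂ) (g : Lab P.n T) (τ : Fin T) (hg : g = unitL P.n T τ) :
    EC (wT P.n T lam) (fun a => ch (pair a g)) = lam := by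
  have h := EC_chA P.hn lam ({τ} : Finset (Fin T))
  rw [Finset.card_singleton, pow_one] at h
  have he : (fun a : Lab P.n T => ch (pair a g)) = chA {τ} := by
    funext a
    rw [hg, pair_unitL]
    simp [chA]
  rw [he]
  exact h

/-- The factor in front of the block forms. -/
def mfpK (j : ℕ) : ℝ := (1 / (1 + epsj j)) * (P.k : ℝ) ^ ((P.k : ℝ) / P.p)

lemma epsj_pos (j : ℕ) : 0 < epsj j := by unfold epsj; positivity

lemma epsj_le_one (j : ℕ) : epsj j ≤ 1 := by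
  unfold epsj
  rw [div_le_one (by positivity)]
  have : (0 : ℝ) ≤ j := Nat.cast_nonneg _
  linarith

/-- Choice of `j`. -/
lemma mfp_exists_j (D0 : ℕ) {K e1 e : ℝ} (he1 : 0 < e1) (he : 0 < e) :
    ∃ j : ℕ, D0 ≤ j + 2 ∧ K * epsj j ≤ e1 ∧ epsj j ≤ e := by
  obtain ⟨j, hj⟩ := exists_nat_ge ((D0 : ℝ) + |K| / e1 + 1 / e)
  have hD : (0 : ℝ) ≤ D0 := Nat.cast_nonneg _
  have hK : 0 ≤ |K| / e1 := by positivity
  have hE : 0 ≤ 1 / e := by positivity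
  have hj2 : (0 : ℝ) < (j : ℝ) + 2 := by positivity
  refine ⟨j, ?_, ?_, ?_⟩
  · have : (D0 : ℝ) ≤ j := by linarith
    have : D0 ≤ j := by exact_mod_cast this
    omega
  · have h1 : |K| / e1 ≤ (j : ℝ) + 2 := by linarith
    rw [div_le_iff₀ he1] at h1
    unfold epsj
    rw [mul_one_div, div_le_iff₀ hj2]
    have := le_abs_self K
    linarith [mul_comm e1 ((j : ℝ) + 2)]
  · have h1 : 1 / e ≤ (j : ℝ) + 2 := by linarith
    rw [div_le_iff₀ he] at h1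
    unfold epsj
    rw [div_le_iff₀ hj2]
    linarith [mul_comm e ((j : ℝ) + 2)]

/-- Choice of the radius. -/
lemma mfp_exists_r {e : ℝ} (he : 0 < e) (he1 : e ≤ 1) :
    ∃ r : ℝ, 0 < r ∧ r < 1 ∧ 1 - e / 8 ≤ r ^ P.k := by
  have hk : (1 : ℝ) ≤ P.k := by have := P.k_gt; exact_mod_cast (by omega : 1 ≤ P.k)
  have h1 : 0 < e / (8 * P.k) := by positivity
  have h2 : e / (8 * P.k) ≤ 1 / 8 := by
    rw [div_le_div_iff₀ (by positivity) (by norm_num)]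
    nlinarith
  refine ⟨1 - e / (8 * P.k), by linarith, by linarith, ?_⟩
  have h3 := one_add_mul_le_pow (a := -(e / (8 * P.k))) (by linarith) P.k
  have h4 : (P.k : ℝ) * -(e / (8 * P.k)) = -(e / 8) := by
    field_simp
  rw [h4] at h3
  have h5 : (1 : ℝ) + -(e / (8 * P.k)) = 1 - e / (8 * P.k) := by ring
  rw [h5] at h3
  linarith

/-- The finite approximation property.

PROOF. `Fh, Ph` from `scheme`. Given `eps ≤ 1`, `FF`, `LL`: choose `r0 < 1` with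
`r0^k ≥ 1 - eps/8`. For `f ∈ FF` let `R_f, T_f` be from `taylor` with `r0` and precision
`e1` (a small number depending on `eps` and the bounds `‖f‖ ≤ B`); for `l ∈ LL` let `T_l 1` be the
linear form `l` and `T_l m = 0` otherwise. Let `C ≥ 1` bound the norms of all forms, `D0` all
`R_f`. Choose `j` large: `D0 ≤ j + 2`, `2 D0 C eps_j ≤ e1`, `D0² C² eps_j ≤ e1`, `eps_j ≤ eps/8`;
then `eta` with `D0 (k N)^{D0} eta ≤ e1` and `k N eta ≤ e1` (`N = NN` of `Rj j`). Let `u` be from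
`scheme` (`r` = number of all `f`, `l`). Let `Z = Lab`, `x a = r0 • xpt u a` (norm `≤ r0 < 1`, since
`∑_v |(kN)^{-1/p}|^p = 1`), `w0 = wT 0`, `w1 = wT (1/4)`.
(a) By `taylor` and `expansion` for every `a`: `|f(x a) - G_f(a)| ≤ e1 + 2 e1 =: e2`,
`G_f = ∑ co_i chA(A_i)`; by `var_chA` the variance of `G_f` is at most `2 e1`; the variance of
`f ∘ x` is at most `2 Var(G_f) + 8 e2²` or so, `≤ eps`.
(b) If `|f| ≤ 1` then for `‖lam‖ ≤ 1/2`: `|EC (wT lam) G_f| ≤ 1 + e2`, and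
`EC (wT lam) G_f = ∑ co_i lam^{|A_i|}` (`EC_chA`); so by `schwarz_quarter` the difference of the
values at `1/4` and `0` is at most `1 + e2`, and `|E_1 f - E_0 f| ≤ 1 + 3 e2 ≤ 1 + eps`.
(c) `|l(x a)| ≤ ∑_v (kN)^{-1/p} |l(u v)| ≤ k N eta ≤ e1`: the tuple of length one has a gadget by
`gadget_one`.
(d) `Fh(x a) = (1/(1+eps_j)) k^{k/p} ∑_{c ∈ F} ∏_i r0 (kN)^{-1/p} ch(pair a (label c_i))
= r0^k (1/(1+eps_j)) N^{-k/p} |F|` as `Lsum c = 0`; it lies between `(1-eps/8)(1-eps_j)/(1+eps_j)`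
and `1` (`F_size`, and `|Fh| ≤ 1`). `Ph(x a) = r0^k (1/(1+eps_j)) N^{-k/p} ∑_{c ∈ Q} a_{τ(c)}`-th
characters, whose expectation is `lam` times the same kind of factor (`Q_size`; the factor is at
most `1` by `Q_norm` with the constant function). -/
theorem finApprox_lp {p : ℝ≥0∞} [Fact (1 ≤ p)] (hP : P.p = p.toReal) : FinApprox (LP p) := by
  classical
  obtain ⟨Fh, Ph, hFb, hF0, hsch⟩ := scheme P hP
  refine ⟨Fh, Ph, hFb, hF0, fun eps heps FF LL => ?_⟩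
  obtain ⟨e, he⟩ : ∃ e : ℝ, e = min eps 1 := ⟨_, rfl⟩
  have he0 : 0 < e := by rw [he]; exact lt_min heps one_pos
  have he1 : e ≤ 1 := by rw [he]; exact min_le_right _ _
  have hee : e ≤ eps := by rw [he]; exact min_le_left _ _
  obtain ⟨r0, hr0, hr1, hrk⟩ := mfp_exists_r P he0 he1
  obtain ⟨e1, he1d⟩ : ∃ e1 : ℝ, e1 = e / 100 := ⟨_, rfl⟩
  have he1p : 0 < e1 := by rw [he1d]; positivity
  choose Rf Tf hTf0 hTf using fun f : AuBall (LP p) => taylor f hr0 hr1 he1p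
  obtain ⟨D0, hD0d⟩ : ∃ D0 : ℕ, D0 = FF.sup Rf + 2 := ⟨_, rfl⟩
  have hD0 : ∀ f ∈ FF, Rf f ≤ D0 := fun f hf => by
    have := Finset.le_sup (f := Rf) hf
    omega
  obtain ⟨C, hCd⟩ : ∃ C : ℝ, C = 1 + (∑ f ∈ FF, ∑ m ∈ range (Rf f), ‖Tf f m‖) + ∑ l ∈ LL, ‖l‖ :=
    ⟨_, rfl⟩
  have hs1 : 0 ≤ ∑ f ∈ FF, ∑ m ∈ range (Rf f), ‖Tf f m‖ :=
    Finset.sum_nonneg fun _ _ => Finset.sum_nonneg fun _ _ => norm_nonneg _
  have hs2 : 0 ≤ ∑ l ∈ LL, ‖l‖ := Finset.sum_nonneg fun _ _ => norm_nonneg _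
  have hC1 : 1 ≤ C := by rw [hCd]; linarith
  have hCf : ∀ f ∈ FF, ∀ m, ‖Tf f m‖ ≤ C := by
    intro f hf m
    by_cases hm : Rf f ≤ m
    · rw [hTf0 f m hm, norm_zero]; linarith
    · push Not at hm
      have h1 : ‖Tf f m‖ ≤ ∑ m ∈ range (Rf f), ‖Tf f m‖ :=
        Finset.single_le_sum (f := fun m => ‖Tf f m‖) (fun _ _ => norm_nonneg _)
          (Finset.mem_range.2 hm)
      have h2 : ∑ m ∈ range (Rf f), ‖Tf f m‖ ≤ ∑ f ∈ FF, ∑ m ∈ range (Rf f), ‖Tf f m‖ :=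
        Finset.single_le_sum (f := fun f => ∑ m ∈ range (Rf f), ‖Tf f m‖)
          (fun _ _ => Finset.sum_nonneg fun _ _ => norm_nonneg _) hf
      rw [hCd]; linarith
  have hCl : ∀ l ∈ LL, ‖l‖ ≤ C := by
    intro l hl
    have h1 : ‖l‖ ≤ ∑ l ∈ LL, ‖l‖ :=
      Finset.single_le_sum (f := fun l : LP p →L[ℂ] ℂ => ‖l‖) (fun _ _ => norm_nonneg _) hl
    rw [hCd]; linarith
  obtain ⟨j, hj1, hj2, hj3⟩ := mfp_exists_j D0 (K := 2 * D0 * C + (D0 : ℝ) ^ 2 * C ^ 2) he1p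
    (by positivity : 0 < e / 8)
  have hN0 := (Rj P j).N0_pos
  have hep := epsj_pos j
  have hkk1 : 2 * D0 * C * epsj j ≤ e1 := by
    have : 0 ≤ (D0 : ℝ) ^ 2 * C ^ 2 * epsj j := by positivity
    linarith [add_mul (2 * D0 * C) ((D0 : ℝ) ^ 2 * C ^ 2) (epsj j)]
  have hkk2 : (D0 : ℝ) ^ 2 * C ^ 2 * epsj j ≤ e1 := by
    have : 0 ≤ 2 * D0 * C * epsj j := by positivity
    linarith [add_mul (2 * D0 * C) ((D0 : ℝ) ^ 2 * C ^ 2) (epsj j)]
  obtain ⟨M, hM⟩ : ∃ M : ℝ, M = (P.k : ℝ) * NN P (Rj P j).T (Rj P j).N0 := ⟨_, rfl⟩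
  have hM1 : 1 ≤ M := by rw [hM]; exact mfp_kN_pos P hN0
  obtain ⟨eta, hetad⟩ : ∃ eta : ℝ, eta = e1 / (D0 * M ^ D0 + M) := ⟨_, rfl⟩
  have hden : 0 < D0 * M ^ D0 + M := by positivity
  have hetap : 0 < eta := by rw [hetad]; positivity
  have hetae : (D0 * M ^ D0 + M) * eta = e1 := by
    rw [hetad]; field_simp
  have heta1 : D0 * M ^ D0 * eta ≤ e1 := by
    have : 0 ≤ M * eta := by positivity
    linarith [add_mul (D0 * M ^ D0) M eta]
  have heta2 : M * eta ≤ e1 := by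
    have : 0 ≤ D0 * M ^ D0 * eta := by positivity
    linarith [add_mul (D0 * M ^ D0) M eta]
  obtain ⟨T, hT⟩ : ∃ T : Fin (FF.card + LL.card) → (m : ℕ) →
      ContinuousMultilinearMap ℂ (fun _ : Fin m => LP p) ℂ,
      T = fun i => Fin.addCases (fun i => Tf (FF.equivFin.symm i).1)
        (fun i => mfpLin (LL.equivFin.symm i).1) i := ⟨_, rfl⟩
  have hTl : ∀ i, T (Fin.castAdd LL.card i) = Tf (FF.equivFin.symm i).1 := by
    intro i
    rw [hT]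
    simp only [Fin.addCases_left]
  have hTr : ∀ i, T (Fin.natAdd FF.card i) = mfpLin (LL.equivFin.symm i).1 := by
    intro i
    rw [hT]
    simp only [Fin.addCases_right]
  have hTn : ∀ i, ∀ m ≤ j + 1, ‖T i m‖ ≤ C := by
    intro i m _
    refine Fin.addCases (fun i => ?_) (fun i => ?_) i
    · rw [hTl]
      exact hCf _ (FF.equivFin.symm i).2 m
    · rw [hTr]
      exact (mfpLin_norm _ _).trans (hCl _ (LL.equivFin.symm i).2)
  obtain ⟨u, hu1, hup, hukill, huval⟩ := hsch j C eta (by linarith) hetap _ T hTn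
  have hxn : ∀ a, ‖xpt P u a‖ ≤ 1 := mfp_xpt_norm P hN0 u hup
  have hxm : ∀ a, (r0 : ℂ) • xpt P u a ∈ ball (0 : LP p) 1 := by
    intro a
    rw [mem_ball_zero_iff, norm_smul, Complex.norm_real, Real.norm_of_nonneg hr0.le]
    have := hxn a
    nlinarith [norm_nonneg (xpt P u a)]
  have hl0 : ‖(0 : ℂ)‖ ≤ 1 / 2 := by simp
  have hl1 : ‖(1 / 4 : ℂ)‖ ≤ 1 / 2 := by norm_num
  have hfun : ∀ f ∈ FF, (∀ lam : ℂ, ‖lam‖ ≤ 1 / 2 →
      ER (wT P.n (Rj P j).T lam) (fun a => ‖f.1 ⟨(r0 : ℂ) • xpt P u a, hxm a⟩ -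
        EC (wT P.n (Rj P j).T lam) (fun a => f.1 ⟨(r0 : ℂ) • xpt P u a, hxm a⟩)‖ ^ 2) ≤
          4 * e1 + 72 * e1 ^ 2) ∧
      ((∀ a, ‖f.1 ⟨(r0 : ℂ) • xpt P u a, hxm a⟩‖ ≤ 1) →
      ‖EC (wT P.n (Rj P j).T (1 / 4)) (fun a => f.1 ⟨(r0 : ℂ) • xpt P u a, hxm a⟩) -
        EC (wT P.n (Rj P j).T 0) (fun a => f.1 ⟨(r0 : ℂ) • xpt P u a, hxm a⟩)‖ ≤ 1 + 9 * e1) := by
    intro f hf
    refine mfp_fun P hep.le (Rj P j) u hu1 (Tf f) (hCf f hf) hetap.le (D := D0) (by omega)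
      (fun m hm lam hg => ?_) (by rw [← hM]; exact heta1) hkk1 hkk2 _ (fun a => ?_)
    · have h1 := hukill (Fin.castAdd LL.card (FF.equivFin ⟨f, hf⟩)) m (by omega) lam hg
      rw [hTl, Equiv.symm_apply_apply] at h1
      exact h1
    · have h1 := hTf f (xpt P u a) (hxn a)
      rw [extZ_of_mem (hxm a)] at h1
      have h2 : ∑ m ∈ range (Rf f), Tf f m (fun _ => xpt P u a) =
          ∑ m ∈ range D0, Tf f m (fun _ => xpt P u a) := by
        refine Finset.sum_subset (fun m hm => ?_) (fun m _ hm => ?_)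
        · rw [Finset.mem_range] at hm ⊢
          exact lt_of_lt_of_le hm (hD0 f hf)
        · rw [Finset.mem_range, not_lt] at hm
          rw [hTf0 f m hm]
          rfl
      rw [← h2]
      exact h1
  have hblock : ∀ a, (⟨(r0 : ℂ) • xpt P u a, hxm a⟩ : ball (0 : LP p) 1).1 =
      ∑ v, ((r0 : ℂ) * (mfpc P (Rj P j).T (Rj P j).N0 : ℂ) * ch (pair a v.2.2)) • u v :=
    fun a => mfp_xpt_eq P u a _
  have hFv : ∀ a, Fh.1 ⟨(r0 : ℂ) • xpt P u a, hxm a⟩ =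
      ((mfpK P j * ((r0 ^ P.k * mfpc P (Rj P j).T (Rj P j).N0 ^ P.k) * (Rj P j).F.card) : ℝ) : ℂ) := by
    intro a
    rw [(huval _ _ (hblock a)).1, mfp_block P r0 a (Rj P j).F]
    have h1 : ∑ c ∈ (Rj P j).F, ch (pair a (Lsum c)) = ((Rj P j).F.card : ℂ) := by
      rw [Finset.sum_congr rfl fun c hc => by
        rw [(Rj P j).F_lab c hc, show pair a (0 : Lab P.n (Rj P j).T) = 0 by simp [pair],
          mfp_ch_zero]]
      simp
    rw [h1, mfpK]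
    push_cast
    ring
  have hPv : ∀ lam : ℂ, EC (wT P.n (Rj P j).T lam)
      (fun a => Ph.1 ⟨(r0 : ℂ) • xpt P u a, hxm a⟩) =
      ((mfpK P j * ((r0 ^ P.k * mfpc P (Rj P j).T (Rj P j).N0 ^ P.k) * (Rj P j).Q.card) : ℝ) : ℂ) *
        lam := by
    intro lam
    have h1 : ∀ a, Ph.1 ⟨(r0 : ℂ) • xpt P u a, hxm a⟩ = ∑ c ∈ (Rj P j).Q,
        ((mfpK P j * (r0 ^ P.k * mfpc P (Rj P j).T (Rj P j).N0 ^ P.k) : ℝ) : ℂ) *
          ch (pair a (Lsum c)) := by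
      intro a
      rw [(huval _ _ (hblock a)).2, mfp_block P r0 a (Rj P j).Q, ← Finset.mul_sum, mfpK]
      push_cast
      ring
    rw [funext h1, mfp_EC_sum (Rj P j).Q (fun _ =>
      ((mfpK P j * (r0 ^ P.k * mfpc P (Rj P j).T (Rj P j).N0 ^ P.k) : ℝ) : ℂ))
      (fun c a => ch (pair a (Lsum c)))]
    rw [Finset.sum_congr rfl fun c hc => by
      obtain ⟨τ, hτ⟩ := (Rj P j).Q_lab c hc
      rw [mfp_EC_unit P lam _ τ hτ]]
    rw [Finset.sum_const, nsmul_eq_mul]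
    push_cast
    ring
  have hFa : |mfpK P j * ((r0 ^ P.k * mfpc P (Rj P j).T (Rj P j).N0 ^ P.k) * (Rj P j).F.card) - 1|
      ≤ e := mfp_factor P hN0 hep (epsj_le_one j) hr0 hr1.le he0 hrk hj3 (Rj P j).F_size
        (mfp_card_le P hN0 (Rj P j).F_norm)
  have hQa : |mfpK P j * ((r0 ^ P.k * mfpc P (Rj P j).T (Rj P j).N0 ^ P.k) * (Rj P j).Q.card) - 1|
      ≤ e := mfp_factor P hN0 hep (epsj_le_one j) hr0 hr1.le he0 hrk hj3 (Rj P j).Q_size
        (mfp_card_le P hN0 (Rj P j).Q_norm)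
  have hFE : ∀ lam : ℂ, ‖lam‖ ≤ 1 / 2 → ‖EC (wT P.n (Rj P j).T lam)
      (fun a => Fh.1 ⟨(r0 : ℂ) • xpt P u a, hxm a⟩) - 1‖ ≤ eps := by
    intro lam hl
    rw [funext hFv, EC_const (wT_sum P.hn lam _), ← Complex.ofReal_one, ← Complex.ofReal_sub,
      Complex.norm_real, Real.norm_eq_abs]
    exact hFa.trans hee
  have hlin : ∀ l ∈ LL, ∀ a, ‖l ((r0 : ℂ) • xpt P u a)‖ ≤ eps := by
    intro l hl a
    rw [mfp_xpt_eq, map_sum]
    refine (norm_sum_le _ _).trans ?_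
    have h1 : ∀ v, ‖l (((r0 : ℂ) * (mfpc P (Rj P j).T (Rj P j).N0 : ℂ) * ch (pair a v.2.2)) • u v)‖
        ≤ eta := by
      intro v
      have h2 := hukill (Fin.natAdd FF.card (LL.equivFin ⟨l, hl⟩)) 1 (by omega) (fun _ => v)
        (gadget_one P _ _)
      rw [hTr, Equiv.symm_apply_apply, mfpLin_one] at h2
      rw [map_smul, smul_eq_mul, norm_mul, norm_mul, norm_mul, norm_ch, Complex.norm_real,
        Complex.norm_real, Real.norm_of_nonneg hr0.le,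
        Real.norm_of_nonneg (mfpc_pos P hN0).le, mul_one]
      have h3 := mfpc_le_one P (T := (Rj P j).T) hN0
      have h4 := (mfpc_pos P (T := (Rj P j).T) hN0).le
      have h5 : r0 * mfpc P (Rj P j).T (Rj P j).N0 ≤ 1 := by nlinarith
      have h6 : 0 ≤ r0 * mfpc P (Rj P j).T (Rj P j).N0 := by positivity
      calc r0 * mfpc P (Rj P j).T (Rj P j).N0 * ‖l (u v)‖ ≤ 1 * eta := by
            gcongr
        _ = eta := one_mul _
    refine (Finset.sum_le_sum fun v _ => h1 v).trans ?_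
    rw [Finset.sum_const, Finset.card_univ, nsmul_eq_mul, mfp_card_V, ← hM]
    have : e1 ≤ eps := by rw [he1d]; linarith
    linarith
  refine ⟨Lab P.n (Rj P j).T, inferInstance, fun a => ⟨(r0 : ℂ) • xpt P u a, hxm a⟩,
    wT P.n (Rj P j).T 0, wT P.n (Rj P j).T (1 / 4), wT_nonneg hl0 _, wT_nonneg hl1 _,
    wT_sum P.hn _ _, wT_sum P.hn _ _, fun f hf => ⟨?_, ?_⟩, fun f hf hb => ?_, fun l hl => ⟨?_, ?_⟩,
    hFE 0 hl0, hFE (1 / 4) hl1, ?_, ?_⟩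
  · refine ((hfun f hf).1 0 hl0).trans ?_
    rw [he1d]
    nlinarith
  · refine ((hfun f hf).1 (1 / 4) hl1).trans ?_
    rw [he1d]
    nlinarith
  · refine ((hfun f hf).2 fun a => hb _).trans ?_
    rw [he1d]
    linarith
  · exact norm_EC_le_of_le (wT_nonneg hl0 _) (wT_sum P.hn _ _) fun a => hlin l hl a
  · exact norm_EC_le_of_le (wT_nonneg hl1 _) (wT_sum P.hn _ _) fun a => hlin l hl a
  · rw [hPv, mul_zero, norm_zero]
    exact heps.le
  · rw [hPv]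
    have h1 : ((mfpK P j * ((r0 ^ P.k * mfpc P (Rj P j).T (Rj P j).N0 ^ P.k) * (Rj P j).Q.card) : ℝ) : ℂ) *
        (1 / 4) - 1 / 4 = (((mfpK P j * ((r0 ^ P.k * mfpc P (Rj P j).T (Rj P j).N0 ^ P.k) *
          (Rj P j).Q.card) - 1) / 4 : ℝ) : ℂ) := by
      push_cast
      ring
    rw [h1, Complex.norm_real, Real.norm_eq_abs, abs_div]
    have : |(4 : ℝ)| = 4 := by norm_num
    rw [this]
    linarith

end

end Pool.Agent.GP2
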