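import Pool.Agent.GP2.Mfp1A

/-!
# MFP 1: label sums of good tuples
-/

namespace Pool.Agent.GP2

open Finset

noncomputable section

variable (P : Par)

/-- The pairing of labels. -/
def pair {n T : ℕ} (a g : Lab n T) : ZMod n := ∑ τ, a τ * g τ

theorem pair_sum {n T : ℕ} (a : Lab n T) {ι : Type*} (s : Finset ι) (g : ι → Lab n T) :
    pair a (∑ i ∈ s, g i) = ∑ i ∈ s, pair a (g i) := by
  simp only [pair, Finset.sum_apply, Finset.mul_sum]
  exact Finset.sum_comm

theorem pair_unitL {n T : ℕ} (a : Lab n T) (τ : Fin T) : pair a (unitL n T τ) = a τ := by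
  simp [pair, unitL, Pi.single_apply]

/-- The points, with vectors `u v` for the vertices. -/
def xpt {T N0 : ℕ} {V : Type} [NormedAddCommGroup V] [NormedSpace ℂ V]
    (u : Fin P.k × XX P.n T N0 → V) (a : Lab P.n T) : V :=
  ∑ v, (((((P.k : ℝ) * NN P T N0) ^ (-(1 / P.p))) : ℝ) : ℂ) • (ch (pair a v.2.2) • u v)

lemma mfp1_ch_sum {n : ℕ} [NeZero n] {ι : Type*} (s : Finset ι) (g : ι → ZMod n) :
    ch (∑ i ∈ s, g i) = ∏ i ∈ s, ch (g i) := by
  classical
  induction s using Finset.induction_on with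
  | empty => simp [ch]
  | insert i s hi ih => rw [Finset.sum_insert hi, Finset.prod_insert hi, ch_add, ih]

lemma mfp1_exp {T N0 m : ℕ} {V : Type} [NormedAddCommGroup V] [NormedSpace ℂ V]
    (u : Fin P.k × XX P.n T N0 → V) (a : Lab P.n T)
    (f : ContinuousMultilinearMap ℂ (fun _ : Fin m => V) ℂ) :
    f (fun _ => xpt P u a) = ∑ lam : Fin m → Fin P.k × XX P.n T N0,
      ((((P.k : ℝ) * NN P T N0) ^ (-(1 / P.p)) : ℝ) : ℂ) ^ m *
        f (fun l => u (lam l)) * ch (pair a (LabSum P lam)) := by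
  classical
  unfold xpt
  rw [ContinuousMultilinearMap.map_sum (f := f)
    (g := fun _ v => (((((P.k : ℝ) * NN P T N0) ^ (-(1 / P.p))) : ℝ) : ℂ) •
      (ch (pair a v.2.2) • u v))]
  refine Finset.sum_congr rfl fun lam _ => ?_
  simp only [smul_smul]
  rw [ContinuousMultilinearMap.map_smul_univ, Finset.prod_mul_distrib, Finset.prod_const,
    Finset.card_univ, Fintype.card_fin, LabSum, pair_sum, mfp1_ch_sum, smul_eq_mul]
  ring

/-- The normalising factor. -/
def mfp1c (T N0 : ℕ) : ℝ := ((P.k : ℝ) * NN P T N0) ^ (-(1 / P.p))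

lemma mfp1_NN_ge {T N0 : ℕ} (hN : 1 ≤ N0) : 1 ≤ NN P T N0 := by
  unfold NN
  have h1 : (1 : ℝ) ≤ N0 := by exact_mod_cast hN
  have h2 : (1 : ℝ) ≤ (P.n : ℝ) ^ T := by
    apply one_le_pow₀
    have := P.hn
    exact_mod_cast (by omega : 1 ≤ P.n)
  nlinarith

lemma mfp1_kN_ge {T N0 : ℕ} (hN : 1 ≤ N0) : 1 ≤ (P.k : ℝ) * NN P T N0 := by
  have h1 := mfp1_NN_ge P (T := T) hN
  have h2 : (1 : ℝ) ≤ P.k := by
    have := P.k_gt
    exact_mod_cast (by omega : 1 ≤ P.k)
  nlinarith

lemma mfp1c_pos {T N0 : ℕ} (hN : 1 ≤ N0) : 0 < mfp1c P T N0 :=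
  Real.rpow_pos_of_pos (lt_of_lt_of_le one_pos (mfp1_kN_ge P hN)) _

lemma mfp1c_le_one {T N0 : ℕ} (hN : 1 ≤ N0) : mfp1c P T N0 ≤ 1 := by
  apply Real.rpow_le_one_of_one_le_of_nonpos (mfp1_kN_ge P hN)
  have := P.p_pos
  have : 0 < 1 / P.p := by positivity
  linarith

lemma mfp1c_pow {T N0 : ℕ} (hN : 1 ≤ N0) (m : ℕ) :
    mfp1c P T N0 ^ m * NN P T N0 ^ ((m : ℝ) / P.p) ≤ 1 := by
  have h0 := mfp1_kN_ge P (T := T) hN
  have h1 := mfp1_NN_ge P (T := T) hN
  have hp := P.p_pos
  have h2 : (1 : ℝ) ≤ P.k := by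
    have := P.k_gt
    exact_mod_cast (by omega : 1 ≤ P.k)
  have h3 : mfp1c P T N0 ^ m = ((P.k : ℝ) * NN P T N0) ^ (-((m : ℝ) / P.p)) := by
    unfold mfp1c
    rw [← Real.rpow_natCast, ← Real.rpow_mul (by linarith)]
    congr 1
    field_simp
  rw [h3, Real.rpow_neg (by linarith)]
  have h4 : NN P T N0 ^ ((m : ℝ) / P.p) ≤ ((P.k : ℝ) * NN P T N0) ^ ((m : ℝ) / P.p) := by
    apply Real.rpow_le_rpow (by linarith)
    · nlinarith
    · positivity
  have h5 : 0 < ((P.k : ℝ) * NN P T N0) ^ ((m : ℝ) / P.p) :=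
    Real.rpow_pos_of_pos (by linarith) _
  rw [inv_mul_le_iff₀ h5]
  linarith

lemma mfp1_card {T N0 : ℕ} (m : ℕ) :
    (Fintype.card (Fin m → Fin P.k × XX P.n T N0) : ℝ) = ((P.k : ℝ) * NN P T N0) ^ m := by
  rw [Fintype.card_fun, Fintype.card_fin, Fintype.card_prod, Fintype.card_fin]
  push_cast
  rw [card_XX]

/-- The expansion of a polynomial at the points.

PROOF. Let `c = (k N)^{-1/p}`, `N = NN P T N0 ≥ 1`. By multilinearity
(`ContinuousMultilinearMap.map_sum` and `map_smul_univ`)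
`T m (x, ..., x) = ∑_{lam : Fin m → V} c^m ch(pair a (LabSum lam)) T m (u ∘ lam)`. Split the `lam`
by `trichotomy`. Those with a gadget: `|T m (u ∘ lam)| ≤ eta`, there are at most `(k N)^m` of them, so
they contribute at most `(k N)^m eta`. Those in `set4 ∪ set5`: `|T m (u ∘ lam)| ≤ C` and
`c^m (|set4| + |set5|) ≤ 2 eps` by `c4`, `c5`. The rest: choose `A(lam)` with `GA`; then
`ch(pair a (LabSum lam)) = chA (A lam) a`. The index set is the set of the rest of the `lam` for all
`m < D`, `co = c^m T m (u ∘ lam)`, `|co| ≤ c^m C`, and by `mem_set6`, `c6` the sum over the pairs with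
`¬ Disjoint` is at most `∑_{m, m' < D} c^{m + m'} C² |set6| ≤ D² C² eps`. -/
theorem expansion {m0 : ℕ} {eps : ℝ} (heps : 0 ≤ eps) (R : RH P m0 eps) {V : Type}
    [NormedAddCommGroup V] [NormedSpace ℂ V] (u : Fin P.k × XX P.n R.T R.N0 → V)
    (hu : ∀ v, ‖u v‖ ≤ 1) (T : (m : ℕ) → ContinuousMultilinearMap ℂ (fun _ : Fin m => V) ℂ)
    {C eta : ℝ} (hC : ∀ m, ‖T m‖ ≤ C) (heta : 0 ≤ eta) {D : ℕ} (hD : D ≤ m0 + 1)
    (hkill : ∀ m < D, ∀ lam : Fin m → Fin P.k × XX P.n R.T R.N0,
      Nonempty (Gadget P.p (R.F ∪ R.Q) lam) → ‖T m (fun l => u (lam l))‖ ≤ eta) :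
    ∃ (ι : Type) (s : Finset ι) (co : ι → ℂ) (A : ι → Finset (Fin R.T)),
      (∀ a : Lab P.n R.T, ‖(∑ m ∈ range D, T m (fun _ => xpt P u a)) -
        ∑ i ∈ s, co i * chA (A i) a‖ ≤
          D * ((P.k : ℝ) * NN P R.T R.N0) ^ D * eta + 2 * D * C * eps) ∧
      ∑ x ∈ (s ×ˢ s).filter (fun x => ¬ Disjoint (A x.1) (A x.2)), ‖co x.1‖ * ‖co x.2‖ ≤
        (D : ℝ) ^ 2 * C ^ 2 * eps := by
  classical
  have hC0 : 0 ≤ C := (norm_nonneg _).trans (hC 0)
  have hTC : ∀ (m : ℕ) (lam : Fin m → Fin P.k × XX P.n R.T R.N0),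
      ‖T m (fun l => u (lam l))‖ ≤ C := by
    intro m lam
    refine ((T m).le_opNorm _).trans ?_
    have h1 : ∏ l : Fin m, ‖u (lam l)‖ ≤ 1 :=
      Finset.prod_le_one (fun _ _ => norm_nonneg _) (fun l _ => hu _)
    calc ‖T m‖ * ∏ l : Fin m, ‖u (lam l)‖ ≤ ‖T m‖ * 1 :=
          mul_le_mul_of_nonneg_left h1 (norm_nonneg _)
      _ ≤ C := by rw [mul_one]; exact hC m
  have hN0 := R.N0_pos
  set c : ℝ := mfp1c P R.T R.N0 with hc
  have hc0 : 0 < c := mfp1c_pos P hN0
  have hc1 : c ≤ 1 := mfp1c_le_one P hN0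
  set E := R.F ∪ R.Q with hE
  let kill : (m : ℕ) → (Fin m → Fin P.k × XX P.n R.T R.N0) → Prop :=
    fun m lam => Nonempty (Gadget P.p E lam)
  let bad : (m : ℕ) → Finset (Fin m → Fin P.k × XX P.n R.T R.N0) :=
    fun m => set4 P m E ∪ set5 P m R.T R.N0 E
  let rest : (m : ℕ) → Finset (Fin m → Fin P.k × XX P.n R.T R.N0) :=
    fun m => univ.filter fun lam => ¬ kill m lam ∧ lam ∉ bad m
  have hrest : ∀ m, ∀ lam ∈ rest m, ∃ A, GA P E lam A := by
    intro m lam hlam
    rw [mem_filter] at hlam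
    rcases trichotomy P R lam with h | h | h
    · exact absurd h hlam.2.1
    · exact absurd h hlam.2.2
    · exact h
  let s : Finset (Σ m : ℕ, (Fin m → Fin P.k × XX P.n R.T R.N0)) := (range D).sigma rest
  let co : (Σ m : ℕ, (Fin m → Fin P.k × XX P.n R.T R.N0)) → ℂ :=
    fun x => (c : ℂ) ^ x.1 * T x.1 (fun l => u (x.2 l))
  let A : (Σ m : ℕ, (Fin m → Fin P.k × XX P.n R.T R.N0)) → Finset (Fin R.T) :=
    fun x => if h : ∃ A, GA P E x.2 A then h.choose else ∅
  have hA : ∀ x ∈ s, GA P E x.2 (A x) := by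
    intro x hx
    have h := hrest x.1 x.2 (Finset.mem_sigma.1 hx).2
    simp only [A, dif_pos h]
    exact h.choose_spec
  refine ⟨_, s, co, A, ?_, ?_⟩
  · intro a
    have hch : ∀ x ∈ s, chA (A x) a = ch (pair a (LabSum P x.2)) := by
      intro x hx
      rw [(hA x hx).1, pair_sum]
      simp only [pair_unitL, chA]
    have hsum : ∑ i ∈ s, co i * chA (A i) a = ∑ m ∈ range D, ∑ lam ∈ rest m,
        (c : ℂ) ^ m * T m (fun l => u (lam l)) * ch (pair a (LabSum P lam)) := by
      rw [Finset.sum_congr rfl (fun x hx => by rw [hch x hx])]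
      rw [Finset.sum_sigma]
    have hbound : ∀ m ∈ range D, ‖T m (fun _ => xpt P u a) - ∑ lam ∈ rest m,
        (c : ℂ) ^ m * T m (fun l => u (lam l)) * ch (pair a (LabSum P lam))‖ ≤
        ((P.k : ℝ) * NN P R.T R.N0) ^ D * eta + 2 * C * eps := by
      intro m hm
      have hmD := mem_range.1 hm
      have hm0 : m ≤ m0 := by omega
      have hx := mfp1_exp P u a (T m)
      rw [hx]
      have hsplit : ∑ lam : Fin m → Fin P.k × XX P.n R.T R.N0,
          ((((P.k : ℝ) * NN P R.T R.N0) ^ (-(1 / P.p)) : ℝ) : ℂ) ^ m *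
            T m (fun l => u (lam l)) * ch (pair a (LabSum P lam)) -
          ∑ lam ∈ rest m, (c : ℂ) ^ m * T m (fun l => u (lam l)) * ch (pair a (LabSum P lam)) =
          ∑ lam ∈ univ.filter (fun lam => ¬ (¬ kill m lam ∧ lam ∉ bad m)),
            (c : ℂ) ^ m * T m (fun l => u (lam l)) * ch (pair a (LabSum P lam)) := by
        rw [← Finset.sum_filter_add_sum_filter_not univ (fun lam => ¬ kill m lam ∧ lam ∉ bad m)]
        simp only [rest, hc, mfp1c]
        ring
      rw [hsplit]
      have hnorm : ∀ lam : Fin m → Fin P.k × XX P.n R.T R.N0,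
          ‖(c : ℂ) ^ m * T m (fun l => u (lam l)) * ch (pair a (LabSum P lam))‖ =
          c ^ m * ‖T m (fun l => u (lam l))‖ := by
        intro lam
        rw [norm_mul, norm_mul, norm_ch, mul_one, norm_pow, Complex.norm_real, Real.norm_eq_abs,
          abs_of_pos hc0]
      refine (norm_sum_le _ _).trans ?_
      rw [Finset.sum_congr rfl (fun lam _ => hnorm lam)]
      have hsub : univ.filter (fun lam => ¬ (¬ kill m lam ∧ lam ∉ bad m)) ⊆
          univ.filter (fun lam => kill m lam) ∪ bad m := by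
        intro lam hlam
        simp only [mem_filter, mem_univ, true_and, not_and_or, not_not] at hlam
        simp only [mem_union, mem_filter, mem_univ, true_and]
        exact hlam
      have hnn : ∀ lam : Fin m → Fin P.k × XX P.n R.T R.N0,
          0 ≤ c ^ m * ‖T m (fun l => u (lam l))‖ := fun lam => by positivity
      refine (Finset.sum_le_sum_of_subset_of_nonneg hsub (fun lam _ _ => hnn lam)).trans ?_
      have hun : ∑ lam ∈ univ.filter (fun lam => kill m lam) ∪ bad m,
          c ^ m * ‖T m (fun l => u (lam l))‖ ≤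
          ∑ lam ∈ univ.filter (fun lam => kill m lam), c ^ m * ‖T m (fun l => u (lam l))‖ +
          ∑ lam ∈ bad m, c ^ m * ‖T m (fun l => u (lam l))‖ := by
        rw [← Finset.sum_union_inter]
        exact le_add_of_nonneg_right (Finset.sum_nonneg fun lam _ => hnn lam)
      refine hun.trans ?_
      have hcm : c ^ m ≤ 1 := pow_le_one₀ hc0.le hc1
      apply add_le_add
      · calc ∑ lam ∈ univ.filter (fun lam => kill m lam), c ^ m * ‖T m (fun l => u (lam l))‖
            ≤ ∑ lam ∈ univ.filter (fun lam => kill m lam), eta := by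
              refine Finset.sum_le_sum fun lam hlam => ?_
              rw [mem_filter] at hlam
              have h1 := hkill m hmD lam hlam.2
              calc c ^ m * ‖T m (fun l => u (lam l))‖ ≤ 1 * eta :=
                    mul_le_mul hcm h1 (norm_nonneg _) zero_le_one
                _ = eta := one_mul _
          _ = ((univ.filter (fun lam => kill m lam)).card : ℝ) * eta := by
              rw [Finset.sum_const, nsmul_eq_mul]
          _ ≤ (Fintype.card (Fin m → Fin P.k × XX P.n R.T R.N0) : ℝ) * eta := by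
              apply mul_le_mul_of_nonneg_right _ heta
              exact_mod_cast Finset.card_le_univ _
          _ = ((P.k : ℝ) * NN P R.T R.N0) ^ m * eta := by rw [mfp1_card]
          _ ≤ ((P.k : ℝ) * NN P R.T R.N0) ^ D * eta := by
              apply mul_le_mul_of_nonneg_right _ heta
              exact pow_le_pow_right₀ (mfp1_kN_ge P hN0) hmD.le
      · calc ∑ lam ∈ bad m, c ^ m * ‖T m (fun l => u (lam l))‖
            ≤ ∑ lam ∈ bad m, c ^ m * C := by
              refine Finset.sum_le_sum fun lam _ => ?_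
              exact mul_le_mul_of_nonneg_left (hTC m lam) (pow_nonneg hc0.le _)
          _ = ((bad m).card : ℝ) * (c ^ m * C) := by
              rw [Finset.sum_const, nsmul_eq_mul]
          _ ≤ (2 * (eps * NN P R.T R.N0 ^ ((m : ℝ) / P.p))) * (c ^ m * C) := by
              apply mul_le_mul_of_nonneg_right _ (by positivity)
              have h4 := R.c4 m hm0
              have h5 := R.c5 m hm0
              have hcard : ((bad m).card : ℝ) ≤ ((set4 P m E).card : ℝ) +
                  ((set5 P m R.T R.N0 E).card : ℝ) := by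
                exact_mod_cast Finset.card_union_le _ _
              linarith
          _ = (2 * C * eps) * (c ^ m * NN P R.T R.N0 ^ ((m : ℝ) / P.p)) := by ring
          _ ≤ (2 * C * eps) * 1 := by
              apply mul_le_mul_of_nonneg_left (mfp1c_pow P hN0 m) (by positivity)
          _ = 2 * C * eps := mul_one _
    rw [hsum, ← Finset.sum_sub_distrib]
    refine (norm_sum_le _ _).trans ?_
    refine (Finset.sum_le_sum hbound).trans ?_
    rw [Finset.sum_const, card_range, nsmul_eq_mul]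
    apply le_of_eq
    ring
  · have hco : ∀ x : (Σ m : ℕ, (Fin m → Fin P.k × XX P.n R.T R.N0)), ‖co x‖ ≤ c ^ x.1 * C := by
      intro x
      simp only [co]
      rw [norm_mul, norm_pow, Complex.norm_real, Real.norm_eq_abs, abs_of_pos hc0]
      exact mul_le_mul_of_nonneg_left (hTC x.1 x.2) (pow_nonneg hc0.le _)
    let g : (Σ m : ℕ, (Fin m → Fin P.k × XX P.n R.T R.N0)) ×
        (Σ m : ℕ, (Fin m → Fin P.k × XX P.n R.T R.N0)) → ℕ × ℕ := fun x => (x.1.1, x.2.1)
    set W := (s ×ˢ s).filter (fun x => ¬ Disjoint (A x.1) (A x.2)) with hW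
    have hmaps : ∀ x ∈ W, g x ∈ range D ×ˢ range D := by
      intro x hx
      simp only [hW, mem_filter, mem_product] at hx
      simp only [g, mem_product]
      exact ⟨(Finset.mem_sigma.1 hx.1.1).1, (Finset.mem_sigma.1 hx.1.2).1⟩
    rw [← Finset.sum_fiberwise_of_maps_to hmaps]
    have hfib : ∀ y ∈ range D ×ˢ range D,
        ∑ x ∈ W.filter (fun x => g x = y), ‖co x.1‖ * ‖co x.2‖ ≤ C ^ 2 * eps := by
      intro y hy
      obtain ⟨m, m'⟩ := y
      simp only [mem_product, mem_range] at hy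
      have hm0 : m ≤ m0 := by omega
      have hm0' : m' ≤ m0 := by omega
      have hcard : ((W.filter (fun x => g x = (m, m'))).card : ℝ) ≤
          ((set6 P m m' R.T R.N0 E).card : ℝ) := by
        have himg : W.filter (fun x => g x = (m, m')) ⊆
            (set6 P m m' R.T R.N0 E).image (fun z => (⟨m, z.1⟩, ⟨m', z.2⟩)) := by
          intro x hx
          obtain ⟨⟨m1, l1⟩, ⟨m2, l2⟩⟩ := x
          rw [mem_filter] at hx
          obtain ⟨hxW, hg⟩ := hx
          simp only [g, Prod.mk.injEq] at hg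
          obtain ⟨rfl, rfl⟩ := hg
          rw [hW, mem_filter, mem_product] at hxW
          obtain ⟨⟨hx1, hx2⟩, hd⟩ := hxW
          have h6 := mem_set6 P R (hA _ hx1) (hA _ hx2) hd
          rw [mem_image]
          exact ⟨(l1, l2), h6, rfl⟩
        have := (Finset.card_le_card himg).trans Finset.card_image_le
        exact_mod_cast this
      calc ∑ x ∈ W.filter (fun x => g x = (m, m')), ‖co x.1‖ * ‖co x.2‖
          ≤ ∑ x ∈ W.filter (fun x => g x = (m, m')), (c ^ (m + m') * C ^ 2) := by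
            refine Finset.sum_le_sum fun x hx => ?_
            rw [mem_filter] at hx
            have hg := hx.2
            simp only [g, Prod.mk.injEq] at hg
            have h1 := hco x.1
            have h2 := hco x.2
            rw [hg.1] at h1
            rw [hg.2] at h2
            calc ‖co x.1‖ * ‖co x.2‖ ≤ (c ^ m * C) * (c ^ m' * C) :=
                  mul_le_mul h1 h2 (norm_nonneg _) (by positivity)
              _ = c ^ (m + m') * C ^ 2 := by rw [pow_add]; ring
        _ = ((W.filter (fun x => g x = (m, m'))).card : ℝ) * (c ^ (m + m') * C ^ 2) := by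
            rw [Finset.sum_const, nsmul_eq_mul]
        _ ≤ (eps * NN P R.T R.N0 ^ (((m : ℝ) + m') / P.p)) * (c ^ (m + m') * C ^ 2) := by
            apply mul_le_mul_of_nonneg_right _ (by positivity)
            exact hcard.trans (R.c6 m hm0 m' hm0')
        _ = (C ^ 2 * eps) * (c ^ (m + m') * NN P R.T R.N0 ^ (((m + m' : ℕ) : ℝ) / P.p)) := by
            push_cast
            ring
        _ ≤ (C ^ 2 * eps) * 1 :=
            mul_le_mul_of_nonneg_left (mfp1c_pow P hN0 (m + m')) (by positivity)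
        _ = C ^ 2 * eps := mul_one _
    refine (Finset.sum_le_sum hfib).trans ?_
    rw [Finset.sum_const, card_product, card_range, nsmul_eq_mul]
    apply le_of_eq
    push_cast
    ring

end

end Pool.Agent.GP2
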