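import Pool.Agent.GP2.Rnd
import Pool.Agent.GP2.Law

/-!
# MFP 1: label sums of good tuples
-/

namespace Pool.Agent.GP2

open Finset

noncomputable section

variable (P : Par)

/-- The sum of the labels of a tuple. -/
def LabSum {T N0 m : ℕ} (lam : Fin m → Fin P.k × XX P.n T N0) : Lab P.n T := ∑ l, (lam l).2.2

/-- A good tuple with its set of unit labels. -/
def GA {T N0 m : ℕ} (E : Finset (Fin P.k → XX P.n T N0)) (lam : Fin m → Fin P.k × XX P.n T N0)
    (A : Finset (Fin T)) : Prop :=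
  LabSum P lam = ∑ τ ∈ A, unitL P.n T τ ∧
  ∃ (t : ℕ) (e : Fin t → Fin P.k → XX P.n T N0), (∀ i, e i ∈ E) ∧ Good P.q P.n lam e ∧
    ∀ τ ∈ A, ∃ i, Lsum (e i) = unitL P.n T τ

theorem Mfp1A_nsmul {T : ℕ} (r : ℕ) (x : Lab P.n T) : (P.n * r) • x = 0 := by
  funext τ
  rw [Pi.smul_apply, nsmul_eq_mul, Nat.cast_mul, ZMod.natCast_self, zero_mul, zero_mul]
  rfl

theorem Mfp1A_unit_inj {T : ℕ} {τ τ' : Fin T} (h : unitL P.n T τ = unitL P.n T τ') :
    τ = τ' := by
  have : Fact (1 < P.n) := ⟨by have := P.hn; omega⟩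
  by_contra hne
  have h1 := congrFun h τ
  unfold unitL at h1
  rw [Pi.single_eq_same, Pi.single_eq_of_ne hne] at h1
  exact one_ne_zero h1

theorem Mfp1A_labSum {T N0 m t : ℕ} (lam : Fin m → Fin P.k × XX P.n T N0)
    (e : Fin t → Fin P.k → XX P.n T N0) :
    LabSum P lam = ∑ v ∈ VS lam e, kp lam v • v.2.2 := by
  classical
  unfold LabSum
  have hm : ∀ l ∈ (univ : Finset (Fin m)), lam l ∈ VS lam e := by
    intro l _
    unfold VS
    exact mem_union_left _ (mem_image_of_mem _ (mem_univ l))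
  rw [← sum_fiberwise_of_maps_to hm]
  refine sum_congr rfl fun v _ => ?_
  unfold kp
  rw [← sum_const]
  refine sum_congr rfl fun l hl => ?_
  rw [(mem_filter.1 hl).2]

theorem Mfp1A_lsum {T N0 m t : ℕ} (lam : Fin m → Fin P.k × XX P.n T N0)
    (e : Fin t → Fin P.k → XX P.n T N0) :
    ∑ i, Lsum (e i) = ∑ v ∈ VS lam e, dg e v • v.2.2 := by
  classical
  have h1 : ∀ i, Lsum (e i) = ∑ v ∈ VS lam e, if e i v.1 = v.2 then v.2.2 else 0 := by
    intro i
    rw [← sum_filter]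
    have h2 : (VS lam e).filter (fun v => e i v.1 = v.2) = Vx (e i) := by
      ext v
      rw [mem_filter]
      constructor
      · rintro ⟨_, h⟩
        unfold Vx
        exact mem_image.2 ⟨v.1, mem_univ _, by rw [h]⟩
      · intro h
        refine ⟨?_, ?_⟩
        · unfold VS
          exact mem_union_right _ (mem_biUnion.2 ⟨i, mem_univ _, h⟩)
        · unfold Vx at h
          obtain ⟨j, _, rfl⟩ := mem_image.1 h
          rfl
    rw [h2]
    unfold Vx Lsum
    rw [sum_image]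
    intro j _ j' _ h
    exact congrArg Prod.fst h
  rw [sum_congr rfl fun i _ => h1 i, sum_comm]
  refine sum_congr rfl fun v _ => ?_
  unfold dg
  rw [← sum_filter, sum_const]

/-- The label sum of a good tuple.

PROOF. For `v ∈ VS lam e` we have `kp lam v ≡ dg e v` modulo `n`: both are `1`, or `kp = 0` and
`dg = q` is a multiple of `n` (`Par.hqn`). So
`LabSum lam = ∑_v kp(v) label(v) = ∑_v dg(v) label(v) = ∑_i Lsum (e i)`. The edges with label sum
zero do not contribute; let `A` be the set of the unit labels of the others. As no two edges have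
the same unit label (`lam ∉ set5`) the sum is `∑_{τ ∈ A} unitL τ`. -/
theorem good_label {m0 : ℕ} {eps : ℝ} (R : RH P m0 eps) {m t : ℕ}
    {lam : Fin m → Fin P.k × XX P.n R.T R.N0} {e : Fin t → Fin P.k → XX P.n R.T R.N0}
    (he : ∀ i, e i ∈ R.F ∪ R.Q) (hg : Good P.q P.n lam e)
    (h5 : lam ∉ set5 P m R.T R.N0 (R.F ∪ R.Q)) : ∃ A, GA P (R.F ∪ R.Q) lam A := by
  classical
  have key : LabSum P lam = ∑ i, Lsum (e i) := by
    rw [Mfp1A_labSum P lam e, Mfp1A_lsum P lam e]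
    refine sum_congr rfl fun v hv => ?_
    rcases hg.2.1 v hv with ⟨h1, h2⟩ | ⟨h1, h2⟩
    · rw [h1, h2]
    · obtain ⟨r, hr⟩ := P.hqn _ h2
      rw [h1, hr, zero_nsmul, Mfp1A_nsmul]
  let A : Finset (Fin R.T) := univ.filter fun τ => ∃ i, Lsum (e i) = unitL P.n R.T τ
  refine ⟨A, ?_, t, e, he, hg, fun τ hτ => (mem_filter.1 hτ).2⟩
  rw [key]
  let S : Finset (Fin t) := univ.filter fun i => ∃ τ, Lsum (e i) = unitL P.n R.T τ
  have hS : ∀ i, i ∉ S → Lsum (e i) = 0 := by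
    intro i hi
    rcases mem_union.1 (he i) with h | h
    · exact R.F_lab _ h
    · exact absurd (mem_filter.2 ⟨mem_univ i, R.Q_lab _ h⟩) hi
  rw [← sum_subset (subset_univ S) (fun i _ hi => hS i hi)]
  have hex : ∀ i ∈ S, ∃ τ, Lsum (e i) = unitL P.n R.T τ := fun i hi => (mem_filter.1 hi).2
  refine sum_bij (fun i hi => (hex i hi).choose) ?_ ?_ ?_ ?_
  · intro i hi
    exact mem_filter.2 ⟨mem_univ _, i, (hex i hi).choose_spec⟩
  · intro i hi i' hi' h
    by_contra hne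
    apply h5
    unfold set5
    refine mem_filter.2 ⟨mem_univ _, t, e, he, hg, i, i', (hex i hi).choose, hne,
      (hex i hi).choose_spec, ?_⟩
    rw [h]
    exact (hex i' hi').choose_spec
  · intro τ hτ
    obtain ⟨i, hi⟩ := (mem_filter.1 hτ).2
    have hiS : i ∈ S := mem_filter.2 ⟨mem_univ _, τ, hi⟩
    refine ⟨i, hiS, ?_⟩
    have h1 : unitL P.n R.T τ = unitL P.n R.T (hex i hiS).choose :=
      hi.symm.trans (hex i hiS).choose_spec
    exact (Mfp1A_unit_inj P h1).symm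
  · intro i hi
    exact (hex i hi).choose_spec

/-- The trichotomy.

PROOF. `classify` and `good_label`. -/
theorem trichotomy {m0 : ℕ} {eps : ℝ} (R : RH P m0 eps) {m : ℕ}
    (lam : Fin m → Fin P.k × XX P.n R.T R.N0) :
    Nonempty (Gadget P.p (R.F ∪ R.Q) lam) ∨
    lam ∈ set4 P m (R.F ∪ R.Q) ∪ set5 P m R.T R.N0 (R.F ∪ R.Q) ∨
    ∃ A, GA P (R.F ∪ R.Q) lam A := by
  classical
  rcases classify P (R.F ∪ R.Q) lam with h | ⟨t, e, he, hgen, hlt⟩ | ⟨t, e, he, hg⟩
  · exact Or.inl h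
  · right; left
    refine mem_union_left _ ?_
    unfold set4
    exact mem_filter.2 ⟨mem_univ _, t, e, he, hgen, hlt⟩
  · by_cases h5 : lam ∈ set5 P m R.T R.N0 (R.F ∪ R.Q)
    · exact Or.inr (Or.inl (mem_union_right _ h5))
    · exact Or.inr (Or.inr (good_label P R he hg h5))

/-- Two good tuples with a common unit label form a pair in `set6`. -/
theorem mem_set6 {m0 : ℕ} {eps : ℝ} (R : RH P m0 eps) {m m' : ℕ}
    {lam : Fin m → Fin P.k × XX P.n R.T R.N0} {lam' : Fin m' → Fin P.k × XX P.n R.T R.N0}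
    {A A' : Finset (Fin R.T)} (h : GA P (R.F ∪ R.Q) lam A) (h' : GA P (R.F ∪ R.Q) lam' A')
    (hd : ¬ Disjoint A A') : (lam, lam') ∈ set6 P m m' R.T R.N0 (R.F ∪ R.Q) := by
  classical
  rw [not_disjoint_iff] at hd
  obtain ⟨τ, hτ, hτ'⟩ := hd
  obtain ⟨_, t, e, he, hg, hA⟩ := h
  obtain ⟨_, t', e', he', hg', hA'⟩ := h'
  obtain ⟨i, hi⟩ := hA τ hτ
  obtain ⟨i', hi'⟩ := hA' τ hτ'
  unfold set6
  exact mem_filter.2 ⟨mem_univ _, t, e, t', e', he, he', hg, hg', i, i', τ, hi, hi'⟩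

end

end Pool.Agent.GP2
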