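import Pool.Agent.helper68.Gl.Stmt

/-!
# TAY: polynomial approximation of functions on the ball
-/

namespace Pool.Agent.GP2

open Finset Metric
open Pool.Agent.helper68.Gl

noncomputable section

/-- Approximation by Taylor polynomials on the ball of radius `r < 1`.

PROOF. `f` is bounded, `|f| ≤ C` (`bounded_of_uc`), and analytic at `0`: let `pm` be its formal power
series at `0`. For `‖x‖ ≤ 1` the function `g(z) = extZ f (z • x)` is analytic on the unit disc and
bounded by `C`; near `0` it is `∑ z^m pm_m(x, ..., x)`. So on the whole disc `g(z) = ∑ z^m b_m` with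
`b_m = pm_m(x, ..., x) = iteratedDeriv m g 0 / m!` (Mathlib `Complex.hasSum_taylorSeries_on_ball` and
uniqueness of power series) and `|b_m| ≤ C` (Cauchy's inequality on the circles of radius `ρ < 1`,
`ρ → 1`). Hence `|g(r) - ∑_{m < R} r^m b_m| ≤ C r^R / (1 - r) ≤ eps` for large `R`. Put
`T m = r^m • pm m` for `m < R` and `T m = 0` for `m ≥ R`. -/
theorem taylor {X : Type} [NormedAddCommGroup X] [NormedSpace ℂ X] (f : AuBall X) {r : ℝ}
    (h0 : 0 < r) (h1 : r < 1) {eps : ℝ} (heps : 0 < eps) :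
    ∃ (R : ℕ) (T : (m : ℕ) → ContinuousMultilinearMap ℂ (fun _ : Fin m => X) ℂ),
      (∀ m, R ≤ m → T m = 0) ∧
      ∀ x : X, ‖x‖ ≤ 1 →
        ‖extZ f.1 ((r : ℂ) • x) - ∑ m ∈ range R, T m (fun _ => x)‖ ≤ eps := by
  classical
  obtain ⟨C0, hC0⟩ := bounded_of_uc f.2.2
  set C : ℝ := max C0 0 with hCdef
  have hC : ∀ x ∈ ball (0 : X) 1, ‖extZ f.1 x‖ ≤ C := by
    intro x hx
    rw [extZ_of_mem hx]
    exact (hC0 _).trans (le_max_left _ _)
  have hCnn : 0 ≤ C := le_max_right _ _
  have han : AnalyticOnNhd ℂ (extZ f.1) (ball (0 : X) 1) := f.2.1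
  obtain ⟨pm, ρ0, hpm⟩ := han 0 (mem_ball_self one_pos)
  set S : ℝ := (1 + r) / 2 with hS
  have hrS : r < S := by rw [hS]; linarith
  have hS1 : S < 1 := by rw [hS]; linarith
  have hS0 : 0 < S := h0.trans hrS
  set θ : ℝ := r / S with hθ
  have hθ0 : 0 ≤ θ := by rw [hθ]; positivity
  have hθ1 : θ < 1 := by rw [hθ, div_lt_one hS0]; exact hrS
  obtain ⟨R, hR⟩ : ∃ R : ℕ, C * θ ^ R / (1 - θ) ≤ eps := by
    have ht : Filter.Tendsto (fun n : ℕ => C * θ ^ n / (1 - θ)) Filter.atTop (nhds 0) := by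
      have h := (tendsto_pow_atTop_nhds_zero_of_lt_one hθ0 hθ1).const_mul (C / (1 - θ))
      rw [mul_zero] at h
      refine h.congr fun n => ?_
      ring
    have h := (ht.eventually (gt_mem_nhds heps)).exists
    exact ⟨h.choose, h.choose_spec.le⟩
  refine ⟨R, fun m => if m < R then ((r : ℂ) ^ m) • pm m else 0, fun m hm => ?_, fun x hx => ?_⟩
  · exact if_neg (not_lt.2 hm)
  -- the one variable function
  set g : ℂ → ℂ := fun z => extZ f.1 (z • x) with hg
  have hmem : ∀ z : ℂ, ‖z‖ < 1 → z • x ∈ ball (0 : X) 1 := by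
    intro z hz
    rw [mem_ball_zero_iff, norm_smul]
    calc ‖z‖ * ‖x‖ ≤ ‖z‖ * 1 := mul_le_mul_of_nonneg_left hx (norm_nonneg _)
      _ < 1 := by rw [mul_one]; exact hz
  set u : ℂ →L[ℂ] X := ContinuousLinearMap.toSpanSingleton ℂ x with hu
  have hu1 : ∀ z, u z = z • x := fun z => rfl
  have hgan : AnalyticOnNhd ℂ g (ball (0 : ℂ) 1) := by
    intro z hz
    have h2 : AnalyticAt ℂ (extZ f.1) (u z) := han _ (hmem z (by simpa using hz))
    exact h2.comp (u.analyticAt z)
  have hgd : DifferentiableOn ℂ g (ball (0 : ℂ) 1) := hgan.differentiableOn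
  have hps : HasFPowerSeriesAt g (pm.compContinuousLinearMap u) 0 := by
    have h2 : HasFPowerSeriesOnBall (extZ f.1) pm (u 0) ρ0 := by
      rw [map_zero]
      exact hpm
    exact (h2.compContinuousLinearMap (u := u)).hasFPowerSeriesAt
  have hb : ∀ m : ℕ, (m.factorial : ℂ)⁻¹ * iteratedDeriv m g 0 = pm m (fun _ => x) := by
    intro m
    obtain ⟨ρ1, hρ1⟩ := hps
    have h2 := hρ1.factorial_smul (1 : ℂ) m
    have h3 : iteratedFDeriv ℂ m g 0 (fun _ => (1 : ℂ)) = iteratedDeriv m g 0 := by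
      rw [iteratedDeriv_eq_iteratedFDeriv]
    rw [h3] at h2
    have h4 : (pm.compContinuousLinearMap u) m (fun _ => (1 : ℂ)) = pm m (fun _ => x) := by
      rw [FormalMultilinearSeries.compContinuousLinearMap_apply]
      congr 1
      funext i
      change u 1 = x
      rw [hu1, one_smul]
    rw [h4] at h2
    rw [← h2, nsmul_eq_mul, ← mul_assoc, inv_mul_cancel₀ (by exact_mod_cast m.factorial_ne_zero),
      one_mul]
  have hbound : ∀ m : ℕ, ‖(r : ℂ) ^ m * pm m (fun _ => x)‖ ≤ C * θ ^ m := by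
    intro m
    have h2 : ‖iteratedDeriv m g 0‖ ≤ m.factorial * C / S ^ m := by
      refine Complex.norm_iteratedDeriv_le_of_forall_mem_sphere_norm_le m hS0 ?_ ?_
      · refine DifferentiableOn.diffContOnCl ?_
        refine hgd.mono ?_
        refine (closure_ball_subset_closedBall).trans ?_
        exact closedBall_subset_ball hS1
      · intro z hz
        rw [mem_sphere_zero_iff_norm] at hz
        exact hC _ (hmem z (by rw [hz]; exact hS1))
    rw [← hb m, norm_mul, norm_mul, norm_pow, norm_inv, Complex.norm_real,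
      Real.norm_of_nonneg h0.le, Complex.norm_natCast]
    have hf : (0 : ℝ) < m.factorial := by exact_mod_cast m.factorial_pos
    calc r ^ m * ((m.factorial : ℝ)⁻¹ * ‖iteratedDeriv m g 0‖)
        ≤ r ^ m * ((m.factorial : ℝ)⁻¹ * (m.factorial * C / S ^ m)) := by gcongr
      _ = C * θ ^ m := by
          have hS2 : S ^ m ≠ 0 := pow_ne_zero _ hS0.ne'
          have hf' : (m.factorial : ℝ) ≠ 0 := hf.ne'
          clear_value S
          rw [hθ, div_pow]
          field_simp
  have hsum : HasSum (fun m : ℕ => (r : ℂ) ^ m * pm m (fun _ => x)) (g r) := by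
    have hr1 : (r : ℂ) ∈ ball (0 : ℂ) 1 := by
      rw [mem_ball_zero_iff, Complex.norm_real, Real.norm_of_nonneg h0.le]
      exact h1
    have h2 := Complex.hasSum_taylorSeries_on_ball hgd hr1
    have h3 : (fun m : ℕ => (r : ℂ) ^ m * pm m (fun _ => x)) =
        fun m : ℕ => (m.factorial : ℂ)⁻¹ • ((r : ℂ) - 0) ^ m • iteratedDeriv m g 0 := by
      funext m
      rw [← hb m, sub_zero, smul_eq_mul, smul_eq_mul]
      ring
    rw [h3]
    exact h2
  have hfin := norm_sub_le_of_geometric_bound_of_hasSum hθ1 hbound hsum R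
  rw [norm_sub_rev]
  refine le_trans (le_of_eq ?_) (hfin.trans hR)
  congr 2
  refine Finset.sum_congr rfl fun m hm => ?_
  have hm' := Finset.mem_range.1 hm
  change (if m < R then ((r : ℂ) ^ m) • pm m else 0) (fun _ => x) = _
  rw [if_pos hm']
  rfl

end

end Pool.Agent.GP2
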