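import Pool.Agent.GP2.Mfp1
import Pool.Agent.GP2.Hid
import Pool.Agent.GP2.Blk
import Pool.Agent.GP2.Frm
import Pool.Agent.GP2.Tay
import Pool.Agent.GP2.Hom

/-!
# MFP: the finite approximation property of `ℓ_p`, `1 < p < 2`
-/

namespace Pool.Agent.GP2

open Finset Metric
open Pool.Agent.helper68.Gl
open scoped ENNReal

noncomputable section

variable (P : Par)

/-- All tuples of length at most `m0` with a gadget. -/
def KK {T N0 : ℕ} (m0 : ℕ) (E : Finset (Fin P.k → XX P.n T N0)) :
    Finset (Σ m : ℕ, Fin m → Fin P.k × XX P.n T N0) :=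
  open Classical in
  (range (m0 + 1)).sigma fun _ => univ.filter fun lam => Nonempty (Gadget P.p E lam)

theorem mem_KK {T N0 m0 : ℕ} {E : Finset (Fin P.k → XX P.n T N0)} {m : ℕ}
    {lam : Fin m → Fin P.k × XX P.n T N0} :
    (⟨m, lam⟩ : Σ m : ℕ, Fin m → Fin P.k × XX P.n T N0) ∈ KK P m0 E ↔
      m ≤ m0 ∧ Nonempty (Gadget P.p E lam) := by
  classical
  unfold KK
  simp only [mem_sigma, mem_range, mem_filter, mem_univ, true_and]
  constructor
  · rintro ⟨h1, h2⟩
    exact ⟨by omega, h2⟩
  · rintro ⟨h1, h2⟩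
    exact ⟨by omega, h2⟩

/-- The precision of the `j`-th hypergraph. -/
def epsj (j : ℕ) : ℝ := 1 / ((j : ℝ) + 2)

/-- The `j`-th hypergraphs, with `m0 = j + 1`. -/
def Rj (j : ℕ) : RH P (j + 1) (epsj j) :=
  (exists_RH P (j + 1) (eps := epsj j) (by unfold epsj; positivity)).some

/-- The alphabet of the `j`-th hypergraph. -/
abbrev Xj (j : ℕ) : Type := XX P.n (Rj P j).T (Rj P j).N0

/-- The killing system of the `j`-th hypergraph (`KK` is nonempty by `gadget_one`). -/
theorem exists_Kj (j : ℕ) : Nonempty (KSys P.p ((Rj P j).F ∪ (Rj P j).Q)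
    (KK P (j + 1) ((Rj P j).F ∪ (Rj P j).Q))) := by
  have hk6 : 6 < P.k := P.k_gt
  refine exists_KSys P.p_pos ?_ _ _ ?_ ?_
  · have h1 := P.lt_two
    have h2 : (6 : ℝ) < P.k := by exact_mod_cast hk6
    linarith
  · have h0 : 0 < (Rj P j).N0 := (Rj P j).N0_pos
    have hx : XX P.n (Rj P j).T (Rj P j).N0 := (⟨0, h0⟩, fun _ => 0)
    refine ⟨⟨1, fun _ => (⟨0, by omega⟩, hx)⟩, ?_⟩
    rw [mem_KK]
    exact ⟨by omega, gadget_one P _ _⟩
  · rintro ⟨m, lam⟩ ht
    exact ((mem_KK P).1 ht).2

def Kj (j : ℕ) : KSys P.p ((Rj P j).F ∪ (Rj P j).Q) (KK P (j + 1) ((Rj P j).F ∪ (Rj P j).Q)) :=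
  (exists_Kj P j).some

instance (j : ℕ) : Fintype (Kj P j).L := (Kj P j).fL

instance (j : ℕ) : DecidableEq (Kj P j).L := (Kj P j).dL

instance (j : ℕ) : Fintype (Kj P j).S := (Kj P j).fS

instance (j : ℕ) : Nonempty (Kj P j).S := (Kj P j).nS

/-- The letters of the block `b`, `b` coding the pair `(j, N)`. -/
abbrev Yb (b : ℕ) : Type :=
  Xj P (Nat.unpair b).1 × (Fin (Nat.unpair b).2 → (Kj P (Nat.unpair b).1).L)

/-- The coordinate of a vertex of the block `b`. -/
def cdb (b : ℕ) (v : Fin P.k × Yb P b) : ℕ :=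
  Nat.pair b (Fintype.equivFin (Fin P.k × Yb P b) v)

theorem cdb_inj (b : ℕ) (v : Fin P.k × Yb P b) (b' : ℕ) (v' : Fin P.k × Yb P b')
    (h : cdb P b v = cdb P b' v') : b = b' ∧ HEq v v' := by
  unfold cdb at h
  rw [Nat.pair_eq_pair] at h
  obtain ⟨h1, h2⟩ := h
  subst h1
  refine ⟨rfl, heq_of_eq ?_⟩
  exact (Fintype.equivFin (Fin P.k × Yb P b)).injective (Fin.ext h2)

/-- The blow-ups of the block `b`. -/
def HF (b : ℕ) : Finset (Fin P.k → Yb P b) :=
  HB (Rj P (Nat.unpair b).1).F (Kj P (Nat.unpair b).1).ep (Nat.unpair b).2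

def HQ (b : ℕ) : Finset (Fin P.k → Yb P b) :=
  HB (Rj P (Nat.unpair b).1).Q (Kj P (Nat.unpair b).1).ep (Nat.unpair b).2

theorem HF_norm (b : ℕ) : NormLE P.p (HF P b) (1 + epsj (Nat.unpair b).1) := by
  unfold HF
  exact normLE_HB P.p_pos _ _ (Rj P (Nat.unpair b).1).F_norm
    (fun c hc => (Kj P (Nat.unpair b).1).norm_le c (mem_union_left _ hc)) _

theorem HQ_norm (b : ℕ) : NormLE P.p (HQ P b) (1 + epsj (Nat.unpair b).1) := by
  unfold HQ
  exact normLE_HB P.p_pos _ _ (Rj P (Nat.unpair b).1).Q_norm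
    (fun c hc => (Kj P (Nat.unpair b).1).norm_le c (mem_union_right _ hc)) _

/-- The value of the block form at a vector supported on the words of a word of states.

PROOF. Only the `d` with `d i = (c i, (ep (s n) (i, c i))_n)` contribute; `mem_HB_iff`. -/
theorem block_value {k : ℕ} {X L S : Type} [Fintype X] [DecidableEq X] [Fintype L]
    [DecidableEq L] (F : Finset (Fin k → X)) (ep : S → Fin k × X → L) (N : ℕ) (s : Fin N → S)
    (z : Fin k × X → ℂ) :
    ∑ d ∈ HB F ep N, ∏ i, (if (d i).2 = fun n => ep (s n) (i, (d i).1) then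
      z (i, (d i).1) else 0) = ∑ c ∈ F, ∏ i, z (i, c i) := by
  classical
  symm
  have hinj : Function.Injective
      (fun (c : Fin k → X) (j : Fin k) => (c j, fun n => ep (s n) (j, c j))) := by
    intro c c' h
    funext j
    exact congrArg Prod.fst (congrFun h j)
  calc ∑ c ∈ F, ∏ i, z (i, c i)
      = ∑ c ∈ F, ∏ i, (if ((fun j => (c j, fun n => ep (s n) (j, c j)) :
          Fin k → X × (Fin N → L)) i).2 = fun n => ep (s n) (i, ((fun j =>
          (c j, fun n => ep (s n) (j, c j)) : Fin k → X × (Fin N → L)) i).1) then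
          z (i, ((fun j => (c j, fun n => ep (s n) (j, c j)) :
          Fin k → X × (Fin N → L)) i).1) else 0) := by
        refine sum_congr rfl fun c _ => prod_congr rfl fun i _ => ?_
        rw [if_pos rfl]
    _ = ∑ d ∈ F.image (fun (c : Fin k → X) (j : Fin k) => (c j, fun n => ep (s n) (j, c j))),
          ∏ i, (if (d i).2 = fun n => ep (s n) (i, (d i).1) then z (i, (d i).1) else 0) := by
        rw [sum_image (fun a _ b _ h => hinj h)]
    _ = _ := by
        refine sum_subset ?_ ?_
        · intro d hd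
          obtain ⟨c, hc, rfl⟩ := mem_image.1 hd
          exact (mem_HB_iff F ep N s c).2 hc
        · intro d hd hnd
          by_contra hne
          apply hnd
          have hall : ∀ i, (d i).2 = fun n => ep (s n) (i, (d i).1) := by
            intro i
            by_contra hi
            apply hne
            exact prod_eq_zero (mem_univ i) (if_neg hi)
          refine mem_image.2 ⟨fun j => (d j).1, ?_, ?_⟩
          · rw [← mem_HB_iff F ep N s]
            have : (fun j => ((d j).1, fun n => ep (s n) (j, (d j).1))) = d := by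
              funext j
              exact Prod.ext rfl (hall j).symm
            rw [this]
            exact hd
          · funext j
            exact Prod.ext rfl (hall j).symm

end

end Pool.Agent.GP2
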