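import Pool.Agent.GP2.MfpA

/-!
# MFP: the finite approximation property of `ℓ_p`, `1 < p < 2`
-/

namespace Pool.Agent.GP2

open Finset Metric
open Pool.Agent.helper68.Gl
open scoped ENNReal

noncomputable section

variable (P : Par)

/-- The scheme for one block, given the values of the two functions on the block. -/
theorem MfpB_aux {p : ℝ≥0∞} [Fact (1 ≤ p)] (hP : P.p = p.toReal) (hp0 : 0 < p.toReal)
    (Fh Ph : AuBall (LP p)) (b : ℕ)
    (hFv : ∀ (z : Fin P.k × Yb P b → ℂ) (x : ball (0 : LP p) 1),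
        (x : LP p) = ∑ v, z v • (lp.single p (cdb P b v) (1 : ℂ) : LP p) →
        Fh.1 x = ((1 / (1 + epsj (Nat.unpair b).1) : ℝ) : ℂ) *
          ((P.k : ℝ) ^ ((P.k : ℝ) / p.toReal) : ℝ) * ∑ d ∈ HF P b, ∏ i, z (i, d i))
    (hQv : ∀ (z : Fin P.k × Yb P b → ℂ) (x : ball (0 : LP p) 1),
        (x : LP p) = ∑ v, z v • (lp.single p (cdb P b v) (1 : ℂ) : LP p) →
        Ph.1 x = ((1 / (1 + epsj (Nat.unpair b).1) : ℝ) : ℂ) *
          ((P.k : ℝ) ^ ((P.k : ℝ) / p.toReal) : ℝ) * ∑ d ∈ HQ P b, ∏ i, z (i, d i))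
    (C eta : ℝ) (r : ℕ)
    (T : Fin r → (m : ℕ) → ContinuousMultilinearMap ℂ (fun _ : Fin m => LP p) ℂ)
    (hT : ∀ i, ∀ m ≤ (Nat.unpair b).1 + 1, ‖T i m‖ ≤ C)
    (hN : ∀ (V : Type) [NormedAddCommGroup V] [NormedSpace ℂ V]
      (a : Fin P.k × Xj P (Nat.unpair b).1 →
        (Fin (Nat.unpair b).2 → (Kj P (Nat.unpair b).1).L) → V),
      (PBound P.p fun q : (Fin P.k × Xj P (Nat.unpair b).1) ×
        (Fin (Nat.unpair b).2 → (Kj P (Nat.unpair b).1).L) => a q.1 q.2) →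
      ∀ T : Fin r → (m : ℕ) → ContinuousMultilinearMap ℂ (fun _ : Fin m => V) ℂ,
      (∀ i, ∀ t ∈ KK P ((Nat.unpair b).1 + 1)
        ((Rj P (Nat.unpair b).1).F ∪ (Rj P (Nat.unpair b).1).Q), ‖T i t.1‖ ≤ C) →
      ∃ s : Fin (Nat.unpair b).2 → (Kj P (Nat.unpair b).1).S, ∀ i,
        ∀ t ∈ KK P ((Nat.unpair b).1 + 1)
          ((Rj P (Nat.unpair b).1).F ∪ (Rj P (Nat.unpair b).1).Q),
        ‖T i t.1 (fun l => a (t.2 l) (fun n => (Kj P (Nat.unpair b).1).ep (s n) (t.2 l)))‖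
          ≤ eta) :
    ∃ u : Fin P.k × Xj P (Nat.unpair b).1 → LP p, (∀ v, ‖u v‖ ≤ 1) ∧
      (∀ z : Fin P.k × Xj P (Nat.unpair b).1 → ℂ,
        ‖∑ v, z v • u v‖ ^ P.p ≤ ∑ v, ‖z v‖ ^ P.p) ∧
      (∀ i, ∀ m ≤ (Nat.unpair b).1 + 1, ∀ lam : Fin m → Fin P.k × Xj P (Nat.unpair b).1,
        Nonempty (Gadget P.p ((Rj P (Nat.unpair b).1).F ∪ (Rj P (Nat.unpair b).1).Q) lam) →
          ‖T i m (fun l => u (lam l))‖ ≤ eta) ∧
      ∀ (z : Fin P.k × Xj P (Nat.unpair b).1 → ℂ) (x : ball (0 : LP p) 1),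
        (x : LP p) = ∑ v, z v • u v →
        Fh.1 x = ((1 / (1 + epsj (Nat.unpair b).1)) * (P.k : ℝ) ^ ((P.k : ℝ) / P.p) : ℝ) *
          ∑ c ∈ (Rj P (Nat.unpair b).1).F, ∏ i, z (i, c i) ∧
        Ph.1 x = ((1 / (1 + epsj (Nat.unpair b).1)) * (P.k : ℝ) ^ ((P.k : ℝ) / P.p) : ℝ) *
          ∑ c ∈ (Rj P (Nat.unpair b).1).Q, ∏ i, z (i, c i) := by
  classical
  have hpp : 0 < p := (ENNReal.toReal_pos_iff.1 hp0).1
  have hinj : ∀ (v v' : Fin P.k × Xj P (Nat.unpair b).1)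
      (w w' : Fin (Nat.unpair b).2 → (Kj P (Nat.unpair b).1).L),
      cdb P b (v.1, (v.2, w)) = cdb P b (v'.1, (v'.2, w')) → v = v' ∧ w = w' := by
    intro v v' w w' h
    have h1 := eq_of_heq (cdb_inj P b _ b _ h).2
    simp only [Prod.mk.injEq] at h1
    exact ⟨Prod.ext h1.1 h1.2.1, h1.2.2⟩
  have hPB := pBound_single (p := p) hp0 (fun q : (Fin P.k × Xj P (Nat.unpair b).1) ×
        (Fin (Nat.unpair b).2 → (Kj P (Nat.unpair b).1).L) => cdb P b (q.1.1, (q.1.2, q.2)))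
    (fun q q' h => Prod.ext (hinj _ _ _ _ h).1 (hinj _ _ _ _ h).2)
  rw [← hP] at hPB
  obtain ⟨s, hs⟩ := hN (LP p)
    (fun v w => (lp.single p (cdb P b (v.1, (v.2, w))) (1 : ℂ) : LP p))
    hPB
    T (fun i t ht => hT i t.1 ((mem_KK P (m := t.1) (lam := t.2)).1 ht).1)
  set wd : Fin P.k × Xj P (Nat.unpair b).1 →
      (Fin (Nat.unpair b).2 → (Kj P (Nat.unpair b).1).L) :=
    fun v n => (Kj P (Nat.unpair b).1).ep (s n) v with hwd
  have hval : ∀ (z : Fin P.k × Xj P (Nat.unpair b).1 → ℂ) (x : ball (0 : LP p) 1),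
      (x : LP p) = ∑ v, z v • (lp.single p (cdb P b (v.1, (v.2, wd v))) (1 : ℂ) : LP p) →
      (x : LP p) = ∑ v' : Fin P.k × Yb P b,
        (if v'.2.2 = wd (v'.1, v'.2.1) then z (v'.1, v'.2.1) else 0) •
          (lp.single p (cdb P b v') (1 : ℂ) : LP p) := by
    intro z x hx
    rw [hx, Fintype.sum_prod_type]
    conv_rhs => rw [Fintype.sum_prod_type]
    refine Finset.sum_congr rfl fun i _ => ?_
    conv_rhs => rw [Fintype.sum_prod_type]
    refine Finset.sum_congr rfl fun y _ => ?_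
    rw [Finset.sum_eq_single (wd (i, y))]
    · simp
    · intro w _ hw
      rw [if_neg hw, zero_smul]
    · intro h
      exact absurd (Finset.mem_univ _) h
  refine ⟨fun v => lp.single p (cdb P b (v.1, (v.2, wd v))) (1 : ℂ), ?_, ?_, ?_, ?_⟩
  · intro v
    exact le_of_eq ((lp.norm_single hpp _ _).trans norm_one)
  · intro z
    have h1 := pBound_single (p := p) hp0 (fun v : Fin P.k × Xj P (Nat.unpair b).1 =>
      cdb P b (v.1, (v.2, wd v))) (fun v v' h => (hinj _ _ _ _ h).1) z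
    have h2 := Real.rpow_le_rpow (norm_nonneg _) h1 hp0.le
    rw [← Real.rpow_mul (Finset.sum_nonneg fun _ _ => Real.rpow_nonneg (norm_nonneg _) _),
      one_div_mul_cancel hp0.ne', Real.rpow_one, ← hP] at h2
    exact h2
  · intro i m hm lam hg
    exact hs i ⟨m, lam⟩ ((mem_KK P).2 ⟨hm, hg⟩)
  · intro z x hx
    have hx' := hval z x hx
    constructor
    · rw [hFv _ x hx', Complex.ofReal_mul, ← hP]
      congr 1
      exact block_value (Rj P (Nat.unpair b).1).F (Kj P (Nat.unpair b).1).ep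
        (Nat.unpair b).2 s z
    · rw [hQv _ x hx', Complex.ofReal_mul, ← hP]
      congr 1
      exact block_value (Rj P (Nat.unpair b).1).Q (Kj P (Nat.unpair b).1).ep
        (Nat.unpair b).2 s z

/-- The scheme for one block: `Fh`, `Ph` fixed by their values on the blocks; for given `j`, `C`,
`eta` and number of forms there are `N` and a word of states, hence vectors `u v` (unit vectors of
`ℓ_p` with different coordinates) which kill all the forms and on which `Fh`, `Ph` take the right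
values.

PROOF. `Fh` and `Ph` from `exists_form` with `H = HF`, `HQ`, `C b = 1 + eps_j`,
`cf b = 1/(1+eps_j)`, `cd = cdb`. Given `j, C, eta, r` take `N` from `(Kj j).kill`, `b = (j, N)`,
`a v w = e_{cdb b (v.1, (v.2, w))}` (`PBound` by `pBound_single`), get `s`, and put
`u v = a v (ep (s n) v)_n`. For `z : vertices → ℂ` with `‖∑ z v • u v‖ < 1` the values
of `Fh` and `Ph` at this vector are given by `exists_form` and `block_value`. -/
theorem scheme {p : ℝ≥0∞} [Fact (1 ≤ p)] (hP : P.p = p.toReal) :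
    ∃ Fh Ph : AuBall (LP p), (∀ x, ‖Fh.1 x‖ ≤ 1) ∧ Fh.1 ⟨0, mem_ball_self one_pos⟩ = 0 ∧
      ∀ (j : ℕ) (C eta : ℝ), 0 ≤ C → 0 < eta → ∀ (r : ℕ)
        (T : Fin r → (m : ℕ) → ContinuousMultilinearMap ℂ (fun _ : Fin m => LP p) ℂ),
        (∀ i, ∀ m ≤ j + 1, ‖T i m‖ ≤ C) →
        ∃ u : Fin P.k × Xj P j → LP p, (∀ v, ‖u v‖ ≤ 1) ∧
          (∀ z : Fin P.k × Xj P j → ℂ,
            ‖∑ v, z v • u v‖ ^ P.p ≤ ∑ v, ‖z v‖ ^ P.p) ∧
          (∀ i, ∀ m ≤ j + 1, ∀ lam : Fin m → Fin P.k × Xj P j,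
            Nonempty (Gadget P.p ((Rj P j).F ∪ (Rj P j).Q) lam) →
              ‖T i m (fun l => u (lam l))‖ ≤ eta) ∧
          ∀ (z : Fin P.k × Xj P j → ℂ) (x : ball (0 : LP p) 1), (x : LP p) = ∑ v, z v • u v →
            Fh.1 x = ((1 / (1 + epsj j)) * (P.k : ℝ) ^ ((P.k : ℝ) / P.p) : ℝ) *
              ∑ c ∈ (Rj P j).F, ∏ i, z (i, c i) ∧
            Ph.1 x = ((1 / (1 + epsj j)) * (P.k : ℝ) ^ ((P.k : ℝ) / P.p) : ℝ) *
              ∑ c ∈ (Rj P j).Q, ∏ i, z (i, c i) := by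
  classical
  have hp1 : 1 ≤ p.toReal := by rw [← hP]; exact P.one_lt.le
  have hp0 : 0 < p.toReal := by linarith
  have hk6 : (6 : ℝ) < P.k := by exact_mod_cast P.k_gt
  have hk1 : 1 ≤ P.k := by have := P.k_gt; omega
  have hkp : p.toReal ≤ (P.k : ℝ) := by rw [← hP]; linarith [P.lt_two]
  have hpos : ∀ b : ℕ, 0 < 1 + epsj (Nat.unpair b).1 := fun b => by unfold epsj; positivity
  obtain ⟨Fh, hF1, hF0, hFv⟩ := exists_form (p := p) hp1 hk1 hkp (Yb P) (HF P)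
    (fun b => 1 + epsj (Nat.unpair b).1) (fun b => 1 / (1 + epsj (Nat.unpair b).1))
    (fun b => (hpos b).le) (fun b => (one_div_pos.2 (hpos b)).le)
    (fun b => le_of_eq (one_div_mul_cancel (hpos b).ne'))
    (fun b => by rw [← hP]; exact HF_norm P b) (cdb P) (fun b v b' v' h => cdb_inj P b v b' v' h)
  obtain ⟨Ph, _, _, hQv⟩ := exists_form (p := p) hp1 hk1 hkp (Yb P) (HQ P)
    (fun b => 1 + epsj (Nat.unpair b).1) (fun b => 1 / (1 + epsj (Nat.unpair b).1))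
    (fun b => (hpos b).le) (fun b => (one_div_pos.2 (hpos b)).le)
    (fun b => le_of_eq (one_div_mul_cancel (hpos b).ne'))
    (fun b => by rw [← hP]; exact HQ_norm P b) (cdb P) (fun b v b' v' h => cdb_inj P b v b' v' h)
  refine ⟨Fh, Ph, hF1, hF0, ?_⟩
  intro j C eta hC heta r T hT
  obtain ⟨N, hN⟩ := (Kj P j).kill C eta hC heta r
  obtain ⟨b, hb1, hb2⟩ : ∃ b, (Nat.unpair b).1 = j ∧ (Nat.unpair b).2 = N :=
    ⟨Nat.pair j N, by simp, by simp⟩
  subst hb1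
  subst hb2
  exact MfpB_aux P hP hp0 Fh Ph b (hFv b) (hQv b) C eta r T hT hN

end

end Pool.Agent.GP2
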