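import Pool.Agent.GP2.NrmA

/-!
# NRM: a hypergraph with few edges in all boxes and sparse small parts has almost the norm of
its density
-/

namespace Pool.Agent.GP2

open Finset

noncomputable section

variable (P : Par)

private theorem Nrm_amgm {k : ℕ} {p : ℝ} (hp : 0 < p) (hpk : p ≤ k) (c : Fin k → ℝ)
    (hc : ∀ j, 0 ≤ c j) (hc1 : ∀ j, c j ^ p ≤ 1) :
    ∏ j, c j ≤ (1 / (k : ℝ)) * ∑ j, c j ^ p := by
  have hk : (0 : ℝ) < k := lt_of_lt_of_le hp hpk
  have h1 : ∀ j, c j ≤ (c j ^ p) ^ (1 / (k : ℝ)) := by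
    intro j
    have h2 : (c j ^ p) ^ (1 / p) = c j := by
      rw [← Real.rpow_mul (hc j), mul_one_div_cancel hp.ne', Real.rpow_one]
    calc c j = (c j ^ p) ^ (1 / p) := h2.symm
      _ ≤ (c j ^ p) ^ (1 / (k : ℝ)) := by
        apply Real.rpow_le_rpow_of_exponent_ge' (Real.rpow_nonneg (hc j) _) (hc1 j)
        · positivity
        · exact one_div_le_one_div_of_le hp hpk
  have h3 : ∏ j, c j ≤ ∏ j, (c j ^ p) ^ (1 / (k : ℝ)) :=
    Finset.prod_le_prod (fun j _ => hc j) fun j _ => h1 j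
  have h4 := Real.geom_mean_le_arith_mean_weighted (Finset.univ : Finset (Fin k))
    (fun _ => 1 / (k : ℝ)) (fun j => c j ^ p) (fun j _ => by positivity)
    (by rw [Finset.sum_const, Finset.card_univ, Fintype.card_fin, nsmul_eq_mul,
      mul_one_div_cancel hk.ne'])
    (fun j _ => Real.rpow_nonneg (hc j) _)
  rw [← Finset.mul_sum] at h4
  exact h3.trans h4

/-- Two products, `k ≥ p`: if `a_j^p + b_j^p ≤ 1` for all `j` then `∏ a_j + ∏ b_j ≤ 1`.

PROOF. `∏ a_j = ∏ (a_j^p)^{1/p} ≤ ∏ (a_j^p)^{1/k} ≤ (1/k) ∑ a_j^p` (as `a_j ≤ 1` and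
`1/k ≤ 1/p`; arithmetic-geometric mean), the same for `b`. -/
theorem prod_add_prod_le {k : ℕ} {p : ℝ} (hp : 0 < p) (hpk : p ≤ k) (a b : Fin k → ℝ)
    (ha : ∀ j, 0 ≤ a j) (hb : ∀ j, 0 ≤ b j) (hab : ∀ j, a j ^ p + b j ^ p ≤ 1) :
    ∏ j, a j + ∏ j, b j ≤ 1 := by
  have hk : (0 : ℝ) < k := lt_of_lt_of_le hp hpk
  have h1 := Nrm_amgm hp hpk a ha fun j => by
    have := Real.rpow_nonneg (hb j) p
    linarith [hab j]
  have h2 := Nrm_amgm hp hpk b hb fun j => by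
    have := Real.rpow_nonneg (ha j) p
    linarith [hab j]
  have h3 : ∑ j, a j ^ p + ∑ j, b j ^ p ≤ (k : ℝ) := by
    rw [← Finset.sum_add_distrib]
    calc ∑ j, (a j ^ p + b j ^ p) ≤ ∑ _j : Fin k, (1 : ℝ) := Finset.sum_le_sum fun j _ => hab j
      _ = k := by simp
  calc ∏ j, a j + ∏ j, b j ≤ (1 / (k : ℝ)) * ∑ j, a j ^ p + (1 / (k : ℝ)) * ∑ j, b j ^ p :=
        add_le_add h1 h2
    _ = (1 / (k : ℝ)) * (∑ j, a j ^ p + ∑ j, b j ^ p) := by ring
    _ ≤ (1 / (k : ℝ)) * k := by gcongr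
    _ = 1 := by field_simp

/-- It suffices to check functions of norm one. -/
private theorem Nrm_normalise {k : ℕ} {X : Type} [Fintype X] [DecidableEq X] {p : ℝ} (hp : 0 < p)
    (F : Finset (Fin k → X)) (D : ℝ)
    (h : ∀ x : Fin k → X → ℝ, (∀ j y, 0 ≤ x j y) → (∀ j, ∑ y, x j y ^ p = 1) →
      ∑ c ∈ F, ∏ j, x j (c j) ≤ D) : NormLE p F D := by
  intro x hx
  set n : Fin k → ℝ := fun j => (∑ y, x j y ^ p) ^ (1 / p) with hn
  have hS0 : ∀ j, 0 ≤ ∑ y, x j y ^ p := fun j =>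
    Finset.sum_nonneg fun y _ => Real.rpow_nonneg (hx j y) _
  have hn0 : ∀ j, 0 ≤ n j := fun j => Real.rpow_nonneg (hS0 j) _
  by_cases hz : ∃ j, n j = 0
  · obtain ⟨j, hj⟩ := hz
    have h1 : ∑ y, x j y ^ p = 0 := by
      rw [hn] at hj
      exact ((Real.rpow_eq_zero (hS0 j) (by positivity)).1 hj)
    have h2 : ∀ y, x j y = 0 := by
      intro y
      have h3 := (Finset.sum_eq_zero_iff_of_nonneg fun y _ => Real.rpow_nonneg (hx j y) _).1 h1 y
        (Finset.mem_univ y)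
      exact (Real.rpow_eq_zero (hx j y) hp.ne').1 h3
    have h3 : ∏ j, n j = 0 := Finset.prod_eq_zero (Finset.mem_univ j) hj
    have h4 : ∑ c ∈ F, ∏ j, x j (c j) = 0 :=
      Finset.sum_eq_zero fun c _ => Finset.prod_eq_zero (Finset.mem_univ j) (h2 _)
    rw [h4, h3, mul_zero]
  · push Not at hz
    have hn1 : ∀ j, 0 < n j := fun j => lt_of_le_of_ne (hn0 j) (hz j).symm
    have hnp : ∀ j, n j ^ p = ∑ y, x j y ^ p := by
      intro j
      rw [hn]
      simp only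
      rw [← Real.rpow_mul (hS0 j), one_div_mul_cancel hp.ne', Real.rpow_one]
    have h1 := h (fun j y => x j y / n j) (fun j y => div_nonneg (hx j y) (hn0 j)) (by
      intro j
      have h2 : ∀ y, (x j y / n j) ^ p = x j y ^ p / n j ^ p := fun y =>
        Real.div_rpow (hx j y) (hn0 j) p
      simp_rw [h2]
      rw [← Finset.sum_div, hnp j, div_self]
      rw [← hnp j]
      exact (Real.rpow_pos_of_pos (hn1 j) p).ne')
    have h3 : ∀ c : Fin k → X, ∏ j, x j (c j) / n j = (∏ j, x j (c j)) / ∏ j, n j := fun c =>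
      Finset.prod_div_distrib _ _
    simp_rw [h3] at h1
    rw [← Finset.sum_div, div_le_iff₀ (Finset.prod_pos fun j _ => hn1 j)] at h1
    exact h1

/-- The level of a number. -/
private def Nrm_lev (th t : ℝ) : ℕ := ⌊-Real.log t / Real.log th⌋₊

private lemma Nrm_le_lev {th t : ℝ} (hth : 1 < th) (h0 : 0 < t) (h1 : t ≤ 1) :
    t ≤ (th ^ (Nrm_lev th t))⁻¹ := by
  have hl : 0 < Real.log th := Real.log_pos hth
  have h2 : 0 ≤ -Real.log t / Real.log th :=
    div_nonneg (neg_nonneg.2 (Real.log_nonpos h0.le h1)) hl.le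
  have h3 : (Nrm_lev th t : ℝ) ≤ -Real.log t / Real.log th := Nat.floor_le h2
  rw [le_div_iff₀ hl] at h3
  have hpos : 0 < th ^ Nrm_lev th t := by positivity
  rw [le_inv_comm₀ h0 hpos, ← Real.log_le_log_iff hpos (inv_pos.2 h0), Real.log_pow,
    Real.log_inv]
  exact h3

private lemma Nrm_lt_lev {th t : ℝ} (hth : 1 < th) (h0 : 0 < t) :
    (th ^ (Nrm_lev th t + 1))⁻¹ < t := by
  have hl : 0 < Real.log th := Real.log_pos hth
  have h3 : -Real.log t / Real.log th < (Nrm_lev th t : ℝ) + 1 := Nat.lt_floor_add_one _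
  rw [div_lt_iff₀ hl] at h3
  have hpos : 0 < th ^ (Nrm_lev th t + 1) := by positivity
  rw [inv_lt_comm₀ hpos h0, ← Real.log_lt_log_iff (inv_pos.2 h0) hpos, Real.log_pow,
    Real.log_inv]
  push_cast
  exact h3

/-- The size of a level. -/
private def Nrm_s (th p N : ℝ) (i : ℕ) : ℝ := min ((th ^ i) ^ p) N

private lemma Nrm_one_le_s {th p N : ℝ} (hth : 1 < th) (hp : 0 < p) (hN : 1 ≤ N) (i : ℕ) :
    1 ≤ Nrm_s th p N i :=
  le_min (Real.one_le_rpow (one_le_pow₀ hth.le) hp.le) hN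

private lemma Nrm_s_le {th p N : ℝ} (i : ℕ) : Nrm_s th p N i ≤ N := min_le_right _ _

private lemma Nrm_inv_le {th p N : ℝ} (hth : 1 < th) (hp : 0 < p) (hN : 1 ≤ N) (i : ℕ) :
    (th ^ i)⁻¹ ≤ Nrm_s th p N i ^ (-(1 / p)) := by
  have h0 : 0 < th ^ i := by positivity
  have h1 : 0 < Nrm_s th p N i := lt_of_lt_of_le one_pos (Nrm_one_le_s hth hp hN i)
  rw [Real.rpow_neg h1.le]
  apply inv_anti₀ (Real.rpow_pos_of_pos h1 _)
  calc Nrm_s th p N i ^ (1 / p) ≤ ((th ^ i) ^ p) ^ (1 / p) :=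
        Real.rpow_le_rpow h1.le (min_le_left _ _) (by positivity)
    _ = th ^ i := by rw [← Real.rpow_mul h0.le, mul_one_div_cancel hp.ne', Real.rpow_one]

private lemma Nrm_card_le {X : Type} [Fintype X] [DecidableEq X] {p u : ℝ}
    (x : X → ℝ) (hx : ∀ y, 0 ≤ x y) (hx1 : ∑ y, x y ^ p ≤ 1) (S : Finset X) (hu : 0 < u)
    (hS : ∀ y ∈ S, u⁻¹ ≤ x y ^ p) : (S.card : ℝ) ≤ u := by
  have h1 : (S.card : ℝ) * u⁻¹ ≤ 1 := by
    calc (S.card : ℝ) * u⁻¹ = ∑ _y ∈ S, u⁻¹ := by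
          rw [Finset.sum_const, nsmul_eq_mul]
      _ ≤ ∑ y ∈ S, x y ^ p := Finset.sum_le_sum fun y hy => hS y hy
      _ ≤ ∑ y, x y ^ p := Finset.sum_le_sum_of_subset_of_nonneg (Finset.subset_univ S)
          fun y _ _ => Real.rpow_nonneg (hx y) _
      _ ≤ 1 := hx1
  rw [← div_eq_mul_inv, div_le_one hu] at h1
  exact h1

private lemma Nrm_rpow_lev {th p t : ℝ} (hth : 1 < th) (hth2 : th ≤ 2) (hp : 0 < p) (hp2 : p < 2)
    (h0 : 0 < t) : (4 * (th ^ Nrm_lev th t) ^ p)⁻¹ ≤ t ^ p := by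
  have hth0 : 0 < th := by linarith
  have h1 := (Nrm_lt_lev hth h0).le
  have h2 : th ^ p ≤ 4 := by
    calc th ^ p ≤ 2 ^ p := Real.rpow_le_rpow hth0.le hth2 hp.le
      _ ≤ 2 ^ (2 : ℝ) := Real.rpow_le_rpow_of_exponent_le (by norm_num) hp2.le
      _ = 4 := by norm_num
  have h3 : (th ^ (Nrm_lev th t + 1)) ^ p ≤ 4 * (th ^ Nrm_lev th t) ^ p := by
    rw [pow_succ, Real.mul_rpow (by positivity) hth0.le, mul_comm]
    gcongr
  calc (4 * (th ^ Nrm_lev th t) ^ p)⁻¹ ≤ ((th ^ (Nrm_lev th t + 1)) ^ p)⁻¹ :=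
        inv_anti₀ (by positivity) h3
    _ = ((th ^ (Nrm_lev th t + 1))⁻¹) ^ p := by rw [Real.inv_rpow (by positivity)]
    _ ≤ t ^ p := Real.rpow_le_rpow (by positivity) h1 hp.le


section core

variable {X : Type} [Fintype X] [DecidableEq X] {k : ℕ}

omit [DecidableEq X] in
/-- The tiny part. -/
private lemma Nrm_tiny (F : Finset (Fin k → X)) (hN : 0 < Fintype.card X)
    (x : Fin k → X → ℝ) (hx0 : ∀ j y, 0 ≤ x j y) (hx1 : ∀ j y, x j y ≤ 1) :
    ∑ c ∈ F with ¬ ∀ j, ((Fintype.card X : ℝ) ^ (k + 1))⁻¹ ≤ x j (c j), ∏ j, x j (c j) ≤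
      (Fintype.card X : ℝ)⁻¹ := by
  have hN' : (0 : ℝ) < Fintype.card X := by exact_mod_cast hN
  have h1 : ∀ c ∈ F.filter (fun c => ¬ ∀ j, ((Fintype.card X : ℝ) ^ (k + 1))⁻¹ ≤ x j (c j)),
      ∏ j, x j (c j) ≤ ((Fintype.card X : ℝ) ^ (k + 1))⁻¹ := by
    intro c hc
    have h2 := (Finset.mem_filter.1 hc).2
    push Not at h2
    obtain ⟨j, hj⟩ := h2
    calc ∏ j, x j (c j) = x j (c j) * ∏ i ∈ Finset.univ.erase j, x i (c i) :=
          (Finset.mul_prod_erase _ _ (Finset.mem_univ j)).symm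
      _ ≤ x j (c j) * 1 := by
          apply mul_le_mul_of_nonneg_left _ (hx0 j _)
          exact Finset.prod_le_one (fun i _ => hx0 i _) fun i _ => hx1 i _
      _ ≤ ((Fintype.card X : ℝ) ^ (k + 1))⁻¹ := by rw [mul_one]; exact hj.le
  have h3 := Finset.sum_le_card_nsmul _ _ _ h1
  refine h3.trans ?_
  rw [nsmul_eq_mul]
  have h4 : ((F.filter (fun c => ¬ ∀ j, ((Fintype.card X : ℝ) ^ (k + 1))⁻¹ ≤ x j (c j))).card : ℝ)
      ≤ (Fintype.card X : ℝ) ^ k := by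
    have h5 := Finset.card_le_univ
      (F.filter (fun c => ¬ ∀ j, ((Fintype.card X : ℝ) ^ (k + 1))⁻¹ ≤ x j (c j)))
    rw [Fintype.card_fun, Fintype.card_fin] at h5
    exact_mod_cast h5
  calc _ ≤ (Fintype.card X : ℝ) ^ k * ((Fintype.card X : ℝ) ^ (k + 1))⁻¹ := by gcongr
    _ = (Fintype.card X : ℝ)⁻¹ := by
      rw [pow_succ, mul_inv, ← mul_assoc, mul_inv_cancel₀ (by positivity), one_mul]

/-- The low part. -/
private lemma Nrm_low {th p d0 delta : ℝ} (hth : 1 < th) (hth2 : th ≤ 2) (hp : 0 < p)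
    (hp2 : p < 2) (hpk : p ≤ k) (hd0 : 0 < d0) (hd8 : d0 ≤ 1 / 8)
    (F : Finset (Fin k → X)) (hN : 2 ≤ Fintype.card X)
    (hNd : (4 * (Fintype.card X : ℝ) ^ d0) ^ k ≤ (Fintype.card X : ℝ) ^ delta)
    (hsp : SparseProp p delta F) (tau : ℝ) (htau : 0 < tau)
    (x xl : Fin k → X → ℝ) (hx0 : ∀ j y, 0 ≤ x j y) (hx1 : ∀ j, ∑ y, x j y ^ p ≤ 1)
    (hxl : ∀ j y, xl j y = if tau ≤ x j y ∧
      Nrm_s th p (Fintype.card X) (Nrm_lev th (x j y)) ≤ (Fintype.card X : ℝ) ^ d0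
      then x j y else 0) :
    ∑ c ∈ F with (∀ j, tau ≤ x j (c j)) ∧
      ∀ j, Nrm_s th p (Fintype.card X) (Nrm_lev th (x j (c j))) ≤ (Fintype.card X : ℝ) ^ d0,
      ∏ j, x j (c j) ≤ ∏ j, (∑ y, xl j y ^ p) ^ (1 / p) := by
  set N : ℝ := (Fintype.card X : ℝ) with hNdef
  have hN' : (2 : ℝ) ≤ N := by rw [hNdef]; exact_mod_cast hN
  set E0 := F.filter (fun c => (∀ j, tau ≤ x j (c j)) ∧
      ∀ j, Nrm_s th p N (Nrm_lev th (x j (c j))) ≤ N ^ d0) with hE0
  have hxl0 : ∀ j y, 0 ≤ xl j y := by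
    intro j y
    rw [hxl]
    split_ifs
    · exact hx0 j y
    · exact le_rfl
  have hNd0 : N ^ d0 < N := by
    calc N ^ d0 < N ^ (1 : ℝ) := Real.rpow_lt_rpow_of_exponent_lt (by linarith) (by linarith)
      _ = N := Real.rpow_one N
  have hcard : ∀ j : Fin k, (((Finset.univ : Finset X).filter (fun y => tau ≤ x j y ∧
      Nrm_s th p N (Nrm_lev th (x j y)) ≤ N ^ d0)).card : ℝ) ≤ 4 * N ^ d0 := by
    intro j
    apply Nrm_card_le (x j) (hx0 j) (hx1 j) _ (by positivity)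
    intro y hy
    have hy2 := (Finset.mem_filter.1 hy).2
    have hxpos : 0 < x j y := lt_of_lt_of_le htau hy2.1
    have h1 := Nrm_rpow_lev hth hth2 hp hp2 hxpos
    refine le_trans ?_ h1
    apply inv_anti₀ (by have : 0 < th := by linarith
                        positivity)
    have h2 := hy2.2
    unfold Nrm_s at h2
    rcases min_le_iff.1 h2 with h3 | h3
    · gcongr
    · exact absurd h3 (not_le.2 hNd0)
  have hE0card : (E0.card : ℝ) ≤ N ^ delta := by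
    have h1 : E0 ⊆ Fintype.piFinset (fun j : Fin k => (Finset.univ : Finset X).filter
        (fun y => tau ≤ x j y ∧ Nrm_s th p N (Nrm_lev th (x j y)) ≤ N ^ d0)) := by
      intro c hc
      rw [hE0, Finset.mem_filter] at hc
      rw [Fintype.mem_piFinset]
      intro j
      rw [Finset.mem_filter]
      exact ⟨Finset.mem_univ _, hc.2.1 j, hc.2.2 j⟩
    have h2 := Finset.card_le_card h1
    rw [Fintype.card_piFinset] at h2
    calc (E0.card : ℝ) ≤ ((∏ j : Fin k, ((Finset.univ : Finset X).filter (fun y => tau ≤ x j y ∧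
      Nrm_s th p N (Nrm_lev th (x j y)) ≤ N ^ d0)).card : ℕ) : ℝ) := by exact_mod_cast h2
      _ = ∏ j : Fin k, (((Finset.univ : Finset X).filter (fun y => tau ≤ x j y ∧
      Nrm_s th p N (Nrm_lev th (x j y)) ≤ N ^ d0)).card : ℝ) := by push_cast; rfl
      _ ≤ ∏ _j : Fin k, (4 * N ^ d0) :=
        Finset.prod_le_prod (fun j _ => Nat.cast_nonneg _) fun j _ => hcard j
      _ = (4 * N ^ d0) ^ k := by simp
      _ ≤ N ^ delta := hNd
  have hsparse := normLE_of_sparse hp hpk E0 (by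
    intro E' hE' hne
    apply hsp E' (hE'.trans (Finset.filter_subset _ _)) hne
    refine le_trans ?_ hE0card
    exact_mod_cast Finset.card_le_card hE')
  have h1 := hsparse xl hxl0
  rw [one_mul] at h1
  refine le_trans (le_of_eq ?_) h1
  apply Finset.sum_congr rfl
  intro c hc
  rw [hE0, Finset.mem_filter] at hc
  apply Finset.prod_congr rfl
  intro j _
  rw [hxl, if_pos ⟨hc.2.1 j, hc.2.2 j⟩]

/-- The edges of one box. -/
private lemma Nrm_fiber {th tau : ℝ} (hth : 1 < th) (htau : 0 < tau)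
    (F S : Finset (Fin k → X)) (hSF : S ⊆ F) (i : Fin k → ℕ)
    (x : Fin k → X → ℝ) (hx0 : ∀ j y, 0 ≤ x j y) (hx1 : ∀ j y, x j y ≤ 1)
    (hS : ∀ c ∈ S, ∀ j, tau ≤ x j (c j) ∧ Nrm_lev th (x j (c j)) = i j)
    (A : Fin k → Finset X)
    (hA : ∀ j, A j = Finset.univ.filter (fun y => tau ≤ x j y ∧ Nrm_lev th (x j y) = i j)) :
    ∑ c ∈ S, ∏ j, x j (c j) ≤
      (∏ j, (th ^ i j)⁻¹) * ((F.filter fun c => ∀ j, c j ∈ A j).card : ℝ) := by
  have hth0 : 0 < th := by linarith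
  have h1 : ∀ c ∈ S, ∏ j, x j (c j) ≤ ∏ j, (th ^ i j)⁻¹ := by
    intro c hc
    apply Finset.prod_le_prod (fun j _ => hx0 j _)
    intro j _
    have h2 := Nrm_le_lev hth (lt_of_lt_of_le htau (hS c hc j).1) (hx1 j (c j))
    rw [(hS c hc j).2] at h2
    exact h2
  have h3 := Finset.sum_le_card_nsmul _ _ _ h1
  rw [nsmul_eq_mul] at h3
  have h4 : S.card ≤ (F.filter fun c => ∀ j, c j ∈ A j).card := by
    apply Finset.card_le_card
    intro c hc
    rw [Finset.mem_filter]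
    refine ⟨hSF hc, fun j => ?_⟩
    rw [hA, Finset.mem_filter]
    exact ⟨Finset.mem_univ _, hS c hc j⟩
  have h5 : (S.card : ℝ) ≤ ((F.filter fun c => ∀ j, c j ∈ A j).card : ℝ) := by exact_mod_cast h4
  have h6 : 0 ≤ ∏ j, (th ^ i j)⁻¹ := Finset.prod_nonneg fun j _ => by positivity
  calc _ ≤ (S.card : ℝ) * ∏ j, (th ^ i j)⁻¹ := h3
    _ ≤ ((F.filter fun c => ∀ j, c j ∈ A j).card : ℝ) * ∏ j, (th ^ i j)⁻¹ := by gcongr
    _ = _ := mul_comm _ _

/-- The cardinality of a level set. -/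
private lemma Nrm_card_level {th p tau : ℝ} (hth : 1 < th) (hth2 : th ≤ 2) (hp : 0 < p)
    (hp2 : p < 2) (htau : 0 < tau) (x : X → ℝ) (hx0 : ∀ y, 0 ≤ x y) (hx1 : ∑ y, x y ^ p ≤ 1)
    (i : ℕ) (A : Finset X)
    (hA : A = Finset.univ.filter (fun y => tau ≤ x y ∧ Nrm_lev th (x y) = i)) :
    (A.card : ℝ) ≤ 4 * Nrm_s th p (Fintype.card X) i := by
  have hth0 : 0 < th := by linarith
  have h1 : (A.card : ℝ) ≤ 4 * (th ^ i) ^ p := by
    apply Nrm_card_le x hx0 hx1 _ (by positivity)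
    intro y hy
    rw [hA, Finset.mem_filter] at hy
    have h2 := Nrm_rpow_lev hth hth2 hp hp2 (lt_of_lt_of_le htau hy.2.1)
    rw [hy.2.2] at h2
    exact h2
  have h2 : (A.card : ℝ) ≤ 4 * (Fintype.card X : ℝ) := by
    have h3 : (A.card : ℝ) ≤ (Fintype.card X : ℝ) := by exact_mod_cast Finset.card_le_univ A
    have h4 : (0 : ℝ) ≤ Fintype.card X := Nat.cast_nonneg _
    linarith
  unfold Nrm_s
  rcases min_choice ((th ^ i) ^ p) (Fintype.card X : ℝ) with h | h <;> rw [h]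
  · exact h1
  · exact h2

/-- One high box. -/
private lemma Nrm_high_box {th p d0 eps C : ℝ} (heps : 0 < eps)
    (hth : th = 1 + eps) (hp : 0 < p)
    (hp2 : p < 2) (hk : 6 < k) (hd8 : d0 ≤ 1 / 8) (hC : 0 ≤ C)
    (F : Finset (Fin k → X)) (hN : 2 ≤ Fintype.card X)
    (mu : (Fin k → X) → ℝ) (hmu : ∀ c, 0 ≤ mu c) (hbox : BoxBound F mu eps C)
    (tau : ℝ) (htau : 0 < tau)
    (x xh : Fin k → X → ℝ) (hx0 : ∀ j y, 0 ≤ x j y) (hx1 : ∀ j y, x j y ≤ 1)
    (hxh : ∀ j y, xh j y = if tau ≤ x j y ∧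
      (Fintype.card X : ℝ) ^ (1 - d0) ≤ Nrm_s th p (Fintype.card X) (Nrm_lev th (x j y))
      then x j y else 0) (S : Finset (Fin k → X)) (hSF : S ⊆ F) (i : Fin k → ℕ)
    (hS : ∀ c ∈ S, ∀ j, tau ≤ x j (c j) ∧ Nrm_lev th (x j (c j)) = i j)
    (hS2 : ∀ c ∈ S, ∀ j, (Fintype.card X : ℝ) ^ (1 - d0) ≤
      Nrm_s th p (Fintype.card X) (Nrm_lev th (x j (c j)))) :
    ∑ c ∈ S, ∏ j, x j (c j) ≤
      (1 + eps) * th ^ k * (∑ c : Fin k → X with (fun j => Nrm_lev th (x j (c j))) = i,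
        mu c * ∏ j, xh j (c j)) +
      C * (Fintype.card X : ℝ)⁻¹ * Real.log (Fintype.card X) := by
  set N : ℝ := (Fintype.card X : ℝ) with hNdef
  have hN' : (2 : ℝ) ≤ N := by rw [hNdef]; exact_mod_cast hN
  have hth1 : 1 < th := by linarith
  have hth0 : 0 < th := by linarith
  have hlogN : 0 ≤ Real.log N := Real.log_nonneg (by linarith)
  have hxh0 : ∀ j y, 0 ≤ xh j y := by
    intro j y
    rw [hxh]
    split_ifs
    · exact hx0 j y
    · exact le_rfl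
  have hsum0 : 0 ≤ ∑ c : Fin k → X with (fun j => Nrm_lev th (x j (c j))) = i,
      mu c * ∏ j, xh j (c j) :=
    Finset.sum_nonneg fun c _ => mul_nonneg (hmu c) (Finset.prod_nonneg fun j _ => hxh0 j _)
  rcases S.eq_empty_or_nonempty with rfl | ⟨c0, hc0⟩
  · rw [Finset.sum_empty]
    positivity
  set A : Fin k → Finset X := fun j =>
    Finset.univ.filter (fun y => tau ≤ x j y ∧ Nrm_lev th (x j y) = i j) with hA
  have h1 := Nrm_fiber hth1 htau F S hSF i x hx0 hx1 hS A (fun j => rfl)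
  have hne : ∀ j, (A j).Nonempty := fun j => ⟨c0 j, by
    rw [hA]
    simp only [Finset.mem_filter, Finset.mem_univ, true_and]
    exact hS c0 hc0 j⟩
  have hsi : ∀ j, N ^ (1 - d0) ≤ Nrm_s th p N (i j) := by
    intro j
    have h2 := hS2 c0 hc0 j
    rw [(hS c0 hc0 j).2] at h2
    exact h2
  have h2 := hbox Finset.univ A (by rw [Finset.card_univ, Fintype.card_fin]; omega)
    (fun j _ => hne j)
  simp only [Finset.mem_univ, true_implies] at h2
  have hsup : (((Finset.univ : Finset (Fin k)).sup fun j => (A j).card : ℕ) : ℝ) ≤ N := by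
    rw [hNdef]
    exact_mod_cast Finset.sup_le fun j _ => Finset.card_le_univ (A j)
  have hP0 : 0 ≤ ∏ j, (th ^ i j)⁻¹ := Finset.prod_nonneg fun j _ => by positivity
  -- the second term
  have hPN : ∏ j, (th ^ i j)⁻¹ ≤ (N ^ 2)⁻¹ := by
    have h3 : ∀ j, (th ^ i j)⁻¹ ≤ N ^ (-((1 - d0) / p)) := by
      intro j
      have h4 := Nrm_inv_le hth1 hp (by linarith : (1 : ℝ) ≤ N) (i j)
      refine h4.trans ?_
      calc Nrm_s th p N (i j) ^ (-(1 / p)) ≤ (N ^ (1 - d0)) ^ (-(1 / p)) :=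
            Real.rpow_le_rpow_of_nonpos (by positivity) (hsi j) (by
              rw [neg_nonpos]; positivity)
        _ = N ^ (-((1 - d0) / p)) := by
            rw [← Real.rpow_mul (by linarith)]
            congr 1
            ring
    calc ∏ j, (th ^ i j)⁻¹ ≤ ∏ _j : Fin k, N ^ (-((1 - d0) / p)) :=
          Finset.prod_le_prod (fun j _ => by positivity) fun j _ => h3 j
      _ = N ^ (-((1 - d0) / p) * k) := by
          rw [Finset.prod_const, Finset.card_univ, Fintype.card_fin,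
            Real.rpow_mul (by linarith), Real.rpow_natCast]
      _ ≤ N ^ (-(2 : ℝ)) := by
          apply Real.rpow_le_rpow_of_exponent_le (by linarith)
          have hk' : (7 : ℝ) ≤ k := by exact_mod_cast hk
          have h5 : 7 / 16 ≤ (1 - d0) / p := by
            rw [div_le_div_iff₀ (by norm_num) hp]
            nlinarith
          nlinarith
      _ = (N ^ 2)⁻¹ := by
          rw [Real.rpow_neg (by linarith)]
          norm_num
  -- the first term
  have hfirst : (∏ j, (th ^ i j)⁻¹) * (∑ c : Fin k → X with ∀ j, c j ∈ A j, mu c) ≤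
      th ^ k * (∑ c : Fin k → X with (fun j => Nrm_lev th (x j (c j))) = i,
        mu c * ∏ j, xh j (c j)) := by
    rw [Finset.mul_sum, Finset.mul_sum]
    have hsub : (Finset.univ.filter fun c : Fin k → X => ∀ j, c j ∈ A j) ⊆
        Finset.univ.filter (fun c : Fin k → X => (fun j => Nrm_lev th (x j (c j))) = i) := by
      intro c hc
      rw [Finset.mem_filter] at hc ⊢
      refine ⟨hc.1, ?_⟩
      funext j
      have h3 := hc.2 j
      rw [hA, Finset.mem_filter] at h3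
      exact h3.2.2
    refine le_trans ?_ (Finset.sum_le_sum_of_subset_of_nonneg hsub fun c _ _ => by
      have := hmu c
      have h4 : 0 ≤ ∏ j, xh j (c j) := Finset.prod_nonneg fun j _ => hxh0 j _
      positivity)
    apply Finset.sum_le_sum
    intro c hc
    rw [Finset.mem_filter] at hc
    have hcA : ∀ j, tau ≤ x j (c j) ∧ Nrm_lev th (x j (c j)) = i j := by
      intro j
      have h3 := hc.2 j
      rw [hA, Finset.mem_filter] at h3
      exact h3.2
    have h3 : ∏ j, (th ^ i j)⁻¹ ≤ th ^ k * ∏ j, xh j (c j) := by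
      have h4 : th ^ k * ∏ j, xh j (c j) = ∏ j, (th * xh j (c j)) := by
        rw [Finset.prod_mul_distrib, Finset.prod_const, Finset.card_univ, Fintype.card_fin]
      rw [h4]
      apply Finset.prod_le_prod (fun j _ => by positivity)
      intro j _
      have h5 := Nrm_lt_lev hth1 (lt_of_lt_of_le htau (hcA j).1)
      rw [(hcA j).2] at h5
      rw [hxh, if_pos ⟨(hcA j).1, by rw [(hcA j).2]; exact hsi j⟩]
      rw [pow_succ, mul_inv] at h5
      calc (th ^ i j)⁻¹ = th * ((th ^ i j)⁻¹ * th⁻¹) := by field_simp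
        _ ≤ th * x j (c j) := by gcongr
    calc (∏ j, (th ^ i j)⁻¹) * mu c ≤ (th ^ k * ∏ j, xh j (c j)) * mu c :=
          mul_le_mul_of_nonneg_right h3 (hmu c)
      _ = th ^ k * (mu c * ∏ j, xh j (c j)) := by ring
  calc ∑ c ∈ S, ∏ j, x j (c j) ≤
      (∏ j, (th ^ i j)⁻¹) * ((F.filter fun c => ∀ j, c j ∈ A j).card : ℝ) := h1
    _ ≤ (∏ j, (th ^ i j)⁻¹) * ((1 + eps) * (∑ c : Fin k → X with ∀ j, c j ∈ A j, mu c) +
        C * (((Finset.univ : Finset (Fin k)).sup fun j => (A j).card : ℕ) : ℝ) *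
          Real.log N) := mul_le_mul_of_nonneg_left h2 hP0
    _ = (1 + eps) * ((∏ j, (th ^ i j)⁻¹) * (∑ c : Fin k → X with ∀ j, c j ∈ A j, mu c)) +
        C * ((∏ j, (th ^ i j)⁻¹) *
          (((Finset.univ : Finset (Fin k)).sup fun j => (A j).card : ℕ) : ℝ)) *
          Real.log N := by ring
    _ ≤ (1 + eps) * (th ^ k * (∑ c : Fin k → X with (fun j => Nrm_lev th (x j (c j))) = i,
        mu c * ∏ j, xh j (c j))) + C * ((N ^ 2)⁻¹ * N) * Real.log N := by gcongr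
    _ = (1 + eps) * th ^ k * (∑ c : Fin k → X with (fun j => Nrm_lev th (x j (c j))) = i,
        mu c * ∏ j, xh j (c j)) + C * N⁻¹ * Real.log N := by
      have h6 : (N ^ 2)⁻¹ * N = N⁻¹ := by
        field_simp
      rw [h6]
      ring

/-- The core estimate. -/
private lemma Nrm_core {p d0 eps C delta B : ℝ} (heps : 0 < eps) (heps1 : eps ≤ 1)
    (hp : 0 < p) (hp2 : p < 2) (hk : 6 < k) (hd0 : 0 < d0) (hd8 : d0 ≤ 1 / 8) (hC : 0 ≤ C)
    (F : Finset (Fin k → X)) (hN : 2 ≤ Fintype.card X)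
    (hNd : (4 * (Fintype.card X : ℝ) ^ d0) ^ k ≤ (Fintype.card X : ℝ) ^ delta)
    (mu : (Fin k → X) → ℝ) (hmu : ∀ c, 0 ≤ mu c)
    (hflat : ∀ x : Fin k → X → ℝ, (∀ j y, 0 ≤ x j y) →
        ∑ c, mu c * ∏ j, x j (c j) ≤ ∏ j, (∑ y, x j y ^ p) ^ (1 / p))
    (hbox : BoxBound F mu eps C) (hsp : SparseProp p delta F) (hB : 0 ≤ B)
    (hmix : ∀ (s : Fin k → ℝ) (A : Fin k → Finset X), (∀ j, 1 ≤ s j) →
        (∀ j, s j ≤ Fintype.card X) → (∀ j, (A j).Nonempty) → (∀ j, ((A j).card : ℝ) ≤ 4 * s j) →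
        (¬ ∀ j, s j ≤ (Fintype.card X : ℝ) ^ d0) →
        (¬ ∀ j, (Fintype.card X : ℝ) ^ (1 - d0) ≤ s j) →
        (∏ j, s j ^ (-(1 / p))) * ((F.filter fun c => ∀ j, c j ∈ A j).card : ℝ) ≤ B)
    (x : Fin k → X → ℝ) (hx0 : ∀ j y, 0 ≤ x j y) (hxn : ∀ j, ∑ y, x j y ^ p = 1) :
    ∑ c ∈ F, ∏ j, x j (c j) ≤ (1 + eps) ^ (k + 1) + ((Fintype.card X : ℝ)⁻¹ +
      ((⌊(k + 1 : ℝ) * Real.log (Fintype.card X) / Real.log (1 + eps)⌋₊ + 1 : ℕ) : ℝ) ^ k *
        (C * (Fintype.card X : ℝ)⁻¹ * Real.log (Fintype.card X) + B)) := by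
  set N : ℝ := (Fintype.card X : ℝ) with hNdef
  have hN' : (2 : ℝ) ≤ N := by rw [hNdef]; exact_mod_cast hN
  set th : ℝ := 1 + eps with hth
  have hth1 : 1 < th := by linarith
  have hth2 : th ≤ 2 := by linarith
  have hth0 : 0 < th := by linarith
  have hlogN : 0 ≤ Real.log N := Real.log_nonneg (by linarith)
  have hlogth : 0 < Real.log th := Real.log_pos hth1
  have hk7 : (7 : ℝ) ≤ k := by exact_mod_cast hk
  have hpk : p ≤ k := by linarith
  have hx1 : ∀ j y, x j y ≤ 1 := by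
    intro j y
    by_contra hcon
    rw [not_le] at hcon
    have h1 := Real.one_lt_rpow hcon hp
    have h2 : x j y ^ p ≤ ∑ y, x j y ^ p :=
      Finset.single_le_sum (f := fun y => x j y ^ p) (fun y _ => Real.rpow_nonneg (hx0 j y) p)
        (Finset.mem_univ y)
    rw [hxn j] at h2
    linarith
  set tau : ℝ := (N ^ (k + 1))⁻¹ with htaudef
  have htau : 0 < tau := by positivity
  set lv : (Fin k → X) → Fin k → ℕ := fun c j => Nrm_lev th (x j (c j)) with hlv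
  set I : ℕ := ⌊(k + 1 : ℝ) * Real.log N / Real.log th⌋₊ with hI
  set xl : Fin k → X → ℝ := fun j y => if tau ≤ x j y ∧
      Nrm_s th p N (Nrm_lev th (x j y)) ≤ N ^ d0 then x j y else 0 with hxl
  set xh : Fin k → X → ℝ := fun j y => if tau ≤ x j y ∧
      N ^ (1 - d0) ≤ Nrm_s th p N (Nrm_lev th (x j y)) then x j y else 0 with hxh
  have hxl0 : ∀ j y, 0 ≤ xl j y := by
    intro j y
    rw [hxl]
    simp only
    split_ifs
    · exact hx0 j y
    · exact le_rfl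
  have hxh0 : ∀ j y, 0 ≤ xh j y := by
    intro j y
    rw [hxh]
    simp only
    split_ifs
    · exact hx0 j y
    · exact le_rfl
  have hd : N ^ d0 < N ^ (1 - d0) :=
    Real.rpow_lt_rpow_of_exponent_lt (by linarith) (by linarith)
  -- the parts of `F`
  set S : Finset (Fin k → X) := F.filter (fun c => ∀ j, tau ≤ x j (c j)) with hS
  set SL : Finset (Fin k → X) := S.filter (fun c => ∀ j,
      Nrm_s th p N (Nrm_lev th (x j (c j))) ≤ N ^ d0) with hSL
  set S' : Finset (Fin k → X) := S.filter (fun c => ¬ ∀ j,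
      Nrm_s th p N (Nrm_lev th (x j (c j))) ≤ N ^ d0) with hS'
  set SH : Finset (Fin k → X) := S'.filter (fun c => ∀ j,
      N ^ (1 - d0) ≤ Nrm_s th p N (Nrm_lev th (x j (c j)))) with hSH
  set SM : Finset (Fin k → X) := S'.filter (fun c => ¬ ∀ j,
      N ^ (1 - d0) ≤ Nrm_s th p N (Nrm_lev th (x j (c j)))) with hSM
  have hsplit1 := Finset.sum_filter_add_sum_filter_not F (fun c => ∀ j, tau ≤ x j (c j))
    (fun c => ∏ j, x j (c j))
  have hsplit2 := Finset.sum_filter_add_sum_filter_not S (fun c => ∀ j,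
      Nrm_s th p N (Nrm_lev th (x j (c j))) ≤ N ^ d0) (fun c => ∏ j, x j (c j))
  have hsplit3 := Finset.sum_filter_add_sum_filter_not S' (fun c => ∀ j,
      N ^ (1 - d0) ≤ Nrm_s th p N (Nrm_lev th (x j (c j)))) (fun c => ∏ j, x j (c j))
  rw [← hS] at hsplit1
  rw [← hSL, ← hS'] at hsplit2
  rw [← hSH, ← hSM] at hsplit3
  -- tiny
  have hT := Nrm_tiny F (by omega) x hx0 hx1
  rw [← hNdef, ← htaudef] at hT
  -- low
  have hL := Nrm_low hth1 hth2 hp hp2 hpk hd0 hd8 F hN hNd hsp tau htau x xl hx0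
    (fun j => (hxn j).le) (fun j y => rfl)
  rw [← hNdef] at hL
  have hL2 : ∑ c ∈ SL, ∏ j, x j (c j) ≤ ∏ j, (∑ y, xl j y ^ p) ^ (1 / p) := by
    rw [hSL, hS, Finset.filter_filter]
    exact hL
  -- the level map
  set T : Finset (Fin k → ℕ) := Fintype.piFinset (fun _ : Fin k => Finset.range (I + 1)) with hTT
  have hTcard : T.card = (I + 1) ^ k := by
    rw [hTT, Fintype.card_piFinset]
    simp
  have hmaps : ∀ c ∈ S, lv c ∈ T := by
    intro c hc
    rw [hTT, Fintype.mem_piFinset]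
    intro j
    rw [Finset.mem_range, Nat.lt_succ_iff]
    rw [hlv, hI]
    unfold Nrm_lev
    apply Nat.floor_mono
    apply div_le_div_of_nonneg_right _ hlogth.le
    rw [hS, Finset.mem_filter] at hc
    have h1 := Real.log_le_log htau (hc.2 j)
    rw [htaudef, Real.log_inv, Real.log_pow] at h1
    push_cast at h1
    linarith
  have hmapsH : ∀ c ∈ SH, lv c ∈ T := fun c hc =>
    hmaps c ((Finset.filter_subset _ _) ((Finset.filter_subset _ _) hc))
  have hmapsM : ∀ c ∈ SM, lv c ∈ T := fun c hc =>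
    hmaps c ((Finset.filter_subset _ _) ((Finset.filter_subset _ _) hc))
  have hSF : S ⊆ F := Finset.filter_subset _ _
  -- high
  have hH : ∑ c ∈ SH, ∏ j, x j (c j) ≤
      (1 + eps) * th ^ k * ∏ j, (∑ y, xh j y ^ p) ^ (1 / p) +
        ((I + 1 : ℕ) : ℝ) ^ k * (C * N⁻¹ * Real.log N) := by
    rw [← Finset.sum_fiberwise_of_maps_to hmapsH]
    have h1 : ∀ i ∈ T, ∑ c ∈ SH with lv c = i, ∏ j, x j (c j) ≤
        (1 + eps) * th ^ k * (∑ c : Fin k → X with lv c = i, mu c * ∏ j, xh j (c j)) +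
        C * N⁻¹ * Real.log N := by
      intro i _
      apply Nrm_high_box heps hth hp hp2 hk hd8 hC F hN mu hmu hbox tau htau x xh hx0 hx1
        (fun j y => rfl) (SH.filter fun c => lv c = i)
      · exact (Finset.filter_subset _ _).trans ((Finset.filter_subset _ _).trans
          ((Finset.filter_subset _ _).trans hSF))
      · intro c hc j
        rw [Finset.mem_filter, hSH, Finset.mem_filter, hS', Finset.mem_filter, hS,
          Finset.mem_filter] at hc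
        exact ⟨hc.1.1.1.2 j, congrFun hc.2 j⟩
      · intro c hc j
        rw [Finset.mem_filter, hSH, Finset.mem_filter] at hc
        exact hc.1.2 j
    refine (Finset.sum_le_sum h1).trans ?_
    rw [Finset.sum_add_distrib, Finset.sum_const, hTcard, nsmul_eq_mul, ← Finset.mul_sum]
    have h2 : ∑ i ∈ T, ∑ c : Fin k → X with lv c = i, mu c * ∏ j, xh j (c j) ≤
        ∑ c, mu c * ∏ j, xh j (c j) :=
      Finset.sum_fiberwise_le_sum_of_sum_fiber_nonneg fun i _ =>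
        Finset.sum_nonneg fun c _ => mul_nonneg (hmu c) (Finset.prod_nonneg fun j _ => hxh0 j _)
    have h3 := h2.trans (hflat xh hxh0)
    push_cast
    gcongr
  -- mixed
  have hM : ∑ c ∈ SM, ∏ j, x j (c j) ≤ ((I + 1 : ℕ) : ℝ) ^ k * B := by
    rw [← Finset.sum_fiberwise_of_maps_to hmapsM]
    have h1 : ∀ i ∈ T, ∑ c ∈ SM with lv c = i, ∏ j, x j (c j) ≤ B := by
      intro i _
      rcases (SM.filter fun c => lv c = i).eq_empty_or_nonempty with h | ⟨c0, hc0⟩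
      · rw [h, Finset.sum_empty]
        exact hB
      · have hprop : ∀ c ∈ SM.filter (fun c => lv c = i), ∀ j, tau ≤ x j (c j) ∧
            Nrm_lev th (x j (c j)) = i j := by
          intro c hc j
          rw [Finset.mem_filter, hSM, Finset.mem_filter, hS', Finset.mem_filter, hS,
            Finset.mem_filter] at hc
          exact ⟨hc.1.1.1.2 j, congrFun hc.2 j⟩
        have h2 := Nrm_fiber hth1 htau F (SM.filter fun c => lv c = i)
          ((Finset.filter_subset _ _).trans ((Finset.filter_subset _ _).trans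
          ((Finset.filter_subset _ _).trans hSF))) i x hx0 hx1 hprop
          (fun j => Finset.univ.filter (fun y => tau ≤ x j y ∧ Nrm_lev th (x j y) = i j))
          (fun j => rfl)
        refine h2.trans ?_
        refine le_trans ?_ (hmix (fun j => Nrm_s th p N (i j))
          (fun j => Finset.univ.filter (fun y => tau ≤ x j y ∧ Nrm_lev th (x j y) = i j))
          (fun j => Nrm_one_le_s hth1 hp (by linarith) _) (fun j => Nrm_s_le _) ?_ ?_ ?_ ?_)
        · apply mul_le_mul_of_nonneg_right _ (Nat.cast_nonneg _)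
          apply Finset.prod_le_prod (fun j _ => by positivity)
          intro j _
          exact Nrm_inv_le hth1 hp (by linarith) _
        · intro j
          exact ⟨c0 j, Finset.mem_filter.2 ⟨Finset.mem_univ _, hprop c0 hc0 j⟩⟩
        · intro j
          exact Nrm_card_level hth1 hth2 hp hp2 htau (x j) (hx0 j) (hxn j).le (i j) _ rfl
        · intro hall
          rw [Finset.mem_filter, hSM, Finset.mem_filter, hS', Finset.mem_filter] at hc0
          apply hc0.1.1.2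
          intro j
          have h3 := hall j
          rw [← congrFun hc0.2 j] at h3
          exact h3
        · intro hall
          rw [Finset.mem_filter, hSM, Finset.mem_filter] at hc0
          apply hc0.1.2
          intro j
          have h3 := hall j
          rw [← congrFun hc0.2 j] at h3
          exact h3
    refine (Finset.sum_le_sum h1).trans ?_
    rw [Finset.sum_const, hTcard, nsmul_eq_mul]
    push_cast
    exact le_rfl
  -- the two products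
  have hprod : ∏ j, (∑ y, xl j y ^ p) ^ (1 / p) + ∏ j, (∑ y, xh j y ^ p) ^ (1 / p) ≤ 1 := by
    have hs0 : ∀ z : Fin k → X → ℝ, (∀ j y, 0 ≤ z j y) → ∀ j, 0 ≤ ∑ y, z j y ^ p :=
      fun z hz j => Finset.sum_nonneg fun y _ => Real.rpow_nonneg (hz j y) _
    apply prod_add_prod_le hp hpk
    · intro j
      exact Real.rpow_nonneg (hs0 xl hxl0 j) _
    · intro j
      exact Real.rpow_nonneg (hs0 xh hxh0 j) _
    · intro j
      rw [← Real.rpow_mul (hs0 xl hxl0 j), ← Real.rpow_mul (hs0 xh hxh0 j),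
        one_div_mul_cancel hp.ne', Real.rpow_one, Real.rpow_one, ← Finset.sum_add_distrib,
        ← hxn j]
      apply Finset.sum_le_sum
      intro y _
      rw [hxl, hxh]
      simp only
      have hz : (0 : ℝ) ^ p = 0 := Real.zero_rpow hp.ne'
      have hxp := Real.rpow_nonneg (hx0 j y) p
      by_cases h1 : tau ≤ x j y ∧ Nrm_s th p N (Nrm_lev th (x j y)) ≤ N ^ d0
      · rw [if_pos h1, if_neg, hz, add_zero]
        rintro ⟨_, h2⟩
        linarith [h1.2]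
      · rw [if_neg h1, hz, zero_add]
        split_ifs
        · exact le_rfl
        · rw [hz]
          exact hxp
  have hl0 : 0 ≤ ∏ j, (∑ y, xl j y ^ p) ^ (1 / p) := Finset.prod_nonneg fun j _ =>
    Real.rpow_nonneg (Finset.sum_nonneg fun y _ => Real.rpow_nonneg (hxl0 j y) _) _
  have hh0 : 0 ≤ ∏ j, (∑ y, xh j y ^ p) ^ (1 / p) := Finset.prod_nonneg fun j _ =>
    Real.rpow_nonneg (Finset.sum_nonneg fun y _ => Real.rpow_nonneg (hxh0 j y) _) _
  have hpw : 1 ≤ th ^ (k + 1) := one_le_pow₀ hth1.le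
  have hfin : ∏ j, (∑ y, xl j y ^ p) ^ (1 / p) +
      (1 + eps) * th ^ k * ∏ j, (∑ y, xh j y ^ p) ^ (1 / p) ≤ th ^ (k + 1) := by
    have h1 : (1 + eps) * th ^ k = th ^ (k + 1) := by
      rw [hth, pow_succ]
      ring
    rw [h1]
    nlinarith
  calc ∑ c ∈ F, ∏ j, x j (c j)
      = ∑ c ∈ SL, ∏ j, x j (c j) + (∑ c ∈ SH, ∏ j, x j (c j) + ∑ c ∈ SM, ∏ j, x j (c j)) +
        ∑ c ∈ F with ¬ ∀ j, tau ≤ x j (c j), ∏ j, x j (c j) := by
        rw [hsplit3, hsplit2, hsplit1]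
    _ ≤ ∏ j, (∑ y, xl j y ^ p) ^ (1 / p) + (((1 + eps) * th ^ k *
          ∏ j, (∑ y, xh j y ^ p) ^ (1 / p) +
        ((I + 1 : ℕ) : ℝ) ^ k * (C * N⁻¹ * Real.log N)) + ((I + 1 : ℕ) : ℝ) ^ k * B) + N⁻¹ := by
        gcongr
    _ = (∏ j, (∑ y, xl j y ^ p) ^ (1 / p) + (1 + eps) * th ^ k *
          ∏ j, (∑ y, xh j y ^ p) ^ (1 / p)) +
        (N⁻¹ + ((I + 1 : ℕ) : ℝ) ^ k * (C * N⁻¹ * Real.log N + B)) := by ring
    _ ≤ th ^ (k + 1) + (N⁻¹ + ((I + 1 : ℕ) : ℝ) ^ k * (C * N⁻¹ * Real.log N + B)) := by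
        gcongr

end core

private lemma Nrm_eps {eta : ℝ} (heta : 0 < eta) (k : ℕ) : ∃ eps : ℝ, 0 < eps ∧ eps ≤ 1 ∧
    (1 + eps) ^ (k + 1) ≤ 1 + eta / 2 := by
  have hl : 0 < Real.log (1 + eta / 2) := Real.log_pos (by linarith)
  refine ⟨min 1 (Real.log (1 + eta / 2) / (k + 1)), by positivity, min_le_left _ _, ?_⟩
  set e := min 1 (Real.log (1 + eta / 2) / (k + 1)) with he
  have he0 : 0 < e := by rw [he]; positivity
  have h1 : e ≤ Real.log (1 + eta / 2) / (k + 1) := min_le_right _ _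
  have h2 : e * (k + 1) ≤ Real.log (1 + eta / 2) := by
    rwa [le_div_iff₀ (by positivity)] at h1
  calc (1 + e) ^ (k + 1) ≤ (Real.exp e) ^ (k + 1) := by
        apply pow_le_pow_left₀ (by linarith)
        linarith [Real.add_one_le_exp e]
    _ = Real.exp (e * (k + 1)) := by
        rw [← Real.exp_nat_mul]
        push_cast
        ring_nf
    _ ≤ Real.exp (Real.log (1 + eta / 2)) := Real.exp_le_exp.2 h2
    _ = 1 + eta / 2 := Real.exp_log (by linarith)

/-- The error term. -/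
private lemma Nrm_err {eta gam C K L : ℝ} (heta : 0 < eta) (hgam : 0 < gam) (hC : 0 ≤ C)
    (hK : 0 ≤ K) (hL : 0 < L) (k : ℕ) : ∃ N1 : ℕ, ∀ n : ℕ, N1 ≤ n → 2 ≤ n →
    (n : ℝ)⁻¹ + ((⌊(k + 1 : ℝ) * Real.log n / L⌋₊ + 1 : ℕ) : ℝ) ^ k *
      (C * (n : ℝ)⁻¹ * Real.log n + K * (n : ℝ) ^ (-gam) * (1 + Real.log n)) ≤ eta / 2 := by
  set g := min gam 1 with hg
  have hg0 : 0 < g := by rw [hg]; positivity
  set e := g / (2 * (k + 1)) with he
  have he0 : 0 < e := by rw [he]; positivity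
  set c := (k + 1 : ℝ) / L + 1 with hc
  have hc0 : 0 < c := by rw [hc]; positivity
  set D := (1 + c ^ k * (C + K)) * (1 + 1 / e) ^ (k + 1) with hD
  have hD0 : 0 < D := by rw [hD]; positivity
  have htend : Filter.Tendsto (fun n : ℕ => (n : ℝ) ^ (-(g / 2))) Filter.atTop (nhds 0) :=
    (tendsto_rpow_neg_atTop (by positivity : 0 < g / 2)).comp tendsto_natCast_atTop_atTop
  have hev := htend.eventually (gt_mem_nhds (show (0 : ℝ) < eta / 2 / D by positivity))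
  obtain ⟨N1, hN1⟩ := Filter.eventually_atTop.1 hev
  refine ⟨N1, fun n hn hn2 => ?_⟩
  have h0 := hN1 n hn
  have hn' : (2 : ℝ) ≤ n := by exact_mod_cast hn2
  have hnpos : (0 : ℝ) < n := by linarith
  have hn1 : (1 : ℝ) ≤ n := by linarith
  have hlog : 0 ≤ Real.log n := Real.log_nonneg hn1
  have hlog1 : 1 + Real.log n ≤ (1 + 1 / e) * (n : ℝ) ^ e := by
    have h1 := Real.log_le_rpow_div hnpos.le he0
    have h2 : (1 : ℝ) ≤ (n : ℝ) ^ e := Real.one_le_rpow hn1 he0.le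
    calc 1 + Real.log n ≤ (n : ℝ) ^ e + (n : ℝ) ^ e / e := add_le_add h2 h1
      _ = (1 + 1 / e) * (n : ℝ) ^ e := by ring
  have hlogp : (1 + Real.log n) ^ (k + 1) ≤ (1 + 1 / e) ^ (k + 1) * (n : ℝ) ^ (g / 2) := by
    calc (1 + Real.log n) ^ (k + 1) ≤ ((1 + 1 / e) * (n : ℝ) ^ e) ^ (k + 1) :=
          pow_le_pow_left₀ (by linarith) hlog1 _
      _ = (1 + 1 / e) ^ (k + 1) * ((n : ℝ) ^ e) ^ (k + 1) := mul_pow _ _ _
      _ = (1 + 1 / e) ^ (k + 1) * (n : ℝ) ^ (g / 2) := by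
        congr 1
        rw [← Real.rpow_natCast ((n : ℝ) ^ e) (k + 1), ← Real.rpow_mul hnpos.le]
        congr 1
        rw [he]
        push_cast
        field_simp
  have hfl : ((⌊(k + 1 : ℝ) * Real.log n / L⌋₊ + 1 : ℕ) : ℝ) ≤ c * (1 + Real.log n) := by
    have h1 : (⌊(k + 1 : ℝ) * Real.log n / L⌋₊ : ℝ) ≤ (k + 1 : ℝ) * Real.log n / L :=
      Nat.floor_le (by positivity)
    have h2 : 0 ≤ (k + 1 : ℝ) / L := by positivity
    push_cast
    calc (⌊(k + 1 : ℝ) * Real.log n / L⌋₊ : ℝ) + 1 ≤ (k + 1 : ℝ) * Real.log n / L + 1 := by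
          linarith
      _ = (k + 1 : ℝ) / L * Real.log n + 1 := by ring
      _ ≤ c * (1 + Real.log n) := by
          rw [hc]
          nlinarith
  have hng : (n : ℝ) ^ (-gam) ≤ (n : ℝ) ^ (-g) :=
    Real.rpow_le_rpow_of_exponent_le hn1 (by rw [neg_le_neg_iff]; exact min_le_left _ _)
  have hn1g : (n : ℝ)⁻¹ ≤ (n : ℝ) ^ (-g) := by
    rw [← Real.rpow_neg_one]
    exact Real.rpow_le_rpow_of_exponent_le hn1 (by rw [neg_le_neg_iff]; exact min_le_right _ _)
  have hinner : C * (n : ℝ)⁻¹ * Real.log n + K * (n : ℝ) ^ (-gam) * (1 + Real.log n) ≤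
      (C + K) * (n : ℝ) ^ (-g) * (1 + Real.log n) := by
    calc C * (n : ℝ)⁻¹ * Real.log n + K * (n : ℝ) ^ (-gam) * (1 + Real.log n)
        ≤ C * (n : ℝ) ^ (-g) * (1 + Real.log n) + K * (n : ℝ) ^ (-g) * (1 + Real.log n) := by
          gcongr
          linarith
      _ = (C + K) * (n : ℝ) ^ (-g) * (1 + Real.log n) := by ring
  have hpow1 : 1 ≤ (1 + Real.log n) ^ (k + 1) := one_le_pow₀ (by linarith)
  have hgn0 : 0 < (n : ℝ) ^ (-g) := Real.rpow_pos_of_pos hnpos _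
  have hneg : (n : ℝ) ^ (g / 2) * (n : ℝ) ^ (-g) = (n : ℝ) ^ (-(g / 2)) := by
    rw [← Real.rpow_add hnpos]
    congr 1
    ring
  calc (n : ℝ)⁻¹ + ((⌊(k + 1 : ℝ) * Real.log n / L⌋₊ + 1 : ℕ) : ℝ) ^ k *
      (C * (n : ℝ)⁻¹ * Real.log n + K * (n : ℝ) ^ (-gam) * (1 + Real.log n))
      ≤ (n : ℝ) ^ (-g) + (c * (1 + Real.log n)) ^ k *
        ((C + K) * (n : ℝ) ^ (-g) * (1 + Real.log n)) := by
        gcongr
    _ = (n : ℝ) ^ (-g) * 1 + c ^ k * (C + K) * (n : ℝ) ^ (-g) * (1 + Real.log n) ^ (k + 1) := by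
        rw [mul_pow, pow_succ]
        ring
    _ ≤ (n : ℝ) ^ (-g) * (1 + Real.log n) ^ (k + 1) +
        c ^ k * (C + K) * (n : ℝ) ^ (-g) * (1 + Real.log n) ^ (k + 1) := by
        gcongr
    _ = (1 + c ^ k * (C + K)) * (n : ℝ) ^ (-g) * (1 + Real.log n) ^ (k + 1) := by ring
    _ ≤ (1 + c ^ k * (C + K)) * (n : ℝ) ^ (-g) *
        ((1 + 1 / e) ^ (k + 1) * (n : ℝ) ^ (g / 2)) := by
        gcongr
    _ = D * ((n : ℝ) ^ (g / 2) * (n : ℝ) ^ (-g)) := by
        rw [hD]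
        ring
    _ = D * (n : ℝ) ^ (-(g / 2)) := by rw [hneg]
    _ ≤ D * (eta / 2 / D) := by gcongr
    _ = eta / 2 := by field_simp

/-- The number of low edges. -/
private lemma Nrm_d0 {d0 delta : ℝ} (hdelta : 0 < delta) (k : ℕ)
    (hd : d0 * k ≤ delta / 4) : ∃ N1 : ℕ, ∀ n : ℕ, N1 ≤ n → 2 ≤ n →
    (4 * (n : ℝ) ^ d0) ^ k ≤ (n : ℝ) ^ delta := by
  have htend : Filter.Tendsto (fun n : ℕ => (n : ℝ) ^ (delta / 2)) Filter.atTop Filter.atTop :=
    (tendsto_rpow_atTop (by positivity : 0 < delta / 2)).comp tendsto_natCast_atTop_atTop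
  have hev := htend.eventually_ge_atTop ((4 : ℝ) ^ k)
  obtain ⟨N1, hN1⟩ := Filter.eventually_atTop.1 hev
  refine ⟨N1, fun n hn hn2 => ?_⟩
  have h0 := hN1 n hn
  have hn' : (2 : ℝ) ≤ n := by exact_mod_cast hn2
  have hnpos : (0 : ℝ) < n := by linarith
  have hn1 : (1 : ℝ) ≤ n := by linarith
  calc (4 * (n : ℝ) ^ d0) ^ k = 4 ^ k * (n : ℝ) ^ (d0 * k) := by
        rw [mul_pow, Real.rpow_mul hnpos.le, Real.rpow_natCast]
    _ ≤ (n : ℝ) ^ (delta / 2) * (n : ℝ) ^ (delta / 4) := by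
        gcongr
    _ = (n : ℝ) ^ (delta / 2 + delta / 4) := by rw [← Real.rpow_add hnpos]
    _ ≤ (n : ℝ) ^ delta := Real.rpow_le_rpow_of_exponent_le hn1 (by linarith)

/-- The norm lemma.

PROOF. Choose `eps ∈ (0, 1]` with `(1 + eps)^{k+1} ≤ 1 + eta/2`, put `θ = 1 + eps`. Given
`delta, C, M0`, let `d0 = min (1/8) (delta/(4 k))`, `gam`, `K` from `mixed_bound`. Let `N = |X|` be
large. By homogeneity we may suppose `∑_y x_j(y)^p = 1` for all `j` (if some `x_j = 0` both sides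
vanish). So `x_j ≤ 1`.
Call `y` TINY in slot `j` if `x_j(y) < N^{-(k+1)}`. For the other `y` let
`lev_j(y) = ⌊- log x_j(y) / log θ⌋`, a natural number `≤ I := ⌊(k+1) log N / log θ⌋`, so that
`θ^{-(lev+1)} < x_j(y) ≤ θ^{-lev}`, and `s(i) = min(θ^{i p}, N) ∈ [1, N]`. Let
`A_{j,i} = {y not tiny, lev_j(y) = i}`. From `∑ x_j^p = 1`: `|A_{j,i}| ≤ θ^{(i+1)p}`, and
`|A_{j,i}| ≤ N`, so `|A_{j,i}| ≤ θ^p s(i) ≤ 4 s(i)`; also `θ^{-i} ≤ s(i)^{-1/p}`.
A non tiny `y` is LOW in slot `j` if `s(lev) ≤ N^{d0}`, HIGH if `s(lev) ≥ N^{1-d0}`.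
Split the edges `c ∈ F`:
(T) some `c_j` is tiny in slot `j`: total at most `|F| N^{-(k+1)} ≤ N^k N^{-(k+1)} = N^{-1}`.
(L) all `c_j` low: these edges lie in `E0 = {c ∈ F : ∀ j, x_j(c_j)^p ≥ θ^{-p} N^{-d0}}`; the number
of `y` with `x_j(y)^p ≥ θ^{-p} N^{-d0}` is at most `4 N^{d0}`, so `|E0| ≤ (4 N^{d0})^k ≤ N^{delta}`
for `N` large; by the sparse property every nonempty `E' ⊆ E0` has at least `k + p(|E'|-1)`
vertices, so by `normLE_of_sparse` `∑_{c ∈ (L)} ∏ x_j(c_j) ≤ ∏ ‖xl_j‖_p`, where `xl_j = x_j` on the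
low `y` and `0` elsewhere.
(H) all `c_j` high: group the edges by the level tuple `i : Fin k → {0..I}`, all `s(i_j) ≥
N^{1-d0}`. The sum over the edges of one box is at most
`∏ θ^{-i_j} #box ≤ ∏ θ^{-i_j} (1+eps) mu(box) + ∏ s(i_j)^{-1/p} 4 C N log N`. The second term is at
most `4 C N^{1 - (1-d0) k/p} log N ≤ 4 C N^{-1} log N` (as `k/p > 3`, `d0 ≤ 1/8`). The sum over the
boxes of the first term is at most `(1+eps) θ^k ∑_c mu(c) ∏ xh_j(c_j) ≤ (1+eps)^{k+1} ∏ ‖xh_j‖_p`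
by the flat bound, `xh_j = x_j` on the high `y` and `0` elsewhere (`θ^{-i_j} ≤ θ x_j(c_j)`).
(M) the other edges: the boxes of the level tuples which are neither all low nor all high. By
`mixed_bound` every (nonempty) box contributes at most `K N^{-gam} (1 + log N)`.
There are at most `(I+1)^k` level tuples. Altogether
`∑_{c ∈ F} ∏ x_j(c_j) ≤ ∏ ‖xl_j‖_p + (1+eps)^{k+1} ∏ ‖xh_j‖_p + err(N)
≤ (1+eps)^{k+1} + err(N) ≤ 1 + eta` with `prod_add_prod_le` (`‖xl_j‖^p + ‖xh_j‖^p ≤ 1`) and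
`err(N) = N^{-1} + (I+1)^k (K N^{-gam} (1 + log N) + 4 C N^{-1} log N) → 0`. -/
theorem norm_of_box {eta : ℝ} (heta : 0 < eta) : ∃ eps : ℝ, 0 < eps ∧ eps ≤ 1 ∧
    ∀ delta C M0 : ℝ, 0 < delta → 0 ≤ C → 0 ≤ M0 → ∃ N1 : ℕ,
    ∀ (X : Type) [Fintype X] [DecidableEq X], N1 ≤ Fintype.card X →
      ∀ (F : Finset (Fin P.k → X)) (mu : (Fin P.k → X) → ℝ), (∀ c, 0 ≤ mu c) →
      (∀ c, mu c ≤ M0 * (Fintype.card X : ℝ) ^ (-(P.k / P.q : ℝ))) →
      (∀ x : Fin P.k → X → ℝ, (∀ j y, 0 ≤ x j y) →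
        ∑ c, mu c * ∏ j, x j (c j) ≤ ∏ j, (∑ y, x j y ^ P.p) ^ (1 / P.p)) →
      BoxBound F mu eps C → SparseProp P.p delta F → NormLE P.p F (1 + eta) := by
  obtain ⟨eps, heps, heps1, hepsk⟩ := Nrm_eps heta P.k
  refine ⟨eps, heps, heps1, fun delta C M0 hdelta hC hM0 => ?_⟩
  have hk := P.k_gt
  have hk0 : (0 : ℝ) < P.k := by
    have : 0 < P.k := by omega
    exact_mod_cast this
  set d0 : ℝ := min (1 / 8) (delta / (4 * P.k)) with hd0
  have hd0pos : 0 < d0 := by rw [hd0]; positivity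
  have hd8 : d0 ≤ 1 / 8 := min_le_left _ _
  have hdk : d0 * P.k ≤ delta / 4 := by
    calc d0 * P.k ≤ delta / (4 * P.k) * P.k := by
          gcongr
          exact min_le_right _ _
      _ = delta / 4 := by field_simp
  obtain ⟨gam, hgam, hmb⟩ := mixed_bound P hd0pos
  obtain ⟨K, hK, hmb⟩ := hmb C M0 hC hM0
  obtain ⟨N1, hN1⟩ := Nrm_err heta hgam hC hK
    (Real.log_pos (by linarith : (1 : ℝ) < 1 + eps)) P.k
  obtain ⟨N2, hN2⟩ := Nrm_d0 hdelta P.k hdk
  refine ⟨max 2 (max N1 N2), ?_⟩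
  intro X _ _ hX F mu hmu hmuM hflat hbox hsp
  have hX2 : 2 ≤ Fintype.card X := (le_max_left _ _).trans hX
  have hX1 : N1 ≤ Fintype.card X := ((le_max_left _ _).trans (le_max_right _ _)).trans hX
  have hX3 : N2 ≤ Fintype.card X := ((le_max_right _ _).trans (le_max_right _ _)).trans hX
  apply Nrm_normalise P.p_pos
  intro x hx0 hxn
  have hNr : (2 : ℝ) ≤ Fintype.card X := by exact_mod_cast hX2
  have hlog : 0 ≤ Real.log (Fintype.card X) := Real.log_nonneg (by linarith)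
  have hcore := Nrm_core heps heps1 P.p_pos P.lt_two hk hd0pos hd8 hC F hX2
    (hN2 _ hX3 hX2) mu hmu hflat hbox hsp
    (B := K * (Fintype.card X : ℝ) ^ (-gam) * (1 + Real.log (Fintype.card X)))
    (by positivity)
    (fun s A h1 h2 h3 h4 h5 h6 => hmb X F mu eps hX2 heps.le heps1 hmu hmuM hbox s A h1 h2 h3
      h4 h5 h6) x hx0 hxn
  have herr := hN1 _ hX1 hX2
  calc _ ≤ _ := hcore
    _ ≤ (1 + eta / 2) + eta / 2 := add_le_add hepsk herr
    _ = 1 + eta := by ring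

end

end Pool.Agent.GP2
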