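import Pool.Agent.GP2.Loc

/-!
# NRM: a hypergraph with few edges in all boxes and sparse small parts has almost the norm of
its density
-/

namespace Pool.Agent.GP2

open Finset

noncomputable section

/-- The box bounds. -/
def BoxBound {k : ℕ} {X : Type} [Fintype X] [DecidableEq X] (F : Finset (Fin k → X))
    (mu : (Fin k → X) → ℝ) (eps C : ℝ) : Prop :=
  ∀ (J : Finset (Fin k)) (A : Fin k → Finset X), k - 1 ≤ J.card → (∀ j ∈ J, (A j).Nonempty) →
    ((F.filter fun c => ∀ j ∈ J, c j ∈ A j).card : ℝ) ≤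
      (1 + eps) * (∑ c : Fin k → X with ∀ j ∈ J, c j ∈ A j, mu c) +
        C * (J.sup fun j => (A j).card : ℕ) * Real.log (Fintype.card X)

/-- The sparse property. -/
def SparseProp {k : ℕ} {X : Type} [Fintype X] [DecidableEq X] (p delta : ℝ)
    (F : Finset (Fin k → X)) : Prop :=
  ∀ E' ⊆ F, E'.Nonempty → (E'.card : ℝ) ≤ (Fintype.card X : ℝ) ^ delta →
    (k : ℝ) + p * ((E'.card : ℝ) - 1) ≤ (E'.biUnion Vx).card

variable (P : Par)

lemma NrmA_card {k : ℕ} {X : Type} [Fintype X] [DecidableEq X] (J : Finset (Fin k))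
    (A : Fin k → Finset X) :
    ((univ.filter fun c : Fin k → X => ∀ j ∈ J, c j ∈ A j).card : ℝ) =
      ∏ j, (if j ∈ J then ((A j).card : ℝ) else (Fintype.card X : ℝ)) := by
  have h : (univ.filter fun c : Fin k → X => ∀ j ∈ J, c j ∈ A j) =
      Fintype.piFinset (fun j => if j ∈ J then A j else univ) := by
    ext c
    simp only [mem_filter, mem_univ, true_and, Fintype.mem_piFinset]
    constructor
    · intro h j
      by_cases hj : j ∈ J
      · simpa [hj] using h j hj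
      · simp [hj]
    · intro h j hj
      have := h j
      simpa [hj] using this
  rw [h, Fintype.card_piFinset]
  push_cast
  refine prod_congr rfl fun j _ => ?_
  by_cases hj : j ∈ J
  · simp [hj]
  · simp [hj]

lemma NrmA_mu {k : ℕ} {X : Type} [Fintype X] [DecidableEq X] (J : Finset (Fin k))
    (A : Fin k → Finset X) (mu : (Fin k → X) → ℝ) (M : ℝ) (hmu : ∀ c, mu c ≤ M) :
    (∑ c : Fin k → X with ∀ j ∈ J, c j ∈ A j, mu c) ≤
      M * ∏ j, (if j ∈ J then ((A j).card : ℝ) else (Fintype.card X : ℝ)) := by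
  calc (∑ c : Fin k → X with ∀ j ∈ J, c j ∈ A j, mu c)
      ≤ ∑ c : Fin k → X with ∀ j ∈ J, c j ∈ A j, M := sum_le_sum fun c _ => hmu c
    _ = M * ((univ.filter fun c : Fin k → X => ∀ j ∈ J, c j ∈ A j).card : ℝ) := by
        rw [sum_const, nsmul_eq_mul, mul_comm]
    _ = _ := by rw [NrmA_card]

lemma NrmA_inv (P : Par) : 1 / P.q = 1 - 1 / P.p := by linarith [P.add_eq]

lemma NrmA_L1 {N d0 : ℝ} (hN : 1 ≤ N) (s : Fin P.k → ℝ) (h1 : ∀ j, 1 ≤ s j)
    (h2 : ∀ j, s j ≤ N) (j1 : Fin P.k) (hj1 : s j1 < N ^ (1 - d0)) :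
    (∏ j, s j ^ (-(1 / P.p))) * (N ^ (-(P.k / P.q : ℝ)) * ∏ j, s j) ≤ N ^ (-(d0 / P.q)) := by
  have hN0 : 0 < N := by linarith
  have hq := P.q_pos
  have e1 : N ^ (-(P.k / P.q : ℝ)) = ∏ _j : Fin P.k, N ^ (-(1 / P.q)) := by
    rw [prod_const, card_univ, Fintype.card_fin, ← Real.rpow_natCast, ← Real.rpow_mul hN0.le]
    congr 1
    ring
  have e2 : (∏ j, s j ^ (-(1 / P.p))) * (N ^ (-(P.k / P.q : ℝ)) * ∏ j, s j) =
      ∏ j, (s j ^ (1 / P.q) * N ^ (-(1 / P.q))) := by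
    rw [e1, ← prod_mul_distrib, ← prod_mul_distrib]
    refine prod_congr rfl fun j _ => ?_
    have hs : 0 < s j := by linarith [h1 j]
    have : s j ^ (1 / P.q) = s j ^ (-(1 / P.p)) * s j := by
      rw [NrmA_inv, sub_eq_add_neg, add_comm, Real.rpow_add hs, Real.rpow_one]
    rw [this]
    ring
  rw [e2, ← mul_prod_erase univ _ (mem_univ j1)]
  have hf0 : ∀ j, 0 ≤ s j ^ (1 / P.q) * N ^ (-(1 / P.q)) := fun j => by
    have hs : 0 < s j := by linarith [h1 j]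
    positivity
  have hf1 : ∀ j, s j ^ (1 / P.q) * N ^ (-(1 / P.q)) ≤ 1 := fun j => by
    have hs : 0 < s j := by linarith [h1 j]
    calc s j ^ (1 / P.q) * N ^ (-(1 / P.q)) ≤ N ^ (1 / P.q) * N ^ (-(1 / P.q)) := by
          apply mul_le_mul_of_nonneg_right _ (by positivity)
          exact Real.rpow_le_rpow hs.le (h2 j) (by positivity)
      _ = 1 := by rw [← Real.rpow_add hN0]; simp
  have hf2 : s j1 ^ (1 / P.q) * N ^ (-(1 / P.q)) ≤ N ^ (-(d0 / P.q)) := by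
    have hs : 0 < s j1 := by linarith [h1 j1]
    calc s j1 ^ (1 / P.q) * N ^ (-(1 / P.q)) ≤ (N ^ (1 - d0)) ^ (1 / P.q) * N ^ (-(1 / P.q)) := by
          apply mul_le_mul_of_nonneg_right _ (by positivity)
          exact Real.rpow_le_rpow hs.le hj1.le (by positivity)
      _ = N ^ (-(d0 / P.q)) := by
          rw [← Real.rpow_mul hN0.le, ← Real.rpow_add hN0]
          congr 1
          ring
  calc s j1 ^ (1 / P.q) * N ^ (-(1 / P.q)) *
        ∏ j ∈ univ.erase j1, (s j ^ (1 / P.q) * N ^ (-(1 / P.q)))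
      ≤ s j1 ^ (1 / P.q) * N ^ (-(1 / P.q)) * 1 := by
        apply mul_le_mul_of_nonneg_left _ (hf0 j1)
        exact prod_le_one (fun j _ => hf0 j) (fun j _ => hf1 j)
    _ ≤ N ^ (-(d0 / P.q)) := by rw [mul_one]; exact hf2

lemma NrmA_L2 {N a R : ℝ} (hN : 1 ≤ N) (ha : 1 ≤ a)
    (h : a ^ (P.p - 1) * N ^ (1 / 4 : ℝ) ≤ R) :
    a ^ (-(1 / P.p)) * R ^ (-(1 / P.p)) * a ≤ N ^ (-(1 / (4 * P.p))) := by
  have hN0 : 0 < N := by linarith
  have ha0 : 0 < a := by linarith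
  have hp := P.p_pos
  have hx : 0 < a ^ (P.p - 1) * N ^ (1 / 4 : ℝ) := by positivity
  have h1 : R ^ (-(1 / P.p)) ≤ (a ^ (P.p - 1) * N ^ (1 / 4 : ℝ)) ^ (-(1 / P.p)) := by
    apply Real.rpow_le_rpow_of_nonpos hx h
    have : 0 < 1 / P.p := by positivity
    linarith
  have h2 : (a ^ (P.p - 1) * N ^ (1 / 4 : ℝ)) ^ (-(1 / P.p)) =
      a ^ ((P.p - 1) * (-(1 / P.p))) * N ^ (-(1 / (4 * P.p))) := by
    rw [Real.mul_rpow (by positivity) (by positivity), ← Real.rpow_mul ha0.le,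
      ← Real.rpow_mul hN0.le]
    congr 2
    field_simp
  calc a ^ (-(1 / P.p)) * R ^ (-(1 / P.p)) * a
      ≤ a ^ (-(1 / P.p)) * (a ^ ((P.p - 1) * (-(1 / P.p))) * N ^ (-(1 / (4 * P.p)))) * a := by
        rw [← h2]
        apply mul_le_mul_of_nonneg_right _ ha0.le
        exact mul_le_mul_of_nonneg_left h1 (by positivity)
    _ = (a ^ (-(1 / P.p)) * a ^ ((P.p - 1) * (-(1 / P.p))) * a ^ (1 : ℝ)) *
          N ^ (-(1 / (4 * P.p))) := by rw [Real.rpow_one]; ring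
    _ = N ^ (-(1 / (4 * P.p))) := by
        rw [← Real.rpow_add ha0, ← Real.rpow_add ha0]
        have : -(1 / P.p) + (P.p - 1) * -(1 / P.p) + 1 = 0 := by field_simp; ring
        rw [this, Real.rpow_zero, one_mul]

lemma NrmA_L3 {N a R : ℝ} (hN : 1 ≤ N) (ha : 1 ≤ a) (hR : 1 ≤ R)
    (h : R < a ^ (P.p - 1) * N ^ (1 / 4 : ℝ)) :
    a ^ (-(1 / P.p)) * R ^ (-(1 / P.p)) * (N ^ (-(P.k / P.q : ℝ)) * (N * R)) ≤
      N ^ (-(1 / 2 : ℝ)) := by
  have hN0 : 0 < N := by linarith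
  have ha0 : 0 < a := by linarith
  have hR0 : 0 < R := by linarith
  have hp := P.p_pos
  have hq := P.q_pos
  have hpq := P.mul_eq
  have hq2 := P.two_lt_q
  have h1 : R ^ (-(1 / P.p)) * R = R ^ (1 / P.q) := by
    rw [NrmA_inv, sub_eq_add_neg, add_comm, Real.rpow_add hR0, Real.rpow_one]
  have h2 : R ^ (1 / P.q) ≤ a ^ ((P.p - 1) * (1 / P.q)) * N ^ (1 / 4 * (1 / P.q)) := by
    calc R ^ (1 / P.q) ≤ (a ^ (P.p - 1) * N ^ (1 / 4 : ℝ)) ^ (1 / P.q) :=
          Real.rpow_le_rpow hR0.le h.le (by positivity)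
      _ = _ := by
          rw [Real.mul_rpow (by positivity) (by positivity), ← Real.rpow_mul ha0.le,
            ← Real.rpow_mul hN0.le]
  have h3 : a ^ (-(1 / P.p)) * a ^ ((P.p - 1) * (1 / P.q)) ≤ 1 := by
    rw [← Real.rpow_add ha0]
    apply Real.rpow_le_one_of_one_le_of_nonpos ha
    have e : -(1 / P.p) + (P.p - 1) * (1 / P.q) = P.p - 2 := by
      rw [NrmA_inv]
      field_simp
      ring
    rw [e]
    linarith [P.lt_two]
  have h4 : N ^ (-(P.k / P.q : ℝ)) * N * N ^ (1 / 4 * (1 / P.q)) ≤ N ^ (-(1 / 2 : ℝ)) := by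
    have e : N ^ (-(P.k / P.q : ℝ)) * N * N ^ (1 / 4 * (1 / P.q)) =
        N ^ (-(P.k / P.q : ℝ) + 1 + 1 / 4 * (1 / P.q)) := by
      rw [Real.rpow_add hN0, Real.rpow_add hN0, Real.rpow_one]
    rw [e]
    apply Real.rpow_le_rpow_of_exponent_le hN
    have hk : 2 < (P.k : ℝ) / P.q := by
      rw [lt_div_iff₀ hq]
      linarith [P.hk]
    have h5 : 1 / P.q ≤ 1 / 2 := by
      apply one_div_le_one_div_of_le (by norm_num) hq2.le
    linarith
  calc a ^ (-(1 / P.p)) * R ^ (-(1 / P.p)) * (N ^ (-(P.k / P.q : ℝ)) * (N * R))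
      = a ^ (-(1 / P.p)) * (R ^ (-(1 / P.p)) * R) * (N ^ (-(P.k / P.q : ℝ)) * N) := by ring
    _ = a ^ (-(1 / P.p)) * R ^ (1 / P.q) * (N ^ (-(P.k / P.q : ℝ)) * N) := by rw [h1]
    _ ≤ a ^ (-(1 / P.p)) * (a ^ ((P.p - 1) * (1 / P.q)) * N ^ (1 / 4 * (1 / P.q))) *
          (N ^ (-(P.k / P.q : ℝ)) * N) := by
        apply mul_le_mul_of_nonneg_right _ (by positivity)
        exact mul_le_mul_of_nonneg_left h2 (by positivity)
    _ = (a ^ (-(1 / P.p)) * a ^ ((P.p - 1) * (1 / P.q))) *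
          (N ^ (-(P.k / P.q : ℝ)) * N * N ^ (1 / 4 * (1 / P.q))) := by ring
    _ ≤ 1 * N ^ (-(1 / 2 : ℝ)) := by
        apply mul_le_mul h3 h4 (by positivity) zero_le_one
    _ = _ := one_mul _

lemma NrmA_L4 {N d0 a b : ℝ} (hN : 1 ≤ N) (hb : 1 ≤ b) (hba : b ≤ a)
    (ha : N ^ d0 < a) :
    a ^ (-(1 / P.p)) * b ^ (-(1 / P.p)) * b ≤ N ^ (-(d0 * (1 / P.p - 1 / P.q))) := by
  have hN0 : 0 < N := by linarith
  have hb0 : 0 < b := by linarith
  have ha0 : 0 < a := by linarith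
  have hp := P.p_pos
  have hq := P.q_pos
  have h1 : b ^ (-(1 / P.p)) * b = b ^ (1 / P.q) := by
    rw [NrmA_inv, sub_eq_add_neg, add_comm, Real.rpow_add hb0, Real.rpow_one]
  have h2 : 1 / P.q < 1 / P.p := by
    apply one_div_lt_one_div_of_lt hp
    linarith [P.two_lt_q, P.lt_two]
  calc a ^ (-(1 / P.p)) * b ^ (-(1 / P.p)) * b = a ^ (-(1 / P.p)) * b ^ (1 / P.q) := by
        rw [mul_assoc, h1]
    _ ≤ a ^ (-(1 / P.p)) * a ^ (1 / P.q) := by
        apply mul_le_mul_of_nonneg_left _ (by positivity)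
        exact Real.rpow_le_rpow hb0.le hba (by positivity)
    _ = a ^ (-(1 / P.p - 1 / P.q)) := by
        rw [← Real.rpow_add ha0]
        congr 1
        ring
    _ ≤ (N ^ d0) ^ (-(1 / P.p - 1 / P.q)) := by
        apply Real.rpow_le_rpow_of_nonpos (by positivity) ha.le
        linarith
    _ = _ := by
        rw [← Real.rpow_mul hN0.le]
        congr 1
        ring

lemma NrmA_box {k : ℕ} {X : Type} [Fintype X] [DecidableEq X] {F : Finset (Fin k → X)}
    {mu : (Fin k → X) → ℝ} {eps C M : ℝ} (h1 : eps ≤ 1) (hC : 0 ≤ C)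
    (hmu0 : ∀ c, 0 ≤ mu c) (hmu : ∀ c, mu c ≤ M) (hX : 2 ≤ Fintype.card X)
    (hF : BoxBound F mu eps C) (J : Finset (Fin k)) (hJ : k - 1 ≤ J.card) (hJ0 : J.Nonempty)
    (s : Fin k → ℝ) (A : Fin k → Finset X) (hA : ∀ j, (A j).Nonempty)
    (hs : ∀ j, ((A j).card : ℝ) ≤ 4 * s j) :
    ∃ j' ∈ J, ((F.filter fun c => ∀ j, c j ∈ A j).card : ℝ) ≤
      2 * (M * ∏ j, (if j ∈ J then 4 * s j else (Fintype.card X : ℝ))) +
        4 * C * s j' * Real.log (Fintype.card X) := by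
  obtain ⟨j', hj', hsup⟩ := exists_mem_eq_sup J hJ0 (fun j => (A j).card)
  refine ⟨j', hj', ?_⟩
  have hlog : 0 ≤ Real.log (Fintype.card X) := by
    apply Real.log_nonneg
    have : (2 : ℝ) ≤ Fintype.card X := by exact_mod_cast hX
    linarith
  have hM : 0 ≤ M := by
    obtain ⟨x, hx⟩ := hA j'
    exact le_trans (hmu0 (fun _ => x)) (hmu _)
  have hb := hF J A hJ (fun j _ => hA j)
  rw [hsup] at hb
  have hsub : ((F.filter fun c => ∀ j, c j ∈ A j).card : ℝ) ≤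
      ((F.filter fun c => ∀ j ∈ J, c j ∈ A j).card : ℝ) := by
    have : (F.filter fun c => ∀ j, c j ∈ A j) ⊆ (F.filter fun c => ∀ j ∈ J, c j ∈ A j) := by
      intro c hc
      rw [mem_filter] at hc ⊢
      exact ⟨hc.1, fun j _ => hc.2 j⟩
    exact_mod_cast card_le_card this
  have hmuS := NrmA_mu J A mu M hmu
  have hmuS0 : 0 ≤ (∑ c : Fin k → X with ∀ j ∈ J, c j ∈ A j, mu c) :=
    sum_nonneg fun c _ => hmu0 c
  have hprod : (∏ j, (if j ∈ J then ((A j).card : ℝ) else (Fintype.card X : ℝ))) ≤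
      ∏ j, (if j ∈ J then 4 * s j else (Fintype.card X : ℝ)) := by
    apply prod_le_prod
    · intro j _
      split_ifs <;> positivity
    · intro j _
      split_ifs
      · exact hs j
      · exact le_rfl
  have hMp := mul_le_mul_of_nonneg_left hprod hM
  have hlast : C * ((A j').card : ℝ) * Real.log (Fintype.card X) ≤
      4 * C * s j' * Real.log (Fintype.card X) := by
    apply mul_le_mul_of_nonneg_right _ hlog
    calc C * ((A j').card : ℝ) ≤ C * (4 * s j') := mul_le_mul_of_nonneg_left (hs j') hC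
      _ = 4 * C * s j' := by ring
  nlinarith [mul_nonneg (sub_nonneg.mpr h1) hmuS0]

/-- The contribution of a mixed box. Here `N = |X|`, `N^{d0}` is the low threshold, `N^{1-d0}` the
high threshold.

PROOF. The product of the `s_j^{-1/p}` is denoted `Π`.
BOUND A (`J = univ`): `#box ≤ 2 M0 N^{-k/q} ∏ |A_j| + C max |A_j| log N
≤ 2 M0 4^k N^{-k/q} ∏ s_j + 4 C s_max log N`. The first part times `Π` is
`2 M0 4^k ∏ (s_j / N)^{1/q} ≤ 2 M0 4^k N^{-d0/q}`, since all `s_j ≤ N` and some `s_j < N^{1-d0}`.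
The second part times `Π`: `4 C log N (s_max^{p-1} / ∏_{j ≠ max} s_j)^{1/p}`. If
`∏_{j ≠ max} s_j ≥ s_max^{p-1} N^{1/4}` this is at most `4 C N^{-1/(4p)} log N`, and we are done.
Otherwise `∏_{j ≠ max} s_j < s_max^{p-1} N^{1/4}`.
BOUND B (`J = univ \ {max}`): `#box ≤ 2 M0 N^{-k/q} N 4^{k-1} ∏_{j≠max} s_j + 4 C s' log N`,
`s' = max_{j ≠ max} s_j` (the sum of `mu` over a box with one free slot). The first part times
`Π` is `2 M0 4^k N^{1-k/q} (∏_{j≠max} s_j)^{1/q} s_max^{-1/p}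
≤ 2 M0 4^k N^{1 - k/q + 1/(4q)} s_max^{(p-1)/q - 1/p}` and `(p-1)/q - 1/p = p - 2 < 0`, `s_max ≥ 1`,
`k/q > 2`: at most `2 M0 4^k N^{-1/2}`. The second part times `Π`: `s'^{1 - 1/p} s_max^{-1/p}`
times factors `≤ 1`, at most `s_max^{1/q - 1/p} ≤ N^{- d0 (1/p - 1/q)}` since `s' ≤ s_max`,
`s_max > N^{d0}` and `1/q < 1/p`. So `γ = min (d0/q) (min (1/(4p)) (min (1/2) (d0 (1/p-1/q))))`
and `K = 2 (2 M0 4^k + 4 C)`. -/
theorem mixed_bound {d0 : ℝ} (hd0 : 0 < d0) : ∃ gam : ℝ, 0 < gam ∧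
    ∀ (C M0 : ℝ), 0 ≤ C → 0 ≤ M0 → ∃ K : ℝ, 0 ≤ K ∧
    ∀ (X : Type) [Fintype X] [DecidableEq X] (F : Finset (Fin P.k → X))
      (mu : (Fin P.k → X) → ℝ) (eps : ℝ), 2 ≤ Fintype.card X → 0 ≤ eps → eps ≤ 1 →
      (∀ c, 0 ≤ mu c) → (∀ c, mu c ≤ M0 * (Fintype.card X : ℝ) ^ (-(P.k / P.q : ℝ))) →
      BoxBound F mu eps C →
      ∀ (s : Fin P.k → ℝ) (A : Fin P.k → Finset X), (∀ j, 1 ≤ s j) →
        (∀ j, s j ≤ Fintype.card X) → (∀ j, (A j).Nonempty) → (∀ j, ((A j).card : ℝ) ≤ 4 * s j) →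
        (¬ ∀ j, s j ≤ (Fintype.card X : ℝ) ^ d0) →
        (¬ ∀ j, (Fintype.card X : ℝ) ^ (1 - d0) ≤ s j) →
        (∏ j, s j ^ (-(1 / P.p))) * ((F.filter fun c => ∀ j, c j ∈ A j).card : ℝ) ≤
          K * (Fintype.card X : ℝ) ^ (-gam) * (1 + Real.log (Fintype.card X)) := by
  have hp := P.p_pos
  have hq := P.q_pos
  have hpq : 1 / P.q < 1 / P.p := by
    apply one_div_lt_one_div_of_lt hp
    linarith [P.two_lt_q, P.lt_two]
  have hkpos : 0 < P.k := by have := P.k_gt; omega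
  refine ⟨min (d0 / P.q) (min (1 / (4 * P.p)) (min (1 / 2) (d0 * (1 / P.p - 1 / P.q)))), ?_, ?_⟩
  · refine lt_min (by positivity) (lt_min (by positivity) (lt_min (by norm_num) ?_))
    exact mul_pos hd0 (by linarith)
  intro C M0 hC hM0
  refine ⟨2 * M0 * 4 ^ P.k + 4 * C, by positivity, ?_⟩
  intro X _ _ F mu eps hX heps0 heps1 hmu0 hmu hF s A hs1 hsN hA hAs hlow hhigh
  set gam := min (d0 / P.q) (min (1 / (4 * P.p)) (min (1 / 2) (d0 * (1 / P.p - 1 / P.q))))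
    with hgam
  set N : ℝ := (Fintype.card X : ℝ) with hN
  have hN2 : (2 : ℝ) ≤ N := by rw [hN]; exact_mod_cast hX
  have hN1 : 1 ≤ N := by linarith
  have hN0 : 0 < N := by linarith
  have hlog : 0 ≤ Real.log N := Real.log_nonneg hN1
  have g1 : gam ≤ d0 / P.q := min_le_left _ _
  have g2 : gam ≤ 1 / (4 * P.p) := le_trans (min_le_right _ _) (min_le_left _ _)
  have g3 : gam ≤ 1 / 2 :=
    le_trans (min_le_right _ _) (le_trans (min_le_right _ _) (min_le_left _ _))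
  have g4 : gam ≤ d0 * (1 / P.p - 1 / P.q) :=
    le_trans (min_le_right _ _) (le_trans (min_le_right _ _) (min_le_right _ _))
  have hmono : ∀ x, gam ≤ x → N ^ (-x) ≤ N ^ (-gam) := fun x hx =>
    Real.rpow_le_rpow_of_exponent_le hN1 (by linarith)
  have hG : 0 < N ^ (-gam) := by positivity
  haveI : Nonempty (Fin P.k) := ⟨⟨0, hkpos⟩⟩
  obtain ⟨j0, -, hj0⟩ := exists_max_image (univ : Finset (Fin P.k)) s ⟨⟨0, hkpos⟩, mem_univ _⟩
  have hj0' : ∀ j, s j ≤ s j0 := fun j => hj0 j (mem_univ j)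
  have ha : N ^ d0 < s j0 := by
    by_contra hcon
    push Not at hcon
    exact hlow fun j => le_trans (hj0' j) hcon
  push Not at hhigh
  obtain ⟨j1, hj1⟩ := hhigh
  have hs0 : ∀ j, 0 < s j := fun j => by linarith [hs1 j]
  set R : ℝ := ∏ j ∈ univ.erase j0, s j with hR
  have hR1 : 1 ≤ R := by
    rw [hR]
    calc (1 : ℝ) = ∏ j ∈ univ.erase j0, (1 : ℝ) := by simp
      _ ≤ ∏ j ∈ univ.erase j0, s j := prod_le_prod (fun _ _ => zero_le_one) fun j _ => hs1 j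
  have hPi : (∏ j, s j ^ (-(1 / P.p))) = s j0 ^ (-(1 / P.p)) * R ^ (-(1 / P.p)) := by
    rw [← mul_prod_erase univ _ (mem_univ j0), hR]
    congr 1
    rw [Real.finsetProd_rpow _ _ (fun j _ => (hs0 j).le)]
  have hPi0 : 0 ≤ ∏ j, s j ^ (-(1 / P.p)) :=
    prod_nonneg fun j _ => Real.rpow_nonneg (hs0 j).le _
  have hfin : ∀ u v : ℝ, u ≤ N ^ (-gam) → v ≤ N ^ (-gam) →
      2 * M0 * 4 ^ P.k * u + 4 * C * Real.log N * v ≤
        (2 * M0 * 4 ^ P.k + 4 * C) * N ^ (-gam) * (1 + Real.log N) := by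
    intro u v hu hv
    have e1 : 2 * M0 * 4 ^ P.k * u ≤ 2 * M0 * 4 ^ P.k * N ^ (-gam) :=
      mul_le_mul_of_nonneg_left hu (by positivity)
    have e2 : 4 * C * Real.log N * v ≤ 4 * C * Real.log N * N ^ (-gam) :=
      mul_le_mul_of_nonneg_left hv (by positivity)
    have e3 : 0 ≤ 2 * M0 * 4 ^ P.k * N ^ (-gam) * Real.log N := by positivity
    have e4 : 0 ≤ 4 * C * N ^ (-gam) := by positivity
    nlinarith
  by_cases hcase : s j0 ^ (P.p - 1) * N ^ (1 / 4 : ℝ) ≤ R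
  · obtain ⟨j', hj', hb⟩ := NrmA_box heps1 hC hmu0 hmu hX hF univ
      (by rw [card_univ, Fintype.card_fin]; omega) ⟨j0, mem_univ _⟩ s A hA hAs
    have hprod : (∏ j, (if j ∈ (univ : Finset (Fin P.k)) then 4 * s j else N)) =
        4 ^ P.k * ∏ j, s j := by
      simp [prod_mul_distrib]
    rw [← hN, hprod] at hb
    have hL1 := NrmA_L1 P hN1 s hs1 hsN j1 hj1
    have hL2 := NrmA_L2 P hN1 (hs1 j0) hcase
    calc (∏ j, s j ^ (-(1 / P.p))) * ((F.filter fun c => ∀ j, c j ∈ A j).card : ℝ)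
        ≤ (∏ j, s j ^ (-(1 / P.p))) * (2 * (M0 * N ^ (-(P.k / P.q : ℝ)) *
            (4 ^ P.k * ∏ j, s j)) + 4 * C * s j' * Real.log N) :=
          mul_le_mul_of_nonneg_left hb hPi0
      _ = 2 * M0 * 4 ^ P.k * ((∏ j, s j ^ (-(1 / P.p))) * (N ^ (-(P.k / P.q : ℝ)) *
            ∏ j, s j)) + 4 * C * Real.log N * ((∏ j, s j ^ (-(1 / P.p))) * s j') := by ring
      _ ≤ _ := by
          apply hfin
          · exact le_trans hL1 (hmono _ g1)
          · calc (∏ j, s j ^ (-(1 / P.p))) * s j' ≤ (∏ j, s j ^ (-(1 / P.p))) * s j0 :=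
                mul_le_mul_of_nonneg_left (hj0' j') hPi0
              _ ≤ N ^ (-(1 / (4 * P.p))) := by rw [hPi]; exact hL2
              _ ≤ _ := hmono _ g2
  · push Not at hcase
    obtain ⟨j', hj', hb⟩ := NrmA_box heps1 hC hmu0 hmu hX hF (univ.erase j0)
      (by rw [card_erase_of_mem (mem_univ _), card_univ, Fintype.card_fin])
      (by
        rw [← card_pos, card_erase_of_mem (mem_univ _), card_univ, Fintype.card_fin]
        have := P.k_gt
        omega) s A hA hAs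
    have hprod : (∏ j, (if j ∈ univ.erase j0 then 4 * s j else N)) =
        N * (4 ^ (P.k - 1) * R) := by
      rw [← mul_prod_erase univ _ (mem_univ j0)]
      congr 1
      · simp
      · rw [hR]
        have : ∀ j ∈ univ.erase j0, (if j ∈ univ.erase j0 then 4 * s j else N) = 4 * s j :=
          fun j hj => by rw [if_pos hj]
        rw [prod_congr rfl this, prod_mul_distrib, prod_const,
          card_erase_of_mem (mem_univ _), card_univ, Fintype.card_fin]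
    rw [← hN, hprod] at hb
    have hj'0 : j' ≠ j0 := ne_of_mem_erase hj'
    have hL3 := NrmA_L3 P hN1 (hs1 j0) hR1 hcase
    have hL4 := NrmA_L4 P hN1 (hs1 j') (hj0' j') ha
    have hRj' : R ^ (-(1 / P.p)) ≤ s j' ^ (-(1 / P.p)) := by
      apply Real.rpow_le_rpow_of_nonpos (hs0 j')
      · rw [hR, ← mul_prod_erase (univ.erase j0) _ hj']
        have : (1 : ℝ) ≤ ∏ j ∈ (univ.erase j0).erase j', s j := by
          calc (1 : ℝ) = ∏ j ∈ (univ.erase j0).erase j', (1 : ℝ) := by simp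
            _ ≤ _ := prod_le_prod (fun _ _ => zero_le_one) fun j _ => hs1 j
        nlinarith [hs0 j']
      · have : 0 < 1 / P.p := by positivity
        linarith
    have hR0 : 0 < R := by linarith
    have ha0 : 0 < s j0 := hs0 j0
    have h4k : (4 : ℝ) ^ (P.k - 1) ≤ 4 ^ P.k := pow_le_pow_right₀ (by norm_num) (by omega)
    have hY0 : 0 ≤ s j0 ^ (-(1 / P.p)) * R ^ (-(1 / P.p)) *
        (N ^ (-(P.k / P.q : ℝ)) * (N * R)) := by positivity
    calc (∏ j, s j ^ (-(1 / P.p))) * ((F.filter fun c => ∀ j, c j ∈ A j).card : ℝ)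
        ≤ (∏ j, s j ^ (-(1 / P.p))) * (2 * (M0 * N ^ (-(P.k / P.q : ℝ)) *
            (N * (4 ^ (P.k - 1) * R))) + 4 * C * s j' * Real.log N) :=
          mul_le_mul_of_nonneg_left hb hPi0
      _ = 2 * M0 * 4 ^ (P.k - 1) * (s j0 ^ (-(1 / P.p)) * R ^ (-(1 / P.p)) *
            (N ^ (-(P.k / P.q : ℝ)) * (N * R))) +
            4 * C * Real.log N * ((s j0 ^ (-(1 / P.p)) * R ^ (-(1 / P.p))) * s j') := by
          rw [hPi]; ring
      _ ≤ 2 * M0 * 4 ^ P.k * (s j0 ^ (-(1 / P.p)) * R ^ (-(1 / P.p)) *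
            (N ^ (-(P.k / P.q : ℝ)) * (N * R))) +
            4 * C * Real.log N * ((s j0 ^ (-(1 / P.p)) * R ^ (-(1 / P.p))) * s j') := by
          apply add_le_add_left
          apply mul_le_mul_of_nonneg_right _ hY0
          exact mul_le_mul_of_nonneg_left h4k (by positivity)
      _ ≤ _ := by
          apply hfin
          · exact le_trans hL3 (hmono _ g3)
          · refine le_trans ?_ (le_trans hL4 (hmono _ g4))
            apply mul_le_mul_of_nonneg_right _ (hs0 j').le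
            apply mul_le_mul_of_nonneg_left hRj'
            exact Real.rpow_nonneg (hs0 j0).le _

end

end Pool.Agent.GP2
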