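import Pool.Agent.GP2.RndBox
import Pool.Agent.GP2.Cnt2

/-!
# RND: the random hypergraphs
-/

namespace Pool.Agent.GP2

open Finset

noncomputable section

variable (P : Par)

/-- The hypergraphs of the construction, for a degree bound `m0` and a precision `eps`. -/
structure RH (m0 : ℕ) (eps : ℝ) where
  /-- number of unit labels -/
  T : ℕ
  /-- number of letters with a given label -/
  N0 : ℕ
  T_pos : 1 ≤ T
  N0_pos : 1 ≤ N0
  /-- the edges with label sum zero -/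
  F : Finset (Fin P.k → XX P.n T N0)
  /-- the edges whose label sum is a unit label -/
  Q : Finset (Fin P.k → XX P.n T N0)
  F_lab : ∀ c ∈ F, Lsum c = 0
  Q_lab : ∀ c ∈ Q, ∃ τ, Lsum c = unitL P.n T τ
  F_norm : NormLE P.p F (1 + eps)
  Q_norm : NormLE P.p Q (1 + eps)
  F_size : (1 - eps) * NN P T N0 ^ (P.k / P.p : ℝ) ≤ F.card
  Q_size : (1 - eps) * NN P T N0 ^ (P.k / P.p : ℝ) ≤ Q.card
  c4 : ∀ m ≤ m0, ((set4 P m (F ∪ Q)).card : ℝ) ≤ eps * NN P T N0 ^ ((m : ℝ) / P.p)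
  c5 : ∀ m ≤ m0, ((set5 P m T N0 (F ∪ Q)).card : ℝ) ≤ eps * NN P T N0 ^ ((m : ℝ) / P.p)
  c6 : ∀ m ≤ m0, ∀ m' ≤ m0, ((set6 P m m' T N0 (F ∪ Q)).card : ℝ) ≤
    eps * NN P T N0 ^ (((m : ℝ) + m') / P.p)

theorem set4_mono {X : Type} [Fintype X] [DecidableEq X] (m : ℕ)
    {ω ω' : Finset (Fin P.k → X)} (h : ω ⊆ ω') : set4 P m ω ⊆ set4 P m ω' := by
  intro lam hlam
  simp only [set4, mem_filter, mem_univ, true_and] at hlam ⊢
  obtain ⟨t, e, he, h1, h2⟩ := hlam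
  exact ⟨t, e, fun i => h (he i), h1, h2⟩

theorem set5_mono (m T N0 : ℕ) {ω ω' : Finset (Fin P.k → XX P.n T N0)} (h : ω ⊆ ω') :
    set5 P m T N0 ω ⊆ set5 P m T N0 ω' := by
  intro lam hlam
  simp only [set5, mem_filter, mem_univ, true_and] at hlam ⊢
  obtain ⟨t, e, he, h1, h2⟩ := hlam
  exact ⟨t, e, fun i => h (he i), h1, h2⟩

theorem set6_mono (m m' T N0 : ℕ) {ω ω' : Finset (Fin P.k → XX P.n T N0)} (h : ω ⊆ ω') :
    set6 P m m' T N0 ω ⊆ set6 P m m' T N0 ω' := by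
  intro lam hlam
  simp only [set6, mem_filter, mem_univ, true_and] at hlam ⊢
  obtain ⟨t, e, t', e', he, he', h1⟩ := hlam
  exact ⟨t, e, t', e', fun i => h (he i), fun i => h (he' i), h1⟩

/-- The weights of the construction. -/
def rndW (T N0 : ℕ) (c : Fin P.k → XX P.n T N0) : ℝ := wF P T N0 c + wP P T N0 c

/-- The edges with label sum zero. -/
def rndHF (T N0 : ℕ) : Finset (Fin P.k → XX P.n T N0) := univ.filter fun c => Lsum c = 0

/-- The edges whose label sum is a unit label. -/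
def rndHP (T N0 : ℕ) : Finset (Fin P.k → XX P.n T N0) :=
  univ.filter fun c => ∃ τ, Lsum c = unitL P.n T τ

theorem rnd_unit_ne (T : ℕ) (τ : Fin T) : unitL P.n T τ ≠ 0 := by
  intro h
  have h1 := congrFun h τ
  simp only [unitL, Pi.single_eq_same, Pi.zero_apply] at h1
  have hn := P.hn
  have : Fact (1 < P.n) := ⟨by omega⟩
  exact one_ne_zero h1

theorem rnd_NN_nonneg (T N0 : ℕ) : 0 ≤ NN P T N0 := by
  unfold NN
  positivity

theorem rnd_NN_pos {T N0 : ℕ} (hN : 1 ≤ N0) : 0 < NN P T N0 := by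
  have hn := P.hn
  unfold NN
  have : 0 < P.n := by omega
  positivity

theorem rnd_wF_nonneg (T N0 : ℕ) (c : Fin P.k → XX P.n T N0) : 0 ≤ wF P T N0 c := by
  have := rnd_NN_nonneg P T N0
  unfold wF
  split_ifs <;> positivity

theorem rnd_wP_nonneg (T N0 : ℕ) (c : Fin P.k → XX P.n T N0) : 0 ≤ wP P T N0 c := by
  have := rnd_NN_nonneg P T N0
  unfold wP
  split_ifs <;> positivity

theorem rnd_wP_zero {T N0 : ℕ} {c : Fin P.k → XX P.n T N0} (h : Lsum c = 0) :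
    wP P T N0 c = 0 := by
  unfold wP
  rw [if_neg]
  rintro ⟨τ, hτ⟩
  exact rnd_unit_ne P T τ (hτ.symm.trans h)

theorem rnd_wF_zero {T N0 : ℕ} {c : Fin P.k → XX P.n T N0}
    (h : ∃ τ, Lsum c = unitL P.n T τ) : wF P T N0 c = 0 := by
  unfold wF
  rw [if_neg]
  obtain ⟨τ, hτ⟩ := h
  intro h0
  exact rnd_unit_ne P T τ (hτ.symm.trans h0)

theorem rnd_W_le {T : ℕ} (hT : 1 ≤ T) (N0 : ℕ) (c : Fin P.k → XX P.n T N0) :
    rndW P T N0 c ≤ (P.n : ℝ) ^ T * NN P T N0 ^ (-(P.k / P.q : ℝ)) := by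
  have h0 : 0 ≤ NN P T N0 ^ (-(P.k / P.q : ℝ)) := Real.rpow_nonneg (rnd_NN_nonneg P T N0) _
  have hn : (0 : ℝ) ≤ (P.n : ℝ) ^ T := by positivity
  unfold rndW
  by_cases h : Lsum c = 0
  · rw [rnd_wP_zero P h, add_zero]
    unfold wF
    rw [if_pos h]
  · have : wF P T N0 c = 0 := by
      unfold wF
      rw [if_neg h]
    rw [this, zero_add]
    unfold wP
    split_ifs with h2
    · refine mul_le_mul_of_nonneg_right ?_ h0
      exact div_le_self hn (by exact_mod_cast hT)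
    · positivity

theorem rnd_isPr {T : ℕ} (hT : 1 ≤ T) (N0 : ℕ)
    (h : (P.n : ℝ) ^ T * NN P T N0 ^ (-(P.k / P.q : ℝ)) ≤ 1) : IsPr (rndW P T N0) := by
  intro c
  exact ⟨add_nonneg (rnd_wF_nonneg P T N0 c) (rnd_wP_nonneg P T N0 c),
    (rnd_W_le P hT N0 c).trans h⟩

theorem rnd_sum_HF (T N0 : ℕ) (r : (Fin P.k → XX P.n T N0) → Prop) [DecidablePred r] :
    ∑ c ∈ rndHF P T N0 with r c, rndW P T N0 c = ∑ c with r c, wF P T N0 c := by
  unfold rndHF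
  rw [Finset.filter_filter, Finset.sum_filter, Finset.sum_filter]
  refine Finset.sum_congr rfl fun c _ => ?_
  by_cases h : Lsum c = 0
  · by_cases h2 : r c
    · simp only [h, h2, true_and, if_true, rndW, rnd_wP_zero P h, add_zero]
    · simp only [h2, and_false, if_false]
  · have : wF P T N0 c = 0 := by
      unfold wF
      rw [if_neg h]
    simp only [h, false_and, if_false, this, ite_self]

theorem rnd_sum_HP (T N0 : ℕ) (r : (Fin P.k → XX P.n T N0) → Prop) [DecidablePred r] :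
    ∑ c ∈ rndHP P T N0 with r c, rndW P T N0 c = ∑ c with r c, wP P T N0 c := by
  unfold rndHP
  rw [Finset.filter_filter, Finset.sum_filter, Finset.sum_filter]
  refine Finset.sum_congr rfl fun c _ => ?_
  by_cases h : ∃ τ, Lsum c = unitL P.n T τ
  · by_cases h2 : r c
    · simp only [h, h2, true_and, if_true, rndW, rnd_wF_zero P h, zero_add]
    · simp only [h2, and_false, if_false]
  · have : wP P T N0 c = 0 := by
      unfold wP
      rw [if_neg h]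
    simp only [h, false_and, if_false, this, ite_self]

/-- A choice of a subset. -/
theorem rnd_pick {ι : Type*} [Fintype ι] [DecidableEq ι] {w : ι → ℝ} (hw : IsPr w) (m0 : ℕ)
    (f1 f2 f3 f4 f5 : Finset ι → ℝ) (g4 g5 : ℕ → Finset ι → ℝ) (g6 : ℕ → ℕ → Finset ι → ℝ)
    (n1 : ∀ ω, 0 ≤ f1 ω) (n2 : ∀ ω, 0 ≤ f2 ω) (n3 : ∀ ω, 0 ≤ f3 ω) (n4 : ∀ ω, 0 ≤ f4 ω)
    (n5 : ∀ ω, 0 ≤ f5 ω) (n6 : ∀ m ω, 0 ≤ g4 m ω) (n7 : ∀ m ω, 0 ≤ g5 m ω)
    (n8 : ∀ m m' ω, 0 ≤ g6 m m' ω)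
    (h1 : Ex w f1 ≤ 1 / 10) (h2 : Ex w f2 ≤ 1 / 10) (h3 : Ex w f3 ≤ 1 / 100)
    (h4 : Ex w f4 ≤ 1 / 100) (h5 : Ex w f5 ≤ 1 / 100)
    (h6 : ∀ m ≤ m0, Ex w (g4 m) ≤ 1 / (100 * ((m0 : ℝ) + 1) ^ 2))
    (h7 : ∀ m ≤ m0, Ex w (g5 m) ≤ 1 / (100 * ((m0 : ℝ) + 1) ^ 2))
    (h8 : ∀ m ≤ m0, ∀ m' ≤ m0, Ex w (g6 m m') ≤ 2 / (100 * ((m0 : ℝ) + 1) ^ 2)) :
    ∃ ω, f1 ω < 1 ∧ f2 ω < 1 ∧ f3 ω < 1 ∧ f4 ω < 1 ∧ f5 ω < 1 ∧ (∀ m ≤ m0, g4 m ω < 1) ∧
      (∀ m ≤ m0, g5 m ω < 1) ∧ ∀ m ≤ m0, ∀ m' ≤ m0, g6 m m' ω < 1 := by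
  obtain ⟨R, hR⟩ : ∃ R, R = Finset.range (m0 + 1) := ⟨_, rfl⟩
  have hmem : ∀ m, m ∈ R ↔ m ≤ m0 := by
    intro m
    rw [hR, Finset.mem_range]
    omega
  have hRc : (R.card : ℝ) = (m0 : ℝ) + 1 := by
    rw [hR, Finset.card_range]
    push_cast
    ring
  obtain ⟨a4, ha4⟩ : ∃ a4 : Finset ι → ℝ, a4 = fun ω => ∑ m ∈ R, g4 m ω := ⟨_, rfl⟩
  obtain ⟨a5, ha5⟩ : ∃ a5 : Finset ι → ℝ, a5 = fun ω => ∑ m ∈ R, g5 m ω := ⟨_, rfl⟩
  obtain ⟨a6, ha6⟩ : ∃ a6 : Finset ι → ℝ, a6 = fun ω => ∑ s ∈ R ×ˢ R, g6 s.1 s.2 ω := ⟨_, rfl⟩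
  have m0pos : (0 : ℝ) < (m0 : ℝ) + 1 := by positivity
  have m0ge : (1 : ℝ) ≤ (m0 : ℝ) + 1 := by
    have : (0 : ℝ) ≤ m0 := Nat.cast_nonneg _
    linarith
  have key : ((m0 : ℝ) + 1) * (1 / (100 * ((m0 : ℝ) + 1) ^ 2)) ≤ 1 / 100 := by
    rw [mul_one_div, div_le_div_iff₀ (by positivity) (by positivity)]
    nlinarith
  have E4 : Ex w a4 ≤ 1 / 100 := by
    rw [ha4, Ex_sum]
    calc ∑ m ∈ R, Ex w (g4 m) ≤ ∑ _m ∈ R, 1 / (100 * ((m0 : ℝ) + 1) ^ 2) :=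
          Finset.sum_le_sum fun m hm => h6 m ((hmem m).mp hm)
      _ = ((m0 : ℝ) + 1) * (1 / (100 * ((m0 : ℝ) + 1) ^ 2)) := by
          rw [Finset.sum_const, nsmul_eq_mul, hRc]
      _ ≤ 1 / 100 := key
  have E5 : Ex w a5 ≤ 1 / 100 := by
    rw [ha5, Ex_sum]
    calc ∑ m ∈ R, Ex w (g5 m) ≤ ∑ _m ∈ R, 1 / (100 * ((m0 : ℝ) + 1) ^ 2) :=
          Finset.sum_le_sum fun m hm => h7 m ((hmem m).mp hm)
      _ = ((m0 : ℝ) + 1) * (1 / (100 * ((m0 : ℝ) + 1) ^ 2)) := by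
          rw [Finset.sum_const, nsmul_eq_mul, hRc]
      _ ≤ 1 / 100 := key
  have E6 : Ex w a6 ≤ 2 / 100 := by
    rw [ha6, Ex_sum]
    calc ∑ s ∈ R ×ˢ R, Ex w (g6 s.1 s.2) ≤
          ∑ _s ∈ R ×ˢ R, 2 / (100 * ((m0 : ℝ) + 1) ^ 2) :=
          Finset.sum_le_sum fun s hs =>
            h8 s.1 ((hmem _).mp (Finset.mem_product.mp hs).1) s.2
              ((hmem _).mp (Finset.mem_product.mp hs).2)
      _ = (((m0 : ℝ) + 1) * ((m0 : ℝ) + 1)) * (2 / (100 * ((m0 : ℝ) + 1) ^ 2)) := by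
          rw [Finset.sum_const, nsmul_eq_mul, Finset.card_product, Nat.cast_mul, hRc]
      _ = 2 / 100 := by
          field_simp
      _ ≤ 2 / 100 := le_refl _
  have N4 : ∀ ω, 0 ≤ a4 ω := by
    intro ω
    rw [ha4]
    exact Finset.sum_nonneg fun m _ => n6 m ω
  have N5 : ∀ ω, 0 ≤ a5 ω := by
    intro ω
    rw [ha5]
    exact Finset.sum_nonneg fun m _ => n7 m ω
  have N6 : ∀ ω, 0 ≤ a6 ω := by
    intro ω
    rw [ha6]
    exact Finset.sum_nonneg fun s _ => n8 s.1 s.2 ω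
  obtain ⟨f, hf⟩ : ∃ f : Finset ι → ℝ, f = fun ω => f1 ω + (f2 ω + (f3 ω + (f4 ω + (f5 ω +
    (a4 ω + (a5 ω + a6 ω)))))) := ⟨_, rfl⟩
  have hE : Ex w f = Ex w f1 + (Ex w f2 + (Ex w f3 + (Ex w f4 + (Ex w f5 + (Ex w a4 +
      (Ex w a5 + Ex w a6)))))) := by
    rw [hf, Ex_add, Ex_add, Ex_add, Ex_add, Ex_add, Ex_add, Ex_add]
  have hlt : ∑ i ∈ ({()} : Finset Unit), Ex w ((fun _ => f) i) < 1 := by
    rw [Finset.sum_singleton]
    show Ex w f < 1
    rw [hE]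
    linarith
  obtain ⟨ω, hω⟩ := exists_good hw ({()} : Finset Unit) (fun _ => f) (by
    intro _ _ ω
    show 0 ≤ f ω
    rw [hf]
    show 0 ≤ f1 ω + (f2 ω + (f3 ω + (f4 ω + (f5 ω + (a4 ω + (a5 ω + a6 ω))))))
    have := n1 ω
    have := n2 ω
    have := n3 ω
    have := n4 ω
    have := n5 ω
    have := N4 ω
    have := N5 ω
    have := N6 ω
    linarith) hlt
  have hω' := hω () (Finset.mem_singleton_self _)
  change f ω < 1 at hω'
  rw [hf] at hω'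
  change f1 ω + (f2 ω + (f3 ω + (f4 ω + (f5 ω + (a4 ω + (a5 ω + a6 ω)))))) < 1 at hω'
  have q1 := n1 ω
  have q2 := n2 ω
  have q3 := n3 ω
  have q4 := n4 ω
  have q5 := n5 ω
  have q6 := N4 ω
  have q7 := N5 ω
  have q8 := N6 ω
  refine ⟨ω, by linarith, by linarith, by linarith, by linarith, by linarith, ?_, ?_, ?_⟩
  · intro m hm
    have h9 : g4 m ω ≤ a4 ω := by
      rw [ha4]
      exact Finset.single_le_sum (f := fun m => g4 m ω) (fun i _ => n6 i ω) ((hmem m).mpr hm)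
    linarith
  · intro m hm
    have h9 : g5 m ω ≤ a5 ω := by
      rw [ha5]
      exact Finset.single_le_sum (f := fun m => g5 m ω) (fun i _ => n7 i ω) ((hmem m).mpr hm)
    linarith
  · intro m hm m' hm'
    have h9 : g6 m m' ω ≤ a6 ω := by
      rw [ha6]
      exact Finset.single_le_sum (f := fun s : ℕ × ℕ => g6 s.1 s.2 ω)
        (fun i _ => n8 i.1 i.2 ω) (a := (m, m'))
        (Finset.mem_product.mpr ⟨(hmem m).mpr hm, (hmem m').mpr hm'⟩)
    linarith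

/-- Expectation of a scaled cardinality. -/
theorem rnd_scale {ι : Type*} [Fintype ι] [DecidableEq ι] (w : ι → ℝ) {a b c : ℝ} (ha : 0 < a)
    (g : Finset ι → ℝ) (h : Ex w g ≤ b) (hc : b ≤ c * a) : Ex w (fun ω => a⁻¹ * g ω) ≤ c := by
  rw [Ex_mul_left, inv_mul_le_iff₀ ha]
  linarith

theorem rnd_lt {a x : ℝ} (ha : 0 < a) (h : a⁻¹ * x < 1) : x ≤ a := by
  rw [inv_mul_lt_iff₀ ha] at h
  linarith

/-- The choice of the number of unit labels. -/
theorem rnd_T (m0 : ℕ) {e : ℝ} (he : 0 < e) (C5 : ℕ → ℝ) (C6 : ℕ → ℕ → ℝ)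
    (h5 : ∀ m, 0 ≤ C5 m) (h6 : ∀ m m', 0 ≤ C6 m m') : ∃ T : ℕ, 1 ≤ T ∧
    (∀ m ≤ m0, C5 m / T ≤ e) ∧ ∀ m ≤ m0, ∀ m' ≤ m0, C6 m m' / T ≤ e := by
  obtain ⟨R, hR⟩ : ∃ R, R = Finset.range (m0 + 1) := ⟨_, rfl⟩
  have hmem : ∀ m, m ≤ m0 → m ∈ R := by
    intro m hm
    rw [hR, Finset.mem_range]
    omega
  obtain ⟨S5, hS5⟩ : ∃ S5 : ℝ, S5 = ∑ m ∈ R, C5 m := ⟨_, rfl⟩
  obtain ⟨S6, hS6⟩ : ∃ S6 : ℝ, S6 = ∑ s ∈ R ×ˢ R, C6 s.1 s.2 := ⟨_, rfl⟩
  have n5 : 0 ≤ S5 := by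
    rw [hS5]
    exact Finset.sum_nonneg fun m _ => h5 m
  have n6 : 0 ≤ S6 := by
    rw [hS6]
    exact Finset.sum_nonneg fun s _ => h6 s.1 s.2
  obtain ⟨T0, hT0⟩ := exists_nat_ge ((S5 + S6) / e)
  have hT : (S5 + S6) / e ≤ ((T0 + 1 : ℕ) : ℝ) := by
    push_cast
    linarith
  have hTpos : (0 : ℝ) < ((T0 + 1 : ℕ) : ℝ) := by positivity
  rw [div_le_iff₀ he] at hT
  refine ⟨T0 + 1, by omega, ?_, ?_⟩
  · intro m hm
    have h9 : C5 m ≤ S5 := by
      rw [hS5]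
      exact Finset.single_le_sum (f := C5) (fun i _ => h5 i) (hmem m hm)
    rw [div_le_iff₀ hTpos]
    linarith
  · intro m hm m' hm'
    have h9 : C6 m m' ≤ S6 := by
      rw [hS6]
      exact Finset.single_le_sum (f := fun s : ℕ × ℕ => C6 s.1 s.2)
        (fun i _ => h6 i.1 i.2) (a := (m, m'))
        (Finset.mem_product.mpr ⟨hmem m hm, hmem m' hm'⟩)
    rw [div_le_iff₀ hTpos]
    linarith

theorem rnd_kq_pos : 0 < (P.k : ℝ) / P.q := by
  have h := P.k_gt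
  have : (0 : ℝ) < P.k := by
    have : 0 < P.k := by omega
    exact_mod_cast this
  exact div_pos this P.q_pos

theorem rnd_kp_pos : 0 < (P.k : ℝ) / P.p := by
  have h := P.k_gt
  have : (0 : ℝ) < P.k := by
    have : 0 < P.k := by omega
    exact_mod_cast this
  exact div_pos this P.p_pos

theorem rnd_tendsto (T : ℕ) :
    Filter.Tendsto (fun N0 : ℕ => NN P T N0) Filter.atTop Filter.atTop := by
  unfold NN
  refine Filter.Tendsto.atTop_mul_const ?_ tendsto_natCast_atTop_atTop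
  have hn := P.hn
  have : 0 < P.n := by omega
  positivity

theorem rnd_card_ge {T N0 N1 : ℕ} (h : (N1 : ℝ) ≤ NN P T N0) :
    N1 ≤ Fintype.card (XX P.n T N0) := by
  rw [← card_XX P T N0] at h
  exact_mod_cast h

/-- Large numbers of letters. -/
theorem rnd_large (T : ℕ) {a e g : ℝ} (he : 0 < e) (ha : 0 < a) (hg : 0 < g) (N1 : ℕ) :
    ∃ N0 : ℕ, 1 ≤ N0 ∧ (P.n : ℝ) ^ T * NN P T N0 ^ (-(P.k / P.q : ℝ)) ≤ 1 ∧
      Real.exp (-(a ^ 2 * NN P T N0 ^ (P.k / P.p : ℝ) / 2)) ≤ 1 / 100 ∧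
      NN P T N0 ^ (-(g / 2)) ≤ 1 / 100 ∧ NN P T N0 ^ (-(g / 2)) ≤ e / 2 ∧
      N1 ≤ Fintype.card (XX P.n T N0) := by
  have hNN := rnd_tendsto P T
  have e1 : ∀ᶠ N0 : ℕ in Filter.atTop, 1 ≤ N0 := Filter.eventually_ge_atTop 1
  have e2 : ∀ᶠ N0 : ℕ in Filter.atTop,
      (P.n : ℝ) ^ T * NN P T N0 ^ (-(P.k / P.q : ℝ)) ≤ 1 := by
    have h := ((tendsto_rpow_neg_atTop (rnd_kq_pos P)).comp hNN).const_mul ((P.n : ℝ) ^ T)
    rw [mul_zero] at h
    exact h.eventually_le_const one_pos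
  have e3 : ∀ᶠ N0 : ℕ in Filter.atTop,
      Real.exp (-(a ^ 2 * NN P T N0 ^ (P.k / P.p : ℝ) / 2)) ≤ 1 / 100 := by
    have h1 := (tendsto_rpow_atTop (rnd_kp_pos P)).comp hNN
    have h2 : Filter.Tendsto (fun N0 : ℕ => a ^ 2 / 2 * NN P T N0 ^ (P.k / P.p : ℝ))
        Filter.atTop Filter.atTop := by
      refine Filter.Tendsto.const_mul_atTop (by positivity) ?_
      exact h1
    have h3 := Real.tendsto_exp_neg_atTop_nhds_zero.comp h2
    have h4 := h3.eventually_le_const (show (0 : ℝ) < 1 / 100 by norm_num)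
    refine h4.mono fun N0 h5 => ?_
    refine le_trans (le_of_eq ?_) h5
    show Real.exp (-(a ^ 2 * NN P T N0 ^ (P.k / P.p : ℝ) / 2)) =
      Real.exp (-(a ^ 2 / 2 * NN P T N0 ^ (P.k / P.p : ℝ)))
    congr 1
    ring
  have h4 := (tendsto_rpow_neg_atTop (show 0 < g / 2 by positivity)).comp hNN
  have e4 : ∀ᶠ N0 : ℕ in Filter.atTop, NN P T N0 ^ (-(g / 2)) ≤ 1 / 100 :=
    h4.eventually_le_const (by norm_num)
  have e5 : ∀ᶠ N0 : ℕ in Filter.atTop, NN P T N0 ^ (-(g / 2)) ≤ e / 2 :=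
    h4.eventually_le_const (by positivity)
  have e6 : ∀ᶠ N0 : ℕ in Filter.atTop, (N1 : ℝ) ≤ NN P T N0 :=
    hNN.eventually_ge_atTop (N1 : ℝ)
  obtain ⟨N0, h1, h2, h3, h4, h5, h6⟩ :=
    (e1.and (e2.and (e3.and (e4.and (e5.and e6))))).exists
  exact ⟨N0, h1, h2, h3, h4, h5, rnd_card_ge P h6⟩

/-- Sizes after the deletion. -/
theorem rnd_size {ι : Type*} [DecidableEq ι] {ω ω' H : Finset ι} {N e e'' b : ℝ} (hN : 0 ≤ N)
    (h1 : (1 - e'') * N ≤ ((ω ∩ H).card : ℝ)) (h2 : ((ω \ ω').card : ℝ) ≤ b)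
    (hb : b ≤ e / 2 * N) (he'' : e'' ≤ e / 2) :
    (1 - e) * N ≤ ((ω' ∩ H).card : ℝ) := by
  have hsub : ω ∩ H ⊆ (ω' ∩ H) ∪ (ω \ ω') := by
    intro c hc
    rw [Finset.mem_inter] at hc
    by_cases h : c ∈ ω'
    · exact Finset.mem_union_left _ (Finset.mem_inter.mpr ⟨h, hc.2⟩)
    · exact Finset.mem_union_right _ (Finset.mem_sdiff.mpr ⟨hc.1, h⟩)
  have h3 : ((ω ∩ H).card : ℝ) ≤ ((ω' ∩ H).card : ℝ) + ((ω \ ω').card : ℝ) := by
    exact_mod_cast (Finset.card_le_card hsub).trans (Finset.card_union_le _ _)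
  nlinarith

theorem rnd_sparse_mono {k : ℕ} {X : Type} [Fintype X] [DecidableEq X] {p delta : ℝ}
    {F F' : Finset (Fin k → X)} (h : F ⊆ F') (hF : SparseProp p delta F') :
    SparseProp p delta F := fun E' h1 h2 h3 => hF E' (h1.trans h) h2 h3

/-- Box bounds after the deletion. -/
theorem rnd_box {X : Type} [Fintype X] [DecidableEq X] {w mu : (Fin P.k → X) → ℝ}
    {ω ω' H : Finset (Fin P.k → X)} (hω : ω' ⊆ ω) {e C : ℝ}
    (hbox : ∀ (J : Finset (Fin P.k)) (A : Fin P.k → Finset X), J.Nonempty →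
          (∀ j ∈ J, (A j).Nonempty) →
          (((ω ∩ H).filter fun c => ∀ j ∈ J, c j ∈ A j).card : ℝ) ≤
            (1 + e) * (∑ c ∈ H with ∀ j ∈ J, c j ∈ A j, w c) +
            C * (J.sup fun j => (A j).card : ℕ) * Real.log (Fintype.card X))
    (hmu : ∀ (J : Finset (Fin P.k)) (A : Fin P.k → Finset X),
      ∑ c ∈ H with ∀ j ∈ J, c j ∈ A j, w c =
        ∑ c : Fin P.k → X with ∀ j ∈ J, c j ∈ A j, mu c) :
    BoxBound (ω' ∩ H) mu e C := by
  intro J A hJ hA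
  have hk := P.k_gt
  have hne : J.Nonempty := by
    rw [← Finset.card_pos]
    omega
  have h1 := hbox J A hne hA
  rw [hmu] at h1
  refine le_trans ?_ h1
  have hsub : ((ω' ∩ H).filter fun c => ∀ j ∈ J, c j ∈ A j) ⊆
      ((ω ∩ H).filter fun c => ∀ j ∈ J, c j ∈ A j) :=
    Finset.filter_subset_filter _ (Finset.inter_subset_inter_right hω)
  exact_mod_cast Finset.card_le_card hsub

/-- Existence of the hypergraphs.

PROOF. We may suppose `eps ≤ 1`. Let `eps'` (called `eps` there) be from `norm_of_box` with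
`eta = eps`, `eps'' = min eps' (eps/4)`; `C` from `box_event` with `eps'`; `delta, gam` from
`sparse_event`. Choose `T` with all constants of `cnt5`, `cnt6` (`m, m' ≤ m0`) divided by `T` at
most `eps / (100 (m0+1)^2)`. Put `M0 = n^T`; then `wF, wP ≤ wF + wP ≤ M0 N^{-k/q}`, `N = NN P T N0`
(`wF` and `wP` have disjoint supports, since `0` is not a unit label). Let `N0` be large; then
`w = wF + wP` satisfies `IsPr` as `k/q > 0`. Consider the functions of `ω`: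
1,2. `box_event` for `H = H_F = {c : Lsum c = 0}` and `H = H_P = {c : ∃ τ, Lsum c = unitL τ}`;
3,4. `size_event` for `eps''` and `H_F`, `H_P`; `w(H_F) = ∑ wF = N^{k/p} = w(H_P)` (`sum_wF`,
`sum_wP`), so the expectations are at most `exp(- eps''^2 N^{k/p} / 2) ≤ 1/100`;
5. `|badSets| N^{- k/p + gam/2}`, expectation `≤ N^{-gam/2} ≤ 1/100`;
6. for all `m ≤ m0`: `|set4| / (eps N^{m/p})`, expectation `≤ 1/(100 (m0+1)^2)` by `cnt4` for `N`
large; for all `m ≤ m0`: `|set5| / (eps N^{m/p})`, for all `m, m' ≤ m0`: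
`|set6| / (eps N^{(m+m')/p})`, with expectations at most `2/(100 (m0+1)^2)` by the choice of `T`
and `cntO`.
The sum of all expectations is `< 1`, so by `exists_good` there is `ω` with all these functions
`< 1`. Let `ω'` be from `exists_deletion`, at most `N^{k/p - gam/2}` edges are deleted. Let
`F = ω' ∩ H_F`, `Q = ω' ∩ H_P`. Sizes: `|F| ≥ (1 - eps'') N^{k/p} - N^{k/p - gam/2} ≥
(1 - eps) N^{k/p}`. Norms: `norm_of_box` for `F` with `mu = wF`, for `Q` with `mu = wP`: flat bounds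
`flat_F`, `flat_P`; `BoxBound` from 1, 2 (monotone in the set of edges; `J` with `k - 1 ≥ 1`
elements is nonempty; `∑_{c ∈ H_F, box} w c = ∑_{c ∈ box} wF c`); `SparseProp` (a subset of a set
with `SparseProp` has it). `c4, c5, c6` by monotonicity (`F ∪ Q ⊆ ω`). -/
theorem exists_RH (m0 : ℕ) {eps : ℝ} (heps : 0 < eps) : Nonempty (RH P m0 eps) := by
  classical
  obtain ⟨e', he'0, he'1, hnorm⟩ := norm_of_box P heps
  obtain ⟨e2, he2⟩ : ∃ e2, e2 = min e' (eps / 4) := ⟨_, rfl⟩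
  have he20 : 0 < e2 := by
    rw [he2]
    exact lt_min he'0 (by positivity)
  have he21 : e2 ≤ 1 := by
    rw [he2]
    exact (min_le_left _ _).trans he'1
  have he24 : e2 ≤ eps / 4 := by
    rw [he2]
    exact min_le_right _ _
  obtain ⟨C, hC0, hbox⟩ := box_event P.k he'0 he'1
  obtain ⟨delta, gam, hdelta, hgam, hsparse⟩ := sparse_event P
  choose C5 hC50 hC5 using cnt5 P
  choose C6 hC60 hC6 using cnt6 P
  obtain ⟨e0, he0⟩ : ∃ e0, e0 = eps * (1 / (100 * ((m0 : ℝ) + 1) ^ 2)) := ⟨_, rfl⟩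
  have he00 : 0 < e0 := by
    rw [he0]
    positivity
  obtain ⟨T, hT, hT5, hT6⟩ := rnd_T m0 he00 C5 C6 hC50 hC60
  obtain ⟨M0, hM0⟩ : ∃ M0 : ℝ, M0 = (P.n : ℝ) ^ T := ⟨_, rfl⟩
  have hM00 : 0 ≤ M0 := by
    rw [hM0]
    positivity
  obtain ⟨N1, hN1⟩ := hnorm delta C M0 hdelta hC0 hM00
  obtain ⟨N2, hN2⟩ := hsparse M0 hM00
  obtain ⟨N3, hN3⟩ := cnt4 P m0 he00 M0 hM00
  obtain ⟨N4, hN4⟩ := cntO P m0 he00 M0 hM00
  obtain ⟨N0, hN0, hl1, hl2, hl3, hl4, hl5⟩ := rnd_large P T heps he20 hgam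
    (max 2 (max N1 (max N2 (max N3 N4))))
  have c0 : 2 ≤ Fintype.card (XX P.n T N0) := le_trans (le_max_left _ _) hl5
  have hl6 := le_trans (le_max_right _ _) hl5
  have c1 : N1 ≤ Fintype.card (XX P.n T N0) := le_trans (le_max_left _ _) hl6
  have hl7 := le_trans (le_max_right _ _) hl6
  have c2 : N2 ≤ Fintype.card (XX P.n T N0) := le_trans (le_max_left _ _) hl7
  have hl8 := le_trans (le_max_right _ _) hl7
  have c3 : N3 ≤ Fintype.card (XX P.n T N0) := le_trans (le_max_left _ _) hl8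
  have c4 : N4 ≤ Fintype.card (XX P.n T N0) := le_trans (le_max_right _ _) hl8
  have hw : IsPr (rndW P T N0) := rnd_isPr P hT N0 hl1
  have hwle : ∀ c, rndW P T N0 c ≤ M0 * (Fintype.card (XX P.n T N0) : ℝ) ^ (-(P.k / P.q : ℝ)) := by
    intro c
    rw [hM0, card_XX]
    exact rnd_W_le P hT N0 c
  have hNpos : 0 < NN P T N0 := rnd_NN_pos P hN0
  have hpow : ∀ a : ℝ, 0 < NN P T N0 ^ a := fun a => Real.rpow_pos_of_pos hNpos a
  obtain ⟨f1, hf10, hf1E, hf1⟩ := hbox (XX P.n T N0) c0 (rndW P T N0) hw (rndHF P T N0)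
  obtain ⟨f2, hf20, hf2E, hf2⟩ := hbox (XX P.n T N0) c0 (rndW P T N0) hw (rndHP P T N0)
  obtain ⟨f3, hf30, hf3E, hf3⟩ := size_event he20 he21 hw (rndHF P T N0)
  obtain ⟨f4, hf40, hf4E, hf4⟩ := size_event he20 he21 hw (rndHP P T N0)
  have hsF : ∑ c ∈ rndHF P T N0, rndW P T N0 c = NN P T N0 ^ (P.k / P.p : ℝ) := by
    have h := rnd_sum_HF P T N0 (fun _ => True)
    rw [Finset.filter_true, Finset.filter_true, sum_wF P T N0 hT hN0] at h
    exact h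
  have hsP : ∑ c ∈ rndHP P T N0, rndW P T N0 c = NN P T N0 ^ (P.k / P.p : ℝ) := by
    have h := rnd_sum_HP P T N0 (fun _ => True)
    rw [Finset.filter_true, Finset.filter_true, sum_wP P T N0 hT hN0] at h
    exact h
  rw [hsF] at hf3E hf3
  rw [hsP] at hf4E hf4
  have hbad := hN2 (XX P.n T N0) c2 (rndW P T N0) hw hwle
  rw [card_XX] at hbad
  have h4 := hN3 (XX P.n T N0) c3 (rndW P T N0) hw hwle
  have hO := hN4 (XX P.n T N0) c4 (rndW P T N0) hw hwle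
  rw [card_XX] at h4 hO
  obtain ⟨ω, p1, p2, p3, p4, p5, p6, p7, p8⟩ := rnd_pick hw m0 f1 f2 f3 f4
    (fun ω => (NN P T N0 ^ ((P.k : ℝ) / P.p - gam / 2))⁻¹ * ((badSets P.p delta ω).card : ℝ))
    (fun m ω => (eps * NN P T N0 ^ ((m : ℝ) / P.p))⁻¹ * ((set4 P m ω).card : ℝ))
    (fun m ω => (eps * NN P T N0 ^ ((m : ℝ) / P.p))⁻¹ * ((set5 P m T N0 ω).card : ℝ))
    (fun m m' ω => (eps * NN P T N0 ^ (((m : ℝ) + m') / P.p))⁻¹ *
      ((set6 P m m' T N0 ω).card : ℝ))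
    hf10 hf20 hf30 hf40
    (fun ω => mul_nonneg (inv_nonneg.mpr (hpow _).le) (Nat.cast_nonneg _))
    (fun m ω => mul_nonneg (inv_nonneg.mpr (mul_pos heps (hpow _)).le) (Nat.cast_nonneg _))
    (fun m ω => mul_nonneg (inv_nonneg.mpr (mul_pos heps (hpow _)).le) (Nat.cast_nonneg _))
    (fun m m' ω => mul_nonneg (inv_nonneg.mpr (mul_pos heps (hpow _)).le) (Nat.cast_nonneg _))
    hf1E hf2E (hf3E.trans hl2) (hf4E.trans hl2)
    (by
      refine rnd_scale _ (hpow _) _ hbad ?_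
      calc NN P T N0 ^ ((P.k : ℝ) / P.p - gam) =
            NN P T N0 ^ (-(gam / 2)) * NN P T N0 ^ ((P.k : ℝ) / P.p - gam / 2) := by
              rw [← Real.rpow_add hNpos]
              congr 1
              ring
        _ ≤ 1 / 100 * NN P T N0 ^ ((P.k : ℝ) / P.p - gam / 2) :=
              mul_le_mul_of_nonneg_right hl3 (hpow _).le)
    (by
      intro m hm
      refine rnd_scale _ (mul_pos heps (hpow _)) _ (h4 m hm) (le_of_eq ?_)
      rw [he0]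
      ring)
    (by
      intro m hm
      refine rnd_scale _ (mul_pos heps (hpow _)) _ (hC5 m T N0 hT hN0 hw) ?_
      calc C5 m / T * NN P T N0 ^ ((m : ℝ) / P.p) ≤ e0 * NN P T N0 ^ ((m : ℝ) / P.p) :=
            mul_le_mul_of_nonneg_right (hT5 m hm) (hpow _).le
        _ = 1 / (100 * ((m0 : ℝ) + 1) ^ 2) * (eps * NN P T N0 ^ ((m : ℝ) / P.p)) := by
            rw [he0]
            ring)
    (by
      intro m hm m' hm'
      refine rnd_scale _ (mul_pos heps (hpow _)) _ ((hC6 m m' T N0 hT hN0 hw).trans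
        (add_le_add_right (hO m hm m' hm') _)) ?_
      calc C6 m m' / T * NN P T N0 ^ (((m : ℝ) + m') / P.p) +
            e0 * NN P T N0 ^ (((m : ℝ) + m') / P.p) ≤
            e0 * NN P T N0 ^ (((m : ℝ) + m') / P.p) +
            e0 * NN P T N0 ^ (((m : ℝ) + m') / P.p) := by
            have := mul_le_mul_of_nonneg_right (hT6 m hm m' hm')
              (hpow (((m : ℝ) + m') / P.p)).le
            linarith
        _ = 2 / (100 * ((m0 : ℝ) + 1) ^ 2) * (eps * NN P T N0 ^ (((m : ℝ) + m') / P.p)) := by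
            rw [he0]
            ring)
  have hbadle : ((badSets P.p delta ω).card : ℝ) ≤ NN P T N0 ^ ((P.k : ℝ) / P.p - gam / 2) :=
    rnd_lt (hpow _) p5
  obtain ⟨ω', hω', -, hsp, hdel⟩ := exists_deletion P.p delta ω
  have hdel' : ((ω \ ω').card : ℝ) ≤ NN P T N0 ^ ((P.k : ℝ) / P.p - gam / 2) :=
    le_trans (by exact_mod_cast hdel) hbadle
  have hb : NN P T N0 ^ ((P.k : ℝ) / P.p - gam / 2) ≤
      eps / 2 * NN P T N0 ^ ((P.k : ℝ) / P.p) := by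
    calc NN P T N0 ^ ((P.k : ℝ) / P.p - gam / 2) =
          NN P T N0 ^ (-(gam / 2)) * NN P T N0 ^ ((P.k : ℝ) / P.p) := by
            rw [← Real.rpow_add hNpos]
            congr 1
            ring
      _ ≤ eps / 2 * NN P T N0 ^ ((P.k : ℝ) / P.p) :=
            mul_le_mul_of_nonneg_right hl4 (hpow _).le
  have hsub : ω' ∩ rndHF P T N0 ∪ ω' ∩ rndHP P T N0 ⊆ ω :=
    Finset.union_subset (Finset.inter_subset_left.trans hω')
      (Finset.inter_subset_left.trans hω')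
  refine ⟨{
    T := T
    N0 := N0
    T_pos := hT
    N0_pos := hN0
    F := ω' ∩ rndHF P T N0
    Q := ω' ∩ rndHP P T N0
    F_lab := ?_
    Q_lab := ?_
    F_norm := ?_
    Q_norm := ?_
    F_size := ?_
    Q_size := ?_
    c4 := ?_
    c5 := ?_
    c6 := ?_ }⟩
  · intro c hc
    exact (Finset.mem_filter.mp (Finset.mem_inter.mp hc).2).2
  · intro c hc
    exact (Finset.mem_filter.mp (Finset.mem_inter.mp hc).2).2
  · refine hN1 (XX P.n T N0) c1 _ (wF P T N0) (rnd_wF_nonneg P T N0) ?_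
      (flat_F P T N0 hT hN0) ?_ (rnd_sparse_mono Finset.inter_subset_left hsp)
    · intro c
      refine le_trans ?_ (hwle c)
      have := rnd_wP_nonneg P T N0 c
      unfold rndW
      linarith
    · exact rnd_box P hω' (hf1 ω p1) (fun J A => rnd_sum_HF P T N0 _)
  · refine hN1 (XX P.n T N0) c1 _ (wP P T N0) (rnd_wP_nonneg P T N0) ?_
      (flat_P P T N0 hT hN0) ?_ (rnd_sparse_mono Finset.inter_subset_left hsp)
    · intro c
      refine le_trans ?_ (hwle c)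
      have := rnd_wF_nonneg P T N0 c
      unfold rndW
      linarith
    · exact rnd_box P hω' (hf2 ω p2) (fun J A => rnd_sum_HP P T N0 _)
  · exact rnd_size (hpow _).le (hf3 ω p3) hdel' hb (by linarith)
  · exact rnd_size (hpow _).le (hf4 ω p4) hdel' hb (by linarith)
  · intro m hm
    refine le_trans ?_ (rnd_lt (mul_pos heps (hpow _)) (p6 m hm))
    exact_mod_cast Finset.card_le_card (set4_mono P m hsub)
  · intro m hm
    refine le_trans ?_ (rnd_lt (mul_pos heps (hpow _)) (p7 m hm))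
    exact_mod_cast Finset.card_le_card (set5_mono P m T N0 hsub)
  · intro m hm m' hm'
    refine le_trans ?_ (rnd_lt (mul_pos heps (hpow _)) (p8 m hm m' hm'))
    exact_mod_cast Finset.card_le_card (set6_mono P m m' T N0 hsub)

end

end Pool.Agent.GP2
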