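import Pool.Agent.GP2.Defs

/-!
# RND 0: expectations over random subsets
-/

namespace Pool.Agent.GP2

open Finset

noncomputable section

variable {ι : Type*} [Fintype ι] [DecidableEq ι]

/-- Weights between zero and one. -/
def IsPr (w : ι → ℝ) : Prop := ∀ c, 0 ≤ w c ∧ w c ≤ 1

/-- The weight of a subset is nonnegative. -/
theorem Rnd0_wt_nonneg {w : ι → ℝ} (hw : IsPr w) (ω : Finset ι) :
    0 ≤ ∏ c, (if c ∈ ω then w c else 1 - w c) := by
  refine Finset.prod_nonneg fun c _ => ?_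
  split_ifs
  · exact (hw c).1
  · linarith [(hw c).2]

/-- Expansion of a product of binomials over subsets. -/
theorem Rnd0_expand (a b : ι → ℝ) :
    ∑ ω : Finset ι, ∏ c, (if c ∈ ω then a c else b c) = ∏ c, (a c + b c) := by
  rw [Finset.prod_add, Finset.powerset_univ]
  refine Finset.sum_congr rfl fun ω _ => ?_
  rw [Finset.prod_ite]
  congr 1
  · refine Finset.prod_congr ?_ fun _ _ => rfl
    ext c; simp
  · refine Finset.prod_congr ?_ fun _ _ => rfl
    ext c; simp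

theorem Ex_nonneg {w : ι → ℝ} (hw : IsPr w) {f : Finset ι → ℝ} (hf : ∀ ω, 0 ≤ f ω) :
    0 ≤ Ex w f :=
  Finset.sum_nonneg fun ω _ => mul_nonneg (Rnd0_wt_nonneg hw ω) (hf ω)

theorem Ex_mono {w : ι → ℝ} (hw : IsPr w) {f g : Finset ι → ℝ} (hf : ∀ ω, f ω ≤ g ω) :
    Ex w f ≤ Ex w g :=
  Finset.sum_le_sum fun ω _ => mul_le_mul_of_nonneg_left (hf ω) (Rnd0_wt_nonneg hw ω)

theorem Ex_add (w : ι → ℝ) (f g : Finset ι → ℝ) :
    Ex w (fun ω => f ω + g ω) = Ex w f + Ex w g := by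
  unfold Ex
  rw [← Finset.sum_add_distrib]
  exact Finset.sum_congr rfl fun ω _ => mul_add _ _ _

theorem Ex_sum (w : ι → ℝ) {κ : Type*} (s : Finset κ) (f : κ → Finset ι → ℝ) :
    Ex w (fun ω => ∑ i ∈ s, f i ω) = ∑ i ∈ s, Ex w (f i) := by
  unfold Ex
  rw [Finset.sum_comm]
  exact Finset.sum_congr rfl fun ω _ => Finset.mul_sum _ _ _

theorem Ex_mul_left (w : ι → ℝ) (a : ℝ) (f : Finset ι → ℝ) :
    Ex w (fun ω => a * f ω) = a * Ex w f := by
  unfold Ex
  rw [Finset.mul_sum]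
  exact Finset.sum_congr rfl fun ω _ => by ring

/-- PROOF. Expand the product `∏_c ((1 - w c) + w c g c)` (`Finset.prod_add`,
`Finset.prod_one_add`, or induction on the index set). -/
theorem Ex_prod (w : ι → ℝ) (g : ι → ℝ) :
    Ex w (fun ω => ∏ c ∈ ω, g c) = ∏ c, (1 - w c + w c * g c) := by
  have h : ∀ ω : Finset ι, (∏ c, (if c ∈ ω then w c else 1 - w c)) * (∏ c ∈ ω, g c) =
      ∏ c, (if c ∈ ω then w c * g c else 1 - w c) := by
    intro ω
    have h1 : ∏ c ∈ ω, g c = ∏ c, (if c ∈ ω then g c else 1) := by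
      rw [Finset.prod_ite_mem, Finset.univ_inter]
    rw [h1, ← Finset.prod_mul_distrib]
    refine Finset.prod_congr rfl fun c _ => ?_
    split_ifs <;> simp
  unfold Ex
  rw [Finset.sum_congr rfl fun ω _ => h ω, Rnd0_expand]
  exact Finset.prod_congr rfl fun c _ => add_comm _ _

theorem Ex_one (w : ι → ℝ) : Ex w (fun _ => 1) = 1 := by
  unfold Ex
  simp only [mul_one]
  rw [Rnd0_expand]
  exact Finset.prod_eq_one fun c _ => by ring

/-- The probability that all elements of `B` are chosen.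

PROOF. Expand the product `∏_c ([c ∈ B] w c + [c ∉ B] (w c + (1 - w c)))`. -/
theorem Ex_subset (w : ι → ℝ) (B : Finset ι) :
    Ex w (fun ω => if B ⊆ ω then 1 else 0) = ∏ c ∈ B, w c := by
  have h : ∀ ω : Finset ι, (∏ c, (if c ∈ ω then w c else 1 - w c)) *
      (if B ⊆ ω then (1 : ℝ) else 0) =
      ∏ c, (if c ∈ ω then w c else (if c ∈ B then 0 else 1 - w c)) := by
    intro ω
    by_cases hB : B ⊆ ω
    · rw [if_pos hB, mul_one]
      refine Finset.prod_congr rfl fun c _ => ?_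
      by_cases h1 : c ∈ ω
      · simp [h1]
      · have h2 : c ∉ B := fun h => h1 (hB h)
        simp [h1, h2]
    · rw [if_neg hB, mul_zero]
      obtain ⟨c, h1, h2⟩ := Finset.not_subset.1 hB
      symm
      refine Finset.prod_eq_zero (Finset.mem_univ c) ?_
      simp [h1, h2]
  unfold Ex
  rw [Finset.sum_congr rfl fun ω _ => h ω, Rnd0_expand]
  have h2 : ∏ c ∈ B, w c = ∏ c, (if c ∈ B then w c else 1) := by
    rw [Finset.prod_ite_mem, Finset.univ_inter]
  rw [h2]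
  refine Finset.prod_congr rfl fun c _ => ?_
  split_ifs <;> ring

/-- If the expectations of finitely many nonnegative functions have sum less than one then some
`ω` makes all of them less than one.

PROOF. Otherwise `∑_i f_i(ω) ≥ 1` for all `ω`, so `∑ Ex f_i ≥ 1` by `Ex_mono`, `Ex_one`. -/
theorem exists_good {w : ι → ℝ} (hw : IsPr w) {κ : Type*} (s : Finset κ)
    (f : κ → Finset ι → ℝ) (hf : ∀ i ∈ s, ∀ ω, 0 ≤ f i ω) (h : ∑ i ∈ s, Ex w (f i) < 1) :
    ∃ ω : Finset ι, ∀ i ∈ s, f i ω < 1 := by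
  by_contra hcon
  push_neg at hcon
  have h1 : Ex w (fun _ => 1) ≤ Ex w (fun ω => ∑ i ∈ s, f i ω) := by
    refine Ex_mono hw fun ω => ?_
    obtain ⟨i, hi, h2⟩ := hcon ω
    exact h2.trans (Finset.single_le_sum (f := fun i => f i ω) (fun j hj => hf j hj ω) hi)
  rw [Ex_one, Ex_sum] at h1
  linarith

/-- The moment generating function of the size of the intersection with `H`. -/
theorem Rnd0_mgf {w : ι → ℝ} (hw : IsPr w) (H : Finset ι) (x : ℝ) :
    Ex w (fun ω => Real.exp (x * ((ω ∩ H).card : ℝ))) ≤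
      Real.exp ((∑ c ∈ H, w c) * (Real.exp x - 1)) := by
  have h1 : ∀ ω : Finset ι, Real.exp (x * ((ω ∩ H).card : ℝ)) =
      ∏ c ∈ ω, (if c ∈ H then Real.exp x else 1) := by
    intro ω
    rw [Finset.prod_ite_mem, Finset.prod_const, ← Real.exp_nat_mul, mul_comm]
  have h2 : Ex w (fun ω => Real.exp (x * ((ω ∩ H).card : ℝ))) =
      ∏ c, (1 - w c + w c * (if c ∈ H then Real.exp x else 1)) := by
    rw [← Ex_prod]
    congr 1
    funext ω
    exact h1 ω
  rw [h2]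
  have h3 : (∑ c ∈ H, w c) * (Real.exp x - 1) =
      ∑ c, (if c ∈ H then w c * (Real.exp x - 1) else 0) := by
    rw [Finset.sum_mul, Finset.sum_ite_mem, Finset.univ_inter]
  rw [h3, Real.exp_sum]
  refine Finset.prod_le_prod (fun c _ => ?_) (fun c _ => ?_)
  · split_ifs
    · exact add_nonneg (by linarith [(hw c).2]) (mul_nonneg (hw c).1 (Real.exp_pos x).le)
    · linarith
  · split_ifs
    · have := Real.add_one_le_exp (w c * (Real.exp x - 1))
      linarith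
    · simp

/-- Exponential moment, upper tail: for `0 ≤ lam ≤ 1`
`Ex exp (lam (|ω ∩ H| - (1 + lam) w(H) - a)) ≤ exp (- lam a)`.

PROOF. `Ex_prod` with `g = e^lam` on `H` and `1` elsewhere:
`Ex exp(lam |ω ∩ H|) = ∏_{c ∈ H} (1 + w c (e^lam - 1)) ≤ exp(w(H) (e^lam - 1))` and
`e^lam - 1 ≤ lam + lam²` for `0 ≤ lam ≤ 1`. -/
theorem Ex_exp_upper {w : ι → ℝ} (hw : IsPr w) (H : Finset ι) {lam : ℝ} (h0 : 0 ≤ lam)
    (h1 : lam ≤ 1) (a : ℝ) :
    Ex w (fun ω => Real.exp (lam * (((ω ∩ H).card : ℝ) - (1 + lam) * (∑ c ∈ H, w c) - a))) ≤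
      Real.exp (-(lam * a)) := by
  have hS : 0 ≤ ∑ c ∈ H, w c := Finset.sum_nonneg fun c _ => (hw c).1
  have h2 : Ex w (fun ω => Real.exp
      (lam * (((ω ∩ H).card : ℝ) - (1 + lam) * (∑ c ∈ H, w c) - a))) =
      Real.exp (-(lam * (1 + lam) * (∑ c ∈ H, w c)) - lam * a) *
        Ex w (fun ω => Real.exp (lam * ((ω ∩ H).card : ℝ))) := by
    rw [← Ex_mul_left]
    congr 1
    funext ω
    rw [← Real.exp_add]
    congr 1
    ring
  rw [h2]
  refine (mul_le_mul_of_nonneg_left (Rnd0_mgf hw H lam) (Real.exp_pos _).le).trans ?_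
  rw [← Real.exp_add]
  refine Real.exp_le_exp.2 ?_
  have h3 : Real.exp lam - 1 ≤ lam + lam ^ 2 := by
    have h4 := Real.abs_exp_sub_one_sub_id_le (x := lam) (by rw [abs_of_nonneg h0]; exact h1)
    have h5 := (abs_le.1 h4).2
    linarith
  nlinarith [mul_le_mul_of_nonneg_left h3 hS]

/-- Exponential moment, lower tail: for `0 ≤ lam ≤ 1`
`Ex exp (lam ((1 - lam) w(H) - |ω ∩ H|)) ≤ exp (- lam² w(H) / 2)`.

PROOF. `Ex exp(- lam |ω ∩ H|) = ∏_{c ∈ H} (1 - w c (1 - e^{-lam})) ≤ exp(- w(H) (1 - e^{-lam}))` and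
`1 - e^{-lam} ≥ lam - lam²/2`. -/
theorem Ex_exp_lower {w : ι → ℝ} (hw : IsPr w) (H : Finset ι) {lam : ℝ} (h0 : 0 ≤ lam)
    (h1 : lam ≤ 1) :
    Ex w (fun ω => Real.exp (lam * ((1 - lam) * (∑ c ∈ H, w c) - ((ω ∩ H).card : ℝ)))) ≤
      Real.exp (-(lam ^ 2 * (∑ c ∈ H, w c) / 2)) := by
  have hS : 0 ≤ ∑ c ∈ H, w c := Finset.sum_nonneg fun c _ => (hw c).1
  have h2 : Ex w (fun ω => Real.exp
      (lam * ((1 - lam) * (∑ c ∈ H, w c) - ((ω ∩ H).card : ℝ)))) =
      Real.exp (lam * (1 - lam) * (∑ c ∈ H, w c)) *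
        Ex w (fun ω => Real.exp (-lam * ((ω ∩ H).card : ℝ))) := by
    rw [← Ex_mul_left]
    congr 1
    funext ω
    rw [← Real.exp_add]
    congr 1
    ring
  rw [h2]
  refine (mul_le_mul_of_nonneg_left (Rnd0_mgf hw H (-lam)) (Real.exp_pos _).le).trans ?_
  rw [← Real.exp_add]
  refine Real.exp_le_exp.2 ?_
  have h3 : Real.exp (-lam) - 1 ≤ -lam + lam ^ 2 / 2 := by
    have h4 := Real.quadratic_le_exp_of_nonneg h0
    have h5 : 0 < 1 + lam + lam ^ 2 / 2 := by positivity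
    have h6 : Real.exp (-lam) ≤ 1 - lam + lam ^ 2 / 2 := by
      rw [Real.exp_neg]
      refine (inv_anti₀ h5 h4).trans ?_
      rw [inv_le_iff_one_le_mul₀ h5]
      nlinarith [sq_nonneg (lam ^ 2)]
    linarith
  nlinarith [mul_le_mul_of_nonneg_left h3 hS]

end

end Pool.Agent.GP2
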