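import Pool.Agent.GP2.RndBoxB

/-!
# RND: box bounds, sizes and sparse property of random hypergraphs
-/

namespace Pool.Agent.GP2

open Finset

noncomputable section

/-- Deleting one edge of every bad set.

PROOF. Choose an element of every bad set of `ω` and remove the chosen edges from `ω`. A subset
`E'` of the rest with few edges and few vertices would be a bad set of `ω` which lost no edge. -/
theorem exists_deletion {k : ℕ} {X : Type} [Fintype X] [DecidableEq X] (p delta : ℝ)
    (ω : Finset (Fin k → X)) :
    ∃ ω' ⊆ ω, (ω.card : ℝ) ≤ ω'.card + (badSets p delta ω).card ∧ SparseProp p delta ω' ∧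
      (ω \ ω').card ≤ (badSets p delta ω).card := by
  classical
  have hne : ∀ E' ∈ badSets p delta ω, E'.Nonempty := by
    intro E' h
    unfold badSets at h
    exact (Finset.mem_filter.mp h).2.1
  obtain ⟨pick, hpick⟩ : ∃ pick : Finset (Fin k → X) → Finset (Fin k → X),
      ∀ E' ∈ badSets p delta ω, (pick E').card ≤ 1 ∧ ∃ c ∈ E', c ∈ pick E' := by
    refine ⟨fun E' => if h : E'.Nonempty then {h.choose} else ∅, ?_⟩
    intro E' h
    have h' := hne E' h
    simp only [h', dif_pos]
    exact ⟨by simp, h'.choose, h'.choose_spec, by simp⟩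
  obtain ⟨R, hR⟩ : ∃ R, R = (badSets p delta ω).biUnion pick := ⟨_, rfl⟩
  have hRcard : R.card ≤ (badSets p delta ω).card := by
    rw [hR]
    refine Finset.card_biUnion_le.trans ?_
    calc ∑ E' ∈ badSets p delta ω, (pick E').card ≤ ∑ _E' ∈ badSets p delta ω, 1 :=
          Finset.sum_le_sum fun E' h => (hpick E' h).1
      _ = (badSets p delta ω).card := by simp
  have hsd : ω \ (ω \ R) ⊆ R := by
    intro c hc
    simp only [Finset.mem_sdiff, not_and, not_not] at hc
    exact hc.2 hc.1
  have h2 : (ω \ (ω \ R)).card ≤ (badSets p delta ω).card :=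
    (Finset.card_le_card hsd).trans hRcard
  refine ⟨ω \ R, Finset.sdiff_subset, ?_, ?_, h2⟩
  · have h3 := Finset.card_sdiff_add_card_eq_card (Finset.sdiff_subset (s := ω) (t := R))
    have : ω.card ≤ (ω \ R).card + (badSets p delta ω).card := by omega
    exact_mod_cast this
  · intro E' h1 h3 h4
    by_contra hcon
    push Not at hcon
    have hbad : E' ∈ badSets p delta ω := by
      unfold badSets
      refine Finset.mem_filter.mpr ⟨Finset.mem_powerset.mpr (h1.trans Finset.sdiff_subset), ?_⟩
      exact ⟨h3, h4, by convert hcon⟩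
    obtain ⟨-, c, hc, hc'⟩ := hpick E' hbad
    have h5 := h1 hc
    rw [Finset.mem_sdiff] at h5
    exact h5.2 (hR ▸ Finset.mem_biUnion.mpr ⟨E', hbad, hc'⟩)

end

end Pool.Agent.GP2
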