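import Pool.Agent.GP2.Rnd0
import Pool.Agent.GP2.Nrm

/-!
# RND: box bounds, sizes and sparse property of random hypergraphs
-/

namespace Pool.Agent.GP2

open Finset

noncomputable section

/-- The sum of `r ^ |S|` over all sets, `r = 1 / N`. -/
lemma RndBoxA_sum_sets (X : Type) [Fintype X] [DecidableEq X] (hN : 2 ≤ Fintype.card X) :
    ∑ S : Finset X, ((Fintype.card X : ℝ)⁻¹) ^ S.card ≤ (Fintype.card X : ℝ) ^ 2 := by
  have hN' : (2 : ℝ) ≤ (Fintype.card X : ℝ) := by exact_mod_cast hN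
  have h1 : ∑ S : Finset X, ((Fintype.card X : ℝ)⁻¹) ^ S.card =
      ((Fintype.card X : ℝ)⁻¹ + 1) ^ Fintype.card X := by
    rw [← Fintype.sum_pow_mul_eq_add_pow]
    refine Finset.sum_congr rfl fun S _ => ?_
    rw [one_pow, mul_one]
  rw [h1]
  have h2 : ((Fintype.card X : ℝ)⁻¹ + 1) ^ Fintype.card X ≤
      Real.exp ((Fintype.card X : ℝ)⁻¹) ^ Fintype.card X :=
    pow_le_pow_left₀ (by positivity) (Real.add_one_le_exp _) _
  have h3 : Real.exp ((Fintype.card X : ℝ)⁻¹) ^ Fintype.card X = Real.exp 1 := by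
    rw [← Real.exp_nat_mul, mul_inv_cancel₀ (by positivity)]
  have h4 : Real.exp 1 < 4 := by linarith [Real.exp_one_lt_d9]
  nlinarith

/-- The sum over all nonzero boxes. -/
lemma RndBoxA_sum_boxes (k : ℕ) (X : Type) [Fintype X] [DecidableEq X]
    (hN : 2 ≤ Fintype.card X) :
    ∑ A : Fin k → Finset X with ∃ j, (A j).Nonempty,
      ((Fintype.card X : ℝ)⁻¹) ^ ((3 * k + 4) * (univ.sup fun j => (A j).card)) ≤ 1 / 10 := by
  have hN' : (2 : ℝ) ≤ (Fintype.card X : ℝ) := by exact_mod_cast hN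
  have hN0 : (0 : ℝ) < (Fintype.card X : ℝ) := by linarith
  set r : ℝ := (Fintype.card X : ℝ)⁻¹ with hr
  have hr0 : 0 < r := by positivity
  have hr1 : r ≤ 1 / 2 := by
    rw [hr, one_div]
    exact inv_anti₀ (by norm_num) hN'
  have h1 : ∀ A : Fin k → Finset X, (∃ j, (A j).Nonempty) →
      r ^ ((3 * k + 4) * (univ.sup fun j => (A j).card)) ≤
        r ^ (4 + 2 * k) * ∏ j, r ^ (A j).card := by
    intro A hA
    obtain ⟨j0, hj0⟩ := hA
    set a := univ.sup fun j => (A j).card with ha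
    have ha1 : 1 ≤ a :=
      le_trans (Finset.card_pos.2 hj0)
        (Finset.le_sup (f := fun j => (A j).card) (Finset.mem_univ j0))
    have ha2 : ∑ j, (A j).card ≤ k * a := by
      calc ∑ j, (A j).card ≤ ∑ _j : Fin k, a :=
            Finset.sum_le_sum fun j _ => Finset.le_sup (f := fun j => (A j).card)
              (Finset.mem_univ j)
        _ = k * a := by simp
    rw [Finset.prod_pow_eq_pow_sum, ← pow_add]
    refine pow_le_pow_of_le_one hr0.le (by linarith) ?_
    nlinarith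
  calc ∑ A : Fin k → Finset X with ∃ j, (A j).Nonempty,
        r ^ ((3 * k + 4) * (univ.sup fun j => (A j).card))
      ≤ ∑ A : Fin k → Finset X with ∃ j, (A j).Nonempty,
          r ^ (4 + 2 * k) * ∏ j, r ^ (A j).card :=
        Finset.sum_le_sum fun A hA => h1 A (Finset.mem_filter.1 hA).2
    _ ≤ ∑ A : Fin k → Finset X, r ^ (4 + 2 * k) * ∏ j, r ^ (A j).card :=
        Finset.sum_le_sum_of_subset_of_nonneg (Finset.filter_subset _ _)
          fun A _ _ => by positivity
    _ = r ^ (4 + 2 * k) * ∏ _j : Fin k, ∑ S : Finset X, r ^ S.card := by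
        rw [← Finset.mul_sum, Finset.prod_univ_sum, Fintype.piFinset_univ]
    _ ≤ r ^ (4 + 2 * k) * ∏ _j : Fin k, (Fintype.card X : ℝ) ^ 2 := by
        refine mul_le_mul_of_nonneg_left ?_ (by positivity)
        exact Finset.prod_le_prod (fun j _ => by positivity)
          fun j _ => RndBoxA_sum_sets X hN
    _ = r ^ 4 := by
        rw [Finset.prod_const, Finset.card_univ, Fintype.card_fin, ← pow_mul, pow_add, mul_assoc,
          ← mul_pow, hr, inv_mul_cancel₀ hN0.ne', one_pow, mul_one]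
    _ ≤ (1 / 2) ^ 4 := pow_le_pow_left₀ hr0.le hr1 4
    _ ≤ 1 / 10 := by norm_num

/-- The box bounds hold with high probability. (The constant does not depend on anything but `k`
and `eps`.)

PROOF. Let `N = |X| ≥ 2`, `lam = eps`, `C = (3 k + 4) / eps`. Let `f(ω)` be the sum over all
nonempty `J ⊆ Fin k` and all `A : Fin k → Finset X` with `A j = ∅` for `j ∉ J` and `A j` nonempty
for `j ∈ J` of `exp(lam (|ω ∩ H ∩ box| - (1+lam) w(H ∩ box) - C a log N))`, `a = sup_{j ∈ J} |A j|`,
`box = {c : ∀ j ∈ J, c j ∈ A j}`. By `Ex_exp_upper` every term has expectation at most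
`N^{- (3k+4) a}`. The number of subsets of `X` with at most `a` elements is at most
`(N+1)^a ≤ N^{2a}`, so the number of terms with given `J` and `a ≥ 1` is at most `N^{2 k a}`, and
the number of `J` is `2^k ≤ N^{k a}`. So `Ex f ≤ ∑_{a ≥ 1} N^{-4a} ≤ 1/15`. If `f(ω) < 1` then every
term is `< 1`, so its exponent is negative; this is the box bound (for a given `A` replace `A j`,
`j ∉ J`, by `∅`). -/
theorem box_event (k : ℕ) {eps : ℝ} (h0 : 0 < eps) (h1 : eps ≤ 1) : ∃ C : ℝ, 0 ≤ C ∧
    ∀ (X : Type) [Fintype X] [DecidableEq X], 2 ≤ Fintype.card X →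
      ∀ (w : (Fin k → X) → ℝ), IsPr w → ∀ H : Finset (Fin k → X),
      ∃ f : Finset (Fin k → X) → ℝ, (∀ ω, 0 ≤ f ω) ∧ Ex w f ≤ 1 / 10 ∧
        ∀ ω, f ω < 1 → ∀ (J : Finset (Fin k)) (A : Fin k → Finset X), J.Nonempty →
          (∀ j ∈ J, (A j).Nonempty) →
          (((ω ∩ H).filter fun c => ∀ j ∈ J, c j ∈ A j).card : ℝ) ≤
            (1 + eps) * (∑ c ∈ H with ∀ j ∈ J, c j ∈ A j, w c) +
            C * (J.sup fun j => (A j).card : ℕ) * Real.log (Fintype.card X) := by
  refine ⟨(3 * k + 4) / eps, by positivity, ?_⟩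
  intro X _ _ hN w hw H
  have hN' : (2 : ℝ) ≤ (Fintype.card X : ℝ) := by exact_mod_cast hN
  have hN0 : (0 : ℝ) < (Fintype.card X : ℝ) := by linarith
  let B : (Fin k → Finset X) → Finset (Fin k → X) := fun A =>
    H.filter fun c => ∀ j, (A j).Nonempty → c j ∈ A j
  let t : (Fin k → Finset X) → ℝ := fun A =>
    (3 * k + 4) / eps * (univ.sup fun j => (A j).card : ℕ) * Real.log (Fintype.card X)
  let g : (Fin k → Finset X) → Finset (Fin k → X) → ℝ := fun A ω =>
    Real.exp (eps * (((ω ∩ B A).card : ℝ) - (1 + eps) * (∑ c ∈ B A, w c) - t A))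
  have hg : ∀ A ω, 0 ≤ g A ω := fun A ω => (Real.exp_pos _).le
  refine ⟨fun ω => ∑ A : Fin k → Finset X with ∃ j, (A j).Nonempty, g A ω, ?_, ?_, ?_⟩
  · exact fun ω => Finset.sum_nonneg fun A _ => hg A ω
  · rw [Ex_sum]
    refine le_trans (Finset.sum_le_sum fun A _ => ?_) (RndBoxA_sum_boxes k X hN)
    refine le_trans (Ex_exp_upper hw (B A) h0.le h1 (t A)) (le_of_eq ?_)
    have h2 : eps * t A = ((((3 * k + 4) * (univ.sup fun j => (A j).card) : ℕ)) : ℝ) *
        Real.log (Fintype.card X) := by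
      simp only [t]
      push_cast
      field_simp
    rw [h2, ← mul_neg, ← Real.log_inv, Real.exp_nat_mul, Real.exp_log (by positivity)]
  · intro ω hω J A hJ hA
    set A' : Fin k → Finset X := fun j => if j ∈ J then A j else ∅ with hA'
    have h3 : g A' ω < 1 := by
      refine lt_of_le_of_lt ?_ hω
      refine Finset.single_le_sum (f := fun A => g A ω) (fun A _ => hg A ω) ?_
      obtain ⟨j, hj⟩ := hJ
      refine Finset.mem_filter.2 ⟨Finset.mem_univ _, j, ?_⟩
      simp only [hA', if_pos hj]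
      exact hA j hj
    have h4 : eps * (((ω ∩ B A').card : ℝ) - (1 + eps) * (∑ c ∈ B A', w c) - t A') < 0 :=
      Real.exp_lt_one_iff.1 h3
    have h5 : ((ω ∩ B A').card : ℝ) - (1 + eps) * (∑ c ∈ B A', w c) - t A' < 0 := by
      by_contra hcon
      push Not at hcon
      have := mul_nonneg h0.le hcon
      linarith
    have h6 : ∀ c : Fin k → X, (∀ j, (A' j).Nonempty → c j ∈ A' j) ↔ ∀ j ∈ J, c j ∈ A j := by
      intro c
      constructor
      · intro h j hj
        have := h j (by simp only [hA', if_pos hj]; exact hA j hj)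
        simpa only [hA', if_pos hj] using this
      · intro h j hj
        by_cases hjJ : j ∈ J
        · simp only [hA', if_pos hjJ]
          exact h j hjJ
        · simp only [hA', if_neg hjJ] at hj
          exact absurd hj Finset.not_nonempty_empty
    have h7 : B A' = H.filter fun c => ∀ j ∈ J, c j ∈ A j :=
      Finset.filter_congr fun c _ => h6 c
    have h8 : (univ.sup fun j => (A' j).card) = J.sup fun j => (A j).card := by
      refine le_antisymm (Finset.sup_le fun j _ => ?_) (Finset.sup_le fun j hj => ?_)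
      · by_cases hjJ : j ∈ J
        · simp only [hA', if_pos hjJ]
          exact Finset.le_sup (f := fun j => (A j).card) hjJ
        · simp only [hA', if_neg hjJ, Finset.card_empty]
          exact Nat.zero_le _
      · have h9 := Finset.le_sup (f := fun j => (A' j).card) (Finset.mem_univ j)
        simpa only [hA', if_pos hj] using h9
    have h10 : (ω ∩ H).filter (fun c => ∀ j ∈ J, c j ∈ A j) = ω ∩ B A' := by
      rw [h7, Finset.inter_filter]
    rw [h10]
    rw [← h7]
    have h11 : t A' = (3 * k + 4) / eps * (J.sup fun j => (A j).card : ℕ) *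
        Real.log (Fintype.card X) := by
      simp only [t, h8]
    linarith

/-- The number of edges.

PROOF. `f(ω) = exp(eps ((1-eps) w(H) - |ω ∩ H|))`, `Ex_exp_lower`. -/
theorem size_event {ι : Type*} [Fintype ι] [DecidableEq ι] {eps : ℝ} (h0 : 0 < eps)
    (h1 : eps ≤ 1) {w : ι → ℝ} (hw : IsPr w) (H : Finset ι) :
    ∃ f : Finset ι → ℝ, (∀ ω, 0 ≤ f ω) ∧
      Ex w f ≤ Real.exp (-(eps ^ 2 * (∑ c ∈ H, w c) / 2)) ∧
      ∀ ω, f ω < 1 → (1 - eps) * (∑ c ∈ H, w c) ≤ ((ω ∩ H).card : ℝ) := by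
  refine ⟨fun ω => Real.exp (eps * ((1 - eps) * (∑ c ∈ H, w c) - ((ω ∩ H).card : ℝ))),
    fun ω => (Real.exp_pos _).le, Ex_exp_lower hw H h0.le h1, ?_⟩
  intro ω hω
  have h4 : eps * ((1 - eps) * (∑ c ∈ H, w c) - ((ω ∩ H).card : ℝ)) < 0 :=
    Real.exp_lt_one_iff.1 hω
  by_contra hcon
  push Not at hcon
  have : 0 ≤ eps * ((1 - eps) * (∑ c ∈ H, w c) - ((ω ∩ H).card : ℝ)) :=
    mul_nonneg h0.le (by linarith)
  linarith

end

end Pool.Agent.GP2
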