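import Pool.Agent.GP2.RndBoxA

/-!
# RND: box bounds, sizes and sparse property of random hypergraphs
-/

namespace Pool.Agent.GP2

open Finset

noncomputable section

/-- The bad sets of edges of `ω`. -/
def badSets {k : ℕ} {X : Type} [Fintype X] [DecidableEq X] (p delta : ℝ)
    (ω : Finset (Fin k → X)) : Finset (Finset (Fin k → X)) :=
  open Classical in
  ω.powerset.filter fun E' => E'.Nonempty ∧ (E'.card : ℝ) ≤ (Fintype.card X : ℝ) ^ delta ∧
    ((E'.biUnion Vx).card : ℝ) < (k : ℝ) + p * ((E'.card : ℝ) - 1)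

lemma RndBoxB_card_Vx {k : ℕ} {X : Type} [DecidableEq X] (c : Fin k → X) : (Vx c).card = k := by
  unfold Vx
  rw [Finset.card_image_of_injective]
  · simp
  · intro i j h
    exact (Prod.ext_iff.1 h).1

lemma RndBoxB_card_le {k : ℕ} {X : Type} [DecidableEq X] (E : Finset (Fin k → X)) :
    (E.biUnion Vx).card ≤ k * E.card := by
  refine le_trans Finset.card_biUnion_le ?_
  rw [Finset.sum_congr rfl fun c _ => RndBoxB_card_Vx c, Finset.sum_const, smul_eq_mul, mul_comm]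

/-- The number of edges inside a vertex set. -/
lemma RndBoxB_edges {k : ℕ} {X : Type} [Fintype X] [DecidableEq X] (V : Finset (Fin k × X)) :
    (univ.filter fun c : Fin k → X => Vx c ⊆ V).card ≤ V.card ^ k := by
  classical
  have h1 : (univ.filter fun c : Fin k → X => Vx c ⊆ V) ⊆
      Fintype.piFinset fun j : Fin k => (V.filter fun x => x.1 = j).image Prod.snd := by
    intro c hc
    rw [Fintype.mem_piFinset]
    intro j
    have h2 := (Finset.mem_filter.1 hc).2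
    have h3 : (j, c j) ∈ V := h2 (by unfold Vx; exact Finset.mem_image_of_mem _ (Finset.mem_univ j))
    exact Finset.mem_image.2 ⟨(j, c j), Finset.mem_filter.2 ⟨h3, rfl⟩, rfl⟩
  refine le_trans (Finset.card_le_card h1) ?_
  rw [Fintype.card_piFinset]
  calc ∏ j : Fin k, ((V.filter fun x => x.1 = j).image Prod.snd).card
      ≤ ∏ _j : Fin k, V.card := Finset.prod_le_prod' fun j _ =>
        le_trans Finset.card_image_le (Finset.card_filter_le _ _)
    _ = V.card ^ k := by simp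

/-- The number of sets of `e` edges spanning a given vertex set. -/
lemma RndBoxB_fiber {k : ℕ} {X : Type} [Fintype X] [DecidableEq X] (V : Finset (Fin k × X))
    (e : ℕ) (S : Finset (Finset (Fin k → X)))
    (hS : ∀ E ∈ S, E.biUnion Vx = V ∧ E.card = e) : S.card ≤ (V.card ^ k) ^ e := by
  classical
  have h1 : S ⊆ (univ.filter fun c : Fin k → X => Vx c ⊆ V).powersetCard e := by
    intro E hE
    obtain ⟨h2, h3⟩ := hS E hE
    rw [Finset.mem_powersetCard]
    refine ⟨fun c hc => Finset.mem_filter.2 ⟨Finset.mem_univ _, ?_⟩, h3⟩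
    rw [← h2]
    exact Finset.subset_biUnion_of_mem _ hc
  refine le_trans (Finset.card_le_card h1) ?_
  rw [Finset.card_powersetCard]
  exact le_trans (Nat.choose_le_pow _ _) (Nat.pow_le_pow_left (RndBoxB_edges V) e)

/-- The sum over all vertex sets. -/
lemma RndBoxB_sum_sets (Y : Type) [Fintype Y] [DecidableEq Y] (hN : 0 < Fintype.card Y) :
    ∑ S : Finset Y, ((Fintype.card Y : ℝ)⁻¹) ^ S.card ≤ 4 := by
  have hN' : (0 : ℝ) < (Fintype.card Y : ℝ) := by exact_mod_cast hN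
  have h1 : ∑ S : Finset Y, ((Fintype.card Y : ℝ)⁻¹) ^ S.card =
      ((Fintype.card Y : ℝ)⁻¹ + 1) ^ Fintype.card Y := by
    rw [← Fintype.sum_pow_mul_eq_add_pow]
    refine Finset.sum_congr rfl fun S _ => ?_
    rw [one_pow, mul_one]
  rw [h1]
  have h2 : ((Fintype.card Y : ℝ)⁻¹ + 1) ^ Fintype.card Y ≤
      Real.exp ((Fintype.card Y : ℝ)⁻¹) ^ Fintype.card Y :=
    pow_le_pow_left₀ (by positivity) (Real.add_one_le_exp _) _
  have h3 : Real.exp ((Fintype.card Y : ℝ)⁻¹) ^ Fintype.card Y = Real.exp 1 := by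
    rw [← Real.exp_nat_mul, mul_inv_cancel₀ (by positivity)]
  have h4 : Real.exp 1 < 4 := by linarith [Real.exp_one_lt_d9]
  linarith

/-- The main numerical inequality. -/
lemma RndBoxB_num {k : ℕ} {p q g M x : ℝ} {e v : ℕ} (hk : 1 ≤ k) (hx : 1 ≤ x) (hM : 1 ≤ M)
    (hg : 0 < g) (hgd : g = k / q - p) (hks : (k : ℝ) / p + k / q = k) (he : 2 ≤ e)
    (hex : (e : ℝ) ≤ x ^ (g / (16 * k))) (hv : v ≤ k * e)
    (hvb : (v : ℝ) < k + p * ((e : ℝ) - 1)) (hK : (k : ℝ) ^ (2 * k) * M ≤ x ^ (g / 16)) :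
    ((v : ℝ) ^ k) ^ e * (M * x ^ (-(k / q : ℝ))) ^ e ≤
      ((k * x : ℝ)⁻¹) ^ v * x ^ ((k : ℝ) / p - 3 / 4 * g) := by
  have hx0 : 0 < x := by linarith
  have hk1 : (1 : ℝ) ≤ k := by exact_mod_cast hk
  have hk0 : (0 : ℝ) < k := by linarith
  have hkx : 0 < (k : ℝ) * x := by positivity
  rw [inv_pow, inv_mul_eq_div, le_div_iff₀ (by positivity)]
  -- bound on v
  have h1 : (v : ℝ) ≤ k * x ^ (g / (16 * k)) := by
    have : (v : ℝ) ≤ k * e := by exact_mod_cast hv
    exact le_trans this (mul_le_mul_of_nonneg_left hex hk0.le)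
  have h2 : (v : ℝ) ^ k ≤ (k : ℝ) ^ k * x ^ (g / 16) := by
    calc (v : ℝ) ^ k ≤ (k * x ^ (g / (16 * k))) ^ k := pow_le_pow_left₀ (by positivity) h1 k
      _ = (k : ℝ) ^ k * x ^ (g / 16) := by
        rw [mul_pow, ← Real.rpow_natCast (x ^ (g / (16 * k))) k, ← Real.rpow_mul hx0.le]
        congr 2
        field_simp
  have h3 : ((k * x : ℝ)) ^ v ≤ ((k : ℝ) ^ k) ^ e * x ^ ((k : ℝ) + p * ((e : ℝ) - 1)) := by
    rw [mul_pow]
    refine mul_le_mul ?_ ?_ (by positivity) (by positivity)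
    · rw [← pow_mul]; exact pow_le_pow_right₀ hk1 hv
    · rw [← Real.rpow_natCast]
      exact Real.rpow_le_rpow_of_exponent_le hx hvb.le
  have h4 : (M * x ^ (-(k / q : ℝ))) ^ e = M ^ e * x ^ (-(k / q : ℝ) * e) := by
    rw [mul_pow, ← Real.rpow_natCast (x ^ (-(k / q : ℝ))) e, ← Real.rpow_mul hx0.le]
  have h5 : ((v : ℝ) ^ k) ^ e ≤ ((k : ℝ) ^ k * x ^ (g / 16)) ^ e :=
    pow_le_pow_left₀ (by positivity) h2 e
  have hA : 0 ≤ ((k : ℝ) ^ k * x ^ (g / 16)) ^ e := by positivity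
  calc ((v : ℝ) ^ k) ^ e * (M * x ^ (-(k / q : ℝ))) ^ e * (k * x) ^ v
      ≤ ((k : ℝ) ^ k * x ^ (g / 16)) ^ e * (M ^ e * x ^ (-(k / q : ℝ) * e)) *
          (((k : ℝ) ^ k) ^ e * x ^ ((k : ℝ) + p * ((e : ℝ) - 1))) := by
        rw [h4]
        refine mul_le_mul ?_ h3 (by positivity) (by positivity)
        exact mul_le_mul_of_nonneg_right h5 (by positivity)
    _ = ((k : ℝ) ^ (2 * k) * M * x ^ (g / 16)) ^ e *
          (x ^ (-(k / q : ℝ) * e) * x ^ ((k : ℝ) + p * ((e : ℝ) - 1))) := by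
        rw [mul_pow, mul_pow, mul_pow, two_mul, pow_add, mul_pow]
        ring
    _ ≤ (x ^ (g / 16) * x ^ (g / 16)) ^ e *
          (x ^ (-(k / q : ℝ) * e) * x ^ ((k : ℝ) + p * ((e : ℝ) - 1))) := by
        refine mul_le_mul_of_nonneg_right ?_ (by positivity)
        exact pow_le_pow_left₀ (by positivity)
          (mul_le_mul_of_nonneg_right hK (by positivity)) e
    _ = x ^ ((g / 8) * e + (-(k / q : ℝ) * e + ((k : ℝ) + p * ((e : ℝ) - 1)))) := by
        rw [← Real.rpow_add hx0, ← Real.rpow_add hx0, Real.rpow_add hx0 ((g / 8) * e),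
          ← Real.rpow_natCast (x ^ (g / 16 + g / 16)) e, ← Real.rpow_mul hx0.le]
        congr 2
        ring
    _ ≤ x ^ ((k : ℝ) / p - 3 / 4 * g) := by
        refine Real.rpow_le_rpow_of_exponent_le hx ?_
        have he' : (2 : ℝ) ≤ e := by exact_mod_cast he
        have e1 : (g / 8) * e + (-(k / q : ℝ) * e + ((k : ℝ) + p * ((e : ℝ) - 1)))
            = (k : ℝ) / p + g * (1 - 7 / 8 * e) := by
          linear_combination ((e : ℝ) - 1) * hgd - hks
        rw [e1]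
        nlinarith

/-- The expected number of bad sets is small.

PROOF. Let `N = |X|`, `γ₀ = k/q - p > 0` (`Par.pq_lt`), `delta = γ₀ / (16 k)`, `gam = γ₀ / 4`. A bad
set with one edge does not exist (an edge has `k` vertices). For `e ≥ 2`, `e ≤ N^{delta}`, and
`v ≤ k e`, `v < k + p (e - 1)`, the number of sets `E'` of `e` edges with `|V(E')| = v` is at most
`(k N)^v (v^k)^e`: choose the vertex set `U` (at most `(k N)^v` possibilities), then the edges, each
a choice of `k` elements of `U`. Each such set lies in `ω` with probability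
`∏ w ≤ (M0 N^{-k/q})^e` (`Ex_subset`). So the expected number of bad sets with these `e, v` is at most
`N^{v - (k/q) e} k^{v} v^{k e} M0^e ≤ N^{k/p} N^{-γ₀ (e-1)} (k^k (k N^{delta})^k M0)^e` because
`v - (k/q) e < k + p(e-1) - (k/q) e = k/p - γ₀ (e-1)` and `v ≤ k e ≤ k N^{delta}`. As `e - 1 ≥ e/2`
this is at most `N^{k/p} (N^{-γ₀/2 + k delta} k^{2k} M0)^e ≤ N^{k/p} N^{- (3/8) γ₀ e}` for `N` large
(with `M0` replaced by `max M0 1`; `γ₀/2 - γ₀/16 = 7γ₀/16`).
The sum over `v ≤ k e` and `e ≥ 2` is at most `N^{k/p} ∑_{e ≥ 2} (k e + 1) N^{-(3/8) γ₀ e}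
≤ N^{k/p - gam}` for `N` large. -/
theorem sparse_event (P : Par) : ∃ delta gam : ℝ, 0 < delta ∧ 0 < gam ∧ ∀ M0 : ℝ, 0 ≤ M0 →
    ∃ N1 : ℕ, ∀ (X : Type) [Fintype X] [DecidableEq X], N1 ≤ Fintype.card X →
      ∀ (w : (Fin P.k → X) → ℝ), IsPr w →
      (∀ c, w c ≤ M0 * (Fintype.card X : ℝ) ^ (-(P.k / P.q : ℝ))) →
      Ex w (fun ω => ((badSets P.p delta ω).card : ℝ)) ≤
        (Fintype.card X : ℝ) ^ ((P.k : ℝ) / P.p - gam) := by
  have hkN : 1 ≤ P.k := by have := P.k_gt; omega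
  have hk1 : (1 : ℝ) ≤ P.k := by exact_mod_cast hkN
  have hk0 : (0 : ℝ) < P.k := by linarith
  obtain ⟨g, hgd⟩ : ∃ g : ℝ, g = P.k / P.q - P.p := ⟨_, rfl⟩
  have hg : 0 < g := by
    have h1 := P.pq_lt
    have h2 := P.q_pos
    have : P.p < P.k / P.q := by rw [lt_div_iff₀ h2]; linarith
    rw [hgd]; linarith
  refine ⟨g / (16 * P.k), g / 4, by positivity, by positivity, ?_⟩
  intro M0 hM0
  set M : ℝ := max M0 1 with hMd
  have hM1 : 1 ≤ M := le_max_right _ _
  have hM : M0 ≤ M := le_max_left _ _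
  set K : ℝ := 8 * ((P.k : ℝ) ^ (2 * P.k) * M) with hKd
  have hKk : (1 : ℝ) ≤ (P.k : ℝ) ^ (2 * P.k) * M := by
    have h1 : (1 : ℝ) ≤ (P.k : ℝ) ^ (2 * P.k) := one_le_pow₀ hk1
    nlinarith
  have hK8 : 8 ≤ K := by rw [hKd]; linarith
  have hK0 : 0 < K := by linarith
  refine ⟨⌈K ^ (16 / g)⌉₊ + 1, ?_⟩
  intro X _ _ hX w hw hwM
  obtain ⟨x, hxd⟩ : ∃ x : ℝ, x = (Fintype.card X : ℝ) := ⟨_, rfl⟩
  have hx1 : 1 ≤ x := by
    rw [hxd]
    have : 1 ≤ Fintype.card X := le_trans (by omega) hX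
    exact_mod_cast this
  have hx0 : 0 < x := by linarith
  have hxK : K ^ (16 / g) ≤ x := by
    rw [hxd]
    have h1 : (⌈K ^ (16 / g)⌉₊ : ℝ) ≤ (Fintype.card X : ℝ) := by
      have : ⌈K ^ (16 / g)⌉₊ ≤ Fintype.card X := by omega
      exact_mod_cast this
    exact le_trans (Nat.le_ceil _) h1
  have hKx : K ≤ x ^ (g / 16) := by
    have h1 : (K ^ (16 / g)) ^ (g / 16) ≤ x ^ (g / 16) :=
      Real.rpow_le_rpow (by positivity) hxK (by positivity)
    rw [← Real.rpow_mul hK0.le] at h1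
    have h2 : 16 / g * (g / 16) = 1 := by field_simp
    rw [h2, Real.rpow_one] at h1
    exact h1
  have hKx' : (P.k : ℝ) ^ (2 * P.k) * M ≤ x ^ (g / 16) := by
    have : (P.k : ℝ) ^ (2 * P.k) * M ≤ K := by rw [hKd]; linarith
    linarith
  rw [← hxd] at hwM ⊢
  -- the family
  classical
  let B : Finset (Finset (Fin P.k → X)) := univ.filter fun E' =>
    E'.Nonempty ∧ (E'.card : ℝ) ≤ x ^ (g / (16 * P.k)) ∧
    ((E'.biUnion Vx).card : ℝ) < (P.k : ℝ) + P.p * ((E'.card : ℝ) - 1)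
  have hcard : ∀ ω : Finset (Fin P.k → X), ((badSets P.p (g / (16 * P.k)) ω).card : ℝ)
      = ∑ E ∈ B, (if E ⊆ ω then 1 else 0) := by
    intro ω
    rw [Finset.sum_boole]
    congr 2
    ext E
    simp only [badSets, B, Finset.mem_filter, Finset.mem_powerset, Finset.mem_univ, true_and,
      hxd]
    tauto
  have hEx : Ex w (fun ω => ((badSets P.p (g / (16 * P.k)) ω).card : ℝ))
      = ∑ E ∈ B, ∏ c ∈ E, w c := by
    have : (fun ω => ((badSets P.p (g / (16 * P.k)) ω).card : ℝ))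
        = fun ω => ∑ E ∈ B, (if E ⊆ ω then (1 : ℝ) else 0) := funext hcard
    rw [this, Ex_sum]
    exact Finset.sum_congr rfl fun E _ => Ex_subset w E
  rw [hEx]
  -- fibers
  obtain ⟨D, hD⟩ : ∃ D : ℕ, D = ⌊x ^ (g / (16 * P.k))⌋₊ := ⟨_, rfl⟩
  have hmaps : ∀ E ∈ B, (E.biUnion Vx, E.card) ∈
      (univ : Finset (Finset (Fin P.k × X))) ×ˢ range (D + 1) := by
    intro E hE
    rw [Finset.mem_product]
    refine ⟨Finset.mem_univ _, Finset.mem_range.2 ?_⟩
    have h1 := (Finset.mem_filter.1 hE).2.2.1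
    have : E.card ≤ D := by rw [hD]; exact Nat.le_floor h1
    omega
  rw [← Finset.sum_fiberwise_of_maps_to hmaps]
  have hterm : ∀ y ∈ (univ : Finset (Finset (Fin P.k × X))) ×ˢ range (D + 1),
      ∑ E ∈ B with (E.biUnion Vx, E.card) = y, ∏ c ∈ E, w c ≤
        ((P.k * x : ℝ)⁻¹) ^ y.1.card * x ^ ((P.k : ℝ) / P.p - 3 / 4 * g) := by
    rintro ⟨V, e⟩ _
    set S := B.filter fun E => (E.biUnion Vx, E.card) = (V, e) with hS
    rcases S.eq_empty_or_nonempty with hemp | ⟨E0, hE0⟩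
    · rw [hemp, Finset.sum_empty]; positivity
    have hE0' := Finset.mem_filter.1 hE0
    have hE0B := (Finset.mem_filter.1 hE0'.1).2
    have hV : E0.biUnion Vx = V := (Prod.ext_iff.1 hE0'.2).1
    have he : E0.card = e := (Prod.ext_iff.1 hE0'.2).2
    obtain ⟨h1, h2, h3⟩ := hE0B
    rw [he] at h2 h3
    rw [hV] at h3
    have hv : V.card ≤ P.k * e := by
      have := RndBoxB_card_le E0
      rwa [hV, he] at this
    have he2 : 2 ≤ e := by
      have he1 : 1 ≤ e := by rw [← he]; exact Finset.card_pos.2 h1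
      by_contra hcon
      have he3 : e = 1 := by omega
      rw [he3] at he h3
      obtain ⟨c, hc⟩ := Finset.card_eq_one.1 he
      have h4 : V.card = P.k := by
        rw [← hV, hc, Finset.singleton_biUnion, RndBoxB_card_Vx]
      rw [h4] at h3
      norm_num at h3
    have hfib : S.card ≤ (V.card ^ P.k) ^ e := by
      refine RndBoxB_fiber V e S fun E hE => ?_
      have := (Finset.mem_filter.1 hE).2
      exact ⟨(Prod.ext_iff.1 this).1, (Prod.ext_iff.1 this).2⟩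
    calc ∑ E ∈ S, ∏ c ∈ E, w c ≤ ∑ _E ∈ S, (M * x ^ (-(P.k / P.q : ℝ))) ^ e := by
          refine Finset.sum_le_sum fun E hE => ?_
          have hEe : E.card = e := (Prod.ext_iff.1 (Finset.mem_filter.1 hE).2).2
          rw [← hEe, ← Finset.prod_const]
          refine Finset.prod_le_prod (fun c _ => (hw c).1) fun c _ => ?_
          exact le_trans (hwM c) (mul_le_mul_of_nonneg_right hM (by positivity))
      _ = (S.card : ℝ) * (M * x ^ (-(P.k / P.q : ℝ))) ^ e := by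
          rw [Finset.sum_const, nsmul_eq_mul]
      _ ≤ ((V.card : ℝ) ^ P.k) ^ e * (M * x ^ (-(P.k / P.q : ℝ))) ^ e := by
          refine mul_le_mul_of_nonneg_right ?_ (by positivity)
          exact_mod_cast hfib
      _ ≤ _ := RndBoxB_num hkN hx1 hM1 hg hgd P.k_split he2 h2 hv h3 hKx'
  refine le_trans (Finset.sum_le_sum hterm) ?_
  rw [Finset.sum_product]
  -- sum over e is constant
  have hs1 : ∀ V : Finset (Fin P.k × X), ∑ _e ∈ range (D + 1),
      ((P.k * x : ℝ)⁻¹) ^ V.card * x ^ ((P.k : ℝ) / P.p - 3 / 4 * g)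
      = ((P.k * x : ℝ)⁻¹) ^ V.card * (((D : ℝ) + 1) * x ^ ((P.k : ℝ) / P.p - 3 / 4 * g)) := by
    intro V
    rw [Finset.sum_const, Finset.card_range, nsmul_eq_mul]
    push_cast; ring
  rw [Finset.sum_congr rfl fun V _ => hs1 V, ← Finset.sum_mul]
  have hcY : (Fintype.card (Fin P.k × X) : ℝ) = P.k * x := by
    rw [Fintype.card_prod, Fintype.card_fin, hxd]; push_cast; ring
  have hsum : ∑ V : Finset (Fin P.k × X), ((P.k * x : ℝ)⁻¹) ^ V.card ≤ 4 := by
    have hpos : 0 < Fintype.card (Fin P.k × X) := by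
      have : (0 : ℝ) < (Fintype.card (Fin P.k × X) : ℝ) := by rw [hcY]; positivity
      exact_mod_cast this
    have := RndBoxB_sum_sets (Fin P.k × X) hpos
    rwa [hcY] at this
  have hDx : (D : ℝ) + 1 ≤ 2 * x ^ (g / 16) := by
    have h1 : (D : ℝ) ≤ x ^ (g / (16 * P.k)) := by rw [hD]; exact Nat.floor_le (by positivity)
    have h2 : x ^ (g / (16 * P.k)) ≤ x ^ (g / 16) := by
      refine Real.rpow_le_rpow_of_exponent_le hx1 ?_
      rw [div_le_div_iff₀ (by positivity) (by norm_num)]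
      nlinarith
    have h3 : 1 ≤ x ^ (g / 16) := Real.one_le_rpow hx1 (by positivity)
    linarith
  calc (∑ V : Finset (Fin P.k × X), ((P.k * x : ℝ)⁻¹) ^ V.card) *
        (((D : ℝ) + 1) * x ^ ((P.k : ℝ) / P.p - 3 / 4 * g))
      ≤ 4 * ((2 * x ^ (g / 16)) * x ^ ((P.k : ℝ) / P.p - 3 / 4 * g)) := by
        refine mul_le_mul hsum ?_ (by positivity) (by norm_num)
        exact mul_le_mul_of_nonneg_right hDx (by positivity)
    _ = 8 * (x ^ (g / 16) * x ^ ((P.k : ℝ) / P.p - 3 / 4 * g)) := by ring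
    _ ≤ x ^ (g / 16) * (x ^ (g / 16) * x ^ ((P.k : ℝ) / P.p - 3 / 4 * g)) :=
        mul_le_mul_of_nonneg_right (le_trans hK8 hKx) (by positivity)
    _ = x ^ (g / 16 + (g / 16 + ((P.k : ℝ) / P.p - 3 / 4 * g))) := by
        rw [← Real.rpow_add hx0, ← Real.rpow_add hx0]
    _ ≤ x ^ ((P.k : ℝ) / P.p - g / 4) :=
        Real.rpow_le_rpow_of_exponent_le hx1 (by linarith)

end

end Pool.Agent.GP2
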