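import Pool.Agent.GP2.Defs

/-!
# YNG: the flat bounds
-/

namespace Pool.Agent.GP2

open Finset

noncomputable section

/-- Sum over the tuples with given sum: the coordinates other than `i` are free. -/
lemma yngA_sum_hyper {m : ℕ} {G M : Type*} [AddCommGroup G] [Fintype G] [DecidableEq G]
    [AddCommMonoid M] (i : Fin (m + 1)) (r : G) (F : (Fin m → G) → M) :
    ∑ g : Fin (m + 1) → G with ∑ j, g j = r, F (fun j => g (i.succAbove j)) = ∑ g', F g' := by
  refine Finset.sum_nbij' (fun g j => g (i.succAbove j))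
    (fun g' => i.insertNth (r - ∑ j, g' j) g') ?_ ?_ ?_ ?_ ?_
  · intro a _
    exact mem_univ _
  · intro a _
    rw [mem_filter]
    refine ⟨mem_univ _, ?_⟩
    rw [Fin.sum_univ_succAbove _ i]
    simp
  · intro a ha
    rw [mem_filter] at ha
    have h1 := ha.2
    rw [Fin.sum_univ_succAbove _ i] at h1
    have h2 : r - ∑ j, a (i.succAbove j) = a i := by
      rw [← h1]; abel
    funext j
    rcases Fin.eq_self_or_eq_succAbove i j with hj | ⟨j', hj⟩
    · subst hj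
      simp only [Fin.insertNth_apply_same]
      exact h2
    · subst hj
      simp only [Fin.insertNth_apply_succAbove]
  · intro a _
    funext j
    simp
  · intro a _
    rfl

/-- The product of the products over all but one index. -/
lemma yngA_prod_prod {m : ℕ} (u : Fin (m + 1) → ℝ) :
    ∏ i : Fin (m + 1), ∏ j : Fin m, u (i.succAbove j) = ∏ j, u j ^ m := by
  have h1 : ∀ i : Fin (m + 1), ∏ j : Fin m, u (i.succAbove j) =
      ∏ j : Fin (m + 1), if j ≠ i then u j else 1 := by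
    intro i
    rw [Fin.prod_univ_succAbove _ i]
    simp only [ne_eq, not_true_eq_false, if_false, one_mul]
    refine prod_congr rfl fun j _ => ?_
    rw [if_pos (Fin.succAbove_ne i j)]
  rw [prod_congr rfl fun i _ => h1 i, prod_comm]
  refine prod_congr rfl fun j _ => ?_
  rw [prod_ite, prod_const_one, mul_one, prod_const]
  congr 1
  have h2 : (univ.filter fun x : Fin (m + 1) => j ≠ x) = univ.erase j := by
    ext x
    simp [eq_comm]
  rw [h2, card_erase_of_mem (mem_univ _), card_univ, Fintype.card_fin]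
  rfl

/-- The normalised case of Young's inequality. -/
lemma yngA_norm {m : ℕ} (hm : 1 ≤ m) {G : Type*} [AddCommGroup G] [Fintype G] [DecidableEq G]
    {s : ℝ} (hs : s = ((m : ℝ) + 1) / m) (r : G) (z : Fin (m + 1) → G → ℝ)
    (hz : ∀ j g, 0 ≤ z j g) (h1 : ∀ j, ∑ h, z j h ^ s = 1) :
    ∑ g : Fin (m + 1) → G with ∑ j, g j = r, ∏ j, z j (g j) ≤ 1 := by
  have hm0 : (0 : ℝ) < m := by exact_mod_cast hm
  have hm1 : (0 : ℝ) < (m : ℝ) + 1 := by linarith
  have key : ∀ g : Fin (m + 1) → G, ∏ j, z j (g j) ≤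
      ∑ i : Fin (m + 1), (1 / ((m : ℝ) + 1)) *
        ∏ j : Fin m, z (i.succAbove j) (g (i.succAbove j)) ^ s := by
    intro g
    have h2 := Real.geom_mean_le_arith_mean_weighted (univ : Finset (Fin (m + 1)))
      (fun _ => 1 / ((m : ℝ) + 1))
      (fun i => ∏ j : Fin m, z (i.succAbove j) (g (i.succAbove j)) ^ s)
      (fun _ _ => by positivity)
      (by
        rw [sum_const, card_univ, Fintype.card_fin, nsmul_eq_mul]
        push_cast
        field_simp)
      (fun i _ => prod_nonneg fun j _ => Real.rpow_nonneg (hz _ _) _)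
    refine le_trans (le_of_eq ?_) h2
    have h3 : ∀ i : Fin (m + 1),
        (∏ j : Fin m, z (i.succAbove j) (g (i.succAbove j)) ^ s) ^ (1 / ((m : ℝ) + 1)) =
        ∏ j : Fin m, (fun l => z l (g l) ^ (1 / (m : ℝ))) (i.succAbove j) := by
      intro i
      rw [← Real.finsetProd_rpow _ _ (fun j _ => Real.rpow_nonneg (hz _ _) _)]
      refine prod_congr rfl fun j _ => ?_
      rw [← Real.rpow_mul (hz _ _)]
      congr 1
      rw [hs]
      field_simp
    rw [prod_congr rfl fun i _ => h3 i,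
      yngA_prod_prod (fun l : Fin (m + 1) => z l (g l) ^ (1 / (m : ℝ)))]
    refine prod_congr rfl fun j _ => ?_
    rw [← Real.rpow_natCast, ← Real.rpow_mul (hz _ _), one_div, inv_mul_cancel₀ hm0.ne',
      Real.rpow_one]
  calc ∑ g : Fin (m + 1) → G with ∑ j, g j = r, ∏ j, z j (g j)
      ≤ ∑ g : Fin (m + 1) → G with ∑ j, g j = r, ∑ i : Fin (m + 1), (1 / ((m : ℝ) + 1)) *
        ∏ j : Fin m, z (i.succAbove j) (g (i.succAbove j)) ^ s :=
        sum_le_sum fun g _ => key g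
    _ = ∑ i : Fin (m + 1), (1 / ((m : ℝ) + 1)) *
        ∑ g : Fin (m + 1) → G with ∑ j, g j = r,
          ∏ j : Fin m, z (i.succAbove j) (g (i.succAbove j)) ^ s := by
        rw [sum_comm]
        exact sum_congr rfl fun i _ => by rw [mul_sum]
    _ = ∑ i : Fin (m + 1), (1 / ((m : ℝ) + 1)) * 1 := by
        refine sum_congr rfl fun i _ => ?_
        congr 1
        rw [yngA_sum_hyper i r (fun g' : Fin m → G => ∏ j : Fin m, z (i.succAbove j) (g' j) ^ s)]
        rw [← Fintype.prod_sum fun (j : Fin m) (h : G) => z (i.succAbove j) h ^ s]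
        exact prod_eq_one fun j _ => h1 _
    _ = 1 := by
        rw [sum_const, card_univ, Fintype.card_fin, nsmul_eq_mul]
        push_cast
        field_simp
    _ ≤ 1 := le_refl _

/-- Young's inequality with the exponent `s = k/(k-1)`. -/
lemma yngA_holder {m : ℕ} (hm : 1 ≤ m) {G : Type*} [AddCommGroup G] [Fintype G] [DecidableEq G]
    {s : ℝ} (hs : s = ((m : ℝ) + 1) / m) (r : G) (y : Fin (m + 1) → G → ℝ)
    (hy : ∀ j g, 0 ≤ y j g) :
    ∑ g : Fin (m + 1) → G with ∑ j, g j = r, ∏ j, y j (g j) ≤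
      ∏ j, (∑ h, y j h ^ s) ^ (1 / s) := by
  have hm0 : (0 : ℝ) < m := by exact_mod_cast hm
  have hs0 : 0 < s := by rw [hs]; positivity
  have hA0 : ∀ j, 0 ≤ ∑ h, y j h ^ s := fun j => sum_nonneg fun h _ => Real.rpow_nonneg (hy _ _) _
  by_cases hA : ∃ j, ∑ h, y j h ^ s = 0
  · obtain ⟨j, hj⟩ := hA
    have h0 : ∀ h, y j h = 0 := by
      intro h
      have h2 := (sum_eq_zero_iff_of_nonneg (fun h _ => Real.rpow_nonneg (hy j h) s)).1 hj h
        (mem_univ _)
      exact (Real.rpow_eq_zero (hy _ _) hs0.ne').1 h2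
    have h3 : ∑ g : Fin (m + 1) → G with ∑ j, g j = r, ∏ j, y j (g j) = 0 :=
      sum_eq_zero fun g _ => prod_eq_zero (mem_univ j) (h0 _)
    rw [h3]
    exact prod_nonneg fun j _ => Real.rpow_nonneg (hA0 j) _
  · push Not at hA
    have hApos : ∀ j, 0 < ∑ h, y j h ^ s := fun j => lt_of_le_of_ne (hA0 j) (Ne.symm (hA j))
    have hc : ∀ j, 0 < (∑ h, y j h ^ s) ^ (1 / s) := fun j => Real.rpow_pos_of_pos (hApos j) _
    have h4 := yngA_norm hm hs r (fun j g => y j g / (∑ h, y j h ^ s) ^ (1 / s))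
      (fun j g => div_nonneg (hy _ _) (hc j).le)
      (fun j => by
        have h5 : ∀ h, (y j h / (∑ h, y j h ^ s) ^ (1 / s)) ^ s = y j h ^ s / ∑ h, y j h ^ s := by
          intro h
          rw [Real.div_rpow (hy _ _) (hc j).le, ← Real.rpow_mul (hA0 j), one_div,
            inv_mul_cancel₀ hs0.ne', Real.rpow_one]
        rw [sum_congr rfl fun h _ => h5 h, ← sum_div]
        exact div_self (hA j))
    have h6 : ∀ g : Fin (m + 1) → G, ∏ j, y j (g j) =
        (∏ j, (∑ h, y j h ^ s) ^ (1 / s)) *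
          ∏ j, (y j (g j) / (∑ h, y j h ^ s) ^ (1 / s)) := by
      intro g
      rw [← prod_mul_distrib]
      refine prod_congr rfl fun j _ => ?_
      rw [mul_div_cancel₀ _ (hc j).ne']
    rw [sum_congr rfl fun g _ => h6 g, ← mul_sum]
    calc _ ≤ (∏ j, (∑ h, y j h ^ s) ^ (1 / s)) * 1 :=
          mul_le_mul_of_nonneg_left h4 (prod_nonneg fun j _ => (hc j).le)
      _ = _ := mul_one _

/-- The power mean inequality. -/
lemma yngA_power_mean {ι : Type*} [Fintype ι] {s p : ℝ} (hs : 0 < s) (hsp : s ≤ p)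
    (y : ι → ℝ) (hy : ∀ g, 0 ≤ y g) :
    (∑ h, y h ^ s) ^ (1 / s) ≤
      (Fintype.card ι : ℝ) ^ (1 / s - 1 / p) * (∑ h, y h ^ p) ^ (1 / p) := by
  have hp : 0 < p := lt_of_lt_of_le hs hsp
  have h1 : 1 ≤ p / s := by rwa [one_le_div hs]
  have h3 := Real.rpow_sum_le_const_mul_sum_rpow_of_nonneg (s := (univ : Finset ι))
    (f := fun h => y h ^ s) h1 (fun h _ => Real.rpow_nonneg (hy h) s)
  have h4 : ∀ h, (y h ^ s) ^ (p / s) = y h ^ p := by
    intro h
    rw [← Real.rpow_mul (hy h)]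
    congr 1
    field_simp
  have h5 : 0 ≤ ∑ h, y h ^ s := sum_nonneg fun h _ => Real.rpow_nonneg (hy h) _
  have h6 : 0 ≤ ∑ h, y h ^ p := sum_nonneg fun h _ => Real.rpow_nonneg (hy h) _
  rw [sum_congr rfl fun h _ => h4 h] at h3
  have h7 := Real.rpow_le_rpow (Real.rpow_nonneg h5 _) h3 (by positivity : 0 ≤ 1 / p)
  rw [← Real.rpow_mul h5, Real.mul_rpow (by positivity) h6, ← Real.rpow_mul (by positivity)] at h7
  have h8 : p / s * (1 / p) = 1 / s := by field_simp
  have h9 : (p / s - 1) * (1 / p) = 1 / s - 1 / p := by field_simp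
  rw [h8, h9, card_univ] at h7
  exact h7

/-- Young's inequality for `k` functions on a finite abelian group, with the constant for
`ℓ_p` norms.

PROOF. Let `s = k/(k-1)`, so `s ≤ p` (`hk`), and let `H = {g : ∑ g_j = r}`. For `g ∈ H` write
`∏_j y_j(g_j) = ∏_i f_i(g)`, `f_i(g) = ∏_{j ≠ i} y_j(g_j)^{1/(k-1)}`. Hoelder's inequality with `k`
equal exponents: `∑_{g ∈ H} ∏_i f_i(g) ≤ ∏_i (∑_{g ∈ H} f_i(g)^k)^{1/k}`. An element of `H` is
determined by the coordinates `g_j`, `j ≠ i`, which are arbitrary, so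
`∑_{g ∈ H} f_i(g)^k = ∏_{j ≠ i} ∑_h y_j(h)^s`. The product over `i` of the `k`-th roots is
`∏_j (∑_h y_j(h)^s)^{(k-1)/k} = ∏_j ‖y_j‖_s`. Finally `‖y_j‖_s ≤ |G|^{1/s - 1/p} ‖y_j‖_p`
(power mean inequality), and `k (1/s - 1/p) = k - 1 - k/p`. -/
theorem young_sum {k : ℕ} (hk2 : 2 ≤ k) {G : Type*} [AddCommGroup G] [Fintype G] [DecidableEq G]
    {p : ℝ} (hp : 1 < p) (hk : (k : ℝ) / (k - 1) ≤ p) (r : G) (y : Fin k → G → ℝ)
    (hy : ∀ j g, 0 ≤ y j g) :
    ∑ g : Fin k → G with ∑ j, g j = r, ∏ j, y j (g j) ≤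
      (Fintype.card G : ℝ) ^ ((k : ℝ) - 1 - k / p) * ∏ j, (∑ g, y j g ^ p) ^ (1 / p) := by
  obtain ⟨m, rfl⟩ : ∃ m, k = m + 1 := ⟨k - 1, by omega⟩
  have hm : 1 ≤ m := by omega
  have hm0 : (0 : ℝ) < m := by exact_mod_cast hm
  have hcast : ((m + 1 : ℕ) : ℝ) = (m : ℝ) + 1 := by push_cast; ring
  rw [hcast] at hk ⊢
  have hk' : ((m : ℝ) + 1) / m ≤ p := by
    have : ((m : ℝ) + 1) - 1 = m := by ring
    rwa [this] at hk
  have hs0 : 0 < ((m : ℝ) + 1) / m := by positivity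
  have hG : 0 < (Fintype.card G : ℝ) := by
    exact_mod_cast Fintype.card_pos
  refine (yngA_holder hm rfl r y hy).trans ?_
  have h1 : ∀ j, (∑ h, y j h ^ (((m : ℝ) + 1) / m)) ^ (1 / (((m : ℝ) + 1) / m)) ≤
      (Fintype.card G : ℝ) ^ (1 / (((m : ℝ) + 1) / m) - 1 / p) * (∑ h, y j h ^ p) ^ (1 / p) :=
    fun j => yngA_power_mean hs0 hk' (y j) (hy j)
  refine (prod_le_prod (fun j _ => Real.rpow_nonneg
    (sum_nonneg fun h _ => Real.rpow_nonneg (hy _ _) _) _) fun j _ => h1 j).trans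
    (le_of_eq ?_)
  rw [prod_mul_distrib, prod_const, card_univ, Fintype.card_fin, ← Real.rpow_natCast,
    ← Real.rpow_mul hG.le, hcast]
  congr 2
  have hp0 : p ≠ 0 := by linarith
  field_simp
  ring

/-- The tuples of pairs are the pairs of tuples. -/
lemma yngA_pair_sum {k : ℕ} {A G M : Type*} [Fintype A] [AddCommGroup G] [Fintype G]
    [DecidableEq G] [AddCommMonoid M] (r : G) (F : (Fin k → A × G) → M) :
    ∑ c : Fin k → A × G with ∑ j, (c j).2 = r, F c =
      ∑ a : Fin k → A, ∑ g : Fin k → G with ∑ j, g j = r, F (fun j => (a j, g j)) := by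
  classical
  rw [← sum_product']
  refine Finset.sum_nbij' (fun c => (fun j => (c j).1, fun j => (c j).2))
    (fun q j => (q.1 j, q.2 j)) ?_ ?_ ?_ ?_ ?_
  · intro c hc
    rw [mem_filter] at hc
    rw [mem_product, mem_filter]
    exact ⟨mem_univ _, mem_univ _, hc.2⟩
  · intro q hq
    rw [mem_product, mem_filter] at hq
    rw [mem_filter]
    exact ⟨mem_univ _, hq.2.2⟩
  · intro c _
    rfl
  · intro q _
    rfl
  · intro c _
    rfl

/-- The flat bound on `Fin N0 × G`.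

PROOF. The sum is `∑_{a : Fin k → Fin N0} ∑_{g : ∑ g = r} ∏_j x_j(a_j, g_j)
≤ |G|^{k-1-k/p} ∑_a ∏_j ‖x_j(a_j, ·)‖_p = |G|^{k-1-k/p} ∏_j ∑_{a} ‖x_j(a, ·)‖_p
≤ |G|^{k-1-k/p} ∏_j N0^{1 - 1/p} ‖x_j‖_p` by `young_sum` and Hoelder's inequality. -/
theorem flat_sum {k : ℕ} (hk2 : 2 ≤ k) {G : Type*} [AddCommGroup G] [Fintype G] [DecidableEq G]
    {p : ℝ} (hp : 1 < p) (hk : (k : ℝ) / (k - 1) ≤ p) (N0 : ℕ) (r : G)
    (x : Fin k → Fin N0 × G → ℝ) (hx : ∀ j g, 0 ≤ x j g) :
    ∑ c : Fin k → Fin N0 × G with ∑ j, (c j).2 = r, ∏ j, x j (c j) ≤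
      (N0 : ℝ) ^ ((k : ℝ) - k / p) * (Fintype.card G : ℝ) ^ ((k : ℝ) - 1 - k / p) *
        ∏ j, (∑ g, x j g ^ p) ^ (1 / p) := by
  have hp0 : 0 < p := by linarith
  set C : ℝ := (Fintype.card G : ℝ) ^ ((k : ℝ) - 1 - k / p) with hC
  have hC0 : 0 ≤ C := by positivity
  rw [yngA_pair_sum]
  have hpart : ∀ j (a : Fin N0), 0 ≤ ∑ g, x j (a, g) ^ p := fun j a =>
    sum_nonneg fun g _ => Real.rpow_nonneg (hx _ _) _
  have hone : ∀ j, ∑ a : Fin N0, (∑ g, x j (a, g) ^ p) ^ (1 / p) ≤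
      (N0 : ℝ) ^ (1 - 1 / p) * (∑ g, x j g ^ p) ^ (1 / p) := by
    intro j
    have h1 := yngA_power_mean (s := 1) (p := p) one_pos hp.le
      (fun a : Fin N0 => (∑ g, x j (a, g) ^ p) ^ (1 / p))
      (fun a => Real.rpow_nonneg (hpart j a) _)
    have h2 : ∀ a : Fin N0, ((∑ g, x j (a, g) ^ p) ^ (1 / p)) ^ p = ∑ g, x j (a, g) ^ p := by
      intro a
      rw [← Real.rpow_mul (hpart j a), one_div, inv_mul_cancel₀ hp0.ne', Real.rpow_one]
    rw [sum_congr rfl fun a _ => h2 a, ← Fintype.sum_prod_type'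
      (f := fun (a : Fin N0) (g : G) => x j (a, g) ^ p)] at h1
    simpa using h1
  calc ∑ a : Fin k → Fin N0, ∑ g : Fin k → G with ∑ j, g j = r, ∏ j, x j (a j, g j)
      ≤ ∑ a : Fin k → Fin N0, C * ∏ j, (∑ g, x j (a j, g) ^ p) ^ (1 / p) :=
        sum_le_sum fun a _ => young_sum hk2 hp hk r (fun j g => x j (a j, g))
          (fun j g => hx _ _)
    _ = C * ∏ j, ∑ a : Fin N0, (∑ g, x j (a, g) ^ p) ^ (1 / p) := by
        rw [← mul_sum]
        congr 1
        exact (Fintype.prod_sum fun (j : Fin k) (a : Fin N0) =>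
          (∑ g, x j (a, g) ^ p) ^ (1 / p)).symm
    _ ≤ C * ∏ j, ((N0 : ℝ) ^ (1 - 1 / p) * (∑ g, x j g ^ p) ^ (1 / p)) := by
        refine mul_le_mul_of_nonneg_left (prod_le_prod (fun j _ => ?_) fun j _ => hone j) hC0
        exact sum_nonneg fun a _ => Real.rpow_nonneg (hpart j a) _
    _ = (N0 : ℝ) ^ ((k : ℝ) - k / p) * C * ∏ j, (∑ g, x j g ^ p) ^ (1 / p) := by
        rw [prod_mul_distrib, prod_const, card_univ, Fintype.card_fin, ← Real.rpow_natCast,
          ← Real.rpow_mul (by positivity)]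
        have h3 : (1 - 1 / p) * (k : ℝ) = (k : ℝ) - k / p := by ring
        rw [h3]
        ring

/-- The number of edges with given label sum. -/
theorem card_label_sum {k : ℕ} (hk : 1 ≤ k) {G : Type*} [AddCommGroup G] [Fintype G]
    [DecidableEq G] (N0 : ℕ) (r : G) :
    (univ.filter fun c : Fin k → Fin N0 × G => ∑ j, (c j).2 = r).card =
      N0 ^ k * (Fintype.card G) ^ (k - 1) := by
  obtain ⟨m, rfl⟩ : ∃ m, k = m + 1 := ⟨k - 1, by omega⟩
  rw [card_eq_sum_ones, yngA_pair_sum]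
  have h1 := yngA_sum_hyper (0 : Fin (m + 1)) r (fun _ : Fin m → G => (1 : ℕ))
  rw [h1]
  simp

variable (P : Par) (T N0 : ℕ)

end

end Pool.Agent.GP2
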